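import Pool.Agent.Lib.MP_1c03d5_ag.Gen1

/-!
# TASK BIG: rational sections, norms, big line bundles
-/

universe u

namespace Pool.Agent.Lib.MP_1c03d5_ag

noncomputable section

variable {k : Type u} [Field k] {P : EqRel k}

section aux

variable {K : Type u} [Field K] [Algebra k K] {A : Subalgebra k K} {e : K}

theorem big_ev (he : IsIntegral A e) {x : K} {N : ℕ} (h : IsIntegral A (x * e ^ N)) :
    ∀ᶠ n in Filter.atTop, IsIntegral A (x * e ^ n) := by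
  filter_upwards [Filter.eventually_ge_atTop N] with n hn
  obtain ⟨d, rfl⟩ := Nat.exists_eq_add_of_le hn
  rw [pow_add, ← mul_assoc]
  exact h.mul (he.pow d)

theorem big_adjoin (he : IsIntegral A e) {H : Set K} (hH : ∀ x ∈ H, IsIntegral A (x * e)) {x : K}
    (hx : x ∈ Algebra.adjoin k H) : ∀ᶠ n in Filter.atTop, IsIntegral A (x * e ^ n) := by
  induction hx using Algebra.adjoin_induction with
  | mem x hx => exact big_ev he (N := 1) (by rw [pow_one]; exact hH x hx)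
  | algebraMap c =>
    refine big_ev he (N := 0) ?_
    rw [pow_zero, mul_one]
    exact isIntegral_algebraMap (x := (⟨algebraMap k K c, A.algebraMap_mem c⟩ : A))
  | add x y _ _ hx hy =>
    filter_upwards [hx, hy] with n h1 h2
    rw [add_mul]
    exact h1.add h2
  | mul x y _ _ hx hy =>
    obtain ⟨n, h1, h2⟩ := (hx.and hy).exists
    refine big_ev he (N := n + n) ?_
    rw [show x * y * e ^ (n + n) = x * e ^ n * (y * e ^ n) by ring]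
    exact h1.mul h2

theorem big_int (he : IsIntegral A e) {R : Subalgebra k K}
    (hR : ∀ x ∈ R, ∀ᶠ n in Filter.atTop, IsIntegral A (x * e ^ n)) {y : K} (hy : IsIntegral R y) :
    ∀ᶠ n in Filter.atTop, IsIntegral A (y * e ^ n) := by
  obtain ⟨p, hp, hy⟩ := hy
  have hq : (p.map (algebraMap R K)).Monic := hp.map _
  have h1 : ∀ᶠ n in Filter.atTop, ∀ i ∈ Finset.range (p.map (algebraMap R K)).natDegree,
      IsIntegral A ((p.map (algebraMap R K)).coeff i * e ^ n) :=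
    (Filter.eventually_all_finset _).2 fun i _ => hR _ (by rw [Polynomial.coeff_map]; exact (p.coeff i).2)
  have h2 : (p.map (algebraMap R K)).eval y = 0 := by rw [Polynomial.eval_map]; exact hy
  generalize p.map (algebraMap R K) = q at hq h1 h2
  filter_upwards [h1] with n hn
  have hl : q.scaleRoots (e ^ n) ∈ Polynomial.lifts (algebraMap (integralClosure A K) K) := by
    rw [Polynomial.lifts_iff_coeff_lifts]
    intro i
    suffices h : IsIntegral A ((q.scaleRoots (e ^ n)).coeff i) from ⟨⟨_, h⟩, rfl⟩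
    rw [Polynomial.coeff_scaleRoots]
    rcases lt_trichotomy i q.natDegree with h | h | h
    · obtain ⟨d, hd⟩ : ∃ d, q.natDegree - i = d + 1 := ⟨q.natDegree - i - 1, by omega⟩
      rw [hd, pow_succ', ← mul_assoc]
      exact (hn i (Finset.mem_range.2 h)).mul ((he.pow n).pow d)
    · rw [h, Nat.sub_self, pow_zero, mul_one, hq.coeff_natDegree]
      exact isIntegral_one
    · rw [Polynomial.coeff_eq_zero_of_natDegree_lt h, zero_mul]
      exact isIntegral_zero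
  obtain ⟨r, hr, -, hm⟩ := Polynomial.lifts_and_natDegree_eq_and_monic hl
    ((Polynomial.monic_scaleRoots_iff _).2 hq)
  have h3 : IsIntegral (integralClosure A K) (y * e ^ n) := by
    refine ⟨r, hm, ?_⟩
    rw [← Polynomial.eval_map, hr, mul_comm]
    have := Polynomial.scaleRoots_eval₂_eq_zero (RingHom.id K) (s := e ^ n) (p := q) (r := y)
      (by rw [Polynomial.eval₂_id]; exact h2)
    rwa [Polynomial.eval₂_id, RingHom.id_apply] at this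
  exact isIntegral_trans _ h3

end aux

theorem big_comm (L L' : P.LB) : Commute L L' :=
  Subtype.ext (funext fun i => funext fun j => mul_comm (L.1 i j) (L'.1 i j))

theorem big_mul_pow (L L' : P.LB) (n : ℕ) : (L * L') ^ n = L ^ n * L' ^ n :=
  (big_comm L L').mul_pow n

namespace Gen

variable {Γ : Gen P} {L L' : P.LB} {E E' : P.Pt Γ.K' → Γ.K'}

theorem RS.mul (h : Γ.RS L E) (h' : Γ.RS L' E') : Γ.RS (L * L') fun σ => E σ * E' σ := by
  intro σ hσ τ hτ r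
  simp only
  rw [h σ hσ τ hτ r, h' σ hσ τ hτ r, r.tr_mul]
  ring

theorem RS.pow (h : Γ.RS L E) (m : ℕ) : Γ.RS (L ^ m) fun σ => E σ ^ m := by
  intro σ hσ τ hτ r
  simp only
  rw [h σ hσ τ hτ r, r.tr_pow, mul_pow]

theorem RS.const_mul (h : Γ.RS L E) (φ : Γ.K') : Γ.RS L fun σ => φ * E σ := by
  intro σ hσ τ hτ r
  simp only
  rw [h σ hσ τ hτ r]
  ring

theorem RS.add (h : Γ.RS L E) (h' : Γ.RS L E') : Γ.RS L fun σ => E σ + E' σ := by
  intro σ hσ τ hτ r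
  simp only
  rw [h σ hσ τ hτ r, h' σ hσ τ hτ r]
  ring

theorem RS.congr (h : Γ.RS L E) (h' : ∀ σ ∈ Γ.S, E σ = E' σ) : Γ.RS L E' := by
  intro σ hσ τ hτ r
  rw [← h' σ hσ, ← h' τ hτ]
  exact h σ hσ τ hτ r

theorem RS.nz (h : Γ.RS L E) {σ} (hσ : σ ∈ Γ.S) (h0 : E σ ≠ 0) : Γ.Nz E := by
  intro τ hτ h1
  apply h0
  rw [h σ hσ τ hτ (Γ.rel σ hσ τ hτ), h1, mul_zero]

/-- Two rational sections are proportional. -/
theorem RS.exists_eq_mul (h : Γ.RS L E) (h' : Γ.RS L E') (h0 : Γ.Nz E') :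
    ∃ φ, ∀ σ ∈ Γ.S, E σ = φ * E' σ := by
  obtain ⟨τ, hτ⟩ := Γ.ne
  refine ⟨E τ / E' τ, fun σ hσ => ?_⟩
  have h1 := h0 τ hτ
  rw [h σ hσ τ hτ (Γ.rel σ hσ τ hτ), h' σ hσ τ hτ (Γ.rel σ hσ τ hτ)]
  field_simp

/-- A rational section with prescribed value. -/
theorem exists_rs (L : P.LB) {σ} (hσ : σ ∈ Γ.S) (x : Γ.K') : ∃ E, Γ.RS L E ∧ E σ = x := by
  classical
  refine ⟨fun τ => if h : P.Rel τ σ then h.tr L * x else 0, fun ρ hρ τ hτ r => ?_, ?_⟩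
  · simp only
    rw [dif_pos (Γ.rel ρ hρ σ hσ), dif_pos (Γ.rel τ hτ σ hσ), ← mul_assoc]
    congr 1
    exact (L.2 Γ.K' ρ τ σ r _ _).symm
  · simp only
    rw [dif_pos (Γ.rel σ hσ σ hσ), PreRel.Rel.tr_self, one_mul]

theorem Reg.mul (h : Γ.Reg E) (h' : Γ.Reg E') : Γ.Reg fun σ => E σ * E' σ :=
  fun σ hσ => (h σ hσ).mul (h' σ hσ)

theorem Reg.pow (h : Γ.Reg E) (m : ℕ) : Γ.Reg fun σ => E σ ^ m :=
  fun σ hσ => (h σ hσ).pow m

theorem reg_val (a : P.El) : Γ.Reg fun σ => σ.val a := fun σ _ =>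
  isIntegral_algebraMap (x := (⟨σ.val a, ⟨_, rfl⟩⟩ : σ.2.range))

theorem invt_val (a : P.El) : Γ.Invt fun σ => σ.val a := fun _ _ _ _ => rfl

theorem reg_iff : Γ.Reg E ↔ ∀ σ ∈ Γ.S, ∀ w : Val k Γ.K', σ.Cen w → E σ ∈ w.O := by
  refine forall₂_congr fun σ _ => (isIntegral_iff_val _ _).trans (forall_congr' fun w => ?_)
  refine imp_congr_left ⟨fun h a => h _ ⟨a, rfl⟩, ?_⟩
  rintro h _ ⟨a, rfl⟩
  exact h a

/-- Conjugate families. -/
def cj (γ : Γ.K' ≃ₐ[k] Γ.K') (E : P.Pt Γ.K' → Γ.K') : P.Pt Γ.K' → Γ.K' :=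
  fun σ => γ.symm (E (Γ.act γ σ))

theorem RS.cj (h : Γ.RS L E) {γ} (hγ : γ ∈ Γ.G) : Γ.RS L (cj γ E) := by
  intro σ hσ τ hτ r
  have h1 := h _ (Γ.act_mem hγ hσ) _ (Γ.act_mem hγ hτ) (r.map γ.toAlgHom)
  have h2 : (r.map γ.toAlgHom).tr L = γ (r.tr L) := r.ev_map γ.toAlgHom _
  simp only [Gen.cj]
  rw [h1, h2, map_mul, AlgEquiv.symm_apply_apply]

theorem Reg.cj (h : Γ.Reg E) {γ} (hγ : γ ∈ Γ.G) : Γ.Reg (cj γ E) := by
  rw [reg_iff] at h ⊢
  intro σ hσ w hw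
  refine h _ (Γ.act_mem hγ hσ) (w.comap γ.symm.toAlgHom) fun a => ?_
  show γ.symm (γ (σ.2 a)) ∈ w.O
  rw [AlgEquiv.symm_apply_apply]
  exact hw a

/-- The norm of a family. -/
def norm (E : P.Pt Γ.K' → Γ.K') : P.Pt Γ.K' → Γ.K' := fun σ => ∏ γ : Γ.G, cj γ.1 E σ

theorem RS.norm (h : Γ.RS L E) : Γ.RS (L ^ Fintype.card Γ.G) (norm E) := by
  intro σ hσ τ hτ r
  simp only [Gen.norm]
  rw [Finset.prod_congr rfl fun (γ : Γ.G) _ => h.cj γ.2 σ hσ τ hτ r, Finset.prod_mul_distrib,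
    Finset.prod_const, Finset.card_univ, r.tr_pow]

theorem invt_norm (E : P.Pt Γ.K' → Γ.K') : Γ.Invt (norm E) := by
  intro δ hδ σ _
  simp only [Gen.norm]
  rw [map_prod]
  refine Fintype.prod_equiv (Equiv.mulRight (⟨δ, hδ⟩ : Γ.G)) _ _ fun γ => ?_
  show γ.1.symm (E (Γ.act γ.1 (Γ.act δ σ))) = δ (δ.symm (γ.1.symm (E (Γ.act γ.1 (Γ.act δ σ)))))
  rw [AlgEquiv.apply_symm_apply]

theorem Nz.norm (h : Γ.Nz E) : Γ.Nz (norm E) := fun _ hσ =>
  Finset.prod_ne_zero_iff.2 fun γ _ =>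
    (map_ne_zero γ.1.symm).2 (h _ (Γ.act_mem γ.2 hσ))

theorem Reg.norm (h : Γ.Reg E) : Γ.Reg (norm E) := fun σ hσ =>
  IsIntegral.prod _ fun γ _ => h.cj γ.2 σ hσ

theorem big_norm_mul (h : Γ.Reg E) {φ : Γ.K'} (h' : Γ.Reg fun σ => φ * E σ) :
    Γ.Reg fun σ => φ * norm E σ := by
  classical
  intro σ hσ
  have e : norm E σ = E σ * ∏ γ ∈ Finset.univ.erase (1 : Γ.G), cj γ.1 E σ :=
    (Finset.mul_prod_erase Finset.univ (fun γ : Γ.G => cj γ.1 E σ) (Finset.mem_univ 1)).symm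
  show IsIntegral _ (φ * norm E σ)
  rw [e, ← mul_assoc]
  exact (h' σ hσ).mul (IsIntegral.prod _ fun γ _ => h.cj γ.2 σ hσ)

/-- Invariance can be dropped from the definition of bigness. -/
theorem big_mk (h : ∀ Φ : Finset Γ.K', ∃ m, 0 < m ∧ ∃ E, Γ.RS (L ^ m) E ∧ Γ.Nz E ∧ Γ.Reg E ∧
    ∀ φ ∈ Φ, Γ.Reg fun σ => φ * E σ) : Γ.Big L := by
  intro Φ
  obtain ⟨m, hm, E, h1, h2, h3, h4⟩ := h Φ
  refine ⟨m * Fintype.card Γ.G, Nat.mul_pos hm Fintype.card_pos, norm E, ?_, invt_norm E, h2.norm,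
    h3.norm, fun φ hφ => big_norm_mul h3 (h4 φ hφ)⟩
  rw [pow_mul]
  exact h1.norm

theorem big_reg_pow (h : Γ.Reg E) {φ : Γ.K'} (h' : Γ.Reg fun σ => φ * E σ) {m : ℕ} (hm : 0 < m) :
    Γ.Reg fun σ => φ * E σ ^ m := by
  intro σ hσ
  obtain ⟨d, rfl⟩ := Nat.exists_eq_add_of_lt hm
  show IsIntegral _ (φ * E σ ^ (0 + d + 1))
  rw [pow_succ', ← mul_assoc]
  exact (h' σ hσ).mul ((h σ hσ).pow _)

theorem big_eff_pow (h : Γ.Eff L) (n : ℕ) : Γ.Eff (L ^ n) := by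
  obtain ⟨m, hm, E, h1, h2, h3⟩ := h
  refine ⟨m, hm, fun σ => E σ ^ n, ?_, fun σ hσ => pow_ne_zero _ (h2 σ hσ), h3.pow n⟩
  rw [← pow_mul, mul_comm, pow_mul]
  exact h1.pow n

theorem big_of {m : ℕ} (hm : 0 < m) (h : Γ.RS (L ^ m) E) (h0 : Γ.Nz E) (h1 : Γ.Reg E)
    {H : Set Γ.K'} (hH : H.Finite) (h2 : ∀ x ∈ H, Γ.Reg fun σ => x * E σ)
    (h3 : Algebra.IsAlgebraic (IntermediateField.adjoin k H) Γ.K') : Γ.Big L := by
  have _ := hH
  have h4 : Algebra.IsAlgebraic (Algebra.adjoin k H) Γ.K' := by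
    open IntermediateField.algebraAdjoinAdjoin in
    exact ⟨fun x => (IsFractionRing.isAlgebraic_iff (Algebra.adjoin k H)
      (IntermediateField.adjoin k H) Γ.K').2 (h3.isAlgebraic x)⟩
  refine big_mk fun Φ => ?_
  obtain ⟨y, hy0, hy⟩ := Algebra.IsAlgebraic.exists_integral_multiples (Algebra.adjoin k H) Φ
  have h5 : ∀ σ ∈ Γ.S, ∀ x ∈ Algebra.adjoin k H,
      ∀ᶠ n in Filter.atTop, IsIntegral σ.2.range (x * E σ ^ n) := fun σ hσ x hx =>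
    big_adjoin (h1 σ hσ) (fun z hz => h2 z hz σ hσ) hx
  have h6 : ∀ᶠ n in Filter.atTop, ∀ σ ∈ Γ.S, IsIntegral σ.2.range (y.1 * E σ ^ n) :=
    (Filter.eventually_all_finite Γ.fin).2 fun σ hσ => h5 σ hσ _ y.2
  have h7 : ∀ᶠ n in Filter.atTop, ∀ φ ∈ Φ, ∀ σ ∈ Γ.S,
      IsIntegral σ.2.range (y • φ * E σ ^ n) :=
    (Filter.eventually_all_finset _).2 fun φ hφ => (Filter.eventually_all_finite Γ.fin).2
      fun σ hσ => big_int (h1 σ hσ) (h5 σ hσ) (hy φ hφ)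
  obtain ⟨n, hn, h8, h9⟩ := ((Filter.eventually_gt_atTop 0).and (h6.and h7)).exists
  refine ⟨m * n, Nat.mul_pos hm hn, fun σ => y.1 * E σ ^ n, ?_, fun σ hσ =>
    mul_ne_zero (fun h => hy0 (Subtype.ext h)) (pow_ne_zero _ (h0 σ hσ)), h8, fun φ hφ σ hσ => ?_⟩
  · rw [pow_mul]
    exact (h.pow n).const_mul _
  · show IsIntegral _ (φ * (y.1 * E σ ^ n))
    rw [← mul_assoc, mul_comm φ]
    exact h9 φ hφ σ hσ

theorem Big.eff (h : Γ.Big L) : Γ.Eff L := by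
  obtain ⟨m, hm, E, h1, -, h2, h3, -⟩ := h ∅
  exact ⟨m, hm, E, h1, h2, h3⟩

theorem Big.mul_eff (h : Γ.Big L) (h' : Γ.Eff L') : Γ.Big (L * L') := by
  refine big_mk fun Φ => ?_
  obtain ⟨m, hm, E, h1, -, h2, h3, h4⟩ := h Φ
  obtain ⟨n, hn, F, g1, g2, g3⟩ := h'
  refine ⟨m * n, Nat.mul_pos hm hn, fun σ => E σ ^ n * F σ ^ m, ?_, fun σ hσ =>
    mul_ne_zero (pow_ne_zero _ (h2 σ hσ)) (pow_ne_zero _ (g2 σ hσ)), (h3.pow n).mul (g3.pow m),
    fun φ hφ σ hσ => ?_⟩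
  · rw [big_mul_pow, pow_mul, mul_comm m n, pow_mul]
    exact (h1.pow n).mul (g1.pow m)
  · show IsIntegral _ (φ * (E σ ^ n * F σ ^ m))
    rw [← mul_assoc]
    exact (big_reg_pow h3 (h4 φ hφ) hn σ hσ).mul ((g3 σ hσ).pow m)

theorem big_pow_iff {m : ℕ} (hm : 0 < m) : Γ.Big (L ^ m) ↔ Γ.Big L := by
  constructor
  · intro h Φ
    obtain ⟨n, hn, E, h1, h2⟩ := h Φ
    exact ⟨m * n, Nat.mul_pos hm hn, E, by rwa [pow_mul], h2⟩
  · intro h
    refine big_mk fun Φ => ?_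
    obtain ⟨n, hn, E, h1, -, h2, h3, h4⟩ := h Φ
    refine ⟨n, hn, fun σ => E σ ^ m, ?_, fun σ hσ => pow_ne_zero _ (h2 σ hσ), h3.pow m,
      fun φ hφ => big_reg_pow h3 (h4 φ hφ) hm⟩
    rw [← pow_mul, mul_comm, pow_mul]
    exact h1.pow m

theorem big_of_algebraic [Algebra.IsAlgebraic k Γ.K'] (L : P.LB) : Γ.Big L := by
  have h : ∀ (σ : P.Pt Γ.K') (x : Γ.K'), σ.Int x := fun σ x =>
    (Algebra.IsAlgebraic.isAlgebraic (R := k) x).isIntegral.tower_top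
  refine big_mk fun Φ => ?_
  obtain ⟨σ, hσ⟩ := Γ.ne
  obtain ⟨E, h1, h2⟩ := exists_rs L hσ 1
  exact ⟨1, one_pos, E, by rwa [pow_one], h1.nz hσ (by rw [h2]; exact one_ne_zero),
    fun τ _ => h τ _, fun φ _ τ _ => h τ _⟩

/-- Convexity of the set of big slopes. -/
theorem Big.convex {a₁ b₁ a₂ b₂ a b : ℕ} (h₁ : Γ.Big (L ^ a₁ * L' ^ b₁))
    (h₂ : Γ.Big (L ^ a₂ * L' ^ b₂)) (hb₁ : 0 < b₁) (hb₂ : 0 < b₂) (hb : 0 < b)
    (h1 : a₁ * b ≤ a * b₁) (h2 : a * b₂ ≤ a₂ * b) : Γ.Big (L ^ a * L' ^ b) := by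
  obtain ⟨v, hv⟩ := Nat.exists_eq_add_of_le h1
  obtain ⟨u, hu⟩ := Nat.exists_eq_add_of_le h2
  rcases Nat.eq_zero_or_pos v with rfl | hv0
  · rw [← big_pow_iff hb₁, big_mul_pow, ← pow_mul, ← pow_mul, hv, add_zero, mul_comm b b₁, pow_mul,
      pow_mul, ← big_mul_pow]
    exact (big_pow_iff hb).2 h₁
  · have h3 := (big_pow_iff hb).2 (((big_pow_iff hv0).2 h₂).mul_eff (big_eff_pow h₁.eff u))
    have e : ((L ^ a₂ * L' ^ b₂) ^ v * (L ^ a₁ * L' ^ b₁) ^ u) ^ b =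
        (L ^ a * L' ^ b) ^ (v * b₂ + u * b₁) := by
      have e1 : a * (v * b₂ + u * b₁) = a₂ * v * b + a₁ * u * b := by
        have : a * (v * b₂ + u * b₁) = v * (a * b₂) + u * (a * b₁) := by ring
        rw [this, hv, show a₂ * v * b = v * (a₂ * b) by ring, hu]
        ring
      have e2 : b * (v * b₂ + u * b₁) = b₂ * v * b + b₁ * u * b := by ring
      simp only [big_mul_pow, ← pow_mul]
      rw [e1, e2, pow_add, pow_add]
      exact (big_comm (L' ^ (b₂ * v * b)) (L ^ (a₁ * u * b))).mul_mul_mul_comm _ _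
    rw [e] at h3
    exact (big_pow_iff (by positivity)).1 h3

end Gen

end

end Pool.Agent.Lib.MP_1c03d5_ag
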