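import Pool.Agent.Lib.MP_1c03d5_ag.Gen1

/-!
# TASK MOD: a projective model on which the charts are visible
-/

universe u

namespace Pool.Agent.Lib.MP_1c03d5_ag

noncomputable section

variable {k : Type u} [Field k] {P : EqRel k} (Γ : Gen P)

namespace Gen

/-- The permutation of the lifts given by an element of the group. -/
def mod_perm {γ : Γ.K' ≃ₐ[k] Γ.K'} (hγ : γ ∈ Γ.G) : Γ.S ≃ Γ.S where
  toFun σ := ⟨Γ.act γ σ.1, Γ.act_mem hγ σ.2⟩
  invFun σ := ⟨Γ.act γ⁻¹ σ.1, Γ.act_mem (inv_mem hγ) σ.2⟩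
  left_inv σ := Subtype.ext (Sigma.ext rfl (heq_of_eq (AlgHom.ext fun a => by simp)))
  right_inv σ := Subtype.ext (Sigma.ext rfl (heq_of_eq (AlgHom.ext fun a => by simp)))

theorem mod_chart {A : Type u} [CommRing A] [Algebra k A] {K : Type u} [Field K] [Algebra k K]
    (φ : A →ₐ[k] K) {s : Set A} (hs : Algebra.adjoin k s = ⊤) {H : Submodule k K} {t : K}
    (ht : t ∈ H) (h : ∀ x ∈ s, φ x * t ∈ H) (x : A) : ∃ n, φ x * t ^ n ∈ H ^ n := by
  have hx : x ∈ Algebra.adjoin k s := hs ▸ Algebra.mem_top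
  induction hx using Algebra.adjoin_induction with
  | mem x hx => exact ⟨1, by simpa using h x hx⟩
  | algebraMap c => exact ⟨0, by simp⟩
  | add x y _ _ hx hy =>
    obtain ⟨m, hm⟩ := hx
    obtain ⟨n, hn⟩ := hy
    refine ⟨m + n, ?_⟩
    have e : φ (x + y) * t ^ (m + n) = φ x * t ^ m * t ^ n + t ^ m * (φ y * t ^ n) := by
      rw [map_add]
      ring
    rw [e, pow_add]
    exact add_mem (Submodule.mul_mem_mul hm (Submodule.pow_mem_pow H ht n))
      (Submodule.mul_mem_mul (Submodule.pow_mem_pow H ht m) hn)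
  | mul x y _ _ hx hy =>
    obtain ⟨m, hm⟩ := hx
    obtain ⟨n, hn⟩ := hy
    refine ⟨m + n, ?_⟩
    have e : φ (x * y) * t ^ (m + n) = φ x * t ^ m * (φ y * t ^ n) := by
      rw [map_mul]
      ring
    rw [e, pow_add]
    exact Submodule.mul_mem_mul hm hn

theorem exists_mod : Nonempty Γ.Mod := by
  classical
  have : Fintype Γ.S := Γ.fin.fintype
  choose gs hgs using fun i => (Algebra.FiniteType.out : (⊤ : Subalgebra k (P.A i)).FG)
  let g : Γ.S → Finset Γ.K' := fun σ => insert 1 ((gs σ.1.1).image σ.1.2)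
  have hg1 : ∀ σ, (1 : Γ.K') ∈ g σ := fun σ => Finset.mem_insert_self _ _
  let Z : Finset Γ.K' := (Fintype.piFinset g).image fun f => ∏ σ, f σ
  have hZ : ∀ z, z ∈ Z ↔ ∃ f : Γ.S → Γ.K', (∀ σ, f σ ∈ g σ) ∧ ∏ σ, f σ = z := by
    intro z
    simp only [Z, Finset.mem_image, Fintype.mem_piFinset]
  have hH : ∀ f : Γ.S → Γ.K', (∀ σ, f σ ∈ g σ) → ∏ σ, f σ ∈ Submodule.span k (Z : Set Γ.K') :=
    fun f hf => Submodule.subset_span ((hZ _).2 ⟨f, hf, rfl⟩)
  let β := {x : Γ.S × (Γ.S → Γ.K') //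
    (∀ σ, x.2 σ ∈ g σ) ∧ (∀ σ, x.2 σ ≠ 0) ∧ x.2 x.1 = 1}
  have : Finite β := by
    refine Set.Finite.to_subtype (s := {x : Γ.S × (Γ.S → Γ.K') |
      (∀ σ, x.2 σ ∈ g σ) ∧ (∀ σ, x.2 σ ≠ 0) ∧ x.2 x.1 = 1}) ?_
    refine ((Finset.univ : Finset Γ.S) ×ˢ Fintype.piFinset g).finite_toSet.subset fun x hx => ?_
    simp only [Finset.coe_product, Set.mem_prod, Finset.mem_coe, Finset.mem_univ,
      Fintype.mem_piFinset, true_and]
    exact hx.1
  let e : Fin (Nat.card β) ≃ β := (Finite.equivFin β).symm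
  refine ⟨{ H := Submodule.span k (Z : Set Γ.K')
            fg := ⟨Z, rfl⟩
            one := by simpa using hH (fun _ => 1) hg1
            stab := ?_
            α := Fin (Nat.card β)
            τ := fun a => ∏ σ, (e a).1.2 σ
            pt := fun a => (e a).1.1.1
            τ_mem := fun a => hH _ (e a).2.1
            τ_ne := fun a => Finset.prod_ne_zero_iff.2 fun σ _ => (e a).2.2.1 σ
            pt_mem := fun a => (e a).1.1.2
            chart := ?_
            cover := ?_ }⟩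
  · intro γ hγ x hx
    have h : (Submodule.span k (Z : Set Γ.K')).map γ.toLinearMap ≤
        Submodule.span k (Z : Set Γ.K') := by
      rw [Submodule.map_span, Submodule.span_le]
      rintro _ ⟨z, hz, rfl⟩
      obtain ⟨f, hf, rfl⟩ := (hZ z).1 hz
      have h1 : γ.toLinearMap (∏ σ, f σ) = ∏ σ, γ (f ((Γ.mod_perm hγ).symm σ)) := by
        rw [AlgEquiv.toLinearMap_apply, map_prod]
        exact ((Γ.mod_perm hγ).symm.prod_comp fun σ => γ (f σ)).symm
      rw [SetLike.mem_coe, h1]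
      refine hH _ fun σ => ?_
      obtain ⟨σ, rfl⟩ := (Γ.mod_perm hγ).surjective σ
      rw [Equiv.symm_apply_apply]
      rcases Finset.mem_insert.1 (hf σ) with h | h
      · rw [h, map_one]
        exact hg1 _
      · obtain ⟨y, hy, hy'⟩ := Finset.mem_image.1 h
        exact Finset.mem_insert_of_mem (Finset.mem_image.2 ⟨y, hy, by rw [← hy']; rfl⟩)
    exact h ⟨x, hx, rfl⟩
  · intro a
    obtain ⟨⟨σ₀, f⟩, hf, hf0, hf1⟩ := e a
    refine mod_chart σ₀.1.2 (hgs σ₀.1.1) (hH f hf) fun x hx => ?_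
    have h1 : σ₀.1.2 x * ∏ σ, f σ = ∏ σ, Function.update f σ₀ (σ₀.1.2 x) σ := by
      rw [Finset.prod_update_of_mem (Finset.mem_univ _),
        ← Finset.mul_prod_erase _ _ (Finset.mem_univ σ₀), Finset.sdiff_singleton_eq_erase,
        show f σ₀ = 1 from hf1, one_mul]
    rw [h1]
    refine hH _ fun σ => ?_
    by_cases h : σ = σ₀
    · subst h
      rw [Function.update_self]
      exact Finset.mem_insert_of_mem (Finset.mem_image_of_mem _ hx)
    · rw [Function.update_of_ne h]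
      exact hf σ
  · intro w
    obtain ⟨σ₀, hσ₀, hcen⟩ := Γ.exists_cen w
    have h1 : ∀ σ : Γ.S, ∃ t ∈ g σ, (∀ y ∈ g σ, w.v y ≤ w.v t) ∧ (σ = ⟨σ₀, hσ₀⟩ → t = 1) := by
      intro σ
      by_cases h : σ = ⟨σ₀, hσ₀⟩
      · subst h
        refine ⟨1, hg1 _, fun y hy => ?_, fun _ => rfl⟩
        rcases Finset.mem_insert.1 hy with h | h
        · rw [h]
        · obtain ⟨y, -, rfl⟩ := Finset.mem_image.1 h
          rw [map_one]
          exact Val.v_le_one.2 (hcen y)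
      · obtain ⟨t, ht, ht'⟩ := (g σ).exists_max_image w.v ⟨1, hg1 σ⟩
        exact ⟨t, ht, ht', fun h' => absurd h' h⟩
    choose f hf hf' hf1 using h1
    have hf0 : ∀ σ, f σ ≠ 0 := by
      intro σ h
      have h2 := hf' σ 1 (hg1 σ)
      rw [h, map_one, map_zero] at h2
      exact not_lt.2 h2 zero_lt_one
    refine ⟨e.symm ⟨(⟨σ₀, hσ₀⟩, f), hf, hf0, hf1 _ rfl⟩, fun x hx => ?_⟩
    rw [Equiv.apply_symm_apply]
    refine w.le_of_mem_span (fun z hz => ?_) hx
    obtain ⟨f', hf'', rfl⟩ := (hZ z).1 hz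
    rw [map_prod, map_prod]
    exact Finset.prod_le_prod' fun σ _ => hf' σ _ (hf'' σ)

theorem Mod.cen {Γ : Gen P} (M : Γ.Mod) {a : M.α} {w : Val k Γ.K'}
    (h : ∀ x ∈ M.H, w.v x ≤ w.v (M.τ a)) : (M.pt a).Cen w := by
  intro x
  obtain ⟨n, hn⟩ := M.chart a x
  have h1 := w.le_of_mem_pow h n _ hn
  rw [map_mul, map_pow] at h1
  have h2 : 0 < w.v (M.τ a) ^ n := pow_pos ((Valuation.pos_iff _).2 (M.τ_ne a)) n
  exact Val.v_le_one.1 ((mul_le_iff_le_one_left h2).1 h1)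

end Gen

end

end Pool.Agent.Lib.MP_1c03d5_ag
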