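import Pool.Agent.Lib.MP_1c03d5_ag.Denom
import Pool.Agent.Lib.MP_1c03d5_ag.Mod

/-!
# TASK LIFT: honest sections from rational sections
-/

universe u

namespace Pool.Agent.Lib.MP_1c03d5_ag

noncomputable section

/-- Separating one of finitely many incomparable primes from the others. -/
theorem lift_sep {A : Type*} [CommRing A] (Q : Finset (Ideal A)) (hp : ∀ q ∈ Q, q.IsPrime)
    (hinc : ∀ q ∈ Q, ∀ q' ∈ Q, q ≤ q' → q = q') (c : Ideal A) (hc : ∀ q ∈ Q, ¬ c ≤ q)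
    {q : Ideal A} (hq : q ∈ Q) : ∃ e ∈ c, e ∉ q ∧ ∀ q' ∈ Q, q' ≠ q → e ∈ q' := by
  classical
  have h : ¬ c ⊓ (Q.erase q).inf id ≤ q := by
    rw [(hp q hq).inf_le, (hp q hq).inf_le']
    rintro (h | ⟨q', hq', h⟩)
    · exact hc q hq h
    · exact (Finset.mem_erase.1 hq').1 (hinc q' (Finset.mem_erase.1 hq').2 q hq h)
  obtain ⟨e, he, he'⟩ := SetLike.not_le_iff_exists.1 h
  refine ⟨e, he.1, he', fun q' hq' hne => ?_⟩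
  exact (Finset.inf_le (f := id) (Finset.mem_erase.2 ⟨hne, hq'⟩) : _ ≤ q') he.2

variable {k : Type u} [Field k] {P : EqRel k} (Γ : Gen P)

namespace Gen

theorem lift_chart (p : ℕ) [Fact p.Prime] [CharP k p] [IsAlgClosed k] {𝔠 : P.Idl}
    (h𝔠 : ∀ σ ∈ Γ.S, ¬ σ.In 𝔠) (i : P.ι) : ∃ c : P.A i,
      (∀ φ : P.A i →ₐ[k] Γ.K', ⟨i, φ⟩ ∈ Γ.S → φ c ≠ 0) ∧
      ∀ ρ, Γ.Invt ρ → Γ.Reg ρ → ∃ a ∈ 𝔠 i, ∀ φ : P.A i →ₐ[k] Γ.K', ⟨i, φ⟩ ∈ Γ.S →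
        φ a = φ c * ρ ⟨i, φ⟩ := by
  classical
  have hT : {φ : P.A i →ₐ[k] Γ.K' | (⟨i, φ⟩ : P.Pt Γ.K') ∈ Γ.S}.Finite :=
    Γ.fin.preimage (f := fun φ : P.A i →ₐ[k] Γ.K' => (⟨i, φ⟩ : P.Pt Γ.K'))
      (sigma_mk_injective (β := fun i => P.A i →ₐ[k] Γ.K')).injOn
  let Q : Finset (Ideal (P.A i)) := hT.toFinset.image fun φ => RingHom.ker φ
  have hQ : ∀ q, q ∈ Q ↔ ∃ φ : P.A i →ₐ[k] Γ.K', ⟨i, φ⟩ ∈ Γ.S ∧ RingHom.ker φ = q := by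
    intro q
    simp [Q]
  have hp : ∀ q ∈ Q, q.IsPrime := by
    intro q hq
    obtain ⟨φ, -, rfl⟩ := (hQ q).1 hq
    exact RingHom.ker_isPrime φ
  have hinc : ∀ q ∈ Q, ∀ q' ∈ Q, q ≤ q' → q = q' := by
    intro q hq q' hq' h
    obtain ⟨φ, hφ, rfl⟩ := (hQ q).1 hq
    obtain ⟨ψ, hψ, rfl⟩ := (hQ q').1 hq'
    exact Γ.ker_eq_of_le hφ hψ h
  have hc : ∀ q ∈ Q, ¬ 𝔠 i ≤ q := by
    intro q hq
    obtain ⟨φ, hφ, rfl⟩ := (hQ q).1 hq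
    exact h𝔠 _ hφ
  choose e he𝔠 he0 he1 using fun q : Q => lift_sep Q hp hinc (𝔠 i) hc q.2
  choose r hrS hrk using fun q : Q => (hQ q.1).1 q.2
  have hcond : ∀ q : Q, ∃ d : P.A i, d ∉ q.1 ∧ ∀ x : Γ.K', IsIntegral (r q).range x →
      x ∈ Fam.Pt.fld (⟨i, r q⟩ : P.Pt Γ.K') → ∃ b, r q b = r q d * x := by
    intro q
    obtain ⟨c, ⟨d, rfl⟩, hc0, hc1⟩ :=
      exists_conductor p (r q).range (Fam.Pt.range_fg (⟨i, r q⟩ : P.Pt Γ.K'))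
    refine ⟨d, fun h => hc0 ?_, fun x hx hx' => hc1 x hx hx'⟩
    rw [← hrk q] at h
    exact h
  choose d hd0 hd1 using hcond
  have hsum : ∀ (φ : P.A i →ₐ[k] Γ.K') (hφ : ⟨i, φ⟩ ∈ Γ.S) (b : Q → P.A i),
      φ (∑ q, e q * b q) = φ (e ⟨_, (hQ _).2 ⟨φ, hφ, rfl⟩⟩) * φ (b ⟨_, (hQ _).2 ⟨φ, hφ, rfl⟩⟩) := by
    intro φ hφ b
    rw [map_sum, Finset.sum_eq_single ⟨_, (hQ _).2 ⟨φ, hφ, rfl⟩⟩, map_mul]
    · intro q _ hq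
      have h : e q ∈ RingHom.ker φ :=
        he1 q _ ((hQ _).2 ⟨φ, hφ, rfl⟩) fun h => hq (Subtype.ext h.symm)
      rw [map_mul, (RingHom.mem_ker).1 h, zero_mul]
    · intro h
      exact absurd (Finset.mem_univ _) h
  refine ⟨∑ q, e q * d q, fun φ hφ => ?_, fun ρ hρ hρ' => ?_⟩
  · rw [hsum φ hφ]
    exact mul_ne_zero (he0 ⟨_, (hQ _).2 ⟨φ, hφ, rfl⟩⟩) (hd0 ⟨_, (hQ _).2 ⟨φ, hφ, rfl⟩⟩)
  · have hb : ∀ q : Q, ∃ b, r q b = r q (d q) * ρ ⟨i, r q⟩ := fun q =>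
      hd1 q _ (hρ' _ (hrS q)) (Γ.mem_fld_of_fixed (hrS q) fun γ hγ h => by
        rw [← hρ γ hγ _ (hrS q), h])
    choose b hb using hb
    refine ⟨∑ q, e q * b q, Ideal.sum_mem _ fun q _ => Ideal.mul_mem_right _ _ (he𝔠 q),
      fun φ hφ => ?_⟩
    rw [hsum φ hφ, hsum φ hφ, mul_assoc]
    congr 1
    generalize hq : (⟨_, (hQ _).2 ⟨φ, hφ, rfl⟩⟩ : Q) = q
    have hk : RingHom.ker (r q) = RingHom.ker φ := by rw [hrk q, ← hq]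
    obtain ⟨γ, hγ, hγ'⟩ := Γ.conj (hrS q) hφ hk
    have h1 : ρ ⟨i, φ⟩ = γ (ρ ⟨i, r q⟩) := by
      rw [← hρ γ hγ _ (hrS q), ← hγ']
    have h2 : ∀ x, φ x = γ (r q x) := fun x => by
      rw [← hγ']
      rfl
    rw [h1, h2, h2, hb, map_mul]

/-- A conductor element inside a given invariant ideal. -/
theorem exists_cond (p : ℕ) [Fact p.Prime] [CharP k p] [IsAlgClosed k] {𝔠 : P.Idl}
    (h𝔠 : ∀ σ ∈ Γ.S, ¬ σ.In 𝔠) : ∃ c : P.El, (∀ σ ∈ Γ.S, σ.val c ≠ 0) ∧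
      ∀ ρ, Γ.Invt ρ → Γ.Reg ρ → ∃ a : P.El, (∀ i, a i ∈ 𝔠 i) ∧
        ∀ σ ∈ Γ.S, σ.val a = σ.val c * ρ σ := by
  choose c hc0 hc1 using Γ.lift_chart p h𝔠
  refine ⟨c, fun σ hσ => hc0 σ.1 σ.2 hσ, fun ρ hρ hρ' => ?_⟩
  choose a ha0 ha1 using fun i => hc1 i ρ hρ hρ'
  exact ⟨a, ha0, fun σ hσ => ha1 σ.1 σ.2 hσ⟩

theorem sect (p : ℕ) [Fact p.Prime] [CharP k p] [IsAlgClosed k] {L : P.LB} (hL : Γ.Big L)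
    {𝔠 : P.Idl} (h𝔠 : ∀ σ ∈ Γ.S, ¬ σ.In 𝔠) (Φ : Finset Γ.K') :
    ∃ m, 0 < m ∧ ∃ s : P.El, (∀ i, s i ∈ 𝔠 i) ∧ (∀ σ ∈ Γ.S, σ.val s ≠ 0) ∧
      Γ.RS (L ^ m) (fun σ => σ.val s) ∧ (∀ φ ∈ Φ, Γ.Reg fun σ => φ * σ.val s) ∧
      (∀ ρ, Γ.Invt ρ → Γ.Reg ρ → ∃ a : P.El, (∀ i, a i ∈ 𝔠 i) ∧
        ∀ σ ∈ Γ.S, σ.val a = σ.val s * ρ σ) ∧
      ∀ φ ∈ Φ, φ ∈ Γ.K → ∃ a : P.El, ∀ σ ∈ Γ.S, σ.val a = φ * σ.val s := by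
  classical
  obtain ⟨c, hc0, hc1⟩ := Γ.exists_cond p h𝔠
  obtain ⟨m, hm, E, hE, hEi, hE0, -, hΦ⟩ := hL (Φ ∪ ((insert 1 Φ) ×ˢ Γ.fin.toFinset).image
    fun x => x.1 * (x.2.val c)⁻¹)
  have hreg : ∀ φ ∈ insert 1 Φ, Γ.Reg fun σ => φ * (σ.val c)⁻¹ * E σ := fun φ hφ σ hσ =>
    hΦ _ (Finset.mem_union_right _ (Finset.mem_image.2
      ⟨(φ, σ), Finset.mem_product.2 ⟨hφ, Γ.fin.mem_toFinset.2 hσ⟩, rfl⟩)) σ hσ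
  have hinv : ∀ φ ∈ Γ.K, Γ.Invt fun σ => φ * (σ.val c)⁻¹ * E σ := by
    intro φ hφ γ hγ σ hσ
    have h1 : (Γ.act γ σ).val c = γ (σ.val c) := rfl
    simp only [map_mul, map_inv₀, h1, hEi γ hγ σ hσ, Γ.mem_K.1 hφ γ hγ]
  obtain ⟨s, hs, hs'⟩ := hc1 _ (hinv 1 (one_mem _)) (hreg 1 (Finset.mem_insert_self _ _))
  have hsE : ∀ σ ∈ Γ.S, σ.val s = E σ := by
    intro σ hσ
    have := hc0 σ hσ
    rw [hs' σ hσ]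
    field_simp
  refine ⟨m, hm, s, hs, fun σ hσ => ?_, hE.congr fun σ hσ => (hsE σ hσ).symm,
    fun φ hφ σ hσ => ?_, fun ρ hρ hρ' => ?_, fun φ hφ hφ' => ?_⟩
  · rw [hsE σ hσ]
    exact hE0 σ hσ
  · have h := hΦ φ (Finset.mem_union_left _ hφ) σ hσ
    simp only [hsE σ hσ]
    exact h
  · obtain ⟨a, ha, ha'⟩ := hc1 (fun σ => 1 * (σ.val c)⁻¹ * E σ * ρ σ)
      (fun γ hγ σ hσ => by
        have h := hinv 1 (one_mem _) γ hγ σ hσ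
        simp only at h
        simp only [h, hρ γ hγ σ hσ, map_mul])
      ((hreg 1 (Finset.mem_insert_self _ _)).mul hρ')
    refine ⟨a, ha, fun σ hσ => ?_⟩
    rw [ha' σ hσ, hs' σ hσ]
    ring
  · obtain ⟨a, -, ha'⟩ := hc1 _ (hinv φ hφ') (hreg φ (Finset.mem_insert_of_mem hφ))
    refine ⟨a, fun σ hσ => ?_⟩
    rw [ha' σ hσ, hs' σ hσ]
    ring

end Gen

end

end Pool.Agent.Lib.MP_1c03d5_ag
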