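import Pool.Agent.Lib.MP_1c03d5_ag.PB

/-!
# TASK JC: coordinates and Jacobians
-/

open KaehlerDifferential MvPolynomial

universe u

namespace Pool.Agent.Lib.MP_1c03d5_ag

noncomputable section

variable {k : Type u} [Field k] {R R' : Type u} [CommRing R] [Algebra k R] [CommRing R']
  [Algebra k R'] {n : ℕ} {x y : Fin n → R}

/-- The basis of differentials attached to coordinates. -/
def jc_basis (hy : IsCoord k y) : Module.Basis (Fin n) R Ω[R⁄k] := Module.Basis.mk hy.1 hy.2.ge

theorem jc_basis_apply (hy : IsCoord k y) (i : Fin n) : jc_basis hy i = D k R (y i) :=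
  Module.Basis.mk_apply _ _ _

theorem jc_of_basis (b : Module.Basis (Fin n) R Ω[R⁄k]) (h : ∀ i, b i = D k R (y i)) :
    IsCoord k y := by
  have e : (fun i => D k R (y i)) = b := funext fun i => (h i).symm
  exact ⟨e ▸ b.linearIndependent, e ▸ b.span_eq⟩

theorem jc_exists (hy : IsCoord k y) (z : Fin n → R) :
    ∃ M : Matrix (Fin n) (Fin n) R, ∀ a, D k R (z a) = ∑ b, M a b • D k R (y b) :=
  ⟨fun a b => (jc_basis hy).repr (D k R (z a)) b, fun a => by
    simpa only [jc_basis_apply] using ((jc_basis hy).sum_repr (D k R (z a))).symm⟩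

theorem IsCoord.jac_eq (hy : IsCoord k y) {z : Fin n → R} {M : Matrix (Fin n) (Fin n) R}
    (hM : ∀ a, D k R (z a) = ∑ b, M a b • D k R (y b)) : jac k y z = M.det := by
  have h := Classical.epsilon_spec (p := fun M : Matrix (Fin n) (Fin n) R =>
    ∀ a, D k R (z a) = ∑ b, M a b • D k R (y b)) ⟨M, hM⟩
  refine congrArg Matrix.det (Matrix.ext fun a b => ?_)
  exact Fintype.linearIndependent_iffₛ.1 hy.1 _ _ ((h a).symm.trans (hM a)) b

theorem IsCoord.exists_der (hy : IsCoord k y) : ∃ δ : Fin n → Derivation k R R,
    (∀ i j, δ i (y j) = if i = j then 1 else 0) ∧ (∀ a, D k R a = ∑ i, δ i a • D k R (y i)) ∧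
      ∀ z, jac k y z = Matrix.det (Matrix.of fun a b => δ b (z a)) := by
  have h : ∀ a, D k R a = ∑ i, ((jc_basis hy).coord i).compDer (D k R) a • D k R (y i) :=
    fun a => ((jc_basis hy).sum_repr (D k R a)).symm.trans
      (Finset.sum_congr rfl fun i _ => by rw [jc_basis_apply]; rfl)
  refine ⟨fun i => ((jc_basis hy).coord i).compDer (D k R), fun i j => ?_, h,
    fun z => hy.jac_eq fun a => h (z a)⟩
  change (jc_basis hy).repr (D k R (y j)) i = _
  rw [← jc_basis_apply hy, Module.Basis.repr_self, Finsupp.single_apply]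
  exact if_congr eq_comm rfl rfl

theorem IsCoord.jac_self (hy : IsCoord k y) : jac k y y = 1 := by
  rw [hy.jac_eq (M := 1) fun a => by simp [Matrix.one_apply], Matrix.det_one]

theorem IsCoord.jac_mul (hx : IsCoord k x) (hy : IsCoord k y) (z : Fin n → R) :
    jac k x y * jac k y z = jac k x z := by
  obtain ⟨A, hA⟩ := jc_exists hx y
  obtain ⟨B, hB⟩ := jc_exists hy z
  rw [hx.jac_eq hA, hy.jac_eq hB, hx.jac_eq (M := B * A) fun a => ?_, Matrix.det_mul, mul_comm]
  simp only [hB a, hA, Finset.smul_sum, Matrix.mul_apply, Finset.sum_smul, mul_smul]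
  exact Finset.sum_comm

theorem IsCoord.isUnit_jac (hx : IsCoord k x) (hy : IsCoord k y) : IsUnit (jac k x y) :=
  IsUnit.of_mul_eq_one (jac k y x) ((hx.jac_mul hy x).trans hx.jac_self)

theorem IsCoord.jac_map (φ : R →ₐ[k] R') (hy : IsCoord k y) (hy' : IsCoord k (φ ∘ y))
    (z : Fin n → R) : φ (jac k y z) = jac k (φ ∘ y) (φ ∘ z) := by
  let := φ.toRingHom.toAlgebra
  have : IsScalarTower k R R' := IsScalarTower.of_algebraMap_eq fun a => (φ.commutes a).symm
  obtain ⟨M, hM⟩ := jc_exists hy z
  rw [hy.jac_eq hM, AlgHom.map_det, hy'.jac_eq (M := φ.mapMatrix M) fun a => ?_]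
  have h := congrArg (KaehlerDifferential.map k k R R') (hM a)
  simp only [map_sum, map_smul, map_D] at h
  have e : ∀ r : R, algebraMap R R' r = φ r := fun _ => rfl
  simp only [← algebraMap_smul R' (M a _), e] at h
  simpa only [Function.comp_apply, AlgHom.mapMatrix_apply, Matrix.map_apply] using h

theorem jc_fe [Algebra R R'] [IsScalarTower k R R'] [Algebra.FormallyEtale R R']
    (hy : IsCoord k y) : IsCoord k fun i => algebraMap R R' (y i) := by
  refine jc_of_basis (((jc_basis hy).baseChange R').map
    (tensorKaehlerEquivOfFormallyEtale k R R')) fun i => ?_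
  rw [Module.Basis.map_apply, Module.Basis.baseChange_apply, jc_basis_apply,
    tensorKaehlerEquivOfFormallyEtale_apply, mapBaseChange_tmul, one_smul, map_D]

theorem IsCoord.of_etale (φ : R →ₐ[k] R') (hφ : φ.toRingHom.Etale) (hy : IsCoord k y) :
    IsCoord k (φ ∘ y) := by
  let := φ.toRingHom.toAlgebra
  have : IsScalarTower k R R' := IsScalarTower.of_algebraMap_eq fun a => (φ.commutes a).symm
  have : Algebra.Etale R R' := hφ
  exact jc_fe hy

theorem isCoord_X : IsCoord k (X : Fin n → MvPolynomial (Fin n) k) :=
  jc_of_basis (mvPolynomialBasis k (Fin n)) (mvPolynomialBasis_apply k (Fin n))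

theorem isCoord_of_etale (h : (aeval y : MvPolynomial (Fin n) k →ₐ[k] R).toRingHom.Etale) :
    IsCoord k y := by
  have h1 := isCoord_X.of_etale _ h
  have e : (aeval y : MvPolynomial (Fin n) k →ₐ[k] R) ∘ X = y := by
    funext i
    rw [Function.comp_apply, aeval_X]
  rwa [e] at h1

variable {K K' : Type u} [Field K] [Algebra k K] [Field K'] [Algebra k K']

open scoped IntermediateField.algebraAdjoinAdjoin in
theorem SepBasis.isCoord {h : Fin n → K} (hh : SepBasis k h) : IsCoord k h := by
  have h1 := isCoord_X.of_etale hh.1.1.aevalEquiv.toAlgHom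
    (RingHom.Etale.of_bijective hh.1.1.aevalEquiv.bijective)
  have : Algebra.FormallyEtale (Algebra.adjoin k (Set.range h))
      (IntermediateField.adjoin k (Set.range h)) := .of_isLocalization (nonZeroDivisors _)
  have := hh.2
  have : Algebra.FormallyEtale (IntermediateField.adjoin k (Set.range h)) K :=
    .of_isSeparable _ _
  have h2 := jc_fe (R' := K) (jc_fe (R' := IntermediateField.adjoin k (Set.range h)) h1)
  convert h2 using 2 with i
  exact (aeval_X h i).symm

theorem exists_sepBasis [PerfectField k] [Algebra.EssFiniteType k K] :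
    ∃ (d : ℕ) (h : Fin d → K), SepBasis k h := by
  obtain ⟨s, hs, H⟩ := exists_isTranscendenceBasis_and_isSeparable_of_perfectField k K
  refine ⟨s.card, Subtype.val ∘ s.equivFin.symm, hs.comp_equiv _, ?_⟩
  have e : Set.range (Subtype.val ∘ s.equivFin.symm) = (s : Set K) := by
    rw [EquivLike.range_comp]
    exact Subtype.range_val
  rwa [e]

theorem SepBasis.trdeg_eq {h : Fin n → K} (hh : SepBasis k h) : Algebra.trdeg k K = n := by
  simpa using hh.1.lift_cardinalMk_eq_trdeg.symm

theorem IsCoord.of_span {h y : Fin n → K} (hh : IsCoord k h)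
    (hy : Submodule.span K (Set.range fun i => D k K (y i)) = ⊤) : IsCoord k y :=
  ⟨linearIndependent_of_top_le_span_of_card_eq_finrank hy.ge
    (Module.finrank_eq_card_basis (jc_basis hh)).symm, hy⟩

theorem jc_lift (F : IntermediateField k K') (h : Fin n → F) :
    ∃ e : IntermediateField.adjoin k (Set.range h) ≃+*
      IntermediateField.adjoin k (Set.range fun i => (h i : K')),
      ∀ a, (e a : K') = ((a : F) : K') := by
  have e : IntermediateField.lift (IntermediateField.adjoin k (Set.range h)) =
      IntermediateField.adjoin k (Set.range fun i => (h i : K')) := by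
    rw [IntermediateField.lift_adjoin, ← Set.range_comp]
    rfl
  exact ⟨((IntermediateField.liftAlgEquiv _).trans (IntermediateField.equivOfEq e)).toRingEquiv,
    fun _ => rfl⟩

/-- A separating basis stays one in a separable algebraic extension. -/
theorem SepBasis.coe (F : IntermediateField k K') [Algebra.IsSeparable F K'] {h : Fin n → F}
    (hh : SepBasis k h) : SepBasis k fun i => (h i : K') := by
  obtain ⟨e, he⟩ := jc_lift F h
  have := hh.2
  have : Algebra.IsSeparable (IntermediateField.adjoin k (Set.range h)) K' :=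
    Algebra.IsSeparable.trans _ F K'
  exact ⟨hh.1.algebraMap_comp (A := K'),
    Algebra.IsSeparable.of_equiv_equiv e (RingEquiv.refl K') (RingHom.ext he)⟩

/-- A separating basis inside an intermediate field is one for that field. -/
theorem SepBasis.of_coe (F : IntermediateField k K') {h : Fin n → F}
    (hh : SepBasis k fun i => (h i : K')) : SepBasis k h := by
  obtain ⟨e, he⟩ := jc_lift F h
  have := hh.2
  have : Algebra.IsSeparable (IntermediateField.adjoin k (Set.range h)) K' :=
    Algebra.IsSeparable.of_equiv_equiv e.symm (RingEquiv.refl K') (RingHom.ext fun a => by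
      have := he (e.symm a)
      rw [e.apply_symm_apply] at this
      exact this.symm)
  have h2 : Algebra.IsSeparable (IntermediateField.adjoin k (Set.range h)) F :=
    Algebra.isSeparable_tower_bot_of_isSeparable _ F K'
  have h1 : AlgebraicIndependent k h := AlgebraicIndependent.of_comp F.val hh.1.1
  exact ⟨h1.isTranscendenceBasis_iff_isAlgebraic.2
    (IntermediateField.isAlgebraic_adjoin_iff_top.1 inferInstance), h2⟩

theorem IsCoord.coe (F : IntermediateField k K') [Algebra.IsSeparable F K'] {y : Fin n → F}
    (hy : IsCoord k y) : IsCoord k fun i => (y i : K') := by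
  have : Algebra.FormallyEtale F K' := .of_isSeparable _ _
  have h := jc_fe (R := F) (R' := K') hy
  simpa only [IntermediateField.algebraMap_apply] using h

end

end Pool.Agent.Lib.MP_1c03d5_ag
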