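import Pool.Agent.Lib.MP_1c03d5_ag.Rel

/-!
# TASK NORM: finiteness of the normalisation, conductor
-/

universe u

namespace Pool.Agent.Lib.MP_1c03d5_ag

noncomputable section

variable {k K : Type u} [Field k] [Field K] [Algebra k K] (p : ℕ) [Fact p.Prime] [CharP k p]
  [IsAlgClosed k]

theorem norm_finite_frac (k A K : Type u) [Field k] [CommRing A] [IsDomain A] [Field K]
    [Algebra k A] [Algebra k K] [Algebra A K] [IsScalarTower k A K] [FaithfulSMul A K]
    [Algebra.EssFiniteType k K] [Algebra.IsAlgebraic A K] :
    letI := FractionRing.liftAlgebra A K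
    Module.Finite (FractionRing A) K := by
  let := FractionRing.liftAlgebra A K
  have : IsScalarTower k (FractionRing A) K := .of_algebraMap_eq fun x => by
    rw [IsScalarTower.algebraMap_apply k A (FractionRing A), ← IsScalarTower.algebraMap_apply,
      ← IsScalarTower.algebraMap_apply]
  have : Algebra.EssFiniteType (FractionRing A) K := .of_comp k _ _
  have : Algebra.IsAlgebraic (FractionRing A) K :=
    Algebra.IsAlgebraic.extendScalars (IsFractionRing.injective A (FractionRing A))
  exact Algebra.finite_of_essFiniteType_of_isAlgebraic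

attribute [local instance] MvPolynomial.algebraMvPolynomial in
theorem norm_finite_of_algebraic (E F K : Type u) [Field E] [Field F] [Field K] [Algebra E F]
    [Algebra F K] [Algebra E K] [IsScalarTower E F K] [Algebra.EssFiniteType E K]
    [Algebra.IsAlgebraic E F] : Module.Finite E F := by
  obtain ⟨s, hs⟩ := exists_isTranscendenceBasis F K
  let A := MvPolynomial s E
  let B := MvPolynomial s F
  let : Algebra B K := (MvPolynomial.aeval ((↑) : s → K) : B →ₐ[F] K).toRingHom.toAlgebra
  let : Algebra A K := ((algebraMap B K).comp (algebraMap A B)).toAlgebra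
  have : IsScalarTower A B K := .of_algebraMap_eq' rfl
  have hBK : Function.Injective (algebraMap B K) := hs.1
  have : FaithfulSMul B K := (faithfulSMul_iff_algebraMap_injective _ _).2 hBK
  have : FaithfulSMul A K := (faithfulSMul_iff_algebraMap_injective _ _).2
    (hBK.comp (FaithfulSMul.algebraMap_injective A B))
  have : IsScalarTower E A K := .of_algebraMap_eq fun x => by
    change _ = MvPolynomial.aeval ((↑) : s → K)
      (MvPolynomial.map (algebraMap E F) (MvPolynomial.C x))
    rw [MvPolynomial.map_C, MvPolynomial.aeval_C, ← IsScalarTower.algebraMap_apply]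
  have : Algebra.IsAlgebraic B K := by
    have h1 := hs.isAlgebraic
    refine ⟨fun x => ?_⟩
    have h2 := h1.isAlgebraic x
    refine IsAlgebraic.of_ringHom_of_comp_eq hs.1.aevalEquiv.toRingHom (RingHom.id K) h2
      hs.1.aevalEquiv.surjective Function.injective_id ?_
    refine RingHom.ext fun y => ?_
    exact hs.1.algebraMap_aevalEquiv y
  have : Algebra.IsAlgebraic A K := Algebra.IsAlgebraic.trans A B K
  let := FractionRing.liftAlgebra A K
  have := norm_finite_frac E A K
  have h1 : Module.rank A K < Cardinal.aleph0 := by
    rw [← IsFractionRing.rank_right_eq (S := FractionRing A)]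
    exact Module.rank_lt_aleph0 _ _
  have h2 : Module.rank A B ≤ Module.rank A K :=
    (IsScalarTower.toAlgHom A B K).toLinearMap.rank_le_of_injective hBK
  have h3 := rank_mvPolynomial_mvPolynomial E F s
  rw [Cardinal.lift_id] at h3
  exact Module.rank_lt_aleph0_iff.1 (h3 ▸ h2.trans_lt h1)

theorem norm_essFT (k F K : Type u) [Field k] [Field F] [Field K] [Algebra k F]
    [Algebra F K] [Algebra k K] [IsScalarTower k F K] [Algebra.EssFiniteType k K] :
    Algebra.EssFiniteType k F := by
  have : FinTrdeg k F := by
    refine FinTrdeg.of_trdeg (lt_of_le_of_lt ?_ (trdeg_lt_aleph0 k K))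
    exact trdeg_le_of_injective (IsScalarTower.toAlgHom k F K) (algebraMap F K).injective
  obtain ⟨E, hE, halg⟩ := FinTrdeg.exists_fg_isAlgebraic k F
  have : Algebra.EssFiniteType k E := IntermediateField.essFiniteType_iff.2 hE
  have : Algebra.EssFiniteType E K := .of_comp k _ _
  have : Module.Finite E F := norm_finite_of_algebraic E F K
  exact .comp k E F

theorem norm_finite_frobenius (k A : Type u) [Field k] [CharP k p] [PerfectRing k p] [CommRing A]
    [Algebra k A] [ExpChar A p] [Algebra.FiniteType k A] (e : ℕ) :
    (iterateFrobenius A p e).Finite := by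
  refine RingHom.IsIntegral.to_finite ?_ ?_
  · intro a
    refine ⟨Polynomial.X ^ (p ^ e) - Polynomial.C a,
      Polynomial.monic_X_pow_sub_C _ (pow_ne_zero _ (Fact.out : p.Prime).ne_zero), ?_⟩
    simp [iterateFrobenius_def]
  · refine RingHom.FiniteType.of_comp_finiteType
      (f := (algebraMap k A).comp (iterateFrobeniusEquiv k p e).symm.toRingHom) ?_
    have : (iterateFrobenius A p e).comp
        ((algebraMap k A).comp (iterateFrobeniusEquiv k p e).symm.toRingHom) = algebraMap k A := by
      refine RingHom.ext fun x => ?_
      obtain ⟨x, rfl⟩ := (iterateFrobeniusEquiv k p e).surjective x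
      rw [RingHom.comp_apply, RingHom.comp_apply, RingEquiv.toRingHom_eq_coe, RingHom.coe_coe,
        RingEquiv.symm_apply_apply, iterateFrobenius_def, iterateFrobeniusEquiv_def, map_pow]
    rw [this]
    exact RingHom.finiteType_algebraMap.2 inferInstance

theorem norm_finite_of_injective {A C D : Type u} [CommRing A] [CommRing C] [CommRing D]
    [IsNoetherianRing A] [Algebra A C] (ψ : C →+* D) (hψ : Function.Injective ψ)
    (h : (ψ.comp (algebraMap A C)).Finite) : Module.Finite A C := by
  let : Algebra A D := (ψ.comp (algebraMap A C)).toAlgebra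
  have : Module.Finite A D := h
  let f : C →ₐ[A] D := { ψ with commutes' := fun _ => rfl }
  exact Module.Finite.of_injective f.toLinearMap hψ

include p

theorem norm_normal (A K : Type u) [CommRing A] [IsDomain A] [IsIntegrallyClosed A] [Field K]
    [Algebra k A] [Algebra.FiniteType k A] [Algebra k K] [Algebra A K] [IsScalarTower k A K]
    [FaithfulSMul A K] [Algebra.EssFiniteType k K] [Algebra.IsAlgebraic A K] :
    Module.Finite A (integralClosure A K) := by
  let := FractionRing.liftAlgebra A K
  let L := FractionRing A
  have : Module.Finite L K := norm_finite_frac k A K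
  have : IsNoetherianRing A := Algebra.FiniteType.isNoetherianRing k A
  have : CharP A p := charP_of_injective_algebraMap (algebraMap k A).injective p
  have : CharP K p := charP_of_injective_algebraMap (algebraMap k K).injective p
  let S := separableClosure L K
  have : IsScalarTower A S K := .of_algebraMap_eq fun _ => rfl
  have : CharP S p := S.subtype.charP Subtype.val_injective p
  have : ExpChar S p := .prime Fact.out
  have : ExpChar A p := .prime Fact.out
  have hS : Module.Finite A (integralClosure A S) := IsIntegralClosure.finite A L S _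
  let e := IsPurelyInseparable.exponent S K
  let φ : K →+* S := IsPurelyInseparable.iterateFrobenius S K p (n := e) le_rfl
  have hφ : ∀ x, ((φ x : S) : K) = x ^ p ^ e := fun x =>
    IsPurelyInseparable.algebraMap_iterateFrobenius S p le_rfl x
  let ψ : integralClosure A K →+* integralClosure A S :=
    (φ.comp (integralClosure A K).val.toRingHom).codRestrict (integralClosure A S) fun x => by
      change IsIntegral A (φ x)
      rw [← isIntegral_algHom_iff (IsScalarTower.toAlgHom A S K) Subtype.val_injective]
      change IsIntegral A ((φ x : S) : K)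
      rw [hφ]
      exact x.2.pow _
  refine norm_finite_of_injective ψ ?_ ?_
  · intro x y h
    exact Subtype.ext (φ.injective (congrArg Subtype.val h))
  · have : ψ.comp (algebraMap A _) =
        (algebraMap A (integralClosure A S)).comp (iterateFrobenius A p e) := by
      refine RingHom.ext fun a => Subtype.ext (Subtype.ext ?_)
      change ((φ (algebraMap A K a) : S) : K) = algebraMap A K (a ^ p ^ e)
      rw [hφ, map_pow]
    rw [this]
    exact RingHom.Finite.comp (RingHom.finite_algebraMap.2 hS) (norm_finite_frobenius p k A e)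

theorem norm_core (R K : Type u) [CommRing R] [IsDomain R] [Field K]
    [Algebra k R] [Algebra.FiniteType k R] [Algebra k K] [Algebra R K] [IsScalarTower k R K]
    [FaithfulSMul R K] [Algebra.EssFiniteType k K] [Algebra.IsAlgebraic R K] :
    Module.Finite R (integralClosure R K) := by
  obtain ⟨s, g, hg, hfin⟩ := exists_finite_inj_algHom_of_fg k R
  let A := MvPolynomial (Fin s) k
  let : Algebra A R := g.toRingHom.toAlgebra
  have : Module.Finite A R := hfin
  let : Algebra A K := ((algebraMap R K).comp (algebraMap A R)).toAlgebra
  have : IsScalarTower A R K := .of_algebraMap_eq' rfl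
  have : FaithfulSMul A K := (faithfulSMul_iff_algebraMap_injective _ _).2
    ((FaithfulSMul.algebraMap_injective R K).comp hg)
  have : IsScalarTower k A K := .of_algebraMap_eq fun x => by
    change _ = algebraMap R K (g (algebraMap k A x))
    rw [g.commutes, ← IsScalarTower.algebraMap_apply]
  have : Algebra.IsAlgebraic A K := Algebra.IsAlgebraic.trans A R K
  have h := norm_normal (k := k) p A K
  let f : integralClosure A K →ₗ[A] integralClosure R K :=
    { toFun := fun x => ⟨x.1, IsIntegral.tower_top x.2⟩
      map_add' := fun _ _ => rfl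
      map_smul' := fun _ _ => rfl }
  have : Module.Finite A (integralClosure R K) :=
    Module.Finite.of_surjective f fun x => ⟨⟨x.1, isIntegral_trans _ x.2⟩, rfl⟩
  exact Module.Finite.of_restrictScalars_finite A R _

theorem norm_in_field (R : Subalgebra k K) (hR : R.FG) (F : IntermediateField k K)
    [Algebra.EssFiniteType k F] (hRF : ∀ x ∈ R, x ∈ F) (hF : ∀ x ∈ F, IsAlgebraic R x) :
    ∃ s : Finset K, (∀ x ∈ s, x ∈ F ∧ IsIntegral R x) ∧
      ∀ x ∈ F, IsIntegral R x → x ∈ Submodule.span R (s : Set K) := by
  classical
  have : Algebra.FiniteType k R := R.fg_iff_finiteType.1 hR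
  let : Algebra R F := ((algebraMap R K).codRestrict F fun x => hRF x x.2).toAlgebra
  have : IsScalarTower R F K := .of_algebraMap_eq' rfl
  have : IsScalarTower k R F := .of_algebraMap_eq fun x => Subtype.ext rfl
  have : FaithfulSMul R F := (faithfulSMul_iff_algebraMap_injective _ _).2 fun x y h =>
    Subtype.ext (congrArg (Subtype.val : F → K) h)
  have : Algebra.IsAlgebraic R F := ⟨fun x =>
    (isAlgebraic_algHom_iff (IsScalarTower.toAlgHom R F K) Subtype.val_injective).1 (hF x x.2)⟩
  have h := norm_core (k := k) p R F
  obtain ⟨s, hs⟩ := Module.Finite.fg_top (R := R) (M := integralClosure R F)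
  let f : integralClosure R F →ₐ[R] K := (IsScalarTower.toAlgHom R F K).comp (integralClosure R F).val
  refine ⟨s.image f, ?_, ?_⟩
  · intro x hx
    obtain ⟨y, -, rfl⟩ := Finset.mem_image.1 hx
    exact ⟨y.1.2, IsIntegral.map (IsScalarTower.toAlgHom R F K) y.2⟩
  · intro x hxF hx
    have hx' : IsIntegral R (⟨x, hxF⟩ : F) :=
      (isIntegral_algHom_iff (IsScalarTower.toAlgHom R F K) Subtype.val_injective).1 hx
    have h1 : (⟨⟨x, hxF⟩, hx'⟩ : integralClosure R F) ∈ Submodule.span R (s : Set _) := by
      rw [hs]; trivial
    have h2 := Submodule.mem_map_of_mem (f := f.toLinearMap) h1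
    rw [Submodule.map_span] at h2
    rw [Finset.coe_image]
    exact h2

theorem norm_general [Algebra.EssFiniteType k K] (R : Subalgebra k K) (hR : R.FG) :
    ∃ s : Finset K, (∀ x ∈ s, IsIntegral R x) ∧
      ∀ x, IsIntegral R x → x ∈ Submodule.span R (s : Set K) := by
  let F : IntermediateField k K :=
    ((Subalgebra.algebraicClosure R K).restrictScalars k).toIntermediateField
      fun x hx => IsAlgebraic.inv hx
  have : Algebra.EssFiniteType k F := norm_essFT k F K
  obtain ⟨s, hs, hs'⟩ := norm_in_field p R hR F
    (fun x hx => isAlgebraic_algebraMap (⟨x, hx⟩ : R)) (fun x hx => hx)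
  exact ⟨s, fun x hx => (hs x hx).2, fun x hx => hs' x hx.isAlgebraic hx⟩

theorem norm_finite_general [Algebra.EssFiniteType k K] (R : Subalgebra k K) (hR : R.FG) :
    Module.Finite R (integralClosure R K) := by
  obtain ⟨s, hs, hs'⟩ := norm_general p R hR
  have : (integralClosure R K).toSubmodule.FG :=
    ⟨s, le_antisymm (Submodule.span_le.2 fun x hx => hs x hx) fun x hx => hs' x hx⟩
  exact Module.Finite.iff_fg (N := (integralClosure R K).toSubmodule) |>.2 this

theorem finite_integralClosure [Algebra.EssFiniteType k K] (R : Subalgebra k K) (hR : R.FG)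
    [Algebra.IsAlgebraic R K] : Module.Finite R (integralClosure R K) :=
  norm_finite_general p R hR

/-- The integral closure is spanned by finitely many elements. -/
theorem exists_finset_integral [Algebra.EssFiniteType k K] (R : Subalgebra k K) (hR : R.FG)
    [Algebra.IsAlgebraic R K] : ∃ s : Finset K, (∀ x ∈ s, IsIntegral R x) ∧
      ∀ x, IsIntegral R x → x ∈ Submodule.span R (s : Set K) :=
  norm_general p R hR

theorem exists_conductor (R : Subalgebra k K) (hR : R.FG) : ∃ c ∈ R, c ≠ 0 ∧ ∀ x : K,
    IsIntegral R x → x ∈ IntermediateField.adjoin k (R : Set K) → c * x ∈ R := by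
  classical
  set F := IntermediateField.adjoin k (R : Set K) with hF
  have hdiv : ∀ x ∈ F, ∃ b ∈ R, b ≠ 0 ∧ b * x ∈ R := by
    intro x hx
    obtain ⟨a, ha, b, hb, rfl⟩ := IntermediateField.mem_adjoin_iff_div.1 hx
    rw [Algebra.adjoin_eq] at ha hb
    by_cases hb0 : b = 0
    · exact ⟨1, one_mem _, one_ne_zero, by simp [hb0]⟩
    · exact ⟨b, hb, hb0, by rwa [mul_div_cancel₀ _ hb0]⟩
  have : Algebra.EssFiniteType k F := by
    obtain ⟨t, ht⟩ := hR
    refine IntermediateField.essFiniteType_iff.2 ⟨t, le_antisymm ?_ ?_⟩
    · exact IntermediateField.adjoin.mono _ _ _ (ht ▸ Algebra.subset_adjoin)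
    · rw [hF, IntermediateField.adjoin_le_iff, ← ht]
      exact IntermediateField.algebra_adjoin_le_adjoin _ _
  obtain ⟨s, hs, hs'⟩ := norm_in_field p R hR F
    (fun x hx => IntermediateField.subset_adjoin _ _ hx) (fun x hx => by
      obtain ⟨b, hb, hb0, hbx⟩ := hdiv x hx
      have h1 : IsAlgebraic R (b * x) := isAlgebraic_algebraMap (⟨_, hbx⟩ : R)
      have h2 : IsAlgebraic R b := isAlgebraic_algebraMap (⟨_, hb⟩ : R)
      have h3 := h2.inv.mul h1
      rwa [inv_mul_cancel_left₀ hb0] at h3)
  choose! b hb hb0 hbx using hdiv
  refine ⟨∏ x ∈ s, b x, prod_mem fun x hx => hb x (hs x hx).1,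
    Finset.prod_ne_zero_iff.2 fun x hx => hb0 x (hs x hx).1, fun x hx hxF => ?_⟩
  have h := hs' x hxF hx
  clear hx hxF
  induction h using Submodule.span_induction with
  | mem y hy =>
    rw [← Finset.prod_erase_mul _ _ hy, mul_assoc]
    exact mul_mem (prod_mem fun x hx => hb x (hs x (Finset.mem_of_mem_erase hx)).1)
      (hbx y (hs y hy).1)
  | zero => simp
  | add y z _ _ hy hz => rw [mul_add]; exact add_mem hy hz
  | smul r y _ hy =>
    rw [mul_smul_comm]
    exact mul_mem r.2 hy

/-- The integral closure inside an intermediate field is a finitely generated algebra. -/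
theorem fg_of_integral [Algebra.EssFiniteType k K] (R C : Subalgebra k K) (hR : R.FG) (h : R ≤ C)
    (hC : ∀ x ∈ C, IsIntegral R x) : C.FG := by
  have : Algebra.FiniteType k R := R.fg_iff_finiteType.1 hR
  have : IsNoetherianRing R := Algebra.FiniteType.isNoetherianRing k R
  have hfin := norm_finite_general p R hR
  let : Algebra R C := (Subalgebra.inclusion h).toRingHom.toAlgebra
  have : IsScalarTower k R C := .of_algebraMap_eq fun x => Subtype.ext rfl
  let ψ : C →+* integralClosure R K :=
    C.val.toRingHom.codRestrict (integralClosure R K) fun x => hC x x.2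
  have : Module.Finite R C := by
    refine norm_finite_of_injective ψ (fun x y hxy =>
      Subtype.ext (congrArg (Subtype.val : integralClosure R K → K) hxy)) ?_
    exact RingHom.finite_algebraMap.2 hfin
  exact C.fg_iff_finiteType.2 (Algebra.FiniteType.trans (S := R) inferInstance inferInstance)

omit p [Fact p.Prime] [CharP k p] [IsAlgClosed k] in
/-- Subfields of finitely generated fields are finitely generated. -/
theorem essFT_intermediate [Algebra.EssFiniteType k K] (F : IntermediateField k K) :
    Algebra.EssFiniteType k F := norm_essFT k F K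

end

end Pool.Agent.Lib.MP_1c03d5_ag
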