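import Pool.Agent.Lib.MP_1c03d5_ag.PB1
import Pool.Agent.Lib.MP_1c03d5_ag.Jc
import Pool.Agent.Lib.MP_1c03d5_ag.Norm

/-!
# TASK PB2: coordinates are p-bases; change of variables for the trace
-/

universe u

namespace Pool.Agent.Lib.MP_1c03d5_ag

noncomputable section

open TensorProduct

/-- A finite unramified purely inseparable algebra map of exponent one is onto. -/
theorem pb2_surj {A R : Type u} [CommRing A] [CommRing R] [Algebra A R] (p : ℕ) [Fact p.Prime]
    [CharP R p] [Module.Finite A R] [Algebra.FormallyUnramified A R]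
    (hp : ∀ x : R, ∃ a : A, algebraMap A R a = x ^ p) : Function.Surjective (algebraMap A R) := by
  rw [← Algebra.isEpi_iff_surjective_algebraMap_of_finite, Algebra.isEpi_iff_forall_one_tmul_eq]
  obtain ⟨t, ht, ht1⟩ := (Algebra.FormallyUnramified.iff_exists_tensorProduct (R := A) (S := R)).mp
    inferInstance
  have hinj : Function.Injective
      (Algebra.TensorProduct.includeLeftRingHom : R →+* R ⊗[A] R) := by
    intro a b hab
    have := congrArg (Algebra.TensorProduct.lmul' A (S := R)) hab
    simpa using this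
  have : CharP (R ⊗[A] R) p := charP_of_injective_ringHom hinj p
  have hnil : KaehlerDifferential.ideal A R ≤ nilradical (R ⊗[A] R) := by
    rw [← KaehlerDifferential.span_range_eq_ideal, Ideal.span_le]
    rintro _ ⟨s, rfl⟩
    refine mem_nilradical.mpr ⟨p, ?_⟩
    obtain ⟨a, ha⟩ := hp s
    rw [sub_pow_char, Algebra.TensorProduct.tmul_pow, Algebra.TensorProduct.tmul_pow, one_pow,
      ← ha, Algebra.algebraMap_eq_smul_one, TensorProduct.smul_tmul, sub_self]
  have h1 : 1 - t ∈ KaehlerDifferential.ideal A R := by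
    rw [KaehlerDifferential.ideal, RingHom.mem_ker, map_sub, map_one, ht1, sub_self]
  have hu : IsUnit t := by
    have := (mem_nilradical.mp (hnil h1)).isUnit_one_sub
    simpa using this
  intro s
  have := ht s
  rwa [hu.mul_left_eq_zero, sub_eq_zero] at this

section

variable {k : Type u} [Field k] {R : Type u} [CommRing R] [Algebra k R]
  (p : ℕ) [Fact p.Prime] [CharP R p]

theorem pb2_unit {j : ℕ} (hj : j + 1 < p) : IsUnit ((j + 1 : ℕ) : R) := by
  rw [CharP.isUnit_natCast_iff (p := p) (Fact.out)]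
  exact Nat.not_dvd_of_pos_of_lt (Nat.succ_pos _) hj

theorem pb2_one (δ : Derivation k R R) {y : R} (hy : δ y = 1) (m : ℕ) (hm : m ≤ p) (b : ℕ → R)
    (hb : ∀ j, δ (b j) = 0) (h : ∑ j ∈ Finset.range m, b j * y ^ j = 0) : ∀ j < m, b j = 0 := by
  induction m generalizing b with
  | zero => intro j hj; omega
  | succ m ih =>
    have h' : ∑ j ∈ Finset.range m, (((j + 1 : ℕ) : R) * b (j + 1)) * y ^ j = 0 := by
      have := congrArg δ h
      rw [map_sum, Finset.sum_range_succ', map_zero] at this
      simp only [Derivation.leibniz, hb, Derivation.leibniz_pow, hy, add_zero,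
        smul_eq_mul, mul_one, zero_smul, mul_zero, Nat.add_sub_cancel, nsmul_eq_mul] at this
      rw [← this]
      refine Finset.sum_congr rfl fun j _ => by ring
    have h2 := ih (by omega) (fun j => ((j + 1 : ℕ) : R) * b (j + 1))
      (fun j => by simp only [Derivation.leibniz, hb, Derivation.map_natCast, smul_zero, add_zero])
      h'
    have h3 : ∀ j < m, b (j + 1) = 0 := fun j hj =>
      (pb2_unit (R := R) p (j := j) (by omega)).mul_right_eq_zero.mp (h2 j hj)
    intro j hj
    rcases j with _ | j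
    · rw [Finset.sum_range_succ', Finset.sum_eq_zero fun j hj => by
        rw [h3 j (Finset.mem_range.mp hj), zero_mul]] at h
      simpa using h
    · exact h3 j (by omega)

theorem pb2_one' (δ : Derivation k R R) {y : R} (hy : δ y = 1) (b : Fin p → R)
    (hb : ∀ j, δ (b j) = 0) (h : ∑ j, b j * y ^ (j : ℕ) = 0) (j : Fin p) : b j = 0 := by
  have := pb2_one p δ hy p le_rfl (fun j => if hj : j < p then b ⟨j, hj⟩ else 0)
    (fun j => by split_ifs <;> simp [hb]) (by
      rw [← h, Finset.sum_range]
      simp) j j.2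
  simpa using this

theorem pb2_indep (n : ℕ) (y : Fin n → R) (δ : Fin n → Derivation k R R)
    (hδ : ∀ i j, δ i (y j) = if i = j then 1 else 0) (b : (Fin n → Fin p) → R)
    (hb : ∀ i α, δ i (b α) = 0) (h : ∑ α, b α * mon y α = 0) (α : Fin n → Fin p) : b α = 0 := by
  induction n with
  | zero =>
    rw [Fintype.sum_unique] at h
    rw [mon, Finset.univ_eq_empty, Finset.prod_empty, mul_one] at h
    exact (congrArg b (Subsingleton.elim _ _)).trans h
  | succ n ih =>
    have hmon : ∀ (j : Fin p) (β : Fin n → Fin p), mon y (Fin.cons j β : Fin (n + 1) → Fin p) =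
        mon (fun i => y i.succ) β * y 0 ^ (j : ℕ) := by
      intro j β
      simp [mon, Fin.prod_univ_succ, mul_comm]
    have h0 : ∀ β : Fin n → Fin p, δ 0 (mon (fun i => y i.succ) β) = 0 := by
      intro β
      unfold mon
      refine Finset.prod_induction _ (fun x => δ 0 x = 0) ?_ ?_ ?_
      · intro a c ha hc
        simp [Derivation.leibniz, ha, hc]
      · simp
      · intro i _
        simp [Derivation.leibniz_pow, hδ, (Fin.succ_ne_zero i).symm]
    rw [← (Fin.consEquiv fun _ : Fin (n + 1) => Fin p).sum_comp, Fintype.sum_prod_type] at h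
    have h1 := pb2_one' p (δ 0) (y := y 0) (by simp [hδ])
      (fun j => ∑ β : Fin n → Fin p, b (Fin.cons j β) * mon (fun i => y i.succ) β)
      (fun j => by simp [map_sum, Derivation.leibniz, hb, h0]) (by
        rw [← h]
        refine Finset.sum_congr rfl fun j _ => ?_
        rw [Finset.sum_mul]
        refine Finset.sum_congr rfl fun β _ => ?_
        rw [mul_assoc, ← hmon]
        rfl) (α 0)
    have h2 := ih (fun i => y i.succ) (fun i => δ i.succ) (fun i j => by simp [hδ])
      (fun β => b (Fin.cons (α 0) β)) (fun i β => hb _ _) h1 (Fin.tail α)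
    simpa using h2

/-- Elements of the algebra generated by `p`-th powers and the `y i`. -/
theorem pb2_span [PerfectField k] {n : ℕ} (y : Fin n → R) {x : R}
    (hx : x ∈ Algebra.adjoin k (Set.range (fun a : R => a ^ p) ∪ Set.range y)) :
    ∃ c : (Fin n → Fin p) → R, x = ∑ α, c α ^ p * mon y α := by
  have hp : 0 < p := (Fact.out : p.Prime).pos
  have : Nontrivial R := CharP.nontrivial_of_char_ne_one (Fact.out : p.Prime).ne_one
  have : CharP k p := (algebraMap k R).charP (algebraMap k R).injective p
  let P : Subring R := (frobenius R p).range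
  have hP : ∀ a : R, a ^ p ∈ Algebra.adjoin P (Set.range y) := fun a =>
    (Algebra.adjoin P (Set.range y)).algebraMap_mem ⟨a ^ p, a, rfl⟩
  have h1 : x ∈ Algebra.adjoin P (Set.range y) := by
    induction hx using Algebra.adjoin_induction with
    | mem x hx =>
      rcases hx with ⟨a, rfl⟩ | hx
      · exact hP a
      · exact Algebra.subset_adjoin hx
    | algebraMap c =>
      obtain ⟨c, rfl⟩ := surjective_frobenius k p c
      rw [frobenius_def, map_pow]
      exact hP _
    | add a b _ _ ha hb => exact add_mem ha hb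
    | mul a b _ _ ha hb => exact mul_mem ha hb
  have h2 : x ∈ Submodule.span P (Set.range (mon y : (Fin n → Fin p) → R)) := by
    rw [← Subalgebra.mem_toSubmodule, Algebra.adjoin_eq_span] at h1
    refine Submodule.span_le.mpr ?_ h1
    intro z hz
    obtain ⟨β, rfl⟩ := Submonoid.mem_closure_range_iff_of_fintype.mp hz
    have : ∏ i, y i ^ β i = (⟨(∏ i, y i ^ (β i / p)) ^ p, _, rfl⟩ : P) •
        mon y (fun i => (⟨β i % p, Nat.mod_lt _ hp⟩ : Fin p)) := by
      change _ = (∏ i, y i ^ (β i / p)) ^ p * ∏ i, y i ^ (β i % p)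
      rw [← Finset.prod_pow, ← Finset.prod_mul_distrib]
      refine Finset.prod_congr rfl fun i _ => ?_
      rw [← pow_mul, ← pow_add, Nat.div_add_mod']
    rw [this]
    exact Submodule.smul_mem _ _ (Submodule.subset_span ⟨_, rfl⟩)
  obtain ⟨c, hc⟩ := (Submodule.mem_span_range_iff_exists_fun P).mp h2
  choose d hd using fun α => (c α).2
  refine ⟨d, ?_⟩
  rw [← hc]
  refine Finset.sum_congr rfl fun α _ => ?_
  rw [← frobenius_def, hd]
  rfl

theorem pb2_top [Algebra.EssFiniteType k R] {n : ℕ} {y : Fin n → R} (hy : IsCoord k y) (x : R) :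
    x ∈ Algebra.adjoin k (Set.range (fun a : R => a ^ p) ∪ Set.range y) := by
  have hp : 0 < p := (Fact.out : p.Prime).pos
  set A := Algebra.adjoin k (Set.range (fun a : R => a ^ p) ∪ Set.range y) with hA
  have hpow : ∀ a : R, a ^ p ∈ A := fun a => Algebra.subset_adjoin (Or.inl ⟨a, rfl⟩)
  have hy' : ∀ i, y i ∈ A := fun i => Algebra.subset_adjoin (Or.inr ⟨i, rfl⟩)
  have : Algebra.IsIntegral A R :=
    ⟨fun a => IsIntegral.of_pow hp (isIntegral_algebraMap (R := A) (x := ⟨a ^ p, hpow a⟩))⟩
  have : Algebra.FiniteType A R := by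
    obtain ⟨σ, hσ⟩ := (Algebra.essFiniteType_iff k R).mp inferInstance
    refine ⟨σ, eq_top_iff.mpr fun r _ => ?_⟩
    obtain ⟨t, ht, ⟨v, rfl⟩, hr⟩ := hσ r
    have hle : Algebra.adjoin k (σ : Set R) ≤ (Algebra.adjoin A (σ : Set R)).restrictScalars k :=
      Algebra.adjoin_le Algebra.subset_adjoin
    have : r = r * v * v ^ (p - 1) * (↑v⁻¹ : R) ^ p := by
      rw [mul_assoc r, ← pow_succ', Nat.sub_add_cancel hp, mul_assoc, ← mul_pow]
      simp
    rw [this]
    exact mul_mem (mul_mem (hle hr) (pow_mem (hle ht) _))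
      ((Algebra.adjoin A (σ : Set R)).algebraMap_mem ⟨_, hpow _⟩)
  have : Module.Finite A R := Algebra.IsIntegral.finite
  have : Algebra.FormallyUnramified A R := by
    refine ⟨subsingleton_of_forall_eq 0 fun w => ?_⟩
    obtain ⟨w, rfl⟩ := KaehlerDifferential.map_surjective k A R w
    have hw : w ∈ Submodule.span R (Set.range fun i => KaehlerDifferential.D k R (y i)) := by
      rw [hy.2]; trivial
    obtain ⟨c, rfl⟩ := (Submodule.mem_span_range_iff_exists_fun R).mp hw
    rw [map_sum]
    refine Finset.sum_eq_zero fun i _ => ?_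
    rw [map_smul, KaehlerDifferential.map_D]
    have := (KaehlerDifferential.D A R).map_algebraMap ⟨y i, hy' i⟩
    change _ • KaehlerDifferential.D A R (y i) = 0
    change KaehlerDifferential.D A R (y i) = 0 at this
    rw [this, smul_zero]
  obtain ⟨a, rfl⟩ := pb2_surj (A := A) (R := R) p (fun x => ⟨⟨x ^ p, hpow x⟩, rfl⟩) x
  exact a.2

end

variable {k : Type u} [Field k] [IsAlgClosed k] {R : Type u} [CommRing R] [Algebra k R] {n : ℕ}
  (p : ℕ) [Fact p.Prime] [CharP R p]

theorem IsCoord.isPB [Algebra.EssFiniteType k R] [IsReduced R] {y : Fin n → R}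
    (hy : IsCoord k y) : IsPB p y := by
  intro a
  obtain ⟨c, hc⟩ := pb2_span p y (pb2_top p hy a)
  refine ⟨c, hc, fun c' hc' => ?_⟩
  obtain ⟨δ, hδ, -⟩ := hy.exists_der
  funext α
  have := pb2_indep p n y δ hδ (fun α => (c' α - c α) ^ p)
    (fun i α => by simp [Derivation.leibniz_pow]) (by
      simp only [sub_pow_char, sub_mul, Finset.sum_sub_distrib]
      rw [← hc, ← hc', sub_self]) α
  exact sub_eq_zero.mp (IsReduced.eq_zero _ ⟨p, this⟩)

theorem SepBasis.tr_mem {K : Type u} [Field K] [Algebra k K] [CharP K p]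
    [Algebra.EssFiniteType k K] {h : Fin n → K} (hh : SepBasis k h) (F : IntermediateField k K)
    (hF : ∀ i, h i ∈ F) (e : ℕ) : ∀ x ∈ F, Tr (p ^ e) h x ∈ F := by
  intro x hx
  let h' : Fin n → F := fun i => ⟨h i, hF i⟩
  have h1 : SepBasis k h' := SepBasis.of_coe F (h := h') hh
  have := essFT_intermediate F
  have : CharP F p := (algebraMap F K).charP (algebraMap F K).injective p
  have h2 : IsPB (p ^ e) h' := (h1.isCoord.isPB p).pow e
  have h3 : IsPB (p ^ e) h := (hh.isCoord.isPB p).pow e
  have h4 := IsPB.Tr_map (algebraMap F K) h2 h3 ⟨x, hx⟩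
  change _ = Tr (p ^ e) h x at h4
  rw [← h4]
  exact (Tr (p ^ e) h' ⟨x, hx⟩).2

end

end Pool.Agent.Lib.MP_1c03d5_ag
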