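import Pool.Agent.Lib.MP_1c03d5_ag.PB1
import Pool.Agent.Lib.MP_1c03d5_ag.Jc

/-!
# TASK PB3: change of variables for the trace
-/

universe u

namespace Pool.Agent.Lib.MP_1c03d5_ag

noncomputable section

variable {k : Type u} [Field k] {R : Type u} [CommRing R] [Algebra k R] {n : ℕ}
  {p : ℕ} [Fact p.Prime] [CharP R p]

section calculus

theorem pb3_der_prod (d : Derivation k R R) {ι : Type*} [DecidableEq ι] (s : Finset ι)
    (f : ι → R) : d (∏ i ∈ s, f i) = ∑ i ∈ s, d (f i) * ∏ j ∈ s.erase i, f j := by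
  induction s using Finset.induction_on with
  | empty => simp
  | insert a s ha ih =>
    rw [Finset.prod_insert ha, Finset.sum_insert ha, Derivation.leibniz, ih, smul_eq_mul,
      smul_eq_mul, Finset.erase_insert ha, Finset.mul_sum, add_comm, mul_comm]
    congr 1
    refine Finset.sum_congr rfl fun i hi => ?_
    have hia : a ≠ i := fun h => ha (h ▸ hi)
    rw [Finset.erase_insert_of_ne hia,
      Finset.prod_insert (fun h => ha (Finset.mem_of_mem_erase h))]
    ring

omit [Fact p.Prime] in
theorem pb3_der_pow_p (d : Derivation k R R) (a : R) : d (a ^ p) = 0 := by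
  rw [Derivation.leibniz_pow, nsmul_eq_mul, CharP.cast_eq_zero, zero_mul]

omit [Fact p.Prime] in
theorem pb3_der_pow_mul (d : Derivation k R R) (a b : R) : d (a ^ p * b) = a ^ p * d b := by
  rw [Derivation.leibniz, pb3_der_pow_p, smul_zero, add_zero, smul_eq_mul]

theorem pb3_der_aeval (d : Derivation k R R) (u v : R) (Φ : MvPolynomial (Fin 2) ℤ) :
    d (MvPolynomial.aeval ![u, v] Φ) =
      MvPolynomial.aeval ![u, v] (MvPolynomial.pderiv 0 Φ) * d u +
        MvPolynomial.aeval ![u, v] (MvPolynomial.pderiv 1 Φ) * d v := by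
  induction Φ using MvPolynomial.induction_on with
  | C a => simp
  | add f g hf hg =>
    simp only [map_add, hf, hg]
    ring
  | mul_X f i hf =>
    simp only [map_mul, Derivation.leibniz, hf, smul_eq_mul, map_add, MvPolynomial.aeval_X]
    fin_cases i <;> simp <;> ring

omit [CharP R p] in
/-- The additivity of the inverse Cartier operator modulo exact forms. -/
theorem pb3_cartier_add (u v : R) : ∃ g : R, ∀ d : Derivation k R R,
    (u + v) ^ (p - 1) * d (u + v) = u ^ (p - 1) * d u + v ^ (p - 1) * d v + d g := by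
  have hp : p.Prime := Fact.out
  obtain ⟨r, hr⟩ := exists_add_pow_prime_eq hp (MvPolynomial.X 0 : MvPolynomial (Fin 2) ℤ)
    (MvPolynomial.X 1)
  set Φ : MvPolynomial (Fin 2) ℤ := MvPolynomial.X 0 * MvPolynomial.X 1 * r with hΦ
  have hr' : (MvPolynomial.X 0 + MvPolynomial.X 1 : MvPolynomial (Fin 2) ℤ) ^ p =
      MvPolynomial.X 0 ^ p + MvPolynomial.X 1 ^ p + (p : MvPolynomial (Fin 2) ℤ) * Φ := by
    rw [hr, hΦ]
    ring
  have hp0 : (p : MvPolynomial (Fin 2) ℤ) ≠ 0 := by exact_mod_cast hp.ne_zero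
  have h0 : MvPolynomial.pderiv 0 Φ =
      (MvPolynomial.X 0 + MvPolynomial.X 1) ^ (p - 1) - MvPolynomial.X 0 ^ (p - 1) := by
    have h := congrArg (MvPolynomial.pderiv 0) hr'
    simp only [map_add, Derivation.leibniz_pow, Derivation.leibniz, Derivation.map_natCast,
      MvPolynomial.pderiv_X_self, smul_eq_mul, nsmul_eq_mul,
      MvPolynomial.pderiv_X_of_ne (show (1 : Fin 2) ≠ 0 by decide)] at h
    apply mul_left_cancel₀ hp0
    linear_combination -h
  have h1 : MvPolynomial.pderiv 1 Φ =
      (MvPolynomial.X 0 + MvPolynomial.X 1) ^ (p - 1) - MvPolynomial.X 1 ^ (p - 1) := by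
    have h := congrArg (MvPolynomial.pderiv 1) hr'
    simp only [map_add, Derivation.leibniz_pow, Derivation.leibniz, Derivation.map_natCast,
      MvPolynomial.pderiv_X_self, smul_eq_mul, nsmul_eq_mul,
      MvPolynomial.pderiv_X_of_ne (show (0 : Fin 2) ≠ 1 by decide)] at h
    apply mul_left_cancel₀ hp0
    linear_combination -h
  refine ⟨MvPolynomial.aeval ![u, v] Φ, fun d => ?_⟩
  rw [pb3_der_aeval, h0, h1, map_add]
  simp only [map_sub, map_pow, map_add, MvPolynomial.aeval_X, Matrix.cons_val_zero,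
    Matrix.cons_val_one]
  ring

/-- A determinant with one exact row and closed other rows is a divergence. -/
theorem pb3_piola (δ : Fin n → Derivation k R R) (M : Matrix (Fin n) (Fin n) R) (a : Fin n)
    (g : R) (ha : ∀ j, M a j = δ j g) (hc : ∀ b i j, δ i (M b j) = δ j (M b i)) :
    M.det = ∑ σ : Equiv.Perm (Fin n),
      δ (σ a) (((Equiv.Perm.sign σ : ℤ) : R) * (g * ∏ i ∈ Finset.univ.erase a, M i (σ i))) := by
  rw [← Matrix.det_transpose, Matrix.det_apply']
  have h1 : ∀ σ : Equiv.Perm (Fin n),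
      δ (σ a) (((Equiv.Perm.sign σ : ℤ) : R) * (g * ∏ i ∈ Finset.univ.erase a, M i (σ i))) =
      ((Equiv.Perm.sign σ : ℤ) : R) * ∏ i, M.transpose (σ i) i +
        g * ∑ b ∈ Finset.univ.erase a, ((Equiv.Perm.sign σ : ℤ) : R) *
          (δ (σ a) (M b (σ b)) * ∏ i ∈ (Finset.univ.erase a).erase b, M i (σ i)) := by
    intro σ
    rw [Derivation.leibniz, Derivation.map_intCast, smul_zero, add_zero, Derivation.leibniz,
      pb3_der_prod, ← Finset.mul_sum, ← Finset.mul_prod_erase _ _ (Finset.mem_univ a)]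
    simp only [Matrix.transpose_apply, ha, smul_eq_mul]
    ring
  simp only [h1]
  rw [Finset.sum_add_distrib, ← Finset.mul_sum, Finset.sum_comm,
    Finset.sum_eq_zero (s := Finset.univ.erase a), mul_zero, add_zero]
  intro b hb
  have hab : b ≠ a := Finset.ne_of_mem_erase hb
  refine Finset.sum_involution (fun σ _ => σ * Equiv.swap a b) (fun σ _ => ?_) (fun σ _ _ => ?_)
    (fun _ _ => Finset.mem_univ _) (fun σ _ => by rw [mul_assoc, Equiv.swap_mul_self, mul_one])
  · have h2 : ∏ i ∈ (Finset.univ.erase a).erase b, M i ((σ * Equiv.swap a b) i) =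
        ∏ i ∈ (Finset.univ.erase a).erase b, M i (σ i) := by
      refine Finset.prod_congr rfl fun i hi => ?_
      rw [Equiv.Perm.mul_apply, Equiv.swap_apply_of_ne_of_ne
        (Finset.ne_of_mem_erase (Finset.mem_of_mem_erase hi)) (Finset.ne_of_mem_erase hi)]
    rw [h2, Equiv.Perm.mul_apply, Equiv.Perm.mul_apply, Equiv.swap_apply_left,
      Equiv.swap_apply_right, Equiv.Perm.sign_mul, Equiv.Perm.sign_swap hab.symm,
      hc b (σ a) (σ b)]
    simp
  · intro h
    have h3 := congrArg (fun τ : Equiv.Perm (Fin n) => τ a) h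
    simp only [Equiv.Perm.mul_apply, Equiv.swap_apply_left] at h3
    exact hab (σ.injective h3)

end calculus

section trace

variable {x : Fin n → R}

theorem pb3_pb1 (h : IsPB p x) : IsPB (p ^ 1) x := h.pow 1

theorem pb3_Tr_add (h : IsPB p x) (a b : R) : Tr p x (a + b) = Tr p x a + Tr p x b := by
  simpa only [pow_one] using (pb3_pb1 h).Tr_add a b

/-- The trace as an additive map. -/
def pb3_trHom (h : IsPB p x) : R →+ R := AddMonoidHom.mk' (Tr p x) (pb3_Tr_add h)

theorem pb3_trHom_apply (h : IsPB p x) (a : R) : pb3_trHom h a = Tr p x a := rfl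

theorem pb3_Tr_pow_mul (h : IsPB p x) (a b : R) : Tr p x (a ^ p * b) = a * Tr p x b := by
  simpa only [pow_one] using (pb3_pb1 h).Tr_pow_mul a b

theorem pb3_Tr_mon_aux {q e : ℕ} (hq : p ^ e = q) (h : IsPB q x) (α β : Fin n → Fin q) :
    Tr q x (mon x (fun i => (α i).rev) * mon x β) = if α = β then 1 else 0 := by
  subst hq
  exact h.Tr_mon α β

theorem pb3_hom_ext_aux {q e : ℕ} (hq : p ^ e = q) (h : IsPB q x) {l l' : R →+ R}
    (hl : ∀ a b, l (a ^ q * b) = a * l b) (hl' : ∀ a b, l' (a ^ q * b) = a * l' b)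
    (hm : ∀ α : Fin n → Fin q, l (mon x α) = l' (mon x α)) : l = l' := by
  subst hq
  exact h.hom_ext (RingHom.id R) hl hl' hm

theorem pb3_Tr_mon (h : IsPB p x) (β : Fin n → Fin p) :
    Tr p x (mon x β) = if ∀ i, (β i : ℕ) = p - 1 then 1 else 0 := by
  have hp : p.Prime := Fact.out
  have h1 := pb3_Tr_mon_aux (pow_one p) h (fun _ => ⟨p - 1, Nat.sub_lt hp.pos one_pos⟩) β
  have h2 : mon x (fun _ : Fin n => (⟨p - 1, Nat.sub_lt hp.pos one_pos⟩ : Fin p).rev) = 1 := by
    refine Finset.prod_eq_one fun i _ => ?_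
    have h3 : p - (p - 1 + 1) = 0 := by omega
    rw [Fin.val_rev, h3, pow_zero]
  rw [h2, one_mul] at h1
  rw [h1]
  refine if_congr ⟨fun h i => ?_, fun h => funext fun i => Fin.ext (h i).symm⟩ rfl rfl
  rw [← h]

variable {δ : Fin n → Derivation k R R}

theorem pb3_Tr_der (h : IsPB p x) (hδ : ∀ i j, δ i (x j) = if i = j then 1 else 0) (j : Fin n)
    (a : R) : Tr p x (δ j a) = 0 := by
  have hp : p.Prime := Fact.out
  have key : (pb3_trHom h).comp (δ j).toLinearMap.toAddMonoidHom = 0 := by
    refine pb3_hom_ext_aux (pow_one p) h (fun a b => ?_) (fun a b => by simp) (fun α => ?_)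
    · show Tr p x (δ j (a ^ p * b)) = a * Tr p x (δ j b)
      rw [pb3_der_pow_mul, pb3_Tr_pow_mul h]
    · show pb3_trHom h (δ j (mon x α)) = 0
      have hlt : (α j : ℕ) - 1 < p := lt_of_le_of_lt (Nat.sub_le _ _) (α j).2
      have h1 : δ j (mon x α) = (α j : ℕ) • mon x (Function.update α j ⟨_, hlt⟩) := by
        unfold mon
        rw [pb3_der_prod, Finset.sum_eq_single j, ← Finset.mul_prod_erase _ _ (Finset.mem_univ j),
          Derivation.leibniz_pow, hδ, if_pos rfl, Function.update_self, smul_eq_mul, mul_one,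
          smul_mul_assoc]
        · congr 2
          refine Finset.prod_congr rfl fun i hi => ?_
          rw [Function.update_of_ne (Finset.ne_of_mem_erase hi)]
        · intro i _ hi
          rw [Derivation.leibniz_pow, hδ, if_neg hi.symm]
          simp
        · simp
      rw [h1, map_nsmul, pb3_trHom_apply, pb3_Tr_mon h, if_neg, smul_zero]
      intro h2
      have h3 := h2 j
      have h4 := (α j).2
      have h5 := hp.two_le
      rw [Function.update_self] at h3
      simp only at h3
      omega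
  exact DFunLike.congr_fun key a

theorem pb3_Tr_det_exact (h : IsPB p x) (hδ : ∀ i j, δ i (x j) = if i = j then 1 else 0)
    (M : Matrix (Fin n) (Fin n) R) (a : Fin n) (g : R) (ha : ∀ j, M a j = δ j g)
    (hc : ∀ b i j, δ i (M b j) = δ j (M b i)) : Tr p x M.det = 0 := by
  rw [pb3_piola δ M a g ha hc, ← pb3_trHom_apply h, map_sum]
  exact Finset.sum_eq_zero fun σ _ => pb3_Tr_der h hδ _ _

theorem pb3_Tr_det_congr (h : IsPB p x) (hδ : ∀ i j, δ i (x j) = if i = j then 1 else 0)
    (M N : Matrix (Fin n) (Fin n) R) (g : Fin n → R) (hg : ∀ a j, M a j = N a j + δ j (g a))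
    (hM : ∀ b i j, δ i (M b j) = δ j (M b i)) (hN : ∀ b i j, δ i (N b j) = δ j (N b i)) :
    Tr p x M.det = Tr p x N.det := by
  have key : ∀ S : Finset (Fin n),
      Tr p x M.det = Tr p x (Matrix.of fun a => if a ∈ S then N a else M a).det := by
    intro S
    induction S using Finset.induction_on with
    | empty => simp only [Finset.notMem_empty, if_false]; rfl
    | insert a S ha ih =>
      set P : Matrix (Fin n) (Fin n) R := Matrix.of fun a => if a ∈ S then N a else M a with hP
      have h1 : P = P.updateRow a (N a + fun j => δ j (g a)) := by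
        ext b j
        by_cases hb : b = a
        · subst hb
          simp [hP, ha, hg]
        · rw [Matrix.updateRow_ne hb]
      have h2 : (Matrix.of fun b => if b ∈ insert a S then N b else M b) = P.updateRow a (N a) := by
        ext b j
        by_cases hb : b = a
        · subst hb
          simp
        · rw [Matrix.updateRow_ne hb]
          simp [hP, hb]
      have h3 : Tr p x (P.updateRow a fun j => δ j (g a)).det = 0 := by
        refine pb3_Tr_det_exact h hδ _ a (g a) (fun j => by simp) (fun b i j => ?_)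
        by_cases hb : b = a
        · subst hb
          have h4 := hM b i j
          rw [hg, hg, map_add, map_add, hN b i j] at h4
          simpa using h4
        · rw [Matrix.updateRow_ne hb]
          by_cases hS : b ∈ S
          · simpa [hP, hS] using hN b i j
          · simpa [hP, hS] using hM b i j
      rw [ih, h2, h1, Matrix.det_updateRow_add, pb3_Tr_add h, h3, add_zero, ← h1]
  have h5 := key Finset.univ
  simp only [Finset.mem_univ, if_true] at h5
  exact h5

/-- The inverse Cartier operator in coordinates. -/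
theorem pb3_cartier (h : IsPB p x) (hδ : ∀ i j, δ i (x j) = if i = j then 1 else 0) (u : R) :
    ∃ g : R, ∀ j, u ^ (p - 1) * δ j u = δ j u ^ p * x j ^ (p - 1) + δ j g := by
  have hp : p.Prime := Fact.out
  have hpp : ∀ a : R, a ^ p = a ^ (p - 1) * a := fun a => by
    rw [← pow_succ, Nat.sub_add_cancel hp.one_le]
  let A : Subsemiring R :=
    { carrier := {u | ∃ g : R, ∀ j, u ^ (p - 1) * δ j u = δ j u ^ p * x j ^ (p - 1) + δ j g}
      mul_mem' := by
        rintro u v ⟨g, hg⟩ ⟨g', hg'⟩
        refine ⟨v ^ p * g + u ^ p * g', fun j => ?_⟩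
        rw [map_add, pb3_der_pow_mul, pb3_der_pow_mul, Derivation.leibniz, smul_eq_mul,
          smul_eq_mul, add_pow_char, mul_pow, mul_pow, mul_pow]
        linear_combination v ^ p * hg j + u ^ p * hg' j - v ^ (p - 1) * δ j v * hpp u -
          u ^ (p - 1) * δ j u * hpp v
      one_mem' := ⟨0, fun j => by simp [hp.ne_zero]⟩
      add_mem' := by
        rintro u v ⟨g, hg⟩ ⟨g', hg'⟩
        obtain ⟨g'', h''⟩ := pb3_cartier_add (k := k) (p := p) u v
        refine ⟨g + g' + g'', fun j => ?_⟩
        rw [h'', map_add, map_add, map_add, add_pow_char]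
        linear_combination hg j + hg' j
      zero_mem' := ⟨0, fun j => by simp [hp.ne_zero]⟩ }
  have hu : u ∈ A := by
    rw [h.eq_sum u]
    refine A.sum_mem fun α _ => A.mul_mem ⟨0, fun j => ?_⟩
      (A.prod_mem fun i _ => A.pow_mem ⟨0, fun j => ?_⟩ _)
    · simp [hp.ne_zero]
    · rw [hδ]
      split_ifs with hji
      · simp [hji]
      · simp [hp.ne_zero]
  exact hu

theorem pb3_Tr_jac (h : IsPB p x) (hδ : ∀ i j, δ i (x j) = if i = j then 1 else 0)
    (hc : ∀ i j a, δ i (δ j a) = δ j (δ i a)) (y : Fin n → R) (β : Fin n → Fin p) :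
    Tr p x ((Matrix.of fun a b => δ b (y a)).det * mon y β) =
      (Matrix.of fun a b => δ b (y a)).det * if ∀ i, (β i : ℕ) = p - 1 then 1 else 0 := by
  have hp : p.Prime := Fact.out
  set J : Matrix (Fin n) (Fin n) R := Matrix.of fun a b => δ b (y a) with hJ
  have hdet : ∀ v : Fin n → R, (Matrix.of fun a j => v a * δ j (y a)).det = (∏ a, v a) * J.det :=
    fun v => Matrix.det_mul_column v J
  have hcl : ∀ (c m : ℕ) (u : R) i j, δ i (c * u ^ m * δ j u) = δ j (c * u ^ m * δ i u) := by
    intro c m u i j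
    simp only [Derivation.leibniz, Derivation.leibniz_pow, Derivation.map_natCast, smul_eq_mul,
      nsmul_eq_mul, hc i j]
    ring
  split_ifs with hβ
  · choose g hg using fun a => pb3_cartier h hδ (y a)
    have h1 := pb3_Tr_det_congr h hδ (Matrix.of fun a j => y a ^ (p - 1) * δ j (y a))
      (Matrix.of fun a j => x j ^ (p - 1) * δ j (y a) ^ p) g
      (fun a j => by rw [Matrix.of_apply, Matrix.of_apply, hg, mul_comm])
      (fun b i j => by simpa using hcl 1 (p - 1) (y b) i j)
      (fun b i j => by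
        simp only [Matrix.of_apply, mul_comm (x _ ^ (p - 1)), pb3_der_pow_mul,
          Derivation.leibniz_pow, hδ]
        by_cases hij : i = j
        · subst hij
          rfl
        · simp [hij, Ne.symm hij])
    have h2 : (Matrix.of fun a j => x j ^ (p - 1) * δ j (y a) ^ p).det =
        J.det ^ p * mon x β := by
      have h3 := Matrix.det_mul_row (fun j => x j ^ (p - 1)) ((frobenius R p).mapMatrix J)
      rw [← RingHom.map_det, frobenius_def, mul_comm] at h3
      simp only [mon, hβ]
      exact h3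
    have h4 : mon y β = ∏ a, y a ^ (p - 1) := by simp only [mon, hβ]
    rw [hdet, h2, pb3_Tr_pow_mul h, pb3_Tr_mon h, if_pos hβ] at h1
    rw [h4, mul_comm, h1]
  · obtain ⟨a, ha⟩ := not_forall.mp hβ
    have h1 := pb3_Tr_det_exact h hδ (Matrix.of fun b j =>
      (((if b = a then (β a : ℕ) + 1 else 1 : ℕ) : R) * y b ^ (β b : ℕ)) * δ j (y b)) a
      (y a ^ ((β a : ℕ) + 1))
      (fun j => by simp [Derivation.leibniz_pow, mul_assoc]) (fun b i j => hcl _ _ _ i j)
    rw [hdet, Finset.prod_mul_distrib, ← Nat.cast_prod, Finset.prod_ite_eq' , if_pos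
      (Finset.mem_univ a), mul_assoc, ← nsmul_eq_mul, ← pb3_trHom_apply h, map_nsmul,
      nsmul_eq_mul] at h1
    have h2 : IsUnit (((β a : ℕ) + 1 : ℕ) : R) := by
      rw [CharP.isUnit_natCast_iff hp]
      intro h3
      have h4 := Nat.le_of_dvd (Nat.succ_pos _) h3
      have h5 := (β a).2
      omega
    rw [mul_zero, mul_comm]
    exact h2.mul_right_eq_zero.mp h1

end trace

theorem pb3_change_one {x y : Fin n → R} (hx : IsCoord k x) (hy : IsCoord k y) (px : IsPB p x)
    (py : IsPB p y) (f : R) : Tr p x f = Tr p y (jac k x y ^ (p - 1) * f) := by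
  have hp : p.Prime := Fact.out
  obtain ⟨δ, hδ, hD, hj⟩ := hx.exists_der
  have hc : ∀ i j a, δ i (δ j a) = δ j (δ i a) := by
    intro i j a
    have h1 := congrArg (⁅δ i, δ j⁆ : Derivation k R R).liftKaehlerDifferential (hD a)
    rw [map_sum, Derivation.liftKaehlerDifferential_comp_D, Derivation.commutator_apply,
      Finset.sum_eq_zero] at h1
    · exact sub_eq_zero.mp h1
    · intro l _
      rw [map_smul, Derivation.liftKaehlerDifferential_comp_D, Derivation.commutator_apply,
        hδ, hδ]
      split_ifs <;> simp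
  have key : (pb3_trHom px).comp (AddMonoidHom.mulLeft (jac k x y)) =
      (AddMonoidHom.mulLeft (jac k x y)).comp (pb3_trHom py) := by
    refine pb3_hom_ext_aux (pow_one p) py (fun a b => ?_) (fun a b => ?_) (fun β => ?_)
    · show Tr p x (jac k x y * (a ^ p * b)) = a * Tr p x (jac k x y * b)
      rw [mul_left_comm, pb3_Tr_pow_mul px]
    · show jac k x y * Tr p y (a ^ p * b) = a * (jac k x y * Tr p y b)
      rw [pb3_Tr_pow_mul py, mul_left_comm]
    · show Tr p x (jac k x y * mon y β) = jac k x y * Tr p y (mon y β)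
      rw [hj, pb3_Tr_jac px hδ hc, pb3_Tr_mon py]
  obtain ⟨g, rfl⟩ := (hx.isUnit_jac hy).dvd (a := f)
  have h2 : Tr p x (jac k x y * g) = jac k x y * Tr p y g := DFunLike.congr_fun key g
  rw [h2, ← mul_assoc, ← pow_succ, Nat.sub_add_cancel hp.one_le, pb3_Tr_pow_mul py]

theorem pb3_Tr_one {x : Fin n → R} (px : IsPB 1 x) (f : R) : Tr 1 x f = f := by
  have h1 : coef 1 x f = fun _ => f := px.coef_eq (by simp [mon])
  simp [Tr, h1]

theorem Tr_change {x y : Fin n → R} (hx : IsCoord k x) (hy : IsCoord k y) (px : IsPB p x)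
    (py : IsPB p y) (e : ℕ) (f : R) :
    Tr (p ^ e) x f = Tr (p ^ e) y (jac k x y ^ (p ^ e - 1) * f) := by
  have hp : p.Prime := Fact.out
  induction e generalizing f with
  | zero =>
    have h1 := px.pow 0
    have h2 := py.pow 0
    rw [pow_zero] at h1 h2 ⊢
    rw [pb3_Tr_one h1, pb3_Tr_one h2]
    simp
  | succ e ih =>
    rw [px.Tr_succ, py.Tr_succ, ih, pb3_change_one hx hy px py, ← pb3_Tr_pow_mul py, ← pow_mul,
      ← mul_assoc, ← pow_add]
    have h1 : 1 ≤ p ^ e := Nat.one_le_pow _ _ hp.pos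
    have h2 : (p ^ e - 1) * p + (p - 1) = p ^ (e + 1) - 1 := by
      rw [Nat.sub_mul, one_mul, pow_succ]
      have h3 : p ≤ p ^ e * p := Nat.le_mul_of_pos_left p h1
      have h4 := hp.one_le
      omega
    rw [h2]

end

end Pool.Agent.Lib.MP_1c03d5_ag
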