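import Pool.Agent.Lib.MP_1c03d5_ag.RelL

/-!
# Polarisations (definitions only)
-/

open MvPolynomial

universe u

namespace Pool.Agent.Lib.MP_1c03d5_ag

noncomputable section

variable {k : Type u} [Field k]

/-- A line bundle with global sections. -/
structure Pol (P : PreRel k) where
  D : P.LB
  r : ℕ
  f : Fin r → P.El
  sec : ∀ j, P.IsSec D ⊥ (f j)
  ne : ∀ i, ∃ j, f j i ≠ 0

namespace Pol

variable {P : PreRel k} (Q : Pol P)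

/-- The base ideal. -/
def base : P.Idl := fun i => Ideal.span (Set.range fun j => Q.f j i)

/-- Forms in the sections. -/
def ev (θ : MvPolynomial (Fin Q.r) k) : P.El := fun i => aeval (fun j => Q.f j i) θ

/-- Forms separate valuations from closed invariant sets. -/
def Sep : Prop := ∃ (K : Type u) (_ : Field K) (_ : Algebra k K) (e : ∀ i, P.A i →ₐ[k] K),
  (∀ i, Function.Injective (e i)) ∧ ∀ 𝔭, P.Inv 𝔭 → ∀ i₀ (w₀ : Val k K), (∀ a, e i₀ a ∈ w₀.O) →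
    (∃ b ∈ 𝔭 i₀, w₀.v (e i₀ b) = 1) → ∃ m, 0 < m ∧ ∃ θ : MvPolynomial (Fin Q.r) k,
      θ.IsHomogeneous m ∧ (∀ j, w₀.v (e i₀ (Q.f j i₀)) ^ m ≤ w₀.v (e i₀ (Q.ev θ i₀))) ∧
      ∀ i (w : Val k K), (∀ a, e i a ∈ w.O) → (∀ b ∈ 𝔭 i, w.v (e i b) < 1) →
        ∃ j, w.v (e i (Q.ev θ i)) < w.v (e i (Q.f j i)) ^ m

/-- Forms vanish along any closed invariant set and generate the base ideal near another point. -/
def Room : Prop := ∀ 𝔭, P.Inv 𝔭 → ∀ i₀ (𝔮 : Ideal (P.A i₀)), 𝔮.IsPrime → ¬ 𝔭 i₀ ≤ 𝔮 →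
  ∃ (m c : ℕ) (Θ : Finset (MvPolynomial (Fin Q.r) k)), 0 < m ∧
    (∀ θ ∈ Θ, θ.IsHomogeneous m ∧ ∀ i, Q.ev θ i ∈ 𝔭 i * Q.base i ^ m) ∧ ∃ z ∉ 𝔮, ∀ j,
      z * Q.f j i₀ ^ (c + m) ∈ Ideal.span ((fun θ => Q.ev θ i₀) '' Θ) * Q.base i₀ ^ c ⊔
        𝔮 * Q.base i₀ ^ (c + m)

end Pol

end

end Pool.Agent.Lib.MP_1c03d5_ag
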