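import Pool.Agent.Lib.MP_1c03d5_ag.Om
import Pool.Agent.Lib.MP_1c03d5_ag.Lift
import Pool.Agent.Lib.MP_1c03d5_ag.PB2
import Pool.Agent.Lib.MP_1c03d5_ag.PB3
import Pool.Agent.Lib.MP_1c03d5_ag.Pol

/-!
# TASK CHAIN: the chain of centres in Frobenius adjunction
-/

universe u

namespace Pool.Agent.Lib.MP_1c03d5_ag

noncomputable section

variable {k : Type u} [Field k] (P : CPres k) {K : Type u} [Field K] [Algebra k K]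

/-- The trace followed by `σ` kills the ideal `𝔪`. -/
def Kill (q : ℕ) (σ : P.Pt K) (𝔪 : Ideal (P.A σ.1)) : Prop :=
  ∀ y ∈ 𝔪, σ.2 (Tr q (P.x σ.1) y) = 0

/-- The element `η` of the ring of the relation is killed by the trace at the pair `(σ, τ)`. -/
def KillB (q : ℕ) {σ τ : P.Pt K} (h : P.Rel σ τ) (η : P.B σ.1 τ.1) : Prop :=
  ∀ b, h.ev (Tr q (P.s σ.1 τ.1 ∘ P.x σ.1) (η * b)) = 0

variable {P}

/-- A state of the chain: `𝔪` is an invariant ideal, `Y` behaves like a section of `L`, and the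
trace at `σ` does not kill `𝔪 Y` but kills `𝔪 Y I`. -/
structure State (q : ℕ) (S : Set (P.Pt K)) (σ : P.Pt K) (L : P.LB) (𝔪 : P.Idl) (Y : P.El)
    (I : P.Idl) : Prop where
  inv : P.Inv 𝔪
  ne : ¬ Kill P q σ (𝔪 σ.1 * Ideal.span {Y σ.1})
  kill : Kill P q σ (𝔪 σ.1 * Ideal.span {Y σ.1} * I σ.1)
  sec : ∀ τ ∈ S, ∀ h : P.Rel σ τ, ∀ m ∈ 𝔪 σ.1, KillB P q h (P.s _ _ m *
    (P.s _ _ (Y σ.1) - (L.1 σ.1 τ.1 : P.B _ _) * P.t _ _ (Y τ.1)))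

variable [IsAlgClosed k] {p : ℕ} [Fact p.Prime] [CharP k p]

theorem CPres.isPB (P : CPres k) (p : ℕ) [Fact p.Prime] [CharP k p] (i : P.ι) : IsPB p (P.x i) :=
  (P.isCoord i).isPB p

theorem CPres.isPB_s (P : CPres k) (p : ℕ) [Fact p.Prime] [CharP k p] (i j : P.ι) :
    IsPB p (P.s i j ∘ P.x i) :=
  haveI := EqRel.isReduced_B (P := P.toEqRel) i j
  (P.isCoord_s i j).isPB p

theorem CPres.isPB_t (P : CPres k) (p : ℕ) [Fact p.Prime] [CharP k p] (i j : P.ι) :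
    IsPB p (P.t i j ∘ P.x j) :=
  haveI := EqRel.isReduced_B (P := P.toEqRel) i j
  (P.isCoord_t i j).isPB p

theorem KillB.add {e : ℕ} {σ τ : P.Pt K} {h : P.Rel σ τ} {η η'} (h1 : KillB P (p ^ e) h η)
    (h2 : KillB P (p ^ e) h η') : KillB P (p ^ e) h (η + η') := fun b => by
  rw [add_mul, ((P.isPB_s p _ _).pow e).Tr_add, map_add, h1, h2, add_zero]

omit [IsAlgClosed k] in
theorem KillB.mul {q : ℕ} {σ τ : P.Pt K} {h : P.Rel σ τ} {η} (h1 : KillB P q h η) (c) :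
    KillB P q h (η * c) := fun b => by rw [mul_assoc]; exact h1 _

theorem Kill.killB {e : ℕ} {σ τ : P.Pt K} (h : P.Rel σ τ) {𝔪 : Ideal (P.A σ.1)}
    (hk : Kill P (p ^ e) σ 𝔪) {η} (hη : η ∈ 𝔪.map (P.s σ.1 τ.1)) : KillB P (p ^ e) h η := by
  have hB := (P.isPB_s p σ.1 τ.1).pow e
  have hA := (P.isPB p σ.1).pow e
  refine Submodule.span_induction (p := fun η _ => KillB P (p ^ e) h η) ?_ ?_
    (fun _ _ _ _ => KillB.add) (fun c _ _ h1 => by rw [smul_eq_mul, mul_comm]; exact h1.mul c) hη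
  · rintro _ ⟨m, hm, rfl⟩ b
    rw [hB.eq_sum b, Finset.mul_sum]
    change h.ev (hB.trHom _) = 0
    rw [map_sum, map_sum]
    refine Finset.sum_eq_zero fun α _ => ?_
    change h.ev (Tr _ _ _) = 0
    have e1 : mon (P.s σ.1 τ.1 ∘ P.x σ.1) α = P.s σ.1 τ.1 (mon (P.x σ.1) α) := by simp [mon]
    have e2 := hA.Tr_map (P.s σ.1 τ.1).toRingHom hB (m * mon (P.x σ.1) α)
    rw [mul_left_comm, hB.Tr_pow_mul, map_mul, e1, ← map_mul (P.s σ.1 τ.1)]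
    refine mul_eq_zero_of_right _ ((congrArg h.ev e2.symm).trans ?_)
    exact (h.ev_s _).trans (hk _ (𝔪.mul_mem_right _ hm))
  · intro b
    rw [zero_mul]
    exact (congrArg h.ev (map_zero hB.trHom)).trans (map_zero _)

theorem KillB.kill {e : ℕ} {σ τ : P.Pt K} (h : P.Rel σ τ) {𝔪 : Ideal (P.A τ.1)}
    (hk : ∀ y ∈ 𝔪, KillB P (p ^ e) h (P.t σ.1 τ.1 y)) : Kill P (p ^ e) τ 𝔪 := fun y hy => by
  have e2 := ((P.isPB p τ.1).pow e).Tr_map (P.t σ.1 τ.1).toRingHom ((P.isPB_t p σ.1 τ.1).pow e) y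
  rw [← h.ev_t]
  refine (congrArg h.ev (e2.trans (Tr_change (P.isCoord_t σ.1 τ.1) (P.isCoord_s σ.1 τ.1)
    (P.isPB_t p _ _) (P.isPB_s p _ _) e _))).trans ?_
  rw [mul_comm]
  exact hk y hy _

/-- Factors outside the kernel can be removed. -/
theorem Kill.of_mul {e : ℕ} {σ : P.Pt K} {𝔪 𝔫 : Ideal (P.A σ.1)} (hk : Kill P (p ^ e) σ 𝔪)
    {z : P.A σ.1} (hz : σ.2 z ≠ 0) {N : ℕ} (h : ∀ y ∈ 𝔫, z ^ N * y ∈ 𝔪) : Kill P (p ^ e) σ 𝔫 :=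
  fun y hy => by
  obtain ⟨r, hr⟩ : ∃ r, p ^ e = r + 1 :=
    Nat.exists_eq_succ_of_ne_zero (pow_ne_zero e (Fact.out : p.Prime).ne_zero)
  have := hk ((z ^ N) ^ p ^ e * y) (by
    rw [hr, pow_succ, mul_assoc]; exact 𝔪.mul_mem_left _ (h y hy))
  rw [((P.isPB p σ.1).pow e).Tr_pow_mul, map_mul, map_pow] at this
  exact (mul_eq_zero.1 this).resolve_left (pow_ne_zero _ hz)

omit [IsAlgClosed k] in
theorem Kill.mono {q : ℕ} {σ : P.Pt K} {𝔪 𝔫 : Ideal (P.A σ.1)} (hk : Kill P q σ 𝔪) (h : 𝔫 ≤ 𝔪) :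
    Kill P q σ 𝔫 := fun y hy => hk y (h hy)

theorem Kill.sup {e : ℕ} {σ : P.Pt K} {𝔪 𝔫 : Ideal (P.A σ.1)} (h1 : Kill P (p ^ e) σ 𝔪)
    (h2 : Kill P (p ^ e) σ 𝔫) : Kill P (p ^ e) σ (𝔪 ⊔ 𝔫) := fun y hy => by
  obtain ⟨a, ha, b, hb, rfl⟩ := Submodule.mem_sup.1 hy
  rw [((P.isPB p σ.1).pow e).Tr_add, map_add, h1 a ha, h2 b hb, add_zero]

variable (p) in
/-- Every state for `I` leads to a state for `I₀`. -/
def chain_Q (S : Set (P.Pt K)) (σ : P.Pt K) (L L' : P.LB) (n : ℕ) (I₀ I : P.Idl) : Prop :=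
  ∃ 𝔅 : Set P.Idl, 𝔅.Finite ∧ (∀ 𝔟 ∈ 𝔅, P.Inv 𝔟) ∧
    ∀ (e : ℕ) (M : P.LB) (𝔪 : P.Idl) (Y : P.El), State (p ^ e) S σ M 𝔪 Y I →
      ∃ 𝔟 ∈ 𝔅, ∃ a b Y', n * b ≤ a ∧ State (p ^ e) S σ (M * (L ^ a * L' ^ b)) (𝔪 * 𝔟) Y' I₀

section

variable {S : Set (P.Pt K)} {σ : P.Pt K} {L L' : P.LB} {n : ℕ} {I₀ I I' : P.Idl}

omit [IsAlgClosed k] [Fact p.Prime] [CharP k p]

theorem chain_pow_eq (L L' : P.LB) (a b m : ℕ) :
    (L ^ a * L' ^ b) ^ m = L ^ (a * m) * L' ^ (b * m) :=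
  (mul_pow (L ^ a) (L' ^ b) m).trans (by rw [← pow_mul, ← pow_mul])

theorem chain_mul_eq (L₁ L₂ L₃ L₄ : P.LB) : L₁ * L₂ * (L₃ * L₄) = L₁ * L₃ * (L₂ * L₄) :=
  mul_mul_mul_comm L₁ L₂ L₃ L₄

theorem chain_self : chain_Q p S σ L L' n I₀ I₀ :=
  ⟨{1}, Set.finite_singleton _, fun _ h => by
    rw [h, ← pow_zero (⊥ : P.Idl)]; exact PreRel.Inv.bot.pow 0,
    fun e M 𝔪 Y h => ⟨1, rfl, 0, 0, Y, le_rfl, by simpa using h⟩⟩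

theorem chain_one : chain_Q p S σ L L' n I₀ 1 :=
  ⟨∅, Set.finite_empty, fun _ h => h.elim, fun e M 𝔪 Y h => (h.ne (by simpa using h.kill)).elim⟩

theorem chain_mul (hI : P.Inv I) (h : chain_Q p S σ L L' n I₀ I) (h' : chain_Q p S σ L L' n I₀ I') :
    chain_Q p S σ L L' n I₀ (I * I') := by
  obtain ⟨𝔅, h1, h2, h3⟩ := h
  obtain ⟨𝔅', h1', h2', h3'⟩ := h'
  refine ⟨𝔅 ∪ (I * ·) '' 𝔅', h1.union (h1'.image _), ?_, fun e M 𝔪 Y hs => ?_⟩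
  · rintro _ (h | ⟨𝔟, h, rfl⟩)
    exacts [h2 _ h, hI.mul (h2' _ h)]
  by_cases hk : Kill P (p ^ e) σ (𝔪 σ.1 * Ideal.span {Y σ.1} * I σ.1)
  · obtain ⟨𝔟, hb, H⟩ := h3 e M 𝔪 Y ⟨hs.inv, hs.ne, hk, hs.sec⟩
    exact ⟨𝔟, Or.inl hb, H⟩
  · obtain ⟨𝔟, hb, H⟩ := h3' e M (𝔪 * I) Y ⟨hs.inv.mul hI,
      fun h => hk (h.mono (mul_right_comm _ _ _).le),
      hs.kill.mono (by simp only [Pi.mul_apply]; exact le_of_eq (by ring)),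
      fun τ hτ h m hm => hs.sec τ hτ h m (Ideal.mul_le_left hm)⟩
    exact ⟨I * 𝔟, Or.inr ⟨𝔟, hb, rfl⟩, by rw [← mul_assoc]; exact H⟩

theorem chain_prod {ι : Type*} (T : Finset ι) (J : ι → P.Idl) (h1 : ∀ j ∈ T, P.Inv (J j))
    (h2 : ∀ j ∈ T, chain_Q p S σ L L' n I₀ (J j)) :
    P.Inv (∏ j ∈ T, J j) ∧ chain_Q p S σ L L' n I₀ (∏ j ∈ T, J j) :=
  Finset.prod_induction J (fun I => P.Inv I ∧ chain_Q p S σ L L' n I₀ I)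
    (fun _ _ h h' => ⟨h.1.mul h'.1, chain_mul h.1 h.2 h'.2⟩)
    ⟨by rw [← pow_zero (⊥ : P.Idl)]; exact PreRel.Inv.bot.pow 0, chain_one⟩
    fun j hj => ⟨h1 j hj, h2 j hj⟩

theorem chain_pow (hI : P.Inv I) (h : chain_Q p S σ L L' n I₀ I) (N : ℕ) :
    chain_Q p S σ L L' n I₀ (I ^ N) := by
  simpa using (chain_prod (Finset.range N) (fun _ => I) (fun _ _ => hI) fun _ _ => h).2

end

section

variable {S : Set (P.Pt K)} {σ : P.Pt K} {L L' : P.LB} {n : ℕ} {I₀ I I' : P.Idl}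

theorem chain_of_mul (h : chain_Q p S σ L L' n I₀ I') {z : P.A σ.1} (hz : σ.2 z ≠ 0)
    (hle : Ideal.span {z} * I' σ.1 ≤ I σ.1) : chain_Q p S σ L L' n I₀ I := by
  obtain ⟨𝔅, h1, h2, h3⟩ := h
  refine ⟨𝔅, h1, h2, fun e M 𝔪 Y hs => h3 e M 𝔪 Y ⟨hs.inv, hs.ne,
    hs.kill.of_mul hz (N := 1) fun y hy => ?_, hs.sec⟩⟩
  refine Ideal.mul_mono_right hle ?_
  rw [mul_left_comm, pow_one]
  exact Ideal.mul_mem_mul (Ideal.mem_span_singleton_self z) hy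

theorem chain_sec {a₀ b₀ : ℕ} (hab : n * b₀ ≤ a₀) {G : P.El} (hG : P.IsSec (L ^ a₀ * L' ^ b₀) I G)
    (h0 : σ.val G = 0) (h : chain_Q p S σ L L' n I₀ fun i => Ideal.span {G i} ⊔ I i) :
    chain_Q p S σ L L' n I₀ I := by
  classical
  obtain ⟨𝔅, h1, h2, h3⟩ := h
  refine ⟨𝔅, h1, h2, fun e M 𝔪 Y hs => ?_⟩
  have hq : ∃ ν, Kill P (p ^ e) σ (𝔪 σ.1 * Ideal.span {Y σ.1 * G σ.1 ^ ν}) := ⟨p ^ e, fun y hy => by
    obtain ⟨c, hc⟩ := Ideal.mem_span_singleton'.1 (Ideal.mul_le_right hy)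
    rw [← hc]
    rw [← mul_assoc, mul_comm (c * _), ((P.isPB p σ.1).pow e).Tr_pow_mul, map_mul]
    exact mul_eq_zero_of_left h0 _⟩
  obtain ⟨ν, hν⟩ : ∃ ν, Nat.find hq = ν + 1 := Nat.exists_eq_succ_of_ne_zero fun h =>
    hs.ne (by simpa [h] using Nat.find_spec hq)
  have e1 := Nat.find_spec hq
  rw [hν] at e1
  obtain ⟨𝔟, hb, a, b, Y', H1, H2⟩ := h3 e (M * (L ^ a₀ * L' ^ b₀) ^ ν) 𝔪 (Y * G ^ ν)
    ⟨hs.inv, Nat.find_min hq (by omega), by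
      rw [Ideal.mul_sup]
      refine Kill.sup ?_ (hs.kill.mono (Ideal.mul_mono_left (Ideal.mul_mono_right
        (Ideal.span_singleton_le_span_singleton.2 (dvd_mul_right _ _)))))
      refine e1.mono (le_of_eq ?_)
      rw [mul_assoc, Ideal.span_singleton_mul_span_singleton, Pi.mul_apply, Pi.pow_apply,
        mul_assoc, ← pow_succ], fun τ hτ h m hm => by
      obtain ⟨c, hc⟩ := sub_dvd_pow_sub_pow (P.s σ.1 τ.1 (G σ.1))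
        (((L ^ a₀ * L' ^ b₀).1 σ.1 τ.1 : P.B _ _) * P.t σ.1 τ.1 (G τ.1)) ν
      have k1 := (hs.kill.killB h (η := P.s σ.1 τ.1 (m * Y σ.1) * (P.s σ.1 τ.1 (G σ.1) -
        ((L ^ a₀ * L' ^ b₀).1 σ.1 τ.1 : P.B _ _) * P.t σ.1 τ.1 (G τ.1))) (by
          rw [Ideal.map_mul]
          exact Ideal.mul_mem_mul (Ideal.mem_map_of_mem _
            (Ideal.mul_mem_mul hm (Ideal.mem_span_singleton_self _))) (hG _ _))).mul c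
      convert k1.add ((hs.sec τ hτ h m hm).mul
        ((((L ^ a₀ * L' ^ b₀).1 σ.1 τ.1 : P.B _ _) * P.t σ.1 τ.1 (G τ.1)) ^ ν)) using 1
      rw [mul_assoc, ← hc]
      simp only [Pi.mul_apply, Pi.pow_apply, map_mul, map_pow, Subgroup.coe_mul, Subgroup.coe_pow,
        Units.val_mul, Units.val_pow_eq_pow_val]
      ring⟩
  refine ⟨𝔟, hb, a₀ * ν + a, b₀ * ν + b, Y', by nlinarith [Nat.mul_le_mul_right ν hab], ?_⟩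
  rw [chain_pow_eq, mul_assoc M, chain_mul_eq, ← pow_add, ← pow_add] at H2
  exact H2

end

theorem chain_aux (Γ : Gen P.toEqRel) {σ} (hσ : σ ∈ Γ.S) (L L' : P.LB) (n : ℕ)
    (hyp : ∀ (Γ' : Gen P.toEqRel) (φ : P.A σ.1 →ₐ[k] Γ'.K'), ⟨σ.1, φ⟩ ∈ Γ'.S →
      RingHom.ker φ < σ.ker → ∃ a b, n * b ≤ a ∧ Γ'.Big (L ^ a * L' ^ b)) (d : Cardinal.{u}) :
    ∀ (Γ' : Gen P.toEqRel) (φ : P.A σ.1 →ₐ[k] Γ'.K'), ⟨σ.1, φ⟩ ∈ Γ'.S → RingHom.ker φ ≤ σ.ker →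
      Algebra.trdeg k Γ'.K' = d → chain_Q p Γ.S σ L L' n Γ.I Γ'.I := by
  classical
  induction d using WellFoundedLT.induction with | ind d ih => ?_
  intro Γ' φ hφ hle hd
  rcases hle.eq_or_lt with he | hlt
  · have : Γ'.I = Γ.I := le_antisymm (Γ.le_I Γ'.inv_I hσ ((Γ'.in_I hφ).trans hle))
      (Γ'.le_I Γ.inv_I hφ ((Γ.in_I hσ).trans he.ge))
    rw [this]
    exact chain_self
  obtain ⟨a₀, b₀, hab, hbig⟩ := hyp Γ' φ hφ hlt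
  obtain ⟨m, -, G, hG1, hG2, hG3, -⟩ := Γ'.sect p hbig (𝔠 := Γ.I) (fun τ hτ h => by
    have : (RingHom.ker φ).IsPrime := RingHom.ker_isPrime φ
    obtain ⟨ψ, h1, h2⟩ := Γ.exists_ker_le ((Γ'.le_I Γ.inv_I hτ h σ.1).trans (Γ'.in_I hφ))
    exact (h2.trans_lt hlt).ne (Γ.ker_eq_of_le h1 hσ (h2.trans hle))) ∅
  rw [chain_pow_eq] at hG3
  refine chain_sec (by nlinarith [Nat.mul_le_mul_right m hab]) (Γ'.isSec_iff.2 hG3)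
    (Γ.in_I hσ (hG1 σ.1)) ?_
  set J := Ideal.span {G σ.1} ⊔ Γ'.I σ.1 with hJ
  have hfin := J.finite_minimalPrimes_of_isNoetherianRing
  have key : ∀ 𝔭 ∈ hfin.toFinset, ∃ (I : P.Idl) (z : P.A σ.1), P.Inv I ∧ σ.2 z ≠ 0 ∧
      chain_Q p Γ.S σ L L' n Γ.I I ∧ Ideal.span {z} * I σ.1 ≤ 𝔭 := fun 𝔭 h𝔭 => by
    have hm := hfin.mem_toFinset.1 h𝔭
    have : 𝔭.IsPrime := hm.1.1
    by_cases h : 𝔭 ≤ σ.ker
    · obtain ⟨Γ₁, φ₁, h1, h2⟩ := exists_gen (P := P.toEqRel) σ.1 𝔭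
      obtain ⟨ψ, h3, h4⟩ := Γ'.exists_ker_le (le_sup_right.trans hm.1.2)
      have := Γ₁.isAlgebraic h1
      refine ⟨Γ₁.I, 1, Γ₁.inv_I, by simp, ih _ (hd ▸ trdeg_lt_of_ker_lt ψ φ₁ ?_) Γ₁ φ₁ h1
        (h2.le.trans h) rfl, Ideal.mul_le_right.trans ((Γ₁.in_I h1).trans h2.le)⟩
      rw [h2]
      exact h4.lt_of_ne fun e => hG2 _ h3 (show G σ.1 ∈ RingHom.ker ψ from
        e ▸ hm.1.2 (Ideal.mem_sup_left (Ideal.mem_span_singleton_self _)))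
    · obtain ⟨z, h1, h2⟩ := SetLike.not_le_iff_exists.1 h
      exact ⟨1, z, by rw [← pow_zero (⊥ : P.Idl)]; exact PreRel.Inv.bot.pow 0, h2, chain_one,
        Ideal.mul_le_left.trans ((Ideal.span_singleton_le_iff_mem _).2 h1)⟩
  choose! I z h1 h2 h3 h4 using key
  obtain ⟨N, hN⟩ := J.exists_radical_pow_le_of_fg (IsNoetherian.noetherian _)
  have H := chain_prod (p := p) hfin.toFinset I h1 h3
  refine chain_of_mul (chain_pow H.1 H.2 N) (z := (∏ 𝔭 ∈ hfin.toFinset, z 𝔭) ^ N) ?_ ?_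
  · rw [map_pow, map_prod]
    exact pow_ne_zero _ (Finset.prod_ne_zero_iff.2 h2)
  · refine le_trans ?_ hN
    rw [← Ideal.span_singleton_pow, Pi.pow_apply, ← mul_pow, ← Ideal.sInf_minimalPrimes]
    refine Ideal.pow_right_mono (le_sInf fun 𝔭 h𝔭 => ?_) N
    rw [← Ideal.prod_span_singleton, Finset.prod_apply, ← Finset.prod_mul_distrib]
    exact (Ideal.prod_le_inf.trans (Finset.inf_le (hfin.mem_toFinset.2 h𝔭))).trans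
      (h4 𝔭 (hfin.mem_toFinset.2 h𝔭))

theorem chain (Γ : Gen P.toEqRel) {σ} (hσ : σ ∈ Γ.S) (L L' : P.LB) (n : ℕ)
    (hyp : ∀ (Γ' : Gen P.toEqRel) (φ : P.A σ.1 →ₐ[k] Γ'.K'), ⟨σ.1, φ⟩ ∈ Γ'.S →
      RingHom.ker φ < σ.ker → ∃ a b, n * b ≤ a ∧ Γ'.Big (L ^ a * L' ^ b))
    (Γ' : Gen P.toEqRel) (φ : P.A σ.1 →ₐ[k] Γ'.K') (hφ : ⟨σ.1, φ⟩ ∈ Γ'.S)
    (hle : RingHom.ker φ ≤ σ.ker) : ∃ 𝔅 : Set P.Idl, 𝔅.Finite ∧ (∀ 𝔟 ∈ 𝔅, P.Inv 𝔟) ∧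
      ∀ (e : ℕ) (M : P.LB) (𝔪 : P.Idl) (Y : P.El), State (p ^ e) Γ.S σ M 𝔪 Y Γ'.I →
        ∃ 𝔟 ∈ 𝔅, ∃ a b Y', n * b ≤ a ∧
          State (p ^ e) Γ.S σ (M * (L ^ a * L' ^ b)) (𝔪 * 𝔟) Y' Γ.I :=
  chain_aux Γ hσ L L' n hyp _ Γ' φ hφ hle rfl

end

end Pool.Agent.Lib.MP_1c03d5_ag
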