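import Pool.Agent.Lib.MP_1c03d5_ag.Flat2
import Pool.Agent.Lib.MP_1c03d5_ag.Jc

/-!
# TASK ETP: etale algebras over polynomial rings
-/

open MvPolynomial

universe u

namespace Pool.Agent.Lib.MP_1c03d5_ag

noncomputable section

variable {k : Type u} [Field k]

lemma etp_idem {A T : Type u} [CommRing A] [CommRing T] [Algebra A T] [IsArtinianRing T]
    [IsReduced T] (hj : Function.Injective (algebraMap A T))
    (hc : ∀ y : T, IsIntegral A y → ∃ a, algebraMap A T a = y) (𝔭 : Ideal A) [𝔭.IsPrime] :
    ∃ e ∉ 𝔭, IsDomain (Localization.Away e) := by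
  classical
  let := Fintype.ofFinite (MaximalSpectrum T)
  let ε := IsArtinianRing.equivPi T
  have h1 (m : MaximalSpectrum T) : ∃ a : A, ε (algebraMap A T a) = Pi.single m 1 := by
    obtain ⟨a, ha⟩ := hc (ε.symm (Pi.single m 1))
      ⟨Polynomial.X ^ 2 - Polynomial.X, Polynomial.monic_X_pow_sub
        (Polynomial.degree_X_le.trans_lt (by norm_num)), by
        simp [pow_two, ← map_mul, ← Pi.single_mul]⟩
    exact ⟨a, by rw [ha, AlgEquiv.apply_symm_apply]⟩
  choose e he using h1
  have hi : Function.Injective fun a : A => ε (algebraMap A T a) := ε.injective.comp hj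
  have h2 : ∑ m, e m = 1 := hi (by
    simp only [map_sum, he, map_one]
    exact Finset.univ_sum_single 1)
  obtain ⟨m, hm⟩ : ∃ m, e m ∉ 𝔭 := by
    by_contra! h
    exact ‹𝔭.IsPrime›.ne_top ((Ideal.eq_top_iff_one _).2 (h2 ▸ sum_mem fun m _ => h m))
  refine ⟨e m, hm, ?_⟩
  have := m.isMaximal.isPrime
  let g : A →+* T ⧸ m.asIdeal :=
    (Pi.evalRingHom _ m).comp (ε.toRingEquiv.toRingHom.comp (algebraMap A T))
  have hg (a : A) : g a = ε (algebraMap A T a) m := rfl
  have h3 : IsUnit (g (e m)) := by rw [hg, he, Pi.single_eq_same]; exact isUnit_one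
  let l : Localization.Away (e m) →+* T ⧸ m.asIdeal := IsLocalization.Away.lift (e m) h3
  refine Function.Injective.isDomain l ?_
  refine (IsLocalization.lift_injective_iff _).2 fun x y => ⟨fun h => ?_, fun h => ?_⟩
  · rw [← IsLocalization.Away.lift_eq (S := Localization.Away (e m)) (e m) h3 x, h,
      IsLocalization.Away.lift_eq]
  · refine (IsLocalization.eq_iff_exists (.powers (e m)) _).2 ⟨⟨e m, Submonoid.mem_powers _⟩, hi ?_⟩
    simp only [map_mul, he]
    funext m'
    rcases eq_or_ne m' m with rfl | hne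
    · simpa [hg] using h
    · simp [Pi.single_eq_of_ne hne]

section aux

open TensorProduct

variable (R A : Type u) [CommRing R] [IsDomain R] [CommRing A] [Algebra R A] [Algebra.Etale R A]

omit [IsDomain R] in
lemma etp_inj : Function.Injective (algebraMap A (A ⊗[R] FractionRing R)) :=
  Algebra.TensorProduct.includeLeft_injective (S := R) (IsFractionRing.injective R _)

lemma etp_artinian : IsArtinianRing (A ⊗[R] FractionRing R) :=
  have := Algebra.FormallyUnramified.finite_of_free (FractionRing R) (FractionRing R ⊗[R] A)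
  have := IsArtinianRing.of_finite (FractionRing R) (FractionRing R ⊗[R] A)
  (Algebra.TensorProduct.comm R (FractionRing R) A).toRingEquiv.isArtinianRing

lemma etp_reduced : IsReduced (A ⊗[R] FractionRing R) :=
  have := Algebra.FormallyUnramified.isReduced_of_field (FractionRing R) (FractionRing R ⊗[R] A)
  isReduced_of_injective _ (Algebra.TensorProduct.comm R A (FractionRing R)).injective

variable [IsIntegrallyClosed R]

omit [IsDomain R] in
lemma etp_closed {y : A ⊗[R] FractionRing R} (hy : IsIntegral A y) :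
    ∃ a, algebraMap A _ a = y := by
  obtain ⟨t, ht⟩ := (TensorProduct.toIntegralClosure_bijective_of_smooth (R := R) (S := A)
    (B := FractionRing R)).2 ⟨y, hy⟩
  obtain rfl : Algebra.TensorProduct.map (AlgHom.id A A) (integralClosure R _).val t = y :=
    congrArg Subtype.val ht
  clear ht hy
  induction t with
  | zero => exact ⟨0, by simp⟩
  | add x y hx hy =>
    obtain ⟨a, ha⟩ := hx
    obtain ⟨b, hb⟩ := hy
    exact ⟨a + b, by rw [map_add, map_add, ha, hb]⟩
  | tmul a y =>
    obtain ⟨r, hr⟩ := IsIntegrallyClosed.isIntegral_iff.1 y.2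
    refine ⟨r • a, ?_⟩
    rw [Algebra.TensorProduct.map_tmul, Subalgebra.coe_val, ← hr,
      Algebra.algebraMap_eq_smul_one r, ← smul_tmul]
    rfl

include R in
lemma etp_away (𝔭 : Ideal A) [𝔭.IsPrime] : ∃ e ∉ 𝔭, IsDomain (Localization.Away e) :=
  have := etp_artinian R A
  have := etp_reduced R A
  etp_idem (etp_inj R A) (fun _ => etp_closed R A) 𝔭

end aux

/-- An etale map of domains is injective. -/
theorem injective_of_etale {R A : Type u} [CommRing R] [IsDomain R] [CommRing A] [Nontrivial A]
    {φ : R →+* A} (h : φ.Etale) : Function.Injective φ :=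
  (injective_iff_map_eq_zero _).2 fun _ ha => by_contra fun h0 => nonZeroDivisors.ne_zero
    (map_ne_zero_divisor_of_flat (RingHom.Etale.iff_flat_and_formallyUnramified.1 h).1
      (mem_nonZeroDivisors_of_ne_zero h0)) ha

/-- An etale domain over a normal domain is normal. -/
theorem normal_of_etale {R A : Type u} [CommRing R] [IsDomain R] [IsIntegrallyClosed R]
    [CommRing A] [IsDomain A] {φ : R →+* A} (h : φ.Etale) : IsIntegrallyClosed A := by
  have hi := injective_of_etale h
  algebraize [φ]
  have := etp_artinian R A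
  let T := TensorProduct R A (FractionRing R)
  have hM : Algebra.algebraMapSubmonoid A (nonZeroDivisors R) ≤ nonZeroDivisors A := by
    rintro _ ⟨r, hr, rfl⟩
    exact mem_nonZeroDivisors_of_ne_zero
      ((map_ne_zero_iff _ hi).2 (nonZeroDivisors.ne_zero hr))
  have : IsDomain T := IsLocalization.isDomain_of_le_nonZeroDivisors T hM
  have hu : ∀ x : T, x ≠ 0 → IsUnit x := fun x hx =>
    have ⟨y, hy⟩ := (IsArtinianRing.isField_of_isDomain T).mul_inv_cancel hx
    .of_mul_eq_one y hy
  have : IsFractionRing A T := IsLocalization.of_le _ _ hM fun a ha =>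
    hu _ ((map_ne_zero_iff _ (etp_inj R A)).2 (nonZeroDivisors.ne_zero ha))
  exact (isIntegrallyClosed_iff T).2 (etp_closed R A)

theorem CPres.normal (P : CPres k) (i : P.ι) : IsIntegrallyClosed (P.A i) :=
  normal_of_etale (P.et i)

/-- An etale algebra over a polynomial ring is locally a domain. -/
theorem exists_away_domain {A : Type u} [CommRing A] [Algebra k A] {n : ℕ} (x : Fin n → A)
    (h : (aeval x : MvPolynomial (Fin n) k →ₐ[k] A).toRingHom.Etale) (𝔭 : Ideal A) [𝔭.IsPrime] :
    ∃ e ∉ 𝔭, IsDomain (Localization.Away e) :=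
  @etp_away (MvPolynomial (Fin n) k) A _ _ _ (aeval x).toRingHom.toAlgebra h _ 𝔭 _

/-- A smooth algebra is locally a domain that is etale over a polynomial ring. -/
theorem exists_away_coord {A : Type u} [CommRing A] [Algebra k A] [Algebra.Smooth k A]
    (𝔭 : Ideal A) [𝔭.IsPrime] : ∃ e ∉ 𝔭, IsDomain (Localization.Away e) ∧
      ∃ (n : ℕ) (x : Fin n → Localization.Away e),
        (aeval x : MvPolynomial (Fin n) k →ₐ[k] Localization.Away e).toRingHom.Etale := by
  obtain ⟨f, hf, n, _, _, _⟩ :=
    Algebra.IsSmoothAt.exists_isStandardEtale_mvPolynomial (R := k) (p := 𝔭)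
  have : (𝔭.map (algebraMap A (Localization.Away f))).IsPrime :=
    IsLocalization.isPrime_of_isPrime_disjoint (.powers f) _ _ ‹_›
      ((Ideal.disjoint_powers_iff_notMem_of_isPrime _).2 hf)
  obtain ⟨g, hg, hd⟩ := etp_away (MvPolynomial (Fin n) k) (Localization.Away f)
    (𝔭.map (algebraMap A (Localization.Away f)))
  have : IsLocalization.Away (f * (IsLocalization.Away.sec f g).1) (Localization.Away g) :=
    .mul_of_associated _ _ g (IsLocalization.Away.associated_sec_fst f g)
  let e : Localization.Away (f * (IsLocalization.Away.sec f g).1) ≃ₐ[A] Localization.Away g :=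
    Localization.algEquiv _ _
  refine ⟨f * (IsLocalization.Away.sec f g).1, Ideal.IsPrime.mul_notMem ‹_› hf fun hm => hg ?_,
    e.injective.isDomain e.toRingEquiv.toRingHom, n, ?_⟩
  · rw [Ideal.mem_iff_of_associated (IsLocalization.Away.associated_sec_fst f g).symm]
    exact Ideal.mem_map_of_mem _ hm
  let ψ : MvPolynomial (Fin n) k →ₐ[k] Localization.Away (f * (IsLocalization.Away.sec f g).1) :=
    (e.symm.restrictScalars k).toAlgHom.comp
      ((IsScalarTower.toAlgHom k (Localization.Away f) (Localization.Away g)).comp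
        (IsScalarTower.toAlgHom k (MvPolynomial (Fin n) k) (Localization.Away f)))
  refine ⟨fun i => ψ (X i), ?_⟩
  rw [show aeval (fun i => ψ (X i)) = ψ from (aeval_unique ψ).symm]
  exact RingHom.Etale.stableUnderComposition _ e.symm.toRingEquiv.toRingHom
    (RingHom.Etale.stableUnderComposition
      (algebraMap (MvPolynomial (Fin n) k) (Localization.Away f))
      (algebraMap (Localization.Away f) (Localization.Away g))
      (RingHom.etale_algebraMap.2 inferInstance)
      (RingHom.etale_algebraMap.2 (.of_isLocalizationAway g))) (.of_bijective e.symm.bijective)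

/-- The number of coordinates is determined. -/
theorem eq_of_etale_coord {B : Type u} [CommRing B] [Nontrivial B] [Algebra k B] {m n : ℕ}
    (x : Fin m → B) (y : Fin n → B)
    (hx : (aeval x : MvPolynomial (Fin m) k →ₐ[k] B).toRingHom.Etale)
    (hy : (aeval y : MvPolynomial (Fin n) k →ₐ[k] B).toRingHom.Etale) : m = n := by
  obtain ⟨h1, h2⟩ := isCoord_of_etale hx
  obtain ⟨h3, h4⟩ := isCoord_of_etale hy
  simpa using (Module.finrank_eq_card_basis (Module.Basis.mk h1 h2.ge)).symm.trans
    (Module.finrank_eq_card_basis (Module.Basis.mk h3 h4.ge))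

/-- Etaleness can be checked near the maximal ideals of the target. -/
theorem etale_of_forall_maximal {R A : Type u} [CommRing R] [CommRing A] (φ : R →+* A)
    (h : ∀ 𝔪 : Ideal A, 𝔪.IsMaximal → ∃ r ∉ 𝔪,
      ((algebraMap A (Localization.Away r)).comp φ).Etale) : φ.Etale := by
  refine RingHom.Etale.ofLocalizationSpanTarget φ
    {r | ((algebraMap A (Localization.Away r)).comp φ).Etale} ?_ fun r => r.2
  by_contra H
  obtain ⟨𝔪, h1, h2⟩ := Ideal.exists_le_maximal _ H
  obtain ⟨r, h3, h4⟩ := h 𝔪 h1
  exact h3 (h2 (Ideal.subset_span h4))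

end

end Pool.Agent.Lib.MP_1c03d5_ag
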