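import Pool.Agent.Lib.MP_1c03d5_ag.RelL
import Pool.Agent.Lib.MP_1c03d5_ag.Etp

/-!
# TASK COMP: connected components
-/

open MvPolynomial TensorProduct

universe u

namespace Pool.Agent.Lib.MP_1c03d5_ag

noncomputable section

section union

variable {k : Type u} [Field k] {γ : Type} [Finite γ] [DecidableEq γ]

/-- The disjoint union of finitely many families. -/
abbrev compFam (F : γ → Fam k) : Fam k where
  ι := Σ c, (F c).ι
  A x := (F x.1).A x.2

variable {F : γ → Fam k} {α : γ → Type} (s : ∀ c, α c → (F c).El)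

/-- Extension by zero of the sections. -/
def compS (b : Σ c, α c) : (compFam F).El := fun x =>
  (Pi.single (M := fun c => (F c).El) b.1 (s b.1 b.2) x.1) x.2

theorem compS_same (c : γ) (a : α c) (i : (F c).ι) : compS s ⟨c, a⟩ ⟨c, i⟩ = s c a i := by
  simp [compS]

theorem compS_ne {c c' : γ} (h : c' ≠ c) (a : α c) (i : (F c').ι) :
    compS s ⟨c, a⟩ ⟨c', i⟩ = 0 := by
  simp [compS, Pi.single_eq_of_ne h]

variable (k α) in
/-- The variables of the other components are sent to zero. -/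
def compPi (c : γ) : MvPolynomial (Σ c, α c) k →ₐ[k] MvPolynomial (α c) k :=
  aeval fun b => Pi.single (M := fun c => MvPolynomial (α c) k) b.1 (X b.2) c

omit [Finite γ] in
theorem compPi_same (c : γ) (a : α c) : compPi k α c (X ⟨c, a⟩) = X a := by
  simp [compPi]

omit [Finite γ] in
theorem compPi_ne {c c' : γ} (h : c ≠ c') (a : α c') : compPi k α c (X ⟨c', a⟩) = 0 := by
  simp [compPi, Pi.single_eq_of_ne h]

omit [Finite γ] in
theorem compPi_surj (c : γ) : Function.Surjective (compPi k α c) := fun p =>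
  ⟨rename (Sigma.mk c) p, DFunLike.congr_fun (show (compPi k α c).comp (rename (Sigma.mk c)) =
    AlgHom.id k _ from algHom_ext fun a => by simp [compPi_same]) p⟩

theorem comp_equiv {A : Type u} [CommRing A] [Algebra k A] {f g : A} (h : f = g) :
    ∃ e : Localization.Away f ≃ₐ[k] Localization.Away g,
      (∀ x, e (algebraMap A _ x) = algebraMap A _ x) ∧
        e (IsLocalization.Away.invSelf f) = IsLocalization.Away.invSelf g := by
  subst h
  exact ⟨AlgEquiv.refl, fun _ => rfl, rfl⟩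

theorem comp_chart (c : γ) (a : α c) (i : (F c).ι) :
    ∃ e : Localization.Away (compS s ⟨c, a⟩ ⟨c, i⟩) ≃ₐ[k] Localization.Away (s c a i),
      (∀ x : (F c).A i, e (algebraMap _ _ x) = algebraMap _ _ x) ∧
      ∀ p, e (chartMap (compS s) ⟨c, a⟩ ⟨c, i⟩ p) = chartMap (s c) a i (compPi k α c p) := by
  obtain ⟨e, h1, h2⟩ := comp_equiv (k := k) (compS_same s c a i)
  refine ⟨e, h1, fun p => DFunLike.congr_fun (show e.toAlgHom.comp
    (chartMap (compS s) ⟨c, a⟩ ⟨c, i⟩) = (chartMap (s c) a i).comp (compPi k α c) from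
      algHom_ext fun b => ?_) p⟩
  obtain ⟨c', b⟩ := b
  have h3 : e (chartMap (compS s) ⟨c, a⟩ ⟨c, i⟩ (X ⟨c', b⟩)) =
      algebraMap _ _ (compS s ⟨c', b⟩ ⟨c, i⟩) * IsLocalization.Away.invSelf (s c a i) := by
    rw [chartMap, aeval_X, map_mul, h1, h2]
  refine h3.trans ?_
  by_cases h : c = c'
  · subst h
    rw [AlgHom.comp_apply, compPi_same, compS_same, chartMap, aeval_X]
  · rw [AlgHom.comp_apply, compPi_ne h, compS_ne s h, map_zero, map_zero, zero_mul]

theorem comp_triv {c c' : γ} (h : c' ≠ c) (a : α c) (i : (F c').ι) :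
    Subsingleton (Localization.Away (compS s ⟨c, a⟩ ⟨c', i⟩)) :=
  IsLocalization.subsingleton (M := Submonoid.powers (compS s ⟨c, a⟩ ⟨c', i⟩))
    ⟨1, (pow_one _).trans (compS_ne s h a i)⟩

theorem comp_ker (c : γ) (a : α c) :
    chartKer (compS s) ⟨c, a⟩ = (chartKer (s c) a).comap (compPi k α c) := by
  ext p
  simp only [chartKer, Ideal.mem_comap, Submodule.mem_iInf, RingHom.mem_ker]
  refine ⟨fun h i => ?_, fun h x => ?_⟩
  · obtain ⟨e, -, h2⟩ := comp_chart s c a i
    rw [← h2, h, map_zero]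
  · obtain ⟨c', i⟩ := x
    by_cases hc : c' = c
    · subst hc
      obtain ⟨e, -, h2⟩ := comp_chart s c' a i
      exact e.injective (by rw [h2, h, map_zero])
    · exact (comp_triv s hc a i).elim _ _

theorem comp_prime {c : γ} {a : α c} {𝔭 : Ideal (MvPolynomial (Σ c, α c) k)} (h : 𝔭.IsPrime)
    (hle : chartKer (compS s) ⟨c, a⟩ ≤ 𝔭) : ∃ 𝔭' : Ideal (MvPolynomial (α c) k), 𝔭'.IsPrime ∧
      chartKer (s c) a ≤ 𝔭' ∧ 𝔭'.comap (compPi k α c) = 𝔭 := by
  rw [comp_ker] at hle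
  have h1 : RingHom.ker (compPi k α c) ≤ 𝔭 := (Ideal.ker_le_comap _).trans hle
  refine ⟨𝔭.map (compPi k α c), Ideal.map_isPrime_of_surjective (compPi_surj c) h1,
    fun p hp => ?_, ?_⟩
  · obtain ⟨p, rfl⟩ := compPi_surj c p
    exact Ideal.mem_map_of_mem _ (hle hp)
  · rw [Ideal.comap_map_of_surjective _ (compPi_surj c)]
    exact sup_eq_left.2 h1

theorem comp_etale_triv {R A : Type u} [CommRing R] [CommRing A] [Subsingleton A] (φ : R →+* A) :
    φ.Etale :=
  etale_of_forall_maximal φ fun _ h => (h.ne_top (Subsingleton.elim _ _)).elim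

theorem comp_et {c : γ} {a : α c} (h : ∀ i, (chartLift (s c) a i).toRingHom.Etale)
    (x : (compFam F).ι) : (chartLift (compS s) ⟨c, a⟩ x).toRingHom.Etale := by
  obtain ⟨c', i⟩ := x
  by_cases hc : c' = c
  · subst hc
    obtain ⟨e, -, h2⟩ := comp_chart s c' a i
    have hq := (comp_ker s c' a).le
    have h3 : Function.Bijective (Ideal.quotientMap _ (compPi k α c').toRingHom hq) :=
      ⟨Ideal.quotientMap_injective' (comp_ker s c' a).ge,
        Ideal.quotientMap_surjective (compPi_surj c')⟩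
    have h4 : (chartLift (compS s) ⟨c', a⟩ ⟨c', i⟩).toRingHom =
        e.symm.toRingEquiv.toRingHom.comp ((chartLift (s c') a i).toRingHom.comp
          (Ideal.quotientMap _ (compPi k α c').toRingHom hq)) :=
      Ideal.Quotient.ringHom_ext (RingHom.ext fun p => e.eq_symm_apply.2 (h2 p))
    rw [h4]
    exact RingHom.Etale.stableUnderComposition _ _ (RingHom.Etale.stableUnderComposition _ _
      (.of_bijective h3) (h i)) (.of_bijective e.symm.bijective)
  · have := comp_triv s hc a i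
    exact comp_etale_triv _

/-- The union of finitely many embeddings. -/
theorem comp_embOn
    {R : ∀ c, ∀ (C : Type u) [CommRing C] [Algebra k C], (F c).Pt C → (F c).Pt C → Prop}
    {R' : ∀ (C : Type u) [CommRing C] [Algebra k C],
      (compFam F).Pt C → (compFam F).Pt C → Prop} (E : ∀ c, EmbOn (F c) (R c))
    (h1 : ∀ (C : Type u) [CommRing C] [Algebra k C] (c : γ) (i j : (F c).ι)
      (φ : (F c).A i →ₐ[k] C) (ψ : (F c).A j →ₐ[k] C),
      R' C ⟨⟨c, i⟩, φ⟩ ⟨⟨c, j⟩, ψ⟩ ↔ R c C ⟨i, φ⟩ ⟨j, ψ⟩)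
    (h2 : ∀ (C : Type u) [CommRing C] [Algebra k C] [Nontrivial C] (σ τ : (compFam F).Pt C),
      R' C σ τ → σ.1.1 = τ.1.1)
    (h3 : ∀ (C : Type u) [CommRing C] [Algebra k C] [Subsingleton C] (σ τ : (compFam F).Pt C),
      R' C σ τ) : Nonempty (EmbOn (compFam F) R') := by
  refine ⟨{
    α := Σ c, (E c).α
    s := compS fun c => (E c).s
    good := {b | b.2 ∈ (E b.1).good}
    prop := fun C _ _ σ τ h => ?_
    gen := fun x => ?_
    et := fun t ht => comp_et _ ((E t.1).et t.2 ht)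
    surj := fun t ht 𝔭 hp hle => ?_
    rel := fun t ht C _ _ x y σ τ h => ?_
    cover := fun t 𝔭 hp hle => ?_ }⟩
  · rcases subsingleton_or_nontrivial C with hC | hC
    · exact ⟨1, fun _ => Subsingleton.elim _ _⟩
    have h4 := h2 C σ τ h
    obtain ⟨⟨c, i⟩, φ⟩ := σ
    obtain ⟨⟨c', j⟩, ψ⟩ := τ
    obtain rfl : c = c' := h4
    obtain ⟨g, hg⟩ := (E c).prop C _ _ ((h1 C c i j φ ψ).1 h)
    refine ⟨g, fun ⟨c', b⟩ => ?_⟩
    change φ (compS (fun c => (E c).s) ⟨c', b⟩ ⟨c, i⟩) =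
      g * ψ (compS (fun c => (E c).s) ⟨c', b⟩ ⟨c, j⟩)
    by_cases hc : c = c'
    · subst hc
      rw [compS_same, compS_same]
      exact hg b
    · rw [compS_ne _ hc, compS_ne _ hc, map_zero, map_zero, mul_zero]
  · obtain ⟨c, i⟩ := x
    refine top_le_iff.1 (((E c).gen i).ge.trans (Ideal.span_mono ?_))
    rintro _ ⟨a, ha, rfl⟩
    exact ⟨⟨c, a⟩, ha, compS_same (fun c => (E c).s) c a i⟩
  · obtain ⟨c, a⟩ := t
    obtain ⟨𝔭', p1, p2, rfl⟩ := comp_prime _ hp hle
    obtain ⟨i, 𝔮, q1, rfl⟩ := (E c).surj a ht 𝔭' p1 p2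
    obtain ⟨e, -, e2⟩ := comp_chart (fun c => (E c).s) c a i
    refine ⟨⟨c, i⟩, 𝔮.comap e, Ideal.comap_isPrime _ _, Ideal.ext fun p => ?_⟩
    simp only [Ideal.mem_comap, e2]
  · rcases subsingleton_or_nontrivial C with hC | hC
    · exact h3 C _ _
    obtain ⟨c, a⟩ := t
    have key : ∀ (x : (compFam F).ι) (_ : Localization.Away (compS (fun c => (E c).s) ⟨c, a⟩ x)
        →ₐ[k] C), x.1 = c := fun x σ => by
      by_contra hc
      have := comp_triv (fun c => (E c).s) hc a x.2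
      exact not_subsingleton C σ.toRingHom.codomain_trivial
    have hx := key x σ
    have hy := key y τ
    obtain ⟨c₁, i⟩ := x
    obtain ⟨c₂, j⟩ := y
    obtain rfl : c = c₁ := hx.symm
    obtain rfl : c = c₂ := hy.symm
    obtain ⟨e, e1, e2⟩ := comp_chart (fun c => (E c).s) c a i
    obtain ⟨f, f1, f2⟩ := comp_chart (fun c => (E c).s) c a j
    have h4 := (E c).rel a ht C i j (σ.comp e.symm.toAlgHom) (τ.comp f.symm.toAlgHom)
      (AlgHom.ext fun p => by
        obtain ⟨p, rfl⟩ := compPi_surj (α := fun c => (E c).α) c p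
        have h5 := DFunLike.congr_fun h p
        simp only [AlgHom.comp_apply, ← e2, ← f2, AlgEquiv.coe_toAlgHom,
          AlgEquiv.symm_apply_apply] at h5 ⊢
        exact h5)
    have a1 : (σ.comp e.symm.toAlgHom).comp (IsScalarTower.toAlgHom k ((F c).A i) _) =
        σ.comp (IsScalarTower.toAlgHom k ((F c).A i) _) :=
      AlgHom.ext fun z => congrArg σ (e.symm_apply_eq.2 (e1 z).symm)
    have a2 : (τ.comp f.symm.toAlgHom).comp (IsScalarTower.toAlgHom k ((F c).A j) _) =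
        τ.comp (IsScalarTower.toAlgHom k ((F c).A j) _) :=
      AlgHom.ext fun z => congrArg τ (f.symm_apply_eq.2 (f1 z).symm)
    rw [awayPt, awayPt, a1, a2] at h4
    exact (h1 C c i j _ _).2 h4
  · obtain ⟨c, a⟩ := t
    obtain ⟨𝔭', p1, p2, rfl⟩ := comp_prime _ hp hle
    obtain ⟨b, b1, b2⟩ := (E c).cover a 𝔭' p1 p2
    exact ⟨⟨c, b⟩, b1, fun h => b2 (by rwa [Ideal.mem_comap, compPi_same] at h)⟩

end union

section classes

variable {k : Type u} [Field k]

theorem comp_ne_top {P : PreRel k} {C : Type u} [CommRing C] [Algebra k C] [Nontrivial C]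
    {σ τ : P.Pt C} (h : P.Rel σ τ) : P.J σ.1 τ.1 ≠ ⊤ := fun h' =>
  one_ne_zero ((map_one _).symm.trans (h 1 (h' ▸ Submodule.mem_top)))

/-- Two non trivial etale algebras over a domain have a common non trivial point. -/
theorem comp_amalg {A B B' : Type u} [CommRing A] [IsDomain A] [Algebra k A] [CommRing B]
    [Nontrivial B] [Algebra k B] [CommRing B'] [Nontrivial B'] [Algebra k B'] (f : A →ₐ[k] B)
    (g : A →ₐ[k] B') (hf : f.toRingHom.Etale) (hg : g.toRingHom.Etale) :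
    ∃ (C : Type u) (_ : CommRing C) (_ : Algebra k C) (_ : Nontrivial C) (a : B →ₐ[k] C)
      (b : B' →ₐ[k] C), a.comp f = b.comp g := by
  have h1 := injective_of_etale hg
  have h2 := (RingHom.Etale.iff_flat_and_formallyUnramified.1 hf).1
  algebraize [f.toRingHom, g.toRingHom]
  have : IsScalarTower k A B := IsScalarTower.of_algHom f
  have : IsScalarTower k A B' := IsScalarTower.of_algHom g
  refine ⟨B ⊗[A] B', inferInstance, inferInstance,
    Algebra.TensorProduct.nontrivial_of_algebraMap_injective_of_flat_left A B B' h1,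
    Algebra.TensorProduct.includeLeft, Algebra.TensorProduct.includeRight.restrictScalars k,
    AlgHom.ext fun x => ?_⟩
  exact Algebra.TensorProduct.tmul_one_eq_one_tmul (A := B) (B := B') x

/-- Charts that meet. -/
def compSetoid (P : EqRel k) : Setoid P.ι where
  r i j := P.J i j ≠ ⊤
  iseqv := {
    refl := fun i => comp_ne_top (P.refl _ ⟨i, AlgHom.id k _⟩)
    symm := fun {i j} h =>
      have := Ideal.Quotient.nontrivial_iff.2 h
      comp_ne_top (P.symm _ _ _ (PreRel.rel_st i j))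
    trans := fun {i j l} h h' => by
      have := Ideal.Quotient.nontrivial_iff.2 h
      have := Ideal.Quotient.nontrivial_iff.2 h'
      obtain ⟨C, _, _, _, a, b, e⟩ := comp_amalg _ _ (P.et_t i j) (P.et_s j l)
      have h1 := PreRel.rel_of_hom a
      rw [e] at h1
      exact comp_ne_top (P.trans _ _ _ _ h1 (PreRel.rel_of_hom b)) }

theorem comp_et_comp {A B : Type u} [CommRing A] [Algebra k A] [CommRing B] [Algebra k B] {n : ℕ}
    {x : Fin n → A} (hx : (aeval x : MvPolynomial (Fin n) k →ₐ[k] A).toRingHom.Etale)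
    {f : A →ₐ[k] B} (hf : f.toRingHom.Etale) :
    (aeval (fun i => f (x i)) : MvPolynomial (Fin n) k →ₐ[k] B).toRingHom.Etale := by
  rw [← comp_aeval]
  exact RingHom.Etale.stableUnderComposition _ _ hx hf

theorem comp_n_eq (P : Pres k) {i j : P.ι} (h : P.J i j ≠ ⊤) : P.n i = P.n j :=
  have := Ideal.Quotient.nontrivial_iff.2 h
  eq_of_etale_coord _ _ (comp_et_comp (P.et i) (P.et_s i j)) (comp_et_comp (P.et j) (P.et_t i j))

theorem comp_et_cast {A : Type u} [CommRing A] [Algebra k A] {m n : ℕ} (h : m = n) {x : Fin n → A}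
    (hx : (aeval x : MvPolynomial (Fin n) k →ₐ[k] A).toRingHom.Etale) :
    (aeval (x ∘ Fin.cast h) : MvPolynomial (Fin m) k →ₐ[k] A).toRingHom.Etale := by
  subst h
  exact hx

/-- The charts of a connected component. -/
abbrev compPre (P : Pres k) (c : Quotient (compSetoid P.toEqRel)) : PreRel k where
  ι := {i // Quotient.mk (compSetoid P.toEqRel) i = c}
  A i := P.A i.1
  J i j := P.J i.1 j.1

theorem comp_n_out (P : Pres k) (c : Quotient (compSetoid P.toEqRel)) (i : (compPre P c).ι) :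
    P.n c.out = P.n i.1 :=
  comp_n_eq P (Quotient.exact (c.out_eq.trans i.2.symm))

/-- A connected component. -/
abbrev compCP (P : Pres k) (c : Quotient (compSetoid P.toEqRel)) : CPres k where
  toPreRel := compPre P c
  et_s i j := P.et_s i.1 j.1
  et_t i j := P.et_t i.1 j.1
  refl C _ _ σ := P.refl C ⟨σ.1.1, σ.2⟩
  symm C _ _ σ τ := P.symm C ⟨σ.1.1, σ.2⟩ ⟨τ.1.1, τ.2⟩
  trans C _ _ ρ σ τ := P.trans C ⟨ρ.1.1, ρ.2⟩ ⟨σ.1.1, σ.2⟩ ⟨τ.1.1, τ.2⟩
  proper Ω _ _ _ w σ :=
    let ⟨τ, h1, h2⟩ := P.proper Ω w ⟨σ.1.1, σ.2⟩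
    ⟨⟨⟨τ.1, (Quotient.sound (comp_ne_top h1)).symm.trans σ.1.2⟩, τ.2⟩, h1, h2⟩
  n := P.n c.out
  x i := P.x i.1 ∘ Fin.cast (comp_n_out P c i)
  et i := comp_et_cast _ (P.et i.1)
  conn i j := Quotient.exact (i.2.trans j.2.symm)
  ne := ⟨⟨c.out, c.out_eq⟩⟩

end classes

theorem emb_of_connected {k : Type u} [Field k] (h : ∀ Q : CPres k, Q.NoRat → Q.Emb) (P : Pres k)
    (hP : P.NoRat) : P.Emb := by
  classical
  choose F ρ hE using fun c => h (compCP P c) fun σ => hP ⟨σ.1.1, σ.2⟩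
  refine ⟨compFam F, ⟨fun x => ((ρ x.1).r x.2).1, fun x => (ρ x.1).φ x.2,
    fun x => (ρ x.1).et x.2, fun C _ _ _ σ => ?_⟩, comp_embOn (fun c => (hE c).some)
      (fun _ _ _ _ _ _ _ _ => Iff.rfl) (fun C _ _ _ σ τ hr => ?_)
      fun _ _ _ _ _ _ _ _ => Subsingleton.elim _ _⟩
  · obtain ⟨σ', e⟩ := (ρ _).cover C ⟨⟨σ.1, rfl⟩, σ.2⟩
    exact ⟨⟨⟨_, σ'.1⟩, σ'.2⟩,
      congrArg (fun τ : (compPre P _).Pt C => (⟨τ.1.1, τ.2⟩ : P.Pt C)) e⟩
  · exact ((ρ _).r σ.1.2).2.symm.trans
      ((Quotient.sound (comp_ne_top hr)).trans ((ρ _).r τ.1.2).2)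

end

end Pool.Agent.Lib.MP_1c03d5_ag
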