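import Pool.Agent.Lib.MP_1c03d5_ag.Val
import Pool.Agent.Lib.MP_1c03d5_ag.Norm

/-!
# TASK COV: the standard cover of a normal projective model
-/

universe u

namespace Pool.Agent.Lib.MP_1c03d5_ag

noncomputable section

variable {k K : Type u} [Field k] [Field K] [Algebra k K] {α : Type}

/-- Valuations centred in the chart `τ a ≠ 0`. -/
def InU (τ : α → K) (a : α) (w : Val k K) : Prop := ∀ b, w.v (τ b) ≤ w.v (τ a)

variable (k) in
/-- `x / y` is regular on the intersection of the charts in `I`. -/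
def LeOn (τ : α → K) (I : Set α) (x y : K) : Prop :=
  ∀ w : Val k K, (∀ a ∈ I, InU τ a w) → w.v x ≤ w.v y

variable {τ : α → K}

theorem LeOn.mono {I J : Set α} {x y : K} (h : LeOn k τ I x y) (hIJ : I ⊆ J) : LeOn k τ J x y :=
  fun w hw => h w fun a ha => hw a (hIJ ha)

lemma cov_div (w : Val k K) (x : K) {y : K} (hy : y ≠ 0) : x / y ∈ w.O ↔ w.v x ≤ w.v y := by
  have h : 0 < w.v y := zero_lt_iff.2 ((map_ne_zero w.v).2 hy)
  rw [← Val.v_le_one, map_div₀, div_le_one₀ h]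

lemma cov_chart (h0 : ∀ a, τ a ≠ 0) {I : Set α} {a : α} (ha : a ∈ I) (w : Val k K) :
    (∀ a ∈ I, InU τ a w) ↔ ∀ z ∈ Algebra.adjoin k
      (Set.range (fun b => τ b / τ a) ∪ (fun b => τ a / τ b) '' I), z ∈ w.O := by
  constructor
  · intro h
    refine w.adjoin_le ?_
    rintro _ (⟨b, rfl⟩ | ⟨b, hb, rfl⟩)
    · exact (cov_div w _ (h0 a)).2 (h a ha b)
    · exact (cov_div w _ (h0 b)).2 (h b hb a)
  · intro h b hb c
    exact ((cov_div w _ (h0 a)).1 (h _ (Algebra.subset_adjoin (.inl ⟨c, rfl⟩)))).trans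
      ((cov_div w _ (h0 b)).1 (h _ (Algebra.subset_adjoin (.inr ⟨b, hb, rfl⟩))))

theorem leOn_iff (h0 : ∀ a, τ a ≠ 0) {I : Set α} {a : α} (ha : a ∈ I) {x y : K} (hy : y ≠ 0) :
    LeOn k τ I x y ↔ IsIntegral (Algebra.adjoin k
      (Set.range (fun b => τ b / τ a) ∪ (fun b => τ a / τ b) '' I)) (x / y) := by
  rw [isIntegral_iff_val]
  exact forall_congr' fun w => imp_congr (cov_chart h0 ha w) (cov_div w x hy).symm

lemma cov_mono {R : Subalgebra k K} {s r : K} (hs : s ∈ R) {n N : ℕ} (h : r * s ^ n ∈ R)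
    (hN : n ≤ N) : r * s ^ N ∈ R := by
  obtain ⟨d, rfl⟩ := Nat.exists_eq_add_of_le hN
  rw [pow_add, ← mul_assoc]
  exact mul_mem h (pow_mem hs d)

lemma cov_den {R : Subalgebra k K} {s : K} (hs : s ∈ R) {T : Set K}
    (hT : ∀ t ∈ T, t * s ∈ R) {r : K} (hr : r ∈ Algebra.adjoin k T) : ∃ n, r * s ^ n ∈ R := by
  induction hr using Algebra.adjoin_induction with
  | mem t ht => exact ⟨1, by rw [pow_one]; exact hT t ht⟩
  | algebraMap c => exact ⟨0, by rw [pow_zero, mul_one]; exact R.algebraMap_mem c⟩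
  | add x y _ _ hx hy =>
    obtain ⟨m, hm⟩ := hx
    obtain ⟨n, hn⟩ := hy
    refine ⟨m + n, ?_⟩
    rw [add_mul]
    exact add_mem (cov_mono hs hm (Nat.le_add_right _ _)) (cov_mono hs hn (Nat.le_add_left _ _))
  | mul x y _ _ hx hy =>
    obtain ⟨m, hm⟩ := hx
    obtain ⟨n, hn⟩ := hy
    refine ⟨m + n, ?_⟩
    rw [pow_add, mul_mul_mul_comm]
    exact mul_mem hm hn

lemma cov_int {R R' : Subalgebra k K} {s : K} (hs : s ∈ R) (h : ∀ r ∈ R', ∃ n, r * s ^ n ∈ R)
    {z : K} (hz : IsIntegral R' z) : ∃ n, IsIntegral R (s ^ n * z) := by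
  obtain ⟨q, hq, hqz⟩ := hz
  choose n hn using fun i => h _ (q.coeff i).2
  have hP : (q.map (algebraMap R' K)).Monic := hq.map _
  have hPz : (q.map (algebraMap R' K)).eval z = 0 := by rwa [Polynomial.eval_map]
  have hc : ∀ i, (q.map (algebraMap R' K)).coeff i * s ^ n i ∈ R := fun i => by
    rw [Polynomial.coeff_map]
    exact hn i
  generalize q.map (algebraMap R' K) = P at hP hPz hc
  let N := (Finset.range P.natDegree).sup n
  have hl : P.scaleRoots (s ^ N) ∈ Polynomial.lifts (algebraMap R K) := by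
    refine (Polynomial.lifts_iff_coeff_lifts _).2 fun i => ?_
    rw [Polynomial.coeff_scaleRoots]
    suffices hh : P.coeff i * (s ^ N) ^ (P.natDegree - i) ∈ R from ⟨⟨_, hh⟩, rfl⟩
    rcases lt_trichotomy i P.natDegree with hi | rfl | hi
    · rw [← pow_mul]
      refine cov_mono hs (hc i) ((Finset.le_sup (f := n) (Finset.mem_range.2 hi)).trans ?_)
      exact Nat.le_mul_of_pos_right _ (Nat.sub_pos_of_lt hi)
    · rw [hP.coeff_natDegree, Nat.sub_self, pow_zero, mul_one]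
      exact one_mem _
    · rw [Polynomial.coeff_eq_zero_of_natDegree_lt hi, zero_mul]
      exact zero_mem _
  obtain ⟨Q, hQ, -, hm⟩ := Polynomial.lifts_and_degree_eq_and_monic hl
    ((Polynomial.monic_scaleRoots_iff _).2 hP)
  refine ⟨N, Q, hm, ?_⟩
  rw [← Polynomial.eval_map, hQ, Polynomial.scaleRoots_eval_mul, hPz, mul_zero]

/-- Functions on a smaller intersection extend after multiplication by a power. -/
theorem LeOn.exists_pow (h0 : ∀ a, τ a ≠ 0) {I : Set α} {a : α} (ha : a ∈ I) (b : α) {x y : K}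
    (h : LeOn k τ (insert b I) x y) : ∃ N₀ : ℕ, ∀ N, N₀ ≤ N →
      LeOn k τ I (x * τ b ^ N) (y * τ a ^ N) := by
  by_cases hy : y = 0
  · obtain ⟨w, hw⟩ := Val.exists_trivial (k := k) (K := K)
    have h1 := h w fun c _ d => by rw [hw _ (h0 c), hw _ (h0 d)]
    rw [hy, map_zero, le_zero_iff, map_eq_zero] at h1
    exact ⟨0, fun N _ w _ => by rw [h1, zero_mul, map_zero]; exact zero_le⟩
  have hs : τ b / τ a ∈ Algebra.adjoin k
      (Set.range (fun b => τ b / τ a) ∪ (fun b => τ a / τ b) '' I) :=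
    Algebra.subset_adjoin (.inl ⟨b, rfl⟩)
  have hT : ∀ t ∈ Set.range (fun b => τ b / τ a) ∪ (fun b => τ a / τ b) '' insert b I,
      t * (τ b / τ a) ∈ Algebra.adjoin k
        (Set.range (fun b => τ b / τ a) ∪ (fun b => τ a / τ b) '' I) := by
    rintro _ (⟨c, rfl⟩ | ⟨c, rfl | hc, rfl⟩)
    · exact mul_mem (Algebra.subset_adjoin (.inl ⟨c, rfl⟩)) hs
    · show τ a / τ c * (τ c / τ a) ∈ _
      rw [div_mul_div_cancel₀ (h0 c), div_self (h0 a)]
      exact one_mem _
    · exact mul_mem (Algebra.subset_adjoin (.inr ⟨c, hc, rfl⟩)) hs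
  obtain ⟨n, hn⟩ := cov_int hs (fun r hr => cov_den hs hT hr)
    ((leOn_iff h0 (Set.mem_insert_of_mem b ha) hy).1 h)
  refine ⟨n, fun N hN => (leOn_iff h0 ha (mul_ne_zero hy (pow_ne_zero _ (h0 a)))).2 ?_⟩
  obtain ⟨d, rfl⟩ := Nat.exists_eq_add_of_le hN
  have e : x * τ b ^ (n + d) / (y * τ a ^ (n + d)) =
      (τ b / τ a) ^ d * ((τ b / τ a) ^ n * (x / y)) := by
    rw [← mul_assoc, ← pow_add, add_comm d n, div_pow, div_mul_div_comm, mul_comm x,
      mul_comm y]
  rw [e]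
  exact (isIntegral_algebraMap (x := (⟨_, pow_mem hs d⟩ : Algebra.adjoin k _))).mul hn

lemma cov_single (h0 : ∀ a, τ a ≠ 0) (a : α) (x : K) :
    LeOn k τ {a} x 1 ↔ IsIntegral (Algebra.adjoin k (Set.range fun b => τ b / τ a)) x := by
  have e : Set.range (fun b => τ b / τ a) ∪ (fun b => τ a / τ b) '' {a} =
      Set.range fun b => τ b / τ a := by
    refine Set.union_eq_self_of_subset_right ?_
    rintro _ ⟨c, rfl, rfl⟩
    exact ⟨c, rfl⟩
  rw [leOn_iff h0 (Set.mem_singleton a) one_ne_zero, div_one, e]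

/-- The functions on a chart form a finite module over the ring of ratios. -/
theorem exists_chart_gens (p : ℕ) [Fact p.Prime] [CharP k p] [IsAlgClosed k] [Finite α]
    [Algebra.EssFiniteType k K] (h0 : ∀ a, τ a ≠ 0) (a : α)
    [Algebra.IsAlgebraic (Algebra.adjoin k (Set.range fun b => τ b / τ a)) K] :
    ∃ s : Finset K, (∀ x ∈ s, LeOn k τ {a} x 1) ∧ ∀ x, LeOn k τ {a} x 1 →
      x ∈ Submodule.span (Algebra.adjoin k (Set.range fun b => τ b / τ a)) (s : Set K) := by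
  obtain ⟨s, h1, h2⟩ := exists_finset_integral p (Algebra.adjoin k (Set.range fun b => τ b / τ a))
    (Subalgebra.fg_def.2 ⟨_, Set.finite_range _, rfl⟩)
  exact ⟨s, fun x hx => (cov_single h0 a x).2 (h1 x hx), fun x hx =>
    h2 x ((cov_single h0 a x).1 hx)⟩

/-- Elements without a common zero on a chart generate the unit ideal. -/
theorem exists_unit_comb (h0 : ∀ a, τ a ≠ 0) (a : α) {β : Type} [Fintype β] (x : β → K)
    (hx : ∀ b, LeOn k τ {a} (x b) 1) (h : ∀ w : Val k K, InU τ a w → ∃ b, w.v (x b) = 1) :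
    ∃ c : β → K, (∀ b, LeOn k τ {a} (c b) 1) ∧ ∑ b, c b * x b = 1 := by
  let O : Subalgebra k K := ⨅ w : {w : Val k K // InU τ a w}, w.1.sub
  have hO : ∀ z, z ∈ O ↔ LeOn k τ {a} z 1 := fun z => by
    rw [Algebra.mem_iInf]
    refine ⟨fun hz w hw => ?_, fun hz w => ?_⟩
    · rw [map_one]
      exact Val.v_le_one.2 (hz ⟨w, hw a rfl⟩)
    · have := hz w.1 fun c hc => by rw [Set.mem_singleton_iff.1 hc]; exact w.2
      rw [map_one] at this
      exact Val.v_le_one.1 this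
  let x' : β → O := fun b => ⟨x b, (hO _).2 (hx b)⟩
  by_cases hJ : Ideal.span (Set.range x') = ⊤
  · obtain ⟨c, hc⟩ := Ideal.mem_span_range_iff_exists_fun.1 ((Ideal.eq_top_iff_one _).1 hJ)
    refine ⟨fun b => c b, fun b => (hO _).1 (c b).2, ?_⟩
    simpa [x'] using congrArg O.val hc
  · obtain ⟨m, hm, hle⟩ := Ideal.exists_le_maximal _ hJ
    obtain ⟨w, hw1, hw2⟩ := exists_val_centre O m
    obtain ⟨b, hb⟩ := h w fun c => (cov_div w _ (h0 a)).1
      (hw1 _ (Algebra.mem_iInf.2 fun w' => (cov_div w'.1 _ (h0 a)).2 (w'.2 c)))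
    exact absurd ((hw2 (x' b)).2 (hle (Ideal.subset_span ⟨b, rfl⟩))) (not_lt.2 hb.ge)

end

end Pool.Agent.Lib.MP_1c03d5_ag
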