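import Pool.Agent.Lib.MP_1c03d5_ag.Fin3
import Pool.Agent.Lib.MP_1c03d5_ag.Cov

/-!
# TASK FIN4: the embedding
-/

open MvPolynomial

universe u

namespace Pool.Agent.Lib.MP_1c03d5_ag

noncomputable section

/-- An integral element of the fraction field of a normal domain lies in the domain. -/
theorem fin4_mem_range {k A K : Type u} [Field k] [CommRing A] [IsDomain A] [IsIntegrallyClosed A]
    [Algebra k A] [Field K] [Algebra k K] (φ : A →ₐ[k] K) (hφ : Function.Injective φ) {y : K}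
    (hy : IsIntegral φ.range y) {a b : A} (hb : φ b ≠ 0) (e : y * φ b = φ a) :
    ∃ c, φ c = y := by
  let : Algebra A K := φ.toRingHom.toAlgebra
  have h1 : IsIntegral A y :=
    (RingEquiv.isIntegral_iff (AlgEquiv.ofInjective φ hφ).toRingEquiv (by ext x; rfl) y).2 hy
  let j : FractionRing A →ₐ[A] K := IsFractionRing.liftAlgHom (g := Algebra.ofId A K) hφ
  have hj : ∀ x : A, j (algebraMap A _ x) = φ x := fun x => j.commutes x
  have h2 : j (algebraMap A _ a / algebraMap A _ b) = y := by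
    rw [map_div₀, hj, hj, ← e, mul_div_cancel_right₀ _ hb]
  rw [← h2, isIntegral_algHom_iff j j.toRingHom.injective] at h1
  obtain ⟨c, hc⟩ := IsIntegrallyClosed.isIntegral_iff.1 h1
  exact ⟨c, by rw [← h2, ← hc, hj]⟩

variable {k : Type u} [Field k]

/-- Among generators of the unit ideal one is a unit at a centred valuation. -/
theorem fin4_unit {A K : Type u} [CommRing A] [Algebra k A] [Field K] [Algebra k K]
    (φ : A →ₐ[k] K) (w : Val k K) (hw : ∀ a, φ a ∈ w.O) {s : Set A} (hs : Ideal.span s = ⊤) :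
    ∃ a ∈ s, w.v (φ a) = 1 := by
  by_contra hne
  push Not at hne
  have key : ∀ a ∈ Ideal.span s, w.v (φ a) < 1 := by
    intro a ha
    induction ha using Submodule.span_induction with
    | mem x hx => exact lt_of_le_of_ne (Val.v_le_one.2 (hw x)) (hne x hx)
    | zero => simp
    | add x y _ _ hx hy => rw [map_add]; exact lt_of_le_of_lt (w.v.map_add _ _) (max_lt hx hy)
    | smul c x _ hx =>
      rw [smul_eq_mul, map_mul, map_mul]
      exact lt_of_le_of_lt (mul_le_of_le_one_left' (Val.v_le_one.2 (hw c))) hx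
  have := key 1 (hs ▸ Submodule.mem_top)
  simp at this

section

variable {P : CPres k} {Γ : Gen P.toEqRel} {α : Type} {s : α → P.El}

theorem fin4_chartMap {t : α} {ρ : α → Γ.K'}
    (hρ : ∀ σ ∈ Γ.S, ∀ b, σ.val (s b) = ρ b * σ.val (s t)) {i}
    (φ : Localization.Away (s t i) →ₐ[k] Γ.K') (hφ : awayPt φ ∈ Γ.S) :
    φ.comp (chartMap s t i) = aeval ρ := by
  refine algHom_ext fun b => ?_
  have h1 := hρ _ hφ b
  have h2 := congrArg φ (IsLocalization.Away.mul_invSelf (S := Localization.Away (s t i)) (s t i))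
  simp only [Fam.Pt.val, AlgHom.comp_apply, IsScalarTower.coe_toAlgHom'] at h1
  rw [map_mul, map_one] at h2
  simp only [AlgHom.comp_apply, chartMap, aeval_X, map_mul]
  rw [h1, mul_assoc, h2, mul_one]

theorem fin4_chartKer (hΓ : Γ.Generic) {t : α} (ha : ∀ i, s t i ≠ 0) {ρ : α → Γ.K'}
    (hρ : ∀ σ ∈ Γ.S, ∀ b, σ.val (s b) = ρ b * σ.val (s t)) :
    chartKer s t = RingHom.ker (aeval ρ : MvPolynomial α k →ₐ[k] Γ.K') := by
  have key : ∀ i, RingHom.ker (chartMap s t i) =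
      RingHom.ker (aeval ρ : MvPolynomial α k →ₐ[k] Γ.K') := by
    intro i
    obtain ⟨φ, hφ⟩ := hΓ.2 i
    obtain ⟨φ', h1, h2⟩ := exists_away_ext hΓ ha hφ
    ext G
    rw [RingHom.mem_ker, RingHom.mem_ker, ← fin4_chartMap hρ φ' (h1 ▸ hφ), AlgHom.comp_apply,
      map_eq_zero_iff φ' h2]
  have := P.ne
  rw [chartKer, iInf_congr key, iInf_const]

/-- Sections of a line bundle vanish everywhere or nowhere, and have ratios. -/
theorem fin4_ratio (hΓ : Γ.Generic) {L : P.LB} (hs : ∀ b, P.IsSec L ⊥ (s b)) (t : α) :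
    (∀ i, s t i = 0) ∨ (∀ i, s t i ≠ 0) ∧
      ∃ ρ : α → Γ.K', ∀ σ ∈ Γ.S, ∀ b, σ.val (s b) = ρ b * σ.val (s t) := by
  have hr : ∀ b, Γ.RS L fun σ => σ.val (s b) := fun b => Γ.rs_of_isSec (hs b) bot_le
  by_cases h : ∀ i, s t i = 0
  · exact Or.inl h
  push Not at h
  obtain ⟨i, hi⟩ := h
  obtain ⟨φ, hφ⟩ := hΓ.2 i
  have hz : Γ.Nz fun σ => σ.val (s t) :=
    (hr t).nz hφ ((map_ne_zero_iff φ (hΓ.1 _ hφ)).2 hi)
  refine Or.inr ⟨fun j hj => ?_, ?_⟩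
  · obtain ⟨ψ, hψ⟩ := hΓ.2 j
    exact hz _ hψ (by simp [Fam.Pt.val, hj])
  · choose ρ hρ using fun b => (hr b).exists_eq_mul (hr t) hz
    exact ⟨ρ, fun σ hσ b => hρ b σ hσ⟩

/-- Ratios of sections are invariant. -/
theorem fin4_fixed (hΓ : Γ.Generic) {t : α} (ha : ∀ i, s t i ≠ 0) {ρ : α → Γ.K'}
    (hρ : ∀ σ ∈ Γ.S, ∀ b, σ.val (s b) = ρ b * σ.val (s t)) (b : α) {γ} (hγ : γ ∈ Γ.G) :
    γ (ρ b) = ρ b := by
  obtain ⟨σ, hσ⟩ := Γ.ne
  have h1 := congrArg γ (hρ σ hσ b)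
  have h2 := hρ _ (Γ.act_mem hγ hσ) b
  have h3 : γ (σ.val (s t)) ≠ 0 :=
    (map_ne_zero_iff γ γ.injective).2 ((map_ne_zero_iff σ.2 (hΓ.1 _ hσ)).2 (ha _))
  rw [map_mul] at h1
  exact mul_right_cancel₀ h3 (h1.symm.trans h2)

theorem fin4_cover (hΓ : Γ.Generic) {L : P.LB} (hs : ∀ b, P.IsSec L ⊥ (s b)) {good : Set α}
    (hg : ∀ i, Ideal.span ((fun a => s a i) '' good) = ⊤) (t : α) (𝔭 : Ideal (MvPolynomial α k))
    (hp : 𝔭.IsPrime) (h : chartKer s t ≤ 𝔭) : ∃ a ∈ good, X a ∉ 𝔭 := by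
  rcases fin4_ratio hΓ hs t with h0 | ⟨ha, ρ, hρ⟩
  · refine absurd (top_le_iff.1 (le_trans (le_iInf fun i G _ => ?_) h)) hp.ne_top
    have : Subsingleton (Localization.Away (s t i)) :=
      IsLocalization.subsingleton (M := Submonoid.powers (s t i)) ⟨1, by simp [h0 i]⟩
    exact Subsingleton.elim _ _
  · rw [fin4_chartKer hΓ ha hρ] at h
    obtain ⟨w, h1, h2⟩ := exists_val_centre' (aeval ρ : MvPolynomial α k →ₐ[k] Γ.K') 𝔭 h
    obtain ⟨σ, hσ, hc⟩ := Γ.exists_cen w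
    obtain ⟨_, ⟨a, hag, rfl⟩, h3⟩ := fin4_unit σ.2 w hc (hg σ.1)
    refine ⟨a, hag, fun hX => ?_⟩
    have h4 := (h2 _).2 hX
    rw [aeval_X] at h4
    have h5 : w.v (σ.val (s a)) < 1 := by
      rw [hρ σ hσ a, map_mul]
      exact lt_of_le_of_lt (mul_le_of_le_one_right' (Val.v_le_one.2 (hc _))) h4
    exact h5.ne h3

/-- The embedding, when the ratios generate the normalised coordinate rings. -/
theorem fin4_core [IsAlgClosed k] (p : ℕ) [Fact p.Prime] [CharP k p] (hΓ : Γ.Generic) {L : P.LB}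
    [Finite α] (h : Gsec L s) (good : Set α) (hg : ∀ i, Ideal.span ((fun a => s a i) '' good) = ⊤)
    (hgood : ∀ t ∈ good, (∀ i, s t i ≠ 0) ∧ ∃ ρ : α → Γ.K',
      (∀ σ ∈ Γ.S, ∀ b, σ.val (s b) = ρ b * σ.val (s t)) ∧
        Γ.imRing ρ ≤ Algebra.adjoin k (Set.range ρ)) :
    Nonempty (EmbOn P.toFam fun _ _ _ σ τ => P.Rel σ τ) := by
  have key : ∀ t ∈ good, ∃ (ρ : α → Γ.K') (ψ : ∀ i, Γ.imRing ρ →ₐ[k] Localization.Away (s t i))
      (π : MvPolynomial α k →ₐ[k] Γ.imRing ρ), (∀ i, s t i ≠ 0) ∧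
      (∀ σ ∈ Γ.S, ∀ b, σ.val (s b) = ρ b * σ.val (s t)) ∧ (∀ i, (ψ i).toRingHom.Etale) ∧
      (∀ i (φ : Localization.Away (s t i) →ₐ[k] Γ.K'), awayPt φ ∈ Γ.S → ∀ c, φ (ψ i c) = c) ∧
      Function.Surjective π ∧ (∀ i, chartMap s t i = (ψ i).comp π) ∧
      chartKer s t = RingHom.ker π := by
    intro t ht
    obtain ⟨ha, ρ, hρ, hle⟩ := hgood t ht
    choose ψ h1 h2 using exists_etale_imRing p h hΓ ha hρ
    have hm : ∀ b, ρ b ∈ Γ.imRing ρ := fun b =>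
      ⟨isIntegral_algebraMap (R := Algebra.adjoin k (Set.range ρ))
        (x := ⟨ρ b, Algebra.subset_adjoin ⟨b, rfl⟩⟩), fun γ hγ => fin4_fixed hΓ ha hρ b hγ⟩
    let π : MvPolynomial α k →ₐ[k] Γ.imRing ρ := aeval fun b => ⟨ρ b, hm b⟩
    have hπ : (Γ.imRing ρ).val.comp π = aeval ρ := algHom_ext fun b => by simp [π]
    have hπ' : ∀ G, (π G : Γ.K') = aeval ρ G := fun G => DFunLike.congr_fun hπ G
    refine ⟨ρ, ψ, π, ha, hρ, h1, h2, fun c => ?_, fun i => ?_, ?_⟩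
    · have hc := hle c.2
      rw [Algebra.adjoin_range_eq_range_aeval] at hc
      obtain ⟨G, hG⟩ := hc
      exact ⟨G, Subtype.ext ((hπ' G).trans hG)⟩
    · obtain ⟨φ, hφ⟩ := hΓ.2 i
      obtain ⟨φ', h3, h4⟩ := exists_away_ext hΓ ha hφ
      refine AlgHom.ext fun G => h4 ?_
      rw [AlgHom.comp_apply, h2 i φ' (h3 ▸ hφ), hπ', ← fin4_chartMap hρ φ' (h3 ▸ hφ),
        AlgHom.comp_apply]
    · rw [fin4_chartKer hΓ ha hρ]
      ext G
      rw [RingHom.mem_ker, RingHom.mem_ker, ← hπ', ZeroMemClass.coe_eq_zero]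
  refine ⟨⟨α, s, good, fun C _ _ σ τ hr => ⟨(hr.isUnit_tr L).unit, fun a => ?_⟩, hg,
    fun t ht i => ?_, fun t ht 𝔭 hp hle => ?_, fun t ht C _ _ i j σ τ e => ?_,
    fin4_cover hΓ h.sec hg⟩⟩
  · exact (h.sec a).val_eq hr bot_le
  · obtain ⟨ρ, ψ, π, -, -, h1, -, h3, h4, h5⟩ := key t ht
    let e := (Ideal.quotientEquivAlgOfEq k h5).trans (Ideal.quotientKerAlgEquivOfSurjective h3)
    have he : (chartLift s t i).toRingHom = (ψ i).toRingHom.comp e.toAlgHom.toRingHom := by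
      refine Ideal.Quotient.ringHom_ext (RingHom.ext fun G => ?_)
      change chartMap s t i G = ψ i (π G)
      rw [h4]; rfl
    rw [he]
    exact RingHom.Etale.stableUnderComposition _ _ (RingHom.Etale.of_bijective e.bijective) (h1 i)
  · obtain ⟨ρ, ψ, π, ha, hρ, -, h2, h3, h4, h5⟩ := key t ht
    rw [h5] at hle
    have := Ideal.map_isPrime_of_surjective h3 hle
    obtain ⟨i, 𝔮, hq, e⟩ := imRing_surj h hΓ ha hρ ψ h2 (𝔭.map π)
    refine ⟨i, 𝔮, hq, ?_⟩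
    have e' : 𝔮.comap (chartMap s t i) = (𝔮.comap (ψ i)).comap π := by rw [h4]; rfl
    rw [e', e, Ideal.comap_map_of_surjective π h3]
    exact sup_eq_left.2 hle
  · obtain ⟨ρ, ψ, π, ha, hρ, h1, h2, h3, h4, -⟩ := key t ht
    refine imRing_rel h hΓ ha hρ ψ h1 h2 C i j σ τ (AlgHom.ext fun c => ?_)
    obtain ⟨G, rfl⟩ := h3 c
    have := DFunLike.congr_fun e G
    rw [h4, h4] at this
    exact this

/-- An invariant regular family is the family of values of an element of the charts. -/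
theorem fin4_exists_el (hΓ : Γ.Generic) {E : P.Pt Γ.K' → Γ.K'} (h1 : Γ.Invt E) (h2 : Γ.Reg E) :
    ∃ a : P.El, ∀ σ ∈ Γ.S, σ.val a = E σ := by
  choose φ hφ using hΓ.2
  have key : ∀ i, ∃ a, φ i a = E ⟨i, φ i⟩ := by
    intro i
    have hf : E ⟨i, φ i⟩ ∈ Fam.Pt.fld (⟨i, φ i⟩ : P.Pt Γ.K') :=
      Γ.mem_fld_of_fixed (hφ i) fun γ hγ e => by rw [← h1 γ hγ _ (hφ i), e]
    obtain ⟨a, b, hb, e⟩ := Fam.Pt.mem_fld.1 hf
    have := P.normal i
    exact fin4_mem_range (φ i) (hΓ.1 _ (hφ i)) (h2 _ (hφ i)) hb e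
  choose a ha using key
  refine ⟨a, fun ⟨i, ψ⟩ hψ => ?_⟩
  obtain ⟨γ, hγ, rfl⟩ := Γ.conj (hφ i) hψ (by
    rw [(RingHom.injective_iff_ker_eq_bot _).1 (hΓ.1 _ (hφ i)),
      (RingHom.injective_iff_ker_eq_bot _).1 (hΓ.1 _ hψ)])
  exact (congrArg γ (ha i)).trans (h1 γ hγ _ (hφ i)).symm

theorem fin4_leOn_iff {K : Type u} [Field K] [Algebra k K] {τ : α → K} (h0 : ∀ a, τ a ≠ 0) (a : α)
    (x : K) : LeOn k τ {a} x 1 ↔ IsIntegral (Algebra.adjoin k (Set.range fun b => τ b / τ a)) x := by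
  have key : ∀ (w : Val k K) b, τ b / τ a ∈ w.O ↔ w.v (τ b) ≤ w.v (τ a) := fun w b => by
    rw [← Val.v_le_one, map_div₀, div_le_one₀ (zero_lt_iff.2 ((map_ne_zero _).2 (h0 a)))]
  rw [isIntegral_iff_val]
  refine ⟨fun h w hw => ?_, fun h w hw => ?_⟩
  · rw [← Val.v_le_one, ← map_one w.v]
    refine h w fun a' ha' b => ?_
    obtain rfl : a' = a := ha'
    exact (key w b).1 (hw _ (Algebra.subset_adjoin ⟨b, rfl⟩))
  · rw [map_one, Val.v_le_one]
    refine h w (w.adjoin_le ?_)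
    rintro _ ⟨b, rfl⟩
    exact (key w b).2 (hw a rfl b)

/-- The case of non-zero sections. -/
theorem fin4_nz [IsAlgClosed k] (p : ℕ) [Fact p.Prime] [CharP k p] (hΓ : Γ.Generic) {L : P.LB}
    {β : Type} [Finite β] {f : β → P.El} (h : Gsec L f) (hf : ∀ b i, f b i ≠ 0) :
    Nonempty (EmbOn P.toFam fun _ _ _ σ τ => P.Rel σ τ) := by
  obtain ⟨σ₀, hσ₀⟩ := Γ.ne
  have hr : ∀ b, Γ.RS L fun σ => σ.val (f b) := fun b => Γ.rs_of_isSec (h.sec b) bot_le
  have hnz : ∀ σ ∈ Γ.S, ∀ b, σ.val (f b) ≠ 0 := fun σ hσ b =>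
    (map_ne_zero_iff σ.2 (hΓ.1 _ hσ)).2 (hf b _)
  obtain ⟨τ, h0, hτ⟩ : ∃ τ : β → Γ.K', (∀ b, τ b ≠ 0) ∧
      ∀ σ ∈ Γ.S, ∃ g, ∀ b, σ.val (f b) = g * τ b :=
    ⟨fun b => σ₀.val (f b), hnz _ hσ₀, fun σ hσ => ⟨_, fun b => hr b σ hσ σ₀ hσ₀ (Γ.rel _ hσ _ hσ₀)⟩⟩
  have hρ : ∀ a, ∀ σ ∈ Γ.S, ∀ b, σ.val (f b) = τ b / τ a * σ.val (f a) := by
    intro a σ hσ b
    obtain ⟨g, hg⟩ := hτ σ hσ
    have := h0 a
    rw [hg, hg]; field_simp
  have hfix : ∀ a b, ∀ γ ∈ Γ.G, γ (τ b / τ a) = τ b / τ a := fun a b γ hγ =>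
    fin4_fixed hΓ (hf a) (hρ a) b hγ
  -- generators of the normalised coordinate rings
  have hfg : ∀ a, ∃ (n : ℕ) (c : Fin n → Γ.K'),
      Algebra.adjoin k (Set.range c) = Γ.imRing fun b => τ b / τ a := by
    intro a
    obtain ⟨T, hT⟩ := fg_of_integral p (Algebra.adjoin k (Set.range fun b => τ b / τ a))
      (Γ.imRing fun b => τ b / τ a) (Subalgebra.fg_def.2 ⟨_, Set.finite_range _, rfl⟩)
      (Algebra.adjoin_le (by
        rintro _ ⟨b, rfl⟩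
        exact ⟨isIntegral_algebraMap (R := Algebra.adjoin k (Set.range fun b => τ b / τ a))
          (x := ⟨_, Algebra.subset_adjoin ⟨b, rfl⟩⟩), hfix a b⟩)) fun x hx => hx.1
    obtain ⟨n, c, -, hc⟩ := T.finite_toSet.fin_param
    exact ⟨n, c, by rw [hc, hT]⟩
  choose n c hc using hfg
  let α : Type := Σ a : β, Option (Fin (n a))
  let y : α → Γ.K' := fun u => u.2.elim 1 (c u.1)
  have hy : ∀ u : α, y u ∈ Γ.imRing fun b => τ b / τ u.1 := by
    rintro ⟨a, _ | j⟩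
    · exact one_mem _
    · exact hc a ▸ Algebra.subset_adjoin ⟨j, rfl⟩
  have hN : ∀ v : α × β, ∃ N₀ : ℕ, ∀ N, N₀ ≤ N →
      LeOn k τ {v.2} (y v.1 * τ v.1.1 ^ N) (1 * τ v.2 ^ N) := fun v =>
    LeOn.exists_pow h0 (Set.mem_singleton v.2) v.1.1 (((fin4_leOn_iff h0 _ _).2 (hy v.1).1).mono (by simp))
  choose N₀ hN₀ using hN
  obtain ⟨m, hm⟩ := Finite.exists_le N₀
  have hl : ∀ (u : α) b, LeOn k τ {b} (y u * τ u.1 ^ (m + 1)) (1 * τ b ^ (m + 1)) := fun u b =>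
    hN₀ (u, b) _ ((hm _).trans (Nat.le_succ m))
  -- the sections
  have hsec : ∀ u : α, ∃ a : P.El, ∀ σ ∈ Γ.S, σ.val a = y u * σ.val (f u.1) ^ (m + 1) := by
    intro u
    refine fin4_exists_el hΓ (fun γ hγ σ _ => ?_) (Gen.reg_iff.2 fun σ hσ w hw => ?_)
    · rw [map_mul, map_pow, (hy u).2 γ hγ]; rfl
    · obtain ⟨_, ⟨b, rfl⟩, hb⟩ := fin4_unit σ.2 w hw (h.gen σ.1)
      obtain ⟨g, hg⟩ := hτ σ hσ
      have hb' : w.v g * w.v (τ b) = 1 := by rw [← map_mul, ← hg]; exact hb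
      have hg0 : 0 < w.v g := zero_lt_iff.2 (left_ne_zero_of_mul_eq_one hb')
      have h1 := hl u b w fun a' ha' b' => by
        obtain rfl : a' = b := ha'
        refine le_of_mul_le_mul_left ?_ hg0
        rw [hb', ← map_mul, ← hg]
        exact Val.v_le_one.2 (hw _)
      rw [← Val.v_le_one, hg, mul_pow, mul_left_comm, map_mul]
      refine (mul_le_mul_right h1 _).trans (le_of_eq ?_)
      rw [one_mul, map_pow, map_pow, ← mul_pow, hb', one_pow]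
  choose s hs using hsec
  have hs0 : ∀ a i, s ⟨a, none⟩ i = f a i ^ (m + 1) := by
    intro a i
    obtain ⟨φ, hφ⟩ := hΓ.2 i
    refine hΓ.1 _ hφ ?_
    have := hs ⟨a, none⟩ _ hφ
    simpa [y, Fam.Pt.val] using this
  have hgen : ∀ i, Ideal.span ((fun u => s u i) '' Set.range fun a => (⟨a, none⟩ : α)) = ⊤ := by
    intro i
    rw [← Ideal.span_pow_eq_top _ (h.gen i) (m + 1), ← Set.range_comp, ← Set.range_comp]
    exact congrArg (fun g => Ideal.span (Set.range g)) (funext fun a => hs0 a i)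
  have hG : Gsec (L ^ (m + 1)) s := by
    refine ⟨fun Γ' => (Gen.big_pow_iff m.succ_pos).2 (h.big Γ'), fun u => ?_, fun i => ?_⟩
    · rw [← hΓ.I_eq, Gen.isSec_iff]
      exact (((hr u.1).pow (m + 1)).const_mul (y u)).congr fun σ hσ => (hs u σ hσ).symm
    · exact top_le_iff.1 ((hgen i).ge.trans (Ideal.span_mono (Set.image_subset_range _ _)))
  refine fin4_core p hΓ hG _ hgen ?_
  rintro _ ⟨a, rfl⟩
  refine ⟨fun i => by rw [hs0]; exact pow_ne_zero _ (hf a i),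
    fun u => y u * (τ u.1 / τ a) ^ (m + 1), fun σ hσ u => ?_, ?_⟩
  · rw [hs u σ hσ, hs _ σ hσ, hρ a σ hσ u.1]
    simp only [y, Option.elim_none]
    ring
  · have h1 : Algebra.adjoin k (Set.range fun u : α => y u * (τ u.1 / τ a) ^ (m + 1)) =
        Γ.imRing fun b => τ b / τ a := by
      refine le_antisymm (Algebra.adjoin_le ?_) ?_
      · rintro _ ⟨u, rfl⟩
        refine ⟨(fin4_leOn_iff h0 a _).1 fun w hw => ?_, fun γ hγ => ?_⟩
        · have h2 := hl u a w hw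
          rw [one_mul] at h2
          beta_reduce
          rw [div_pow, ← mul_div_assoc, map_one, map_div₀,
            div_le_one₀ (zero_lt_iff.2 ((map_ne_zero _).2 (pow_ne_zero _ (h0 a))))]
          exact h2
        · rw [map_mul, map_pow, (hy u).2 γ hγ, hfix a _ γ hγ]
      · rw [← hc a]
        refine Algebra.adjoin_mono ?_
        rintro _ ⟨j, rfl⟩
        exact ⟨⟨a, some j⟩, by simp [y, h0 a]⟩
    intro x hx
    obtain ⟨hx1, hx2⟩ := hx
    rw [h1] at hx1 ⊢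
    refine ⟨(isIntegral_iff_val _ _).2 fun w hw => (isIntegral_iff_val _ _).1 hx1 w fun z hz => ?_,
      hx2⟩
    exact (isIntegral_iff_val _ _).1 hz.1 w hw

end

theorem Gsec.embOn {k : Type u} [Field k] [IsAlgClosed k] (p : ℕ) [Fact p.Prime] [CharP k p]
    {P : CPres k} {L : P.LB} {β : Type} [Finite β] {f : β → P.El} (h : Gsec L f) :
    Nonempty (EmbOn P.toFam fun _ _ _ σ τ => P.Rel σ τ) := by
  obtain ⟨Γ, hΓ⟩ := exists_generic P
  refine fin4_nz p hΓ (L := L) (f := fun b : {b : β // ∀ i, f b i ≠ 0} => f b.1)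
    ⟨h.big, fun b => h.sec b.1, fun i => top_le_iff.1 ((h.gen i).ge.trans ?_)⟩ fun b => b.2
  rw [Ideal.span_le]
  rintro _ ⟨b, rfl⟩
  rcases fin4_ratio hΓ h.sec b with h0 | ⟨h0, -⟩
  · simp [h0 i]
  · exact Ideal.subset_span ⟨⟨b, h0⟩, rfl⟩

end

end Pool.Agent.Lib.MP_1c03d5_ag
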