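import Pool.Agent.Lib.MP_1c03d5_ag.Keel

/-!
# TASK NAK: a bundle that is big on every subvariety is semi-ample
-/

universe u

namespace Pool.Agent.Lib.MP_1c03d5_ag

noncomputable section

theorem nakai {k : Type u} [Field k] [IsAlgClosed k] (p : ℕ) [Fact p.Prime] [CharP k p]
    {P : EqRel k} {L : P.LB} (hL : ∀ Γ : Gen P, Γ.Big L) : ∃ m, 0 < m ∧ ∃ (β : Type) (_ : Finite β)
      (t : β → P.El), (∀ b, P.IsSec (L ^ m) ⊥ (t b)) ∧
        ∀ i, Ideal.span (Set.range fun b => t b i) = ⊤ := by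
  suffices h : ∃ m, 0 < m ∧ ∃ (β : Type) (_ : Finite β) (t : β → P.El),
      (∀ b, P.IsSec (L ^ m) ⊥ (t b)) ∧
        ∀ i, Ideal.span (Set.range fun b => t b i) ⊔ (⊥ : P.Idl) i = ⊤ by simpa using h
  refine inv_induction (Q := fun I => ∃ m, 0 < m ∧ ∃ (β : Type) (_ : Finite β) (t : β → P.El),
    (∀ b, P.IsSec (L ^ m) I (t b)) ∧ ∀ i, Ideal.span (Set.range fun b => t b i) ⊔ I i = ⊤)
    (fun I hI hr ih => ?_) PreRel.Inv.bot fun i => Ideal.isRadical_bot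
  by_cases htop : I = ⊤
  · exact ⟨1, one_pos, Empty, inferInstance, Empty.elim, fun b => b.elim, fun i => by simp [htop]⟩
  obtain ⟨Γ, 𝔠, h𝔠, hr𝔠, hIeq, hn⟩ := exists_component hI hr htop
  obtain ⟨M⟩ := Γ.exists_mod
  obtain ⟨m₁, hm₁, s, s1, s2, s3, s4, s5, -⟩ :=
    Γ.sect p (hL Γ) hn (Set.finite_range M.τ).toFinset
  have hΓ : I ≤ Γ.I := hIeq ▸ inf_le_left
  have hc : I ≤ 𝔠 := hIeq ▸ inf_le_right
  have sec : ∀ {L' : P.LB} {a : P.El}, Γ.RS L' (fun σ => σ.val a) → P.IsSec L' 𝔠 a →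
      P.IsSec L' I a := fun h1 h2 => hIeq ▸ EqRel.isSec_inf (Γ.isSec_iff.2 h1) h2
  have hs : P.IsSec (L ^ m₁) I s := sec s3 (PreRel.IsSec.of_mem _ h𝔠 s1)
  have hsJ : ∀ i, s i ∈ (Ideal.span {s i} ⊔ I i).radical := fun i =>
    Ideal.le_radical (Ideal.mem_sup_left (Ideal.subset_span rfl))
  obtain ⟨m₂, hm₂, β, _, t, t1, t2⟩ := ih (fun i => (Ideal.span {s i} ⊔ I i).radical)
    (by simpa using EqRel.inv_radical (PreRel.IsSec.inv_span hI (f := fun _ : Unit => s)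
      fun _ => hs)) (fun i => Ideal.radical_isRadical _)
    (lt_of_le_of_ne (fun i => le_sup_right.trans Ideal.le_radical) fun e => by
      obtain ⟨σ, hσ⟩ := Γ.ne
      have h1 : s σ.1 ∈ Γ.I σ.1 := hΓ _ (by rw [e]; exact hsJ _)
      exact s2 σ hσ ((Submodule.mem_iInf _).1 ((Submodule.mem_iInf _).1 h1 σ.2) hσ))
  obtain ⟨N, hN, hk⟩ := keel p M L hm₁ hm₂ s2 s3 (fun a => s4 _ (by simp))
    (fun i => Ideal.radical_mono (sup_le_sup_left (hΓ i) _)) t1 t2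
  choose ρ r1 r2 r3 using hk
  choose a a1 a2 using fun b => s5 (ρ b) (r1 b) (r2 b)
  have ht : ∀ b, P.IsSec (L ^ (m₂ * N)) I (t b ^ N + s * a b) := fun b => by
    refine sec ((r3 b).congr fun σ hσ => ?_) (PreRel.IsSec.add ?_
      (PreRel.IsSec.of_mem _ h𝔠 fun i => Ideal.mul_mem_left _ _ (a1 b i)))
    · have := a2 b σ hσ
      simp only [Fam.Pt.val, Pi.add_apply, Pi.pow_apply, Pi.mul_apply, map_add, map_pow,
        map_mul] at this ⊢
      rw [this]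
      ring
    · rw [pow_mul]
      exact ((t1 b).pow N).mono fun i => (hr𝔠 i).radical_le_iff.2
        (sup_le ((Ideal.span_singleton_le_iff_mem _).2 (s1 i)) (hc i))
  refine ⟨m₁ * (m₂ * N), by positivity, Option β, inferInstance,
    fun o => o.elim (s ^ (m₂ * N)) fun b => (t b ^ N + s * a b) ^ m₁, ?_, fun i => ?_⟩
  · rintro (_ | b)
    · rw [pow_mul]
      exact hs.pow _
    · rw [mul_comm, pow_mul]
      exact (ht b).pow _
  · by_contra hne
    obtain ⟨𝔪, h𝔪, hle⟩ := Ideal.exists_le_maximal _ hne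
    have hp := h𝔪.isPrime
    have b1 : s i ∈ 𝔪 :=
      hp.mem_of_pow_mem _ (hle (Ideal.mem_sup_left (Ideal.subset_span ⟨none, rfl⟩)))
    refine h𝔪.ne_top (top_le_iff.1 (t2 i ▸ sup_le (Ideal.span_le.2 ?_) (hp.radical_le_iff.2
      (sup_le ((Ideal.span_singleton_le_iff_mem _).2 b1) (le_sup_right.trans hle)))))
    rintro _ ⟨b, rfl⟩
    have b2 : t b i ^ N + s i * a b i ∈ 𝔪 :=
      hp.mem_of_pow_mem _ (hle (Ideal.mem_sup_left (Ideal.subset_span ⟨some b, rfl⟩)))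
    exact hp.mem_of_pow_mem _ ((Ideal.add_mem_iff_left _ (Ideal.mul_mem_right _ _ b1)).1 b2)

end

end Pool.Agent.Lib.MP_1c03d5_ag
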