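import Pool.Agent.Lib.MP_1c03d5_ag.Pol

/-!
# TASK ROOM: from separation to room
-/

universe u

namespace Pool.Agent.Lib.MP_1c03d5_ag

noncomputable section

section key

variable {k A K : Type u} [Field k] [CommRing A] [Algebra k A] [Field K] [Algebra k K]

/-- The affine blow-up chart `A[𝔞/g]` inside `K`. -/
def room_R (e : A →ₐ[k] K) (𝔞 : Ideal A) {g : A} (hg : g ∈ 𝔞) : Subalgebra k K where
  carrier := {y | ∃ M, ∃ b ∈ 𝔞 ^ M, y * e g ^ M = e b}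
  mul_mem' := by
    rintro x y ⟨M, b, hb, h⟩ ⟨M', b', hb', h'⟩
    refine ⟨M + M', b * b', ?_, ?_⟩
    · rw [pow_add]
      exact Ideal.mul_mem_mul hb hb'
    · rw [map_mul, ← h, ← h']
      ring
  add_mem' := by
    rintro x y ⟨M, b, hb, h⟩ ⟨M', b', hb', h'⟩
    refine ⟨M + M', b * g ^ M' + g ^ M * b', ?_, ?_⟩
    · rw [pow_add]
      exact add_mem (Ideal.mul_mem_mul hb (Ideal.pow_mem_pow hg _))
        (Ideal.mul_mem_mul (Ideal.pow_mem_pow hg _) hb')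
    · simp only [map_add, map_mul, map_pow, ← h, ← h']
      ring
  algebraMap_mem' c := ⟨0, algebraMap k A c, by simp, by simp⟩

/-- The ideal of the chart attached to a filtration. -/
def room_I (e : A →ₐ[k] K) (𝔞 : Ideal A) {g : A} (hg : g ∈ 𝔞) (H : ℕ → Ideal A)
    (hH : ∀ M c, H M * 𝔞 ^ c ≤ H (M + c)) : Ideal (room_R e 𝔞 hg) where
  carrier := {y | ∃ M, ∃ b ∈ H M, (y : K) * e g ^ M = e b}
  zero_mem' := ⟨0, 0, zero_mem _, by simp⟩
  add_mem' := by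
    rintro x y ⟨M, b, hb, h⟩ ⟨M', b', hb', h'⟩
    refine ⟨M + M', b * g ^ M' + b' * g ^ M, ?_, ?_⟩
    · refine add_mem (hH _ _ (Ideal.mul_mem_mul hb (Ideal.pow_mem_pow hg _))) ?_
      rw [add_comm]
      exact hH _ _ (Ideal.mul_mem_mul hb' (Ideal.pow_mem_pow hg _))
    · simp only [map_add, map_mul, map_pow, ← h, ← h', Subalgebra.coe_add]
      ring
  smul_mem' := by
    rintro ⟨x, M, b, hb, h⟩ y ⟨M', b', hb', h'⟩
    refine ⟨M' + M, b' * b, hH _ _ (Ideal.mul_mem_mul hb' hb), ?_⟩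
    simp only [smul_eq_mul, Subalgebra.coe_mul, map_mul, ← h, ← h']
    ring

lemma room_div_mem (e : A →ₐ[k] K) (𝔞 : Ideal A) {g : A} (hg : g ∈ 𝔞) (h0 : e g ≠ 0) {M : ℕ}
    {b : A} (hb : b ∈ 𝔞 ^ M) : e b / e g ^ M ∈ room_R e 𝔞 hg :=
  ⟨M, b, hb, div_mul_cancel₀ _ (pow_ne_zero _ h0)⟩

/-- A valuative criterion for lying in the radical of a filtration on a blow-up chart. -/
theorem room_key (e : A →ₐ[k] K) (he : Function.Injective e) (𝔞 : Ideal A) {g : A} (hg : g ∈ 𝔞)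
    (H : ℕ → Ideal A) (hH : ∀ M c, H M * 𝔞 ^ c ≤ H (M + c)) (hH' : ∀ M, H M ≤ 𝔞 ^ M) {m : ℕ}
    {x : A} (hx : x ∈ 𝔞 ^ m)
    (hw : g ≠ 0 → ∀ w : Val k K, (∀ a, e a ∈ w.O) → (∀ c ∈ 𝔞, w.v (e c) ≤ w.v (e g)) →
      (∀ M, ∀ b ∈ H M, w.v (e b) < w.v (e g) ^ M) → w.v (e x) < w.v (e g) ^ m) :
    ∀ᶠ n in Filter.atTop, x ^ n * g ^ n ∈ H (n + m * n) := by
  by_cases hg0 : g = 0
  · filter_upwards [Filter.eventually_ge_atTop 1] with n hn
    rw [hg0, zero_pow (by omega), mul_zero]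
    exact zero_mem _
  have h0 : e g ≠ 0 := (map_ne_zero_iff e he).2 hg0
  have hrad : (⟨e x / e g ^ m, room_div_mem e 𝔞 hg h0 hx⟩ : room_R e 𝔞 hg) ∈
      (room_I e 𝔞 hg H hH).radical := by
    rw [Ideal.radical_eq_sInf, Submodule.mem_sInf]
    rintro Q ⟨hQ, hQp⟩
    obtain ⟨w, hw1, hw2⟩ := exists_val_centre (room_R e 𝔞 hg) Q
    have hv : 0 < w.v (e g) := (Valuation.pos_iff _).2 h0
    rw [← hw2]
    change w.v (e x / e g ^ m) < 1
    rw [map_div₀, map_pow, div_lt_one₀ (pow_pos hv _)]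
    refine hw hg0 w (fun a => hw1 _ ⟨0, a, by simp, by simp⟩) (fun c hc => ?_) fun M b hb => ?_
    · have := Val.v_le_one.2 (hw1 _ (room_div_mem e 𝔞 hg h0 (M := 1) (b := c) (by simpa using hc)))
      rwa [pow_one, map_div₀, div_le_one₀ hv] at this
    · have := (hw2 ⟨_, room_div_mem e 𝔞 hg h0 (hH' M hb)⟩).2
        (hQ ⟨M, b, hb, div_mul_cancel₀ _ (pow_ne_zero _ h0)⟩)
      change w.v (e b / e g ^ M) < 1 at this
      rwa [map_div₀, map_pow, div_lt_one₀ (pow_pos hv _)] at this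
  obtain ⟨N, M, b, hb, h⟩ := hrad
  have h1 : x ^ N * g ^ M = b * g ^ (m * N) := by
    apply he
    simp only [map_mul, map_pow, ← h, Subalgebra.coe_pow]
    rw [div_pow, ← pow_mul, mul_right_comm, div_mul_cancel₀ _ (pow_ne_zero _ h0)]
  have h2 : x ^ N * g ^ M ∈ H (M + m * N) :=
    h1 ▸ hH _ _ (Ideal.mul_mem_mul hb (Ideal.pow_mem_pow hg _))
  filter_upwards [Filter.eventually_ge_atTop N, Filter.eventually_ge_atTop M] with n hN hM
  obtain ⟨s, hs⟩ := Nat.exists_eq_add_of_le hN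
  obtain ⟨t, ht⟩ := Nat.exists_eq_add_of_le hM
  have h3 : x ^ s * g ^ t ∈ 𝔞 ^ (m * s + t) := by
    rw [pow_add, pow_mul]
    exact Ideal.mul_mem_mul (Ideal.pow_mem_pow hx _) (Ideal.pow_mem_pow hg _)
  have h4 := hH _ _ (Ideal.mul_mem_mul h2 h3)
  have e1 : x ^ n * g ^ n = x ^ N * g ^ M * (x ^ s * g ^ t) := by
    conv_lhs => rw [hs]
    conv_lhs => enter [2]; rw [← hs, ht]
    ring
  have e2 : n + m * n = M + m * N + (m * s + t) := by
    have : m * n = m * N + m * s := by rw [hs, mul_add]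
    omega
  rw [e1, e2]
  exact h4

end key

section pol

open MvPolynomial

variable {k : Type u} [Field k] {P : PreRel k} (Q : Pol P)

lemma room_f_mem (j : Fin Q.r) (i : P.ι) : Q.f j i ∈ Q.base i := Ideal.subset_span ⟨j, rfl⟩

lemma room_ev_mem {θ : MvPolynomial (Fin Q.r) k} {m : ℕ} (hθ : θ.IsHomogeneous m) (i : P.ι) :
    Q.ev θ i ∈ Q.base i ^ m :=
  (Ideal.mem_span_pow_iff_exists_isHomogeneous _ _).2
    ⟨map (algebraMap k (P.A i)) θ, hθ.map _, by rw [eval_map]; rfl⟩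

/-- The forms of degree `M` that vanish along `𝔭`. -/
def room_G (𝔭 : P.Idl) (M : ℕ) : Set (MvPolynomial (Fin Q.r) k) :=
  {θ | θ.IsHomogeneous M ∧ ∀ i, Q.ev θ i ∈ 𝔭 i * Q.base i ^ M}

/-- The ideals generated by these forms. -/
def room_H (𝔭 : P.Idl) (i : P.ι) (M : ℕ) : Ideal (P.A i) :=
  Ideal.span ((fun θ => Q.ev θ i) '' room_G Q 𝔭 M)

lemma room_H_le (𝔭 : P.Idl) (i : P.ι) (M : ℕ) : room_H Q 𝔭 i M ≤ Q.base i ^ M := by
  refine Ideal.span_le.2 ?_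
  rintro _ ⟨θ, hθ, rfl⟩
  exact room_ev_mem Q hθ.1 i

lemma room_H_succ (𝔭 : P.Idl) (i : P.ι) (M : ℕ) :
    room_H Q 𝔭 i M * Q.base i ≤ room_H Q 𝔭 i (M + 1) := by
  rw [room_H, Pol.base, Ideal.span_mul_span', Ideal.span_le]
  rintro _ ⟨_, ⟨θ, hθ, rfl⟩, _, ⟨j, rfl⟩, rfl⟩
  refine Ideal.subset_span ⟨θ * X j, ⟨hθ.1.mul (isHomogeneous_X k j), fun i' => ?_⟩, ?_⟩
  · rw [pow_succ, ← mul_assoc]
    have : Q.ev (θ * X j) i' = Q.ev θ i' * Q.f j i' := by simp [Pol.ev]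
    rw [this]
    exact Ideal.mul_mem_mul (hθ.2 i') (room_f_mem Q j i')
  · simp [Pol.ev]

lemma room_H_mul (𝔭 : P.Idl) (i : P.ι) (M c : ℕ) :
    room_H Q 𝔭 i M * Q.base i ^ c ≤ room_H Q 𝔭 i (M + c) := by
  induction c with
  | zero => simp
  | succ c ih =>
    rw [pow_succ, ← mul_assoc, ← add_assoc]
    exact (Ideal.mul_mono_left ih).trans (room_H_succ Q 𝔭 i _)

variable {K : Type u} [Field K] [Algebra k K]

/-- A form that is small along `𝔭` has a multiple of a power that vanishes along `𝔭`. -/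
lemma room_van (e : ∀ i, P.A i →ₐ[k] K) (he : ∀ i, Function.Injective (e i)) (𝔭 : P.Idl)
    {m : ℕ} {θ : MvPolynomial (Fin Q.r) k} (hθ : θ.IsHomogeneous m)
    (hw : ∀ i (w : Val k K), (∀ a, e i a ∈ w.O) → (∀ b ∈ 𝔭 i, w.v (e i b) < 1) →
      ∃ j, w.v (e i (Q.ev θ i)) < w.v (e i (Q.f j i)) ^ m) (j : Fin Q.r) :
    ∃ n, θ ^ n * X j ^ n ∈ room_G Q 𝔭 (n + m * n) := by
  have h1 : ∀ i, ∀ᶠ n in Filter.atTop,
      Q.ev θ i ^ n * Q.f j i ^ n ∈ 𝔭 i * Q.base i ^ (n + m * n) := fun i => by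
    refine room_key (e i) (he i) (Q.base i) (room_f_mem Q j i) (fun M => 𝔭 i * Q.base i ^ M)
      (fun M c => by rw [pow_add, mul_assoc]) (fun M => Ideal.mul_le_right) (room_ev_mem Q hθ i)
      fun _ w hA hle hlt => ?_
    obtain ⟨l, hl⟩ := hw i w hA fun b hb => by simpa using hlt 0 b (by simpa using hb)
    exact hl.trans_le (pow_le_pow_left₀ zero_le (hle _ (room_f_mem Q l i)) _)
  obtain ⟨n, hn⟩ := (Filter.eventually_all.2 h1).exists
  refine ⟨n, ?_, fun i => ?_⟩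
  · have := (hθ.pow n).mul ((isHomogeneous_X k j).pow n)
    rwa [one_mul, add_comm] at this
  · have : Q.ev (θ ^ n * X j ^ n) i = Q.ev θ i ^ n * Q.f j i ^ n := by simp [Pol.ev]
    rw [this]
    exact hn i

end pol

open MvPolynomial in
theorem Pol.Sep.room {k : Type u} [Field k] {P : PreRel k} {Q : Pol P} (h : Q.Sep) : Q.Room := by
  classical
  obtain ⟨K, _, _, e, he, h⟩ := h
  intro 𝔭 h𝔭 i₀ 𝔮 h𝔮 hn
  obtain ⟨b, hb, hb'⟩ := SetLike.not_le_iff_exists.1 hn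
  have h1 : ∀ j, ∀ᶠ n in Filter.atTop,
      b ^ n * Q.f j i₀ ^ n ∈ room_H Q 𝔭 i₀ (n + 0 * n) := fun j => by
    refine room_key (e i₀) (he i₀) (Q.base i₀) (room_f_mem Q j i₀) (room_H Q 𝔭 i₀)
      (room_H_mul Q 𝔭 i₀) (room_H_le Q 𝔭 i₀) (by simp) fun _ w hA _ hlt => ?_
    rw [pow_zero]
    refine (Val.v_le_one.2 (hA b)).lt_of_ne fun hb1 => ?_
    obtain ⟨m, -, θ, hθ, h2, h3⟩ := h 𝔭 h𝔭 i₀ w hA ⟨b, hb, hb1⟩
    obtain ⟨n, hn⟩ := room_van Q e he 𝔭 hθ h3 j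
    have h4 := hlt _ _ (Ideal.subset_span ⟨_, hn, rfl⟩)
    have h5 : Q.ev (θ ^ n * X j ^ n) i₀ = Q.ev θ i₀ ^ n * Q.f j i₀ ^ n := by simp [Pol.ev]
    simp only [h5, map_mul, map_pow] at h4
    refine h4.not_ge ?_
    rw [add_comm, pow_add, pow_mul]
    exact mul_le_mul_left (pow_le_pow_left₀ zero_le (h2 j) _) _
  obtain ⟨n, hn0, hn⟩ :=
    ((Filter.eventually_gt_atTop 0).and (Filter.eventually_all.2 h1)).exists
  obtain ⟨s, hs, hs'⟩ := (Submodule.fg_span_iff_fg_span_finset_subset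
    ((fun θ => Q.ev θ i₀) '' room_G Q 𝔭 n)).1 (IsNoetherian.noetherian
      (Submodule.span (P.A i₀) ((fun θ => Q.ev θ i₀) '' room_G Q 𝔭 n)))
  obtain ⟨Θ, hΘ, rfl⟩ := Finset.subset_set_image_iff.1 hs
  refine ⟨n, 0, Θ, hn0, fun θ hθ => hΘ hθ, b ^ n, fun hq => hb' (h𝔮.mem_of_pow_mem _ hq),
    fun j => Ideal.mem_sup_left ?_⟩
  have := hn j
  rw [zero_mul, add_zero, room_H, Ideal.span, hs', Finset.coe_image] at this
  rw [pow_zero, mul_one, zero_add]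
  exact this

end

end Pool.Agent.Lib.MP_1c03d5_ag
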