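import Pool.Agent.Lib.MP_1c03d5_ag.H97Defs

/-! TASK VAL: specialisation of curves, valuations. -/

namespace C03

universe u

open MvPolynomial

/-- Weak Nullstellensatz: a nonzero algebra of finite type has a rational point. -/
theorem val_exists_algHom (k A : Type u) [Field k] [IsAlgClosed k] [CommRing A] [Nontrivial A]
    [Algebra k A] [Algebra.FiniteType k A] : Nonempty (A →ₐ[k] k) := by
  obtain ⟨m, hm⟩ := Ideal.exists_maximal A
  let := Ideal.Quotient.field m
  have := finite_of_finite_type_of_isJacobsonRing k (A ⧸ m)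
  exact ⟨(IsAlgClosed.lift : (A ⧸ m) →ₐ[k] k).comp (Ideal.Quotient.mkₐ k m)⟩

theorem val_map_aeval {k A B : Type u} {ι : Type} [CommRing k] [CommRing A] [CommRing B] [Algebra k A]
    [Algebra k B] (f : A →ₐ[k] B) (σ : ι → Polynomial A) (p : MvPolynomial ι k) :
    (aeval σ p).map (f : A →+* B) = aeval (fun i => (σ i).map (f : A →+* B)) p :=
  comp_aeval_apply σ (Polynomial.mapAlgHom f) p

theorem NoRat.univ {k : Type u} {ι τ : Type} [Field k] [IsAlgClosed k] [Finite ι] {F : τ → MvPolynomial ι k}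
    {g : MvPolynomial ι k} (h : NoRat F g) : NoRatU F g := by
  classical
  intro L _ ψ σ hF hg i j a b
  let := ψ.toAlgebra
  have e : ∀ p : MvPolynomial ι k, aeval σ (map ψ p) = aeval σ p := fun p =>
    aeval_map_algebraMap L σ p
  simp only [e] at hF hg
  by_contra hne
  have hμ := sub_ne_zero.mpr hne
  obtain ⟨N, hN⟩ : ∃ N, (aeval σ g).coeff N ≠ 0 := ⟨_, Polynomial.leadingCoeff_ne_zero.mpr hg⟩
  have hS : (insert (((σ i).coeff a * (σ j).coeff b - (σ i).coeff b * (σ j).coeff a) *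
      (aeval σ g).coeff N)⁻¹ (⋃ l, ((σ l).coeffs : Set L))).Finite :=
    (Set.finite_iUnion fun l => (σ l).coeffs.finite_toSet).insert _
  let A := Algebra.adjoin k (insert (((σ i).coeff a * (σ j).coeff b -
    (σ i).coeff b * (σ j).coeff a) * (aeval σ g).coeff N)⁻¹ (⋃ l, ((σ l).coeffs : Set L)))
  have : Algebra.FiniteType k A := (Subalgebra.fg_iff_finiteType A).mp
    ⟨hS.toFinset, by rw [hS.coe_toFinset]⟩
  obtain ⟨χ⟩ := val_exists_algHom k A
  have hl : ∀ l, ∃ p : Polynomial A, p.map (A.val : A →+* L) = σ l := fun l => by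
    refine (Polynomial.mem_lifts _).mp ((Polynomial.lifts_iff_coeff_lifts _).mpr fun n => ?_)
    by_cases h0 : (σ l).coeff n = 0
    · exact ⟨0, by rw [h0, map_zero]⟩
    · exact ⟨⟨_, Algebra.subset_adjoin (Or.inr (Set.mem_iUnion.mpr
        ⟨l, Polynomial.coeff_mem_coeffs h0⟩))⟩, rfl⟩
  choose σ' hσ' using hl
  have e1 : ∀ p : MvPolynomial ι k, (aeval σ' p).map (A.val : A →+* L) = aeval σ p := fun p => by
    rw [val_map_aeval]
    simp only [hσ']
  have e2 : ∀ l n, ((σ' l).coeff n : L) = (σ l).coeff n := fun l n => by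
    rw [← hσ' l, Polynomial.coeff_map]
    rfl
  have e3 : ((aeval σ' g).coeff N : L) = (aeval σ g).coeff N := by
    rw [← e1, Polynomial.coeff_map]
    rfl
  have e4 : ((σ' i).coeff a * (σ' j).coeff b - (σ' i).coeff b * (σ' j).coeff a) *
      (aeval σ' g).coeff N * ⟨_, Algebra.subset_adjoin (Set.mem_insert _ _)⟩ = 1 := by
    apply Subtype.ext
    simp only [MulMemClass.coe_mul, AddSubgroupClass.coe_sub, e2, e3, OneMemClass.coe_one]
    exact mul_inv_cancel₀ (mul_ne_zero hμ hN)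
  have e5 := congrArg χ e4
  rw [map_mul, map_mul, map_one] at e5
  have e6 := left_ne_zero_of_mul_eq_one e5
  have key := h (fun l => (σ' l).map (χ : A →+* k)) (fun l => ?_) (fun h0 => ?_) i j a b
  · refine left_ne_zero_of_mul e6 ?_
    simp only [Polynomial.coeff_map, RingHom.coe_coe] at key
    rw [map_sub, map_mul, map_mul, key, sub_self]
  · have : aeval σ' (F l) = 0 := Polynomial.map_injective (A.val : A →+* L) Subtype.val_injective
      (by rw [e1, hF, Polynomial.map_zero])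
    rw [← val_map_aeval, this, Polynomial.map_zero]
  · refine right_ne_zero_of_mul e6 ?_
    have := congrArg (fun p : Polynomial k => p.coeff N) ((val_map_aeval χ σ' g).trans h0)
    simpa only [Polynomial.coeff_map, RingHom.coe_coe, Polynomial.coeff_zero] using this

theorem val_mem_of_alg {κ Ω : Type u} [Field κ] [Field Ω] [Algebra κ Ω] {O : ValuationSubring Ω}
    (hO : ∀ a : κ, algebraMap κ Ω a ∈ O) {x : Ω} (hx : IsAlgebraic κ x) : x ∈ O := by
  let : Algebra κ O := ((algebraMap κ Ω).codRestrict O hO).toAlgebra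
  have : IsScalarTower κ O Ω := IsScalarTower.of_algebraMap_eq fun _ => rfl
  obtain ⟨y, rfl⟩ := IsIntegrallyClosed.isIntegral_iff.mp
    (hx.isIntegral.tower_top : IsIntegral O x)
  exact y.2

theorem val_trivial {κ Ω : Type u} [Field κ] [Field Ω] [Algebra κ Ω] {O : ValuationSubring Ω}
    (hO : ∀ a : κ, algebraMap κ Ω a ∈ O) : O.valuation.IsTrivialOn κ := by
  refine ⟨fun a ha => le_antisymm ((O.valuation_le_one_iff _).mpr (hO a)) ?_⟩
  have h1 := (O.valuation_le_one_iff _).mpr (hO a⁻¹)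
  have h2 : O.valuation (algebraMap κ Ω a) ≠ 0 := by simpa using ha
  rw [map_inv₀, map_inv₀] at h1
  exact (inv_le_one₀ (zero_lt_iff.mpr h2)).mp h1

/-- Elements algebraic over `κ(t)` have value at most a power of the value of `t`. -/
theorem val_le_pow {κ Ω : Type u} [Field κ] [Field Ω] [Algebra κ Ω] {O : ValuationSubring Ω}
    (hO : ∀ a : κ, algebraMap κ Ω a ∈ O) {t : Ω} (ht : 1 < O.valuation t) {y : Ω}
    (hy : IsAlgebraic (Algebra.adjoin κ {t}) y) : ∃ M : ℕ, O.valuation y ≤ O.valuation t ^ M := by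
  have := val_trivial hO
  let S : Subring Ω :=
    { carrier := {z | ∃ M : ℕ, O.valuation z ≤ O.valuation t ^ M}
      mul_mem' := fun ⟨M, hM⟩ ⟨N, hN⟩ => ⟨M + N, by
        rw [map_mul, pow_add]
        exact mul_le_mul' hM hN⟩
      one_mem' := ⟨0, by simp⟩
      add_mem' := fun ⟨M, hM⟩ ⟨N, hN⟩ => ⟨max M N, O.valuation.map_add_le
        (hM.trans (pow_le_pow_right' ht.le (le_max_left _ _)))
        (hN.trans (pow_le_pow_right' ht.le (le_max_right _ _)))⟩
      zero_mem' := ⟨0, by simp⟩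
      neg_mem' := fun ⟨M, hM⟩ => ⟨M, by rwa [Valuation.map_neg]⟩ }
  have hS : O.toSubring ≤ S := fun z hz => ⟨0, by
    rw [pow_zero]
    exact (O.valuation_le_one_iff _).mpr hz⟩
  refine val_mem_of_alg (κ := IntermediateField.adjoin κ {t}) (O := O.ofLE S hS) ?_
    (IntermediateField.isAlgebraic_adjoin_iff.mpr hy)
  rintro ⟨z, hz⟩
  obtain ⟨p, q, rfl⟩ := (IntermediateField.mem_adjoin_simple_iff κ z).mp hz
  change ∃ M : ℕ, O.valuation (Polynomial.aeval t p / Polynomial.aeval t q) ≤ O.valuation t ^ M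
  by_cases hp : p = 0
  · exact ⟨0, by simp [hp]⟩
  by_cases hq : q = 0
  · exact ⟨0, by simp [hq]⟩
  refine ⟨p.natDegree, ?_⟩
  rw [map_div₀,
    Polynomial.valuation_aeval_eq_valuation_X_pow_natDegree_of_one_lt_valuation_X t ht hp,
    Polynomial.valuation_aeval_eq_valuation_X_pow_natDegree_of_one_lt_valuation_X t ht hq,
    div_eq_mul_inv]
  exact mul_le_of_le_one_right' (inv_le_one_of_one_le₀ (one_le_pow_of_one_le' ht.le _))

theorem val_exists_aux {κ Ω : Type u} [Field κ] [Field Ω] [Algebra κ Ω] {x : Ω}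
    (hx : Transcendental κ x) (halg : ∀ y : Ω, IsAlgebraic (Algebra.adjoin κ {x}) y) :
    ∃ O : ValuationSubring Ω, (∀ a : κ, algebraMap κ Ω a ∈ O) ∧
      x ∉ O ∧ ∀ u w : Ω, O.valuation u < 1 → ∃ l : ℕ, O.valuation u ^ l * O.valuation w < 1 := by
  have hx0 : x ≠ 0 := fun h => hx (h ▸ isAlgebraic_zero)
  let xi : (Algebra.adjoin κ {x⁻¹}).toSubring := ⟨x⁻¹, Algebra.subset_adjoin rfl⟩
  have hI : Ideal.span {xi} ≠ ⊤ := by
    intro h
    obtain ⟨⟨b, hb⟩, hb'⟩ := (Ideal.span_singleton_eq_top.mp h).exists_right_inv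
    have h1 : x⁻¹ * b = 1 := congrArg Subtype.val hb'
    obtain ⟨p, rfl⟩ : ∃ p, Polynomial.aeval x⁻¹ p = b := by
      have h2 : b ∈ Algebra.adjoin κ {x⁻¹} := hb
      rwa [Algebra.adjoin_singleton_eq_range_aeval] at h2
    refine hx (IsAlgebraic.inv_iff.mp ⟨Polynomial.X * p - 1, fun h0 => ?_, by simp [h1]⟩)
    simpa using congrArg (fun r : Polynomial κ => r.coeff 0) h0
  obtain ⟨O, hO1, hO2⟩ := Ideal.image_subset_nonunits_valuationSubring _ hI
  have hO : ∀ a : κ, algebraMap κ Ω a ∈ O := fun a =>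
    hO1 ((Algebra.adjoin κ {x⁻¹}).algebraMap_mem a)
  have hxO : x ∉ O :=
    (O.inv_mem_nonunits_iff.mp (hO2 ⟨xi, Ideal.subset_span rfl, rfl⟩)).resolve_left hx0
  have hx1 : 1 < O.valuation x := not_le.mp fun h => hxO ((O.valuation_le_one_iff _).mp h)
  refine ⟨O, hO, hxO, fun u w hu => ?_⟩
  by_cases hu0 : u = 0
  · exact ⟨1, by simp [hu0]⟩
  have hu1 : 0 < O.valuation u := zero_lt_iff.mpr (by simpa using hu0)
  have ht : 1 < O.valuation u⁻¹ := by
    rw [map_inv₀]
    exact (one_lt_inv₀ hu1).mpr hu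
  have htr : Transcendental κ u⁻¹ := fun h =>
    ht.not_ge ((O.valuation_le_one_iff _).mpr (val_mem_of_alg hO h))
  obtain ⟨M, hM⟩ := val_le_pow hO hx1 (halg w)
  obtain ⟨N, hN⟩ := val_le_pow hO ht (IsAlgebraic.adjoin_singleton hx htr (halg u⁻¹))
  have h1 : O.valuation w ≤ (O.valuation u ^ (N * M))⁻¹ := by
    rw [← inv_pow, pow_mul, ← map_inv₀]
    exact hM.trans (pow_le_pow_left' hN M)
  refine ⟨N * M + 1, lt_of_le_of_lt ?_ hu⟩
  calc O.valuation u ^ (N * M + 1) * O.valuation w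
      ≤ O.valuation u ^ (N * M + 1) * (O.valuation u ^ (N * M))⁻¹ := mul_le_mul_right h1 _
    _ = O.valuation u := by
      rw [pow_succ', mul_inv_cancel_right₀ (pow_ne_zero _ hu1.ne')]

/-- A rank one valuation, trivial on `κ`, with a pole at a given transcendental element. -/
theorem exists_val {κ Ω : Type u} [Field κ] [Field Ω] [Algebra κ Ω] {x : Ω}
    (hx : Transcendental κ x) : ∃ O : ValuationSubring Ω, (∀ a : κ, algebraMap κ Ω a ∈ O) ∧
      x ∉ O ∧ ∀ u w : Ω, O.valuation u < 1 → ∃ l : ℕ, O.valuation u ^ l * O.valuation w < 1 := by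
  obtain ⟨t, hxt, ht⟩ := exists_isTranscendenceBasis_superset (R := κ) (s := {x})
    ((algebraicIndependent_singleton_iff (x := fun y : ({x} : Set Ω) => id (y : Ω)) ⟨x, rfl⟩).mpr
      hx)
  let i : t := ⟨x, hxt rfl⟩
  let s : Set Ω := Subtype.val '' ({i}ᶜ : Set t)
  have h1 : Transcendental (IntermediateField.adjoin κ s) x :=
    IntermediateField.transcendental_adjoin_iff.mpr
      (ht.1.transcendental_adjoin (s := {i}ᶜ) (i := i) fun h => h rfl)
  have hle : Algebra.adjoin κ (Set.range ((↑) : t → Ω)) ≤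
      (Algebra.adjoin (IntermediateField.adjoin κ s) {x}).restrictScalars κ := by
    refine Algebra.adjoin_le ?_
    rintro _ ⟨j, rfl⟩
    by_cases hj : j = i
    · subst hj
      exact Algebra.subset_adjoin (R := IntermediateField.adjoin κ s) (s := {x}) rfl
    · exact (Algebra.adjoin (IntermediateField.adjoin κ s) {x}).algebraMap_mem
        ⟨j, IntermediateField.subset_adjoin κ s ⟨j, hj, rfl⟩⟩
  obtain ⟨O, hO, h2⟩ := val_exists_aux h1 fun y =>
    (ht.isAlgebraic.isAlgebraic y).tower_top_of_subalgebra_le hle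
  exact ⟨O, fun a => hO (algebraMap κ _ a), h2⟩

/-- Valuation rings extend to bigger fields. -/
theorem exists_val_ext {K Ω : Type u} [Field K] [Field Ω] [Algebra K Ω] (O : ValuationSubring K) :
    ∃ O' : ValuationSubring Ω, ∀ x y : K,
      O'.valuation (algebraMap K Ω x) ≤ O'.valuation (algebraMap K Ω y) ↔
        O.valuation x ≤ O.valuation y := by
  obtain ⟨O', h1, h2⟩ := IsLocalRing.exists_factor_valuationRing
    ((algebraMap K Ω).comp O.subtype)
  have key : (O'.valuation.comap (algebraMap K Ω)).IsEquiv O.valuation := by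
    refine Valuation.isEquiv_iff_val_le_one.mpr fun {x} => ?_
    rw [Valuation.comap_apply, O'.valuation_le_one_iff, O.valuation_le_one_iff]
    refine ⟨fun hx => by_contra fun hxO => ?_, fun hx => h1 ⟨x, hx⟩⟩
    have hx0 : x ≠ 0 := fun h => hxO (h ▸ O.zero_mem)
    have hi : x⁻¹ ∈ O := (O.mem_or_inv_mem x).resolve_left hxO
    have hu : IsUnit (⟨x⁻¹, hi⟩ : O) := by
      refine h2.map_nonunit _ (IsUnit.of_mul_eq_one ⟨algebraMap K Ω x, hx⟩ (Subtype.ext ?_))
      change algebraMap K Ω x⁻¹ * algebraMap K Ω x = 1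
      rw [← map_mul, inv_mul_cancel₀ hx0, map_one]
    obtain ⟨⟨b, hb⟩, hb'⟩ := hu.exists_right_inv
    have h3 : x⁻¹ * b = 1 := congrArg Subtype.val hb'
    rw [inv_mul_eq_one₀ hx0] at h3
    exact hxO (h3 ▸ hb)
  exact ⟨O', fun x y => key x y⟩

/-- Elements algebraic over a subfield of a valuation ring lie in it. -/
theorem mem_val_of_alg {κ Ω : Type u} [Field κ] [Field Ω] [Algebra κ Ω] {O : ValuationSubring Ω}
    (hO : ∀ a : κ, algebraMap κ Ω a ∈ O) {x : Ω} (hx : IsAlgebraic κ x) : x ∈ O :=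
  val_mem_of_alg hO hx

end C03
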