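import Pool.Agent.Lib.MP_1c03d5_ag.Rel
import Pool.Agent.Lib.MP_1c03d5_ag.H97Val

/-!
# TASK VAL: valuation rings over a field
-/

universe u

namespace Pool.Agent.Lib.MP_1c03d5_ag

noncomputable section

variable {k K K' : Type u} [Field k] [Field K] [Algebra k K] [Field K'] [Algebra k K']

lemma Val.v_le_one {w : Val k K} {x : K} : w.v x ≤ 1 ↔ x ∈ w.O := w.O.valuation_le_one_iff x

lemma Val.mem_sub {w : Val k K} {x : K} : x ∈ w.sub ↔ x ∈ w.O := Iff.rfl

lemma Val.mem_comap {w : Val k K'} {j : K →ₐ[k] K'} {x : K} : x ∈ (w.comap j).O ↔ j x ∈ w.O :=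
  Iff.rfl

lemma val_equiv (w : Val k K') (j : K →ₐ[k] K') :
    (w.comap j).v.IsEquiv (w.v.comap j.toRingHom) :=
  Valuation.isEquiv_iff_val_le_one.2 fun {_} =>
    Val.v_le_one.trans (Val.mem_comap.trans Val.v_le_one.symm)

lemma val_eq_one (w : Val k K) {x : K} (h0 : x ≠ 0) (h1 : x ∈ w.O) (h2 : x⁻¹ ∈ w.O) :
    w.v x = 1 := by
  refine le_antisymm (Val.v_le_one.2 h1) ?_
  have h3 := Val.v_le_one.2 h2
  rw [map_inv₀] at h3
  exact (inv_le_one₀ (zero_lt_iff.2 ((map_ne_zero _).2 h0))).1 h3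

lemma Val.comap_le_iff (w : Val k K') (j : K →ₐ[k] K') (x y : K) :
    (w.comap j).v x ≤ (w.comap j).v y ↔ w.v (j x) ≤ w.v (j y) := (val_equiv w j).le_iff_le

lemma Val.comap_lt_iff (w : Val k K') (j : K →ₐ[k] K') (x y : K) :
    (w.comap j).v x < (w.comap j).v y ↔ w.v (j x) < w.v (j y) := (val_equiv w j).lt_iff_lt

lemma Val.comap_eq_one_iff (w : Val k K') (j : K →ₐ[k] K') (x : K) :
    (w.comap j).v x = 1 ↔ w.v (j x) = 1 := (val_equiv w j).eq_one_iff_eq_one

lemma Val.comap_lt_one_iff (w : Val k K') (j : K →ₐ[k] K') (x : K) :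
    (w.comap j).v x < 1 ↔ w.v (j x) < 1 := (val_equiv w j).lt_one_iff_lt_one

lemma Val.v_algebraMap (w : Val k K) {c : k} (hc : c ≠ 0) : w.v (algebraMap k K c) = 1 :=
  val_eq_one w ((map_ne_zero _).2 hc) (w.hk c) (map_inv₀ (algebraMap k K) c ▸ w.hk c⁻¹)

lemma Val.v_smul_le (w : Val k K) (c : k) (x : K) : w.v (c • x) ≤ w.v x := by
  rw [Algebra.smul_def, map_mul]
  exact mul_le_of_le_one_left' (Val.v_le_one.2 (w.hk c))

/-- The trivial valuation. -/
lemma Val.exists_trivial : ∃ w : Val k K, ∀ x : K, x ≠ 0 → w.v x = 1 :=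
  ⟨⟨⊤, fun _ => ValuationSubring.mem_top _⟩, fun _ hx =>
    val_eq_one _ hx (ValuationSubring.mem_top _) (ValuationSubring.mem_top _)⟩

lemma Val.le_of_mem_span (w : Val k K) {s : Set K} {y : K} (h : ∀ z ∈ s, w.v z ≤ w.v y) {x : K}
    (hx : x ∈ Submodule.span k s) : w.v x ≤ w.v y := by
  induction hx using Submodule.span_induction with
  | mem z hz => exact h z hz
  | zero => simp
  | add a b _ _ ha hb => exact w.v.map_add_le ha hb
  | smul c a _ ha => exact (w.v_smul_le c a).trans ha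

lemma Val.exists_max (w : Val k K) {S : Submodule k K} (hS : S.FG) (h0 : S ≠ ⊥) :
    ∃ s ∈ S, s ≠ 0 ∧ ∀ x ∈ S, w.v x ≤ w.v s := by
  obtain ⟨t, rfl⟩ := hS
  rcases t.eq_empty_or_nonempty with rfl | ht
  · simp at h0
  obtain ⟨s, hs, h⟩ := t.exists_max_image w.v ht
  have h1 : ∀ x ∈ Submodule.span k (t : Set K), w.v x ≤ w.v s := fun x hx => w.le_of_mem_span h hx
  refine ⟨s, Submodule.subset_span hs, fun e => h0 ((Submodule.eq_bot_iff _).2 fun x hx => ?_), h1⟩
  simpa [e] using h1 x hx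

lemma Val.le_of_mem_mul (w : Val k K) {S T : Submodule k K} {s t : K} (hs : ∀ x ∈ S, w.v x ≤ w.v s)
    (ht : ∀ x ∈ T, w.v x ≤ w.v t) : ∀ x ∈ S * T, w.v x ≤ w.v (s * t) := fun _ hx =>
  Submodule.mul_induction_on hx (fun a ha b hb => by
    rw [map_mul, map_mul]
    exact mul_le_mul' (hs a ha) (ht b hb)) fun _ _ ha hb => w.v.map_add_le ha hb

lemma Val.le_of_mem_pow (w : Val k K) {S : Submodule k K} {s : K} (hs : ∀ x ∈ S, w.v x ≤ w.v s)
    (n : ℕ) : ∀ x ∈ S ^ n, w.v x ≤ w.v s ^ n := by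
  simp only [← map_pow]
  induction n with
  | zero =>
    intro x hx
    obtain ⟨c, rfl⟩ := Submodule.mem_one.1 (pow_zero S ▸ hx)
    rw [pow_zero, map_one]
    exact Val.v_le_one.2 (w.hk c)
  | succ n ih =>
    rw [pow_succ, pow_succ]
    exact w.le_of_mem_mul ih hs

lemma Val.adjoin_le (w : Val k K) {s : Set K} (h : ∀ z ∈ s, z ∈ w.O) :
    ∀ x ∈ Algebra.adjoin k s, x ∈ w.O := fun _ hx => Algebra.adjoin_le (S := w.sub) h hx

lemma Val.aeval_le (w : Val k K) {ι : Type*} {z : ι → K} {y : K} (h : ∀ i, w.v (z i) ≤ w.v y)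
    {n : ℕ} {G : MvPolynomial ι k} (hG : G.IsHomogeneous n) :
    w.v (MvPolynomial.aeval z G) ≤ w.v y ^ n := by
  rw [MvPolynomial.aeval_def, MvPolynomial.eval₂_eq]
  refine w.v.map_sum_le fun d hd => ?_
  rw [map_mul, map_prod, hG.degree_eq_sum_deg_support hd, ← Finset.prod_pow_eq_pow_sum]
  refine (mul_le_of_le_one_left' (Val.v_le_one.2 (w.hk _))).trans
    (Finset.prod_le_prod' fun i _ => ?_)
  rw [map_pow]
  exact pow_le_pow_left' (h i) _

theorem isIntegral_iff_val (R : Subalgebra k K) (x : K) :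
    IsIntegral R x ↔ ∀ w : Val k K, (∀ a ∈ R, a ∈ w.O) → x ∈ w.O := by
  refine ⟨fun hx w h => ?_, fun h => ?_⟩
  · let : Algebra R w.O := (R.val.toRingHom.codRestrict w.O fun a => h a a.2).toAlgebra
    have : IsScalarTower R w.O K := IsScalarTower.of_algebraMap_eq fun _ => rfl
    obtain ⟨y, rfl⟩ := IsIntegrallyClosed.isIntegral_iff.1 (hx.tower_top : IsIntegral w.O x)
    exact y.2
  · by_contra hx
    obtain ⟨V, h1, h2⟩ := Subring.exists_le_valuationSubring_of_isIntegrallyClosedIn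
      (R := (integralClosure R K).toSubring) (x := x) hx
    have h3 : ∀ a ∈ R, a ∈ V := fun a ha => h1 ((integralClosure R K).algebraMap_mem ⟨a, ha⟩)
    exact h2 (h ⟨V, fun c => h3 _ (R.algebraMap_mem c)⟩ h3)

/-- Version for a prime of the source containing the kernel. -/
theorem exists_val_centre' {A : Type u} [CommRing A] [Algebra k A] (φ : A →ₐ[k] K) (𝔭 : Ideal A)
    [𝔭.IsPrime] (h : RingHom.ker φ ≤ 𝔭) :
    ∃ w : Val k K, (∀ a, φ a ∈ w.O) ∧ ∀ a, w.v (φ a) < 1 ↔ a ∈ 𝔭 := by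
  have hu : ∀ y : 𝔭.primeCompl, IsUnit (φ.toRingHom y) := fun y =>
    IsUnit.mk0 _ fun e => y.2 (h e)
  let f : Localization.AtPrime 𝔭 →+* K := IsLocalization.lift hu
  have hf : ∀ a, f (algebraMap A _ a) = φ a := fun a => IsLocalization.lift_eq hu a
  obtain ⟨O, h1, h2⟩ := IsLocalRing.exists_factor_valuationRing f
  have h3 : ∀ a, φ a ∈ O := fun a => hf a ▸ h1 _
  refine ⟨⟨O, fun c => φ.commutes c ▸ h3 _⟩, h3, fun a => ?_⟩
  rw [← IsLocalization.AtPrime.to_map_mem_maximal_iff (Localization.AtPrime 𝔭) 𝔭 a, ← hf]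
  exact (O.valuation_lt_one_iff ⟨_, h1 _⟩).symm.trans
    (not_congr (isUnit_map_iff (f.codRestrict O.toSubring h1) _))

theorem exists_val_centre (R : Subalgebra k K) (𝔭 : Ideal R) [𝔭.IsPrime] :
    ∃ w : Val k K, (∀ a ∈ R, a ∈ w.O) ∧ ∀ a : R, w.v a < 1 ↔ a ∈ 𝔭 := by
  obtain ⟨w, h1, h2⟩ := exists_val_centre' R.val 𝔭 fun a ha => by
    rw [show a = 0 from Subtype.ext ha]
    exact 𝔭.zero_mem
  exact ⟨w, fun a ha => h1 ⟨a, ha⟩, h2⟩

theorem Val.exists_ext (j : K →ₐ[k] K') (w : Val k K) : ∃ w' : Val k K', w'.comap j = w := by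
  let : Algebra K K' := j.toRingHom.toAlgebra
  obtain ⟨O, h⟩ := C03.exists_val_ext (Ω := K') w.O
  have h1 : ∀ x, j x ∈ O ↔ x ∈ w.O := fun x => by
    have := h x 1
    rw [map_one, map_one, map_one, O.valuation_le_one_iff, w.O.valuation_le_one_iff] at this
    exact this
  exact ⟨⟨O, fun c => j.commutes c ▸ (h1 _).2 (w.hk c)⟩, Val.ext (SetLike.ext h1)⟩

theorem mem_range_of_val [IsAlgClosed k] {x : K} (h : ∀ w : Val k K, x ∈ w.O) :
    x ∈ (algebraMap k K).range := by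
  have hx : IsAlgebraic k x := by
    by_contra hx
    obtain ⟨O, h1, h2, -⟩ := C03.exists_val hx
    exact h2 (h ⟨O, h1⟩)
  exact minpoly.mem_range_of_degree_eq_one k x
    (IsAlgClosed.degree_eq_one_of_irreducible k (minpoly.irreducible hx.isIntegral))

open Polynomial in
lemma val_horner (q : K[X]) (x : K) : ∃ b : ℕ → K, b 0 = q.eval x ∧
    (∀ j, b j = q.coeff j + x * b (j + 1)) ∧
      ∀ S : Subring K, x ∈ S → (∀ i, q.coeff i ∈ S) → ∀ j, b j ∈ S := by
  have h1 : ∀ j i, (divX^[j] q).coeff i = q.coeff (i + j) := fun j => by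
    induction j with
    | zero => simp
    | succ j ih =>
      intro i
      rw [Function.iterate_succ_apply', coeff_divX, ih, add_right_comm, add_assoc]
  refine ⟨fun j => (divX^[j] q).eval x, rfl, fun j => ?_, fun S hx hq j => ?_⟩
  · have := congrArg (eval x) (X_mul_divX_add (divX^[j] q))
    rw [eval_add, eval_mul, eval_X, eval_C, h1, zero_add] at this
    simp only [Function.iterate_succ_apply']
    rw [← this, add_comm]
  · simp only [eval_eq_sum, Polynomial.sum, h1]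
    exact sum_mem fun i _ => mul_mem (hq _) (pow_mem hx _)

open Polynomial in
lemma val_scale (R : Subalgebra k K) (w : Val k K)
    (hloc : ∀ a ∈ R, ∀ b ∈ R, w.v a ≤ w.v b → ∃ a' ∈ R, ∃ b' ∈ R, w.v b' = 1 ∧ a * b' = a' * b)
    {x : K} (hx : IsAlgebraic R x) :
    ∃ q : K[X], q.eval x = 0 ∧ (∀ i, q.coeff i ∈ R) ∧ ∃ m, w.v (q.coeff m) = 1 := by
  classical
  obtain ⟨p, hp, h0⟩ := hx
  obtain ⟨m, hm, h1⟩ := p.support.exists_max_image (fun i => w.v (p.coeff i : K))
    (support_nonempty.2 hp)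
  have hm0 : (p.coeff m : K) ≠ 0 := fun e => mem_support_iff.1 hm (Subtype.ext e)
  choose! a ha b hb h2 h3 using fun i (hi : i ∈ p.support) =>
    hloc _ (p.coeff i).2 _ (p.coeff m).2 (h1 i hi)
  refine ⟨C ((∏ i ∈ p.support, b i) / p.coeff m) * p.map (algebraMap R K), ?_, fun i => ?_, m, ?_⟩
  · rw [eval_mul, eval_map_algebraMap, h0, mul_zero]
  · rw [coeff_C_mul, coeff_map]
    by_cases hi : i ∈ p.support
    · have e : (∏ l ∈ p.support, b l) / p.coeff m * algebraMap R K (p.coeff i) =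
          (∏ l ∈ p.support.erase i, b l) * a i := by
        rw [← Finset.prod_erase_mul _ _ hi, div_mul_eq_mul_div, div_eq_iff hm0, mul_assoc,
          mul_assoc, ← h3 i hi, mul_comm (b i)]
        rfl
      rw [e]
      exact mul_mem (prod_mem fun l hl => hb l (Finset.mem_of_mem_erase hl)) (ha i hi)
    · rw [notMem_support_iff.1 hi, map_zero, mul_zero]
      exact zero_mem _
  · rw [coeff_C_mul, coeff_map, show algebraMap R K (p.coeff m) = p.coeff m from rfl,
      div_mul_cancel₀ _ hm0, map_prod]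
    exact Finset.prod_eq_one h2

/-- Valuation rings above a valuation ring are localisations of the integral closure. -/
theorem vloc (R : Subalgebra k K) (w : Val k K) (hR : ∀ a ∈ R, a ∈ w.O)
    (hloc : ∀ a ∈ R, ∀ b ∈ R, w.v a ≤ w.v b → ∃ a' ∈ R, ∃ b' ∈ R, w.v b' = 1 ∧ a * b' = a' * b)
    {x : K} (hx : IsAlgebraic R x) (hw : x ∈ w.O) :
    ∃ b, w.v b = 1 ∧ IsIntegral R b ∧ IsIntegral R (b * x) ∧
      b ∈ Algebra.adjoin k (insert x (R : Set K)) := by
  obtain ⟨q, h0, h1, m, hm⟩ := val_scale R w hloc hx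
  obtain ⟨b, b0, b1, b2⟩ := val_horner q x
  have k1 : ∀ w' : Val k K, (∀ a ∈ R, a ∈ w'.O) → ∀ j, b j ∈ w'.O := fun w' h j => by
    rcases w'.O.mem_or_inv_mem x with hx | hx
    · exact b2 w'.O.toSubring hx (fun i => h _ (h1 i)) j
    by_cases hx0 : x = 0
    · exact b2 w'.O.toSubring (hx0 ▸ zero_mem _) (fun i => h _ (h1 i)) j
    induction j with
    | zero =>
      rw [b0, h0]
      exact zero_mem _
    | succ j ih =>
      have e : b (j + 1) = x⁻¹ * (b j - q.coeff j) := by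
        rw [b1 j, add_sub_cancel_left, inv_mul_cancel_left₀ hx0]
      rw [e]
      exact mul_mem hx (sub_mem ih (h _ (h1 j)))
  have k2 : ∀ w' : Val k K, (∀ a ∈ R, a ∈ w'.O) → ∀ j, b j * x ∈ w'.O := fun w' h j => by
    rcases j with _ | j
    · rw [b0, h0, zero_mul]
      exact zero_mem _
    · rw [mul_comm, eq_sub_of_add_eq' (b1 j).symm]
      exact sub_mem (k1 w' h j) (h _ (h1 j))
  obtain ⟨j, hj⟩ : ∃ j, w.v (b j) = 1 := by
    by_contra! hn
    have k3 : ∀ j, w.v (b j) < 1 := fun j => (Val.v_le_one.2 (k1 w hR j)).lt_of_ne (hn j)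
    rw [eq_sub_of_add_eq (b1 m).symm] at hm
    refine (w.v.map_sub_lt (k3 m) ?_).ne hm
    rw [map_mul]
    exact (mul_le_of_le_one_left' (Val.v_le_one.2 hw)).trans_lt (k3 _)
  exact ⟨b j, hj, (isIntegral_iff_val R _).2 fun w' h => k1 w' h j,
    (isIntegral_iff_val R _).2 fun w' h => k2 w' h j,
    b2 (Algebra.adjoin k (insert x (R : Set K))).toSubring
      (Algebra.subset_adjoin (Set.mem_insert _ _))
      (fun i => Algebra.subset_adjoin (Set.mem_insert_of_mem _ (h1 i))) j⟩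

lemma val_coeff [Algebra K K'] [IsScalarTower k K K'] (R : Subalgebra k K) {b : K'}
    (h : IsIntegral (R.map (IsScalarTower.toAlgHom k K K')) b) :
    IsIntegral K b ∧ ∀ i, IsIntegral R ((minpoly K b).coeff i) := by
  let e := R.equivMapOfInjective (IsScalarTower.toAlgHom k K K') (algebraMap K K').injective
  have h1 : IsIntegral R b := h.map_of_comp_eq e.symm.toRingEquiv.toRingHom (RingHom.id K') (by
    ext a
    obtain ⟨a, rfl⟩ := e.surjective a
    exact congrArg (fun y : R => algebraMap K K' y) (e.symm_apply_apply a))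
  have h2 : IsIntegral K b := h1.tower_top
  exact ⟨h2, fun i => Polynomial.isIntegral_coeff_of_dvd _ _ (minpoly.monic h1) (minpoly.monic h2)
    (minpoly.dvd_map_of_isScalarTower R K b) i⟩

/-- Descent of a localisation statement to a normal subring. -/
theorem vloc_desc (j : K →ₐ[k] K') (R : Subalgebra k K)
    (hn : ∀ x : K, IsIntegral R x → x ∈ R) (hf : IntermediateField.adjoin k (R : Set K) = ⊤)
    (w : Val k K') (hR : ∀ a ∈ R, j a ∈ w.O) {x : K} {b : K'} (hb : w.v b = 1)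
    (h1 : IsIntegral (R.map j) b) (h2 : IsIntegral (R.map j) (b * j x)) :
    ∃ c ∈ R, w.v (j c) = 1 ∧ c * x ∈ R := by
  have _ := hf
  by_cases hx : x = 0
  · exact ⟨1, one_mem _, by simp, by simp [hx]⟩
  let : Algebra K K' := j.toRingHom.toAlgebra
  have : IsScalarTower k K K' := IsScalarTower.of_algebraMap_eq fun c => (j.commutes c).symm
  obtain ⟨k1, k2⟩ := val_coeff R (b := b) h1
  obtain ⟨-, k3⟩ := val_coeff R (b := x • b) (by
    rw [Algebra.smul_def, mul_comm]
    exact h2)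
  simp only [IsIntegrallyClosed.minpoly_smul hx k1, Polynomial.coeff_scaleRoots] at k3
  obtain ⟨i, hi, hv⟩ : ∃ i < (minpoly K b).natDegree, w.v (j ((minpoly K b).coeff i)) = 1 := by
    by_contra! hc
    have e := minpoly.aeval K b
    rw [Polynomial.aeval_eq_sum_range, Finset.sum_range_succ, (minpoly.monic k1).coeff_natDegree,
      one_smul, add_eq_zero_iff_eq_neg] at e
    have e1 := w.v.map_sum_lt (s := Finset.range (minpoly K b).natDegree)
      (f := fun i => (minpoly K b).coeff i • b ^ i) one_ne_zero fun i hi => by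
        rw [Algebra.smul_def, map_mul, map_pow, hb, one_pow, mul_one]
        exact (Val.v_le_one.2 (hR _ (hn _ (k2 i)))).lt_of_ne (hc i (Finset.mem_range.1 hi))
    rw [e, Valuation.map_neg, map_pow, hb, one_pow] at e1
    exact e1.false
  refine ⟨_, hn _ (k2 i), hv, hn _ (IsIntegral.of_pow (Nat.sub_pos_of_lt hi) ?_)⟩
  obtain ⟨n, hn'⟩ := Nat.exists_eq_add_one_of_ne_zero (Nat.sub_pos_of_lt hi).ne'
  have k4 := ((k2 i).pow n).mul (k3 i)
  rw [hn'] at k4 ⊢
  rwa [mul_pow, pow_succ _ n, mul_assoc]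

/-- In an algebraic extension some power of a value comes from below. -/
theorem Val.exists_pow_eq (w : Val k K) (F : IntermediateField k K) {x : K} (hx : IsAlgebraic F x)
    (h0 : x ≠ 0) : ∃ n, 0 < n ∧ ∃ y ∈ F, w.v x ^ n = w.v y := by
  classical
  obtain ⟨p, hp, h1⟩ := hx
  have hv : w.v x ≠ 0 := (map_ne_zero _).2 h0
  have hc : ∀ i ∈ p.support, w.v (p.coeff i : K) ≠ 0 := fun i hi =>
    (map_ne_zero _).2 fun e => Polynomial.mem_support_iff.1 hi (Subtype.ext e)
  have key : ∀ i j, i < j → j ∈ p.support →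
      w.v ((p.coeff i : K) * x ^ i) = w.v ((p.coeff j : K) * x ^ j) →
      ∃ n, 0 < n ∧ ∃ y ∈ F, w.v x ^ n = w.v y := fun i j hij hj e => by
    obtain ⟨n, rfl⟩ := Nat.exists_eq_add_of_lt hij
    refine ⟨n + 1, n.succ_pos, _, div_mem (p.coeff i).2 (p.coeff (i + n + 1)).2, ?_⟩
    rw [map_mul, map_mul, map_pow, map_pow, add_assoc, pow_add, mul_left_comm, mul_comm] at e
    rw [map_div₀, eq_div_iff (hc _ hj), mul_left_cancel₀ (pow_ne_zero i hv) e, mul_comm, add_assoc]
  obtain ⟨m, hm, h2⟩ := p.support.exists_max_image (fun i => w.v ((p.coeff i : K) * x ^ i))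
    (Polynomial.support_nonempty.2 hp)
  by_contra hn
  have h3 := w.v.map_sum_eq_of_lt (f := fun i => (p.coeff i : K) * x ^ i) hm fun i hi => by
    obtain ⟨hi, him⟩ := Finset.mem_sdiff.1 hi
    refine (h2 i hi).lt_of_ne fun e => hn ?_
    rcases lt_or_gt_of_ne (Finset.notMem_singleton.1 him) with h | h
    · exact key i m h hm e
    · exact key m i h hi e.symm
  rw [Polynomial.aeval_def, Polynomial.eval₂_eq_sum, Polynomial.sum] at h1
  rw [show ∑ i ∈ p.support, (p.coeff i : K) * x ^ i = 0 from h1, map_zero, map_mul, map_pow] at h3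
  exact mul_ne_zero (hc m hm) (pow_ne_zero m hv) h3.symm

end

end Pool.Agent.Lib.MP_1c03d5_ag
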