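import Pool.Agent.Lib.MP_1c03d5_ag.Eqs
import Pool.Agent.Lib.MP_1c03d5_ag.Val
import Pool.Agent.Lib.MP_1c03d5_ag.Norm

/-!
# TASK DIV2: divisorial valuations restrict and are essentially of finite type
-/

universe u

namespace Pool.Agent.Lib.MP_1c03d5_ag

noncomputable section

open MvPolynomial

variable {k K : Type u} [Field k] [Field K] [Algebra k K]

/-- The maximal ideal of the valuation ring. -/
def div2_m (w : Val k K) : Ideal w.sub where
  carrier := {x | w.v x < 1}
  add_mem' ha hb := w.v.map_add_lt ha hb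
  zero_mem' := by simp
  smul_mem' c x hx := by
    have h1 : w.v c ≤ 1 := Val.v_le_one.2 c.2
    have h2 : w.v x < 1 := hx
    change w.v (c * x) < 1
    rw [map_mul]
    exact mul_lt_one_of_nonneg_of_lt_one_right h1 zero_le h2

lemma div2_mem {w : Val k K} {x : w.sub} : x ∈ div2_m w ↔ w.v x < 1 := Iff.rfl

lemma div2_ne {w : Val k K} {x : w.sub} : Ideal.Quotient.mk (div2_m w) x ≠ 0 ↔ w.v x = 1 := by
  rw [Ne, Ideal.Quotient.eq_zero_iff_mem, div2_mem, not_lt]
  exact ⟨le_antisymm (Val.v_le_one.2 x.2), fun h => h.ge⟩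

lemma div2_prime (w : Val k K) : (div2_m w).IsPrime where
  ne_top' := by
    rw [Ideal.ne_top_iff_one, div2_mem]
    simp
  mem_or_mem' {x y} h := by
    by_contra hn
    simp only [div2_mem, not_or, not_lt] at hn
    rw [div2_mem, Subalgebra.coe_mul, map_mul] at h
    exact absurd h (not_lt.2 (one_le_mul hn.1 hn.2))

/-- Setting the first variable to zero. -/
def div2_pi (k : Type u) [Field k] (n : ℕ) :
    MvPolynomial (Fin (n + 1)) k →ₐ[k] MvPolynomial (Fin n) k :=
  aeval (Fin.cons 0 X : Fin (n + 1) → MvPolynomial (Fin n) k)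

lemma div2_dvd_sub {n : ℕ} (G : MvPolynomial (Fin (n + 1)) k) :
    X 0 ∣ G - rename Fin.succ (div2_pi k n G) := by
  induction G using MvPolynomial.induction_on with
  | C a => simp [div2_pi]
  | add p q hp hq =>
    rw [map_add, map_add, add_sub_add_comm]
    exact dvd_add hp hq
  | mul_X p i hp =>
    refine Fin.cases ?_ (fun j => ?_) i
    · simp [div2_pi]
    · have : div2_pi k n (X j.succ) = X j := by simp [div2_pi]
      rw [map_mul, map_mul, this, rename_X, ← sub_mul]
      exact hp.mul_right _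

lemma div2_dvd_iff {n : ℕ} {G : MvPolynomial (Fin (n + 1)) k} : X 0 ∣ G ↔ div2_pi k n G = 0 := by
  constructor
  · rintro ⟨H, rfl⟩
    simp [div2_pi]
  · intro h
    simpa [h] using div2_dvd_sub G

lemma div2_pi_rename {n : ℕ} (G : MvPolynomial (Fin n) k) :
    div2_pi k n (rename Fin.succ G) = G := by
  rw [div2_pi, aeval_rename]
  exact aeval_X_left_apply G

lemma div2_key {w : Val k K} {n : ℕ} (y : Fin (n + 1) → w.sub) (h0 : w.v (y 0) < 1) :
    (∀ G : MvPolynomial (Fin (n + 1)) k, ¬ X 0 ∣ G → w.v (aeval (fun i => (y i : K)) G) = 1) ↔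
      AlgebraicIndependent k fun i : Fin n => Ideal.Quotient.mk (div2_m w) (y i.succ) := by
  have e1 : ∀ G : MvPolynomial (Fin (n + 1)) k,
      aeval (fun i => (y i : K)) G = ((aeval y G : w.sub) : K) := fun G =>
    (comp_aeval_apply y w.sub.val G).symm
  have e2 : ∀ G : MvPolynomial (Fin (n + 1)) k, Ideal.Quotient.mk (div2_m w) (aeval y G) =
      aeval (fun i : Fin n => Ideal.Quotient.mk (div2_m w) (y i.succ)) (div2_pi k n G) := by
    intro G
    have : (Ideal.Quotient.mkₐ k (div2_m w)).comp (aeval y) =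
        (aeval fun i : Fin n => Ideal.Quotient.mk (div2_m w) (y i.succ)).comp (div2_pi k n) := by
      refine algHom_ext fun i => ?_
      refine Fin.cases ?_ (fun j => ?_) i
      · simpa [div2_pi, Ideal.Quotient.eq_zero_iff_mem, div2_mem] using h0
      · simp [div2_pi]
    exact DFunLike.congr_fun this G
  rw [algebraicIndependent_iff]
  simp only [e1, ← div2_ne, e2, div2_dvd_iff]
  constructor
  · intro h G hG
    by_contra hn
    refine h (rename Fin.succ G) ?_ ?_
    · rwa [div2_pi_rename]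
    · rwa [div2_pi_rename]
  · exact fun h G hG h1 => hG (h _ h1)

lemma div2_factor {n : ℕ} {G : MvPolynomial (Fin (n + 1)) k} (hG : G ≠ 0) :
    ∃ (i : ℕ) (H : MvPolynomial (Fin (n + 1)) k), ¬ X 0 ∣ H ∧ G = X 0 ^ i * H := by
  refine WfDvdMonoid.max_power_factor' hG fun h => ?_
  have := h.map (div2_pi k n)
  simp [div2_pi] at this

lemma div2_alg (F : IntermediateField k K) [Algebra.IsAlgebraic F K] (w : Val k K) :
    Algebra.IsAlgebraic (Algebra.adjoin k (Ideal.Quotient.mk (div2_m w) '' {x | (x : K) ∈ F}))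
      (w.sub ⧸ div2_m w) := by
  refine ⟨fun z => ?_⟩
  obtain ⟨x, rfl⟩ := Ideal.Quotient.mk_surjective z
  obtain ⟨P, hP, hx⟩ := Algebra.IsAlgebraic.isAlgebraic (R := F) (x : K)
  obtain ⟨j, hj, hm⟩ := P.support.exists_max_image (fun i => w.v (P.coeff i : K))
    (Polynomial.support_nonempty.2 hP)
  have hj0 : (P.coeff j : K) ≠ 0 := by
    simpa using Polynomial.mem_support_iff.1 hj
  have hc : ∀ i, (P.coeff i : K) / P.coeff j ∈ w.sub := fun i => by
    rw [Val.mem_sub, ← Val.v_le_one, map_div₀]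
    refine div_le_one_of_le₀ ?_ zero_le
    by_cases hi : i ∈ P.support
    · exact hm i hi
    · simp [Polynomial.notMem_support_iff.1 hi]
  let c : ℕ → Algebra.adjoin k (Ideal.Quotient.mk (div2_m w) '' {x | (x : K) ∈ F}) := fun i =>
    ⟨Ideal.Quotient.mk _ ⟨_, hc i⟩,
      Algebra.subset_adjoin ⟨_, F.div_mem (P.coeff i).2 (P.coeff j).2, rfl⟩⟩
  refine ⟨∑ i ∈ P.support, Polynomial.monomial i (c i), fun h => ?_, ?_⟩
  · have h1 := congrArg (fun Q => Polynomial.coeff Q j) h
    simp only [Polynomial.finsetSum_coeff, Polynomial.coeff_monomial, Finset.sum_ite_eq', hj,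
      if_true, Polynomial.coeff_zero] at h1
    have h2 : Ideal.Quotient.mk (div2_m w) ⟨_, hc j⟩ = 0 := congrArg Subtype.val h1
    refine div2_ne.2 ?_ h2
    simp [div_self hj0]
  · have h1 : ∑ i ∈ P.support, (⟨_, hc i⟩ : w.sub) * x ^ i = 0 := by
      apply Subtype.ext
      rw [Polynomial.aeval_def, Polynomial.eval₂_eq_sum, Polynomial.sum_def] at hx
      have h2 : ∑ i ∈ P.support, (P.coeff i : K) * (x : K) ^ i = 0 := hx
      simp only [AddSubmonoidClass.coe_finsetSum, Subalgebra.coe_mul, Subalgebra.coe_pow,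
        Subalgebra.coe_zero, div_mul_eq_mul_div]
      rw [← Finset.sum_div, h2, zero_div]
    have h2 := congrArg (Ideal.Quotient.mk (div2_m w)) h1
    rw [map_sum, map_zero] at h2
    rw [map_sum, ← h2]
    refine Finset.sum_congr rfl fun i _ => ?_
    rw [Polynomial.aeval_monomial, map_mul, map_pow]
    rfl

variable [Algebra.EssFiniteType k K]

theorem IsDiv.comap (F : IntermediateField k K) [Algebra.IsAlgebraic F K] {w : Val k K}
    (h : IsDiv w) : IsDiv (w.comap F.val) := by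
  obtain ⟨n, y, hy, hO, h0, hG⟩ := h
  have := div2_prime w
  have := div2_alg F w
  have h1 := (div2_key (w := w) (fun i => ⟨y i, hO i⟩) h0).1 hG
  obtain ⟨t, ht, hb⟩ := exists_isTranscendenceBasis_subset (R := k)
    (Ideal.Quotient.mk (div2_m w) '' {x | (x : K) ∈ F})
  have h2 := h1.lift_cardinalMk_le_trdeg
  rw [← hb.cardinalMk_eq_trdeg] at h2
  obtain ⟨e⟩ := Cardinal.lift_mk_le'.1 h2
  choose z hz hz' using fun i : Fin n => ht (e i).2
  obtain ⟨m, hm, y0, hy0, hv⟩ := w.exists_pow_eq F (Algebra.IsAlgebraic.isAlgebraic (y 0))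
    (hy.1.ne_zero 0)
  have hv1 : w.v y0 < 1 := hv ▸ pow_lt_one₀ zero_le h0 hm.ne'
  have hv0 : y0 ≠ 0 := by
    rintro rfl
    rw [map_zero] at hv
    exact hy.1.ne_zero 0 (by simpa using eq_zero_of_pow_eq_zero hv)
  let Y : Fin (n + 1) → w.sub := Fin.cons ⟨y0, Val.v_le_one.1 hv1.le⟩ z
  have hY : ∀ i, (Y i : K) ∈ F := fun i => Fin.cases hy0 hz i
  have h3 := (div2_key Y hv1).2 (by
    have : (fun i : Fin n => Ideal.Quotient.mk (div2_m w) (Y i.succ)) = Subtype.val ∘ e :=
      funext hz'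
    rw [this]
    exact hb.1.comp e e.injective)
  have e1 : ∀ G : MvPolynomial (Fin (n + 1)) k,
      F.val (aeval (fun i => (⟨Y i, hY i⟩ : F)) G) = aeval (fun i => (Y i : K)) G := fun G =>
    comp_aeval_apply _ F.val G
  refine ⟨n, fun i => ⟨Y i, hY i⟩, ?_, fun i => (Y i).2, (w.comap_lt_one_iff _ _).2 hv1,
    fun G hG => (w.comap_eq_one_iff _ _).2 (by rw [e1]; exact h3 G hG)⟩
  refine AlgebraicIndependent.isTranscendenceBasis_of_lift_trdeg_le_of_finite ?_ ?_
  · rw [algebraicIndependent_iff]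
    intro G hG0
    by_contra hn
    obtain ⟨i, H, hH, rfl⟩ := div2_factor hn
    have h4 := congrArg F.val hG0
    rw [e1, map_zero, map_mul, map_pow, aeval_X] at h4
    rcases mul_eq_zero.1 h4 with h5 | h5
    · exact hv0 (eq_zero_of_pow_eq_zero h5)
    · simpa [h5] using h3 H hH
  · rw [hy.lift_cardinalMk_eq_trdeg, ← trdeg_add_eq k F (A := K)]
    exact Cardinal.lift_le.2 le_self_add

variable (p : ℕ) [Fact p.Prime] [CharP k p] [IsAlgClosed k]

include p

/-- A divisorial valuation ring is essentially of finite type. -/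
theorem IsDiv.exists_finset {w : Val k K} (h : IsDiv w) : ∃ Z : Finset K, (∀ x ∈ Z, x ∈ w.O) ∧
    ∀ x ∈ w.O, ∃ a ∈ Algebra.adjoin k (Z : Set K), ∃ b ∈ Algebra.adjoin k (Z : Set K),
      w.v b = 1 ∧ x * b = a := by
  classical
  obtain ⟨n, y, hy, hO, h0, hG⟩ := h
  have := hy.isAlgebraic
  have hR : ∀ a ∈ Algebra.adjoin k (Set.range y), a ∈ w.O :=
    w.adjoin_le (by rintro _ ⟨i, rfl⟩; exact hO i)
  obtain ⟨s, hs, hs'⟩ := exists_finset_integral p (Algebra.adjoin k (Set.range y))
    ⟨Finset.univ.image y, by simp⟩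
  have hy0 : w.v (y 0) ≠ 0 := by simpa using hy.1.ne_zero 0
  have hmem : ∀ G : MvPolynomial (Fin (n + 1)) k, aeval y G ∈ Algebra.adjoin k (Set.range y) :=
    fun G => by rw [Algebra.adjoin_range_eq_range_aeval]; exact ⟨G, rfl⟩
  have hloc : ∀ a ∈ Algebra.adjoin k (Set.range y), ∀ b ∈ Algebra.adjoin k (Set.range y),
      w.v a ≤ w.v b → ∃ a' ∈ Algebra.adjoin k (Set.range y), ∃ b' ∈ Algebra.adjoin k (Set.range y),
        w.v b' = 1 ∧ a * b' = a' * b := by
    intro a ha b hb hab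
    by_cases ha0 : a = 0
    · exact ⟨0, zero_mem _, 1, one_mem _, map_one _, by simp [ha0]⟩
    have hb0 : b ≠ 0 := by
      rintro rfl
      exact ha0 (by simpa using hab)
    rw [Algebra.adjoin_range_eq_range_aeval] at ha hb
    obtain ⟨A, rfl⟩ := ha
    obtain ⟨B, rfl⟩ := hb
    obtain ⟨i, A', hA, rfl⟩ := div2_factor (G := A) (by rintro rfl; simp at ha0)
    obtain ⟨j, B', hB, rfl⟩ := div2_factor (G := B) (by rintro rfl; simp at hb0)
    simp only [AlgHom.toRingHom_eq_coe, RingHom.coe_coe, map_mul, map_pow, aeval_X, hG A' hA,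
      hG B' hB, mul_one] at hab ⊢
    obtain ⟨l, rfl⟩ := Nat.exists_eq_add_of_le
      ((pow_le_pow_iff_right_of_lt_one₀ (zero_lt_iff.2 hy0) h0).1 hab)
    refine ⟨aeval y (X 0 ^ l * A'), hmem _, aeval y B', hmem _, hG B' hB, ?_⟩
    simp only [map_mul, map_pow, aeval_X]
    ring
  have hle : ∀ x, IsIntegral (Algebra.adjoin k (Set.range y)) x →
      x ∈ Algebra.adjoin k ((Finset.univ.image y ∪ s : Finset K) : Set K) := fun x hx => by
    refine Submodule.span_induction (fun z hz => Algebra.subset_adjoin (by simp [hz]))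
      (zero_mem _) (fun _ _ _ _ => add_mem) (fun c z _ hz => mul_mem ?_ hz) (hs' x hx)
    exact Algebra.adjoin_mono (by rintro _ ⟨i, rfl⟩; simp) c.2
  refine ⟨Finset.univ.image y ∪ s, fun x hx => ?_, fun x hx => ?_⟩
  · rcases Finset.mem_union.1 hx with h | h
    · obtain ⟨i, -, rfl⟩ := Finset.mem_image.1 h
      exact hO i
    · exact (isIntegral_iff_val _ x).1 (hs x h) w hR
  · obtain ⟨b, h1, h2, h3, -⟩ := vloc _ w hR hloc (Algebra.IsAlgebraic.isAlgebraic x) hx
    exact ⟨_, hle _ h3, b, hle _ h2, h1, mul_comm _ _⟩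

end

end Pool.Agent.Lib.MP_1c03d5_ag
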