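import Pool.Agent.Lib.MP_1c03d5_ag.Div1
import Pool.Agent.Lib.MP_1c03d5_ag.Div2

/-!
# TASK DIV3: a model on which all divisorial valuations are visible
-/

universe u

namespace Pool.Agent.Lib.MP_1c03d5_ag

noncomputable section

section aux

variable {k E : Type u} [Field k] [Field E] [Algebra k E]

/-- The valuation ring is a local ring of the projective model given by the set `Z`. -/
def div3_ML (Z : Set E) (w : Val k E) : Prop :=
  ∃ z₀ ∈ Z, z₀ ≠ 0 ∧ (∀ z ∈ Z, w.v z ≤ w.v z₀) ∧ ∀ x ∈ w.O,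
    ∃ a ∈ Algebra.adjoin k ((fun z => z / z₀) '' Z),
      ∃ b ∈ Algebra.adjoin k ((fun z => z / z₀) '' Z), w.v b = 1 ∧ x * b = a

lemma div3_of_loc {Z : Set E} {w : Val k E} (h1 : (1 : E) ∈ Z) (hO : ∀ z ∈ Z, z ∈ w.O)
    (h : ∀ x ∈ w.O, ∃ a ∈ Algebra.adjoin k Z, ∃ b ∈ Algebra.adjoin k Z, w.v b = 1 ∧ x * b = a) :
    div3_ML Z w := by
  refine ⟨1, h1, one_ne_zero, fun z hz => ?_, ?_⟩
  · rw [map_one]
    exact Val.v_le_one.2 (hO z hz)
  · simpa using h

lemma div3_mul {Z Z' : Set E} {w : Val k E} (hZ' : Z'.Finite) (h1 : (1 : E) ∈ Z')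
    (h : div3_ML Z w) : div3_ML (Set.image2 (· * ·) Z Z') w := by
  obtain ⟨z₀, hz₀, hn, hmax, hloc⟩ := h
  obtain ⟨y₀, hy₀, hy⟩ := Set.exists_max_image Z' (fun y => w.v y) hZ' ⟨1, h1⟩
  have hyn : y₀ ≠ 0 := by
    rintro rfl
    have := hy 1 h1
    simp at this
  have hle : Algebra.adjoin k ((fun z => z / z₀) '' Z) ≤
      Algebra.adjoin k ((fun z => z / (z₀ * y₀)) '' Set.image2 (· * ·) Z Z') := by
    refine Algebra.adjoin_mono ?_
    rintro _ ⟨z, hz, rfl⟩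
    exact ⟨z * y₀, Set.mem_image2_of_mem hz hy₀, mul_div_mul_right _ _ hyn⟩
  refine ⟨z₀ * y₀, Set.mem_image2_of_mem hz₀ hy₀, mul_ne_zero hn hyn, ?_, fun x hx => ?_⟩
  · rintro _ ⟨z, hz, y, hy', rfl⟩
    simp only [map_mul]
    exact mul_le_mul' (hmax z hz) (hy y hy')
  · obtain ⟨a, ha, b, hb, e⟩ := hloc x hx
    exact ⟨a, hle ha, b, hle hb, e⟩

lemma div3_fin {α : Type u} (f : α → Val k E) {W : Set α} (hW : W.Finite)
    (h : ∀ a ∈ W, ∃ Y : Set E, Y.Finite ∧ (1 : E) ∈ Y ∧ div3_ML Y (f a)) {Z₀ : Set E}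
    (hZ₀ : Z₀.Finite) (h1 : (1 : E) ∈ Z₀) :
    ∃ Z : Set E, Z.Finite ∧ Z₀ ⊆ Z ∧ (∀ w : Val k E, div3_ML Z₀ w → div3_ML Z w) ∧
      ∀ a ∈ W, div3_ML Z (f a) := by
  induction W, hW using Set.Finite.induction_on with
  | empty => exact ⟨Z₀, hZ₀, subset_rfl, fun _ h => h, fun _ h => h.elim⟩
  | @insert a W _ _ ih =>
    obtain ⟨Z, hZ, hsub, h2, h3⟩ := ih fun b hb => h b (Set.mem_insert_of_mem _ hb)
    obtain ⟨Y, hY, hY1, hYa⟩ := h a (Set.mem_insert _ _)
    refine ⟨Set.image2 (· * ·) Z Y, hZ.image2 _ hY, fun z hz => ?_,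
      fun w hw => div3_mul hY hY1 (h2 w hw), ?_⟩
    · exact ⟨z, hsub hz, 1, hY1, mul_one z⟩
    · rintro b (rfl | hb)
      · rw [Set.image2_comm (g := (· * ·)) mul_comm]
        exact div3_mul hZ (hsub h1) hYa
      · exact div3_mul hY hY1 (h3 b hb)

lemma div3_enum {Z : Set E} (hZ : Z.Finite) (h1 : (1 : E) ∈ Z) {d : ℕ} (h : Fin d → E)
    (hh : ∀ i, h i ∈ Z) : ∃ (c : ℕ) (z : Nu d c → E), z (.inl 0) = 1 ∧
      (∀ i : Fin d, z (.inl i.succ) = h i) ∧ Set.range z = Z := by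
  obtain ⟨c, g, -, hg⟩ := hZ.fin_param
  refine ⟨c, Sum.elim (Fin.cons 1 h) g, rfl, fun _ => rfl, ?_⟩
  rw [Set.Sum.elim_range, hg]
  refine Set.union_eq_self_of_subset_left ?_
  rintro _ ⟨i, rfl⟩
  refine Fin.cases ?_ (fun i => ?_) i
  · exact h1
  · exact hh i

lemma div3_modelLoc {ι : Type} {z : ι → E} {w : Val k E} (h : div3_ML (Set.range z) w) :
    ∃ i₀, ModelLoc z w i₀ := by
  obtain ⟨_, ⟨i₀, rfl⟩, hn, hmax, hloc⟩ := h
  rw [← Set.range_comp] at hloc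
  exact ⟨i₀, hn, fun i => hmax _ ⟨i, rfl⟩, hloc⟩

end aux

lemma div3_integral {k K : Type u} [Field k] [Field K] [Algebra k K] (F : IntermediateField k K)
    [Algebra.IsAlgebraic F K] (C : Subalgebra k F) {r : K}
    (h : ∀ n, (minpoly F r).coeff n ∈ C) : IsIntegral (C.map F.val) r := by
  have hi : IsIntegral F r := Algebra.IsIntegral.isIntegral r
  have hl : (minpoly F r).map (algebraMap F K) ∈
      Polynomial.lifts (algebraMap (C.map F.val) K) := by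
    refine (Polynomial.lifts_iff_coeff_lifts _).2 fun n => ?_
    rw [Polynomial.coeff_map]
    exact ⟨⟨_, _, h n, rfl⟩, rfl⟩
  obtain ⟨q, hq, -, hm⟩ := Polynomial.lifts_and_natDegree_eq_and_monic hl
    ((minpoly.monic hi).map _)
  refine ⟨q, hm, ?_⟩
  rw [Polynomial.eval₂_eq_eval_map, hq, ← Polynomial.eval₂_eq_eval_map]
  exact minpoly.aeval F r

theorem exists_model {k K : Type u} [Field k] [Field K] [Algebra k K] [Algebra.EssFiniteType k K]
    (p : ℕ) [Fact p.Prime] [CharP k p] [IsAlgClosed k] (F : IntermediateField k K)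
    [Algebra.IsAlgebraic F K] {ι : Type u} [Finite ι] (R : ι → Subalgebra k K) (hR : ∀ i, (R i).FG)
    (𝒟 : ι → Set (Val k K)) (h𝒟 : ∀ i, DivSet (R i) (𝒟 i)) {d : ℕ} (h : Fin d → F) :
    ∃ (c : ℕ) (z : Nu d c → F), z (.inl 0) = 1 ∧ (∀ i : Fin d, z (.inl i.succ) = h i) ∧
      IntermediateField.adjoin k (Set.range z) = ⊤ ∧
      ∀ i, ∀ w ∈ 𝒟 i, ∃ i₀, ModelLoc z (w.comap F.val) i₀ := by
  classical
  have hF : Algebra.EssFiniteType k F := essFT_intermediate F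
  obtain ⟨G, hG⟩ : (⊤ : IntermediateField k F).FG := IntermediateField.fg_top_iff.2 hF
  choose S hS using hR
  let Z₁ : Set F := insert 1 (Set.range h ∪ G ∪
    ⋃ i, ⋃ r ∈ (S i : Set K), ((minpoly F r).coeffs : Set F))
  have hZ₁ : Z₁.Finite :=
    (((Set.finite_range h).union G.finite_toSet).union (Set.finite_iUnion fun i =>
      (S i).finite_toSet.biUnion fun r _ => (minpoly F r).coeffs.finite_toSet)).insert 1
  let A : Subalgebra k F := Algebra.adjoin k Z₁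
  have hA : A.FG := Subalgebra.fg_def.2 ⟨Z₁, hZ₁, rfl⟩
  let C : Subalgebra k F := (integralClosure A F).restrictScalars k
  have hAC : A ≤ C := fun x hx => isIntegral_algebraMap (R := A) (x := ⟨x, hx⟩)
  obtain ⟨T, hT⟩ : C.FG := fg_of_integral p A C hA hAC fun x hx => hx
  let Z₀ : Set F := Z₁ ∪ T
  have hZ₀ : Z₀.Finite := hZ₁.union T.finite_toSet
  have hadj : Algebra.adjoin k Z₀ = C := by
    rw [Algebra.adjoin_union, hT]
    exact sup_eq_right.2 hAC
  have hn : ∀ x : F, IsIntegral C x → x ∈ C := by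
    intro x hx
    refine (isIntegral_iff_val A x).2 fun w hw => (isIntegral_iff_val C x).1 hx w fun a ha => ?_
    exact (isIntegral_iff_val A a).1 ha w hw
  have hGZ : (G : Set F) ⊆ Z₀ := fun x hx => Or.inl (Or.inr (Or.inl (Or.inr hx)))
  have hf : IntermediateField.adjoin k (C : Set F) = ⊤ := by
    refine top_le_iff.1 (hG ▸ IntermediateField.adjoin.mono k _ _ fun x hx => ?_)
    rw [← hadj]
    exact Algebra.subset_adjoin (hGZ hx)
  have hint : ∀ i, ∀ b : K, IsIntegral (R i) b → IsIntegral (C.map F.val) b := by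
    intro i b hb
    refine (isIntegral_iff_val _ b).2 fun w hw => (isIntegral_iff_val _ b).1 hb w ?_
    rw [← hS i]
    refine w.adjoin_le fun r hr => (isIntegral_iff_val _ r).1 (div3_integral F C fun n => ?_) w hw
    by_cases h0 : (minpoly F r).coeff n = 0
    · rw [h0]
      exact C.zero_mem
    · refine hAC (Algebra.subset_adjoin (Or.inr (Or.inr ?_)))
      simp only [Set.mem_iUnion]
      exact ⟨i, r, hr, Polynomial.coeff_mem_coeffs h0⟩
  have h1 : (1 : F) ∈ Z₀ := Or.inl (Set.mem_insert _ _)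
  let W : Set (Val k K) := ⋃ i, ⋃ z ∈ Z₀ \ {0}, {w ∈ 𝒟 i | w.v (z : K) ≠ 1}
  have hW : W.Finite := Set.finite_iUnion fun i => (hZ₀.subset Set.sdiff_subset).biUnion
    fun z hz => (h𝒟 i).fin _ fun e => hz.2 (Subtype.ext e)
  obtain ⟨Z, hZ, hsub, h2, h3⟩ := div3_fin (fun w : Val k K => w.comap F.val) hW (fun w hw => by
    simp only [W, Set.mem_iUnion] at hw
    obtain ⟨i, z, -, hw, -⟩ := hw
    obtain ⟨Y, hY, hl⟩ := (((h𝒟 i).div w hw).comap F).exists_finset p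
    refine ⟨insert 1 Y, Y.finite_toSet.insert 1, Set.mem_insert _ _,
      div3_of_loc (Set.mem_insert _ _) ?_ fun x hx => ?_⟩
    · rintro y (rfl | hy)
      · exact one_mem _
      · exact hY y hy
    · obtain ⟨a, ha, b, hb, e⟩ := hl x hx
      exact ⟨a, Algebra.adjoin_mono (Set.subset_insert _ _) ha, b,
        Algebra.adjoin_mono (Set.subset_insert _ _) hb, e⟩) hZ₀ h1
  obtain ⟨c, z, e1, e2, e3⟩ := div3_enum hZ (hsub h1) h
    fun i => hsub (Or.inl (Or.inr (Or.inl (Or.inl ⟨i, rfl⟩))))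
  refine ⟨c, z, e1, e2, ?_, fun i w hw => div3_modelLoc ?_⟩
  · rw [e3]
    exact top_le_iff.1 (hG ▸ IntermediateField.adjoin.mono k _ _ (hGZ.trans hsub))
  · rw [e3]
    by_cases hwW : w ∈ W
    · exact h3 w hwW
    have hO : ∀ y ∈ Z₀, y ∈ (w.comap F.val).O := by
      intro y hy
      by_cases hy0 : y = 0
      · rw [hy0]
        exact zero_mem _
      · by_contra hc
        refine hwW ?_
        simp only [W, Set.mem_iUnion]
        exact ⟨i, y, ⟨hy, hy0⟩, hw, fun e => hc (Val.mem_comap.2 (Val.v_le_one.1 e.le))⟩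
    refine h2 _ (div3_of_loc h1 hO fun x hx => ?_)
    rw [hadj]
    obtain ⟨b, hb, i1, i2, -⟩ := (h𝒟 i).loc w hw x hx
    obtain ⟨c', hc', hv, hx'⟩ := vloc_desc F.val C hn hf w
      (fun a ha => (w.comap F.val).adjoin_le hO a (hadj ▸ ha)) hb (hint i _ i1) (hint i _ i2)
    exact ⟨c' * x, hx', c', hc', (w.comap_eq_one_iff F.val c').2 hv, mul_comm _ _⟩

end

end Pool.Agent.Lib.MP_1c03d5_ag
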