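import Pool.Agent.Lib.MP_1c03d5_ag.Div2
import Pool.Agent.Lib.MP_1c03d5_ag.Jc

/-!
# TASK DIV4: coordinates at a divisorial valuation
-/

universe u

namespace Pool.Agent.Lib.MP_1c03d5_ag

noncomputable section

open KaehlerDifferential IsLocalRing TensorProduct

section

variable {k O : Type u} [Field k] [CommRing O] [IsLocalRing O] [Algebra k O]

/-- Nakayama for the differentials of a local ring with principal maximal ideal. -/
theorem div4_span [Module.Finite O Ω[O⁄k]] {π : O} (hπ : maximalIdeal O = Ideal.span {π})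
    {ι : Type} {h : ι → O} (hh : Submodule.span (ResidueField O)
      (Set.range fun i => D k (ResidueField O) (residue O (h i))) = ⊤)
    {N : Submodule O Ω[O⁄k]} (h1 : D k O π ∈ N) (h2 : ∀ i, D k O (h i) ∈ N) : N = ⊤ := by
  have hs : Function.Surjective (algebraMap O (ResidueField O)) := residue_surjective
  rw [← map_tensorProduct_mk_eq_top, eq_top_iff]
  rintro t -
  set P := N.map (TensorProduct.mk O (ResidueField O) Ω[O⁄k] 1)
  have h3 : mapBaseChange k O (ResidueField O) t ∈
      P.map ((mapBaseChange k O (ResidueField O)).restrictScalars O) := by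
    refine Submodule.span_le.2 ?_ (show _ ∈ Submodule.span O
      (Set.range fun i => D k (ResidueField O) (residue O (h i))) by
        rw [← Submodule.restrictScalars_span _ _ hs, hh]; trivial)
    rintro _ ⟨i, rfl⟩
    exact ⟨1 ⊗ₜ D k O (h i), ⟨_, h2 i, rfl⟩, by simp⟩
  obtain ⟨q, hq, e⟩ := h3
  obtain ⟨x, hx⟩ := (exact_kerCotangentToTensor_mapBaseChange k O (ResidueField O) hs (t - q)).1
    (by rw [map_sub, sub_eq_zero]; exact e.symm)
  obtain ⟨⟨x, hx'⟩, rfl⟩ := Ideal.toCotangent_surjective _ x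
  rw [kerCotangentToTensor_toCotangent] at hx
  have h4 : x ∈ Ideal.span {π} := by
    rw [← hπ]
    simpa using hx'
  obtain ⟨a, rfl⟩ := Ideal.mem_span_singleton'.1 h4
  have h5 : residue O π = 0 := by
    rw [residue_eq_zero_iff, hπ]
    exact Ideal.mem_span_singleton_self π
  rw [← sub_add_cancel t q, ← hx]
  refine add_mem ⟨a • D k O π, N.smul_mem a h1, ?_⟩ hq
  simp [h5, tmul_add, smul_tmul', ← Algebra.algebraMap_eq_smul_one]

/-- A nonzero non-unit is independent from lifts of independent residues. -/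
theorem div4_indep [IsDomain O] {π : O} (hπ : π ∈ maximalIdeal O) (h0 : π ≠ 0) {ι : Type}
    {h : ι → O} (hh : AlgebraicIndependent k fun i => residue O (h i)) :
    AlgebraicIndependent k fun o : Option ι => o.elim π h := by
  let ρ := IsScalarTower.toAlgHom k O (ResidueField O)
  refine AlgebraicIndependent.option_iff.2 ⟨.of_comp ρ hh, fun ha => ?_⟩
  obtain ⟨⟨r, hr⟩, h1, h2⟩ := ha.exists_nonzero_dvd (mem_nonZeroDivisors_of_ne_zero h0)
  rw [Algebra.adjoin_range_eq_range_aeval] at hr
  obtain ⟨G, rfl⟩ := hr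
  have h3 : MvPolynomial.aeval (fun i => residue O (h i)) G = 0 :=
    (MvPolynomial.comp_aeval_apply h ρ G).symm.trans
      ((residue_eq_zero_iff _).2 (Ideal.mem_of_dvd _ h2 hπ))
  obtain rfl := algebraicIndependent_iff.1 hh G h3
  exact h1 (Subtype.ext (map_zero _))

end

variable {k K : Type u} [Field k] [Field K] [Algebra k K] [Algebra.EssFiniteType k K]
  (p : ℕ) [Fact p.Prime] [CharP k p] [IsAlgClosed k]

omit [Algebra.EssFiniteType k K] [IsAlgClosed k] in
theorem div4_int (w : Val k K) : w.v.Integers w.sub :=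
  ⟨Subtype.val_injective, fun x => Val.v_le_one.2 x.2, fun r hr => ⟨⟨r, Val.v_le_one.1 hr⟩, rfl⟩⟩

omit [Algebra.EssFiniteType k K] [IsAlgClosed k] in
theorem div4_top (w : Val k K) {ι : Type} {y : ι → w.sub}
    (hy : Submodule.span w.sub (Set.range fun i => D k w.sub (y i)) = ⊤) :
    Submodule.span K (Set.range fun i => D k K (y i)) = ⊤ := by
  have h1 : ∀ a ∈ w.O, D k K a ∈ Submodule.span K (Set.range fun i => D k K (y i)) := fun a ha => by
    have h2 : Submodule.span w.sub (Set.range fun i => D k w.sub (y i)) ≤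
        ((Submodule.span K (Set.range fun i => D k K (y i))).restrictScalars w.sub).comap
          (map k k w.sub K) := by
      refine Submodule.span_le.2 ?_
      rintro _ ⟨i, rfl⟩
      exact Submodule.mem_comap.2 (map_D k k w.sub K (y i) ▸ Submodule.subset_span ⟨i, rfl⟩)
    have h3 := Submodule.mem_comap.1 (h2 (hy ▸ Submodule.mem_top : D k w.sub ⟨a, ha⟩ ∈ _))
    rwa [map_D] at h3
  rw [eq_top_iff, ← span_range_derivation, Submodule.span_le]
  rintro _ ⟨a, rfl⟩
  rcases w.O.mem_or_inv_mem a with h | h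
  · exact h1 a h
  · rw [← inv_inv a, Derivation.leibniz_inv]
    exact Submodule.smul_mem _ _ (h1 _ h)

include p

theorem div4_eft {w : Val k K} (h : IsDiv w) : Algebra.EssFiniteType k w.sub := by
  classical
  obtain ⟨Z, h1, h2⟩ := h.exists_finset p
  have h3 : (Algebra.adjoin k (Z.subtype (· ∈ w.sub) : Set w.sub)).map w.sub.val =
      Algebra.adjoin k (Z : Set K) := by
    rw [AlgHom.map_adjoin]
    congr 1
    ext z
    exact ⟨fun ⟨a, ha, e⟩ => e ▸ Finset.mem_subtype.1 ha,
      fun hz => ⟨⟨z, h1 z hz⟩, Finset.mem_subtype.2 hz, rfl⟩⟩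
  refine (Algebra.essFiniteType_iff _ _).2 ⟨Z.subtype (· ∈ w.sub), fun s => ?_⟩
  obtain ⟨a, ha, b, hb, h4, h5⟩ := h2 s s.2
  rw [← h3] at ha hb
  obtain ⟨a, ha, rfl⟩ := ha
  obtain ⟨b, hb, rfl⟩ := hb
  exact ⟨b, hb, (div4_int w).isUnit_of_one' h4, (Subtype.ext h5 : s * b = a) ▸ ha⟩

theorem IsDiv.exists_coordAt {w : Val k K} (h : IsDiv w) {d : ℕ} {x : Fin d → K}
    (hx : SepBasis k x) : ∃ y : Fin d → K, CoordAt w y := by
  have := div4_eft p h
  have : ValuationRing w.sub := ValuationRing.of_integers w.v (div4_int w)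
  have := Algebra.EssFiniteType.isNoetherianRing k w.sub
  obtain ⟨π, hπ⟩ := IsBezout.isPrincipal_of_FG (maximalIdeal w.sub) (IsNoetherian.noetherian _)
  have h0 : π ≠ 0 := by
    rintro rfl
    obtain ⟨n, y, h1, h2, h3, -⟩ := h
    have h4 : (⟨y 0, h2 0⟩ : w.sub) ∈ maximalIdeal w.sub := fun hu =>
      h3.ne ((div4_int w).one_of_isUnit hu)
    rw [hπ, Submodule.span_zero_singleton, Submodule.mem_bot] at h4
    exact h1.1.ne_zero 0 (congrArg Subtype.val h4)
  have : Algebra.EssFiniteType k (ResidueField w.sub) :=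
    inferInstanceAs (Algebra.EssFiniteType k (w.sub ⧸ maximalIdeal w.sub))
  obtain ⟨e, g, hg⟩ := exists_sepBasis (k := k) (K := ResidueField w.sub)
  choose g' hg' using fun i => residue_surjective (g i)
  obtain rfl : (fun i => residue w.sub (g' i)) = g := funext hg'
  have h1 := ((div4_indep (hπ ▸ Submodule.mem_span_singleton_self π) h0 hg.1.1).map'
    (f := w.sub.val) Subtype.val_injective).lift_cardinalMk_le_trdeg
  have h2 : e < d := by
    rw [hx.trdeg_eq] at h1
    simp only [Cardinal.mk_fintype, Fintype.card_option, Fintype.card_fin, Cardinal.lift_natCast,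
      Nat.cast_le] at h1
    omega
  let y : Fin d → w.sub := fun i => if hi : (i : ℕ) < e then g' ⟨i, hi⟩ else π
  have h3 : Submodule.span w.sub (Set.range fun i => D k w.sub (y i)) = ⊤ :=
    div4_span hπ hg.isCoord.2 (Submodule.subset_span ⟨⟨e, h2⟩, by simp [y]⟩)
      fun i => Submodule.subset_span ⟨⟨i, i.2.trans h2⟩, by simp [y]⟩
  exact ⟨fun i => y i, hx.isCoord.of_span (div4_top w h3), y, fun _ => rfl, h3⟩

end

end Pool.Agent.Lib.MP_1c03d5_ag
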