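import Mathlib

/-! Definitions for the bend-and-break / BDPP part: linear systems, generic cuts, degrees. -/

namespace C03

universe u

open MvPolynomial
open scoped Pointwise

section stmt
variable {k K : Type u} [Field k] [Field K] [Algebra k K] {ι τ : Type}

/-- The minor of the Jacobian matrix at `z` with rows `T` and columns `S`. -/
noncomputable def jacMinor (z : ι → K) (F : τ → MvPolynomial ι k) {c : ℕ} (S : Fin c → ι)
    (T : Fin c → τ) : K :=
  (Matrix.of fun a b => aeval z (pderiv (S b) (F (T a)))).det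

/-- Every polynomial curve on `F = 0` which meets `g ≠ 0` is projectively constant. -/
def NoRat (F : τ → MvPolynomial ι k) (g : MvPolynomial ι k) : Prop :=
  ∀ σ : ι → Polynomial k, (∀ j, aeval σ (F j) = 0) → aeval σ g ≠ 0 →
    ∀ i j a b, (σ i).coeff a * (σ j).coeff b = (σ i).coeff b * (σ j).coeff a

/-- The same over every extension field. -/
def NoRatU (F : τ → MvPolynomial ι k) (g : MvPolynomial ι k) : Prop :=
  ∀ (L : Type u) [Field L] (ψ : k →+* L), NoRat (fun j => map ψ (F j)) (map ψ g)

omit [Algebra k K] in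
theorem NoRatU.map {F : τ → MvPolynomial ι k} {g : MvPolynomial ι k} (h : NoRatU F g)
    (φ : k →+* K) : NoRatU (fun j => map φ (F j)) (map φ g) := fun L _ ψ => by
  simpa only [map_map] using h L (ψ.comp φ)

/-- The minor with rows `T` and the first `i` columns. -/
noncomputable def minor (M : τ → ℕ → K) (i : ℕ) (T : Fin i → τ) : K :=
  (Matrix.of fun a b : Fin i => M (T a) b).det

end stmt

section sys
variable {K Ω : Type u} [Field K] [Field Ω] [Algebra K Ω]

/-- The largest value of a finite system. -/
noncomputable def nrm (O : ValuationSubring Ω) (U : Finset K) : O.ValueGroup :=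
  U.sup fun x => O.valuation (algebraMap K Ω x)

/-- A bigger subfield as a vector space over a smaller one. -/
def fsub {κ E : Subfield Ω} (h : κ ≤ E) : Submodule κ Ω where
  carrier := E
  add_mem' := E.add_mem
  zero_mem' := E.zero_mem
  smul_mem' := fun a _ hx => E.mul_mem (h a.2) hx

theorem mem_fsub {κ E : Subfield Ω} (h : κ ≤ E) {x : Ω} : x ∈ fsub h ↔ x ∈ E := Iff.rfl

/-- The span of a finite system. -/
def sp (κ : Subfield Ω) (U : Finset K) : Submodule κ Ω :=
  Submodule.span κ (algebraMap K Ω '' (U : Set K))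

/-- The complete linear system `|P - R|` of the function field `E / κ`. -/
def cs {κ E : Subfield Ω} (h : κ ≤ E) (P R : Finset K) : Submodule κ Ω where
  carrier := {x | x ∈ E ∧ ∀ O : ValuationSubring Ω, (∀ a ∈ κ, a ∈ O) →
    O.valuation x * nrm O R ≤ nrm O P}
  add_mem' := fun {x y} hx hy => ⟨E.add_mem hx.1 hy.1, fun O hO => by
    rcases le_max_iff.1 (O.valuation.map_add x y) with e | e
    · exact (mul_le_mul_left e _).trans (hx.2 O hO)
    · exact (mul_le_mul_left e _).trans (hy.2 O hO)⟩
  zero_mem' := ⟨E.zero_mem, fun O _ => by simp⟩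
  smul_mem' := fun a x hx => ⟨E.mul_mem (h a.2) hx.1, fun O hO => by
    have e : O.valuation (a • x) ≤ O.valuation x := by
      rw [Subfield.smul_def, smul_eq_mul, map_mul]
      exact mul_le_of_le_one_left' ((O.valuation_le_one_iff _).2 (hO _ a.2))
    exact (mul_le_mul_left e _).trans (hx.2 O hO)⟩

theorem mem_cs {κ E : Subfield Ω} (h : κ ≤ E) {P R : Finset K} {x : Ω} :
    x ∈ cs h P R ↔ x ∈ E ∧ ∀ O : ValuationSubring Ω, (∀ a ∈ κ, a ∈ O) →
      O.valuation x * nrm O R ≤ nrm O P := Iff.rfl

/-- The generic member of the system `U` with coefficients `s`. -/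
def th (s : K → Ω) (U : Finset K) : Ω := ∑ x ∈ U, s x * algebraMap K Ω x

end sys

/-- A function field `K / k` of dimension `d` with generators `H`, a separating transcendence basis
`hh` in `H`, and independent variables `s a x` in an extension `Ω`. -/
structure Ctx (k K Ω : Type u) [Field k] [Field K] [Field Ω] [Algebra k K] [Algebra K Ω] (d : ℕ) where
  H : Finset K
  hh : Fin d → K
  s : Fin d → K → Ω
  one_mem : (1 : K) ∈ H
  hh_mem : ∀ a, hh a ∈ H
  gen : IntermediateField.adjoin k (H : Set K) = ⊤
  ind : AlgebraicIndependent k hh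
  sep : Algebra.IsSeparable (IntermediateField.adjoin k (Set.range hh)) K
  hs : AlgebraicIndependent K fun x : Fin d × K => s x.1 x.2

namespace Ctx

variable {k K Ω : Type u} [Field k] [Field K] [Field Ω] [Algebra k K] [Algebra K Ω] {d : ℕ}
  (c : Ctx k K Ω d)

/-- The function field after cutting in the slots `J`. -/
def Kst (J : Finset (Fin d)) : Subfield Ω :=
  Subfield.closure (Set.range (algebraMap K Ω) ∪ {y | ∃ a ∈ J, ∃ x, y = c.s a x})

/-- The constant field after cutting in the slots `J` by the systems `U a`. -/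
def kst (J : Finset (Fin d)) (U : Fin d → Finset K) : Subfield Ω :=
  Subfield.closure (Set.range (fun a : k => algebraMap K Ω (algebraMap k K a)) ∪
    {y | ∃ a ∈ J, (∃ x, y = c.s a x) ∨ y = th (c.s a) (U a)})

theorem alg_mem (J : Finset (Fin d)) (x : K) : algebraMap K Ω x ∈ c.Kst J :=
  Subfield.subset_closure (Or.inl ⟨x, rfl⟩)

theorem const_mem (J : Finset (Fin d)) (U : Fin d → Finset K) (a : k) :
    algebraMap K Ω (algebraMap k K a) ∈ c.kst J U :=
  Subfield.subset_closure (Or.inl ⟨a, rfl⟩)

theorem kst_le (J : Finset (Fin d)) (U : Fin d → Finset K) : c.kst J U ≤ c.Kst J := by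
  refine Subfield.closure_le.2 ?_
  have e : ∀ a ∈ J, ∀ x, c.s a x ∈ c.Kst J := fun a ha x =>
    Subfield.subset_closure (Or.inr ⟨a, ha, x, rfl⟩)
  rintro y (⟨a, rfl⟩ | ⟨a, ha, ⟨x, rfl⟩ | rfl⟩)
  · exact c.alg_mem J _
  · exact e a ha x
  · exact sum_mem fun x _ => mul_mem (e a ha x) (c.alg_mem J x)

theorem kst_congr {J : Finset (Fin d)} {U U' : Fin d → Finset K} (h : ∀ a ∈ J, U a = U' a) :
    c.kst J U = c.kst J U' := by
  unfold kst
  congr 2
  ext y
  exact exists_congr fun a => and_congr_right fun ha => by rw [h a ha]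

/-- The intersection number of the systems `U a`. -/
noncomputable def II (U : Fin d → Finset K) : ℕ :=
  Module.finrank (c.kst Finset.univ U) (fsub (c.kst_le Finset.univ U))

/-- The complete system `|P - R|` after cutting in the slots `J` by the systems `U a`. -/
abbrev cst (J : Finset (Fin d)) (U : Fin d → Finset K) (P R : Finset K) :
    Submodule (c.kst J U) Ω := cs (c.kst_le J U) P R

/-- The constant field before any cut. -/
abbrev k0 : Subfield Ω := c.kst ∅ fun _ => ∅

/-- The complete system `|P - R|` of `K / k`. -/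
abbrev cs0 (P R : Finset K) : Submodule c.k0 Ω := c.cst ∅ (fun _ => ∅) P R

end Ctx

end C03
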