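import Pool.Agent.Lib.MP_1c03d5_ag.LemJ
import Pool.Agent.Lib.MP_1c03d5_ag.H97Defs

/-!
# TASK JAC: existence of good equations
-/

open MvPolynomial

universe u

namespace Pool.Agent.Lib.MP_1c03d5_ag

noncomputable section

variable {k K : Type u} [Field k] [Field K] [Algebra k K] {d c : ℕ}

theorem jac_zero {ι : Type} [Fintype ι] (i0 : ι) {H : MvPolynomial ι k} {n : ℕ}
    (hH : H.IsHomogeneous n) (h : ∀ (S : Type u) [CommRing S] (φ : MvPolynomial ι k →+* S),
      φ (X i0) = 1 → φ H = 0) : H = 0 := by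
  let L := FractionRing (MvPolynomial ι k)
  let j : MvPolynomial ι k →ₐ[k] L := IsScalarTower.toAlgHom k _ _
  have hj : Function.Injective j := IsFractionRing.injective _ _
  have h0 : j (X i0) ≠ 0 := fun e => X_ne_zero i0 (hj (e.trans (map_zero j).symm))
  have e := lemj_scale hH (j (X i0)) fun i => j (X i) / j (X i0)
  have e1 : aeval (fun i => j (X i) / j (X i0)) H = 0 :=
    h L (aeval fun i => j (X i) / j (X i0)).toRingHom (by simpa using h0)
  simp only [mul_div_cancel₀ _ h0, e1, mul_zero] at e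
  refine hj ?_
  rw [map_zero, ← e, ← comp_aeval_apply, aeval_X_left_apply]

theorem jac_dehom {ι : Type} [Fintype ι] (i0 : ι) {G : MvPolynomial ι k} {n e : ℕ}
    (hG : G.IsHomogeneous n) {F : Fin c → MvPolynomial ι k} (hF : ∀ a, (F a).IsHomogeneous e)
    (h : G ∈ Ideal.span (Set.range F) ⊔ Ideal.span {X i0 - 1}) :
    ∃ N, X i0 ^ N * G ∈ Ideal.span (Set.range F) := by
  obtain ⟨y, hy, t, ht, h⟩ := Submodule.mem_sup.1 h
  obtain ⟨a, rfl⟩ := Ideal.mem_span_range_iff_exists_fun.1 hy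
  obtain ⟨b, rfl⟩ := Ideal.mem_span_singleton'.1 ht
  choose m a' ha' H using fun i => lemj_homog i0 (a i)
  have hm : ∀ i, m i ≤ ∑ j, m j := fun i =>
    Finset.single_le_sum (fun _ _ => Nat.zero_le _) (Finset.mem_univ i)
  refine ⟨∑ j, m j + e, Ideal.mem_span_range_iff_exists_fun.2
    ⟨fun i => X i0 ^ (∑ j, m j + n - m i) * a' i, sub_eq_zero.1 (jac_zero i0
      (n := ∑ j, m j + e + n) (IsHomogeneous.sub (IsHomogeneous.sum _ _ _ fun i _ => ?_) ?_)
      fun S _ φ h1 => ?_)⟩⟩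
  · have e1 := (((isHomogeneous_X k i0).pow (∑ j, m j + n - m i)).mul (ha' i)).mul (hF i)
    have := hm i
    rwa [show 1 * (∑ j, m j + n - m i) + m i + e = ∑ j, m j + e + n by omega] at e1
  · simpa using ((isHomogeneous_X k i0).pow (∑ j, m j + e)).mul hG
  · simp [← h, h1, H _ S φ h1]

theorem jac_unram {S : Type u} [CommRing S] [Algebra k S] (x : Nu d c → S)
    (hx : Function.Surjective (aeval x : MvPolynomial (Nu d c) k →ₐ[k] S)) (h0 : x (.inl 0) = 1)
    (π : S →ₐ[k] K) (hi : AlgebraicIndependent k fun i : Fin d => π (x (.inl i.succ)))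
    (F : Fin c → MvPolynomial (Nu d c) k) (hF : ∀ a, aeval x (F a) = 0)
    (hd : π (Matrix.of fun a b => aeval x (pderiv (Sum.inr b) (F a))).det ≠ 0) (s : S)
    (hs : π s = 0) : ∃ g, π g ≠ 0 ∧ g * s = 0 := by
  let R := MvPolynomial (Fin d) k
  let f : R →ₐ[k] S := aeval fun i => x (.inl i.succ)
  letI : Algebra R S := f.toRingHom.toAlgebra
  have : IsScalarTower k R S := IsScalarTower.of_algebraMap_eq fun a => (f.commutes a).symm
  have : Algebra.FiniteType k S := .of_surjective _ hx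
  have : Algebra.FiniteType R S := .of_restrictScalars_finiteType k _ _
  let q : Ideal S := RingHom.ker π
  have : q.IsPrime := RingHom.ker_isPrime _
  have : q.LiesOver (⊥ : Ideal R) := ⟨le_antisymm bot_le fun a ha => by
    have e : π (f a) = 0 := ha
    rw [comp_aeval_apply] at e
    exact hi (e.trans (map_zero _).symm)⟩
  set M : Matrix (Fin c) (Fin c) S := Matrix.of fun a b => aeval x (pderiv (Sum.inr b) (F a))
  let δ := (KaehlerDifferential.D R S).restrictScalars k
  have e1 : ∀ a, δ (x (.inl a)) = 0 := fun a => by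
    refine Fin.cases (by rw [h0, Derivation.map_one_eq_zero]) (fun a => ?_) a
    have e := (KaehlerDifferential.D R S).map_algebraMap (X a)
    rwa [show algebraMap R S (X a) = x (.inl a.succ) from aeval_X _ _] at e
  have e2 : ∀ a, ∑ b, M a b • δ (x (.inr b)) = 0 := fun a => by
    have e := lemj_chain δ x (F a)
    simpa [M, hF, Fintype.sum_sum_type, e1] using e.symm
  have e3 : ∀ b, M.det • δ (x (.inr b)) = 0 := fun b => by
    have e : ∑ a, M.adjugate b a • ∑ b, M a b • δ (x (.inr b)) = 0 := by simp [e2]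
    simp only [Finset.smul_sum, smul_smul] at e
    rw [Finset.sum_comm] at e
    simpa only [← Finset.sum_smul, ← Matrix.mul_apply, Matrix.adjugate_mul, Matrix.smul_apply,
      Matrix.one_apply, smul_eq_mul, mul_ite, mul_one, mul_zero, ite_smul, zero_smul,
      Finset.sum_ite_eq, Finset.mem_univ, if_true] using e
  have e4 : LinearMap.lsmul S Ω[S⁄R] M.det = 0 :=
    LinearMap.ext_on_range (KaehlerDifferential.span_range_derivation R S) fun t => by
      obtain ⟨G, rfl⟩ := hx t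
      change M.det • δ _ = 0
      simp [lemj_chain δ x G, Fintype.sum_sum_type, e1, Finset.smul_sum, smul_comm M.det, e3]
  have e5 : (⟨q, ‹_›⟩ : PrimeSpectrum S) ∈ Algebra.unramifiedLocus R S := by
    rw [Algebra.unramifiedLocus_eq_compl_support, Set.mem_compl_iff, Module.notMem_support_iff']
    exact fun m => ⟨M.det, hd, LinearMap.congr_fun e4 m⟩
  let := Localization.AtPrime.algebraOfLiesOver (⊥ : Ideal R) q
  have e6 := ((Algebra.isUnramifiedAt_iff_map_eq R ⊥ q).1 e5).2
  have e7 := (IsLocalization.AtPrime.to_map_mem_maximal_iff (Localization.AtPrime q) q s).2 hs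
  rw [← e6, Ideal.map_bot, Ideal.mem_bot, IsLocalization.map_eq_zero_iff q.primeCompl] at e7
  obtain ⟨g, hg⟩ := e7
  exact ⟨g, g.2, hg⟩

theorem jac_gens {ι : Type} [Fintype ι] (z : ι → K) : ∃ (r e : ℕ) (F : Fin r → MvPolynomial ι k),
    0 < e ∧ (∀ j, (F j).IsHomogeneous e) ∧ (∀ j, aeval z (F j) = 0) ∧
      ∀ (n : ℕ) (G : MvPolynomial ι k), G.IsHomogeneous n → aeval z G = 0 →
        ∀ i, ∃ N, X i ^ N * G ∈ Ideal.span (Set.range F) := by
  obtain ⟨s, hs, h⟩ := (Submodule.fg_span_iff_fg_span_finset_subset (R := MvPolynomial ι k)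
    {G : MvPolynomial ι k | ∃ n, G.IsHomogeneous n ∧ aeval z G = 0}).1 (IsNoetherian.noetherian _)
  choose n hn hz using fun a : s => hs a.2
  let ε := Fintype.equivFin (s × ι)
  have hm : ∀ a, n a ≤ ∑ j, n j + 1 := fun a => Nat.le_succ_of_le
    (Finset.single_le_sum (fun _ _ => Nat.zero_le _) (Finset.mem_univ a))
  refine ⟨_, ∑ j, n j + 1,
    fun j => X (ε.symm j).2 ^ (∑ j, n j + 1 - n (ε.symm j).1) * (ε.symm j).1.1, Nat.succ_pos _, fun j => ?_, fun j => by rw [map_mul, hz, mul_zero], fun m G hG h0 i =>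
    ⟨∑ j, n j + 1, ?_⟩⟩
  · have e := ((isHomogeneous_X k (ε.symm j).2).pow (∑ j, n j + 1 - n (ε.symm j).1)).mul
      (hn (ε.symm j).1)
    rwa [one_mul, Nat.sub_add_cancel (hm _)] at e
  · have e : G ∈ Submodule.span (MvPolynomial ι k) (s : Set (MvPolynomial ι k)) :=
      h ▸ Submodule.subset_span ⟨m, hG, h0⟩
    refine (Submodule.span_le (p := Submodule.comap (LinearMap.mulLeft _ (X i ^ (∑ j, n j + 1)))
      (Ideal.span _))).2 (fun a ha => ?_) e
    change X i ^ _ * a ∈ Ideal.span _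
    rw [← Nat.add_sub_cancel' (hm ⟨a, ha⟩), pow_add, mul_assoc, Nat.add_sub_cancel' (hm ⟨a, ha⟩)]
    exact Ideal.mul_mem_left _ _ (Ideal.subset_span ⟨ε (⟨a, ha⟩, i), by simp⟩)

theorem exists_eqs (z : Nu d c → K) (h0 : z (.inl 0) = 1)
    (hz : IntermediateField.adjoin k (Set.range z) = ⊤)
    (hs : SepBasis k fun i : Fin d => z (.inl i.succ)) {n : ℕ} {G : MvPolynomial (Nu d c) k}
    (hG : G.IsHomogeneous n) (hG0 : aeval z G ≠ 0) :
    ∃ E : Eqs k d c, E.Sol z ∧ E.Gens z ∧ G ∣ E.g := by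
  obtain ⟨r, e, F, he, h1, h2, h3⟩ := jac_gens (k := k) z
  obtain ⟨T, a, ha⟩ := lemj_main (R := K) (fun _ _ h => h) F h1 h0 h2 (i0 := .inl 0)
    (fun n G hG hz => h3 n G hG hz _) (by simp [h0]) z (by simp [h0]) (fun y => by
      obtain ⟨a, b, rfl⟩ := (IntermediateField.mem_adjoin_range_iff k z y).1 (hz ▸ trivial)
      by_cases hb : aeval z b = 0
      · exact ⟨0, 1, by simp, by simp [hb]⟩
      · exact ⟨a, b, Ne.isUnit hb, div_mul_cancel₀ _ hb⟩) _ hs.isCoord.2 hs.isCoord
  have hT : (Matrix.of fun i i' => aeval z (pderiv (Sum.inr i') (F (T i)))).det ≠ 0 := fun h => by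
    have e1 := hs.isCoord.jac_self
    simp only [Algebra.algebraMap_self_apply] at ha
    simp [h, h0, e1] at ha
  let I := Ideal.span (Set.range fun a => F (T a)) ⊔ Ideal.span {X (.inl 0) - 1}
  let π : (MvPolynomial (Nu d c) k ⧸ I) →ₐ[k] K := Ideal.Quotient.liftₐ I (aeval z)
    (show I ≤ RingHom.ker (aeval z) from sup_le
      (Ideal.span_le.2 (Set.range_subset_iff.2 fun a => h2 _))
      (Ideal.span_le.2 (Set.singleton_subset_iff.2 (by simp [h0]))))
  have e1 : ∀ G, aeval (fun i => Ideal.Quotient.mk I (X i)) G = Ideal.Quotient.mk I G := fun G => by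
    simpa using (comp_aeval_apply X (Ideal.Quotient.mkₐ k I) G).symm
  have e2 : ∀ G, π (Ideal.Quotient.mk I G) = aeval z G := fun _ => rfl
  have e3 : Ideal.Quotient.mk I (X (.inl 0)) = 1 :=
    Ideal.Quotient.eq.2 (Ideal.mem_sup_right (Ideal.mem_span_singleton_self _))
  have key : ∀ j, ∃ m, ∃ g : MvPolynomial (Nu d c) k, g.IsHomogeneous m ∧ aeval z g ≠ 0 ∧
      g * F j ∈ Ideal.span (Set.range fun a => F (T a)) := fun j => by
    obtain ⟨g, hg, h⟩ := jac_unram (fun i => Ideal.Quotient.mk I (X i))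
      (fun t => by simpa only [e1] using Ideal.Quotient.mk_surjective t) e3 π
      (by simpa only [e2, aeval_X] using hs.1.1) (fun a => F (T a))
      (fun a => by
        rw [e1, Ideal.Quotient.eq_zero_iff_mem]
        exact Ideal.mem_sup_left (Ideal.subset_span ⟨a, rfl⟩))
      (by
        rw [AlgHom.map_det]
        simp only [e1]
        exact hT) (Ideal.Quotient.mk I (F j)) (h2 j)
    obtain ⟨g, rfl⟩ := Ideal.Quotient.mk_surjective g
    obtain ⟨m, g', hg', H⟩ := lemj_homog (.inl 0) g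
    obtain ⟨N, hN⟩ := jac_dehom (.inl 0) (hg'.mul (h1 j)) (fun a => h1 (T a))
      (Ideal.Quotient.eq_zero_iff_mem.1 (by rw [map_mul, H _ _ e3, h]))
    refine ⟨_, X (.inl 0) ^ N * g', ((isHomogeneous_X k _).pow N).mul hg', ?_, by rwa [mul_assoc]⟩
    have e4 : aeval z g' = aeval z g := H K (aeval z).toRingHom (by simpa using h0)
    rwa [map_mul, map_pow, aeval_X, h0, one_pow, one_mul, e4]
  choose m g g1 g2 g3 using key
  refine ⟨⟨r, e, n + ∑ j, m j, F, G * ∏ j, g j, T, he, h1,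
    hG.mul (IsHomogeneous.prod _ _ _ fun j _ => g1 j), fun j => ?_⟩, ⟨h2, ?_, ?_⟩, h3,
    dvd_mul_right _ _⟩
  · obtain ⟨t, ht⟩ := Finset.dvd_prod_of_mem g (Finset.mem_univ j)
    rw [ht, show G * (g j * t) * F j = G * t * (g j * F j) by ring]
    exact Ideal.mul_mem_left _ _ (g3 j)
  · simp only [map_mul, map_prod]
    exact mul_ne_zero hG0 (Finset.prod_ne_zero_iff.2 fun j _ => g2 j)
  · rw [Eqs.minor, AlgHom.map_det]
    exact hT

/-- A rational curve on the cone contradicts `NoRatModel`. -/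
theorem NoRatModel.exists_eqs {z : Nu d c → K} (h : NoRatModel (k := k) z) (h0 : z (.inl 0) = 1)
    (hz : IntermediateField.adjoin k (Set.range z) = ⊤)
    (hs : SepBasis k fun i : Fin d => z (.inl i.succ)) :
    ∃ E : Eqs k d c, E.Sol z ∧ E.Gens z ∧ C03.NoRat E.F E.g := by
  obtain ⟨g, hg, h⟩ := h
  have m1 : ∀ G : MvPolynomial (Nu d c) k, aeval z G ∈ Algebra.adjoin k (Set.range z) := fun G => by
    rw [Algebra.adjoin_range_eq_range_aeval]
    exact ⟨G, rfl⟩
  let f := (aeval z : MvPolynomial (Nu d c) k →ₐ[k] K).codRestrict _ m1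
  have hf : Function.Surjective f := fun ⟨t, ht⟩ => by
    rw [Algebra.adjoin_range_eq_range_aeval] at ht
    obtain ⟨G, rfl⟩ := ht
    exact ⟨G, rfl⟩
  obtain ⟨G, rfl⟩ := hf g
  obtain ⟨n, G', hG', H⟩ := lemj_homog (.inl 0) G
  have e0 : (aeval z).toRingHom (X (.inl 0) : MvPolynomial (Nu d c) k) = 1 := by simpa using h0
  obtain ⟨E, h1, h2, t, ht⟩ := Pool.Agent.Lib.MP_1c03d5_ag.exists_eqs z h0 hz hs
    ((isHomogeneous_X k (.inl 0)).mul hG') (by
      have e : aeval z G' = aeval z G := H K _ e0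
      rw [map_mul, aeval_X, h0, one_mul, e]
      exact fun e => hg (Subtype.ext e))
  refine ⟨E, h1, h2, fun σ hσ hσg => ?_⟩
  rw [ht, map_mul, map_mul, aeval_X] at hσg
  let j : Polynomial k →ₐ[k] RatFunc k := IsScalarTower.toAlgHom k _ _
  have hj : Function.Injective j := IsFractionRing.injective _ _
  have hj0 : ∀ {a}, a ≠ 0 → j a ≠ 0 := fun ha e => ha (hj (e.trans (map_zero j).symm))
  have s0 := hj0 (left_ne_zero_of_mul (left_ne_zero_of_mul hσg))
  let s : Nu d c → RatFunc k := fun i => j (σ i) / j (σ (.inl 0))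
  have e1 : ∀ {n : ℕ} {G : MvPolynomial (Nu d c) k}, G.IsHomogeneous n →
      j (aeval σ G) = j (σ (.inl 0)) ^ n * aeval s G := fun hG => by
    rw [← lemj_scale hG, comp_aeval_apply]
    simp only [s, mul_div_cancel₀ _ s0]
  have e2 : (aeval s).toRingHom (X (.inl 0) : MvPolynomial (Nu d c) k) = 1 := by
    simpa [s] using s0
  have hk : RingHom.ker f.toRingHom ≤ RingHom.ker (aeval s).toRingHom := fun A hA => by
    obtain ⟨m, A', hA', HA⟩ := lemj_homog (.inl 0) A
    obtain ⟨N, hN⟩ := h2 m A' hA' ((HA K _ e0).trans (congrArg Subtype.val hA)) (.inl 0)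
    have e := (Ideal.span_le (I := RingHom.ker (aeval s).toRingHom)).2
      (Set.range_subset_iff.2 fun a => by
        have e := e1 (E.hF a)
        rw [hσ, map_zero] at e
        exact (mul_eq_zero.1 e.symm).resolve_left (pow_ne_zero _ s0)) hN
    rwa [RingHom.mem_ker, map_mul, map_pow, e2, one_pow, one_mul, HA _ _ e2] at e
  have e3 := h (AlgHom.liftOfSurjective f hf (aeval s) hk) (by
    rw [AlgHom.liftOfSurjective_apply]
    have e : aeval s G' = aeval s G := H _ _ e2
    have e' := hj0 (right_ne_zero_of_mul (left_ne_zero_of_mul hσg))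
    rw [e1 hG', e] at e'
    exact right_ne_zero_of_mul e')
  have e4 : ∀ i, ∃ b : k, σ i = b • σ (.inl 0) := fun i => by
    obtain ⟨b, hb⟩ := e3 (f (X i))
    rw [AlgHom.liftOfSurjective_apply, aeval_X] at hb
    exact ⟨b, hj (by rw [map_smul, Algebra.smul_def, hb, div_mul_cancel₀ _ s0])⟩
  intro i i' a b
  obtain ⟨x, hx⟩ := e4 i
  obtain ⟨y, hy⟩ := e4 i'
  rw [hx, hy]
  simp only [Polynomial.coeff_smul, smul_eq_mul]
  ring

end

end Pool.Agent.Lib.MP_1c03d5_ag
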