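import Pool.Agent.Lib.MP_1c03d5_ag.LemJX1
import Pool.Agent.Lib.MP_1c03d5_ag.Jc
import Pool.Agent.Lib.MP_1c03d5_ag.Val

/-!
# TASK LEMJ: Jacobian minors versus the canonical divisor
-/

open MvPolynomial

universe u

namespace Pool.Agent.Lib.MP_1c03d5_ag

noncomputable section

theorem lemj_dvd {R : Type u} [CommRing R] {d c : ℕ} (M : Matrix (Fin c) (Nu d c) R)
    (N : Matrix (Nu d c) (Fin c) R) (h : IsUnit (M * N).det) (E : Matrix (Fin (d + 1)) (Nu d c) R)
    (hE : ∀ a b, ∑ i, M a i * E b i = 0) :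
    (M.submatrix id Sum.inr).det ∣ (E.submatrix id Sum.inl).det := by
  have e : Matrix.fromBlocks 1 0 (M.submatrix id Sum.inl) (M.submatrix id Sum.inr) *
      Matrix.fromCols E.transpose N = Matrix.fromBlocks (E.submatrix id Sum.inl).transpose
        (N.submatrix Sum.inl id) 0 (M * N) := by
    ext (i | i) (j | j)
    · simp [Matrix.mul_apply, Fintype.sum_sum_type, Matrix.one_apply]
    · simp [Matrix.mul_apply, Fintype.sum_sum_type, Matrix.one_apply]
    · simpa [Matrix.mul_apply, Fintype.sum_sum_type] using hE i j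
    · simp [Matrix.mul_apply, Fintype.sum_sum_type]
  have e2 := congrArg Matrix.det e
  rw [Matrix.det_mul, Matrix.det_fromBlocks_zero₁₂, Matrix.det_fromBlocks_zero₂₁, Matrix.det_one,
    one_mul, Matrix.det_transpose] at e2
  exact h.dvd_mul_right.1 ⟨_, e2.symm⟩

theorem lemj_det {k K : Type u} [Field k] [Field K] [Algebra k K] {d : ℕ}
    (δ : Fin d → Derivation k K K) (z : Fin (d + 1) → K) (h0 : z 0 = 1) {t : K} (ht : t ≠ 0) :
    (Matrix.of fun a b => δ b (z (Fin.succ a))).det = t ^ (d + 1) *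
      (Matrix.of fun b a => Fin.cases (motive := fun _ => K) (z a / t)
        (fun b => δ b (z a / t)) b).det := by
  have e := Matrix.det_smul (Matrix.of fun b a => Fin.cases (motive := fun _ => K) (z a / t)
    (fun b => δ b (z a / t)) b) t
  rw [Fintype.card_fin] at e
  rw [← e, Matrix.det_eq_of_forall_row_eq_smul_add_const
    (B := Matrix.of fun b a => Fin.cases (motive := fun _ => K) (z a) (fun b => δ b (z a)) b)
    (Fin.cases 0 fun b => t * δ b t⁻¹) 0 rfl, Matrix.det_succ_column_zero, Fin.sum_univ_succ,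
    Finset.sum_eq_zero fun i _ => by simp [h0], ← Matrix.det_transpose]
  · simp only [Fin.val_zero, pow_zero, Matrix.of_apply, Fin.cases_zero, h0, mul_one, one_mul,
      add_zero, Fin.succAbove_zero]
    rfl
  · intro i j
    refine Fin.cases ?_ (fun i => ?_) i
    · simp [mul_div_cancel₀ _ ht]
    · simp only [Matrix.smul_apply, Matrix.of_apply, Fin.cases_succ, Fin.cases_zero, smul_eq_mul,
        div_eq_mul_inv, Derivation.leibniz]
      field_simp
      ring

theorem lemj_main {k K R : Type u} [Field k] [Field K] [Algebra k K] [CommRing R] [IsLocalRing R]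
    [Algebra k R] [Algebra R K] [IsScalarTower k R K] (hinj : Function.Injective (algebraMap R K))
    {d c r e : ℕ} (F : Fin r → MvPolynomial (Nu d c) k) (he : ∀ j, (F j).IsHomogeneous e)
    {z : Nu d c → K} (h0 : z (.inl 0) = 1) (hF : ∀ j, aeval z (F j) = 0) {i0 : Nu d c}
    (hg : ∀ (n : ℕ) (G : MvPolynomial (Nu d c) k), G.IsHomogeneous n → aeval z G = 0 →
      ∃ N, X i0 ^ N * G ∈ Ideal.span (Set.range F)) (hi : z i0 ≠ 0) (x : Nu d c → R)
    (hx : ∀ i, algebraMap R K (x i) = z i / z i0)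
    (hloc : ∀ y : R, ∃ a b : MvPolynomial (Nu d c) k, IsUnit (aeval x b) ∧
      y * aeval x b = aeval x a) (y : Fin d → R)
    (hy : Submodule.span R (Set.range fun i => KaehlerDifferential.D k R (y i)) = ⊤)
    (hy' : IsCoord k fun i => algebraMap R K (y i)) :
    ∃ (T : Fin c → Fin r) (a : R), jac k (fun i => algebraMap R K (y i))
      (fun i => z (.inl i.succ)) * z i0 ^ (c * (e - 1)) = algebraMap R K a *
        (Matrix.of fun i i' => aeval z (pderiv (Sum.inr i') (F (T i)))).det * z i0 ^ (d + 1) := by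
  have e1 : ∀ G, algebraMap R K (aeval x G) = aeval (fun i => z i / z i0) G := fun G => by
    simpa only [IsScalarTower.coe_toAlgHom', hx] using
      comp_aeval_apply x (IsScalarTower.toAlgHom k R K) G
  have e2 : ∀ {n : ℕ} {G : MvPolynomial (Nu d c) k}, G.IsHomogeneous n →
      aeval z G = z i0 ^ n * algebraMap R K (aeval x G) := fun hG => by
    rw [e1, ← lemj_scale hG]
    simp only [mul_div_cancel₀ _ hi]
  have hF' : ∀ j, aeval x (F j) = 0 := fun j => hinj (by
    simpa [hF, hi] using (e2 (he j)).symm)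
  have hx0 : x i0 = 1 := hinj (by rw [hx, div_self hi, map_one])
  obtain ⟨T, N, hN⟩ := lemj_rank (d := d) (c := c) (by simp) x i0 hx0 F hF' (fun G hG S _ φ h1 h2 => by
    obtain ⟨n, G', hG', H⟩ := lemj_homog i0 G
    have e3 : aeval x G' = aeval x G := H R (aeval x).toRingHom (by simpa using hx0)
    obtain ⟨N, hN⟩ := hg n G' hG' (by rw [e2 hG', e3, hG, map_zero, mul_zero])
    have e4 : φ (X i0 ^ N * G') = 0 := (Ideal.span_le (I := RingHom.ker φ)).2
      (Set.range_subset_iff.2 h2) hN
    rwa [map_mul, map_pow, h1, one_pow, one_mul, H S φ h1] at e4) hloc y hy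
  obtain ⟨δ, h1, -, h3⟩ := hy'.exists_der
  have e5 : ∀ i, ∃ m : Fin d → R, ∀ b, algebraMap R K (m b) = δ b (z i / z i0) := fun i => by
    obtain ⟨m, hm⟩ := (Submodule.mem_span_range_iff_exists_fun R).1
      (hy ▸ Submodule.mem_top (x := KaehlerDifferential.D k R (x i)))
    refine ⟨m, fun b => ?_⟩
    have e := congrArg ((δ b).compAlgebraMap R).liftKaehlerDifferential hm
    simp only [map_sum, map_smul, Derivation.liftKaehlerDifferential_comp_D,
      Derivation.compAlgebraMap_apply, h1, hx, Algebra.smul_def, mul_ite, mul_one, mul_zero,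
      Finset.sum_ite_eq, Finset.mem_univ, if_true] at e
    exact e
  choose m hm using e5
  obtain ⟨a, ha⟩ := lemj_dvd _ N hN
    (Matrix.of fun b i => Fin.cases (motive := fun _ => R) (x i) (m i) b) fun j b => by
      refine Fin.cases ?_ (fun b => hinj ?_) b
      · have e := congrArg (aeval x) (he (T j)).sum_X_mul_pderiv
        simpa [hF', mul_comm] using e
      · have e := lemj_chain (δ b) (fun i => z i / z i0) (F (T j))
        rw [← e1, hF', map_zero, map_zero] at e
        simpa [e1, hm] using e.symm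
  refine ⟨T, a, ?_⟩
  have e6 : (Matrix.of fun i i' => aeval z (pderiv (Sum.inr i') (F (T i)))) = z i0 ^ (e - 1) •
      (algebraMap R K).mapMatrix ((Matrix.of fun a i =>
        aeval x (pderiv i (F (T a)))).submatrix id Sum.inr) :=
    Matrix.ext fun i j => e2 (he (T i)).pderiv
  have e7 : (Matrix.of fun b a => Fin.cases (motive := fun _ => K) (z (.inl a) / z i0)
      (fun b => δ b (z (.inl a) / z i0)) b) = (algebraMap R K).mapMatrix ((Matrix.of fun b i =>
        Fin.cases (motive := fun _ => R) (x i) (m i) b).submatrix id Sum.inl) :=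
    Matrix.ext fun i j => by
      refine Fin.cases ?_ (fun i => ?_) i
      · exact (hx _).symm
      · exact (hm _ _).symm
  rw [h3, lemj_det δ (fun a => z (.inl a)) h0 hi, e6, e7, Matrix.det_smul, ← RingHom.map_det,
    ← RingHom.map_det, ha, map_mul, Fintype.card_fin, ← pow_mul, mul_comm (e - 1)]
  ring

theorem Eqs.lemJ {k K : Type u} [Field k] [Field K] [Algebra k K] {d c : ℕ} (E : Eqs k d c)
    {z : Nu d c → K} (h0 : z (.inl 0) = 1) (hF : ∀ j, aeval z (E.F j) = 0) (hg : E.Gens z)
    {w : Val k K} {i₀ : Nu d c} (hw : ModelLoc z w i₀) {y : Fin d → K} (hy : CoordAt w y) :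
    ∃ T, w.v (jac k y fun i => z (.inl i.succ)) * w.v (z i₀) ^ (c * (E.e - 1)) ≤
      w.v (aeval z (E.minor T)) * w.v (z i₀) ^ (d + 1) := by
  obtain ⟨hi, h1, h2⟩ := hw
  obtain ⟨h3, y', h4, h5⟩ := hy
  obtain rfl : y = fun i => algebraMap w.sub K (y' i) := funext fun i => (h4 i).symm
  have : IsLocalRing w.sub := inferInstanceAs (IsLocalRing w.O)
  let x : Nu d c → w.sub := fun i => ⟨z i / z i₀, Val.v_le_one.1 (by
    rw [map_div₀]
    exact div_le_one_of_le₀ (h1 i) zero_le)⟩
  have e1 : ∀ G, ((aeval x G : w.sub) : K) = aeval (fun i => z i / z i₀) G := fun G =>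
    comp_aeval_apply x w.sub.val G
  obtain ⟨T, a, ha⟩ := lemj_main (R := w.sub) Subtype.val_injective E.F E.hF h0 hF
    (fun n G hG hz => hg n G hG hz i₀) hi x (fun _ => rfl) (fun s => by
      obtain ⟨a, ha, b, hb, h6, h7⟩ := h2 s s.2
      rw [Algebra.adjoin_range_eq_range_aeval] at ha hb
      obtain ⟨a, rfl⟩ := ha
      obtain ⟨b, rfl⟩ := hb
      refine ⟨a, b, (w.O.valuation_eq_one_iff (aeval x b : w.sub)).2 ?_, Subtype.ext ?_⟩
      · exact (congrArg w.v (e1 b)).trans h6
      · rw [MulMemClass.coe_mul, e1, e1]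
        exact h7) y' h5 h3
  refine ⟨T, ?_⟩
  rw [← map_pow, ← map_mul, ha, map_mul, map_mul, map_pow, Eqs.minor, AlgHom.map_det]
  exact mul_le_mul_left (mul_le_of_le_one_left' (Val.v_le_one.2 a.2)) _

end

end Pool.Agent.Lib.MP_1c03d5_ag
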