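import Pool.Agent.Lib.MP_1c03d5_ag.H97Stmt
import Pool.Agent.Lib.MP_1c03d5_ag.Jac
import Pool.Agent.Lib.MP_1c03d5_ag.LemJ

/-!
# The canonical class plus a small ample class is effective
-/

open MvPolynomial

universe u

namespace Pool.Agent.Lib.MP_1c03d5_ag

noncomputable section

theorem kpsef {k K : Type u} [Field k] [IsAlgClosed k] (p : ℕ) [Fact p.Prime] [CharP k p] [Field K]
    [Algebra k K] {d c : ℕ} (z : Nu d c → K) (h0 : z (.inl 0) = 1)
    (hz : IntermediateField.adjoin k (Set.range z) = ⊤)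
    (hs : SepBasis k fun i : Fin d => z (.inl i.succ)) (hn : NoRatModel (k := k) z) (b : ℕ) :
    ∃ m, 0 < m ∧ ∃ x : K, x ≠ 0 ∧ ∀ (w : Val k K) (i₀), ModelLoc z w i₀ → ∀ y, CoordAt w y →
      w.v x * w.v (jac k y fun i => z (.inl i.succ)) ^ (m * b) ≤ w.v (z i₀) ^ (m * (2 * d)) := by
  obtain ⟨E, ⟨h1, h2, h3⟩, hg, hno⟩ := hn.exists_eqs h0 hz hs
  have em : ∀ T, C03.jacMinor z E.F Sum.inr T = aeval z (E.minor T) := fun T => by
    rw [Eqs.minor, AlgHom.map_det]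
    rfl
  obtain ⟨m, hm, x, hx, H⟩ := C03.eff_of_noRat p z (.inl 0) h0 hz (fun i : Fin d => .inl i.succ)
    hs.1.1 hs.2 E.F E.hF h1 Sum.inr E.T (by rwa [em]) E.g E.hg h2 E.rel hno b
  refine ⟨m, hm, x, hx, fun w i₀ hw y hy => ?_⟩
  obtain ⟨T, hT⟩ := E.lemJ h0 h1 hg hw hy
  have h4 := H w.O w.hk i₀ hw.2.1 T
  rw [em] at h4
  set t := w.v (z i₀)
  have ht : 0 < t := zero_lt_iff.2 (w.v.ne_zero_iff.2 hw.1)
  have h5 : w.v (jac k y fun i => z (.inl i.succ)) * t ^ (c * E.e) ≤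
      w.v (aeval z (E.minor T)) * t ^ Fintype.card (Nu d c) := by
    have e1 : c * E.e = c * (E.e - 1) + c := by
      have := E.he
      obtain ⟨n, hn⟩ : ∃ n, E.e = n + 1 := ⟨E.e - 1, by omega⟩
      rw [hn, Nat.add_sub_cancel, Nat.mul_succ]
    rw [e1, Fintype.card_sum, Fintype.card_fin, Fintype.card_fin, pow_add t, pow_add t (d + 1),
      ← mul_assoc, ← mul_assoc]
    exact mul_le_mul_left hT _
  have h6 := (mul_le_mul_right (pow_le_pow_left' h5 (m * b)) (w.v x)).trans h4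
  rw [mul_pow, ← mul_assoc, ← pow_mul, mul_add, pow_add, mul_comm (t ^ (m * (c * E.e * b))),
    show c * E.e * (m * b) = m * (c * E.e * b) by ring] at h6
  exact le_of_mul_le_mul_right h6 (pow_pos ht _)

end

end Pool.Agent.Lib.MP_1c03d5_ag
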