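import Pool.Agent.Lib.MP_1c03d5_ag.PB

/-!
# Equations of a projective model (definitions only)
-/

open MvPolynomial

universe u

namespace Pool.Agent.Lib.MP_1c03d5_ag

noncomputable section

/-- Homogeneous coordinates: `1`, a separating basis, further generators. -/
abbrev Nu (d c : ℕ) : Type := Fin (d + 1) ⊕ Fin c

variable (k : Type u) [Field k]

/-- Equations of a cone that is a complete intersection where `g ≠ 0`. -/
structure Eqs (d c : ℕ) where
  r : ℕ
  e : ℕ
  e' : ℕ
  F : Fin r → MvPolynomial (Nu d c) k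
  g : MvPolynomial (Nu d c) k
  T : Fin c → Fin r
  he : 0 < e
  hF : ∀ j, (F j).IsHomogeneous e
  hg : g.IsHomogeneous e'
  rel : ∀ j, g * F j ∈ Ideal.span (Set.range fun i => F (T i))

variable {k} {d c : ℕ}

namespace Eqs

variable (E : Eqs k d c)

/-- Maximal minors of the Jacobian matrix in the last `c` variables. -/
def minor (T : Fin c → Fin E.r) : MvPolynomial (Nu d c) k :=
  Matrix.det (Matrix.of fun i i' => pderiv (Sum.inr i') (E.F (T i)))

/-- Solutions in the good open set. -/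
def Sol {R : Type u} [CommRing R] [Algebra k R] (s : Nu d c → R) : Prop :=
  (∀ j, aeval s (E.F j) = 0) ∧ aeval s E.g ≠ 0 ∧ aeval s (E.minor E.T) ≠ 0

/-- The equations generate the ideal of the point `z` on every standard chart. -/
def Gens {K : Type u} [Field K] [Algebra k K] (z : Nu d c → K) : Prop :=
  ∀ (n : ℕ) (G : MvPolynomial (Nu d c) k), G.IsHomogeneous n → aeval z G = 0 →
    ∀ i, ∃ N, X i ^ N * G ∈ Ideal.span (Set.range E.F)

end Eqs

variable {K : Type u} [Field K] [Algebra k K]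

/-- The valuation ring is a local ring of the chart `z i₀ ≠ 0` of the model. -/
def ModelLoc {ι : Type} (z : ι → K) (w : Val k K) (i₀ : ι) : Prop :=
  z i₀ ≠ 0 ∧ (∀ i, w.v (z i) ≤ w.v (z i₀)) ∧ ∀ x ∈ w.O,
    ∃ a ∈ Algebra.adjoin k (Set.range fun i => z i / z i₀),
      ∃ b ∈ Algebra.adjoin k (Set.range fun i => z i / z i₀), w.v b = 1 ∧ x * b = a

/-- No rational curve meets a dense open subset of the model. -/
def NoRatModel {ι : Type} (z : ι → K) : Prop :=
  ∃ g : Algebra.adjoin k (Set.range z), g ≠ 0 ∧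
    ∀ ρ : Algebra.adjoin k (Set.range z) →ₐ[k] RatFunc k, ρ g ≠ 0 →
      ∀ a, ρ a ∈ (algebraMap k (RatFunc k)).range

/-- Divisorial valuations. -/
def IsDiv (w : Val k K) : Prop :=
  ∃ (n : ℕ) (y : Fin (n + 1) → K), IsTranscendenceBasis k y ∧ (∀ i, y i ∈ w.O) ∧ w.v (y 0) < 1 ∧
    ∀ G : MvPolynomial (Fin (n + 1)) k, ¬ X 0 ∣ G → w.v (aeval y G) = 1

end

end Pool.Agent.Lib.MP_1c03d5_ag
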