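import Pool.Agent.Lib.MP_1c03d5_ag.Gen1
import Pool.Agent.Lib.MP_1c03d5_ag.Eqs

/-!
# TASK RATM: no rational curves on a model of the function field
-/

universe u

namespace Pool.Agent.Lib.MP_1c03d5_ag

noncomputable section

open Polynomial in
/-- Specialisation of a Galois extension that is already defined over a subring. -/
theorem ratm_core {B K K' : Type*} [CommRing B] [Field K] [Field K'] [Algebra B K] [Algebra K K']
    [Algebra B K'] [IsScalarTower B K K'] [FiniteDimensional K K'] [IsGalois K K']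
    (hinj : Function.Injective (algebraMap B K)) (θ : K') (P : B[X]) (hm : P.Monic)
    (hs : P.Separable) (hP : P.map (algebraMap B K) = minpoly K θ)
    (hγ : ∀ γ : K' ≃ₐ[K] K', γ θ ∈ Algebra.adjoin B {θ}) {F Ω : Type*} [Field F] [Field Ω]
    [Algebra F Ω] [IsAlgClosed Ω] (ρ : B →+* F) :
    ∃ ρ' : Algebra.adjoin B {θ} →+* Ω, (∀ b, ρ' (algebraMap B _ b) = algebraMap F Ω (ρ b)) ∧
      (∀ x, IsSeparable F (ρ' x)) ∧ ∀ γ : Ω ≃ₐ[F] Ω, ∃ γ' : K' ≃ₐ[K] K',
        ∀ x y : Algebra.adjoin B {θ}, (y : K') = γ' x → γ (ρ' x) = ρ' y := by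
  classical
  have hint : IsIntegral K θ := .of_finite K θ
  have hd : (P.map ρ).degree ≠ 0 := by
    rw [hm.degree_map, ← hm.degree_map (algebraMap B K), hP]
    exact (minpoly.degree_pos hint).ne'
  obtain ⟨β, hβ⟩ := IsAlgClosed.exists_aeval_eq_zero Ω (P.map ρ) hd
  let θ' : Algebra.adjoin B {θ} := ⟨θ, Algebra.self_mem_adjoin_singleton B θ⟩
  let f : B[X] →+* Algebra.adjoin B {θ} := (aeval θ').toRingHom
  have hfv : ∀ (x : Algebra.adjoin B {θ}) (q : B[X]),
      ((aeval x q : Algebra.adjoin B {θ}) : K') = aeval (x : K') q := fun x q =>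
    (aeval_algHom_apply (Algebra.adjoin B {θ}).val x q).symm
  have hf : Function.Surjective f := fun x => by
    obtain ⟨q, hq⟩ := (Algebra.adjoin_singleton_eq_range_aeval B θ).le x.2
    exact ⟨q, Subtype.ext ((hfv θ' q).trans hq)⟩
  let e : B[X] →+* Ω := (aeval β).toRingHom.comp (mapRingHom ρ)
  have hker : RingHom.ker f ≤ RingHom.ker e := fun q hq => by
    have h1 : aeval θ (q.map (algebraMap B K)) = 0 := by
      rw [aeval_map_algebraMap, ← hfv θ' q]
      exact congrArg Subtype.val hq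
    have h2 := minpoly.dvd K θ h1
    rw [← hP, map_dvd_map _ hinj hm] at h2
    obtain ⟨c, rfl⟩ := h2
    have h3 : e P = 0 := hβ
    rw [RingHom.mem_ker, map_mul, h3, zero_mul]
  let ρ' := f.liftOfSurjective hf ⟨e, hker⟩
  have h1 : ∀ q, ρ' (aeval θ' q) = aeval β (q.map ρ) := fun q =>
    f.liftOfSurjective_comp_apply hf ⟨e, hker⟩ q
  have h2 : ∀ b, ρ' (algebraMap B _ b) = algebraMap F Ω (ρ b) := fun b => by
    simpa using h1 (C b)
  have h3 : ∀ (x : Algebra.adjoin B {θ}) (q : B[X]),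
      ρ' (aeval x q) = aeval (ρ' x) (q.map ρ) := fun x q =>
    map_aeval_eq_aeval_map (RingHom.ext fun b => (h2 b).symm) q x
  refine ⟨ρ', h2, fun x => ?_, fun γ => ?_⟩
  · obtain ⟨q, rfl⟩ := hf x
    have hsep : β ∈ separableClosure F Ω :=
      mem_separableClosure_iff.2 ((hs.map (f := ρ)).of_dvd (minpoly.dvd F β hβ))
    have h4 : aeval β (q.map ρ) ∈ separableClosure F Ω := by
      have := aeval_mem_adjoin_singleton F β (p := q.map ρ)
      exact Algebra.adjoin_le (S := (separableClosure F Ω).toSubalgebra)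
        (Set.singleton_subset_iff.2 hsep) this
    exact (h1 q).symm ▸ mem_separableClosure_iff.1 h4
  · obtain ⟨Q, hQ⟩ := Algebra.IsInvariant.charpoly_mem_lifts K K' (K' ≃ₐ[K] K') θ
    have hQ0 : aeval θ Q = 0 := by
      rw [← eval_map_algebraMap, ← coe_mapRingHom, hQ, MulSemiringAction.eval_charpoly]
    let Q' : (Algebra.adjoin B {θ})[X] := ∏ g : K' ≃ₐ[K] K', (X - C ⟨g θ, hγ g⟩)
    have hdv : P.map (algebraMap B (Algebra.adjoin B {θ})) ∣ Q' := by
      rw [← map_dvd_map (algebraMap (Algebra.adjoin B {θ}) K') Subtype.val_injective (hm.map _),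
        Polynomial.map_map, ← IsScalarTower.algebraMap_eq, IsScalarTower.algebraMap_eq B K K',
        ← Polynomial.map_map, hP]
      have h5 : Q'.map (algebraMap (Algebra.adjoin B {θ}) K') = Q.map (algebraMap K K') := by
        rw [← coe_mapRingHom (algebraMap K K'), hQ, MulSemiringAction.charpoly_eq,
          Polynomial.map_prod]
        refine Finset.prod_congr rfl fun g _ => ?_
        rw [Polynomial.map_sub, map_X, map_C]
        rfl
      rw [h5]
      exact Polynomial.map_dvd _ (minpoly.dvd K θ hQ0)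
    obtain ⟨c, hc⟩ := hdv
    have h6 : eval₂ ρ' (γ β) Q' = 0 := by
      have h7 : ρ'.comp (algebraMap B _) = (algebraMap F Ω).comp ρ := RingHom.ext h2
      rw [hc, eval₂_mul, eval₂_map, h7, ← eval₂_map, ← aeval_def, aeval_algHom_apply, hβ, map_zero,
        zero_mul]
    rw [eval₂_finsetProd, Finset.prod_eq_zero_iff] at h6
    obtain ⟨g, -, hg⟩ := h6
    rw [eval₂_sub, eval₂_X, eval₂_C, sub_eq_zero] at hg
    refine ⟨g, fun x y hy => ?_⟩
    obtain ⟨q, rfl⟩ := hf x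
    have h8 : y = aeval (⟨g θ, hγ g⟩ : Algebra.adjoin B {θ}) q := Subtype.ext (by
      rw [hy, hfv]
      exact (congrArg g (hfv θ' q)).trans
        (aeval_algHom_apply (g.restrictScalars B) θ q).symm)
    rw [h8, h3, ← hg, aeval_algHom_apply]
    exact congrArg γ (h1 q)

open Polynomial in
/-- Spreading out a finite Galois extension over a principal open set. -/
theorem ratm_spread {R K K' : Type*} [CommRing R] [IsDomain R] [Field K] [Field K'] [Algebra R K]
    [IsFractionRing R K] [Algebra K K'] [FiniteDimensional K K'] [IsGalois K K'] (T : Finset K') :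
    ∃ g : R, g ≠ 0 ∧ ∃ C : Subring K', (∀ t ∈ T, t ∈ C) ∧
      (∀ γ : K' ≃ₐ[K] K', ∀ x ∈ C, γ x ∈ C) ∧
      ∃ hR : ∀ r, algebraMap K K' (algebraMap R K r) ∈ C,
      ∀ (F Ω : Type u) [Field F] [Field Ω] [Algebra F Ω] [IsAlgClosed Ω] (ρ : R →+* F), ρ g ≠ 0 →
        ∃ ρ' : C →+* Ω, (∀ r, ρ' ⟨_, hR r⟩ = algebraMap F Ω (ρ r)) ∧ (∀ x, IsSeparable F (ρ' x)) ∧
          ∀ γ : Ω ≃ₐ[F] Ω, ∃ γ' : K' ≃ₐ[K] K', ∀ x y : C, (y : K') = γ' x → γ (ρ' x) = ρ' y := by
  classical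
  obtain ⟨θ, hθ⟩ := Field.exists_primitive_element K K'
  have hint : IsIntegral K θ := .of_finite K θ
  have hq : ∀ x : K', ∃ q : K[X], aeval θ q = x := fun x => by
    have h : x ∈ (IntermediateField.adjoin K {θ}).toSubalgebra := by rw [hθ]; trivial
    rw [IntermediateField.adjoin_simple_toSubalgebra_of_isAlgebraic hint.isAlgebraic,
      Algebra.adjoin_singleton_eq_range_aeval] at h
    exact h
  choose q hq using hq
  obtain ⟨a, b, hab⟩ : (minpoly K θ).Separable := Algebra.IsSeparable.isSeparable K θ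
  let W : Finset K[X] := {minpoly K θ, a, b} ∪
    (T ∪ Finset.univ.image fun γ : K' ≃ₐ[K] K' => γ θ).image q
  obtain ⟨g, hg⟩ := IsLocalization.exist_integer_multiples_of_finset (nonZeroDivisors R)
    (W.biUnion coeffs)
  have hS : Submonoid.powers (g : R) ≤ nonZeroDivisors R := Submonoid.powers_le.2 g.2
  let B := Localization.subalgebra.ofField K _ hS
  have hg0 : algebraMap R K g ≠ 0 := IsFractionRing.to_map_ne_zero_of_mem_nonZeroDivisors g.2
  have hW : ∀ p ∈ W, p ∈ lifts (algebraMap B K) := fun p hp =>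
    (lifts_iff_coeffs_subset_range p).2 fun c hc => by
      obtain ⟨r, hr⟩ := hg c (Finset.mem_biUnion.2 ⟨p, hp, hc⟩)
      refine ⟨⟨c, r, g, Submonoid.mem_powers _, ?_⟩, rfl⟩
      rw [hr, Algebra.smul_def, mul_comm, inv_mul_cancel_left₀ hg0]
  have hinj : Function.Injective (algebraMap B K) := Subtype.val_injective
  obtain ⟨P, hP, -, hm⟩ := lifts_and_natDegree_eq_and_monic (hW (minpoly K θ) (by simp [W]))
    (minpoly.monic hint)
  obtain ⟨a', ha⟩ := (mem_lifts _).1 (hW a (by simp [W]))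
  obtain ⟨b', hb⟩ := (mem_lifts _).1 (hW b (by simp [W]))
  have hs : P.Separable := ⟨a', b', map_injective _ hinj (by
    rw [Polynomial.map_add, Polynomial.map_mul, Polynomial.map_mul, ← derivative_map, hP, ha, hb,
      hab, Polynomial.map_one])⟩
  have hmem : ∀ x ∈ T ∪ Finset.univ.image fun γ : K' ≃ₐ[K] K' => γ θ,
      x ∈ Algebra.adjoin B {θ} := fun x hx => by
    obtain ⟨p, hp⟩ := (mem_lifts _).1
      (hW (q x) (Finset.mem_union_right _ (Finset.mem_image_of_mem q hx)))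
    rw [← hq x, ← hp, aeval_map_algebraMap]
    exact aeval_mem_adjoin_singleton B θ
  have hγ : ∀ γ : K' ≃ₐ[K] K', γ θ ∈ Algebra.adjoin B {θ} := fun γ =>
    hmem _ (Finset.mem_union_right _ (Finset.mem_image_of_mem _ (Finset.mem_univ γ)))
  refine ⟨g, nonZeroDivisors.ne_zero g.2, (Algebra.adjoin B {θ}).toSubring,
    fun t ht => hmem t (Finset.mem_union_left _ ht), fun γ x hx => ?_,
    fun r => (Algebra.adjoin B {θ}).algebraMap_mem (algebraMap R B r),
    fun F Ω _ _ _ _ ρ hρ => ?_⟩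
  · have hx' : x ∈ Algebra.adjoin B {θ} := hx
    rw [Algebra.adjoin_singleton_eq_range_aeval] at hx'
    obtain ⟨p, rfl⟩ := hx'
    have h1 : γ (aeval θ p) = aeval (γ θ) p := (aeval_algHom_apply (γ.restrictScalars B) θ p).symm
    have h2 : aeval (γ θ) p ∈ Algebra.adjoin B {θ} :=
      Algebra.adjoin_le (Set.singleton_subset_iff.2 (hγ γ)) (aeval_mem_adjoin_singleton B (γ θ))
    exact h1 ▸ h2
  · obtain ⟨ρ', h1, h2, h3⟩ := ratm_core hinj θ P hm hs hP hγ (Ω := Ω)
      (IsLocalization.Away.lift (S := B) (g : R) (g := ρ) (Ne.isUnit hρ))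
    refine ⟨ρ', fun r => ?_, h2, h3⟩
    rw [← IsLocalization.Away.lift_eq (S := B) (g : R) (g := ρ) (Ne.isUnit hρ) r, ← h1]
    rfl

theorem Gen.noRatModel {k : Type u} [Field k] {P : EqRel k} (h : P.NoRat) (Γ : Gen P) {ι : Type}
    [Finite ι] (z : ι → Γ.K) (hz : IntermediateField.adjoin k (Set.range z) = ⊤) :
    NoRatModel (k := k) z := by
  classical
  have := Fintype.ofFinite ι
  obtain ⟨⟨i, φ⟩, hσ⟩ := Γ.ne
  have hfr : IsFractionRing (Algebra.adjoin k (Set.range z)) Γ.K := IsFractionRing.of_field _ _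
    fun x => by
      have hx : x ∈ IntermediateField.adjoin k (Set.range z) := by rw [hz]; trivial
      obtain ⟨r, hr, s, hs, e⟩ := IntermediateField.mem_adjoin_iff_div.1 hx
      exact ⟨⟨r, hr⟩, ⟨s, hs⟩, e⟩
  obtain ⟨t, ht⟩ := Fam.Pt.range_fg (⟨i, φ⟩ : P.Pt Γ.K')
  choose a b hb hab using fun l => Fam.Pt.mem_fld.1 (Γ.K_le_fld hσ (z l).2)
  obtain ⟨g, hg, C, hT, hG, hR, H⟩ := ratm_spread.{u} (R := Algebra.adjoin k (Set.range z))
    (K := Γ.K) (t ∪ Finset.univ.image fun l => (φ (b l))⁻¹)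
  refine ⟨g, hg, fun ρ hρ => ?_⟩
  obtain ⟨ρ', h1, h2, h3⟩ := H (RatFunc k) (Om k) ρ.toRingHom hρ
  let C' : Subalgebra k Γ.K' := { C with algebraMap_mem' := fun c => hR (algebraMap k _ c) }
  let ρ'' : C' →ₐ[k] Om k := { ρ' with
    commutes' := fun c => (h1 (algebraMap k _ c)).trans (by
      rw [AlgHom.toRingHom_eq_coe, RingHom.coe_coe, AlgHom.commutes,
        ← IsScalarTower.algebraMap_apply]) }
  have hφ : ∀ x, φ x ∈ C' := fun x => by
    have h4 : φ.range ≤ C' := by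
      rw [← ht]
      exact Algebra.adjoin_le fun y hy => hT y (Finset.mem_union_left _ hy)
    exact h4 ⟨x, rfl⟩
  have hc := h ⟨i, ρ''.comp (φ.codRestrict C' hφ)⟩ (fun x => h2 _) fun γ => by
    obtain ⟨γ', hγ'⟩ := h3 γ
    have h4 : γ'.restrictScalars k ∈ Γ.G := Γ.mem_G_of_fix _ fun x hx => γ'.commutes ⟨x, hx⟩
    have h5 : P.Rel (⟨i, ((γ'.restrictScalars k).toAlgHom.comp φ).codRestrict C'
        fun x => hG γ' _ (hφ x)⟩ : P.Pt C') ⟨i, φ.codRestrict C' hφ⟩ :=
      PreRel.Rel.of_map (φ := C'.val) Subtype.val_injective (Γ.rel _ (Γ.act_mem h4 hσ) _ hσ)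
    have h6 := h5.map ρ''
    have h7 : ρ''.comp (((γ'.restrictScalars k).toAlgHom.comp φ).codRestrict C'
        fun x => hG γ' _ (hφ x)) =
        (γ.restrictScalars k).toAlgHom.comp (ρ''.comp (φ.codRestrict C' hφ)) :=
      AlgHom.ext fun x => (hγ' ⟨φ x, hφ x⟩ ⟨γ' (φ x), hG γ' _ (hφ x)⟩ rfl).symm
    simp only [Fam.Pt.map] at h6 ⊢
    rwa [h7] at h6
  have hzl : ∀ l, ρ ⟨z l, Algebra.subset_adjoin ⟨l, rfl⟩⟩ ∈ (⊥ : Subalgebra k (RatFunc k)) := by
    intro l
    obtain ⟨ca, hca⟩ := hc (a l)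
    obtain ⟨cb, hcb⟩ := hc (b l)
    have hi : (φ (b l))⁻¹ ∈ C :=
      hT _ (Finset.mem_union_right _ (Finset.mem_image_of_mem _ (Finset.mem_univ l)))
    have e1 : ρ' ⟨φ (b l), hφ _⟩ * ρ' ⟨_, hi⟩ = 1 := by
      rw [← map_mul, ← map_one ρ']
      exact congrArg ρ' (Subtype.ext (mul_inv_cancel₀ (hb l)))
    have e2 : ρ' ⟨_, hR ⟨z l, Algebra.subset_adjoin ⟨l, rfl⟩⟩⟩ * ρ' ⟨φ (b l), hφ _⟩ =
        ρ' ⟨φ (a l), hφ _⟩ := by
      rw [← map_mul]
      exact congrArg ρ' (Subtype.ext (hab l))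
    have e3 : algebraMap k (Om k) ca = ρ' ⟨φ (a l), hφ _⟩ := hca
    have e4 : algebraMap k (Om k) cb = ρ' ⟨φ (b l), hφ _⟩ := hcb
    have e5 : algebraMap k (Om k) cb ≠ 0 := e4 ▸ left_ne_zero_of_mul_eq_one e1
    refine Algebra.mem_bot.2 ⟨ca / cb, (algebraMap (RatFunc k) (Om k)).injective ?_⟩
    rw [← IsScalarTower.algebraMap_apply, map_div₀, div_eq_iff e5, e3, e4, ← e2, h1]
    rfl
  rintro ⟨x, hx⟩
  refine Algebra.mem_bot.1 ?_
  induction hx using Algebra.adjoin_induction with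
  | mem x hx =>
    obtain ⟨l, rfl⟩ := hx
    exact hzl l
  | algebraMap c => exact (ρ.commutes c).symm ▸ Subalgebra.algebraMap_mem _ c
  | add x y hx hy h1 h2 => exact (map_add ρ ⟨x, hx⟩ ⟨y, hy⟩).symm ▸ add_mem h1 h2
  | mul x y hx hy h1 h2 => exact (map_mul ρ ⟨x, hx⟩ ⟨y, hy⟩).symm ▸ mul_mem h1 h2

end

end Pool.Agent.Lib.MP_1c03d5_ag
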