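import Pool.Agent.Lib.MP_1c03d5_ag.TrV
import Pool.Agent.Lib.MP_1c03d5_ag.Div3
import Pool.Agent.Lib.MP_1c03d5_ag.Div4
import Pool.Agent.Lib.MP_1c03d5_ag.Kpsef
import Pool.Agent.Lib.MP_1c03d5_ag.Ratm
import Pool.Agent.Lib.MP_1c03d5_ag.Big

/-!
# TASK STEP: big bundles of arbitrarily small slope on every subvariety
-/

universe u

namespace Pool.Agent.Lib.MP_1c03d5_ag

noncomputable section

section aux

variable {k K : Type u} [Field k] [Field K] [Algebra k K]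

/-- Elements whose value is bounded by a power of the largest value on `H`. -/
def step_Bd (k : Type u) [Field k] [Algebra k K] (H : Set K) (y : K) (N : ℕ) : Prop :=
  ∀ (w : Val k K) (t : w.O.ValueGroup), 1 ≤ t → (∀ x ∈ H, w.v x ≤ t) → w.v y ≤ t ^ N

theorem step_Bd.mono {H : Set K} {y : K} {N N' : ℕ} (h : step_Bd k H y N) (hN : N ≤ N') :
    step_Bd k H y N' := fun w t ht hH => (h w t ht hH).trans (pow_le_pow_right₀ ht hN)

theorem step_bd_adjoin {H : Set K} {y : K} (hy : y ∈ Algebra.adjoin k H) :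
    ∃ N, step_Bd k H y N := by
  induction hy using Algebra.adjoin_induction with
  | mem x hx => exact ⟨1, fun w t _ hH => by simpa using hH x hx⟩
  | algebraMap c => exact ⟨0, fun w t _ _ => by simpa using Val.v_le_one.2 (w.hk c)⟩
  | add x y _ _ hx hy =>
    obtain ⟨N, hN⟩ := hx
    obtain ⟨N', hN'⟩ := hy
    exact ⟨max N N', fun w t ht hH => w.v.map_add_le (hN.mono (le_max_left _ _) w t ht hH)
      (hN'.mono (le_max_right _ _) w t ht hH)⟩
  | mul x y _ _ hx hy =>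
    obtain ⟨N, hN⟩ := hx
    obtain ⟨N', hN'⟩ := hy
    exact ⟨N + N', fun w t ht hH => by
      rw [map_mul, pow_add]; exact mul_le_mul' (hN w t ht hH) (hN' w t ht hH)⟩

theorem step_bd_finset {H : Set K} {ι : Type*} (s : Finset ι) {f : ι → K}
    (h : ∀ i ∈ s, ∃ N, step_Bd k H (f i) N) : ∃ N, ∀ i ∈ s, step_Bd k H (f i) N := by
  choose! N hN using h
  exact ⟨s.sup N, fun i hi => (hN i hi).mono (Finset.le_sup hi)⟩

theorem step_bd_integral {H : Set K} {y : K} (hy : IsIntegral (Algebra.adjoin k H) y) :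
    ∃ N, step_Bd k H y N := by
  obtain ⟨f, hf, h0⟩ := hy
  obtain ⟨N, hN⟩ := step_bd_finset (k := k) (H := H) (Finset.range f.natDegree)
    (f := fun i => (f.coeff i : K)) fun i _ => step_bd_adjoin (f.coeff i).2
  refine ⟨N, fun w t ht hH => ?_⟩
  by_contra hlt
  rw [not_le] at hlt
  have h1 : 1 < w.v y := (one_le_pow₀ ht).trans_lt hlt
  have hy0 : 0 < w.v y := zero_lt_one.trans h1
  rw [Polynomial.eval₂_eq_sum_range, Finset.sum_range_succ, hf.coeff_natDegree, map_one,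
    one_mul] at h0
  have h2 := w.v.map_sum_lt' (s := Finset.range f.natDegree)
    (f := fun i => algebraMap (Algebra.adjoin k H) K (f.coeff i) * y ^ i)
    (pow_pos hy0 f.natDegree) fun i hi => by
      rw [map_mul, map_pow]
      calc _ ≤ t ^ N * w.v y ^ i := mul_le_mul_left (hN i hi w t ht hH) _
        _ < w.v y * w.v y ^ i := mul_lt_mul_of_pos_right hlt (pow_pos hy0 _)
        _ = w.v y ^ (i + 1) := by rw [pow_succ']
        _ ≤ _ := pow_le_pow_right₀ h1.le (Finset.mem_range.1 hi)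
  rw [eq_neg_of_add_eq_zero_left h0, Valuation.map_neg, map_pow] at h2
  exact lt_irrefl _ h2

/-- A common multiplier that bounds finitely many elements. -/
theorem step_exists_mul {H : Set K} (hH : Algebra.IsAlgebraic (IntermediateField.adjoin k H) K)
    (s : Finset K) : ∃ γ : K, γ ≠ 0 ∧ ∃ N, ∀ x ∈ s, step_Bd k H (γ * x) N := by
  have := IntermediateField.isAlgebraic_adjoin_iff_top.1 hH
  obtain ⟨γ, hγ, h⟩ := Algebra.IsAlgebraic.exists_integral_multiples (Algebra.adjoin k H) s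
  refine ⟨γ, fun h0 => hγ (Subtype.ext h0), step_bd_finset s fun x hx => step_bd_integral ?_⟩
  simpa [Algebra.smul_def] using h x hx

/-- The final count of exponents. -/
theorem step_count {G : Type*} [LinearOrderedCommGroupWithZero G] {t a x J : G} (ht : 1 ≤ t)
    {N κ q m B D : ℕ} (h1 : a * t ^ κ ≤ t ^ N * J ^ q) (h2 : x * J ^ (m * B) ≤ t ^ (m * D))
    (h3 : N * (m * B) + m * D * q + 1 ≤ κ * (m * B)) : a ^ (m * B) * x ^ q * t ≤ 1 := by
  have ht0 : 0 < t := zero_lt_one.trans_le ht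
  have h4 := pow_le_pow_left' h1 (m * B)
  have h5 := pow_le_pow_left' h2 q
  rw [mul_pow, mul_pow, ← pow_mul, ← pow_mul, ← pow_mul] at h4
  rw [mul_pow, ← pow_mul, ← pow_mul] at h5
  refine le_of_mul_le_mul_right ?_ (pow_pos ht0 (N * (m * B) + m * D * q))
  calc _ = a ^ (m * B) * t ^ (N * (m * B) + m * D * q + 1) * x ^ q := by
        rw [pow_succ]; ac_rfl
    _ ≤ a ^ (m * B) * t ^ (κ * (m * B)) * x ^ q :=
        mul_le_mul_left (mul_le_mul_right (pow_le_pow_right₀ ht h3) _) _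
    _ ≤ t ^ (N * (m * B)) * J ^ (q * (m * B)) * x ^ q := mul_le_mul_left h4 _
    _ = t ^ (N * (m * B)) * (x ^ q * J ^ (m * B * q)) := by
        rw [mul_comm q (m * B)]; ac_rfl
    _ ≤ t ^ (N * (m * B)) * t ^ (m * D * q) := mul_le_mul_right h5 _
    _ = _ := by rw [one_mul, pow_add]

theorem step_arith {N κ q m c D : ℕ} (hm : 0 < m) (h1 : q ≤ c * κ)
    (h2 : c * (N * (D * c + 1)) < q) :
    N * (m * (D * c + 1)) + m * D * (q - 1) + 1 ≤ κ * (m * (D * c + 1)) := by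
  have h3 : N * (D * c + 1) < κ := lt_of_mul_lt_mul_left (h2.trans_le h1) (Nat.zero_le _)
  have h4 : m * D * (q - 1) ≤ m * D * (c * κ) := Nat.mul_le_mul_left _ ((Nat.sub_le _ _).trans h1)
  have h5 : m * (N * (D * c + 1) + 1) ≤ m * κ := Nat.mul_le_mul_left _ h3
  nlinarith

end aux

variable {k : Type u} [Field k] [IsAlgClosed k] (p : ℕ) [Fact p.Prime] [CharP k p]

include p

theorem big_step {P : CPres k} (hP : P.NoRat) (Q : Pol P.toPreRel) (hQ : Q.Room)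
    (Γ : Gen P.toEqRel) {σ₀} (hσ : σ₀ ∈ Γ.S) (n : ℕ)
    (hyp : ∀ (Γ' : Gen P.toEqRel) (φ : P.A σ₀.1 →ₐ[k] Γ'.K'), ⟨σ₀.1, φ⟩ ∈ Γ'.S →
      RingHom.ker φ < σ₀.ker → ∃ a b, n * b ≤ a ∧ Γ'.Big (P.om ^ a * Q.D ^ b)) :
    ∃ a b, 0 < b ∧ n * b ≤ a ∧ Γ.Big (P.om ^ a * Q.D ^ b) := by
  classical
  obtain ⟨d, h, hs⟩ := exists_sepBasis (k := k) (K := Γ.K)
  have : Finite Γ.S := Γ.fin
  have hdiv : ∀ σ : Γ.S, ∃ 𝒟, DivSet σ.1.2.range 𝒟 := fun σ =>
    have := Γ.isAlgebraic σ.2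
    exists_divSet p _ σ.1.range_fg
  choose 𝒟 h𝒟 using hdiv
  obtain ⟨c, z, h0, hzh, hz, hmod⟩ :=
    exists_model p Γ.K (fun σ : Γ.S => σ.1.2.range) (fun σ => σ.1.range_fg) 𝒟 h𝒟 h
  have hzh' : (fun i : Fin d => z (.inl i.succ)) = h := funext hzh
  have hs' : SepBasis k fun i => (h i : Γ.K') := hs.coe Γ.K
  obtain ⟨c', Φ, hfadj⟩ := fadj p Q hQ Γ hσ (fun i => (h i).2) hs'
    (z := fun l => (z l : Γ.K')) (fun l => (z l).2) n hyp
  obtain ⟨m, hm, x, hx, hk⟩ :=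
    kpsef p z h0 hz (hzh' ▸ hs) (Γ.noRatModel hP z hz) (2 * d * c' + 1)
  rw [hzh'] at hk
  choose cond hcm hc0 hc using fun σ : Γ.S => exists_conductor p σ.1.2.range σ.1.range_fg
  set H : Set Γ.K' := Set.range fun l => (z l : Γ.K') with hH
  have hadj : IntermediateField.adjoin k H = Γ.K := by
    have := IntermediateField.lift_adjoin k Γ.K (Set.range z)
    rw [hz, IntermediateField.lift_top, ← Set.range_comp] at this
    exact this.symm
  have halg : Algebra.IsAlgebraic (IntermediateField.adjoin k H) Γ.K' := by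
    rw [hadj]; infer_instance
  have := Fintype.ofFinite Γ.S
  obtain ⟨γ, hγ, N, hN⟩ := step_exists_mul halg
    ((Φ ×ˢ (Finset.univ : Finset Γ.S)).image fun x => x.1 / cond x.2)
  obtain ⟨e, he, a, b, κ, hb, hab, hκ, E, hE, hE0, hEu⟩ := hfadj (c' * (N * (2 * d * c' + 1)))
  have hq : c' * (N * (2 * d * c' + 1)) < p ^ e :=
    he.trans_lt (Nat.lt_pow_self (Fact.out : p.Prime).one_lt)
  have key : ∀ σ : Γ.S, ∀ w ∈ 𝒟 σ, ∀ y ∈ H,
      y * ((x : Γ.K') ^ (p ^ e - 1) * (γ * E σ) ^ (m * (2 * d * c' + 1))) ∈ w.O := by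
    intro σ w hw y₀ hy₀
    obtain ⟨i₀, hi₀⟩ := hmod σ w hw
    have hle : ∀ y ∈ H, w.v y ≤ w.v (z i₀ : Γ.K') := by
      rintro _ ⟨l, rfl⟩
      exact (w.comap_le_iff Γ.K.val _ _).1 (hi₀.2.1 l)
    have ht : 1 ≤ w.v (z i₀ : Γ.K') := by
      have := hle _ ⟨.inl 0, rfl⟩
      simpa [h0] using this
    obtain ⟨y, hy⟩ := (IsDiv.comap Γ.K ((h𝒟 σ).div w hw)).exists_coordAt p hs
    have hy' : IsCoord k fun i => (y i : Γ.K') := hy.1.coe Γ.K
    have hj : ((jac k y h : Γ.K) : Γ.K') = jac k (fun i => (y i : Γ.K')) fun i => (h i : Γ.K') :=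
      hy.1.jac_map Γ.K.val hy' h
    have h2 : w.v (x : Γ.K') * w.v ((jac k y h : Γ.K) : Γ.K') ^ (m * (2 * d * c' + 1)) ≤
        w.v (z i₀ : Γ.K') ^ (m * (2 * d)) := by
      have := hk _ i₀ hi₀ y hy
      rw [← map_pow, ← map_pow, ← map_mul, w.comap_le_iff] at this
      simpa using this
    obtain ⟨u, hu, hsum⟩ := hEu σ σ.2 i₀
    have h1 : w.v (γ * E σ) * w.v (z i₀ : Γ.K') ^ κ ≤
        w.v (z i₀ : Γ.K') ^ N * w.v ((jac k y h : Γ.K) : Γ.K') ^ (p ^ e - 1) := by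
      rw [← map_pow, ← map_mul, mul_assoc, hsum, Finset.mul_sum]
      refine w.v.map_sum_le fun φ hφ => ?_
      have e1 : γ * (φ * u φ) = γ * (φ / cond σ) * (u φ * cond σ) := by
        field_simp [hc0 σ]
      rw [e1, map_mul, hj]
      refine mul_le_mul' (hN _ (Finset.mem_image.2 ⟨(φ, σ), by simpa using hφ, rfl⟩) w _ ht hle) ?_
      refine TrReg.v_le p hs'.isCoord hy' (fun a => (h𝒟 σ).le w hw _ ⟨a, rfl⟩) (fun i => ?_)
        (fun i => Γ.K_le_fld σ.2 (y i).2) ((h𝒟 σ).loc w hw) (hc σ) (hu φ hφ)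
      obtain ⟨y', hy1, -⟩ := hy.2
      have := (y' i).2
      rw [hy1 i] at this
      exact this
    have h3 := step_count ht h1 h2 (step_arith hm hκ hq)
    rw [← Val.v_le_one, map_mul, map_mul, map_pow, map_pow]
    refine le_trans ?_ h3
    rw [mul_comm, mul_comm (w.v (x : Γ.K') ^ _)]
    exact mul_le_mul_right (hle y₀ hy₀) _
  have hreg : ∀ y ∈ H, Γ.Reg fun σ =>
      y * ((x : Γ.K') ^ (p ^ e - 1) * (γ * E σ) ^ (m * (2 * d * c' + 1))) :=
    fun y hy σ hσ' => (h𝒟 ⟨σ, hσ'⟩).hartogs _ fun w hw => key ⟨σ, hσ'⟩ w hw y hy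
  refine ⟨a, b, hb, hab, Gen.big_of (Nat.mul_pos hm (Nat.succ_pos _))
    (((hE.const_mul γ).pow (m * (2 * d * c' + 1))).const_mul ((x : Γ.K') ^ (p ^ e - 1)))
    (fun σ hσ' => ?_) ?_ (Set.finite_range _) hreg halg⟩
  · exact mul_ne_zero (pow_ne_zero _ fun h => hx (Subtype.ext h))
      (pow_ne_zero _ (mul_ne_zero hγ (hE0 σ hσ')))
  · have := hreg _ ⟨.inl 0, rfl⟩
    simpa [h0] using this

omit p [IsAlgClosed k] [Fact p.Prime] [CharP k p] in
theorem step_trdeg_le {P : EqRel k} (Γ : Gen P) {σ} (hσ : σ ∈ Γ.S) :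
    Algebra.trdeg k Γ.K' ≤ Algebra.trdeg k (P.A σ.1) := by
  have := Γ.isAlgebraic hσ
  rw [← trdeg_add_eq k σ.2.range (A := Γ.K'), trdeg_eq_zero (R := σ.2.range), add_zero]
  exact trdeg_le_of_surjective σ.2.rangeRestrict σ.2.rangeRestrict_surjective

theorem big_small_slope {P : CPres k} (hP : P.NoRat) (Q : Pol P.toPreRel) (hQ : Q.Room) (n : ℕ)
    (Γ : Gen P.toEqRel) : ∃ a b, 0 < b ∧ n * b ≤ a ∧ Γ.Big (P.om ^ a * Q.D ^ b) := by
  choose r hr using fun i =>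
    Cardinal.lt_aleph0.1 (trdeg_lt_aleph0_of_finiteType (R := k) (S := P.A i))
  obtain ⟨N, hN⟩ := (Set.finite_range r).bddAbove
  have hb : ∀ Γ : Gen P.toEqRel, ∃ t : ℕ, t ≤ N ∧ Algebra.trdeg k Γ.K' = t := fun Γ => by
    obtain ⟨σ, hσ⟩ := Γ.ne
    have h1 := step_trdeg_le Γ hσ
    rw [hr] at h1
    obtain ⟨t, ht⟩ := Cardinal.lt_aleph0.1 (h1.trans_lt (Cardinal.natCast_lt_aleph0))
    rw [ht, Nat.cast_le] at h1
    exact ⟨t, h1.trans (hN ⟨_, rfl⟩), ht⟩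
  choose t ht1 ht2 using hb
  suffices ∀ j (Γ : Gen P.toEqRel), N < t Γ + j →
      ∃ a b, 0 < b ∧ n * b ≤ a ∧ Γ.Big (P.om ^ a * Q.D ^ b) from this (N + 1) Γ (by omega)
  intro j
  induction j with
  | zero => exact fun Γ h => absurd (ht1 Γ) (by omega)
  | succ j ih =>
    intro Γ h
    obtain ⟨σ, hσ⟩ := Γ.ne
    refine big_step p hP Q hQ Γ hσ n fun Γ' φ _ hlt => ?_
    have := Γ.isAlgebraic hσ
    have h1 := trdeg_lt_of_ker_lt φ σ.2 hlt
    rw [ht2, ht2, Nat.cast_lt] at h1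
    obtain ⟨a, b, -, h2, h3⟩ := ih Γ' (by omega)
    exact ⟨a, b, h2, h3⟩

end

end Pool.Agent.Lib.MP_1c03d5_ag
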