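import Pool.Agent.Lib.MP_1c03d5_ag.Lift

/-!
# TASK UNI: one line bundle that is big on every subvariety
-/

universe u

namespace Pool.Agent.Lib.MP_1c03d5_ag

noncomputable section

open Polynomial

variable {k : Type u} [Field k] {P : EqRel k}

lemma uni_poly (Γ : Gen P) (g : ∀ i, Finset (P.A i)) : ∃ Q : Γ.K[X], Q.Monic ∧
    ∀ σ ∈ Γ.S, ∀ x ∈ g σ.1, aeval (σ.2 x) Q = 0 := by
  classical
  have hf : (⋃ σ ∈ Γ.S, σ.2 '' (g σ.1 : Set (P.A σ.1))).Finite :=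
    Γ.fin.biUnion fun σ _ => (g σ.1).finite_toSet.image _
  refine ⟨∏ y ∈ hf.toFinset, minpoly Γ.K y, monic_prod_of_monic _ _ fun y _ =>
    minpoly.monic (Algebra.IsIntegral.isIntegral y), fun σ hσ x hx => ?_⟩
  rw [map_prod]
  exact Finset.prod_eq_zero (hf.mem_toFinset.2 (Set.mem_biUnion hσ ⟨x, hx, rfl⟩))
    (minpoly.aeval _ _)

lemma uni_alg (Γ : Gen P) {g : ∀ i, Finset (P.A i)}
    (hg : ∀ i, Algebra.adjoin k (g i : Set (P.A i)) = ⊤) (F : IntermediateField k Γ.K')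
    (h : ∀ σ ∈ Γ.S, ∀ x ∈ g σ.1, IsAlgebraic F (σ.2 x)) : Algebra.IsAlgebraic F Γ.K' := by
  refine ⟨fun y => ?_⟩
  have key : IntermediateField.adjoin k (⋃ σ ∈ Γ.S, Set.range σ.2) ≤
      (algebraicClosure F Γ.K').restrictScalars k := by
    rw [IntermediateField.adjoin_le_iff]
    rintro _ ⟨_, ⟨σ, rfl⟩, _, ⟨hσ, rfl⟩, a, rfl⟩
    have : Algebra.adjoin k (g σ.1 : Set (P.A σ.1)) ≤
        ((algebraicClosure F Γ.K').restrictScalars k).toSubalgebra.comap σ.2 :=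
      Algebra.adjoin_le fun x hx => mem_algebraicClosure_iff.2 (h σ hσ x hx)
    exact this (hg σ.1 ▸ Algebra.mem_top)
  rw [Γ.gen] at key
  exact mem_algebraicClosure_iff.1 (key IntermediateField.mem_top)

lemma uni_not_top {Γ : Gen P} {σ} (_ : σ ∈ Γ.S) : ¬ σ.In (⊤ : P.Idl) := fun h =>
  one_ne_zero ((map_one σ.2).symm.trans (h (Submodule.mem_top (x := 1))))

variable [IsAlgClosed k] (p : ℕ) [Fact p.Prime] [CharP k p]

include p

/-- Bigness restricts to subvarieties outside a proper closed subset. -/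
theorem Gen.Big.restrict {Γ : Gen P} {L : P.LB} (h : Γ.Big L) : ∃ J : P.Idl, P.Inv J ∧ Γ.I ≤ J ∧
    (∀ σ ∈ Γ.S, ¬ σ.In J) ∧ ∀ Γ' : Gen P, Γ.I ≤ Γ'.I → ¬ J ≤ Γ'.I → Γ'.Big L := by
  classical
  choose g hg using fun i => (Algebra.FiniteType.out (R := k) (A := P.A i))
  obtain ⟨Q, hQ, hQ0⟩ := uni_poly Γ g
  obtain ⟨m, hm, s, -, hs0, hs, -, -, ha⟩ := Γ.sect p h (fun _ => uni_not_top)
    ((Finset.range (Q.natDegree + 1)).image fun n => (Q.coeff n : Γ.K'))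
  have ha' : ∀ n, ∃ a : P.El, n < Q.natDegree + 1 →
      ∀ σ ∈ Γ.S, σ.val a = (Q.coeff n : Γ.K') * σ.val s := fun n => by
    by_cases hn : n < Q.natDegree + 1
    · obtain ⟨a, h1⟩ := ha _ (Finset.mem_image_of_mem _ (Finset.mem_range.2 hn)) (Q.coeff n).2
      exact ⟨a, fun _ => h1⟩
    · exact ⟨0, fun h => absurd h hn⟩
  choose a ha using ha'
  have hsec := Γ.isSec_iff.2 hs
  refine ⟨_, PreRel.IsSec.inv_span Γ.inv_I (f := fun _ : Unit => s) fun _ => hsec,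
    fun _ => le_sup_right, fun σ hσ h => hs0 σ hσ
      (h (Ideal.mem_sup_left (Ideal.subset_span ⟨(), rfl⟩))), fun Γ' hI hJ => ?_⟩
  have hrs := Γ'.rs_of_isSec hsec hI
  have hnz : Γ'.Nz fun σ => σ.val s := by
    by_contra hn
    refine hJ fun i => sup_le (Ideal.span_le.2 ?_) (hI i)
    rintro _ ⟨_, rfl⟩
    refine Γ'.mem_I.2 fun φ hφ => ?_
    by_contra h0
    exact hn (hrs.nz hφ h0)
  have hc : ∀ n, ∃ c : Γ'.K', n < Q.natDegree + 1 → ∀ σ ∈ Γ'.S, σ.val (a n) = c * σ.val s :=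
    fun n => by
      by_cases hn : n < Q.natDegree + 1
      · obtain ⟨c, h1⟩ := (Γ'.rs_of_isSec (Γ.isSec_iff.2 ((hs.const_mul _).congr
          fun σ hσ => (ha n hn σ hσ).symm)) hI).exists_eq_mul hrs hnz
        exact ⟨c, fun _ => h1⟩
      · exact ⟨0, fun h => absurd h hn⟩
  choose c hc using hc
  refine Gen.big_of hm hrs hnz (Gen.reg_val s) (H := c '' Set.Iio (Q.natDegree + 1))
    ((Set.finite_Iio _).image c) ?_ (uni_alg Γ' hg _ fun σ hσ x hx => ?_)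
  · rintro _ ⟨n, hn, rfl⟩ σ hσ
    have := Gen.reg_val (a n) σ hσ
    simp only [hc n hn σ hσ] at this
    exact this
  have h1 : ∑ n ∈ Finset.range (Q.natDegree + 1), a n σ.1 * x ^ n ∈ Γ.I σ.1 := by
    refine Γ.mem_I.2 fun φ hφ => ?_
    have := hQ0 _ hφ x hx
    rw [aeval_eq_sum_range] at this
    rw [map_sum, ← mul_zero (φ (s σ.1)), ← this, Finset.mul_sum]
    refine Finset.sum_congr rfl fun n hn => ?_
    rw [map_mul, map_pow, show φ (a n σ.1) = _ from ha n (Finset.mem_range.1 hn) _ hφ,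
      IntermediateField.smul_def, smul_eq_mul]
    ring
  have h2 : a Q.natDegree σ.1 - s σ.1 ∈ Γ.I σ.1 := by
    refine Γ.mem_I.2 fun φ hφ => ?_
    rw [map_sub, show φ (a _ σ.1) = _ from ha _ (Nat.lt_succ_self _) _ hφ, hQ.coeff_natDegree]
    simp
  have h3 : c Q.natDegree = 1 := by
    have e := Γ'.in_I hσ (hI _ h2)
    rw [RingHom.mem_ker, map_sub, show σ.2 (a _ σ.1) = _ from hc _ (Nat.lt_succ_self _) σ hσ,
      sub_eq_zero] at e
    exact (mul_eq_right₀ (hnz σ hσ)).1 e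
  have h4 : ∑ n ∈ Finset.range (Q.natDegree + 1), c n * σ.2 x ^ n = 0 := by
    have e := Γ'.in_I hσ (hI _ h1)
    rw [RingHom.mem_ker, map_sum] at e
    refine (mul_eq_zero_iff_left (hnz σ hσ)).1 ?_
    rw [← e, Finset.mul_sum]
    refine Finset.sum_congr rfl fun n hn => ?_
    rw [map_mul, map_pow, show σ.2 (a n σ.1) = _ from hc n (Finset.mem_range.1 hn) σ hσ]
    ring
  set F := IntermediateField.adjoin k (c '' Set.Iio (Q.natDegree + 1))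
  let c' : ℕ → F := fun n => if hn : n < Q.natDegree + 1 then
    ⟨c n, IntermediateField.subset_adjoin _ _ ⟨n, hn, rfl⟩⟩ else 0
  refine ⟨∑ n ∈ Finset.range (Q.natDegree + 1), monomial n (c' n), fun h0 => ?_, ?_⟩
  · have := congrArg (fun q : F[X] => ((coeff q Q.natDegree : F) : Γ'.K')) h0
    simp [finsetSum_coeff, coeff_monomial, c', h3] at this
  · rw [map_sum, ← h4]
    refine Finset.sum_congr rfl fun n hn => ?_
    rw [aeval_monomial]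
    simp only [c', dif_pos (Finset.mem_range.1 hn)]
    rfl

theorem exists_big_all (L L' : P.LB)
    (h : ∀ (n : ℕ) (Γ : Gen P), ∃ a b, 0 < b ∧ n * b ≤ a ∧ Γ.Big (L ^ a * L' ^ b)) :
    ∃ M : P.LB, ∀ Γ : Gen P, Γ.Big M := by
  have up : ∀ (Γ : Gen P) (a b a' : ℕ), 0 < b → Γ.Big (L ^ a * L' ^ b) → a ≤ a' →
      Γ.Big (L ^ a' * L' ^ 1) := fun Γ a b a' hb hB ha => by
    obtain ⟨a₂, b₂, hb₂, h1, h2⟩ := h a' Γ
    exact hB.convex h2 hb hb₂ one_pos (by nlinarith) (by omega)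
  have key := inv_induction (P := P)
    (Q := fun I => ∃ a, ∀ Γ : Gen P, I ≤ Γ.I → Γ.Big (L ^ a * L' ^ 1)) (I := ⊥)
    (fun I hI hr ih => ?_) PreRel.Inv.bot fun _ => Ideal.isRadical_bot
  · obtain ⟨a, ha⟩ := key
    exact ⟨_, fun Γ => ha Γ bot_le⟩
  by_cases ht : I = ⊤
  · refine ⟨0, fun Γ hΓ => ?_⟩
    obtain ⟨σ, hσ⟩ := Γ.ne
    exact absurd (fun x _ => Γ.in_I hσ (hΓ _ (ht ▸ Submodule.mem_top))) (uni_not_top hσ)
  obtain ⟨Γ, 𝔠, h𝔠, hr𝔠, rfl, hn⟩ := exists_component hI hr ht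
  obtain ⟨a₀, b₀, hb₀, -, hB⟩ := h 0 Γ
  obtain ⟨J, hJ, hIJ, hnJ, hres⟩ := hB.restrict p
  obtain ⟨σ, hσ⟩ := Γ.ne
  have hin : σ.In (Γ.I ⊓ 𝔠) := inf_le_left.trans (Γ.in_I hσ)
  obtain ⟨a₁, h₁⟩ := ih 𝔠 h𝔠 hr𝔠 (lt_of_le_of_ne inf_le_right fun e => hn σ hσ (e ▸ hin))
  obtain ⟨a₂, h₂⟩ := ih _ (EqRel.inv_radical hJ) (fun i => (J i).radical_isRadical)
    (lt_of_le_of_ne (fun i => inf_le_left.trans ((hIJ i).trans Ideal.le_radical))
      fun e => hnJ σ hσ (Ideal.le_radical.trans ((congrFun e σ.1).ge.trans hin)))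
  refine ⟨a₀ + a₁ + a₂, fun Γ' hΓ' => ?_⟩
  obtain ⟨τ, hτ⟩ := Γ'.ne
  rcases (RingHom.ker_isPrime τ.2).inf_le.1 ((hΓ' τ.1).trans (Γ'.in_I hτ)) with h1 | h1
  · by_cases h2 : J ≤ Γ'.I
    · exact up _ _ _ _ one_pos (h₂ Γ' fun i => (Γ'.I_radical i).radical_le_iff.2 (h2 i)) (by omega)
    · exact up _ _ _ _ hb₀ (hres Γ' (Γ'.le_I Γ.inv_I hτ h1) h2) (by omega)
  · exact up _ _ _ _ one_pos (h₁ Γ' (Γ'.le_I h𝔠 hτ h1)) (by omega)

end

end Pool.Agent.Lib.MP_1c03d5_ag
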