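import Pool.Agent.Lib.MP_1c03d5_ag.PolX
import Pool.Agent.Lib.MP_1c03d5_ag.Room
import Pool.Agent.Lib.MP_1c03d5_ag.Step
import Pool.Agent.Lib.MP_1c03d5_ag.Uni
import Pool.Agent.Lib.MP_1c03d5_ag.Nak
import Pool.Agent.Lib.MP_1c03d5_ag.Fin4
import Pool.Agent.Lib.MP_1c03d5_ag.Comp

/-!
# The algebraic core
-/

universe u

namespace Pool.Agent.Lib.MP_1c03d5_ag

noncomputable section

variable {k : Type u} [Field k] [IsAlgClosed k] (p : ℕ) [Fact p.Prime] [CharP k p]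

include p

theorem CPres.emb (P : CPres k) (hP : P.NoRat) : P.Emb := by
  obtain ⟨P', ρ, hρ, Q, hQ⟩ := exists_pol p P
  have hP' : P'.NoRat := noRat_of_refines ρ (fun σ τ => (hρ _ σ τ).1) hP
  obtain ⟨M, hM⟩ := exists_big_all (P := P'.toEqRel) p P'.om Q.D
    (big_small_slope p hP' Q hQ.room)
  obtain ⟨m, hm, β, _, t, h1, h2⟩ := nakai p hM
  obtain ⟨E⟩ := Gsec.embOn p (P := P') ⟨fun Γ => (Gen.big_pow_iff hm).2 (hM Γ), h1, h2⟩
  exact ⟨P'.toFam, ρ, ⟨{ E with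
    prop := fun C _ _ σ τ h => E.prop C σ τ ((hρ C σ τ).2 h)
    rel := fun t ht C _ _ i j σ τ h => (hρ C _ _).1 (E.rel t ht C i j σ τ h) }⟩⟩

theorem Pres.emb (P : Pres k) (hP : P.NoRat) : P.Emb := emb_of_connected (CPres.emb p) P hP

end

end Pool.Agent.Lib.MP_1c03d5_ag
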