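import Mathlib

/-!
Algebraic spaces over a base scheme as functors of points; smooth, proper and projective spaces;
rational curves.
-/

open CategoryTheory Limits AlgebraicGeometry Opposite

universe u

namespace Pool.Agent.Lib.MP_1c03d5_ag

noncomputable section

/-- Set-valued functors on schemes. -/
abbrev Psh : Type (u + 1) := Scheme.{u}ᵒᵖ ⥤ Type u

/-- Representable étale morphisms of functors. -/
abbrev IsEt : MorphismProperty Psh.{u} := MorphismProperty.presheaf @Etale

/-- Representable étale surjective morphisms of functors. -/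
abbrev IsEtSurj : MorphismProperty Psh.{u} := MorphismProperty.presheaf (@Etale ⊓ @Surjective)

/-- A point of `X` with values in a field. -/
structure FPt (X : Psh.{u}) where
  K : Type u
  [fld : Field K]
  x : X.obj (op (Spec (.of K)))

attribute [instance] FPt.fld

/-- Two field-valued points agree over a common extension field. -/
def FPt.Rel {X : Psh.{u}} (a b : FPt X) : Prop :=
  ∃ (L : Type u) (_ : Field L) (i : a.K →+* L) (j : b.K →+* L),
    X.map (Spec.map (CommRingCat.ofHom i)).op a.x = X.map (Spec.map (CommRingCat.ofHom j)).op b.x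

/-- The underlying set `|X|`. -/
def Pts (X : Psh.{u}) : Type (u + 1) := Quot (FPt.Rel (X := X))

/-- The map `|U| → |X|` of a morphism from a scheme. -/
def Pts.ofScheme {X : Psh.{u}} {U : Scheme.{u}} (f : yoneda.obj U ⟶ X) (y : U) : Pts X :=
  Quot.mk _ ⟨U.residueField y, f.app _ (U.fromSpecResidueField y)⟩

/-- The image of a morphism from the spectrum of a field. -/
def imPt {K : Type u} [Field K] {T : Scheme.{u}} (f : Spec (.of K) ⟶ T) : T :=
  f (IsLocalRing.closedPoint K)

/-- The image in the scheme `T` of a field-valued point of `X`. -/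
def FPt.im {X : Psh.{u}} {T : Scheme.{u}} (g : X ⟶ yoneda.obj T) (a : FPt X) : T :=
  imPt (g.app (op (Spec (.of a.K))) a.x)

lemma imPt_comp {K L : Type u} [Field K] [Field L] {T : Scheme.{u}} (f : Spec (.of K) ⟶ T)
    (i : K →+* L) : imPt (Spec.map (CommRingCat.ofHom i) ≫ f) = imPt f :=
  congrArg f (Subsingleton.elim (α := PrimeSpectrum K) _ _)

lemma FPt.im_eq {X : Psh.{u}} {T : Scheme.{u}} (g : X ⟶ yoneda.obj T) (a : FPt X) {L : Type u}
    [Field L] (i : a.K →+* L) :
    FPt.im g ⟨L, X.map (Spec.map (CommRingCat.ofHom i)).op a.x⟩ = a.im g :=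
  (congrArg (imPt (T := T))
    (NatTrans.naturality_apply g (Spec.map (CommRingCat.ofHom i)).op a.x)).trans
    (imPt_comp (g.app _ a.x) i)

/-- The map `|X| → |T|` of a morphism to a scheme. -/
def Pts.toScheme {X : Psh.{u}} {T : Scheme.{u}} (g : X ⟶ yoneda.obj T) : Pts X → T :=
  Quot.lift (FPt.im g) fun a b ⟨_, _, i, j, h⟩ => by rw [← a.im_eq g i, ← b.im_eq g j, h]

/-- The topology of `|X|`: a set is open iff its preimage in every scheme étale over `X` is open. -/
instance Pts.top (X : Psh.{u}) : TopologicalSpace (Pts X) :=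
  ⨆ (U : Scheme.{u}) (f : yoneda.obj U ⟶ X) (_ : IsEt f), .coinduced (Pts.ofScheme f) inferInstance

section

variable {S : Scheme.{u}} {X : Psh.{u}} (π : X ⟶ yoneda.obj S)

/-- `X` is an algebraic space over `S`. -/
structure IsAlgSpace : Prop where
  sheaf : Presieve.IsSheaf Scheme.etaleTopology X
  diag : yoneda.relativelyRepresentable (pullback.diagonal π)
  cover : ∃ (U : Scheme.{u}) (f : yoneda.obj U ⟶ X), IsEtSurj f

/-- `X` is smooth over `S`. -/
def IsSmoothSpace : Prop :=
  ∀ (U : Scheme.{u}) (f : yoneda.obj U ⟶ X), IsEt f → Smooth (yoneda.preimage (f ≫ π))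

/-- `X` is proper over the affine scheme `S`: separated, of finite type, universally closed. -/
structure IsProperSpace : Prop where
  separated : MorphismProperty.presheaf @IsClosedImmersion (pullback.diagonal π)
  locallyFiniteType : ∀ (U : Scheme.{u}) (f : yoneda.obj U ⟶ X), IsEt f →
    LocallyOfFiniteType (yoneda.preimage (f ≫ π))
  quasiCompact : ∃ (U : Scheme.{u}) (f : yoneda.obj U ⟶ X), IsEtSurj f ∧ CompactSpace U
  universallyClosed : ∀ (T : Scheme.{u}) (g : T ⟶ S),
    IsClosedMap (Pts.toScheme (pullback.snd π (yoneda.map g)))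

end

variable (k : Type u) [Field k]

attribute [local instance] MvPolynomial.gradedAlgebra

/-- Projective space with homogeneous coordinates indexed by `σ`. -/
def PP (σ : Type) : Scheme.{u} := Proj (MvPolynomial.homogeneousSubmodule σ k)

/-- The structure morphism of projective space. -/
def PP.str (σ : Type) : PP k σ ⟶ Spec (.of k) :=
  Proj.toSpecZero _ ≫ Spec.map (CommRingCat.ofHom (algebraMap k _))

variable {k} {X : Psh.{u}} (π : X ⟶ yoneda.obj (Spec (.of k)))

/-- `X` is isomorphic over `k` to a closed subscheme of some `ℙ^N`. -/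
def IsProjectiveSpace : Prop :=
  ∃ (N : ℕ) (Y : Scheme.{u}) (i : Y ⟶ PP k (Fin (N + 1))) (e : X ≅ yoneda.obj Y),
    IsClosedImmersion i ∧ e.hom ≫ yoneda.map (i ≫ PP.str k _) = π

/-- There is a non-constant `k`-morphism `ℙ¹ → X`. -/
def HasRationalCurve : Prop :=
  ∃ f : yoneda.obj (PP k (Fin 2)) ⟶ X, f ≫ π = yoneda.map (PP.str k _) ∧
    ∃ a b, Pts.ofScheme f a ≠ Pts.ofScheme f b

end

end Pool.Agent.Lib.MP_1c03d5_ag
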