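import Pool.Agent.Lib.MP_1c03d5_ag.PB1
import Pool.Agent.Lib.MP_1c03d5_ag.Val

/-!
# TASK DEN: ideals of denominators are locally principal
-/

universe u

namespace Pool.Agent.Lib.MP_1c03d5_ag

noncomputable section

open Polynomial

/-- A finite module of elements all of which have `p`-th roots in it consists of constants. -/
lemma den_alg {k A K : Type u} [Field k] [IsAlgClosed k] [CommRing A] [IsNoetherianRing A]
    [Field K] [Algebra k K] [Algebra A K]
    (hA : ∀ a : A, ∃ c : k, algebraMap A K a = algebraMap k K c) {p : ℕ} (hp : p.Prime)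
    {N : Submodule A K} (hN : N.FG) (h : ∀ v ∈ N, ∃ w ∈ N, w ^ p = v) {v : K} (hv : v ∈ N) :
    ∃ c : k, algebraMap k K c = v := by
  have : Module.Finite A N := Module.Finite.iff_fg.2 hN
  have h' : ∀ v : N, ∃ w : N, (w : K) ^ p = v := fun v => by
    obtain ⟨w, h1, h2⟩ := h v v.2
    exact ⟨⟨w, h1⟩, h2⟩
  choose ρ hρ using h'
  let s : ℕ → N := fun n => ρ^[n] ⟨v, hv⟩
  have hs : ∀ n, (s (n + 1) : K) ^ p = s n := fun n => by
    simp only [s, Function.iterate_succ_apply', hρ]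
  let f : ℕ →o Submodule A N := ⟨fun n => (Subalgebra.toSubmodule
    (Algebra.adjoin A {(s n : K)})).comap N.subtype, monotone_nat_of_le_succ fun n =>
      Submodule.comap_mono (Subalgebra.toSubmodule.monotone (Algebra.adjoin_le (by
        rw [Set.singleton_subset_iff, ← hs n]
        exact pow_mem (Algebra.self_mem_adjoin_singleton A _) p)))⟩
  obtain ⟨n, hn⟩ := monotone_stabilizes_iff_noetherian.2 (inferInstance : IsNoetherian A N) f
  have h1 : s (n + 1) ∈ f n := by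
    rw [hn (n + 1) n.le_succ]
    exact Algebra.self_mem_adjoin_singleton A (s (n + 1) : K)
  have h2 : ∀ x ∈ Algebra.adjoin A {(s n : K)}, x ∈ Algebra.adjoin k {(s n : K)} := by
    intro x hx
    induction hx using Algebra.adjoin_induction with
    | mem x hx => exact Algebra.subset_adjoin hx
    | algebraMap a =>
      obtain ⟨c, hc⟩ := hA a
      rw [hc]
      exact Subalgebra.algebraMap_mem _ c
    | add x y _ _ hx hy => exact add_mem hx hy
    | mul x y _ _ hx hy => exact mul_mem hx hy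
  have h3 := h2 _ h1
  rw [Algebra.adjoin_singleton_eq_range_aeval] at h3
  obtain ⟨g, hg⟩ := h3
  have h4 : IsAlgebraic k (s (n + 1) : K) := by
    refine ⟨X - expand k p g, fun h0 => ?_, ?_⟩
    · have := congrArg (coeff · 1) h0
      simp [coeff_expand hp.pos, hp.ne_one] at this
    · rw [map_sub, aeval_X, expand_aeval, hs, sub_eq_zero]
      exact hg.symm
  have h5 : ∀ m, IsIntegral k (s m : K) → IsIntegral k v := fun m => by
    induction m with
    | zero => exact id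
    | succ m ih => exact fun g => ih (hs m ▸ g.pow p)
  have h6 := h5 _ h4.isIntegral
  exact minpoly.mem_range_of_degree_eq_one k v
    (IsAlgClosed.degree_eq_one_of_irreducible k (minpoly.irreducible h6))

variable {A : Type u} [CommRing A]

/-- The degree one part of the Rees algebra. -/
def den_hat (I : Ideal A) : I →ₗ[A] reesAlgebra I where
  toFun z := ⟨monomial 1 z, reesAlgebra.monomial_mem.2 (by simp)⟩
  map_add' x y := Subtype.ext (by simp)
  map_smul' c x := Subtype.ext (by simp [smul_monomial])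

lemma den_hat_coe (I : Ideal A) (z : I) : (den_hat I z : A[X]) = monomial 1 (z : A) := rfl

/-- The extension of `𝔪` to the Rees algebra. -/
def den_M (𝔪 I : Ideal A) : Ideal (reesAlgebra I) where
  carrier := {f | ∀ n, (f : A[X]).coeff n ∈ 𝔪 * I ^ n}
  add_mem' hf hg n := by
    rw [Subalgebra.coe_add, coeff_add]
    exact add_mem (hf n) (hg n)
  zero_mem' n := by simp
  smul_mem' g f hf n := by
    rw [smul_eq_mul, Subalgebra.coe_mul, coeff_mul]
    refine Ideal.sum_mem _ fun c hc => ?_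
    rw [← Finset.HasAntidiagonal.mem_antidiagonal.1 hc, pow_add, mul_left_comm]
    exact Ideal.mul_mem_mul (g.2 c.1) (hf c.2)

lemma den_mem_M {𝔪 I : Ideal A} {f : reesAlgebra I} {n : ℕ} {w : A}
    (hf : (f : A[X]) = monomial n w) (hw : w ∈ 𝔪 * I ^ n) : f ∈ den_M 𝔪 I := fun m => by
  rw [hf, coeff_monomial]
  split_ifs with g
  · exact g ▸ hw
  · exact zero_mem _

lemma den_pow_le {p : ℕ} [Fact p.Prime] [CharP A p] {n : ℕ} {x : Fin n → A} (hx : IsPB p x)
    {b : A} {r : ℕ} (a : Fin r → A) {𝔡 : Ideal A} (h𝔡 : ∀ y, y ∈ 𝔡 ↔ ∀ l, b ∣ y * a l) (e : ℕ) :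
    𝔡 ^ p ^ e ≤ fp (p ^ e) 𝔡 := by
  have h1 : 𝔡 = ⨅ l, (Ideal.span {b}).colon {a l} := by
    ext y
    simp [h𝔡, Ideal.mem_span_singleton]
  have h2 : ∀ m l, ∀ y ∈ 𝔡 ^ m, b ^ m ∣ y * a l ^ m := by
    intro m l y hy
    induction hy using Submodule.pow_induction_on_left' with
    | algebraMap c => simp
    | add y z _ _ _ hy hz =>
      rw [add_mul]
      exact dvd_add hy hz
    | mem_mul z hz i y _ hy =>
      rw [pow_succ', show z * y * a l ^ (i + 1) = (z * a l) * (y * a l ^ i) by ring]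
      exact mul_dvd_mul ((h𝔡 z).1 hz l) hy
  intro y hy
  rw [h1, (hx.pow e).fp_iInf, Submodule.mem_iInf]
  intro l
  rw [← (hx.pow e).fp_colon, fp_span, Set.image_singleton]
  simpa [Ideal.mem_span_singleton] using h2 _ l y hy

lemma den_root {k : Type u} [Field k] [IsAlgClosed k] [Algebra k A] {p : ℕ} [Fact p.Prime]
    [CharP A p] {𝔪 I : Ideal A} (hk : ∀ a : A, ∃ c : k, a - algebraMap k A c ∈ 𝔪) {u : A}
    (hu : u ∈ fp p I) : ∃ z ∈ I, u - z ^ p ∈ 𝔪 * I ^ p := by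
  have hp : p.Prime := Fact.out
  induction hu using Submodule.span_induction with
  | mem u hu =>
    obtain ⟨z, hz, rfl⟩ := hu
    exact ⟨z, hz, by simp⟩
  | zero => exact ⟨0, zero_mem _, by simp [hp.ne_zero]⟩
  | add u v _ _ hu hv =>
    obtain ⟨z, z1, z2⟩ := hu
    obtain ⟨w, w1, w2⟩ := hv
    refine ⟨z + w, add_mem z1 w1, ?_⟩
    rw [add_pow_char, add_sub_add_comm]
    exact add_mem z2 w2
  | smul a u _ hu =>
    obtain ⟨z, z1, z2⟩ := hu
    obtain ⟨c, hc⟩ := hk a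
    obtain ⟨d, rfl⟩ := IsAlgClosed.exists_pow_nat_eq c hp.pos
    refine ⟨algebraMap k A d * z, I.mul_mem_left _ z1, ?_⟩
    have : a • u - (algebraMap k A d * z) ^ p =
        a * (u - z ^ p) + (a - algebraMap k A (d ^ p)) * z ^ p := by
      rw [map_pow, smul_eq_mul]; ring
    rw [this]
    exact add_mem (Ideal.mul_mem_left _ _ z2) (Ideal.mul_mem_mul hc (Ideal.pow_mem_pow z1 p))

/-- Modulo a prime of the fibre cone the degree one part is a line. -/
lemma den_line {k : Type u} [Field k] [IsAlgClosed k] [Algebra k A] [IsNoetherianRing A] {p : ℕ}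
    [Fact p.Prime] [CharP A p] {𝔪 I : Ideal A} (hk : ∀ a : A, ∃ c : k, a - algebraMap k A c ∈ 𝔪)
    (hI : I ^ p ≤ fp p I) {P : Ideal (reesAlgebra I)} [P.IsPrime] (hP : den_M 𝔪 I ≤ P) {δ : I}
    (hδ : den_hat I δ ∉ P) (z : I) : ∃ c : A, den_hat I z - c • den_hat I δ ∈ P := by
  have hp : p.Prime := Fact.out
  obtain ⟨q, hq⟩ : ∃ q, p = q + 1 := ⟨p - 1, (Nat.sub_add_cancel hp.pos).symm⟩
  let K := P.ResidueField
  let ψ := IsScalarTower.toAlgHom A (reesAlgebra I) K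
  have hψ : ∀ f, ψ f = 0 ↔ f ∈ P := fun f => Ideal.algebraMap_residueField_eq_zero
  let : Algebra k K := ((algebraMap A K).comp (algebraMap k A)).toAlgebra
  have h0 : ψ (den_hat I δ) ≠ 0 := fun g => hδ ((hψ _).1 g)
  let θ : I →ₗ[A] K := (ψ (den_hat I δ))⁻¹ • (ψ.toLinearMap ∘ₗ den_hat I)
  have hθ : ∀ w, θ w = (ψ (den_hat I δ))⁻¹ * ψ (den_hat I w) := fun w => rfl
  obtain ⟨c, hc⟩ := den_alg (k := k) (N := LinearMap.range θ) (fun a => by
    obtain ⟨c, hc⟩ := hk a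
    refine ⟨c, sub_eq_zero.1 ?_⟩
    change algebraMap A K a - algebraMap A K (algebraMap k A c) = 0
    rw [← map_sub, ← ψ.commutes, hψ]
    exact hP (den_mem_M (n := 0) rfl (by simpa using hc))) hp
    (Module.Finite.iff_fg.1 inferInstance) (by
      rintro _ ⟨v, rfl⟩
      obtain ⟨w, w1, w2⟩ := den_root hk (hI (show (δ : A) ^ q * v ∈ I ^ p by
        rw [hq, pow_succ]
        exact Ideal.mul_mem_mul (Ideal.pow_mem_pow δ.2 q) v.2))
      have h1 := (hψ _).2 (hP (den_mem_M (f := den_hat I δ ^ q * den_hat I v -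
        den_hat I ⟨w, w1⟩ ^ p) (by
          simp only [AddSubgroupClass.coe_sub, Subalgebra.coe_mul, Subalgebra.coe_pow,
            den_hat_coe, monomial_pow, monomial_mul_monomial, one_mul, ← hq, map_sub]) w2))
      rw [map_sub, map_mul, map_pow, map_pow, sub_eq_zero] at h1
      refine ⟨_, ⟨⟨w, w1⟩, rfl⟩, ?_⟩
      rw [hθ, hθ, mul_pow, ← h1, hq, ← mul_assoc, pow_succ', mul_assoc _⁻¹, ← mul_pow,
        inv_mul_cancel₀ h0, one_pow, mul_one]) (v := θ z) ⟨z, rfl⟩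
  refine ⟨algebraMap k A c, (hψ _).1 ?_⟩
  rw [map_sub, map_smul, Algebra.smul_def, sub_eq_zero]
  change _ = algebraMap k K c * _
  rw [hc, hθ, mul_right_comm, inv_mul_cancel₀ h0, one_mul]

lemma den_red {k : Type u} [Field k] [IsAlgClosed k] [Algebra k A] [IsNoetherianRing A] {p : ℕ}
    [Fact p.Prime] [CharP A p] {𝔪 I : Ideal A} (hk : ∀ a : A, ∃ c : k, a - algebraMap k A c ∈ 𝔪)
    (hI : ∀ e, I ^ p ^ e ≤ fp (p ^ e) I) :
    ∃ δ ∈ I, ∃ q, I ^ (q + 1) ≤ Ideal.span {δ} * I ^ q ⊔ 𝔪 • I ^ (q + 1) := by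
  have hp : p.Prime := Fact.out
  let S := {P ∈ (den_M 𝔪 I).minimalPrimes | ∃ z, den_hat I z ∉ P}
  have : Finite S := ((Ideal.finite_minimalPrimes_of_isNoetherianRing _ _).subset
    (Set.sep_subset _ _)).to_subtype
  obtain ⟨δ, hδ⟩ := Submodule.exists_forall_notMem_of_forall_ne_top (fun P : S =>
    ((P.1.restrictScalars A).comap (den_hat I)).restrictScalars k) fun P g => by
      obtain ⟨z, hz⟩ := P.2.2
      exact hz (show z ∈ ((P.1.restrictScalars A).comap (den_hat I)).restrictScalars k from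
        g ▸ Submodule.mem_top)
  let J := den_M 𝔪 I ⊔ Ideal.span {den_hat I δ}
  have h1 : ∀ z, den_hat I z ∈ J.radical := fun z => by
    rw [Ideal.radical_eq_sInf, Submodule.mem_sInf]
    rintro Q ⟨q1, q2⟩
    obtain ⟨P, p1, p2⟩ := Ideal.exists_minimalPrimes_le (le_sup_left.trans q1)
    by_contra g
    have := p1.1.1
    obtain ⟨c, hc⟩ := den_line hk (by simpa using hI 1) p1.1.2
      (hδ ⟨P, p1, z, fun g' => g (p2 g')⟩) z
    refine g ((Submodule.sub_mem_iff_left Q ?_).1 (p2 hc))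
    rw [Algebra.smul_def]
    exact Ideal.mul_mem_left Q _ (q1 (Ideal.mem_sup_right (Ideal.mem_span_singleton_self _)))
  obtain ⟨n, hn⟩ := J.exists_radical_pow_le_of_fg (IsNoetherian.noetherian _)
  obtain ⟨q, hq⟩ : ∃ q, p ^ n = q + 1 :=
    ⟨p ^ n - 1, (Nat.sub_add_cancel (pow_pos hp.pos n)).symm⟩
  refine ⟨δ, δ.2, q, hq ▸ (hI n).trans (Ideal.span_le.2 ?_)⟩
  rintro _ ⟨z, hz, rfl⟩
  have h2 : den_hat I ⟨z, hz⟩ ^ p ^ n ∈ J := hn (Ideal.pow_le_pow_right
    (Nat.lt_pow_self hp.one_lt).le (Ideal.pow_mem_pow (h1 _) _))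
  obtain ⟨m, hm, t, ht, h3⟩ := Submodule.mem_sup.1 h2
  obtain ⟨g, rfl⟩ := Ideal.mem_span_singleton'.1 ht
  have h4 := congrArg (fun f : reesAlgebra I => (f : A[X]).coeff (q + 1)) h3
  simp only [Subalgebra.coe_add, Subalgebra.coe_mul, Subalgebra.coe_pow, den_hat_coe,
    monomial_pow, one_mul, coeff_add, coeff_mul_monomial, hq, coeff_monomial_same] at h4
  have h5 : (g : A[X]).coeff q ∈ I ^ q := (mem_reesAlgebra_iff I _).1 g.2 q
  have h6 : (m : A[X]).coeff (q + 1) ∈ 𝔪 * I ^ (q + 1) := hm (q + 1)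
  simp only [hq, SetLike.mem_coe]
  rw [← h4, add_comm ((m : A[X]).coeff (q + 1)), mul_comm ((g : A[X]).coeff q),
    Ideal.smul_eq_mul]
  exact Submodule.add_mem_sup (Ideal.mul_mem_mul (Ideal.mem_span_singleton_self _) h5) h6

theorem exists_principal {k : Type u} [Field k] [IsAlgClosed k] {A : Type u} [CommRing A]
    [IsDomain A] [IsIntegrallyClosed A] [Algebra k A] [Algebra.FiniteType k A] {p : ℕ}
    [Fact p.Prime] [CharP A p] {n : ℕ} {x : Fin n → A} (hx : IsPB p x) {b : A} (hb : b ≠ 0)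
    {r : ℕ} (a : Fin r → A) {𝔡 : Ideal A} (h𝔡 : ∀ y, y ∈ 𝔡 ↔ ∀ l, b ∣ y * a l) (𝔪 : Ideal A)
    [𝔪.IsMaximal] : ∃ c ∉ 𝔪, ∃ δ ∈ 𝔡, ∀ y ∈ 𝔡, δ ∣ c * y := by
  have : IsNoetherianRing A := Algebra.FiniteType.isNoetherianRing k A
  have hk : ∀ a : A, ∃ c : k, a - algebraMap k A c ∈ 𝔪 := fun a => by
    let := Ideal.Quotient.field 𝔪
    have := finite_of_finite_type_of_isJacobsonRing k (A ⧸ 𝔪)
    obtain ⟨c, hc⟩ := (IsAlgClosed.algebraMap_bijective_of_isIntegral (k := k) (K := A ⧸ 𝔪)).2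
      (Ideal.Quotient.mk 𝔪 a)
    exact ⟨c, Ideal.Quotient.eq.1 hc.symm⟩
  obtain ⟨δ, hδ, q, hq⟩ := den_red hk (den_pow_le hx a h𝔡)
  obtain ⟨c, c1, c2⟩ := Submodule.exists_sub_one_mem_and_smul_le_of_fg_of_le_sup
    (IsNoetherian.noetherian _) le_rfl hq
  have hc : c ∉ 𝔪 := fun g => Ideal.IsMaximal.ne_top ‹_› ((Ideal.eq_top_iff_one _).2 (by
    simpa using sub_mem g c1))
  have hb' : b ∈ 𝔡 := (h𝔡 b).2 fun l => dvd_mul_right _ _
  have key : ∀ y ∈ 𝔡, ∀ w ∈ 𝔡 ^ q, ∃ w' ∈ 𝔡 ^ q, δ * w' = c * y * w := fun y hy w hw => by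
    refine Ideal.mem_span_singleton_mul.1 (c2 ?_)
    rw [mul_assoc, pow_succ']
    exact Submodule.smul_mem_pointwise_smul _ _ _ (Ideal.mul_mem_mul hy hw)
  have hbq := Ideal.pow_mem_pow hb' q
  have h0 : δ ≠ 0 := by
    rintro rfl
    obtain ⟨w, -, hw⟩ := key b hb' _ hbq
    rw [zero_mul] at hw
    exact mul_ne_zero (mul_ne_zero (fun g : c = 0 => hc (g ▸ zero_mem _)) hb)
      (pow_ne_zero q hb) hw.symm
  refine ⟨c, hc, δ, hδ, fun y hy => ?_⟩
  let K := FractionRing A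
  have inj := IsFractionRing.injective A K
  have h1 : algebraMap A K δ ≠ 0 := (map_ne_zero_iff _ inj).2 h0
  have h2 : IsIntegral A (algebraMap A K (c * y) / algebraMap A K δ) := by
    refine isIntegral_of_smul_mem_submodule (Submodule.map (Algebra.linearMap A K) (𝔡 ^ q))
      ((Submodule.ne_bot_iff _).2 ⟨_, ⟨_, hbq, rfl⟩, (map_ne_zero_iff _ inj).2
        (pow_ne_zero q hb)⟩) (Submodule.FG.map _ (IsNoetherian.noetherian _)) _ ?_
    rintro _ ⟨w, hw, rfl⟩
    obtain ⟨w', w1, w2⟩ := key y hy w hw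
    refine ⟨w', w1, ?_⟩
    rw [smul_eq_mul, Algebra.linearMap_apply, Algebra.linearMap_apply, div_mul_eq_mul_div,
      ← map_mul, ← w2, map_mul, mul_div_cancel_left₀ _ h1]
  obtain ⟨z, hz⟩ := IsIntegrallyClosed.algebraMap_eq_of_integral h2
  refine ⟨z, inj ?_⟩
  rw [map_mul (algebraMap A K) δ, hz, mul_div_cancel₀ _ h1]

end

end Pool.Agent.Lib.MP_1c03d5_ag
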