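import Pool.Agent.Lib.MP_1c03d5_ag.Gen3
import Pool.Agent.Lib.MP_1c03d5_ag.Big

/-!
# TASK DENOM: ideals of denominators
-/

universe u

namespace Pool.Agent.Lib.MP_1c03d5_ag

noncomputable section

/-- Denominators as a colon ideal. -/
theorem denom_colon {R K U F : Type*} [CommRing R] [Field K] [FunLike F R K] [RingHomClass F R K]
    (e : U → F) {J : Ideal R} (hJ : ∀ β, β ∈ J ↔ ∀ u, e u β = 0) {b c : R} {x : K}
    (h : ∀ u, e u b ≠ 0 ∧ x * e u b = e u c) (β : R) :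
    β ∈ (Ideal.span {b} ⊔ J).colon {c} ↔ ∃ β', ∀ u, e u β * x = e u β' := by
  rw [Submodule.mem_colon_singleton, smul_eq_mul, Ideal.mem_span_singleton_sup]
  constructor
  · rintro ⟨β', n, hn, e1⟩
    refine ⟨β', fun u => mul_right_cancel₀ (h u).1 ?_⟩
    have e2 := congrArg (e u) e1
    rw [map_add, map_mul, map_mul, (hJ n).1 hn u, add_zero] at e2
    rw [mul_assoc, (h u).2, e2]
  · rintro ⟨β', e1⟩
    refine ⟨β', β * c - β' * b, (hJ _).2 fun u => ?_, by ring⟩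
    rw [map_sub, map_mul, map_mul, ← (h u).2, ← e1 u]
    ring

theorem denom_map {R S : Type u} [CommRing R] [CommRing S] {φ : R →+* S} (h : φ.Etale) {ι : Type}
    [Finite ι] (J : Ideal R) (b c : ι → R) :
    (⨅ l, (Ideal.span {b l} ⊔ J).colon {c l}).map φ =
      ⨅ l, (Ideal.span {φ (b l)} ⊔ J.map φ).colon {φ (c l)} := by
  have hf := (RingHom.Etale.iff_flat_and_formallyUnramified.1 h).1
  rw [map_iInf_of_flat hf]
  refine iInf_congr fun l => ?_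
  rw [map_colon_singleton_of_flat hf, Ideal.map_sup, Ideal.map_span, Set.image_singleton]

variable {k : Type u} [Field k] {P : EqRel k} (Γ : Gen P)

namespace Gen

theorem denom_finite (i : P.ι) : {φ : P.A i →ₐ[k] Γ.K' | ⟨i, φ⟩ ∈ Γ.S}.Finite :=
  Γ.fin.preimage (f := fun φ : P.A i →ₐ[k] Γ.K' => (⟨i, φ⟩ : P.Pt Γ.K'))
    fun _ _ _ _ h => eq_of_heq (Sigma.mk.inj h).2

/-- An element that vanishes exactly at the lifts with another kernel. -/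
theorem denom_sep {i : P.ι} {φ : P.A i →ₐ[k] Γ.K'} (hφ : ⟨i, φ⟩ ∈ Γ.S) : ∃ e, φ e ≠ 0 ∧
    ∀ ψ : P.A i →ₐ[k] Γ.K', ⟨i, ψ⟩ ∈ Γ.S → RingHom.ker ψ ≠ RingHom.ker φ → ψ e = 0 := by
  classical
  have h1 : ∀ ψ : P.A i →ₐ[k] Γ.K', ∃ e, φ e ≠ 0 ∧
      (⟨i, ψ⟩ ∈ Γ.S → RingHom.ker ψ ≠ RingHom.ker φ → ψ e = 0) := fun ψ => by
    by_cases h : RingHom.ker ψ ≤ RingHom.ker φ
    · exact ⟨1, by simp, fun hψ hne => (hne (Γ.ker_eq_of_le hψ hφ h)).elim⟩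
    · obtain ⟨e, h1, h2⟩ := SetLike.not_le_iff_exists.1 h
      exact ⟨e, h2, fun _ _ => h1⟩
  choose e h1 h2 using h1
  refine ⟨∏ ψ ∈ (Γ.denom_finite i).toFinset, e ψ, ?_, fun ψ hψ hne => ?_⟩
  · rw [map_prod]
    exact Finset.prod_ne_zero_iff.2 fun ψ _ => h1 ψ
  · rw [map_prod]
    exact Finset.prod_eq_zero ((Γ.denom_finite i).mem_toFinset.2 hψ) (h2 ψ hψ hne)

/-- A fraction that represents a rational function at the lifts with a given kernel. -/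
theorem denom_one {x : Γ.K'} (hx : x ∈ Γ.K) {i : P.ι} (𝔮 : Ideal (P.A i)) : ∃ c b,
    ∀ ψ : P.A i →ₐ[k] Γ.K', ⟨i, ψ⟩ ∈ Γ.S → x * ψ b = ψ c ∧ (ψ b = 0 ↔ RingHom.ker ψ ≠ 𝔮) := by
  by_cases h : ∃ φ : P.A i →ₐ[k] Γ.K', ⟨i, φ⟩ ∈ Γ.S ∧ RingHom.ker φ = 𝔮
  · obtain ⟨φ, hφ, rfl⟩ := h
    obtain ⟨c, b, h1, h2⟩ := Fam.Pt.mem_fld.1 (Γ.K_le_fld hφ hx)
    obtain ⟨e, h3, h4⟩ := Γ.denom_sep hφ
    refine ⟨e * c, e * b, fun ψ hψ => ?_⟩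
    by_cases h : RingHom.ker ψ = RingHom.ker φ
    · obtain ⟨γ, hγ, rfl⟩ := Γ.conj hφ hψ h.symm
      have h5 : x * γ (φ b) = γ (φ c) := by
        rw [← Γ.mem_K.1 hx γ hγ, ← map_mul]
        exact congrArg γ h2
      refine ⟨?_, iff_of_false ?_ (not_not.2 h)⟩
      · show x * γ (φ (e * b)) = γ (φ (e * c))
        rw [map_mul, map_mul, map_mul, map_mul, ← h5]
        ring
      · show γ (φ (e * b)) ≠ 0
        rw [map_mul, map_ne_zero]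
        exact mul_ne_zero h3 h1
    · simp [h4 ψ hψ h, h]
  · exact ⟨0, 0, fun ψ hψ => ⟨by simp, iff_of_true (map_zero _) fun e => h ⟨ψ, hψ, e⟩⟩⟩

/-- A fraction that represents a rational function at all lifts of a chart. -/
theorem denom_frac {x : Γ.K'} (hx : x ∈ Γ.K) (i : P.ι) : ∃ c b,
    ∀ ψ : P.A i →ₐ[k] Γ.K', ⟨i, ψ⟩ ∈ Γ.S → ψ b ≠ 0 ∧ x * ψ b = ψ c := by
  classical
  choose c b h using fun 𝔮 : Ideal (P.A i) => Γ.denom_one hx 𝔮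
  let Q := (Γ.denom_finite i).toFinset.image fun φ => RingHom.ker φ
  refine ⟨∑ 𝔮 ∈ Q, c 𝔮, ∑ 𝔮 ∈ Q, b 𝔮, fun ψ hψ => ⟨?_, ?_⟩⟩
  · rw [map_sum, Finset.sum_eq_single_of_mem (RingHom.ker ψ)
      (Finset.mem_image_of_mem _ ((Γ.denom_finite i).mem_toFinset.2 hψ))
      fun 𝔮 _ hne => (h 𝔮 ψ hψ).2.2 hne.symm]
    exact fun e => (h _ ψ hψ).2.1 e rfl
  · rw [map_sum, map_sum, Finset.mul_sum]
    exact Finset.sum_congr rfl fun 𝔮 _ => (h 𝔮 ψ hψ).1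

/-- Pairs of lifts. -/
abbrev denomPair (i j : P.ι) : Type u :=
  {φ : P.A i →ₐ[k] Γ.K' // ⟨i, φ⟩ ∈ Γ.S} × {ψ : P.A j →ₐ[k] Γ.K' // ⟨j, ψ⟩ ∈ Γ.S}

/-- Evaluation at a pair of lifts. -/
def denomEv {i j : P.ι} (u : Γ.denomPair i j) : P.B i j →ₐ[k] Γ.K' :=
  (Γ.rel _ u.1.2 _ u.2.2).ev

theorem denom_ev_s {i j : P.ι} (u : Γ.denomPair i j) (a) : Γ.denomEv u (P.s i j a) = u.1.1 a :=
  (Γ.rel _ u.1.2 _ u.2.2).ev_s a

theorem denom_ev_t {i j : P.ι} (u : Γ.denomPair i j) (a) : Γ.denomEv u (P.t i j a) = u.2.1 a :=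
  (Γ.rel _ u.1.2 _ u.2.2).ev_t a

theorem denom_mem_s {i j : P.ι} (β : P.B i j) :
    β ∈ (Γ.I i).map (P.s i j).toRingHom ↔ ∀ u : Γ.denomPair i j, Γ.denomEv u β = 0 :=
  (Γ.mem_map_s β).trans ⟨fun h u => h _ _ u.1.2 u.2.2 _, fun h φ ψ h1 h2 _ => h (⟨φ, h1⟩, ⟨ψ, h2⟩)⟩

theorem denom_mem_t {i j : P.ι} (β : P.B i j) :
    β ∈ (Γ.I j).map (P.t i j).toRingHom ↔ ∀ u : Γ.denomPair i j, Γ.denomEv u β = 0 :=
  (Γ.mem_map_t β).trans ⟨fun h u => h _ _ u.1.2 u.2.2 _, fun h φ ψ h1 h2 _ => h (⟨φ, h1⟩, ⟨ψ, h2⟩)⟩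

/-- The ideal of denominators of finitely many rational functions. -/
theorem denom {ι : Type} [Finite ι] (z : ι → Γ.K') (hz : ∀ l, z l ∈ Γ.K) :
    ∃ 𝔭 : P.Idl, P.Inv 𝔭 ∧ (∀ σ ∈ Γ.S, ¬ σ.In 𝔭) ∧ ∀ i a, a ∈ 𝔭 i ↔ ∀ l, ∃ a', ∀ φ : P.A i →ₐ[k] Γ.K',
      ⟨i, φ⟩ ∈ Γ.S → φ a * z l = φ a' := by
  choose c b h using fun i l => Γ.denom_frac (hz l) i
  refine ⟨fun i => ⨅ l, (Ideal.span {b i l} ⊔ Γ.I i).colon {c i l}, fun i j => ?_,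
    fun σ hσ hin => ?_, fun i a => ?_⟩
  · refine (denom_map (P.et_s i j) _ _ _).trans (Eq.trans ?_ (denom_map (P.et_t i j) _ _ _).symm)
    refine iInf_congr fun l => Ideal.ext fun β => ?_
    refine (denom_colon Γ.denomEv Γ.denom_mem_s (x := z l) (fun u => ?_) β).trans
      (denom_colon Γ.denomEv Γ.denom_mem_t (x := z l) (fun u => ?_) β).symm
    · simpa [denom_ev_s] using h i l u.1.1 u.1.2
    · simpa [denom_ev_t] using h j l u.2.1 u.2.2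
  · have := Fintype.ofFinite ι
    have h1 : ∏ l, b σ.1 l ∈ ⨅ l, (Ideal.span {b σ.1 l} ⊔ Γ.I σ.1).colon {c σ.1 l} :=
      (Submodule.mem_iInf _).2 fun l => Submodule.mem_colon_singleton.2 (Ideal.mem_sup_left
        (Ideal.mem_span_singleton.2 ((Finset.dvd_prod_of_mem _ (Finset.mem_univ l)).mul_right _)))
    have h2 : σ.2 (∏ l, b σ.1 l) = 0 := hin h1
    rw [map_prod] at h2
    exact Finset.prod_ne_zero_iff.2 (fun l _ => (h σ.1 l σ.2 hσ).1) h2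
  · rw [Submodule.mem_iInf]
    refine forall_congr' fun l => ?_
    refine (denom_colon (fun u : {φ : P.A i →ₐ[k] Γ.K' // ⟨i, φ⟩ ∈ Γ.S} => u.1) (x := z l)
      (fun β => Γ.mem_I.trans ⟨fun h u => h u.1 u.2, fun h φ hφ => h ⟨φ, hφ⟩⟩)
      (fun u => h i l u.1 u.2) a).trans ?_
    exact exists_congr fun a' => Subtype.forall

end Gen

end

end Pool.Agent.Lib.MP_1c03d5_ag
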