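import Pool.Agent.Lib.MP_1c03d5_ag.Eqs
import Pool.Agent.Lib.MP_1c03d5_ag.Val
import Pool.Agent.Lib.MP_1c03d5_ag.Norm

/-!
# TASK DIV1: enough divisorial valuations over an affine chart
-/

universe u

namespace Pool.Agent.Lib.MP_1c03d5_ag

noncomputable section

variable {k K : Type u} [Field k] [Field K] [Algebra k K]

/-- `𝒟` is a set of divisorial valuations that detects integrality over `R`. -/
structure DivSet (R : Subalgebra k K) (𝒟 : Set (Val k K)) : Prop where
  le : ∀ w ∈ 𝒟, ∀ a ∈ R, a ∈ w.O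
  div : ∀ w ∈ 𝒟, IsDiv w
  hartogs : ∀ x, (∀ w ∈ 𝒟, x ∈ w.O) → IsIntegral R x
  loc : ∀ w ∈ 𝒟, ∀ x ∈ w.O, ∃ b, w.v b = 1 ∧ IsIntegral R b ∧ IsIntegral R (b * x) ∧
    b ∈ Algebra.adjoin k (insert x (R : Set K))
  fin : ∀ x : K, x ≠ 0 → {w ∈ 𝒟 | w.v x ≠ 1}.Finite

/-- The valuation is centred at the prime element `f`. -/
def div1_At {Z : Subalgebra k K} (f : Z) (w : Val k K) : Prop :=
  Prime f ∧ (∀ a ∈ Z, a ∈ w.O) ∧ ∀ a : Z, w.v a < 1 ↔ f ∣ a

section

variable {Z : Subalgebra k K} [UniqueFactorizationMonoid Z]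

omit [UniqueFactorizationMonoid Z] in
theorem div1_one {f : Z} {w : Val k K} (h : div1_At f w) {a : Z} (ha : ¬ f ∣ a) : w.v a = 1 :=
  le_antisymm (Val.v_le_one.2 (h.2.1 _ a.2)) (not_lt.1 fun e => ha ((h.2.2 a).1 e))

theorem div1_loc [Algebra.IsAlgebraic Z K] {f : Z} {w : Val k K} (h : div1_At f w) {x : K}
    (hx : x ∈ w.O) : ∃ b, w.v b = 1 ∧ IsIntegral Z b ∧ IsIntegral Z (b * x) ∧
      b ∈ Algebra.adjoin k (insert x (Z : Set K)) := by
  refine vloc Z w h.2.1 (fun a ha b hb hab => ?_) (Algebra.IsAlgebraic.isAlgebraic x) hx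
  rcases eq_or_ne a 0 with rfl | ha0
  · exact ⟨0, zero_mem _, 1, one_mem _, map_one _, by simp⟩
  have hb0 : b ≠ 0 := fun e => ha0 (by simpa [e] using hab)
  obtain ⟨i, a', h1, h2⟩ := WfDvdMonoid.max_power_factor (a₀ := (⟨a, ha⟩ : Z))
    (fun e => ha0 (congrArg Subtype.val e)) h.1.irreducible
  obtain ⟨j, b', h3, h4⟩ := WfDvdMonoid.max_power_factor (a₀ := (⟨b, hb⟩ : Z))
    (fun e => hb0 (congrArg Subtype.val e)) h.1.irreducible
  have ea : a = (f : K) ^ i * a' := congrArg Subtype.val h2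
  have eb : b = (f : K) ^ j * b' := congrArg Subtype.val h4
  rw [ea, eb, map_mul, map_mul, div1_one h h1, div1_one h h3, mul_one, mul_one, map_pow,
    map_pow] at hab
  have hf0 : 0 < w.v f := zero_lt_iff.2 (w.v.ne_zero_iff.2 fun e => h.1.ne_zero (Subtype.ext e))
  obtain ⟨l, rfl⟩ := Nat.exists_eq_add_of_le
    ((pow_le_pow_iff_right_of_lt_one₀ hf0 ((h.2.2 f).2 dvd_rfl)).1 hab)
  refine ⟨f ^ l * a', mul_mem (pow_mem f.2 _) a'.2, b', b'.2, div1_one h h3, ?_⟩
  rw [ea, eb]; ring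

open Polynomial in
/-- The ideal of relations of an algebraic element is principal. -/
theorem div1_ker {y : K} (hy : IsAlgebraic Z y) : ∃ ν : Z[X], Prime ν ∧ aeval y ν = 0 ∧
    ∀ g : Z[X], aeval y g = 0 → ν ∣ g := by
  obtain ⟨g, hg0, hg⟩ := hy
  obtain ⟨ν, h1, h2⟩ : ∃ ν : Z[X], Prime ν ∧ aeval y ν = 0 := by
    induction g using UniqueFactorizationMonoid.induction_on_prime with
    | h₁ => exact (hg0 rfl).elim
    | h₂ x hx => exact ((hx.map (aeval y)).ne_zero hg).elim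
    | h₃ a q ha hq ih =>
      rw [map_mul, mul_eq_zero] at hg
      exact hg.elim (fun e => ⟨q, hq, e⟩) (ih ha)
  refine ⟨ν, h1, h2, fun g hg => ?_⟩
  have hd : ν.natDegree ≠ 0 := fun e => by
    rw [eq_C_of_natDegree_eq_zero e, aeval_C] at h2
    exact h1.ne_zero (by
      rw [eq_C_of_natDegree_eq_zero e, show ν.coeff 0 = 0 from Subtype.ext h2, C_0])
  have hp := h1.irreducible.isPrimitive hd
  let := (inferInstance : Nonempty (NormalizedGCDMonoid Z)).some
  let F := FractionRing Z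
  let : Algebra F K := FractionRing.liftAlgebra Z K
  refine hp.dvd_of_fraction_map_dvd_fraction_map (K := F) ?_
  have hi := (hp.irreducible_iff_irreducible_map_fraction_map (K := F)).1 h1.irreducible
  have e1 : aeval y (ν.map (algebraMap Z F)) = 0 := by rwa [aeval_map_algebraMap]
  exact (hi.dvd_iff_aeval_eq_zero e1).1 (by rwa [aeval_map_algebraMap])

open Polynomial in
theorem div1_hartogs [Algebra.IsAlgebraic Z K] {x : K}
    (hx : ∀ (f : Z) w, div1_At f w → x ∈ w.O) : IsIntegral Z x := by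
  rcases eq_or_ne x 0 with rfl | h0
  · exact isIntegral_zero
  obtain ⟨ν, h1, h2, h3⟩ := div1_ker (Algebra.IsAlgebraic.isAlgebraic (R := Z) x⁻¹)
  have hc : ν.coeff 0 ≠ 0 := fun e => by
    obtain ⟨c, hc⟩ := (prime_X.associated_of_dvd h1 (X_dvd_iff.2 e))
    rw [← hc, map_mul, aeval_X] at h2
    exact mul_ne_zero (inv_ne_zero h0) (c.isUnit.map (aeval x⁻¹)).ne_zero h2
  by_cases hu : IsUnit (ν.coeff 0)
  · rw [isIntegral_iff_val]
    intro w hw
    by_contra hn
    have hv : w.v x⁻¹ < 1 := by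
      rw [map_inv₀, inv_lt_one₀ (zero_lt_iff.2 (w.v.ne_zero_iff.2 h0))]
      exact not_le.1 fun e => hn (Val.v_le_one.1 e)
    have hm : aeval x⁻¹ ν.divX ∈ w.O := by
      rw [aeval_eq_sum_range]
      exact sum_mem fun i _ => mul_mem (hw _ (ν.divX.coeff i).2)
        (pow_mem (Val.v_le_one.1 hv.le) _)
    rw [← ν.divX_mul_X_add, map_add, map_mul, aeval_X, aeval_C, add_eq_zero_iff_eq_neg] at h2
    obtain ⟨c, hc'⟩ := hu.exists_right_inv
    have e1 : w.v (algebraMap Z K (ν.coeff 0)) < 1 := by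
      rw [← Valuation.map_neg, ← h2, map_mul]
      exact (mul_le_of_le_one_left' (Val.v_le_one.2 hm)).trans_lt hv
    have e2 := (mul_le_of_le_one_right' (Val.v_le_one.2 (hw _ c.2))).trans_lt e1
    rw [← map_mul, show algebraMap Z K (ν.coeff 0) * c = 1 from congrArg Subtype.val hc',
      map_one] at e2
    exact (lt_irrefl _ e2).elim
  obtain ⟨f, hf, hfc⟩ := WfDvdMonoid.exists_irreducible_factor hu hc
  have hf' := hf.prime
  have := (Ideal.span_singleton_prime hf'.ne_zero).2 hf'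
  let 𝔭 : Ideal Z[X] := (Ideal.span {f}).comap constantCoeff
  obtain ⟨w, hw1, hw2⟩ := exists_val_centre' ((aeval x⁻¹ : Z[X] →ₐ[Z] K).restrictScalars k) 𝔭
    fun g hg => Ideal.mem_span_singleton.2 (hfc.trans (map_dvd constantCoeff (h3 g hg)))
  have hA : div1_At f w := ⟨hf', fun a ha => by simpa using hw1 (C ⟨a, ha⟩), fun a => by
    simpa [𝔭, Ideal.mem_span_singleton] using hw2 (C a)⟩
  have e1 : w.v x⁻¹ < 1 := by simpa [𝔭] using (hw2 X).2 (by simp [𝔭])
  rw [map_inv₀, inv_lt_one₀ (zero_lt_iff.2 (w.v.ne_zero_iff.2 h0))] at e1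
  exact (e1.not_ge (Val.v_le_one.2 (hx f w hA))).elim

theorem div1_fin [Algebra.IsAlgebraic Z K] [IsNoetherianRing (integralClosure Z K)] {x : K}
    (h0 : x ≠ 0) : {w : Val k K | (∃ f : Z, div1_At f w) ∧ w.v x ≠ 1}.Finite := by
  obtain ⟨a, ha0, ha⟩ := (Algebra.IsAlgebraic.isAlgebraic (R := Z) x).exists_integral_multiple
  obtain ⟨b, hb0, hb⟩ := (Algebra.IsAlgebraic.isAlgebraic (R := Z) x⁻¹).exists_integral_multiple
  let S := integralClosure Z K
  have hS : ∀ {f : Z} {w : Val k K}, div1_At f w → ∀ s, IsIntegral Z s → w.v s ≤ 1 :=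
    fun h s hs => Val.v_le_one.2 ((isIntegral_iff_val Z s).1 hs _ h.2.1)
  let c : {w : Val k K | (∃ f : Z, div1_At f w) ∧ w.v x ≠ 1} → Ideal S := fun w =>
    { carrier := {s | w.1.v s < 1}
      add_mem' := fun h h' => w.1.v.map_add_lt h h'
      zero_mem' := by simp
      smul_mem' := fun s t ht => by
        obtain ⟨f, hf⟩ := w.2.1
        change w.1.v (s * t) < 1
        rw [map_mul]
        exact (mul_le_of_le_one_left' (hS hf _ s.2)).trans_lt ht }
  have hc : ∀ w (s : S), s ∈ c w ↔ w.1.v s < 1 := fun _ _ => Iff.rfl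
  have hle : ∀ w w', c w = c w' → ∀ y ∈ w.1.O, y ∈ w'.1.O := fun w w' e y hy => by
    obtain ⟨f, hf⟩ := w.2.1
    obtain ⟨f', hf'⟩ := w'.2.1
    obtain ⟨t, h1, h2, h3, -⟩ := div1_loc hf hy
    have h4 : w'.1.v t = 1 := le_antisymm (hS hf' _ h2) (not_lt.1 fun h =>
      ((hc w ⟨t, h2⟩).1 (e ▸ (hc w' ⟨t, h2⟩).2 h)).ne h1)
    have := hS hf' _ h3
    rwa [map_mul, h4, one_mul, Val.v_le_one] at this
  have hinj : Function.Injective c := fun w w' e =>
    Subtype.ext (Val.ext (le_antisymm (hle w w' e) (hle w' w e.symm)))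
  refine Set.finite_coe_iff.1 (Set.finite_univ_iff.1 (Set.Finite.of_finite_image
    ((Ideal.span {algebraMap Z S (a * b)}).finite_minimalPrimes_of_isNoetherianRing.subset ?_)
    hinj.injOn))
  rintro _ ⟨w, -, rfl⟩
  obtain ⟨f, hf⟩ := w.2.1
  have hp : (c w).IsPrime := ⟨fun e => by simpa [hc] using (Ideal.eq_top_iff_one _).1 e,
    fun {s t} h => by
      by_contra hn
      simp only [hc, not_or, not_lt] at hn
      have : w.1.v (s * t) < 1 := h
      rw [map_mul, le_antisymm (hS hf _ s.2) hn.1, le_antisymm (hS hf _ t.2) hn.2, mul_one] at this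
      exact lt_irrefl _ this⟩
  have hab : f ∣ a * b := by
    by_contra hn
    have h1 := hS hf _ ha
    have h2 := hS hf _ hb
    rw [Subalgebra.smul_def, smul_eq_mul, map_mul] at h1 h2
    rw [div1_one hf fun h => hn (h.mul_right _), one_mul] at h1
    rw [div1_one hf fun h => hn (h.mul_left _), one_mul, map_inv₀,
      inv_le_one₀ (zero_lt_iff.2 (w.1.v.ne_zero_iff.2 h0))] at h2
    exact w.2.2 (le_antisymm h1 h2)
  refine ⟨⟨hp, (Ideal.span_singleton_le_iff_mem _).2 ((hf.2.2 _).2 hab)⟩, fun 𝔓 h𝔓 hle => ?_⟩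
  have := h𝔓.1
  by_contra hn
  have hlt := Ideal.IsIntegral.comap_lt_comap (R := Z) (hle.lt_of_ne fun e => hn e.ge)
  obtain ⟨g, hg, hg'⟩ := (Ideal.IsPrime.comap (algebraMap Z S) (K := 𝔓)).exists_mem_prime_of_ne_bot
    fun e => mul_ne_zero ha0 hb0 (by
      rw [← Ideal.mem_bot, ← e]; exact h𝔓.2 (Ideal.mem_span_singleton_self _))
  obtain ⟨t, h1, h2⟩ := SetLike.exists_of_lt hlt
  exact h2 (Ideal.mem_of_dvd _ (((hf.1.associated_of_dvd hg' ((hf.2.2 g).1 (hlt.le hg))).dvd').trans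
    ((hf.2.2 t).1 h1)) hg)

end

open MvPolynomial in
theorem div1_div {s : ℕ} (φ : MvPolynomial (Fin s) k →ₐ[k] K) (hφ : Function.Injective φ)
    [Algebra.IsAlgebraic φ.range K] {f : φ.range} {w : Val k K} (h : div1_At f w) : IsDiv w := by
  classical
  let e := AlgEquiv.ofInjective φ hφ
  obtain ⟨F, rfl⟩ := e.surjective f
  have hF : Prime F := (MulEquiv.prime_iff e).1 h.1
  have hv : ∀ G, ¬ F ∣ G → w.v (φ G) = 1 := fun G hG =>
    div1_one h (a := e G) fun hd => hG ((map_dvd_iff e).1 hd)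
  obtain ⟨j, hj⟩ : ∃ j, degreeOf j F ≠ 0 := by
    by_contra hn
    push Not at hn
    have e0 : F = C (F.coeff 0) := totalDegree_eq_zero_iff_eq_C.1 ((totalDegree_eq_zero_iff _ F).2
      fun m hm i => Nat.le_zero.1 (hn i ▸ monomial_le_degreeOf i hm))
    exact hF.not_isUnit (e0 ▸ (IsUnit.mk0 _ fun e1 => hF.ne_zero (by rw [e0, e1, C_0])).map C)
  obtain ⟨n, rfl⟩ := Nat.exists_eq_succ_of_ne_zero j.pos.ne'
  let Y : Fin (n + 1) → MvPolynomial (Fin (n + 1)) k := Fin.cons F fun i => X (j.succAbove i)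
  have key : ∀ G : MvPolynomial (Fin (n + 1)) k, ¬ X 0 ∣ G → ¬ F ∣ aeval Y G := fun G hG hd => by
    have e1 := (finSuccEquiv k n G).divX_mul_X_add
    apply_fun (finSuccEquiv k n).symm at e1
    rw [map_add, map_mul, ← finSuccEquiv_X_zero, AlgEquiv.symm_apply_apply,
      AlgEquiv.symm_apply_apply] at e1
    set G₀ := (finSuccEquiv k n G).coeff 0
    have e2 : (finSuccEquiv k n).symm (Polynomial.C G₀) = rename Fin.succ G₀ := by
      rw [AlgEquiv.symm_apply_eq]
      refine DFunLike.congr_fun (F := _ →+* _) (f := Polynomial.C) (g := ((finSuccEquiv k n).toAlgHom.comp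
        (rename Fin.succ)).toRingHom) (ringHom_ext (fun a => ?_) fun i => ?_) G₀
      · simp [finSuccEquiv_apply]
      · simp [finSuccEquiv_X_succ]
    have h0 : G₀ ≠ 0 := fun e0 => hG (by
      rw [← e1, e0, map_zero, map_zero, add_zero]; exact dvd_mul_left _ _)
    rw [← e1, e2, map_add, map_mul, aeval_X, aeval_rename] at hd
    obtain ⟨c, hc⟩ := (dvd_add_right (dvd_mul_left F _)).1 hd
    have e3 : aeval (Y ∘ Fin.succ) G₀ = rename j.succAbove G₀ := by
      rw [rename_eq_aeval]; rfl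
    have h1 : rename j.succAbove G₀ ≠ 0 := by
      rwa [Ne, map_eq_zero_iff _ (rename_injective _ Fin.succAbove_right_injective)]
    have h2 : degreeOf j (rename j.succAbove G₀) = 0 := by
      by_contra hn
      obtain ⟨i, -, hi⟩ := mem_vars_rename _ _ (mem_vars_iff_degreeOf_ne_zero.2 hn)
      exact Fin.succAbove_ne j i hi
    rw [← e3, hc] at h1 h2
    rw [degreeOf_mul_eq hF.ne_zero (right_ne_zero_of_mul h1)] at h2
    omega
  have ea : ∀ G, aeval (φ ∘ Y) G = φ (aeval Y G) := fun G => (comp_aeval_apply _ _ _).symm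
  have hz : IsTranscendenceBasis k (φ ∘ X) := by
    rw [(algebraicIndependent_iff_injective_aeval.2
      (by rwa [aeval_unique φ] at hφ)).isTranscendenceBasis_iff_isAlgebraic,
      Algebra.adjoin_range_eq_range_aeval, ← aeval_unique φ]
    infer_instance
  refine ⟨n, φ ∘ Y, AlgebraicIndependent.isTranscendenceBasis_of_lift_trdeg_le_of_finite
    (algebraicIndependent_iff.2 fun G hG => ?_) hz.lift_cardinalMk_eq_trdeg.ge,
    fun i => h.2.1 _ ⟨_, rfl⟩, (h.2.2 _).2 dvd_rfl, fun G hG => (ea G).symm ▸ hv _ (key G hG)⟩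
  by_contra h0
  obtain ⟨i, G', h1, rfl⟩ := WfDvdMonoid.max_power_factor h0 (X_prime (i := 0)).irreducible
  rw [ea, map_eq_zero_iff _ hφ, map_mul, map_pow, aeval_X] at hG
  exact mul_ne_zero (pow_ne_zero _ hF.ne_zero) (fun e => key G' h1 (by rw [e]; exact dvd_zero _)) hG

theorem exists_divSet (p : ℕ) [Fact p.Prime] [CharP k p] [IsAlgClosed k]
    [Algebra.EssFiniteType k K] (R : Subalgebra k K) (hR : R.FG) [Algebra.IsAlgebraic R K] :
    ∃ 𝒟, DivSet R 𝒟 := by
  have := R.fg_iff_finiteType.1 hR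
  obtain ⟨s, g, h1, h2⟩ := exists_finite_inj_algHom_of_fg k R
  let φ := R.val.comp g
  have hφ : Function.Injective φ := Subtype.val_injective.comp h1
  have hle : φ.range ≤ R := fun _ ⟨a, ha⟩ => ha ▸ (g a).2
  let e := AlgEquiv.ofInjective φ hφ
  have := e.toMulEquiv.uniqueFactorizationMonoid inferInstance
  have hint : ∀ a ∈ R, IsIntegral φ.range a := fun a ha => by
    obtain ⟨q, hq, hq'⟩ := h2.to_isIntegral ⟨a, ha⟩
    refine ⟨q.map e.toRingEquiv.toRingHom, hq.map _, ?_⟩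
    rw [Polynomial.eval₂_map]
    exact (Polynomial.hom_eval₂ q g.toRingHom R.val.toRingHom _).symm.trans
      ((congrArg _ hq').trans (map_zero _))
  let := (Subalgebra.inclusion hle).toAlgebra
  have : IsScalarTower φ.range R K := .of_algebraMap_eq fun _ => rfl
  have : Algebra.IsIntegral φ.range R :=
    ⟨fun a => (isIntegral_algebraMap_iff Subtype.val_injective).1 (hint a a.2)⟩
  have : Algebra.IsAlgebraic φ.range K := .trans _ R _
  have hfg : φ.range.FG := (Subalgebra.fg_iff_finiteType _).2 (.equiv inferInstance e)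
  have := finite_integralClosure p φ.range hfg
  have : IsNoetherianRing φ.range := isNoetherianRing_of_ringEquiv _ e.toRingEquiv
  have : IsNoetherianRing (integralClosure φ.range K) := .of_finite φ.range _
  refine ⟨{w | ∃ f : φ.range, div1_At f w}, fun w ⟨f, hf⟩ a ha =>
    (isIntegral_iff_val _ _).1 (hint a ha) w hf.2.1, fun w ⟨f, hf⟩ => div1_div φ hφ hf,
    fun x hx => (div1_hartogs fun f w h => hx w ⟨f, h⟩).tower_top, fun w ⟨f, hf⟩ x hx => ?_,
    fun x hx => div1_fin hx⟩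
  obtain ⟨b, h1, h2, h3, h4⟩ := div1_loc hf hx
  exact ⟨b, h1, h2.tower_top, h3.tower_top, Algebra.adjoin_mono (Set.insert_subset_insert hle) h4⟩

end

end Pool.Agent.Lib.MP_1c03d5_ag
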