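import Pool.Agent.Lib.MP_1c03d5_ag.FadjX2

/-!
# TASK FADJ: Frobenius adjunction
-/

universe u

namespace Pool.Agent.Lib.MP_1c03d5_ag

noncomputable section

variable {k : Type u} [Field k]

/-- The trace of `u` times a function on the chart is a function on the chart. -/
def TrReg {F : Fam k} {K : Type u} [Field K] [Algebra k K] (q : ℕ) {d : ℕ} (h : Fin d → K)
    (σ : F.Pt K) (u : K) : Prop := u ∈ σ.fld ∧ ∀ a, Tr q h (u * σ.2 a) ∈ σ.2.range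

section aux

variable {p : ℕ} [Fact p.Prime] {K : Type u} [Field K] [Algebra k K] [CharP K p] {e d : ℕ}
  {h : Fin d → K}

lemma fadj_trReg_zero {F : Fam k} (hh : IsPB (p ^ e) h) (σ : F.Pt K) : TrReg (p ^ e) h σ 0 :=
  ⟨zero_mem _, fun a => by rw [zero_mul, fadj_Tr_zero hh]; exact zero_mem _⟩

lemma fadj_trReg_add {F : Fam k} (hh : IsPB (p ^ e) h) (σ : F.Pt K) (u v : K)
    (hu : TrReg (p ^ e) h σ u) (hv : TrReg (p ^ e) h σ v) : TrReg (p ^ e) h σ (u + v) :=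
  ⟨add_mem hu.1 hv.1, fun a => by rw [add_mul, hh.Tr_add]; exact add_mem (hu.2 a) (hv.2 a)⟩

/-- Powers of the ideal of denominators clear powers of the function. -/
lemma fadj_den {A : Type u} [CommRing A] [Algebra k A] (φ : A →ₐ[k] K) {𝔭 : Ideal A} {z : K}
    (H : ∀ a ∈ 𝔭, ∃ a', φ a * z = φ a') (κ : ℕ) : ∀ a ∈ 𝔭 ^ κ, ∃ a', φ a * z ^ κ = φ a' := by
  induction κ with
  | zero => exact fun a _ => ⟨a, by simp⟩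
  | succ κ ih =>
    intro a ha
    rw [pow_succ] at ha
    refine Submodule.mul_induction_on ha (fun x hx y hy => ?_) fun x y ⟨x', hx⟩ ⟨y', hy⟩ =>
      ⟨x' + y', by rw [map_add, map_add, add_mul, hx, hy]⟩
    obtain ⟨x', hx'⟩ := ih x hx
    obtain ⟨y', hy'⟩ := H y hy
    exact ⟨x' * y', by rw [map_mul, map_mul, pow_succ, ← hx', ← hy']; ring⟩

variable [IsAlgClosed k] [CharP k p] {P : CPres k}

/-- Representing elements whose product with `z` is regular. -/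
lemma fadj_rep [Algebra.EssFiniteType k K] (hs : SepBasis k h) {τ : P.Pt K}
    (hτ : ∀ i, h i ∈ τ.fld) {𝔪 𝔫 : Ideal (P.A τ.1)} {Y : P.A τ.1}
    (hk : 𝔪 * Ideal.span {Y} * τ.ker ≤ fadjK p e τ) {z : K}
    (H : ∀ a ∈ 𝔫, ∃ a', τ.2 a * z = τ.2 a') {y : P.A τ.1} (hy : y ∈ 𝔫 * 𝔪) :
    ∃ u, fadjD (p ^ e) h τ (y * Y) u ∧ TrReg (p ^ e) h τ (u * z) := by
  have hh := (hs.isCoord.isPB p).pow e
  refine Submodule.mul_induction_on hy (fun a ha w hw => ?_) fun x y ⟨u, h1, h2⟩ ⟨v, h3, h4⟩ =>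
    ⟨u + v, by rw [add_mul]; exact h1.add hh h3,
      by rw [add_mul]; exact fadj_trReg_add hh τ _ _ h2 h4⟩
  obtain ⟨a', ha'⟩ := H a ha
  obtain ⟨u, hu, hD⟩ := fadj_exists (e := e) hs hτ (y := w * Y) fun x hx => by
    simpa using hk (Ideal.mul_mem_mul (Ideal.mul_mem_mul hw (Ideal.mem_span_singleton_self Y))
      ((RingHom.mem_ker).2 hx)) 1
  refine ⟨u * τ.2 a, by rw [mul_assoc, mul_comm a]; exact hD.mul a, ?_, fun x => ?_⟩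
  · rw [mul_assoc, ha']
    exact mul_mem hu (IntermediateField.subset_adjoin _ _ ⟨a', rfl⟩)
  · rw [mul_assoc u, ha', ← hD.mul a' x]
    exact ⟨_, rfl⟩

/-- The comparison of the representing elements at two related points. -/
lemma fadj_compare (hh : IsPB (p ^ e) h) {S : Set (P.Pt K)} {σ τ : P.Pt K}
    (hσ : ∀ i, h i ∈ σ.fld) {L D : P.LB} {𝔪 I : P.Idl} {Y F : P.El}
    (st : State (p ^ e) S σ L 𝔪 Y I) (hτ : τ ∈ S) (r : P.Rel σ τ) (hF : P.IsSec D ⊥ F)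
    {β : P.A σ.1} (hβ : F σ.1 * β ∈ 𝔪 σ.1) {n : ℕ} {b : Fin n → P.B σ.1 τ.1}
    {β' : Fin n → P.A τ.1} (hb : P.s σ.1 τ.1 β = ∑ l, b l * P.t σ.1 τ.1 (β' l)) {u₀ : K}
    (h0 : fadjD (p ^ e) h σ (F σ.1 * β * Y σ.1) u₀) {u : Fin n → K}
    (hu : ∀ l, fadjD (p ^ e) h τ (F τ.1 * β' l * Y τ.1) (u l)) :
    u₀ = r.tr (P.om ^ (p ^ e - 1) * D * L) * ∑ l, r.ev (b l) * u l := by
  have h1 := (h0.s hh r).sub_kill (st.sec τ hτ r _ hβ)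
  have h2 := fadjB.sum hh Finset.univ fun l _ => ((hu l).t hh r).mul
    (b l * (D.1 σ.1 τ.1 : P.B σ.1 τ.1) * (L.1 σ.1 τ.1 : P.B σ.1 τ.1))
  have h3 : P.s σ.1 τ.1 (F σ.1) = (D.1 σ.1 τ.1 : P.B σ.1 τ.1) * P.t σ.1 τ.1 (F τ.1) := by
    have := hF σ.1 τ.1
    rwa [Pi.bot_apply, Ideal.map_bot, Ideal.mem_bot, sub_eq_zero] at this
  have h4 : P.s σ.1 τ.1 (F σ.1 * β * Y σ.1) - P.s σ.1 τ.1 (F σ.1 * β) *
      (P.s σ.1 τ.1 (Y σ.1) - (L.1 σ.1 τ.1 : P.B σ.1 τ.1) * P.t σ.1 τ.1 (Y τ.1)) =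
      ∑ l, P.t σ.1 τ.1 (F τ.1 * β' l * Y τ.1) *
        (b l * (D.1 σ.1 τ.1 : P.B σ.1 τ.1) * (L.1 σ.1 τ.1 : P.B σ.1 τ.1)) := by
    rw [map_mul _ (F σ.1 * β), mul_sub, sub_sub_cancel, map_mul, h3, hb, Finset.mul_sum,
      Finset.sum_mul]
    exact Finset.sum_congr rfl fun l _ => by rw [map_mul, map_mul]; ring
  rw [h4] at h1
  rw [h1.unique hh hσ h2, r.tr_mul, r.tr_mul, r.tr_pow, Finset.mul_sum]
  exact Finset.sum_congr rfl fun l _ => by rw [map_mul, map_mul]; ring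

end aux

lemma fadj_num {p : ℕ} (hp : 1 < p) {m M : ℕ} (hm : 0 < m) (n e₁ e₀ : ℕ) :
    ∃ e κ, e₀ ≤ e ∧ e₁ ≤ e ∧ κ * m + M ≤ p ^ (e - e₁) ∧ n * (κ * m + M) ≤ p ^ e - 1 ∧
      p ^ e ≤ p ^ (e₁ + n) * (2 * m + M) * κ := by
  obtain ⟨x, hx⟩ : ∃ x, x = p ^ (e₀ + m + M) := ⟨_, rfl⟩
  have h1 : e₀ + m + M < x := hx ▸ Nat.lt_pow_self hp
  have h2 : n < p ^ (e₁ + n) := lt_of_le_of_lt (Nat.le_add_left _ _) (Nat.lt_pow_self hp)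
  obtain ⟨κ, hκ⟩ : ∃ κ, κ = (x - M) / m := ⟨_, rfl⟩
  have h3 : κ * m ≤ x - M := hκ ▸ Nat.div_mul_le_self _ _
  have h4 : x - M < κ * m + m := hκ ▸ Nat.lt_div_mul_add hm
  have h5 : 1 ≤ κ := hκ ▸ (Nat.le_div_iff_mul_le hm).2 (by omega)
  have h6 : κ * m + M ≤ x := by omega
  refine ⟨e₁ + n + (e₀ + m + M), κ, by omega, by omega, h6.trans ?_, ?_, ?_⟩
  · exact hx ▸ Nat.pow_le_pow_right hp.le (by omega)
  · rw [pow_add, ← hx]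
    have h7 : n * (κ * m + M) ≤ n * x := Nat.mul_le_mul_left _ h6
    have h8 : (n + 1) * x ≤ p ^ (e₁ + n) * x := Nat.mul_le_mul_right _ h2
    rw [add_mul, one_mul] at h8
    omega
  · rw [pow_add, ← hx, mul_assoc]
    refine Nat.mul_le_mul_left _ ?_
    have h7 : m + M ≤ (m + M) * κ := Nat.le_mul_of_pos_right _ h5
    have h8 : (2 * m + M) * κ = κ * m + (m + M) * κ := by ring
    omega

theorem fadj [IsAlgClosed k] (p : ℕ) [Fact p.Prime] [CharP k p] {P : CPres k}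
    (Q : Pol P.toPreRel) (hQ : Q.Room) (Γ : Gen P.toEqRel) {σ₀} (hσ : σ₀ ∈ Γ.S) {d : ℕ}
    {h : Fin d → Γ.K'} (hK : ∀ i, h i ∈ Γ.K) (hs : SepBasis k h) {ι : Type} [Finite ι]
    {z : ι → Γ.K'} (hz : ∀ l, z l ∈ Γ.K) (n : ℕ)
    (hyp : ∀ (Γ' : Gen P.toEqRel) (φ : P.A σ₀.1 →ₐ[k] Γ'.K'), ⟨σ₀.1, φ⟩ ∈ Γ'.S →
      RingHom.ker φ < σ₀.ker → ∃ a b, n * b ≤ a ∧ Γ'.Big (P.om ^ a * Q.D ^ b)) :
    ∃ (c : ℕ) (Φ : Finset Γ.K'), ∀ e₀, ∃ e, e₀ ≤ e ∧ ∃ a b κ : ℕ, 0 < b ∧ n * b ≤ a ∧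
      p ^ e ≤ c * κ ∧ ∃ E, Γ.RS (P.om ^ a * Q.D ^ b) E ∧ Γ.Nz E ∧ ∀ σ ∈ Γ.S, ∀ l,
        ∃ u : Γ.K' → Γ.K', (∀ φ ∈ Φ, TrReg (p ^ e) h σ (u φ)) ∧
          E σ * z l ^ κ = ∑ φ ∈ Φ, φ * u φ := by
  have hfld : ∀ τ ∈ Γ.S, ∀ i, h i ∈ τ.fld := fun τ hτ i => Γ.K_le_fld hτ (hK i)
  have hpr : σ₀.ker.IsPrime := RingHom.ker_isPrime _
  obtain ⟨Γ₀, φ₀, hφ₀, hker⟩ := exists_gen (P := P.toEqRel) σ₀.1 ⊥
  obtain ⟨𝔅, h𝔅, hinv, hch⟩ := chain (p := p) Γ hσ P.om Q.D n hyp Γ₀ φ₀ hφ₀ (hker ▸ bot_le)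
  obtain ⟨𝔭, h𝔭, h𝔭n, h𝔭z⟩ := Γ.denom z hz
  obtain ⟨m, M, hm, hM, hroom⟩ := fadj_room Q 𝔭 σ₀.1 hQ h𝔭 σ₀.ker hpr (h𝔭n σ₀ hσ)
  obtain ⟨Φ, hΦ⟩ := fadj_exists_Phi Γ.fin (fun τ hτ => Γ.rel σ₀ hσ τ hτ) h𝔅 hinv
  obtain ⟨j, hj⟩ := Q.ne σ₀.1
  obtain ⟨e₁, he₁⟩ := (P.isPB p σ₀.1).exists_Tr_notMem hpr.ne_top hj
  refine ⟨p ^ (e₁ + n) * (2 * m + M), Φ, fun e₀ => ?_⟩
  obtain ⟨e, κ, h1, h2, h3, h4, h5⟩ := fadj_num (M := M) (Fact.out : p.Prime).one_lt hm n e₁ e₀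
  set N := κ * m + M with hN
  have hh := (hs.isCoord.isPB p).pow e
  -- the initial state
  have st₀ : State (p ^ e) Γ.S σ₀ 1 (Q.base ^ N) 1 Γ₀.I := by
    refine ⟨(fadj_inv_base Q).pow N, fun H => ?_, fun y hy => ?_, fun τ _ r y _ b => ?_⟩
    · obtain ⟨a, ha⟩ := he₁ e h2 N h3
      have hjb : Q.f j σ₀.1 ∈ Q.base σ₀.1 := Ideal.subset_span ⟨j, rfl⟩
      refine ha (H _ (Ideal.mul_mem_mul (Ideal.pow_mem_pow hjb N) ?_))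
      exact Ideal.mem_span_singleton.2 (one_dvd a)
    · have : φ₀ y = 0 := Γ₀.mem_I.1 (Ideal.mul_le_right hy) φ₀ hφ₀
      rw [← RingHom.mem_ker, hker, Ideal.mem_bot] at this
      rw [this, fadj_Tr_zero ((P.isPB p σ₀.1).pow e), map_zero]
    · simp [fadj_Tr_zero ((P.isPB_s p σ₀.1 τ.1).pow e)]
  obtain ⟨𝔟, h𝔟, a, b, Y, hab, st⟩ := hch e _ _ _ st₀
  obtain ⟨s, hs1, hs2⟩ := hΦ 𝔟 h𝔟
  -- the element that is not killed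
  obtain ⟨θ, hθ1, hθ2, β, hβ, hnk⟩ : ∃ θ : MvPolynomial (Fin Q.r) k, θ.IsHomogeneous N ∧
      (∀ i, Q.ev θ i ∈ 𝔭 i ^ κ * Q.base i ^ N) ∧ ∃ β ∈ s,
        Q.ev θ σ₀.1 * β * Y σ₀.1 ∉ fadjK p e σ₀ := by
    by_contra! H
    refine st.ne (fadj_kill_iff.2 ?_)
    rw [Pi.mul_apply, Pi.pow_apply, mul_assoc]
    refine hroom κ _ _ (fun w hw 𝔫 => fadj_sat hw) ?_ ?_
    · refine le_trans (le_of_eq ?_) (fadj_kill_ker Γ st hσ hσ)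
      rw [Pi.mul_apply, Pi.pow_apply]
      ring
    · rw [← hs1, ← mul_assoc, Ideal.span_mul_span', Ideal.span_mul_span', Ideal.span_le]
      rintro _ ⟨_, ⟨_, ⟨θ, t1, t2, rfl⟩, β, hβ, rfl⟩, _, rfl, rfl⟩
      exact H θ t1 t2 β hβ
  have hβ𝔟 : β ∈ 𝔟 σ₀.1 := hs1 ▸ Ideal.subset_span hβ
  have hβ𝔪 : Q.ev θ σ₀.1 * β ∈ (Q.base ^ N * 𝔟) σ₀.1 :=
    Ideal.mul_mem_mul (Ideal.mul_le_right (hθ2 _)) hβ𝔟
  obtain ⟨u₀, -, hu₀⟩ := fadj_exists (e := e) hs (hfld σ₀ hσ) (y := Q.ev θ σ₀.1 * β * Y σ₀.1)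
    fun x hx => by
      simpa using fadj_kill_ker Γ st hσ hσ (Ideal.mul_mem_mul (Ideal.mul_mem_mul hβ𝔪
        (Ideal.mem_span_singleton_self _)) ((RingHom.mem_ker).2 hx)) 1
  have hu0 : u₀ ≠ 0 := fun H => hnk fun x => by rw [hu₀, H, zero_mul, fadj_Tr_zero hh]
  obtain ⟨E, hE, hE0⟩ := Gen.exists_rs (P.om ^ (p ^ e - 1 + a) * Q.D ^ (N + b)) hσ u₀
  refine ⟨e, h1, p ^ e - 1 + a, N + b, κ, by omega, by rw [mul_add]; omega, h5, E, hE,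
    hE.nz hσ (hE0 ▸ hu0), fun τ hτ l => ?_⟩
  have r := Γ.rel σ₀ hσ τ hτ
  obtain ⟨n', c, β', hc1, hc2⟩ := hs2 β hβ τ hτ r
  have hden := fadj_den τ.2 (𝔭 := 𝔭 τ.1) (z := z l)
    (fun x hx => ((h𝔭z τ.1 x).1 hx l).imp fun x' hx' => hx' τ.2 hτ) κ
  have hrep := fun i => fadj_rep hs (hfld τ hτ) (fadj_kill_ker Γ st hσ hτ) hden
    (y := Q.ev θ τ.1 * β' i) (by
      rw [Pi.mul_apply, Pi.pow_apply, ← mul_assoc]
      exact Ideal.mul_mem_mul (hθ2 _) (hc1 i).1)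
  choose u hu1 hu2 using hrep
  have hcmp := fadj_compare hh (hfld σ₀ hσ) st hτ r (PreRel.IsSec.aeval Q.sec hθ1) hβ𝔪 hc2 hu₀ hu1
  have hΛ : r.tr (P.om ^ (p ^ e - 1) * Q.D ^ N * (1 * (P.om ^ a * Q.D ^ b))) =
      r.tr (P.om ^ (p ^ e - 1 + a) * Q.D ^ (N + b)) := by
    simp only [r.tr_mul, r.tr_pow, r.tr_one, pow_add]
    ring
  have hEτ : E τ = ∑ i, r.ev (c i) * u i := by
    have := hE σ₀ hσ τ hτ r
    rw [hE0, hcmp, hΛ] at this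
    exact (mul_left_cancel₀ (r.isUnit_tr _).ne_zero this).symm
  obtain ⟨v, hv1, hv2⟩ := fadj_group (TrReg (p ^ e) h τ) (fadj_trReg_zero hh τ)
    (fadj_trReg_add hh τ) Φ Finset.univ (fun i => r.ev (c i)) (fun i => u i * z l ^ κ)
    (fun i _ => (hc1 i).2) fun i _ => hu2 i
  refine ⟨v, hv1, ?_⟩
  rw [← hv2, hEτ, Finset.sum_mul]
  exact Finset.sum_congr rfl fun i _ => mul_assoc _ _ _

end

end Pool.Agent.Lib.MP_1c03d5_ag
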