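import Pool.Agent.Lib.MP_1c03d5_ag.Chain

/-!
# Auxiliary results for Frobenius adjunction: descended functionals
-/

universe u

namespace Pool.Agent.Lib.MP_1c03d5_ag

noncomputable section

section pb

variable {A B K : Type u} [CommRing A] [CommRing B] [CommRing K] {p : ℕ} [Fact p.Prime]
  [CharP A p] [CharP B p] [CharP K p] {e n d : ℕ}

lemma fadj_Tr_zero {x : Fin n → A} (hx : IsPB (p ^ e) x) : Tr (p ^ e) x 0 = 0 :=
  map_zero hx.trHom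

lemma fadj_Tr_sub {x : Fin n → A} (hx : IsPB (p ^ e) x) (a b : A) :
    Tr (p ^ e) x (a - b) = Tr (p ^ e) x a - Tr (p ^ e) x b :=
  map_sub hx.trHom a b

lemma fadj_Tr_sum {x : Fin n → A} (hx : IsPB (p ^ e) x) {ι : Type*} (s : Finset ι) (f : ι → A) :
    Tr (p ^ e) x (∑ i ∈ s, f i) = ∑ i ∈ s, Tr (p ^ e) x (f i) :=
  map_sum hx.trHom f s

omit [Fact p.Prime] [CharP A p] [CharP B p] in
lemma fadj_mon_map {q : ℕ} (ψ : A →+* B) (x : Fin n → A) (α : Fin n → Fin q) :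
    mon (ψ ∘ x) α = ψ (mon x α) := by
  simp [mon, map_prod]

/-- A descended functional extends along a map that preserves the `p`-basis. -/
lemma fadj_ext (ψ : A →+* B) {x : Fin n → A} (hx : IsPB (p ^ e) x) (hx' : IsPB (p ^ e) (ψ ∘ x))
    (ρ : B →+* K) {h : Fin d → K} (hh : IsPB (p ^ e) h) {y : A} {u : K}
    (H : ∀ a, ρ (ψ (Tr (p ^ e) x (y * a))) = Tr (p ^ e) h (u * ρ (ψ a))) (b : B) :
    ρ (Tr (p ^ e) (ψ ∘ x) (ψ y * b)) = Tr (p ^ e) h (u * ρ b) := by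
  rw [hx'.eq_sum b, Finset.mul_sum, map_sum, Finset.mul_sum, fadj_Tr_sum hx', fadj_Tr_sum hh,
    map_sum]
  refine Finset.sum_congr rfl fun α _ => ?_
  rw [fadj_mon_map, mul_left_comm, hx'.Tr_pow_mul, map_mul, ← map_mul ψ, ← hx.Tr_map ψ hx', H,
    map_mul, map_pow, mul_left_comm, hh.Tr_pow_mul]

end pb

variable {k : Type u} [Field k] {P : CPres k} {K : Type u} [Field K] [Algebra k K] {d : ℕ}

/-- `u` represents the functional `x ↦ τ (Tr (y x))`. -/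
def fadjD (q : ℕ) (h : Fin d → K) (τ : P.Pt K) (y : P.A τ.1) (u : K) : Prop :=
  ∀ x, τ.2 (Tr q (P.x τ.1) (y * x)) = Tr q h (u * τ.2 x)

/-- `u` represents the functional `b ↦ ev (Tr (η b))` on the ring of the relation. -/
def fadjB (q : ℕ) (h : Fin d → K) {σ τ : P.Pt K} (r : P.Rel σ τ) (η : P.B σ.1 τ.1) (u : K) :
    Prop :=
  ∀ b, r.ev (Tr q (P.s σ.1 τ.1 ∘ P.x σ.1) (η * b)) = Tr q h (u * r.ev b)

variable [IsAlgClosed k] {p : ℕ} [Fact p.Prime] [CharP k p] [CharP K p] {e : ℕ} {h : Fin d → K}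

omit [IsAlgClosed k] [Fact p.Prime] [CharP k p] [CharP K p] in
lemma fadjD.mul {q : ℕ} {τ : P.Pt K} {y : P.A τ.1} {u : K} (H : fadjD q h τ y u) (a : P.A τ.1) :
    fadjD q h τ (y * a) (u * τ.2 a) := fun x => by
  rw [mul_assoc, H, map_mul, mul_assoc]

lemma fadjD.add (hh : IsPB (p ^ e) h) {τ : P.Pt K} {y y' : P.A τ.1} {u u' : K}
    (H : fadjD (p ^ e) h τ y u) (H' : fadjD (p ^ e) h τ y' u') :
    fadjD (p ^ e) h τ (y + y') (u + u') := fun x => by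
  rw [add_mul, add_mul, ((P.isPB p τ.1).pow e).Tr_add, hh.Tr_add, map_add, H, H']

omit [IsAlgClosed k] [Fact p.Prime] [CharP k p] [CharP K p] in
lemma fadjB.mul {q : ℕ} {σ τ : P.Pt K} {r : P.Rel σ τ} {η : P.B σ.1 τ.1} {u : K}
    (H : fadjB q h r η u) (b : P.B σ.1 τ.1) : fadjB q h r (η * b) (u * r.ev b) := fun x => by
  rw [mul_assoc, H, map_mul, mul_assoc]

lemma fadjB.add (hh : IsPB (p ^ e) h) {σ τ : P.Pt K} {r : P.Rel σ τ} {η η' : P.B σ.1 τ.1}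
    {u u' : K} (H : fadjB (p ^ e) h r η u) (H' : fadjB (p ^ e) h r η' u') :
    fadjB (p ^ e) h r (η + η') (u + u') := fun x => by
  rw [add_mul, add_mul, ((P.isPB_s p σ.1 τ.1).pow e).Tr_add, hh.Tr_add, map_add, H, H']

lemma fadjB.zero (hh : IsPB (p ^ e) h) {σ τ : P.Pt K} (r : P.Rel σ τ) :
    fadjB (p ^ e) h r 0 0 := fun x => by
  rw [zero_mul, zero_mul, fadj_Tr_zero ((P.isPB_s p σ.1 τ.1).pow e), fadj_Tr_zero hh, map_zero]

lemma fadjB.sum (hh : IsPB (p ^ e) h) {σ τ : P.Pt K} {r : P.Rel σ τ} {ι : Type*} (s : Finset ι)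
    {η : ι → P.B σ.1 τ.1} {u : ι → K} (H : ∀ i ∈ s, fadjB (p ^ e) h r (η i) (u i)) :
    fadjB (p ^ e) h r (∑ i ∈ s, η i) (∑ i ∈ s, u i) := by
  classical
  induction s using Finset.induction_on with
  | empty => simpa using fadjB.zero hh r
  | insert a s ha ih =>
    rw [Finset.sum_insert ha, Finset.sum_insert ha]
    exact (H a (Finset.mem_insert_self _ _)).add hh
      (ih fun i hi => H i (Finset.mem_insert_of_mem hi))

omit [CharP K p] in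
lemma fadjB.sub_kill {σ τ : P.Pt K} {r : P.Rel σ τ} {η η' : P.B σ.1 τ.1} {u : K}
    (H : fadjB (p ^ e) h r η u) (H' : KillB P (p ^ e) r η') : fadjB (p ^ e) h r (η - η') u :=
  fun x => by
    rw [sub_mul, fadj_Tr_sub ((P.isPB_s p σ.1 τ.1).pow e), map_sub, H, H', sub_zero]

lemma fadjD.s (hh : IsPB (p ^ e) h) {σ τ : P.Pt K} (r : P.Rel σ τ) {y : P.A σ.1} {u : K}
    (H : fadjD (p ^ e) h σ y u) : fadjB (p ^ e) h r (P.s σ.1 τ.1 y) u := fun b =>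
  fadj_ext (P.s σ.1 τ.1 : P.A σ.1 →+* P.B σ.1 τ.1) ((P.isPB p σ.1).pow e)
    ((P.isPB_s p σ.1 τ.1).pow e) (r.ev : P.B σ.1 τ.1 →+* K) hh
    (fun a => by simpa using H a) b

lemma fadjD.t (hh : IsPB (p ^ e) h) {σ τ : P.Pt K} (r : P.Rel σ τ) {y : P.A τ.1} {u : K}
    (H : fadjD (p ^ e) h τ y u) :
    fadjB (p ^ e) h r (P.t σ.1 τ.1 y) (u * r.tr P.om ^ (p ^ e - 1)) := fun b => by
  have h1 := fadj_ext (P.t σ.1 τ.1 : P.A τ.1 →+* P.B σ.1 τ.1) ((P.isPB p τ.1).pow e)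
    ((P.isPB_t p σ.1 τ.1).pow e) (r.ev : P.B σ.1 τ.1 →+* K) hh
    (fun a => by simpa using H a) ((P.om.1 σ.1 τ.1 : P.B σ.1 τ.1) ^ (p ^ e - 1) * b)
  rw [Tr_change (P.isCoord_s σ.1 τ.1) (P.isCoord_t σ.1 τ.1) (P.isPB_s p σ.1 τ.1)
    (P.isPB_t p σ.1 τ.1), ← P.om_val, mul_left_comm]
  refine h1.trans ?_
  rw [map_mul, map_pow, mul_assoc]
  rfl

omit [IsAlgClosed k] [CharP k p] in
lemma fadjB.unique (hh : IsPB (p ^ e) h) {σ τ : P.Pt K} (hσ : ∀ i, h i ∈ σ.fld)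
    {r : P.Rel σ τ} {η : P.B σ.1 τ.1} {u u' : K} (H : fadjB (p ^ e) h r η u)
    (H' : fadjB (p ^ e) h r η u') : u = u' := by
  refine hh.desc_unique (r.ev : P.B σ.1 τ.1 →+* K) (fun i => ?_) fun x => (H x).symm.trans (H' x)
  obtain ⟨a, b, hb, hab⟩ := Fam.Pt.mem_fld.1 (hσ i)
  exact ⟨P.s _ _ a, P.s _ _ b, by simpa using hb, by simpa using hab⟩

/-- Existence of the representing element. -/
lemma fadj_exists [Algebra.EssFiniteType k K] (hs : SepBasis k h) {τ : P.Pt K}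
    (hτ : ∀ i, h i ∈ τ.fld) {y : P.A τ.1}
    (hy : ∀ x, τ.2 x = 0 → τ.2 (Tr (p ^ e) (P.x τ.1) (y * x)) = 0) :
    ∃ u ∈ τ.fld, fadjD (p ^ e) h τ y u := by
  have hx := (P.isPB p τ.1).pow e
  have hh := (hs.isCoord.isPB p).pow e
  let l : P.A τ.1 →+ K :=
    (τ.2 : P.A τ.1 →+ K).comp (hx.trHom.comp (AddMonoidHom.mulLeft y))
  have hl : ∀ x, l x = τ.2 (Tr (p ^ e) (P.x τ.1) (y * x)) := fun _ => rfl
  have hm : ∀ a, τ.2 a ∈ τ.fld := fun a => IntermediateField.subset_adjoin _ _ ⟨a, rfl⟩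
  obtain ⟨u, hu, H⟩ := hh.desc (τ.2 : P.A τ.1 →+* K) τ.fld.toSubfield hτ
    (hs.tr_mem p τ.fld hτ e) hm (fun x hx => Fam.Pt.mem_fld.1 hx) l
    (fun a x => by rw [hl, hl, mul_left_comm, hx.Tr_pow_mul, map_mul]; rfl)
    (fun x hx => by rw [hl]; exact hy x hx) (fun x => by rw [hl]; exact hm _)
  exact ⟨u, hu, fun x => (hl x).symm.trans (H x)⟩

/-- The ideal of elements killed by the trace at a point. -/
def fadjK (p e : ℕ) [Fact p.Prime] [CharP k p] (σ : P.Pt K) : Ideal (P.A σ.1) where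
  carrier := {y | ∀ x, σ.2 (Tr (p ^ e) (P.x σ.1) (y * x)) = 0}
  add_mem' := fun {a b} ha hb x => by
    rw [add_mul, ((P.isPB p σ.1).pow e).Tr_add, map_add, ha, hb, add_zero]
  zero_mem' := fun x => by rw [zero_mul, fadj_Tr_zero ((P.isPB p σ.1).pow e), map_zero]
  smul_mem' := fun c a ha x => by rw [smul_eq_mul, mul_comm c, mul_assoc, ha]

/-- The ideal of elements killed by the trace at a pair of points. -/
def fadjKB (p e : ℕ) [Fact p.Prime] [CharP k p] {σ τ : P.Pt K} (r : P.Rel σ τ) :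
    Ideal (P.B σ.1 τ.1) where
  carrier := {η | KillB P (p ^ e) r η}
  add_mem' := fun {a b} ha hb x => by
    rw [add_mul, ((P.isPB_s p σ.1 τ.1).pow e).Tr_add, map_add, ha, hb, add_zero]
  zero_mem' := fun x => by rw [zero_mul, fadj_Tr_zero ((P.isPB_s p σ.1 τ.1).pow e), map_zero]
  smul_mem' := fun c a ha x => by rw [smul_eq_mul, mul_comm c, mul_assoc, ha]

omit [CharP K p] in
lemma fadj_kill_iff {σ : P.Pt K} {𝔪 : Ideal (P.A σ.1)} :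
    Kill P (p ^ e) σ 𝔪 ↔ 𝔪 ≤ fadjK p e σ :=
  ⟨fun H _ hy x => H _ (𝔪.mul_mem_right x hy), fun H y hy => by simpa using H hy 1⟩

omit [CharP K p] in
lemma fadj_sat {σ : P.Pt K} {z : P.A σ.1} (hz : σ.2 z ≠ 0) {𝔫 : Ideal (P.A σ.1)}
    (H : Ideal.span {z} * 𝔫 ≤ fadjK p e σ) : 𝔫 ≤ fadjK p e σ :=
  fadj_kill_iff.1 ((fadj_kill_iff.2 H).of_mul hz (N := 1) fun y hy => by
    rw [pow_one]; exact Ideal.mul_mem_mul (Ideal.mem_span_singleton_self z) hy)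

omit [CharP K p] in
/-- The killing property of a state passes to all related points. -/
lemma fadj_transfer {S : Set (P.Pt K)} {σ τ : P.Pt K} {L : P.LB} {𝔪 I : P.Idl} {Y : P.El}
    (st : State (p ^ e) S σ L 𝔪 Y I) (hI : P.Inv I) (hτ : τ ∈ S) (r : P.Rel σ τ) :
    𝔪 τ.1 * Ideal.span {Y τ.1} * I τ.1 ≤ fadjK p e τ := by
  refine fadj_kill_iff.1 (KillB.kill r ?_)
  have h1 : (𝔪 σ.1 * Ideal.span {Y σ.1} * I σ.1).map (P.s σ.1 τ.1) ≤ fadjKB p e r :=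
    fun η hη => st.kill.killB r hη
  set g : (P.B σ.1 τ.1)ˣ := L.1 σ.1 τ.1 with hg
  have h2 : (𝔪 σ.1).map (P.s σ.1 τ.1) *
      Ideal.span {P.s σ.1 τ.1 (Y σ.1) - (g : P.B σ.1 τ.1) * P.t σ.1 τ.1 (Y τ.1)} ≤
        fadjKB p e r := by
    rw [Ideal.map, Ideal.span_mul_span', Ideal.span_le]
    rintro _ ⟨_, ⟨m, hm, rfl⟩, _, rfl, rfl⟩
    exact st.sec τ hτ r m hm
  have h3 : (𝔪 τ.1 * Ideal.span {Y τ.1} * I τ.1).map (P.t σ.1 τ.1) ≤ fadjKB p e r := by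
    rw [Ideal.map_mul, Ideal.map_mul, Ideal.map_span, Set.image_singleton] at h1 ⊢
    rw [← st.inv σ.1 τ.1, ← hI σ.1 τ.1]
    have h4 : Ideal.span {P.t σ.1 τ.1 (Y τ.1)} ≤ Ideal.span {P.s σ.1 τ.1 (Y σ.1)} ⊔
        Ideal.span {P.s σ.1 τ.1 (Y σ.1) - (g : P.B σ.1 τ.1) * P.t σ.1 τ.1 (Y τ.1)} := by
      rw [Ideal.span_singleton_le_iff_mem, Submodule.mem_sup]
      refine ⟨_, Ideal.mem_span_singleton'.2 ⟨(g⁻¹ : (P.B σ.1 τ.1)ˣ), rfl⟩, _,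
        Ideal.mem_span_singleton'.2 ⟨-(g⁻¹ : (P.B σ.1 τ.1)ˣ), rfl⟩, ?_⟩
      linear_combination (P.t σ.1 τ.1 (Y τ.1)) * g.inv_mul
    refine le_trans (Ideal.mul_mono (Ideal.mul_mono_right h4) le_rfl) ?_
    rw [Ideal.mul_sup, Ideal.sup_mul]
    exact sup_le h1 (Ideal.mul_le_left.trans h2)
  exact fun y hy => h3 (Ideal.mem_map_of_mem _ hy)

omit [IsAlgClosed k] in
/-- An element that removes the other components. -/
lemma fadj_other {P : EqRel k} (Γ : Gen P) {τ} (hτ : τ ∈ Γ.S) :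
    ∃ z, τ.2 z ≠ 0 ∧ ∀ c, τ.2 c = 0 → z * c ∈ Γ.I τ.1 := by
  have hfin : {φ : P.A τ.1 →ₐ[k] Γ.K' | (⟨τ.1, φ⟩ : P.Pt Γ.K') ∈ Γ.S}.Finite :=
    Γ.fin.preimage (f := fun φ : P.A τ.1 →ₐ[k] Γ.K' => (⟨τ.1, φ⟩ : P.Pt Γ.K'))
      fun a _ b _ hab => eq_of_heq (Sigma.mk.inj hab).2
  have hz : ∀ φ : P.A τ.1 →ₐ[k] Γ.K', ∃ z, τ.2 z ≠ 0 ∧
      ((⟨τ.1, φ⟩ : P.Pt Γ.K') ∈ Γ.S → ∀ c, τ.2 c = 0 → φ (z * c) = 0) := by
    intro φ
    by_cases hφ : RingHom.ker φ ≤ RingHom.ker τ.2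
    · refine ⟨1, by simp, fun hS c hc => ?_⟩
      have := Γ.ker_eq_of_le hS hτ hφ
      rw [one_mul, ← RingHom.mem_ker, this]
      exact hc
    · obtain ⟨z, h1, h2⟩ := Set.not_subset.1 hφ
      exact ⟨z, h2, fun _ c _ => by rw [map_mul, (RingHom.mem_ker).1 h1, zero_mul]⟩
  choose z hz1 hz2 using hz
  refine ⟨∏ φ ∈ hfin.toFinset, z φ, ?_, fun c hc => Γ.mem_I.2 fun φ hφ => ?_⟩
  · rw [map_prod]
    exact Finset.prod_ne_zero_iff.2 fun φ _ => hz1 φ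
  · obtain ⟨w, hw⟩ := Finset.dvd_prod_of_mem z (hfin.mem_toFinset.2 hφ)
    rw [hw, mul_right_comm, map_mul, hz2 φ hφ c hc, zero_mul]

/-- The end state kills the kernel at every lift. -/
lemma fadj_kill_ker (Γ : Gen P.toEqRel) {σ τ : P.Pt Γ.K'} {L : P.LB} {𝔪 : P.Idl} {Y : P.El}
    (st : State (p ^ e) Γ.S σ L 𝔪 Y Γ.I) (hσ : σ ∈ Γ.S) (hτ : τ ∈ Γ.S) :
    𝔪 τ.1 * Ideal.span {Y τ.1} * τ.ker ≤ fadjK p e τ := by
  obtain ⟨z, hz, H⟩ := fadj_other Γ hτ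
  refine fadj_sat hz (le_trans ?_ (fadj_transfer st Γ.inv_I hτ (Γ.rel σ hσ τ hτ)))
  rw [mul_left_comm]
  refine Ideal.mul_mono_right ?_
  rw [Ideal.span_singleton_mul_le_iff]
  exact fun c hc => H c hc

end

end Pool.Agent.Lib.MP_1c03d5_ag
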