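import Pool.Agent.Lib.MP_1c03d5_ag.FadjX1

/-!
# Auxiliary results for Frobenius adjunction: forms and the iteration of `Room`
-/

open MvPolynomial

universe u

namespace Pool.Agent.Lib.MP_1c03d5_ag

noncomputable section

section ideals

variable {R : Type u} [CommRing R]

/-- Pigeonhole: a high power of a finitely generated ideal. -/
lemma fadj_pigeon {ι : Type} (f : ι → R) (w : ℕ) {𝔞 W : Ideal R} (h𝔞 : ∀ j, f j ∈ 𝔞)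
    (hW : ∀ j, f j ^ w ∈ W) (s : Finset ι) : ∀ N, s.card * w + 1 ≤ N →
      Ideal.span (f '' s) ^ N ≤ W * 𝔞 ^ (N - w) := by
  classical
  induction s using Finset.induction_on with
  | empty =>
    intro N hN
    have : N ≠ 0 := by omega
    simp [this]
  | insert j s hj ih =>
    intro N hN
    rw [Finset.card_insert_of_notMem hj, add_mul, one_mul] at hN
    have hs : Ideal.span (f '' s) ≤ 𝔞 := Ideal.span_le.2 (by rintro _ ⟨i, _, rfl⟩; exact h𝔞 i)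
    have hj' : Ideal.span {f j} ≤ 𝔞 := (Ideal.span_singleton_le_iff_mem _).2 (h𝔞 j)
    rw [Finset.coe_insert, Set.image_insert_eq, Ideal.span_insert, ← Ideal.add_eq_sup, add_pow,
      Ideal.sum_eq_sup, Finset.sup_le_iff]
    intro a ha
    have ha' : a ≤ N := by simpa [Nat.lt_succ_iff] using ha
    refine Ideal.mul_le_left.trans ?_
    by_cases haw : w ≤ a
    · obtain ⟨b, rfl⟩ := Nat.exists_eq_add_of_le haw
      have e1 : N - w = b + (N - (w + b)) := by omega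
      rw [e1, pow_add, pow_add, mul_assoc]
      refine Ideal.mul_mono ?_ (Ideal.mul_mono (Ideal.pow_right_mono hj' _)
        (Ideal.pow_right_mono hs _))
      rw [Ideal.span_singleton_pow, Ideal.span_singleton_le_iff_mem]
      exact hW j
    · have e1 : N - w ≤ a + (N - a - w) := by omega
      refine le_trans ?_ (Ideal.mul_mono_right (Ideal.pow_le_pow_right e1))
      rw [pow_add, mul_left_comm]
      exact Ideal.mul_mono (Ideal.pow_right_mono hj' _) (ih _ (by omega))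

/-- One step of the iteration. -/
lemma fadj_step {r : ℕ} (f : Fin r → R) {T 𝔮 : Ideal R} {z : R} {c m : ℕ}
    (H : ∀ j, z * f j ^ (c + m) ∈ T * Ideal.span (Set.range f) ^ c ⊔
      𝔮 * Ideal.span (Set.range f) ^ (c + m)) {M : ℕ} (hM : r * (c + m) + c + 1 ≤ M) :
    Ideal.span {z} * Ideal.span (Set.range f) ^ (M + m) ≤
      T * Ideal.span (Set.range f) ^ M ⊔ 𝔮 * Ideal.span (Set.range f) ^ (M + m) := by
  set 𝔞 := Ideal.span (Set.range f) with h𝔞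
  have h1 := fadj_pigeon f (c + m) (𝔞 := 𝔞) (W := Ideal.span (Set.range fun j => f j ^ (c + m)))
    (fun j => Ideal.subset_span ⟨j, rfl⟩) (fun j => Ideal.subset_span ⟨j, rfl⟩) Finset.univ
    (M + m) (by rw [Finset.card_univ, Fintype.card_fin]; omega)
  rw [Finset.coe_univ, Set.image_univ, ← h𝔞] at h1
  have h2 : Ideal.span {z} * Ideal.span (Set.range fun j => f j ^ (c + m)) ≤
      T * 𝔞 ^ c ⊔ 𝔮 * 𝔞 ^ (c + m) := by
    rw [Ideal.span_mul_span', Ideal.span_le]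
    rintro _ ⟨_, rfl, _, ⟨j, rfl⟩, rfl⟩
    exact H j
  obtain ⟨M', rfl⟩ : ∃ M', M = c + M' := ⟨M - c, by omega⟩
  have e1 : c + M' + m - (c + m) = M' := by omega
  rw [e1] at h1
  refine (Ideal.mul_mono_right h1).trans ?_
  rw [← mul_assoc]
  refine (Ideal.mul_mono_left h2).trans (le_of_eq ?_)
  rw [Ideal.sup_mul, mul_assoc, mul_assoc, ← pow_add, ← pow_add, add_right_comm c m M']

/-- The iteration. -/
lemma fadj_iter {𝔞 T 𝔮 𝔎 : Ideal R} {z : R} {m M : ℕ} (hT : T ≤ 𝔞 ^ m)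
    (hsat : ∀ 𝔫, Ideal.span {z} * 𝔫 ≤ 𝔎 → 𝔫 ≤ 𝔎)
    (H : ∀ M', M ≤ M' → Ideal.span {z} * 𝔞 ^ (M' + m) ≤ T * 𝔞 ^ M' ⊔ 𝔮 * 𝔞 ^ (M' + m)) (κ : ℕ) :
    ∀ U : Ideal R, 𝔮 * 𝔞 ^ (κ * m + M) * U ≤ 𝔎 → T ^ κ * 𝔞 ^ M * U ≤ 𝔎 →
      𝔞 ^ (κ * m + M) * U ≤ 𝔎 := by
  induction κ with
  | zero => intro U _ h; simpa using h
  | succ κ ih =>
    intro U h1 h2
    have e1 : (κ + 1) * m + M = κ * m + M + m := by ring
    rw [e1] at h1 ⊢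
    have h3 := ih (T * U) (le_trans ?_ h1) (le_trans (le_of_eq (by ring)) h2)
    · refine hsat _ ?_
      rw [← mul_assoc]
      refine (Ideal.mul_mono_left (H _ (Nat.le_add_left _ _))).trans ?_
      rw [Ideal.sup_mul]
      exact sup_le (le_trans (le_of_eq (by ring)) h3) h1
    · rw [pow_add _ _ m, ← mul_assoc, ← mul_assoc]
      exact Ideal.mul_mono_left (Ideal.mul_mono_right hT)

end ideals

variable {k : Type u} [Field k] {P : PreRel k} (Q : Pol P) (𝔭 : P.Idl) (i₀ : P.ι)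

/-- Values of forms of degree `N` that vanish to order `κ` along `𝔭`. -/
def fadjG (κ N : ℕ) : Set (P.A i₀) :=
  {a | ∃ θ : MvPolynomial (Fin Q.r) k, θ.IsHomogeneous N ∧
    (∀ i, Q.ev θ i ∈ 𝔭 i ^ κ * Q.base i ^ N) ∧ a = Q.ev θ i₀}

lemma fadjG_mul (κ N κ' N' : ℕ) : Ideal.span (fadjG Q 𝔭 i₀ κ N) * Ideal.span (fadjG Q 𝔭 i₀ κ' N') ≤
    Ideal.span (fadjG Q 𝔭 i₀ (κ + κ') (N + N')) := by
  rw [Ideal.span_mul_span']
  refine Ideal.span_mono ?_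
  rintro _ ⟨_, ⟨θ, h1, h2, rfl⟩, _, ⟨θ', h1', h2', rfl⟩, rfl⟩
  refine ⟨θ * θ', h1.mul h1', fun i => ?_, by simp [Pol.ev]⟩
  have := Ideal.mul_mem_mul (h2 i) (h2' i)
  rw [mul_mul_mul_comm, ← pow_add, ← pow_add] at this
  simpa [Pol.ev] using this

lemma fadjG_pow {κ N : ℕ} {T : Ideal (P.A i₀)} (hT : T ≤ Ideal.span (fadjG Q 𝔭 i₀ κ N)) (j : ℕ) :
    T ^ j ≤ Ideal.span (fadjG Q 𝔭 i₀ (j * κ) (j * N)) := by
  induction j with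
  | zero =>
    rw [pow_zero, Ideal.one_eq_top, top_le_iff, Ideal.eq_top_iff_one]
    exact Ideal.subset_span ⟨1, by simpa using isHomogeneous_one _ _, fun i => by simp,
      by simp [Pol.ev]⟩
  | succ j ih =>
    rw [pow_succ, add_mul, add_mul, one_mul, one_mul]
    exact (Ideal.mul_mono ih hT).trans (fadjG_mul Q 𝔭 i₀ _ _ _ _)

lemma fadjG_base : Q.base i₀ ≤ Ideal.span (fadjG Q 𝔭 i₀ 0 1) := by
  refine Ideal.span_mono ?_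
  rintro _ ⟨j, rfl⟩
  refine ⟨X j, isHomogeneous_X _ _, fun i => ?_, by simp [Pol.ev]⟩
  have : Q.f j i ∈ Q.base i := Ideal.subset_span ⟨j, rfl⟩
  simpa [Pol.ev] using this

/-- The consequence of `Room` that is used. -/
lemma fadj_room (hQ : Q.Room) (h𝔭 : P.Inv 𝔭) (𝔮 : Ideal (P.A i₀)) (h𝔮 : 𝔮.IsPrime)
    (hn : ¬ 𝔭 i₀ ≤ 𝔮) : ∃ m M : ℕ, 0 < m ∧ 0 < M ∧ ∀ (κ : ℕ) (𝔎 U : Ideal (P.A i₀)),
      (∀ z ∉ 𝔮, ∀ 𝔫, Ideal.span {z} * 𝔫 ≤ 𝔎 → 𝔫 ≤ 𝔎) →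
      𝔮 * Q.base i₀ ^ (κ * m + M) * U ≤ 𝔎 →
      Ideal.span (fadjG Q 𝔭 i₀ κ (κ * m + M)) * U ≤ 𝔎 → Q.base i₀ ^ (κ * m + M) * U ≤ 𝔎 := by
  obtain ⟨m, c, Θ, hm, hΘ, z, hz, H⟩ := hQ 𝔭 h𝔭 i₀ 𝔮 h𝔮 hn
  refine ⟨m, Q.r * (c + m) + c + 1, hm, by omega, fun κ 𝔎 U hsat h1 h2 => ?_⟩
  set T := Ideal.span ((fun θ => Q.ev θ i₀) '' Θ) with hT
  have hT1 : T ≤ Q.base i₀ ^ m := Ideal.span_le.2 (by
    rintro _ ⟨θ, hθ, rfl⟩
    exact Ideal.mul_le_right ((hΘ θ hθ).2 i₀))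
  have hT2 : T ≤ Ideal.span (fadjG Q 𝔭 i₀ 1 m) := Ideal.span_mono (by
    rintro _ ⟨θ, hθ, rfl⟩
    exact ⟨θ, (hΘ θ hθ).1, fun i => by rw [pow_one]; exact (hΘ θ hθ).2 i, rfl⟩)
  refine fadj_iter hT1 (hsat z hz) (fun M' hM' => fadj_step (fun j => Q.f j i₀) H hM') κ U h1
    (le_trans (Ideal.mul_mono_left ?_) h2)
  have := (Ideal.mul_mono (fadjG_pow Q 𝔭 i₀ hT2 κ)
    (fadjG_pow Q 𝔭 i₀ (fadjG_base Q 𝔭 i₀) (Q.r * (c + m) + c + 1))).trans (fadjG_mul Q 𝔭 i₀ _ _ _ _)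
  simpa using this

lemma fadj_inv_base : P.Inv Q.base := by
  have := PreRel.IsSec.inv_span PreRel.Inv.bot Q.sec
  simp only [Pi.bot_apply, sup_bot_eq] at this
  exact this

/-- Finitely many monotone conditions on a finite set can be met at once. -/
lemma fadj_fin {X Y : Type*} {s : Set X} (hs : s.Finite) (R : X → Finset Y → Prop)
    (mono : ∀ x Φ Φ', Φ ⊆ Φ' → R x Φ → R x Φ') (H : ∀ x ∈ s, ∃ Φ, R x Φ) :
    ∃ Φ, ∀ x ∈ s, R x Φ := by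
  classical
  choose! Φ hΦ using H
  exact ⟨hs.toFinset.biUnion Φ, fun x hx => mono x _ _
    (Finset.subset_biUnion_of_mem Φ (hs.mem_toFinset.2 hx)) (hΦ x hx)⟩

/-- The element `β` is expressed through the other chart with coefficients in `Φ`. -/
def fadjR {K : Type u} [Field K] [Algebra k K] (σ τ : P.Pt K) (𝔟 : P.Idl) (β : P.A σ.1)
    (Φ : Finset K) : Prop :=
  ∀ r : P.Rel σ τ, ∃ (n : ℕ) (b : Fin n → P.B σ.1 τ.1) (β' : Fin n → P.A τ.1),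
    (∀ l, β' l ∈ 𝔟 τ.1 ∧ r.ev (b l) ∈ Φ) ∧ P.s σ.1 τ.1 β = ∑ l, b l * P.t σ.1 τ.1 (β' l)

lemma fadjR.mono {K : Type u} [Field K] [Algebra k K] {σ τ : P.Pt K} {𝔟 : P.Idl} {β : P.A σ.1}
    {Φ Φ' : Finset K} (h : Φ ⊆ Φ') (H : fadjR σ τ 𝔟 β Φ) : fadjR σ τ 𝔟 β Φ' := fun r => by
  obtain ⟨n, b, β', h1, h2⟩ := H r
  exact ⟨n, b, β', fun l => ⟨(h1 l).1, h (h1 l).2⟩, h2⟩

lemma fadj_exists_R {K : Type u} [Field K] [Algebra k K] {σ τ : P.Pt K} (r : P.Rel σ τ)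
    {𝔟 : P.Idl} (h𝔟 : P.Inv 𝔟) {β : P.A σ.1} (hβ : β ∈ 𝔟 σ.1) : ∃ Φ, fadjR σ τ 𝔟 β Φ := by
  classical
  have h1 : P.s σ.1 τ.1 β ∈ (𝔟 τ.1).map (P.t σ.1 τ.1) := h𝔟 σ.1 τ.1 ▸ Ideal.mem_map_of_mem _ hβ
  obtain ⟨n, b, g, hg⟩ := Submodule.mem_span_set'.1 h1
  choose β' h2 h3 using fun l => (g l).2
  refine ⟨Finset.univ.image fun l => r.ev (b l), fun _ => ⟨n, b, β', fun l =>
    ⟨h2 l, Finset.mem_image_of_mem _ (Finset.mem_univ l)⟩, ?_⟩⟩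
  rw [← hg]
  exact Finset.sum_congr rfl fun l _ => by rw [h3 l, smul_eq_mul]

/-- The finite set of coefficients. -/
lemma fadj_exists_Phi {K : Type u} [Field K] [Algebra k K] {S : Set (P.Pt K)} (hS : S.Finite)
    {σ : P.Pt K} (hσ : ∀ τ ∈ S, P.Rel σ τ) {𝔅 : Set P.Idl} (h𝔅 : 𝔅.Finite)
    (hI : ∀ 𝔟 ∈ 𝔅, P.Inv 𝔟) : ∃ Φ : Finset K, ∀ 𝔟 ∈ 𝔅, ∃ s : Set (P.A σ.1),
      Ideal.span s = 𝔟 σ.1 ∧ ∀ β ∈ s, ∀ τ ∈ S, fadjR σ τ 𝔟 β Φ := by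
  refine fadj_fin h𝔅 _ (fun 𝔟 Φ Φ' h ⟨s, h1, h2⟩ =>
    ⟨s, h1, fun β hβ τ hτ => (h2 β hβ τ hτ).mono h⟩) fun 𝔟 h𝔟 => ?_
  obtain ⟨s, hs⟩ := (IsNoetherian.noetherian (𝔟 σ.1) : (𝔟 σ.1).FG)
  obtain ⟨Φ, hΦ⟩ := fadj_fin s.finite_toSet (fun β Φ => ∀ τ ∈ S, fadjR σ τ 𝔟 β Φ)
    (fun β Φ Φ' h H τ hτ => (H τ hτ).mono h) fun β hβ =>
      fadj_fin hS (fun τ Φ => fadjR σ τ 𝔟 β Φ) (fun τ Φ Φ' h H => H.mono h) fun τ hτ =>
        fadj_exists_R (hσ τ hτ) (hI 𝔟 h𝔟) (hs ▸ Ideal.subset_span hβ)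
  exact ⟨Φ, s, hs, hΦ⟩

/-- Grouping a sum by the coefficients. -/
lemma fadj_group {K : Type u} [Field K] (V : K → Prop) (h0 : V 0)
    (hadd : ∀ u v, V u → V v → V (u + v)) (Φ : Finset K) {ι : Type*} (s : Finset ι) (b v : ι → K)
    (hb : ∀ l ∈ s, b l ∈ Φ) (hv : ∀ l ∈ s, V (v l)) :
    ∃ u : K → K, (∀ φ ∈ Φ, V (u φ)) ∧ ∑ l ∈ s, b l * v l = ∑ φ ∈ Φ, φ * u φ := by
  classical
  refine ⟨fun φ => ∑ l ∈ s with b l = φ, v l, fun φ _ => ?_, ?_⟩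
  · exact Finset.sum_induction _ V hadd h0 fun l hl => hv l (Finset.mem_filter.1 hl).1
  · rw [← Finset.sum_fiberwise_of_maps_to hb]
    refine Finset.sum_congr rfl fun φ _ => ?_
    rw [Finset.mul_sum]
    exact Finset.sum_congr rfl fun l hl => by rw [(Finset.mem_filter.1 hl).2]

end

end Pool.Agent.Lib.MP_1c03d5_ag
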