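import Pool.Agent.Lib.MP_1c03d5_ag.Gen1
import Pool.Agent.Lib.MP_1c03d5_ag.Etp

/-!
# TASK GEN2: existence of generic points
-/

universe u

namespace Pool.Agent.Lib.MP_1c03d5_ag

noncomputable section

variable {k : Type u} [Field k] {P : EqRel k}

lemma gen2_ker {A : Type u} [CommRing A] [Algebra k A] (𝔮 : Ideal A) [𝔮.IsPrime] :
    RingHom.ker (IsScalarTower.toAlgHom k A (AlgebraicClosure 𝔮.ResidueField)) = 𝔮 := by
  ext a
  rw [RingHom.mem_ker, IsScalarTower.toAlgHom_apply,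
    IsScalarTower.algebraMap_apply A 𝔮.ResidueField, map_eq_zero, Ideal.algebraMap_residueField_eq_zero]

lemma gen2_finite {Ω : Type u} [Field Ω] [Algebra k Ω] (σ : P.Pt Ω) :
    {τ : P.Pt Ω | P.Rel σ τ}.Finite := by
  have h1 : ∀ j : P.ι, {φ : P.A j →ₐ[k] Ω | P.Rel σ ⟨j, φ⟩}.Finite := by
    intro j
    refine Set.Finite.of_finite_image (f := fun φ => φ.toRingHom) ?_
      (fun _ _ _ _ h => AlgHom.coe_ringHom_injective h)
    refine ((finite_lifts_of_etale (P.et_s σ.1 j) σ.2.toRingHom).image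
      fun ψ => ψ.comp (P.t σ.1 j).toRingHom).subset ?_
    rintro _ ⟨φ, hφ, rfl⟩
    exact ⟨(PreRel.Rel.ev hφ).toRingHom, RingHom.ext (PreRel.Rel.ev_s hφ),
      RingHom.ext (PreRel.Rel.ev_t hφ)⟩
  refine (Set.finite_iUnion fun j => (h1 j).image fun φ => (⟨j, φ⟩ : P.Pt Ω)).subset ?_
  intro τ hτ
  exact Set.mem_iUnion.2 ⟨τ.1, τ.2, hτ, rfl⟩

lemma gen2_map_injective {C C' : Type u} [CommRing C] [Algebra k C] [CommRing C'] [Algebra k C']
    {φ : C →ₐ[k] C'} (hφ : Function.Injective φ) :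
    Function.Injective fun σ : P.Pt C => σ.map φ := by
  rintro ⟨i, a⟩ ⟨j, b⟩ h
  obtain ⟨rfl, h'⟩ := Sigma.mk.inj_iff.1 h
  congr 1
  exact AlgHom.ext fun x => hφ (AlgHom.congr_fun (eq_of_heq h') x)

lemma gen2_main {Ω : Type u} [Field Ω] [Algebra k Ω] [IsAlgClosed Ω] (σ₀ : P.Pt Ω)
    (halg : ∀ F : IntermediateField k Ω, (∀ a, σ₀.2 a ∈ F) → Algebra.IsAlgebraic F Ω) :
    ∃ (Γ : Gen P) (φ : P.A σ₀.1 →ₐ[k] Γ.K'), ⟨σ₀.1, φ⟩ ∈ Γ.S ∧ RingHom.ker φ = σ₀.ker := by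
  let K' : IntermediateField k Ω :=
    IntermediateField.adjoin k (⋃ τ ∈ {τ : P.Pt Ω | P.Rel σ₀ τ}, Set.range τ.2)
  have hmem : ∀ τ : P.Pt Ω, P.Rel σ₀ τ → ∀ a, τ.2 a ∈ K' := fun τ hτ a =>
    IntermediateField.subset_adjoin k _ (Set.mem_biUnion hτ ⟨a, rfl⟩)
  have hres : ∀ τ : P.Pt Ω, P.Rel σ₀ τ → ∃ φ : P.A τ.1 →ₐ[k] K', K'.val.comp φ = τ.2 :=
    fun τ hτ => ⟨τ.2.codRestrict K'.toSubalgebra (hmem τ hτ), rfl⟩
  have hval : Function.Injective K'.val := Subtype.val_injective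
  have h0 := P.refl Ω σ₀
  obtain ⟨φ, hφ⟩ := hres σ₀ h0
  have hφ' : P.Rel σ₀ (Fam.Pt.map (⟨σ₀.1, φ⟩ : P.Pt K') K'.val) := by
    change P.Rel σ₀ ⟨σ₀.1, K'.val.comp φ⟩
    rwa [hφ]
  refine ⟨{ K' := K'
            S := {σ | P.Rel σ₀ (σ.map K'.val)}
            fin := (gen2_finite σ₀).preimage (gen2_map_injective hval).injOn
            ne := ⟨_, hφ'⟩
            rel := fun σ hσ τ hτ => PreRel.Rel.of_map hval (P.trans _ _ _ _ (P.symm _ _ _ hσ) hτ)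
            complete := ?_
            gen := ?_ }, φ, hφ', ?_⟩
  · intro Ω' _ _ j σ hσ τ h
    let ι := IsScalarTower.toAlgHom k Ω' (AlgebraicClosure Ω')
    letI : Algebra K' (AlgebraicClosure Ω') := (ι.comp j).toRingHom.toAlgebra
    have := halg K' (hmem σ₀ h0)
    let J : Ω →ₐ[K'] AlgebraicClosure Ω' := IsAlgClosed.lift
    have hJ : ∀ x : K', J x = ι (j x) := J.commutes
    obtain ⟨ψ, h1, h2⟩ := exists_lift_of_etale (P.et_s σ.1 τ.1) J.toRingHom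
      (K'.val.comp σ.2).toRingHom (ι.comp h.ev).toRingHom
      (RingHom.ext fun a => (congrArg ι (h.ev_s a)).trans (hJ _).symm)
    let ψ' : P.B σ.1 τ.1 →ₐ[k] Ω :=
      { ψ with
        commutes' := fun c => by
          rw [← (P.s σ.1 τ.1).commutes c]
          exact (RingHom.congr_fun h1 _).trans ((K'.val.comp σ.2).commutes c) }
    have h3 := PreRel.rel_of_hom ψ'
    rw [show ψ'.comp (P.s σ.1 τ.1) = K'.val.comp σ.2 from AlgHom.ext (RingHom.congr_fun h1)] at h3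
    have h4 := P.trans _ _ _ _ hσ h3
    obtain ⟨χ, hχ⟩ := hres _ h4
    refine ⟨⟨τ.1, χ⟩, ?_, ?_⟩
    · change P.Rel σ₀ ⟨τ.1, K'.val.comp χ⟩
      rwa [hχ]
    · refine Sigma.ext rfl (heq_of_eq (AlgHom.ext fun a => ι.injective ?_))
      exact (hJ _).symm.trans ((congrArg J (AlgHom.congr_fun hχ a)).trans
        ((RingHom.congr_fun h2 _).trans (congrArg ι (h.ev_t a))))
  · apply IntermediateField.lift_injective K'
    rw [IntermediateField.lift_adjoin, IntermediateField.lift_top]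
    refine congrArg (IntermediateField.adjoin k) (Set.Subset.antisymm ?_ ?_)
    · rintro _ ⟨x, hx, rfl⟩
      obtain ⟨σ, hσ, a, rfl⟩ := Set.mem_iUnion₂.1 hx
      exact Set.mem_biUnion (x := σ.map K'.val) hσ ⟨a, rfl⟩
    · intro x hx
      obtain ⟨τ, hτ, a, rfl⟩ := Set.mem_iUnion₂.1 hx
      obtain ⟨χ, hχ⟩ := hres τ hτ
      refine ⟨χ a, Set.mem_biUnion (x := ⟨τ.1, χ⟩) ?_ ⟨a, rfl⟩, AlgHom.congr_fun hχ a⟩
      change P.Rel σ₀ ⟨τ.1, K'.val.comp χ⟩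
      rwa [hχ]
  · ext a
    rw [RingHom.mem_ker, RingHom.mem_ker, ← hφ]
    exact (map_eq_zero K'.val).symm

theorem exists_gen (i : P.ι) (𝔮 : Ideal (P.A i)) [𝔮.IsPrime] :
    ∃ (Γ : Gen P) (φ : P.A i →ₐ[k] Γ.K'), ⟨i, φ⟩ ∈ Γ.S ∧ RingHom.ker φ = 𝔮 := by
  obtain ⟨Γ, φ, h1, h2⟩ := gen2_main (P := P)
    ⟨i, IsScalarTower.toAlgHom k _ (AlgebraicClosure 𝔮.ResidueField)⟩ fun F hF => by
      have h : ∀ x, algebraMap 𝔮.ResidueField (AlgebraicClosure 𝔮.ResidueField) x ∈ F := by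
        intro x
        obtain ⟨a, b, -, rfl⟩ := IsFractionRing.div_surjective (A := P.A i ⧸ 𝔮) x
        obtain ⟨a, rfl⟩ := Ideal.Quotient.mk_surjective a
        obtain ⟨b, rfl⟩ := Ideal.Quotient.mk_surjective b
        rw [map_div₀]
        exact div_mem (hF a) (hF b)
      letI : Algebra 𝔮.ResidueField F := ((algebraMap _ _).codRestrict F h).toAlgebra
      have : IsScalarTower 𝔮.ResidueField F (AlgebraicClosure 𝔮.ResidueField) :=
        IsScalarTower.of_algebraMap_eq fun _ => rfl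
      exact Algebra.IsAlgebraic.tower_top (K := 𝔮.ResidueField) F
  exact ⟨Γ, φ, h1, h2.trans (gen2_ker 𝔮)⟩

lemma gen2_flat {R S : Type u} [CommRing R] [CommRing S] {φ : R →+* S} (h : φ.Etale) : φ.Flat := by
  algebraize [φ]
  exact inferInstanceAs (Module.Flat R S)

theorem exists_generic (P : CPres k) : ∃ Γ : Gen P.toEqRel, Γ.Generic := by
  obtain ⟨i⟩ := P.ne
  obtain ⟨Γ, φ, hφ, hk⟩ := exists_gen (P := P.toEqRel) i ⊥
  refine ⟨Γ, fun σ hσ => ?_, fun j => ?_⟩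
  · have h := Γ.rel _ hφ σ hσ
    have : (RingHom.ker h.ev.toRingHom).IsPrime := RingHom.ker_isPrime _
    obtain ⟨𝔓, h1, h2, h3⟩ := exists_le_comap_eq_of_flat (gen2_flat (P.et_t i σ.1)) (𝔭 := ⊥)
      (𝔔 := RingHom.ker h.ev.toRingHom) bot_le
    have h4 : (RingHom.ker h.ev.toRingHom).comap (P.s i σ.1).toRingHom = ⊥ := by
      rw [← hk]
      ext a
      exact iff_of_eq (congrArg (· = 0) (h.ev_s a))
    have h5 := eq_of_le_of_etale (P.et_s i σ.1) h2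
      ((le_bot_iff.1 (h4 ▸ Ideal.comap_mono h2)).trans h4.symm)
    rw [injective_iff_map_eq_zero]
    intro a ha
    have h6 : a ∈ 𝔓.comap (P.t i σ.1).toRingHom := by
      rw [h5]
      exact (h.ev_t a).trans ha
    rwa [h3] at h6
  · obtain ⟨𝔔, h𝔔⟩ := Ideal.exists_maximal (P.B i j)
    obtain ⟨𝔓, h1, -, h3⟩ := exists_le_comap_eq_of_flat (gen2_flat (P.et_s i j)) (𝔭 := ⊥)
      (𝔔 := 𝔔) bot_le
    let ψ := IsScalarTower.toAlgHom k (P.B i j) (AlgebraicClosure 𝔓.ResidueField)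
    obtain ⟨e, he⟩ := Γ.exists_ext hφ (ψ.comp (P.s i j)) (by
      rw [hk, ← h3]
      conv_lhs => rw [← gen2_ker (k := k) 𝔓]
      rfl)
    have h4 := PreRel.rel_of_hom ψ
    rw [← he] at h4
    obtain ⟨⟨j', χ⟩, h5, h6⟩ := Γ.complete _ e _ hφ _ h4
    obtain rfl : j' = j := congrArg Sigma.fst h6
    exact ⟨χ, h5⟩

end

end Pool.Agent.Lib.MP_1c03d5_ag
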