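import Pool.Agent.Lib.MP_1c03d5_ag.Lift
import Pool.Agent.Lib.MP_1c03d5_ag.Gen2
import Pool.Agent.Lib.MP_1c03d5_ag.Big

/-!
# TASK FIN1: the morphism defined by a semi-ample bundle is quasi-finite
-/

universe u

namespace Pool.Agent.Lib.MP_1c03d5_ag

noncomputable section

/-- A prime whose fibre consists of maximal ideals is a quasi-finite point. -/
theorem fin1_qf {R S : Type*} [CommRing R] [CommRing S] [Algebra R S] [Algebra.FiniteType R S]
    [IsNoetherianRing S] (𝔪 : Ideal S) [h𝔪 : 𝔪.IsPrime]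
    (h : ∀ Q : Ideal S, Q.IsPrime → Q.comap (algebraMap R S) = 𝔪.comap (algebraMap R S) →
      Q.IsMaximal) : Algebra.QuasiFiniteAt R 𝔪 := by
  let q : PrimeSpectrum S := ⟨𝔪, h𝔪⟩
  refine Algebra.QuasiFiniteAt.of_isOpen_singleton_fiber q ?_
  set X : Set (PrimeSpectrum S) :=
    PrimeSpectrum.comap (algebraMap R S) ⁻¹' {q.comap (algebraMap R S)} with hX
  have hmem : ∀ x ∈ X, x.asIdeal.comap (algebraMap R S) = 𝔪.comap (algebraMap R S) :=
    fun x hx => congrArg PrimeSpectrum.asIdeal hx
  have hfin : X.Finite := by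
    refine Set.Finite.of_finite_image (f := PrimeSpectrum.asIdeal) ?_
      fun _ _ _ _ e => PrimeSpectrum.ext e
    refine (Ideal.finite_minimalPrimes_of_isNoetherianRing S
      ((𝔪.comap (algebraMap R S)).map (algebraMap R S))).subset ?_
    rintro _ ⟨x, hx, rfl⟩
    have h1 : (𝔪.comap (algebraMap R S)).map (algebraMap R S) ≤ x.asIdeal :=
      Ideal.map_le_iff_le_comap.2 (hmem x hx).ge
    obtain ⟨Q, hQ, hle⟩ := Ideal.exists_minimalPrimes_le h1
    have h2 : Q.comap (algebraMap R S) = 𝔪.comap (algebraMap R S) :=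
      le_antisymm ((Ideal.comap_mono hle).trans (hmem x hx).le)
        (Ideal.map_le_iff_le_comap.1 hQ.1.2)
    have h3 := (h Q hQ.1.1 h2).eq_of_le x.2.ne_top hle
    rwa [← h3]
  have : Finite X := hfin
  have : T1Space X := ⟨fun x => by
    have h1 : IsClosed ({x.1} : Set (PrimeSpectrum S)) :=
      (PrimeSpectrum.isClosed_singleton_iff_isMaximal _).2 (h _ x.1.2 (hmem _ x.2))
    have h2 := h1.preimage (continuous_subtype_val (p := fun y => y ∈ X))
    have h3 : (Subtype.val ⁻¹' {x.1} : Set X) = {x} := by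
      ext y; simp [Subtype.ext_iff]
    rwa [h3] at h2⟩
  exact isOpen_discrete _

variable {k : Type u} [Field k] [IsAlgClosed k] {P : EqRel k} {L : P.LB} {β : Type} [Finite β]
  {f : β → P.El}

omit [Finite β] in
/-- Residues at a maximal ideal are constants. -/
theorem fin1_res {S : Type*} [CommRing S] [Algebra k S] [Algebra.FiniteType k S] (𝔪 : Ideal S)
    [𝔪.IsMaximal] (x : S) : ∃ c : k, x - algebraMap k S c ∈ 𝔪 := by
  let := Ideal.Quotient.field 𝔪
  have : Module.Finite k (S ⧸ 𝔪) := finite_of_finite_type_of_isJacobsonRing k _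
  obtain ⟨c, hc⟩ := (IsAlgClosed.algebraMap_bijective_of_isIntegral (k := k) (K := S ⧸ 𝔪)).2
    (Ideal.Quotient.mk 𝔪 x)
  refine ⟨c, Ideal.Quotient.eq.1 ?_⟩
  rw [← hc]; rfl

/-- Generating sections of a bundle that is big on every subvariety. -/
structure Gsec (L : P.LB) (f : β → P.El) : Prop where
  big : ∀ Γ : Gen P, Γ.Big L
  sec : ∀ b, P.IsSec L ⊥ (f b)
  gen : ∀ i, Ideal.span (Set.range fun b => f b i) = ⊤

omit [IsAlgClosed k] [Finite β] in
/-- At a centred point one of the generating sections is a unit. -/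
theorem fin1_unit (h : Gsec L f) {K : Type u} [Field K] [Algebra k K] {τ : P.Pt K} {w : Val k K}
    (hτ : τ.Cen w) : ∃ b, w.v (τ.val (f b)) = 1 := by
  by_contra hn
  push Not at hn
  have key : ∀ x ∈ Ideal.span (Set.range fun b => f b τ.1), w.v (τ.2 x) < 1 := by
    intro x hx
    induction hx using Submodule.span_induction with
    | mem x hx =>
      obtain ⟨b, rfl⟩ := hx
      exact lt_of_le_of_ne (Val.v_le_one.2 (hτ _)) (hn b)
    | zero => simp
    | add x y _ _ hx hy => rw [map_add]; exact Valuation.map_add_lt _ hx hy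
    | smul r x _ hx =>
      rw [smul_eq_mul, map_mul, map_mul]
      exact lt_of_le_of_lt (mul_le_of_le_one_left' (Val.v_le_one.2 (hτ r))) hx
  have := key 1 (by rw [h.gen]; trivial)
  simp at this

/-- A subvariety that is contracted is a point. -/
theorem Gsec.const (h : Gsec L f) (Γ : Gen P) {σ} (hσ : σ ∈ Γ.S) {a : β} (ha : σ.val (f a) ≠ 0)
    (hc : ∀ b, σ.val (f b) / σ.val (f a) ∈ (algebraMap k Γ.K').range) (x : Γ.K') :
    x ∈ (algebraMap k Γ.K').range := by
  classical
  obtain ⟨m, -, E, hrs, -, hnz, hreg, hΦ⟩ := h.big Γ {x}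
  have hx := hΦ x (Finset.mem_singleton_self x)
  have key : ∀ y : Γ.K', (Γ.Reg fun σ => y * E σ) →
      y * E σ / σ.val (f a) ^ m ∈ (algebraMap k Γ.K').range := by
    intro y hy
    refine mem_range_of_val fun w => ?_
    obtain ⟨τ, hτ, hw⟩ := Γ.exists_cen w
    have hr := Γ.rel σ hσ τ hτ
    have hval : ∀ b, σ.val (f b) = hr.tr L * τ.val (f b) := fun b =>
      (h.sec b).val_eq hr bot_le
    have hg : hr.tr L ≠ 0 := (hr.isUnit_tr L).ne_zero
    have hE : E σ = hr.tr L ^ m * E τ := by rw [hrs σ hσ τ hτ hr, hr.tr_pow]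
    have ha' : τ.val (f a) ≠ 0 := fun e => ha (by rw [hval, e, mul_zero])
    obtain ⟨b, hb⟩ := fin1_unit h hw
    obtain ⟨c, hcb⟩ := hc b
    have h1 : τ.val (f b) = algebraMap k Γ.K' c * τ.val (f a) := by
      rw [hcb, hval a, hval b]; field_simp
    have hc0 : c ≠ 0 := by
      rintro rfl
      rw [h1] at hb; simp at hb
    have h2 : w.v (τ.val (f a)) = 1 := by
      rw [h1, map_mul, w.v_algebraMap hc0, one_mul] at hb; exact hb
    have h3 : y * E σ / σ.val (f a) ^ m = y * E τ / τ.val (f a) ^ m := by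
      rw [hE, hval a, mul_pow]; field_simp
    rw [h3, ← Val.v_le_one, map_div₀, map_pow, h2, one_pow, div_one, Val.v_le_one]
    exact Gen.reg_iff.1 hy τ hτ w hw
  obtain ⟨c, hc1⟩ := key 1 (by simpa using hreg)
  obtain ⟨d, hd⟩ := key x hx
  have hE := hnz σ hσ
  refine ⟨d / c, ?_⟩
  rw [map_div₀, hc1, hd]; field_simp

/-- Zariski's main theorem for the charts: near a maximal ideal the chart is a localisation of the
integral closure of the ring of ratios. -/
theorem Gsec.zmt (h : Gsec L f) (a : β) (i : P.ι) (𝔪 : Ideal (Localization.Away (f a i)))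
    [𝔪.IsMaximal] : ∃ r ∉ 𝔪, IsIntegral (chartMap f a i).range r ∧
      ∀ x, ∃ n : ℕ, IsIntegral (chartMap f a i).range (r ^ n * x) := by
  have hft : Algebra.FiniteType k (Localization.Away (f a i)) :=
    .trans (S := P.A i) inferInstance inferInstance
  have hft' : Algebra.FiniteType (chartMap f a i).range (Localization.Away (f a i)) :=
    .of_restrictScalars_finiteType k _ _
  have : Algebra.QuasiFiniteAt (chartMap f a i).range 𝔪 := by
    refine fin1_qf 𝔪 fun Q hQ hQ𝔪 => ?_
    obtain ⟨Γ, φ, hφ, hker⟩ := exists_gen i (Q.comap (algebraMap (P.A i) _))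
    have hk : ∀ y, φ y = 0 ↔ algebraMap (P.A i) (Localization.Away (f a i)) y ∈ Q := fun y => by
      rw [← RingHom.mem_ker, hker, Ideal.mem_comap]
    have hu := IsLocalization.Away.algebraMap_isUnit (S := Localization.Away (f a i)) (f a i)
    have ha : φ (f a i) ≠ 0 := fun e => hQ.ne_top (Q.eq_top_of_isUnit_mem ((hk _).1 e) hu)
    have hc : ∀ b, φ (f b i) / φ (f a i) ∈ (algebraMap k Γ.K').range := by
      intro b
      obtain ⟨c, hc⟩ := fin1_res (k := k) 𝔪 (chartMap f a i (MvPolynomial.X b))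
      have h1 : chartMap f a i (MvPolynomial.X b) - algebraMap k _ c ∈ Q := by
        have h2 : (⟨_, sub_mem (AlgHom.mem_range_self _ _) (Subalgebra.algebraMap_mem _ c)⟩ :
            (chartMap f a i).range) ∈ 𝔪.comap (algebraMap (chartMap f a i).range _) := hc
        rw [← hQ𝔪] at h2
        exact h2
      have h3 : φ (f b i - algebraMap k _ c * f a i) = 0 := by
        rw [hk]
        convert Q.mul_mem_right (algebraMap (P.A i) _ (f a i)) h1 using 1
        rw [chartMap, MvPolynomial.aeval_X, sub_mul, mul_assoc,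
          mul_comm (IsLocalization.Away.invSelf _), IsLocalization.Away.mul_invSelf, mul_one,
          map_sub, map_mul, ← IsScalarTower.algebraMap_apply]
      rw [map_sub, map_mul, AlgHom.commutes, sub_eq_zero] at h3
      exact ⟨c, by rw [h3, mul_div_cancel_right₀ _ ha]⟩
    refine Ideal.isMaximal_iff.2 ⟨(Ideal.ne_top_iff_one _).1 hQ.ne_top, fun J s hJ hs hsJ => ?_⟩
    obtain ⟨n, y, hy⟩ := IsLocalization.Away.surj (f a i) s
    obtain ⟨c, hc'⟩ := h.const Γ hφ ha hc (φ y)
    have hyJ : algebraMap (P.A i) (Localization.Away (f a i)) y ∈ J := hy ▸ J.mul_mem_right _ hsJ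
    have h1 : algebraMap (P.A i) (Localization.Away (f a i)) (y - algebraMap k _ c) ∈ Q := by
      rw [← hk, map_sub, AlgHom.commutes, hc', sub_self]
    have hc0 : c ≠ 0 := by
      rintro rfl
      rw [map_zero, sub_zero, ← hy] at h1
      rcases hQ.mem_or_mem h1 with h2 | h2
      · exact hs h2
      · exact hQ.ne_top (Q.eq_top_of_isUnit_mem h2 (hu.pow n))
    have h2 := J.sub_mem hyJ (hJ h1)
    rw [map_sub, sub_sub_cancel, ← IsScalarTower.algebraMap_apply] at h2
    rw [J.eq_top_of_isUnit_mem h2 ((IsUnit.mk0 c hc0).map _)]; trivial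
  exact Algebra.zariskisMainProperty_iff.1 (Algebra.ZariskisMainProperty.of_finiteType 𝔪)

end

end Pool.Agent.Lib.MP_1c03d5_ag
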