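import Pool.Agent.Lib.MP_1c03d5_ag.Val

/-!
# TASK INERT: the fixed ring of a group containing the inertia group is etale
-/

universe u

namespace Pool.Agent.Lib.MP_1c03d5_ag

noncomputable section

variable {k K : Type u} [Field k] [Field K] [Algebra k K]

/-- Elements integral over `C` and fixed by `H`. -/
def fixInt (C : Subalgebra k K) (H : Subgroup (K ≃ₐ[k] K)) : Subalgebra k K where
  carrier := {x | IsIntegral C x ∧ ∀ γ ∈ H, γ x = x}
  mul_mem' := fun hx hy => ⟨hx.1.mul hy.1, fun γ h => by rw [map_mul, hx.2 γ h, hy.2 γ h]⟩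
  add_mem' := fun hx hy => ⟨hx.1.add hy.1, fun γ h => by rw [map_add, hx.2 γ h, hy.2 γ h]⟩
  algebraMap_mem' := fun c => ⟨isIntegral_algebraMap (R := C) (x := ⟨_, C.algebraMap_mem c⟩),
    fun γ _ => γ.commutes c⟩

section aux

open Polynomial

theorem inert_abs {R S : Type u} [CommRing R] [CommRing S] (f : R →+* S) (θ : S) (μ : R[X])
    (hm : μ.Monic) (hker : ∀ p : R[X], p.eval₂ f θ = 0 ↔ μ ∣ p) (r : S)
    (hr : r = μ.derivative.eval₂ f θ) (hsurj : ∀ x, ∃ p : R[X], p.eval₂ f θ = r * x) :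
    ((algebraMap S (Localization.Away r)).comp f).Etale := by
  let _ : Algebra R S := f.toAlgebra
  have h0 : μ.eval₂ (Algebra.ofId R S) θ = 0 := (hker μ).2 dvd_rfl
  let φ : AdjoinRoot μ →ₐ[R] S := AdjoinRoot.liftAlgHom μ (Algebra.ofId R S) θ h0
  have hφ : ∀ p, φ (AdjoinRoot.mk μ p) = p.eval₂ f θ := fun p =>
    AdjoinRoot.liftAlgHom_mk μ (Algebra.ofId R S) θ h0 p
  have hinj : Function.Injective φ := by
    rw [injective_iff_map_eq_zero]
    intro a ha
    obtain ⟨p, rfl⟩ := AdjoinRoot.mk_surjective a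
    rw [hφ, hker] at ha
    exact AdjoinRoot.mk_eq_zero.2 ha
  let P : StandardEtalePair R := ⟨μ, hm, μ.derivative, 1, 0, 1, by ring⟩
  have hr' : r = φ (AdjoinRoot.mk μ μ.derivative) := by rw [hφ, hr]
  subst hr'
  have e1 : Algebra.Etale R (Localization.Away (AdjoinRoot.mk μ μ.derivative)) :=
    Algebra.Etale.of_equiv P.equivAwayAdjoinRoot
  have hb : Function.Bijective (IsLocalization.Away.mapₐ
      (Localization.Away (AdjoinRoot.mk μ μ.derivative))
      (Localization.Away (φ (AdjoinRoot.mk μ μ.derivative))) φ (AdjoinRoot.mk μ μ.derivative)) := by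
    refine ⟨IsLocalization.Away.mapₐ_injective_of_injective _ hinj, ?_⟩
    refine (IsLocalization.Away.map_surjective_iff _ _ φ.toRingHom _).2 fun x => ?_
    obtain ⟨p, hp⟩ := hsurj x
    refine ⟨AdjoinRoot.mk μ p, 1, ?_⟩
    rw [pow_one]
    exact (hφ p).trans hp
  have e2 := Algebra.Etale.of_equiv (AlgEquiv.ofBijective _ hb)
  rw [← RingHom.etale_algebraMap, IsScalarTower.algebraMap_eq R S] at e2
  exact e2

theorem inert_int {C : Subalgebra k K} {γ : K ≃ₐ[k] K} (hγ : ∀ x ∈ C, γ x = x) {x : K}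
    (hx : IsIntegral C x) : IsIntegral C (γ x) :=
  hx.map (show K →ₐ[C] K from { γ.toAlgHom.toRingHom with commutes' := fun c => hγ c c.2 })

theorem inert_le {C : Subalgebra k K} {w : Val k K} (hw : ∀ x ∈ C, x ∈ w.O) {x : K}
    (hx : IsIntegral C x) : w.v x ≤ 1 :=
  Val.v_le_one.2 ((isIntegral_iff_val C x).1 hx w hw)

theorem inert_const (C : Subalgebra k K) (c : k) : IsIntegral C (algebraMap k K c) :=
  isIntegral_algebraMap (R := C) (x := ⟨_, C.algebraMap_mem c⟩)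

theorem inert_prod_lt {w : Val k K} {ι : Type*} {s : Finset ι} {f : ι → K}
    (h : ∀ i ∈ s, w.v (f i) ≤ 1) {j : ι} (hj : j ∈ s) (h1 : w.v (f j) < 1) :
    w.v (∏ i ∈ s, f i) < 1 := by
  classical
  rw [← Finset.mul_prod_erase s f hj, map_mul, map_prod]
  exact lt_of_le_of_lt (mul_le_of_le_one_right'
    (Finset.prod_le_one' fun i hi => h i (Finset.mem_of_mem_erase hi))) h1

theorem inert_prod_one {w : Val k K} {ι : Type*} {s : Finset ι} {f : ι → K}
    (h : ∀ i ∈ s, w.v (f i - 1) < 1) : w.v (∏ i ∈ s, f i - 1) < 1 := by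
  refine Finset.prod_induction f (fun a => w.v (a - 1) < 1) ?_ (by simp) h
  intro a b ha hb
  have h1 : w.v a = 1 := by
    have := w.v.map_one_add_of_lt ha
    rwa [add_sub_cancel] at this
  rw [show a * b - 1 = a * (b - 1) + (a - 1) by ring]
  refine w.v.map_add_lt ?_ ha
  rwa [map_mul, h1, one_mul]

theorem inert_sep {C : Subalgebra k K} {w : Val k K} {γ : K ≃ₐ[k] K} (hγ : ∀ x ∈ C, γ x = x)
    (hres : ∀ x, IsIntegral C x → ∃ c : k, w.v (x - algebraMap k K c) < 1)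
    (h : ¬ ∀ x, IsIntegral C x → w.v (γ x - x) < 1) :
    ∃ x, IsIntegral C x ∧ w.v (x - 1) < 1 ∧ w.v (γ x) < 1 := by
  push Not at h
  obtain ⟨x, hx, h⟩ := h
  obtain ⟨c, hc⟩ := hres x hx
  obtain ⟨c', hc'⟩ := hres _ (inert_int hγ hx)
  have hne : c - c' ≠ 0 := by
    intro h0
    rw [sub_eq_zero] at h0
    subst h0
    have := w.v.map_sub_lt hc' hc
    rw [sub_sub_sub_cancel_right] at this
    exact absurd this (not_lt.2 h)
  have hv : w.v (algebraMap k K (c - c')⁻¹) = 1 := w.v_algebraMap (inv_ne_zero hne)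
  have hne' : algebraMap k K c - algebraMap k K c' ≠ 0 := by
    rw [← map_sub]
    exact (_root_.map_ne_zero _).2 hne
  refine ⟨algebraMap k K (c - c')⁻¹ * (x - algebraMap k K c'),
    (inert_const C _).mul (hx.sub (inert_const C _)), ?_, ?_⟩
  · have e : algebraMap k K (c - c')⁻¹ * (x - algebraMap k K c') - 1 =
        algebraMap k K (c - c')⁻¹ * (x - algebraMap k K c) := by
      rw [map_inv₀, map_sub]
      field_simp
      ring
    rwa [e, map_mul, hv, one_mul]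
  · rwa [map_mul, map_sub, γ.commutes, γ.commutes, map_mul, hv, one_mul]

theorem inert_theta (G H : Subgroup (K ≃ₐ[k] K)) [Finite G] (hH : H ≤ G) (C : Subalgebra k K)
    (hfix : ∀ γ ∈ G, ∀ x ∈ C, γ x = x) (w : Val k K) (hw : ∀ x ∈ C, x ∈ w.O)
    (hres : ∀ x, IsIntegral C x → ∃ c : k, w.v (x - algebraMap k K c) < 1)
    (hin : ∀ γ ∈ G, (∀ x, IsIntegral C x → w.v (γ x - x) < 1) → γ ∈ H) :
    ∃ θ, IsIntegral C θ ∧ (∀ γ ∈ H, γ θ = θ) ∧ ∀ γ ∈ G, γ ∉ H → w.v (θ - γ θ) = 1 := by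
  classical
  have : Finite H := Finite.of_injective _ (Subgroup.inclusion_injective hH)
  let _ := Fintype.ofFinite G
  let _ := Fintype.ofFinite H
  have h1 : ∀ γ : G, ∃ x, IsIntegral C x ∧ w.v (x - 1) < 1 ∧
      ((γ : K ≃ₐ[k] K) ∉ H → w.v ((γ : K ≃ₐ[k] K) x) < 1) := by
    intro γ
    by_cases hγ : (γ : K ≃ₐ[k] K) ∈ H
    · exact ⟨1, isIntegral_one, by simp, fun h => absurd hγ h⟩
    · obtain ⟨x, a, b, c⟩ := inert_sep (hfix γ γ.2) hres fun h => hγ (hin γ γ.2 h)
      exact ⟨x, a, b, fun _ => c⟩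
  choose y hy1 hy2 hy3 using h1
  set z := ∏ γ, y γ with hz
  have hz1 : IsIntegral C z := IsIntegral.prod _ fun γ _ => hy1 γ
  have hz2 : w.v (z - 1) < 1 := inert_prod_one fun γ _ => hy2 γ
  have hz3 : ∀ γ ∈ G, γ ∉ H → w.v (γ z) < 1 := by
    intro γ hγ hγ'
    rw [hz, map_prod]
    exact inert_prod_lt (fun δ _ => inert_le hw (inert_int (hfix γ hγ) (hy1 δ)))
      (Finset.mem_univ (⟨γ, hγ⟩ : G)) (hy3 ⟨γ, hγ⟩ hγ')
  have hf : ∀ h : H, IsIntegral C (1 - (h : K ≃ₐ[k] K) z) := fun h =>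
    isIntegral_one.sub (inert_int (hfix _ (hH h.2)) hz1)
  refine ⟨∏ h : H, (1 - (h : K ≃ₐ[k] K) z), IsIntegral.prod _ fun h _ => hf h, ?_, ?_⟩
  · intro γ hγ
    rw [map_prod]
    refine Fintype.prod_equiv (Equiv.mulLeft (⟨γ, hγ⟩ : H)) _ _ fun h => ?_
    simp
  · intro γ hγ hγ'
    have a1 : w.v (∏ h : H, (1 - (h : K ≃ₐ[k] K) z)) < 1 := by
      refine inert_prod_lt (fun h _ => inert_le hw (hf h)) (Finset.mem_univ (1 : H)) ?_
      rw [Valuation.map_sub_swap]
      simpa using hz2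
    have a2 : w.v (γ (∏ h : H, (1 - (h : K ≃ₐ[k] K) z)) - 1) < 1 := by
      rw [map_prod]
      refine inert_prod_one fun h _ => ?_
      have := hz3 (γ * h) (G.mul_mem hγ (hH h.2)) fun hm =>
        hγ' ((H.mul_mem_cancel_right h.2).1 hm)
      simpa using this
    have a3 := w.v.map_one_add_of_lt (w.v.map_sub_lt a2 a1)
    rw [Valuation.map_sub_swap, ← a3]
    congr 1
    ring

theorem inert_desc {G : Subgroup (K ≃ₐ[k] K)} {C : Subalgebra k K}
    (hnorm : ∀ x, IsIntegral C x → (∀ γ ∈ G, γ x = x) → x ∈ C) {p : K[X]}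
    (hp : p ∈ lifts (algebraMap (integralClosure C K) K))
    (hinv : ∀ γ ∈ G, p.map (γ : K →+* K) = p) : ∃ q : C[X], q.map (algebraMap C K) = p := by
  rw [lifts_iff_coeff_lifts] at hp
  refine (mem_lifts p).1 ((lifts_iff_coeff_lifts p).2 fun n => ⟨⟨p.coeff n, hnorm _ ?_ ?_⟩, rfl⟩)
  · obtain ⟨a, ha⟩ := hp n
    rw [← ha]
    exact a.2
  · intro γ hγ
    have := congrArg (fun q => q.coeff n) (hinv γ hγ)
    simpa using this

theorem inert_nodal_lifts {C : Subalgebra k K} {T : Finset K} (hT : ∀ y ∈ T, IsIntegral C y) :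
    Lagrange.nodal T id ∈ lifts (algebraMap (integralClosure C K) K) := by
  rw [lifts_iff_liftsRing, Lagrange.nodal_eq]
  refine Subring.prod_mem _ fun y hy => Subring.sub_mem _ ?_ ?_
  · exact (lifts_iff_liftsRing _ _).1 (X_mem_lifts _)
  · exact (lifts_iff_liftsRing _ _).1 (C'_mem_lifts ⟨⟨y, hT y hy⟩, rfl⟩)

theorem inert_nodal_map [DecidableEq K] (γ : K ≃ₐ[k] K) (T : Finset K) :
    (Lagrange.nodal T id).map (γ : K →+* K) = Lagrange.nodal (T.image γ) id := by
  rw [Lagrange.nodal_eq, Lagrange.nodal_eq, Finset.prod_image γ.injective.injOn,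
    Polynomial.map_prod]
  simp

theorem inert_interp [DecidableEq K] {G : Subgroup (K ≃ₐ[k] K)} {C : Subalgebra k K}
    (hnorm : ∀ x, IsIntegral C x → (∀ γ ∈ G, γ x = x) → x ∈ C) {T : Finset K}
    (hT : ∀ y ∈ T, IsIntegral C y) (hG : ∀ γ ∈ G, T.image γ = T) {a : K → K}
    (ha : ∀ y ∈ T, IsIntegral C (a y)) (hGa : ∀ γ ∈ G, ∀ y ∈ T, γ (a y) = a (γ y)) {θ : K}
    (hθ : θ ∈ T) : ∃ q : C[X], (q.map (algebraMap C K)).eval θ =
      (Lagrange.nodal T id).derivative.eval θ * a θ := by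
  obtain ⟨q, hq⟩ := inert_desc hnorm
    (p := ∑ y ∈ T, Polynomial.C (a y) * Lagrange.nodal (T.erase y) id)
    (Subsemiring.sum_mem _ fun y hy => Subsemiring.mul_mem _
      (C'_mem_lifts ⟨⟨a y, ha y hy⟩, rfl⟩)
      (inert_nodal_lifts fun z hz => hT z (Finset.mem_of_mem_erase hz))) (by
      intro γ hγ
      conv_rhs => rw [← hG γ hγ, Finset.sum_image γ.injective.injOn]
      rw [Polynomial.map_sum]
      refine Finset.sum_congr rfl fun y hy => ?_
      rw [Polynomial.map_mul, map_C, inert_nodal_map, Finset.image_erase γ.injective,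
        ← hGa γ hγ y hy]
      rfl)
  refine ⟨q, ?_⟩
  have e := Lagrange.eval_nodal_derivative_eval_node_eq (v := id) hθ
  rw [id] at e
  rw [hq, e, eval_finsetSum, Finset.sum_eq_single_of_mem θ hθ, eval_mul, eval_C, mul_comm]
  intro y hy hne
  have := Lagrange.eval_nodal_at_node (v := id) (Finset.mem_erase.2 ⟨hne.symm, hθ⟩)
  rw [id] at this
  rw [eval_mul, this, mul_zero]

end aux

open Polynomial in
theorem inert (G H : Subgroup (K ≃ₐ[k] K)) [Finite G] (hH : H ≤ G) (C : Subalgebra k K)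
    (hfix : ∀ γ ∈ G, ∀ x ∈ C, γ x = x)
    (hnorm : ∀ x, IsIntegral C x → (∀ γ ∈ G, γ x = x) → x ∈ C)
    (w : Val k K) (hw : ∀ x ∈ C, x ∈ w.O)
    (hres : ∀ x, IsIntegral C x → ∃ c : k, w.v (x - algebraMap k K c) < 1)
    (hin : ∀ γ ∈ G, (∀ x, IsIntegral C x → w.v (γ x - x) < 1) → γ ∈ H)
    (hle : C ≤ fixInt C H) :
    ∃ r : fixInt C H, w.v r = 1 ∧ ((algebraMap (fixInt C H) (Localization.Away r)).comp
      (Subalgebra.inclusion hle).toRingHom).Etale := by
  classical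
  obtain ⟨θ, hθ1, hθ2, hθ3⟩ := inert_theta G H hH C hfix w hw hres hin
  let _ := Fintype.ofFinite G
  have hstab : ∀ γ ∈ G, γ θ = θ → γ ∈ H := by
    intro γ hγ h
    by_contra hn
    have := hθ3 γ hγ hn
    rw [h, sub_self, map_zero] at this
    exact zero_ne_one this
  set T : Finset K := Finset.univ.image fun γ : G => (γ : K ≃ₐ[k] K) θ with hTd
  have hmem : ∀ y, y ∈ T ↔ ∃ γ ∈ G, γ θ = y := by
    intro y
    simp [hTd]
  have hθT : θ ∈ T := (hmem θ).2 ⟨1, G.one_mem, rfl⟩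
  have hT : ∀ y ∈ T, IsIntegral C y := by
    intro y hy
    obtain ⟨γ, hγ, rfl⟩ := (hmem y).1 hy
    exact inert_int (hfix γ hγ) hθ1
  have hG : ∀ γ ∈ G, T.image γ = T := by
    intro γ hγ
    refine Finset.eq_of_subset_of_card_le ?_ (Finset.card_image_of_injective _ γ.injective).ge
    intro y hy
    obtain ⟨z, hz, rfl⟩ := Finset.mem_image.1 hy
    obtain ⟨δ, hδ, rfl⟩ := (hmem z).1 hz
    exact (hmem _).2 ⟨γ * δ, G.mul_mem hγ hδ, rfl⟩
  obtain ⟨μ, hμ⟩ := inert_desc hnorm (inert_nodal_lifts hT) fun γ hγ => by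
    rw [inert_nodal_map, hG γ hγ]
  have hinj : Function.Injective (algebraMap C K) := Subtype.val_injective
  have hm : μ.Monic := monic_of_injective hinj (hμ ▸ Lagrange.nodal_monic)
  set f := (Subalgebra.inclusion hle).toRingHom with hf
  let θ' : fixInt C H := ⟨θ, hθ1, hθ2⟩
  have hev : ∀ p : C[X], ((p.eval₂ f θ' : fixInt C H) : K) = (p.map (algebraMap C K)).eval θ := by
    intro p
    rw [← eval₂_eq_eval_map]
    exact hom_eval₂ p f (algebraMap (fixInt C H) K) θ'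
  have hconj : ∀ p : C[X], ∀ γ ∈ G,
      (p.map (algebraMap C K)).eval (γ θ) = γ ((p.map (algebraMap C K)).eval θ) := by
    intro p γ hγ
    have e : (p.map (algebraMap C K)).map (γ : K →+* K) = p.map (algebraMap C K) := by
      ext n
      rw [coeff_map, coeff_map]
      exact hfix γ hγ _ (p.coeff n).2
    conv_lhs => rw [← e]
    exact eval_map_apply (γ : K →+* K) θ
  have hμ0 : (μ.map (algebraMap C K)).eval θ = 0 := by
    rw [hμ]
    exact Lagrange.eval_nodal_at_node (v := id) hθT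
  have hr : ((μ.derivative.eval₂ f θ' : fixInt C H) : K) =
      (Lagrange.nodal T id).derivative.eval θ := by
    rw [hev, ← derivative_map, hμ]
  refine ⟨μ.derivative.eval₂ f θ', ?_, inert_abs f θ' μ hm (fun p => ?_) _ rfl fun x => ?_⟩
  · have e := Lagrange.eval_nodal_derivative_eval_node_eq (v := id) hθT
    rw [id] at e
    rw [hr, e, Lagrange.eval_nodal, map_prod]
    refine Finset.prod_eq_one fun y hy => ?_
    obtain ⟨hne, hy⟩ := Finset.mem_erase.1 hy
    obtain ⟨γ, hγ, rfl⟩ := (hmem y).1 hy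
    exact hθ3 γ hγ fun h => hne (hθ2 γ h)
  · rw [← Subtype.val_injective.eq_iff, hev, ZeroMemClass.coe_zero]
    constructor
    · intro hp
      rw [← modByMonic_eq_zero_iff_dvd hm]
      refine Polynomial.map_injective _ hinj ?_
      rw [Polynomial.map_zero]
      refine eq_zero_of_degree_lt_of_eval_finset_eq_zero T ?_ fun y hy => ?_
      · rw [← Lagrange.degree_nodal (v := id), ← hμ, degree_map_eq_of_injective hinj,
          degree_map_eq_of_injective hinj]
        exact degree_modByMonic_lt _ hm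
      · obtain ⟨γ, hγ, rfl⟩ := (hmem y).1 hy
        rw [hconj _ γ hγ, modByMonic_eq_sub_mul_div, Polynomial.map_sub, Polynomial.map_mul,
          eval_sub, eval_mul, hp, hμ0, zero_mul, sub_zero, map_zero]
    · rintro ⟨q, rfl⟩
      rw [Polynomial.map_mul, eval_mul, hμ0, zero_mul]
  · have hwd : ∀ γ ∈ G, ∀ δ ∈ G, γ θ = δ θ → γ x = δ x := by
      intro γ hγ δ hδ h
      have h1 : δ⁻¹ * γ ∈ H := hstab _ (G.mul_mem (G.inv_mem hδ) hγ) (by
        rw [AlgEquiv.mul_apply, h, ← AlgEquiv.mul_apply, inv_mul_cancel, AlgEquiv.one_apply])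
      have h2 := x.2.2 _ h1
      conv_rhs => rw [← h2, ← AlgEquiv.mul_apply, mul_inv_cancel_left]
    have hc : ∀ y, ∃ γ ∈ G, y ∈ T → γ θ = y := by
      intro y
      by_cases hy : y ∈ T
      · obtain ⟨γ, hγ, e⟩ := (hmem y).1 hy
        exact ⟨γ, hγ, fun _ => e⟩
      · exact ⟨1, G.one_mem, fun h => absurd h hy⟩
    choose c hc1 hc2 using hc
    obtain ⟨q, hq⟩ := inert_interp hnorm hT hG (a := fun y => c y x)
      (fun y _ => inert_int (hfix _ (hc1 y)) x.2.1) (fun γ hγ y hy => by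
        have hy' : γ y ∈ T := hG γ hγ ▸ Finset.mem_image_of_mem _ hy
        refine hwd (γ * c y) (G.mul_mem hγ (hc1 y)) _ (hc1 _) ?_
        rw [AlgEquiv.mul_apply, hc2 y hy, hc2 _ hy']) hθT
    refine ⟨q, Subtype.ext ?_⟩
    rw [hev, hq, MulMemClass.coe_mul, hr, hwd _ (hc1 θ) 1 G.one_mem (hc2 θ hθT)]
    rfl

end

end Pool.Agent.Lib.MP_1c03d5_ag
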