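import Pool.Agent.Lib.MP_1c03d5_ag.Fin1
import Pool.Agent.Lib.MP_1c03d5_ag.Inert
import Pool.Agent.Lib.MP_1c03d5_ag.Etp

/-!
# TASK FIN2: the charts are etale over the normalised image
-/

universe u

namespace Pool.Agent.Lib.MP_1c03d5_ag

noncomputable section

section aux

variable {k K : Type u} [Field k] [Field K] [Algebra k K]

/-- Residues of integral elements are constants. -/
theorem fin2_res [IsAlgClosed k] (w : Val k K) (R : Subalgebra k K) (hw : ∀ y ∈ R, y ∈ w.O)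
    (hR : ∀ y ∈ R, ∃ c : k, w.v (y - algebraMap k K c) < 1) {x : K} (hx : IsIntegral R x) :
    ∃ c : k, w.v (x - algebraMap k K c) < 1 := by
  have hxw : x ∈ w.O := (isIntegral_iff_val R x).1 hx w hw
  let ι : k →+* w.O := (algebraMap k K).codRestrict w.O w.hk
  let π := IsLocalRing.residue w.O
  let : Algebra k (IsLocalRing.ResidueField w.O) := (π.comp ι).toAlgebra
  let j : R →+* w.O := (R.val : R →+* K).codRestrict w.O fun y => hw y y.2
  have key : ∀ (y : w.O) (c : k), π y = algebraMap k _ c ↔ w.v ((y : K) - algebraMap k K c) < 1 := by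
    intro y c
    change π y = π (ι c) ↔ _
    rw [← sub_eq_zero, ← map_sub, IsLocalRing.residue_eq_zero_iff,
      ValuationSubring.valuation_lt_one_iff]
    rfl
  obtain ⟨q, hq, hq0⟩ := hx
  have h1 : Polynomial.eval₂ j ⟨x, hxw⟩ q = 0 := by
    apply Subtype.val_injective
    have := Polynomial.hom_eval₂ q j w.O.subtype ⟨x, hxw⟩
    exact this.trans hq0
  have h2 : q.map (π.comp j) ∈ Polynomial.lifts (algebraMap k (IsLocalRing.ResidueField w.O)) := by
    rw [Polynomial.lifts_iff_coeff_lifts]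
    intro n
    obtain ⟨c, hc⟩ := hR (q.coeff n) (q.coeff n).2
    refine ⟨c, ?_⟩
    rw [Polynomial.coeff_map]
    exact ((key (j (q.coeff n)) c).2 hc).symm
  obtain ⟨q', hq1, -, hq2⟩ := Polynomial.lifts_and_natDegree_eq_and_monic h2 (hq.map _)
  have h3 : IsIntegral k (π ⟨x, hxw⟩) := by
    refine ⟨q', hq2, ?_⟩
    rw [← Polynomial.eval_map, hq1, Polynomial.eval_map, ← Polynomial.hom_eval₂, h1, map_zero]
  obtain ⟨c, hc⟩ := minpoly.mem_range_of_degree_eq_one k _
    (IsAlgClosed.degree_eq_one_of_irreducible k (minpoly.irreducible h3))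
  exact ⟨c, (key _ c).1 hc.symm⟩

/-- Integral fractions lie in the image of a normal domain. -/
theorem fin2_norm {A : Type u} [CommRing A] [IsDomain A] [IsIntegrallyClosed A] [Algebra k A]
    (φ : A →ₐ[k] K) (hφ : Function.Injective φ) {x : K} (hx : IsIntegral φ.range x) {a b : A}
    (hb : φ b ≠ 0) (e : x * φ b = φ a) : x ∈ φ.range := by
  let : Algebra A K := φ.toRingHom.toAlgebra
  have hb0 : b ≠ 0 := by rintro rfl; exact hb (map_zero _)
  have hxA : IsIntegral A x := by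
    obtain ⟨q, hq, hq0⟩ := hx
    let ε := (AlgEquiv.ofInjective φ hφ).symm
    refine ⟨q.map (ε : φ.range →+* A), hq.map _, ?_⟩
    rw [Polynomial.eval₂_map, ← hq0]
    congr 1
    ext y
    obtain ⟨y, rfl⟩ := (AlgEquiv.ofInjective φ hφ).surjective y
    change φ (ε _) = _
    simp [ε]
  let j : FractionRing A →ₐ[A] K := IsFractionRing.liftAlgHom (g := Algebra.ofId A K) hφ
  have hj : ∀ y, j (algebraMap A _ y) = φ y := fun y => j.commutes y
  have hx' : j (algebraMap A _ a / algebraMap A _ b) = x := by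
    rw [map_div₀, hj, hj, ← e, mul_div_cancel_right₀ _ hb]
  rw [← hx', isIntegral_algHom_iff j j.toRingHom.injective] at hxA
  obtain ⟨y, hy⟩ := IsIntegrallyClosed.isIntegral_iff.1 hxA
  exact ⟨y, by rw [← hx', ← hy, hj]; rfl⟩

theorem fin2_mono {R R' : Subalgebra k K} (h : R ≤ R') {x : K} (hx : IsIntegral R x) :
    IsIntegral R' x := by
  obtain ⟨q, hq, hq0⟩ := hx
  refine ⟨q.map (Subalgebra.inclusion h : R →+* R'), hq.map _, ?_⟩
  rw [Polynomial.eval₂_map]
  exact hq0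

theorem fin2_trans {R R' : Subalgebra k K} (h : ∀ y ∈ R', IsIntegral R y) {x : K}
    (hx : IsIntegral R' x) : IsIntegral R x := by
  rw [isIntegral_iff_val] at hx ⊢
  exact fun w hw => hx w fun y hy => (isIntegral_iff_val R y).1 (h y hy) w hw

theorem fin2_self {R : Subalgebra k K} {x : K} (hx : x ∈ R) : IsIntegral R x :=
  isIntegral_algebraMap (R := R) (x := ⟨x, hx⟩)

theorem fin2_map {A : Type u} [CommRing A] [Algebra k A] (φ : A →ₐ[k] K) {R : Subalgebra k A}
    {x : A} (hx : IsIntegral R x) : IsIntegral (R.map φ) (φ x) := by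
  obtain ⟨q, hq, hq0⟩ := hx
  let j : R →+* R.map φ :=
    ((φ : A →+* K).comp R.val).codRestrict (R.map φ) fun y => ⟨y, y.2, rfl⟩
  refine ⟨q.map j, hq.map _, ?_⟩
  rw [Polynomial.eval₂_map]
  have := Polynomial.hom_eval₂ q (algebraMap R A) (φ : A →+* K) x
  rw [hq0, map_zero] at this
  exact this.symm

/-- An inertial automorphism also fixes the residues of the localisation. -/
theorem fin2_inert (w : Val k K) {u u' x x' : K} (hu : w.v u = 1) (hx : w.v x ≤ 1)
    (h1 : w.v (u' - u) < 1) (h2 : w.v (u' * x' - u * x) < 1) : w.v (x - x') < 1 := by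
  have hu' : w.v u' = 1 := by
    have := Valuation.map_add_eq_of_lt_left w.v (x := u) (y := u' - u) (by rwa [hu])
    rw [add_sub_cancel] at this
    rw [this, hu]
  have e : u' * (x - x') = (u' - u) * x - (u' * x' - u * x) := by ring
  have h3 : w.v ((u' - u) * x) < 1 := by
    rw [map_mul]
    exact lt_of_le_of_lt (mul_le_of_le_one_right' hx) h1
  have := Valuation.map_sub_lt w.v h3 h2
  rwa [← e, map_mul, hu', one_mul] at this

end aux

/-- Etaleness passes to a birational model near a point. -/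
theorem fin2_etale {C C' A : Type u} [CommRing C] [CommRing C'] [CommRing A] [IsDomain A]
    (ι : C →+* C') (ψ : C' →+* A) (hψ : Function.Injective ψ) (r r' : C')
    (h0 : ψ (r * r') ≠ 0) (hr : ∀ x, ∃ n : ℕ, ψ r ^ n * x ∈ ψ.range)
    (he : ((algebraMap C' (Localization.Away r')).comp ι).Etale) :
    ((algebraMap A (Localization.Away (ψ (r * r')))).comp (ψ.comp ι)).Etale := by
  set T := Localization.Away (ψ (r * r'))
  let : Algebra C' T := ((algebraMap A T).comp ψ).toAlgebra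
  have ha : ∀ y, algebraMap C' T y = algebraMap A T (ψ y) := fun _ => rfl
  have hinj : Function.Injective (algebraMap A T) :=
    IsLocalization.injective T (powers_le_nonZeroDivisors_of_noZeroDivisors h0)
  have : IsLocalization.Away (r * r') T := by
    refine IsLocalization.Away.mk _ ?_ (fun z => ?_) (fun a b hab => ⟨0, ?_⟩)
    · exact IsLocalization.Away.algebraMap_isUnit (S := T) (ψ (r * r'))
    · obtain ⟨m, x, hx⟩ := IsLocalization.Away.surj (ψ (r * r')) z
      obtain ⟨n, y, hy⟩ := hr x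
      refine ⟨m + n, y * r' ^ n, ?_⟩
      rw [ha, ha, pow_add, ← mul_assoc, hx, ← map_pow, ← map_mul]
      congr 1
      rw [map_mul, map_mul, hy, map_pow]
      ring
    · rw [hψ (hinj hab)]
  let T' := Localization.Away (algebraMap C' (Localization.Away r') r)
  let ε : T' ≃ₐ[C'] T := IsLocalization.algEquiv (Submonoid.powers (r * r')) T' T
  have h1 : (algebraMap (Localization.Away r') T').Etale :=
    RingHom.etale_algebraMap.2
      (Algebra.Etale.of_isLocalizationAway (algebraMap C' (Localization.Away r') r))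
  have h2 : (ε : T' →+* T).Etale := RingHom.Etale.of_bijective ε.bijective
  have h3 := RingHom.Etale.stableUnderComposition _ _
    (RingHom.Etale.stableUnderComposition _ _ he h1) h2
  convert h3 using 1
  ext c
  simp only [RingHom.comp_apply]
  rw [← IsScalarTower.algebraMap_apply, ← ha]
  exact (ε.commutes _).symm

variable {k : Type u} [Field k] {β : Type}

/-- The integral closure of the ring of ratios `f b / f a` in the function field. -/
def Gen.imRing {P : EqRel k} (Γ : Gen P) (ρ : β → Γ.K') : Subalgebra k Γ.K' :=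
  fixInt (Algebra.adjoin k (Set.range ρ)) Γ.G

section lifts

variable {P : EqRel k} {Γ : Gen P} {i : P.ι} {e : P.A i}

theorem fin2_ext {C : Type u} [CommRing C] [Algebra k C] {φ φ' : Localization.Away e →ₐ[k] C}
    (h : ∀ x : P.A i, φ (algebraMap _ _ x) = φ' (algebraMap _ _ x)) : φ = φ' :=
  AlgHom.coe_ringHom_injective
    (IsLocalization.ringHom_ext (Submonoid.powers e) (RingHom.ext fun x => h x))

theorem fin2_exists (hΓ : Γ.Generic) (he : e ≠ 0) :
    ∃ φ : Localization.Away e →ₐ[k] Γ.K', awayPt φ ∈ Γ.S := by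
  obtain ⟨φ₀, h0⟩ := hΓ.2 i
  have hu : IsUnit (φ₀ e) :=
    IsUnit.mk0 _ fun h => he (hΓ.1 _ h0 (h.trans (map_zero φ₀).symm))
  refine ⟨IsLocalization.Away.liftAlgHom e hu, ?_⟩
  convert h0 using 2
  ext x
  simp

theorem fin2_inj (hΓ : Γ.Generic) {φ : Localization.Away e →ₐ[k] Γ.K'} (hφ : awayPt φ ∈ Γ.S) :
    Function.Injective φ := by
  rw [injective_iff_map_eq_zero]
  intro z hz
  obtain ⟨n, x, hx⟩ := IsLocalization.Away.surj e z
  have h1 : φ (algebraMap _ _ x) = 0 := by rw [← hx, map_mul, hz, zero_mul]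
  have h2 : x = 0 := hΓ.1 _ hφ (h1.trans (map_zero _).symm)
  rw [h2, map_zero] at hx
  exact ((IsLocalization.Away.algebraMap_isUnit e).pow n).mul_left_eq_zero.1 hx

theorem fin2_act {γ : Γ.K' ≃ₐ[k] Γ.K'} (hγ : γ ∈ Γ.G) {φ : Localization.Away e →ₐ[k] Γ.K'}
    (hφ : awayPt φ ∈ Γ.S) : awayPt (γ.toAlgHom.comp φ) ∈ Γ.S := Γ.act_mem hγ hφ

theorem fin2_conj (hΓ : Γ.Generic) {φ φ' : Localization.Away e →ₐ[k] Γ.K'} (hφ : awayPt φ ∈ Γ.S)
    (hφ' : awayPt φ' ∈ Γ.S) : ∃ γ ∈ Γ.G, ∀ x, γ (φ x) = φ' x := by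
  obtain ⟨γ, hγ, h⟩ := Γ.conj hφ hφ' (by
    rw [(RingHom.injective_iff_ker_eq_bot _).1 (hΓ.1 _ hφ),
      (RingHom.injective_iff_ker_eq_bot _).1 (hΓ.1 _ hφ')])
  have : γ.toAlgHom.comp φ = φ' := fin2_ext fun x => AlgHom.congr_fun h x
  exact ⟨γ, hγ, fun x => AlgHom.congr_fun this x⟩

theorem fin2_mem [IsIntegrallyClosed (P.A i)] (hΓ : Γ.Generic) (he : e ≠ 0)
    {φ : Localization.Away e →ₐ[k] Γ.K'} (hφ : awayPt φ ∈ Γ.S) {x : Γ.K'}
    (hx : IsIntegral φ.range x) (hf : ∀ γ ∈ Γ.G, (∀ y, γ (φ y) = φ y) → γ x = x) :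
    x ∈ φ.range := by
  have := Localization.Away.isDomain he
  have : IsIntegrallyClosed (Localization.Away e) :=
    isIntegrallyClosed_of_isLocalization _ (Submonoid.powers e)
      (powers_le_nonZeroDivisors_of_noZeroDivisors he)
  have h1 : x ∈ (awayPt φ).fld := by
    refine Γ.mem_fld_of_fixed hφ fun γ hγ h => hf γ hγ fun y => ?_
    have h2 := eq_of_heq (Sigma.mk.inj h).2
    have : γ.toAlgHom.comp φ = φ := fin2_ext fun x => AlgHom.congr_fun h2 x
    exact AlgHom.congr_fun this y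
  obtain ⟨a, b, hb, h⟩ := Fam.Pt.mem_fld.1 h1
  exact fin2_norm φ (fin2_inj hΓ hφ) hx hb h

theorem fin2_chart {f : β → P.El} {a : β} {ρ : β → Γ.K'}
    (hρ : ∀ σ ∈ Γ.S, ∀ b, σ.val (f b) = ρ b * σ.val (f a))
    {φ : Localization.Away (f a i) →ₐ[k] Γ.K'} (hφ : awayPt φ ∈ Γ.S) (b : β) :
    φ (chartMap f a i (MvPolynomial.X b)) = ρ b := by
  have h : φ (algebraMap _ _ (f b i)) = ρ b * φ (algebraMap _ _ (f a i)) := hρ _ hφ b
  rw [chartMap, MvPolynomial.aeval_X, map_mul, h, mul_assoc, ← map_mul,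
    IsLocalization.Away.mul_invSelf, map_one, mul_one]

theorem fin2_range {f : β → P.El} {a : β} {ρ : β → Γ.K'}
    (hρ : ∀ σ ∈ Γ.S, ∀ b, σ.val (f b) = ρ b * σ.val (f a))
    {φ : Localization.Away (f a i) →ₐ[k] Γ.K'} (hφ : awayPt φ ∈ Γ.S) :
    (chartMap f a i).range.map φ = Algebra.adjoin k (Set.range ρ) := by
  rw [← AlgHom.range_comp, Algebra.adjoin_range_eq_range_aeval]
  congr 1
  ext b
  rw [MvPolynomial.aeval_X]
  exact fin2_chart hρ hφ b

theorem fin2_fix {f : β → P.El} {a : β} {ρ : β → Γ.K'}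
    (hρ : ∀ σ ∈ Γ.S, ∀ b, σ.val (f b) = ρ b * σ.val (f a))
    {φ : Localization.Away (f a i) →ₐ[k] Γ.K'} (hφ : awayPt φ ∈ Γ.S) {γ : Γ.K' ≃ₐ[k] Γ.K'}
    (hγ : γ ∈ Γ.G) {x} (hx : x ∈ Algebra.adjoin k (Set.range ρ)) : γ x = x := by
  have h : ∀ b, γ (ρ b) = ρ b := fun b => by
    conv_lhs => rw [← fin2_chart hρ hφ b]
    exact fin2_chart hρ (fin2_act hγ hφ) b
  induction hx using Algebra.adjoin_induction with
  | mem x hx => obtain ⟨b, rfl⟩ := hx; exact h b
  | algebraMap c => exact γ.commutes c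
  | add x y _ _ h1 h2 => rw [map_add, h1, h2]
  | mul x y _ _ h1 h2 => rw [map_mul, h1, h2]

end lifts

/-- Residues at a maximal ideal of a finitely generated algebra are constants. -/
theorem fin2_const [IsAlgClosed k] {A : Type u} [CommRing A] [Algebra k A] [Algebra.FiniteType k A]
    (𝔪 : Ideal A) [𝔪.IsMaximal] (x : A) : ∃ c : k, x - algebraMap k A c ∈ 𝔪 := by
  let := Ideal.Quotient.field 𝔪
  have : Module.Finite k (A ⧸ 𝔪) := finite_of_finite_type_of_isJacobsonRing _ _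
  obtain ⟨c, hc⟩ := (IsAlgClosed.algebraMap_bijective_of_isIntegral (k := k) (K := A ⧸ 𝔪)).2
    (Ideal.Quotient.mk 𝔪 x)
  exact ⟨c, Ideal.Quotient.eq.1 hc.symm⟩

variable [IsAlgClosed k] (p : ℕ) [Fact p.Prime] [CharP k p] {P : CPres k} {L : P.LB} [Finite β]
  {f : β → P.El} (h : Gsec L f) {Γ : Gen P.toEqRel} (hΓ : Γ.Generic) {a : β} {ρ : β → Γ.K'}
  (ha : ∀ i, f a i ≠ 0) (hρ : ∀ σ ∈ Γ.S, ∀ b, σ.val (f b) = ρ b * σ.val (f a))

include p h hΓ ha hρ

theorem exists_etale_imRing (i : P.ι) : ∃ ψ : Γ.imRing ρ →ₐ[k] Localization.Away (f a i),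
    ψ.toRingHom.Etale ∧ ∀ φ : Localization.Away (f a i) →ₐ[k] Γ.K', awayPt φ ∈ Γ.S →
      ∀ c, φ (ψ c) = c := by
  have := P.normal i
  have := Localization.Away.isDomain (ha i)
  obtain ⟨φ, hφ⟩ := fin2_exists (Γ := Γ) hΓ (ha i)
  have hinj := fin2_inj hΓ hφ
  have hR := fin2_range hρ hφ
  set R := Algebra.adjoin k (Set.range ρ) with hRdef
  set C := Γ.imRing ρ with hC
  have hRφ : R ≤ φ.range := by
    rw [← hR]
    rintro _ ⟨y, -, rfl⟩
    exact ⟨y, rfl⟩
  have hRC : R ≤ C := fun x hx => ⟨fin2_self hx, fun γ hγ => fin2_fix hρ hφ hγ hx⟩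
  have hCφ : C ≤ φ.range := fun x hx =>
    fin2_mem hΓ (ha i) hφ (fin2_mono hRφ hx.1) fun γ hγ _ => hx.2 γ hγ
  let H : Subgroup (Γ.K' ≃ₐ[k] Γ.K') := Γ.G ⊓ fixingSubgroup _ (Set.range φ)
  have hH : ∀ γ, γ ∈ H ↔ γ ∈ Γ.G ∧ ∀ y, γ (φ y) = φ y := fun γ => by
    simp [H, mem_fixingSubgroup_iff]
  have hle : C ≤ fixInt C H := fun x hx => ⟨fin2_self hx, fun γ hγ => hx.2 γ hγ.1⟩
  have hC'φ : fixInt C H ≤ φ.range := fun x hx =>
    fin2_mem hΓ (ha i) hφ (fin2_mono hCφ hx.1) fun γ hγ h' => hx.2 γ ((hH γ).2 ⟨hγ, h'⟩)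
  let ψ' : fixInt C H →ₐ[k] Localization.Away (f a i) :=
    (AlgEquiv.ofInjective φ hinj).symm.toAlgHom.comp (Subalgebra.inclusion hC'φ)
  have hψ' : ∀ c, φ (ψ' c) = c := fun c => by
    have := (AlgEquiv.ofInjective φ hinj).apply_symm_apply (Subalgebra.inclusion hC'φ c)
    exact congrArg Subtype.val this
  refine ⟨ψ'.comp (Subalgebra.inclusion hle), etale_of_forall_maximal _ fun 𝔪 h𝔪 => ?_,
    fun φ' hφ' c => ?_⟩
  · obtain ⟨w, hw, hw'⟩ := exists_val_centre' φ 𝔪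
      (by rw [(RingHom.injective_iff_ker_eq_bot _).1 hinj]; exact bot_le)
    have hw1 : ∀ y ∉ 𝔪, w.v (φ y) = 1 := fun y hy =>
      le_antisymm (Val.v_le_one.2 (hw y)) (not_lt.1 fun h' => hy ((hw' y).1 h'))
    obtain ⟨r, hr, hr1, hr2⟩ := h.zmt a i 𝔪
    have hint : ∀ {y}, IsIntegral (chartMap f a i).range y → IsIntegral C (φ y) := fun hy =>
      fin2_mono hRC (hR ▸ fin2_map φ hy)
    have hmem : ∀ {y}, IsIntegral (chartMap f a i).range y → φ y ∈ fixInt C H := fun hy =>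
      ⟨hint hy, fun γ hγ => ((hH γ).1 hγ).2 _⟩
    have hwφ : ∀ y ∈ φ.range, y ∈ w.O := by
      rintro _ ⟨y, rfl⟩
      exact hw y
    obtain ⟨r', hr', he⟩ := inert Γ.G H inf_le_left C (fun γ hγ x hx => hx.2 γ hγ)
      (fun x hx hx' => ⟨fin2_trans (R' := C) (fun y hy => hy.1) hx, hx'⟩) w (fun x hx => hwφ x (hCφ hx))
      (fun x hx => fin2_res w φ.range hwφ (by
        rintro _ ⟨y, rfl⟩
        obtain ⟨c, hc⟩ := fin2_const (k := k) 𝔪 y
        refine ⟨c, ?_⟩
        have := (hw' _).2 hc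
        rwa [map_sub, φ.commutes] at this) (fin2_mono hCφ hx))
      (fun γ hγ hin => (hH γ).2 ⟨hγ, by
        have h1 := EqRel.diag_val (Γ.rel _ hφ _ (fin2_act hγ hφ)) w (fun y => hw _) fun y => by
          obtain ⟨n, hn⟩ := hr2 (algebraMap _ _ y)
          have h2 := hin _ (hint hn)
          rw [map_mul, map_mul] at h2
          refine fin2_inert w (hw1 _ fun h' => hr (h𝔪.isPrime.mem_of_pow_mem n h'))
            (Val.v_le_one.2 (hw _)) (hin _ (hint (hr1.pow n))) h2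
        have h3 : φ = γ.toAlgHom.comp φ := fin2_ext fun x => AlgHom.congr_fun h1 x
        exact fun y => (AlgHom.congr_fun h3 y).symm⟩) hle
    let r₀ : fixInt C H := ⟨φ r, hmem hr1⟩
    have hr₀ : ψ' r₀ = r := hinj (hψ' r₀)
    have ht : ψ' (r₀ * r') ∉ 𝔪 := by
      rw [← hw', hψ', Subalgebra.coe_mul, map_mul, hr', mul_one]
      exact (hw1 r hr).not_lt
    refine ⟨ψ' (r₀ * r'), ht, ?_⟩
    refine fin2_etale (Subalgebra.inclusion hle).toRingHom ψ'.toRingHom
      (fun x y hxy => Subtype.ext ?_) r₀ r' (fun h' => ht (h'.symm ▸ 𝔪.zero_mem)) (fun x => ?_) he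
    · rw [← hψ' x, ← hψ' y]
      exact congrArg φ hxy
    · obtain ⟨n, hn⟩ := hr2 x
      refine ⟨n, ⟨_, hmem hn⟩, hinj ?_⟩
      change φ (ψ' _) = φ (ψ' r₀ ^ n * x)
      rw [hψ', hr₀]
  · obtain ⟨γ, hγ, h'⟩ := fin2_conj hΓ hφ hφ'
    rw [← h', AlgHom.comp_apply, hψ']
    exact c.2.2 γ hγ

end

end Pool.Agent.Lib.MP_1c03d5_ag
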