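import Pool.Agent.Lib.MP_1c03d5_ag.Fin2

/-!
# TASK FIN3: the charts cover the normalised image and have the right fibre products
-/

universe u

namespace Pool.Agent.Lib.MP_1c03d5_ag

noncomputable section

open TensorProduct in
/-- The push-out along an etale map. -/
theorem fin3_univ {k C R S : Type u} [Field k] [CommRing C] [CommRing R] [CommRing S] [Algebra k C]
    [Algebra k R] [Algebra k S] (α : C →ₐ[k] R) (β : C →ₐ[k] S) (hβ : β.toRingHom.Etale) :
    ∃ (T : Type u) (_ : CommRing T) (_ : Algebra k T) (l : R →ₐ[k] T) (r : S →ₐ[k] T),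
      l.toRingHom.Etale ∧ l.comp α = r.comp β ∧ ∀ (D : Type u) [CommRing D] [Algebra k D]
        (σ : R →ₐ[k] D) (τ : S →ₐ[k] D), σ.comp α = τ.comp β →
        ∃ χ : T →ₐ[k] D, χ.comp l = σ ∧ χ.comp r = τ := by
  let _ := α.toRingHom.toAlgebra
  let _ := β.toRingHom.toAlgebra
  have : IsScalarTower k C R := .of_algHom α
  have : IsScalarTower k C S := .of_algHom β
  have : Algebra.Etale C S := hβ
  refine ⟨R ⊗[C] S, inferInstance, inferInstance, Algebra.TensorProduct.includeLeft,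
    Algebra.TensorProduct.includeRight.restrictScalars k,
    (RingHom.etale_algebraMap (R := R) (S := R ⊗[C] S)).2 inferInstance,
    AlgHom.ext fun c => ?_, fun D _ _ σ τ e => ?_⟩
  · exact RingHom.congr_fun (Algebra.TensorProduct.includeLeftRingHom_comp_algebraMap
      (R := C) (A := R) (B := S)) c
  · let _ := (σ.comp α).toRingHom.toAlgebra
    have : IsScalarTower k C D := .of_algHom (σ.comp α)
    let σ' : R →ₐ[C] D := { σ.toRingHom with commutes' := fun _ => rfl }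
    let τ' : S →ₐ[C] D := { τ.toRingHom with commutes' := fun c => (AlgHom.congr_fun e c).symm }
    exact ⟨(Algebra.TensorProduct.productMap σ' τ').restrictScalars k,
      AlgHom.ext fun x => Algebra.TensorProduct.productMap_left_apply σ' τ' x,
      AlgHom.ext fun x => Algebra.TensorProduct.productMap_right_apply σ' τ' x⟩

/-- A geometric point with a given prime as kernel. -/
theorem fin3_point {k T : Type u} [Field k] [CommRing T] [Algebra k T] (𝔓 : Ideal T)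
    [𝔓.IsPrime] : ∃ (Ω : Type u) (_ : Field Ω) (_ : Algebra k Ω) (_ : IsAlgClosed Ω)
      (χ : T →ₐ[k] Ω), ∀ x, χ x = 0 ↔ x ∈ 𝔓 := by
  refine ⟨AlgebraicClosure (FractionRing (T ⧸ 𝔓)), inferInstance, inferInstance, inferInstance,
    ((IsScalarTower.toAlgHom k (FractionRing (T ⧸ 𝔓)) _).comp
      (IsScalarTower.toAlgHom k (T ⧸ 𝔓) _)).comp (Ideal.Quotient.mkₐ k 𝔓), fun x => ?_⟩
  simp only [AlgHom.comp_apply, IsScalarTower.toAlgHom_apply, Ideal.Quotient.mkₐ_eq_mk,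
    map_eq_zero, FaithfulSMul.algebraMap_eq_zero_iff, Ideal.Quotient.eq_zero_iff_mem]

variable {k : Type u} [Field k] {β : Type} [IsAlgClosed k] {P : CPres k} {L : P.LB} [Finite β]
  {f : β → P.El} (h : Gsec L f) {Γ : Gen P.toEqRel} (hΓ : Γ.Generic) {a : β} {ρ : β → Γ.K'}
  (ha : ∀ i, f a i ≠ 0) (hρ : ∀ σ ∈ Γ.S, ∀ b, σ.val (f b) = ρ b * σ.val (f a))
  (ψ : ∀ i, Γ.imRing ρ →ₐ[k] Localization.Away (f a i)) (hψ : ∀ i, (ψ i).toRingHom.Etale)
  (hψ' : ∀ i (φ : Localization.Away (f a i) →ₐ[k] Γ.K'), awayPt φ ∈ Γ.S → ∀ c, φ (ψ i c) = c)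

omit [IsAlgClosed k] [Finite β] in
include hΓ ha in
theorem exists_away_ext {i} {φ : P.A i →ₐ[k] Γ.K'} (hφ : ⟨i, φ⟩ ∈ Γ.S) :
    ∃ φ' : Localization.Away (f a i) →ₐ[k] Γ.K', awayPt φ' = ⟨i, φ⟩ ∧ Function.Injective φ' := by
  have hi : Function.Injective φ := hΓ.1 _ hφ
  have h0 : φ (f a i) ≠ 0 := (map_ne_zero_iff φ hi).2 (ha i)
  have e : ∀ x, IsLocalization.Away.liftAlgHom (S := Localization.Away (f a i)) (f a i)
      h0.isUnit (algebraMap _ _ x) = φ x := fun x => IsLocalization.Away.lift_eq _ h0.isUnit x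
  refine ⟨IsLocalization.Away.liftAlgHom (f a i) h0.isUnit,
    Sigma.ext rfl (heq_of_eq (AlgHom.ext e)), (injective_iff_map_eq_zero _).2 fun x hx => ?_⟩
  obtain ⟨n, r, hr⟩ := IsLocalization.Away.surj (f a i) x
  have h1 : φ r = 0 := by rw [← e, ← hr, map_mul, hx, zero_mul]
  rw [(map_eq_zero_iff φ hi).1 h1, map_zero] at hr
  exact ((IsLocalization.Away.algebraMap_isUnit (f a i)).pow n).mul_left_eq_zero.1 hr

omit [IsAlgClosed k] [Finite β] in
include hΓ ha hρ in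
theorem fin3_mem (x : Γ.K') (hx : x ∈ Algebra.adjoin k (Set.range ρ)) : x ∈ Γ.imRing ρ := by
  refine ⟨isIntegral_algebraMap (R := Algebra.adjoin k (Set.range ρ)) (x := ⟨x, hx⟩),
    fun γ hγ => ?_⟩
  have : Algebra.adjoin k (Set.range ρ) ≤ AlgHom.equalizer γ.toAlgHom (AlgHom.id k _) := by
    refine Algebra.adjoin_le ?_
    rintro _ ⟨b, rfl⟩
    obtain ⟨σ, hσ⟩ := Γ.ne
    have h1 : γ (σ.val (f b)) = ρ b * γ (σ.val (f a)) := hρ _ (Γ.act_mem hγ hσ) b
    rw [hρ σ hσ b, map_mul] at h1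
    exact mul_right_cancel₀ ((map_ne_zero γ).2
      ((map_ne_zero_iff σ.2 (hΓ.1 σ hσ)).2 (ha σ.1))) h1
  exact this hx

include h hΓ ha hρ

/-- A valuation that contains the ratios contains a localised chart. -/
theorem exists_away_cen (w : Val k Γ.K') (hw : ∀ b, ρ b ∈ w.O) : ∃ (i : P.ι)
    (φ : Localization.Away (f a i) →ₐ[k] Γ.K'), awayPt φ ∈ Γ.S ∧ ∀ x, φ x ∈ w.O := by
  obtain ⟨⟨i, φ⟩, hφ, hc⟩ := Γ.exists_cen w
  obtain ⟨φ', e, -⟩ := exists_away_ext hΓ ha hφ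
  have e' : ∀ x, φ' (algebraMap _ _ x) = φ x :=
    AlgHom.congr_fun (eq_of_heq (Sigma.ext_iff.1 e).2)
  have h1 : w.v (φ (f a i)) = 1 := by
    refine (Val.v_le_one.2 (hc _)).eq_or_lt.resolve_right fun hlt => ?_
    have h2 : ∀ x ∈ Ideal.span (Set.range fun b => f b i), w.v (φ x) < 1 := by
      intro x hx
      induction hx using Submodule.span_induction with
      | mem x hx =>
        obtain ⟨b, rfl⟩ := hx
        have h3 : φ (f b i) = ρ b * φ (f a i) := hρ _ hφ b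
        rw [h3, map_mul]
        exact (mul_le_of_le_one_left' (Val.v_le_one.2 (hw b))).trans_lt hlt
      | zero => simp
      | add x y _ _ hx hy =>
        rw [map_add]
        exact Valuation.map_add_lt _ hx hy
      | smul c x _ hx =>
        rw [smul_eq_mul, map_mul, map_mul]
        exact (mul_le_of_le_one_left' (Val.v_le_one.2 (hc c))).trans_lt hx
    simpa using h2 1 (h.gen i ▸ Submodule.mem_top)
  refine ⟨i, φ', e ▸ hφ, fun x => Val.v_le_one.1 ?_⟩
  obtain ⟨n, r, hr⟩ := IsLocalization.Away.surj (f a i) x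
  have h2 := congrArg (fun y => w.v (φ' y)) hr
  simp only [map_mul, map_pow, e', h1, one_pow, mul_one] at h2
  rw [h2]
  exact Val.v_le_one.2 (hc r)

include hψ'

theorem imRing_surj (𝔭 : Ideal (Γ.imRing ρ)) [𝔭.IsPrime] :
    ∃ (i : P.ι) (𝔮 : Ideal (Localization.Away (f a i))), 𝔮.IsPrime ∧ 𝔮.comap (ψ i) = 𝔭 := by
  obtain ⟨w, hw, hw'⟩ := exists_val_centre (Γ.imRing ρ) 𝔭
  obtain ⟨i, φ, hφ, hc⟩ := exists_away_cen h hΓ ha hρ w fun b =>
    hw _ (fin3_mem hΓ ha hρ _ (Algebra.subset_adjoin ⟨b, rfl⟩))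
  refine ⟨i, (IsLocalRing.maximalIdeal w.O).comap (φ.toRingHom.codRestrict w.O hc),
    Ideal.comap_isPrime _ _, Ideal.ext fun c => ?_⟩
  rw [Ideal.mem_comap, Ideal.mem_comap, ValuationSubring.valuation_lt_one_iff, ← hw' c,
    ← hψ' i φ hφ c]
  rfl

include hψ

omit [IsAlgClosed k] [Finite β] h hρ in
open IntermediateField.algebraAdjoinAdjoin in
/-- The field is algebraic over the ring of ratios. -/
theorem fin3_alg (x : Γ.K') : IsAlgebraic (Algebra.adjoin k (Set.range ρ)) x := by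
  rw [← IntermediateField.isAlgebraic_adjoin_iff, ← mem_algebraicClosure_iff]
  have : (⊤ : IntermediateField k Γ.K') ≤
      (algebraicClosure (IntermediateField.adjoin k (Set.range ρ)) Γ.K').restrictScalars k := by
    rw [← Γ.gen, IntermediateField.adjoin_le_iff]
    refine Set.iUnion₂_subset ?_
    rintro ⟨i, φ⟩ hφ _ ⟨b, rfl⟩
    obtain ⟨φ', e, -⟩ := exists_away_ext hΓ ha hφ
    have e' : ∀ x, φ' (algebraMap _ _ x) = φ x :=
      AlgHom.congr_fun (eq_of_heq (Sigma.ext_iff.1 e).2)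
    have h1 := isSeparable_of_etale (hψ i)
      (F := algebraicClosure (IntermediateField.adjoin k (Set.range ρ)) Γ.K') φ'.toRingHom
      (fun c => ⟨⟨c, mem_algebraicClosure_iff.2
        (IntermediateField.isAlgebraic_adjoin_iff.2 c.2.1.isAlgebraic)⟩,
        (hψ' i φ' (e ▸ hφ) c).symm⟩) (algebraMap _ _ b)
    have h2 : IsIntegral (IntermediateField.adjoin k (Set.range ρ)) (φ' (algebraMap _ _ b)) :=
      isIntegral_trans _ h1.isIntegral
    rw [e'] at h2
    exact mem_algebraicClosure_iff'.2 h2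
  exact this trivial

omit [IsAlgClosed k] [Finite β] h in
/-- Embeddings that agree on the normalised image agree on the function field. -/
theorem fin3_agree {Ω : Type u} [Field Ω] [Algebra k Ω] (j j' : Γ.K' →ₐ[k] Ω)
    (e : ∀ c ∈ Γ.imRing ρ, j c = j' c) : ∀ x ∈ Γ.K, j x = j' x := fun x hx => by
  obtain ⟨y, hy, hi⟩ := (fin3_alg hΓ ha ψ hψ hψ' x).exists_integral_multiple
  have h1 := fin3_mem hΓ ha hρ _ y.2
  have h2 : (y : Γ.K') * x ∈ Γ.imRing ρ := ⟨hi, fun γ hγ => by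
    rw [map_mul, h1.2 γ hγ, Γ.mem_K.1 hx γ hγ]⟩
  have h3 := e _ h2
  rw [map_mul, map_mul, e _ h1] at h3
  exact mul_left_cancel₀ ((map_ne_zero j').2 fun h0 => hy (Subtype.ext h0)) h3

omit [IsAlgClosed k] [Finite β] h in
/-- The case of generic geometric points. -/
theorem fin3_rel {Ω : Type u} [Field Ω] [Algebra k Ω] [IsAlgClosed Ω] (i j : P.ι)
    (σ : Localization.Away (f a i) →ₐ[k] Ω) (τ : Localization.Away (f a j) →ₐ[k] Ω)
    (hσ : Function.Injective σ) (hτ : Function.Injective τ)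
    (e : σ.comp (ψ i) = τ.comp (ψ j)) : P.Rel (awayPt σ) (awayPt τ) := by
  have key : ∀ (i : P.ι) (σ : Localization.Away (f a i) →ₐ[k] Ω), Function.Injective σ →
      ∃ (φ : P.A i →ₐ[k] Γ.K') (j : Γ.K' →ₐ[k] Ω), ⟨i, φ⟩ ∈ Γ.S ∧ j.comp φ = (awayPt σ).2 ∧
        ∀ c : Γ.imRing ρ, j c = σ (ψ i c) := fun i σ hσ => by
    obtain ⟨φ, hφ⟩ := hΓ.2 i
    obtain ⟨φ', e, -⟩ := exists_away_ext hΓ ha hφ
    have e' : (awayPt φ').2 = φ := eq_of_heq (Sigma.ext_iff.1 e).2
    have hi : Function.Injective (awayPt σ).2 := hσ.comp (IsLocalization.injective _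
      (powers_le_nonZeroDivisors_of_noZeroDivisors (ha i)))
    obtain ⟨j, hj⟩ := Γ.exists_ext hφ (awayPt σ).2
      (((RingHom.injective_iff_ker_eq_bot _).1 (hΓ.1 _ hφ)).trans
        ((RingHom.injective_iff_ker_eq_bot _).1 hi).symm)
    have h1 : j.comp φ' = σ := Localization.algHom_ext _ (by rw [← e'] at hj; exact hj)
    exact ⟨φ, j, hφ, hj, fun c => by rw [← h1, AlgHom.comp_apply, hψ' i φ' (e ▸ hφ) c]⟩
  obtain ⟨φ, j₁, hφ, e₁, h₁⟩ := key i σ hσ
  obtain ⟨φ', j₂, hφ', e₂, h₂⟩ := key j τ hτ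
  obtain ⟨γ, hγ, eγ⟩ := Γ.exists_G_of_agree j₁ j₂ (fin3_agree hΓ ha hρ ψ hψ hψ' j₁ j₂ fun c hc =>
    (h₁ ⟨c, hc⟩).trans ((AlgHom.congr_fun e _).trans (h₂ ⟨c, hc⟩).symm))
  have h3 : P.Rel ⟨i, j₁.comp φ⟩ ⟨j, (j₁.comp γ.toAlgHom).comp φ'⟩ :=
    (Γ.rel _ hφ _ (Γ.act_mem hγ hφ')).map j₁
  rw [eγ, e₁, e₂] at h3
  exact h3

theorem imRing_rel (C : Type u) [CommRing C] [Algebra k C] (i j : P.ι)
    (σ : Localization.Away (f a i) →ₐ[k] C) (τ : Localization.Away (f a j) →ₐ[k] C)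
    (e : σ.comp (ψ i) = τ.comp (ψ j)) : P.Rel (awayPt σ) (awayPt τ) := by
  obtain ⟨T, _, _, l, r, hl, elr, H⟩ := fin3_univ (ψ i) (ψ j) (hψ j)
  obtain ⟨χ, rfl, rfl⟩ := H C σ τ e
  have := Localization.Away.isDomain (ha i)
  have := Localization.Away.isDomain (ha j)
  refine PreRel.Rel.map (σ := awayPt l) (τ := awayPt r) (fun x hx => ?_) χ
  refine eq_zero_of_etale hl fun 𝔓 _ h𝔓 => ?_
  obtain ⟨Ω, _, _, _, π, hπ⟩ := fin3_point (k := k) 𝔓
  have h1 : (𝔓.comap r.toRingHom).comap (ψ j).toRingHom = ⊥ := by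
    rw [Ideal.comap_comap, show r.toRingHom.comp (ψ j).toRingHom = l.toRingHom.comp (ψ i).toRingHom
      from congrArg AlgHom.toRingHom elr.symm, ← Ideal.comap_comap, h𝔓]
    exact Ideal.comap_bot_of_injective _ (injective_of_etale (hψ i))
  have h2 : ⊥ = 𝔓.comap r.toRingHom := eq_of_le_of_etale (hψ j) bot_le
    ((Ideal.comap_bot_of_injective _ (injective_of_etale (hψ j))).trans h1.symm)
  have h3 := fin3_rel hΓ ha hρ ψ hψ hψ' i j (π.comp l) (π.comp r)
    ((injective_iff_map_eq_zero _).2 fun y hy => h𝔓.le ((hπ _).1 hy))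
    ((injective_iff_map_eq_zero _).2 fun y hy => h2.ge ((hπ _).1 hy))
    (congrArg π.comp elr) x hx
  have h4 : Algebra.TensorProduct.productMap (awayPt (π.comp l)).2 (awayPt (π.comp r)).2 =
      π.comp (Algebra.TensorProduct.productMap (awayPt l).2 (awayPt r).2) := by
    ext y <;> simp
  rw [h4] at h3
  exact (hπ _).1 h3

end

end Pool.Agent.Lib.MP_1c03d5_ag
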