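import Pool.Agent.Lib.MP_1c03d5_ag.Rel

/-!
# TASK FLAT: ideals under flat and etale maps
-/

universe u

namespace Pool.Agent.Lib.MP_1c03d5_ag

noncomputable section

open TensorProduct

section

variable {R S : Type u} [CommRing R] [CommRing S] [Algebra R S]

theorem flat_mem_map (I : Ideal R) (s : S) :
    (1 : R ⧸ I) ⊗ₜ[R] s = 0 ↔ s ∈ I.map (algebraMap R S) := by
  rw [← Algebra.TensorProduct.quotIdealMapEquivQuotTensor_mk, map_eq_zero_iff _ (AlgEquiv.injective _),
    Ideal.Quotient.eq_zero_iff_mem]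

theorem flat_tmul_eq_zero [Module.Flat R S] {N : Type*} [AddCommGroup N] [Module R N] (n : N)
    {I : Ideal R} (hI : ∀ r, r ∈ I ↔ r • n = 0) (s : S) :
    n ⊗ₜ[R] s = 0 ↔ s ∈ I.map (algebraMap R S) := by
  have hk : LinearMap.ker (LinearMap.toSpanSingleton R N n) = I := by
    ext r
    simp [hI]
  have hi : Function.Injective (I.liftQ (LinearMap.toSpanSingleton R N n) hk.ge) :=
    LinearMap.ker_eq_bot.1 (Submodule.ker_liftQ_eq_bot _ _ _ hk.le)
  have h1 : I.liftQ (LinearMap.toSpanSingleton R N n) hk.ge (1 : R ⧸ I) = n :=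
    (Submodule.liftQ_apply _ _ 1).trans (one_smul _ _)
  rw [← flat_mem_map, ← map_eq_zero_iff _ (Module.Flat.rTensor_preserves_injective_linearMap
    (M := S) _ hi), LinearMap.rTensor_tmul, h1]

theorem flat_radical [Module.Flat R S] [Algebra.FormallyUnramified R S] [Algebra.EssFiniteType R S]
    (p : Ideal R) [p.IsPrime] : (p.map (algebraMap R S)).IsRadical := by
  have hI : ∀ r, r ∈ p ↔ r • (1 : p.ResidueField) = 0 := fun r => by
    rw [← Algebra.algebraMap_eq_smul_one, Ideal.algebraMap_residueField_eq_zero]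
  have := Algebra.FormallyUnramified.isReduced_of_field p.ResidueField (p.ResidueField ⊗[R] S)
  rintro x ⟨n, hn⟩
  rw [← flat_tmul_eq_zero _ hI] at hn ⊢
  refine IsNilpotent.eq_zero ⟨n, ?_⟩
  rw [Algebra.TensorProduct.tmul_pow, one_pow, hn]

end

section

variable {R S : Type u} [CommRing R] [CommRing S] {φ : R →+* S}

theorem map_inf_of_flat (h : φ.Flat) (I J : Ideal R) : (I ⊓ J).map φ = I.map φ ⊓ J.map φ := by
  algebraize [φ]
  ext s
  have hI : ∀ r, r ∈ I ⊓ J ↔ r • ((1, 1) : (R ⧸ I) × (R ⧸ J)) = 0 := fun r => by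
    simp [← Algebra.algebraMap_eq_smul_one, Ideal.Quotient.eq_zero_iff_mem]
  refine (flat_tmul_eq_zero _ hI s).symm.trans ?_
  rw [← map_eq_zero_iff _ (TensorProduct.prodLeft R R (R ⧸ I) (R ⧸ J) S).injective,
    TensorProduct.prodLeft_tmul, Prod.mk_eq_zero, flat_mem_map, flat_mem_map]
  rfl

theorem map_iInf_of_flat (h : φ.Flat) {ι : Type*} [Finite ι] (I : ι → Ideal R) :
    (⨅ i, I i).map φ = ⨅ i, (I i).map φ := by
  induction ι using Finite.induction_empty_option with
  | of_equiv e ih => rw [← e.iInf_comp, ← e.iInf_comp, ih]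
  | h_empty => rw [iInf_of_empty, iInf_of_empty, Ideal.map_top]
  | h_option ih => rw [iInf_option, iInf_option, map_inf_of_flat h, ih]

theorem map_colon_singleton_of_flat (h : φ.Flat) (I : Ideal R) (a : R) :
    (I.colon {a}).map φ = (I.map φ).colon {φ a} := by
  algebraize [φ]
  ext s
  have hI : ∀ r, r ∈ I.colon {a} ↔ r • (a • (1 : R ⧸ I)) = 0 := fun r => by
    rw [Submodule.mem_colon_singleton, smul_smul, ← Algebra.algebraMap_eq_smul_one]
    exact Ideal.Quotient.eq_zero_iff_mem.symm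
  refine (flat_tmul_eq_zero _ hI s).symm.trans ?_
  rw [smul_tmul, flat_mem_map, Submodule.mem_colon_singleton, Algebra.smul_def, mul_comm]
  rfl

theorem map_colon_of_flat (h : φ.Flat) (I J : Ideal R) (hJ : J.FG) :
    (I.colon (J : Set R)).map φ = (I.map φ).colon (J.map φ : Set S) := by
  obtain ⟨t, rfl⟩ := hJ
  rw [Ideal.map_span, Ideal.colon_span, Ideal.colon_span, Set.image_eq_iUnion,
    ← Set.biUnion_of_singleton (t : Set R), Set.biUnion_of_singleton, Set.biUnion_eq_iUnion,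
    Submodule.colon_iUnion]
  conv_lhs => rw [← Set.iUnion_of_singleton_coe (t : Set R), Submodule.colon_iUnion]
  rw [map_iInf_of_flat h]
  exact iInf_congr fun a => map_colon_singleton_of_flat h I a

theorem map_ne_zero_divisor_of_flat (h : φ.Flat) {a : R} (ha : a ∈ nonZeroDivisors R) :
    φ a ∈ nonZeroDivisors S := by
  algebraize [φ]
  have h1 := Module.Flat.isSMulRegular_of_nonZeroDivisors (M := S) ha
  refine mem_nonZeroDivisors_iff_left.2 fun x hx => h1 ?_
  simp only [Algebra.smul_def, mul_zero]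
  exact hx

theorem flat_map_radical [IsNoetherianRing R] (h : φ.Etale) (I : Ideal R) :
    I.radical.map φ = (I.map φ).radical := by
  refine le_antisymm (Ideal.map_radical_le φ) ?_
  refine le_trans (Ideal.radical_mono (Ideal.map_mono Ideal.le_radical)) ?_
  have := (I.finite_minimalPrimes_of_isNoetherianRing R).to_subtype
  refine Ideal.IsRadical.radical_le_iff ?_ |>.2 le_rfl
  rw [← Ideal.sInf_minimalPrimes, sInf_eq_iInf',
    map_iInf_of_flat (RingHom.Etale.iff_flat_and_formallyUnramified.1 h).1]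
  algebraize [φ]
  refine Ideal.isRadical_iInf _ fun p => ?_
  have := p.2.1.1
  exact flat_radical p.1

theorem isReduced_of_etale [IsNoetherianRing R] [IsReduced R] (h : φ.Etale) : IsReduced S := by
  have h1 := flat_map_radical h ⊥
  rw [Ideal.map_bot, show (⊥ : Ideal R).radical = ⊥ from nilradical_eq_zero R, Ideal.map_bot] at h1
  exact nilradical_eq_bot_iff.1 h1.symm

theorem map_radical_of_etale [IsNoetherianRing R] (h : φ.Etale) (I : Ideal R) :
    I.radical.map φ = (I.map φ).radical := flat_map_radical h I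

/-- Going down. -/
theorem exists_le_comap_eq_of_flat (h : φ.Flat) {𝔭 : Ideal R} [𝔭.IsPrime] {𝔔 : Ideal S}
    [𝔔.IsPrime] (hle : 𝔭 ≤ 𝔔.comap φ) : ∃ 𝔓 : Ideal S, 𝔓.IsPrime ∧ 𝔓 ≤ 𝔔 ∧ 𝔓.comap φ = 𝔭 := by
  algebraize [φ]
  obtain ⟨P, h1, h2, h3⟩ := Ideal.exists_ideal_le_liesOver_of_le (p := 𝔭) (q := 𝔔.under R) 𝔔 hle
  exact ⟨P, h2, h1, h3.over.symm⟩

/-- Incomparability in the fibres of an etale map. -/
theorem eq_of_le_of_etale (h : φ.Etale) {𝔓 𝔔 : Ideal S} [𝔓.IsPrime] [𝔔.IsPrime] (hle : 𝔓 ≤ 𝔔)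
    (he : 𝔓.comap φ = 𝔔.comap φ) : 𝔓 = 𝔔 := by
  algebraize [φ]
  exact Algebra.QuasiFinite.eq_of_le_of_under_eq (R := R) 𝔓 𝔔 hle he

/-- An element of an etale algebra over a domain that dies at all generic points is zero. -/
theorem eq_zero_of_etale [IsNoetherianRing R] [IsDomain R] (h : φ.Etale) {x : S}
    (hx : ∀ 𝔓 : Ideal S, 𝔓.IsPrime → 𝔓.comap φ = ⊥ → x ∈ 𝔓) : x = 0 := by
  have := isReduced_of_etale h
  refine IsNilpotent.eq_zero (nilpotent_iff_mem_prime.2 fun Q hQ => ?_)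
  obtain ⟨P, h1, h2, h3⟩ := exists_le_comap_eq_of_flat
    (RingHom.Etale.iff_flat_and_formallyUnramified.1 h).1 (𝔭 := ⊥) (𝔔 := Q) bot_le
  exact h2 (hx P h1 h3)

end

end

end Pool.Agent.Lib.MP_1c03d5_ag
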