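import Pool.Agent.Lib.MP_1c03d5_ag.Flat

/-!
# TASK FLAT2: points of etale algebras, transcendence degree of quotients
-/

universe u

namespace Pool.Agent.Lib.MP_1c03d5_ag

noncomputable section

open scoped TensorProduct

/-- A ring map with values in the range of an injective map factors through it. -/
theorem flat2_factor {S F Ω : Type u} [CommRing S] [CommRing F] [CommRing Ω] (j : F →+* Ω)
    (hj : Function.Injective j) (ψ : S →+* Ω) (h : ∀ b, ψ b ∈ j.range) :
    ∃ ψ' : S →+* F, j.comp ψ' = ψ := by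
  choose g hg using fun b => RingHom.mem_range.mp (h b)
  refine ⟨⟨⟨⟨g, hj ?_⟩, fun x y => hj ?_⟩, hj ?_, fun x y => hj ?_⟩, RingHom.ext fun b => hg b⟩
  · rw [hg, map_one, map_one]
  · simp only [map_mul, hg]
  · simp only [map_zero, hg]
  · simp only [map_add, hg]

/-- Field-valued points of an unramified algebra over a field are separable. -/
theorem flat2_sep {F T Ω : Type u} [Field F] [CommRing T] [Algebra F T] [Algebra.EssFiniteType F T]
    [Algebra.FormallyUnramified F T] [Field Ω] [Algebra F Ω] (Θ : T →ₐ[F] Ω) (x : T) :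
    IsSeparable F (Θ x) := by
  have : Module.Finite F T := Algebra.FormallyUnramified.finite_of_free F T
  have : IsArtinianRing T := isArtinian_of_tower F inferInstance
  have hp : (RingHom.ker Θ).IsPrime := RingHom.ker_isPrime Θ
  have hm : (RingHom.ker Θ).IsMaximal := IsArtinianRing.isMaximal_of_isPrime _
  let : Field (T ⧸ RingHom.ker Θ) := Ideal.Quotient.field _
  have : Algebra.IsSeparable F (T ⧸ RingHom.ker Θ) :=
    Algebra.FormallyUnramified.isSeparable F (T ⧸ RingHom.ker Θ)
  have h := (Algebra.IsSeparable.isSeparable F (Ideal.Quotient.mk (RingHom.ker Θ) x)).map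
    (Ideal.kerLiftAlg Θ) (Ideal.kerLiftAlg_injective Θ)
  rwa [Ideal.kerLiftAlg_mk] at h

/-- The point of the base change given by a point of the algebra. -/
theorem flat2_lift {R S F Ω : Type u} [CommRing R] [CommRing S] [Algebra R S] [CommRing F]
    [Algebra R F] [CommRing Ω] [Algebra F Ω] (ψ : S →+* Ω)
    (hψ : ∀ a, ψ (algebraMap R S a) = algebraMap F Ω (algebraMap R F a)) :
    ∃ Θ : F ⊗[R] S →ₐ[F] Ω, ∀ b, Θ (1 ⊗ₜ b) = ψ b := by
  let : Algebra R Ω := ((algebraMap F Ω).comp (algebraMap R F)).toAlgebra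
  have : IsScalarTower R F Ω := IsScalarTower.of_algebraMap_eq fun _ => rfl
  let ψa : S →ₐ[R] Ω := { ψ with commutes' := hψ }
  refine ⟨Algebra.TensorProduct.lift (Algebra.ofId F Ω) ψa fun _ _ => Commute.all _ _,
    fun b => ?_⟩
  rw [Algebra.TensorProduct.lift_tmul, map_one, one_mul]
  rfl

section

variable {R S : Type u} [CommRing R] [CommRing S] {φ : R →+* S}

/-- Field-valued points of an etale algebra are separable over the base point. -/
theorem isSeparable_of_etale (h : φ.Etale) {F Ω : Type u} [Field F] [Field Ω] [Algebra F Ω]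
    (ψ : S →+* Ω) (hψ : ∀ a, ψ (φ a) ∈ (algebraMap F Ω).range) (b : S) : IsSeparable F (ψ b) := by
  obtain ⟨χ, hχ⟩ := flat2_factor (algebraMap F Ω) (algebraMap F Ω).injective (ψ.comp φ) hψ
  let : Algebra R S := φ.toAlgebra
  have : Algebra.Etale R S := h.toAlgebra
  let : Algebra R F := χ.toAlgebra
  obtain ⟨Θ, hΘ⟩ := flat2_lift (R := R) (F := F) ψ fun a => (RingHom.congr_fun hχ a).symm
  rw [← hΘ]
  exact flat2_sep Θ _

/-- An etale algebra has finitely many points over a field-valued point. -/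
theorem finite_lifts_of_etale (h : φ.Etale) {Ω : Type u} [Field Ω] (χ : R →+* Ω) :
    {ψ : S →+* Ω | ψ.comp φ = χ}.Finite := by
  let : Algebra R S := φ.toAlgebra
  have : Algebra.Etale R S := h.toAlgebra
  let : Algebra R Ω := χ.toAlgebra
  have : Module.Finite Ω (Ω ⊗[R] S) := Algebra.FormallyUnramified.finite_of_free Ω (Ω ⊗[R] S)
  have hl : ∀ ψ : {ψ : S →+* Ω | ψ.comp φ = χ}, ∃ Θ : Ω ⊗[R] S →ₐ[Ω] Ω,
      ∀ b, Θ (1 ⊗ₜ b) = ψ.1 b := fun ψ =>
    flat2_lift (R := R) (F := Ω) ψ.1 fun a => RingHom.congr_fun ψ.2 a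
  choose Θ hΘ using hl
  refine Set.finite_coe_iff.mp (Finite.of_injective Θ fun ψ ψ' e => ?_)
  refine Subtype.ext (RingHom.ext fun b => ?_)
  rw [← hΘ, ← hΘ, e]

/-- Over an algebraically closed field all points of a fibre are rational. -/
theorem exists_lift_of_etale (h : φ.Etale) {Ω Ω' : Type u} [Field Ω] [IsAlgClosed Ω] [Field Ω']
    (j : Ω →+* Ω') (χ : R →+* Ω) (ψ : S →+* Ω') (hψ : ψ.comp φ = j.comp χ) :
    ∃ ψ' : S →+* Ω, ψ'.comp φ = χ ∧ j.comp ψ' = ψ := by
  let : Algebra Ω Ω' := j.toAlgebra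
  have hr : ∀ b, ψ b ∈ j.range := fun b => by
    have hs : IsSeparable Ω (ψ b) :=
      isSeparable_of_etale h ψ (fun a => ⟨χ a, (RingHom.congr_fun hψ a).symm⟩) b
    exact minpoly.mem_range_of_degree_eq_one Ω (ψ b)
      (IsAlgClosed.degree_eq_one_of_irreducible Ω (minpoly.irreducible hs.isIntegral))
  obtain ⟨ψ', hψ'⟩ := flat2_factor j j.injective ψ hr
  refine ⟨ψ', RingHom.ext fun a => j.injective ?_, hψ'⟩
  exact (RingHom.congr_fun hψ' (φ a)).trans (RingHom.congr_fun hψ a)

/-- Two lifts to a local ring that agree on the residue field agree. -/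
theorem ext_of_etale (h : φ.Etale) {C : Type u} [CommRing C] [IsLocalRing C] {ψ ψ' : S →+* C}
    (h1 : ψ.comp φ = ψ'.comp φ) (h2 : ∀ b, ψ b - ψ' b ∈ IsLocalRing.maximalIdeal C) : ψ = ψ' := by
  let : Algebra R S := φ.toAlgebra
  have : Algebra.Etale R S := h.toAlgebra
  let : Algebra R C := (ψ.comp φ).toAlgebra
  let f : S →ₐ[R] C := { ψ with commutes' := fun _ => rfl }
  let g : S →ₐ[R] C := { ψ' with commutes' := fun a => (RingHom.congr_fun h1 a).symm }
  let Θ : S ⊗[R] S →ₐ[R] C := Algebra.TensorProduct.productMap f g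
  have hΘ : ∀ a b, Θ (a ⊗ₜ b) = ψ a * ψ' b := fun a b =>
    Algebra.TensorProduct.productMap_apply_tmul f g a b
  have hm : ∀ x, ψ (Algebra.TensorProduct.lmul' R x) - Θ x ∈ IsLocalRing.maximalIdeal C := by
    intro x
    induction x using TensorProduct.induction_on with
    | zero => simp
    | tmul a b =>
      rw [hΘ, Algebra.TensorProduct.lmul'_apply_tmul, map_mul, ← mul_sub]
      exact Ideal.mul_mem_left _ _ (h2 b)
    | add x y hx hy =>
      rw [map_add, map_add, map_add, add_sub_add_comm]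
      exact Ideal.add_mem _ hx hy
  have hu : IsUnit (Θ (Algebra.FormallyUnramified.elem R S)) := by
    have := hm (Algebra.FormallyUnramified.elem R S)
    rw [Algebra.FormallyUnramified.lmul_elem, map_one] at this
    have h3 := IsLocalRing.isUnit_one_sub_self_of_mem_nonunits _ this
    rwa [sub_sub_cancel] at h3
  refine RingHom.ext fun b => ?_
  have h4 := congrArg Θ (Algebra.FormallyUnramified.one_tmul_mul_elem (R := R) b)
  rw [map_mul, map_mul, hΘ, hΘ, map_one, map_one, one_mul, mul_one] at h4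
  exact (hu.mul_right_cancel h4).symm

end

variable {k : Type u} [Field k]

/-- An independent family of a proper quotient of a domain lifts and extends. -/
theorem flat2_indep {D K' : Type u} [CommRing D] [IsDomain D] [Algebra k D] [CommRing K']
    [Algebra k K'] (π : D →ₐ[k] K') {ι : Type u} (y : ι → D)
    (hy : AlgebraicIndependent k fun i => π (y i)) {a : D} (ha0 : a ≠ 0) (ha : π a = 0) :
    AlgebraicIndependent k fun o : Option ι => o.elim a y := by
  have hy' : AlgebraicIndependent k y := AlgebraicIndependent.of_comp π hy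
  rw [hy'.option_iff_transcendental]
  intro halg
  apply Ideal.comap_ne_bot_of_algebraic_mem (I := RingHom.ker π) ha0 ha halg
  rw [eq_bot_iff]
  rintro ⟨r, hr⟩ hker
  rw [Algebra.adjoin_range_eq_range_aeval] at hr
  obtain ⟨p, rfl⟩ := hr
  have h1 : π (MvPolynomial.aeval y p) = 0 := hker
  have h2 : MvPolynomial.aeval (fun i => π (y i)) p = 0 := by
    rw [← h1, MvPolynomial.comp_aeval_apply]
  have h3 : p = 0 := hy (h2.trans (map_zero _).symm)
  subst h3
  exact Subtype.ext (map_zero _)

/-- A proper quotient of a finitely generated domain has smaller transcendence degree. -/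
theorem trdeg_lt_of_ker_lt {A K K' : Type u} [CommRing A] [Algebra k A] [Algebra.FiniteType k A]
    [Field K] [Algebra k K] [Field K'] [Algebra k K'] (φ : A →ₐ[k] K) (ψ : A →ₐ[k] K')
    [Algebra.IsAlgebraic ψ.range K'] (h : RingHom.ker φ < RingHom.ker ψ) :
    Algebra.trdeg k K' < Algebra.trdeg k K := by
  have : (RingHom.ker φ).IsPrime := RingHom.ker_isPrime φ
  have : Algebra.FiniteType k ψ.range :=
    Algebra.FiniteType.of_surjective ψ.rangeRestrict ψ.rangeRestrict_surjective
  have e1 : Algebra.trdeg k K' = Algebra.trdeg k ψ.range := by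
    rw [← trdeg_add_eq k ψ.range (A := K'), trdeg_eq_zero (R := ψ.range) (A := K'), add_zero]
  obtain ⟨ι, x, hx⟩ := exists_isTranscendenceBasis' k ψ.range
  have hfin : Cardinal.mk ι < Cardinal.aleph0 := by
    rw [hx.cardinalMk_eq_trdeg]
    exact trdeg_lt_aleph0_of_finiteType
  choose y hy using fun i => ψ.rangeRestrict_surjective (x i)
  obtain ⟨a, haψ, haφ⟩ := SetLike.exists_of_lt h
  let π : (A ⧸ RingHom.ker φ) →ₐ[k] ψ.range :=
    Ideal.Quotient.liftₐ (RingHom.ker φ) ψ.rangeRestrict fun b hb => Subtype.ext (h.le hb)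
  have hind := flat2_indep π (fun i => Ideal.Quotient.mk (RingHom.ker φ) (y i))
    (a := Ideal.Quotient.mk (RingHom.ker φ) a)
    (by
      have : (fun i => π (Ideal.Quotient.mk (RingHom.ker φ) (y i))) = x := funext hy
      rw [this]
      exact hx.1)
    (fun h0 => haφ (Ideal.Quotient.eq_zero_iff_mem.mp h0)) (Subtype.ext haψ)
  have h1 := hind.cardinalMk_le_trdeg
  have h2 := trdeg_le_of_injective (Ideal.kerLiftAlg φ) (Ideal.kerLiftAlg_injective φ)
  rw [e1, ← hx.cardinalMk_eq_trdeg]
  refine lt_of_lt_of_le ?_ (h1.trans h2)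
  rw [Cardinal.mk_option]
  obtain ⟨n, hn⟩ := Cardinal.lt_aleph0.mp hfin
  rw [hn]
  exact_mod_cast Nat.lt_succ_self n

end

end Pool.Agent.Lib.MP_1c03d5_ag
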