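import Pool.Agent.Lib.MP_1c03d5_ag.RelL

/-!
# Generic points of integral closed subspaces (definitions only)
-/

universe u

namespace Pool.Agent.Lib.MP_1c03d5_ag

noncomputable section

variable {k : Type u} [Field k]

/-- The field generated by the values of a point. -/
def Fam.Pt.fld {F : Fam k} {K : Type u} [Field K] [Algebra k K] (σ : F.Pt K) :
    IntermediateField k K := IntermediateField.adjoin k (Set.range σ.2)

/-- All lifts of the generic point of an integral closed subspace, in a field they generate. -/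
structure Gen (P : EqRel k) where
  K' : Type u
  [fld : Field K']
  [alg : Algebra k K']
  S : Set (P.Pt K')
  fin : S.Finite
  ne : S.Nonempty
  rel : ∀ σ ∈ S, ∀ τ ∈ S, P.Rel σ τ
  complete : ∀ (Ω : Type u) [Field Ω] [Algebra k Ω] (j : K' →ₐ[k] Ω), ∀ σ ∈ S, ∀ τ : P.Pt Ω,
    P.Rel (σ.map j) τ → ∃ τ' ∈ S, τ'.map j = τ
  gen : IntermediateField.adjoin k (⋃ σ ∈ S, Set.range σ.2) = ⊤

attribute [instance] Gen.fld Gen.alg

namespace Gen

variable {P : EqRel k} (Γ : Gen P)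

instance {p : ℕ} [CharP k p] : CharP Γ.K' p :=
  charP_of_injective_algebraMap (algebraMap k _).injective p

/-- The action of an automorphism on points. -/
abbrev act (γ : Γ.K' ≃ₐ[k] Γ.K') (σ : P.Pt Γ.K') : P.Pt Γ.K' := σ.map γ.toAlgHom

/-- The automorphisms that preserve the set of lifts. -/
def G : Subgroup (Γ.K' ≃ₐ[k] Γ.K') where
  carrier := {γ | ∀ σ, σ ∈ Γ.S ↔ Γ.act γ σ ∈ Γ.S}
  one_mem' := fun _ => Iff.rfl
  mul_mem' := fun {γ γ'} h h' σ => (h' σ).trans (h (Γ.act γ' σ))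
  inv_mem' := fun {γ} h σ => by
    have e : Γ.act γ (Γ.act γ⁻¹ σ) = σ := Sigma.ext rfl (heq_of_eq (AlgHom.ext fun a => by simp))
    rw [h (Γ.act γ⁻¹ σ), e]

/-- The function field. -/
def K : IntermediateField k Γ.K' := IntermediateField.fixedField Γ.G

/-- The ideal of the closed subspace. -/
def I : P.Idl := fun i => ⨅ (φ : P.A i →ₐ[k] Γ.K') (_ : ⟨i, φ⟩ ∈ Γ.S), RingHom.ker φ

/-- Rational sections of a line bundle. -/
def RS (L : P.LB) (E : P.Pt Γ.K' → Γ.K') : Prop :=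
  ∀ σ ∈ Γ.S, ∀ τ ∈ Γ.S, ∀ h : P.Rel σ τ, E σ = h.tr L * E τ

/-- Invariant families. -/
def Invt (E : P.Pt Γ.K' → Γ.K') : Prop := ∀ γ ∈ Γ.G, ∀ σ ∈ Γ.S, E (Γ.act γ σ) = γ (E σ)

/-- Regular families (on the normalisation). -/
def Reg (E : P.Pt Γ.K' → Γ.K') : Prop := ∀ σ ∈ Γ.S, σ.Int (E σ)

/-- Non-zero families. -/
def Nz (E : P.Pt Γ.K' → Γ.K') : Prop := ∀ σ ∈ Γ.S, E σ ≠ 0

/-- A power of `L` has a section. -/
def Eff (L : P.LB) : Prop := ∃ m, 0 < m ∧ ∃ E, Γ.RS (L ^ m) E ∧ Γ.Nz E ∧ Γ.Reg E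

/-- `L` is big on the subspace. -/
def Big (L : P.LB) : Prop := ∀ Φ : Finset Γ.K', ∃ m, 0 < m ∧ ∃ E, Γ.RS (L ^ m) E ∧ Γ.Invt E ∧
  Γ.Nz E ∧ Γ.Reg E ∧ ∀ φ ∈ Φ, Γ.Reg fun σ => φ * E σ

/-- All lifts are injective and every chart has one. -/
def Generic : Prop :=
  (∀ σ ∈ Γ.S, Function.Injective σ.2) ∧ ∀ i, ∃ φ : P.A i →ₐ[k] Γ.K', ⟨i, φ⟩ ∈ Γ.S

/-- A projective model on which the charts become visible. -/
structure Mod where
  H : Submodule k Γ.K'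
  fg : H.FG
  one : 1 ∈ H
  stab : ∀ γ ∈ Γ.G, ∀ x ∈ H, γ x ∈ H
  α : Type
  [fin : Finite α]
  τ : α → Γ.K'
  pt : α → P.Pt Γ.K'
  τ_mem : ∀ a, τ a ∈ H
  τ_ne : ∀ a, τ a ≠ 0
  pt_mem : ∀ a, pt a ∈ Γ.S
  chart : ∀ a x, ∃ n, (pt a).2 x * τ a ^ n ∈ H ^ n
  cover : ∀ w : Val k Γ.K', ∃ a, ∀ x ∈ H, w.v x ≤ w.v (τ a)

attribute [instance] Mod.fin

end Gen

end

end Pool.Agent.Lib.MP_1c03d5_ag
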