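import Pool.Agent.Lib.MP_1c03d5_ag.Gen
import Pool.Agent.Lib.MP_1c03d5_ag.Norm

/-!
# TASK GEN1: the Galois theory of a generic point
-/

universe u

namespace Pool.Agent.Lib.MP_1c03d5_ag

noncomputable section

variable {k : Type u} [Field k]

theorem Fam.Pt.mem_fld {F : Fam k} {K : Type u} [Field K] [Algebra k K] {σ : F.Pt K} {x : K} :
    x ∈ σ.fld ↔ ∃ a b, σ.2 b ≠ 0 ∧ x * σ.2 b = σ.2 a := by
  have e : Algebra.adjoin k (Set.range σ.2) = σ.2.range := Algebra.adjoin_eq σ.2.range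
  constructor
  · intro h
    obtain ⟨r, hr, s, hs, rfl⟩ := IntermediateField.mem_adjoin_iff_div.1 h
    rw [e] at hr hs
    obtain ⟨a, rfl⟩ := hr
    obtain ⟨b, rfl⟩ := hs
    by_cases hb : σ.2 b = 0
    · exact ⟨0, 1, by simp, by simp [hb]⟩
    · exact ⟨a, b, hb, div_mul_cancel₀ _ hb⟩
  · rintro ⟨a, b, hb, h⟩
    rw [eq_div_of_mul_eq hb h]
    exact div_mem (IntermediateField.subset_adjoin _ _ ⟨a, rfl⟩)
      (IntermediateField.subset_adjoin _ _ ⟨b, rfl⟩)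

theorem Fam.Pt.fld_eq {F : Fam k} {K : Type u} [Field K] [Algebra k K] (σ : F.Pt K) :
    σ.fld = IntermediateField.adjoin k (σ.2.range : Set K) := rfl

theorem Fam.Pt.range_fg {F : Fam k} {K : Type u} [Field K] [Algebra k K] (σ : F.Pt K) :
    σ.2.range.FG := by
  rw [← Algebra.map_top]
  exact Algebra.FiniteType.out.map σ.2

theorem gen1_map_inj {F : Fam k} {C C' : Type u} [CommRing C] [Algebra k C] [CommRing C']
    [Algebra k C'] {φ : C →ₐ[k] C'} (hφ : Function.Injective φ) {σ τ : F.Pt C}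
    (h : σ.map φ = τ.map φ) : σ = τ := by
  obtain ⟨i, σ⟩ := σ
  obtain ⟨j, τ⟩ := τ
  obtain ⟨rfl, h2⟩ := Sigma.mk.inj_iff.1 h
  congr 1
  exact AlgHom.ext fun a => hφ (DFunLike.congr_fun (eq_of_heq h2) a)

theorem gen1_range_eq {F : Fam k} {C C' C'' : Type u} [CommRing C] [Algebra k C] [CommRing C']
    [Algebra k C'] [CommRing C''] [Algebra k C''] {φ : C →ₐ[k] C''} {ψ : C' →ₐ[k] C''}
    {σ : F.Pt C} {τ : F.Pt C'} (h : σ.map φ = τ.map ψ) (a) : ∃ b, φ (σ.2 a) = ψ (τ.2 b) := by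
  obtain ⟨i, σ⟩ := σ
  obtain ⟨j, τ⟩ := τ
  obtain ⟨rfl, h2⟩ := Sigma.mk.inj_iff.1 h
  exact ⟨a, DFunLike.congr_fun (eq_of_heq h2) a⟩

namespace Gen

variable {P : EqRel k} (Γ : Gen P)

theorem act_mem {γ} (hγ : γ ∈ Γ.G) {σ} (hσ : σ ∈ Γ.S) : Γ.act γ σ ∈ Γ.S := (hγ σ).1 hσ

theorem mem_of_rel {σ τ : P.Pt Γ.K'} (hσ : σ ∈ Γ.S) (h : P.Rel σ τ) : τ ∈ Γ.S := by
  obtain ⟨τ', h1, h2⟩ := Γ.complete Γ.K' (AlgHom.id k _) σ hσ τ h
  exact h2 ▸ h1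

theorem gen1_top (T : IntermediateField k Γ.K') (h : ∀ σ ∈ Γ.S, ∀ a, σ.2 a ∈ T) (x : Γ.K') :
    x ∈ T := by
  have : IntermediateField.adjoin k (⋃ σ ∈ Γ.S, Set.range σ.2) ≤ T := by
    rw [IntermediateField.adjoin_le_iff]
    intro y hy
    simp only [Set.mem_iUnion] at hy
    obtain ⟨σ, hσ, a, rfl⟩ := hy
    exact h σ hσ a
  rw [Γ.gen] at this
  exact this IntermediateField.mem_top

theorem gen1_ext {Ω : Type u} [Field Ω] [Algebra k Ω] {j j' : Γ.K' →ₐ[k] Ω}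
    (h : ∀ σ ∈ Γ.S, ∀ a, j (σ.2 a) = j' (σ.2 a)) : j = j' :=
  AlgHom.ext fun x => Γ.gen1_top ((AlgHom.equalizer j j').toIntermediateField fun y hy => by
    rw [AlgHom.mem_equalizer] at hy ⊢
    rw [map_inv₀, map_inv₀, hy]) h x

/-- Two embeddings that carry lifts to related points differ by an element of the group. -/
theorem gen1_key {Ω : Type u} [Field Ω] [Algebra k Ω] (ι j : Γ.K' →ₐ[k] Ω) {σ τ} (hσ : σ ∈ Γ.S)
    (hτ : τ ∈ Γ.S) (h : P.Rel (τ.map ι) (σ.map j)) : ∃ γ ∈ Γ.G, ι.comp γ.toAlgHom = j := by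
  have h1 : ∀ ρ : Γ.S, ∃ ρ' : Γ.S, ρ'.1.map ι = ρ.1.map j := fun ρ => by
    obtain ⟨ρ', h1, h2⟩ := Γ.complete Ω ι τ hτ (ρ.1.map j)
      (P.trans _ _ _ _ h ((Γ.rel σ hσ ρ.1 ρ.2).map j))
    exact ⟨⟨ρ', h1⟩, h2⟩
  choose f hf using h1
  have := Γ.fin.to_subtype
  have hi : Function.Injective f := fun ρ ρ' e =>
    Subtype.ext (gen1_map_inj j.injective (by rw [← hf, ← hf, e]))
  have hs := Finite.surjective_of_injective hi
  have e : j.fieldRange = ι.fieldRange := by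
    apply le_antisymm
    · rintro _ ⟨x, rfl⟩
      refine Γ.gen1_top (ι.fieldRange.comap j) (fun ρ hρ a => ?_) x
      obtain ⟨b, hb⟩ := gen1_range_eq (hf ⟨ρ, hρ⟩).symm a
      exact ⟨_, hb.symm⟩
    · rintro _ ⟨x, rfl⟩
      refine Γ.gen1_top (j.fieldRange.comap ι) (fun ρ hρ a => ?_) x
      obtain ⟨ρ', e⟩ := hs ⟨ρ, hρ⟩
      have h2 := hf ρ'
      rw [e] at h2
      obtain ⟨b, hb⟩ := gen1_range_eq h2 a
      exact ⟨_, hb.symm⟩
  let γ : Γ.K' ≃ₐ[k] Γ.K' := (j.equivFieldRange.trans (IntermediateField.equivOfEq e)).trans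
    ι.equivFieldRange.symm
  have hγ : ι.comp γ.toAlgHom = j := AlgHom.ext fun x =>
    congrArg Subtype.val (ι.equivFieldRange.apply_symm_apply
      (IntermediateField.equivOfEq e (j.equivFieldRange x)))
  have hm : ∀ ρ : P.Pt Γ.K', (Γ.act γ ρ).map ι = ρ.map j := fun ρ => by rw [← hγ]; rfl
  refine ⟨γ, fun ρ => ⟨fun hρ => ?_, fun hρ => ?_⟩, hγ⟩
  · rw [gen1_map_inj ι.injective ((hm ρ).trans (hf ⟨ρ, hρ⟩).symm)]
    exact (f _).2
  · obtain ⟨ρ', e⟩ := hs ⟨_, hρ⟩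
    have h2 := hf ρ'
    rw [e, hm] at h2
    rw [gen1_map_inj j.injective h2]
    exact ρ'.2

theorem mem_K {x : Γ.K'} : x ∈ Γ.K ↔ ∀ γ ∈ Γ.G, γ x = x := IntermediateField.mem_fixedField_iff _ _

instance finite_G : Finite Γ.G := by
  have := Γ.fin.to_subtype
  refine Finite.of_injective
    (fun (γ : Γ.G) (σ : Γ.S) => (⟨Γ.act γ.1 σ.1, Γ.act_mem γ.2 σ.2⟩ : Γ.S)) fun γ γ' e => ?_
  refine Subtype.ext (AlgEquiv.coe_toAlgHom_injective (Γ.gen1_ext fun σ hσ a => ?_))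
  have h := congrArg Subtype.val (congrFun e ⟨σ, hσ⟩)
  exact DFunLike.congr_fun (eq_of_heq (Sigma.mk.inj_iff.1 h).2) a

instance : Fintype Γ.G := Fintype.ofFinite _

instance essFT : Algebra.EssFiniteType k Γ.K' := by
  rw [← IntermediateField.fg_top_iff]
  choose t ht using fun σ : P.Pt Γ.K' => σ.range_fg
  have hf : (⋃ σ ∈ Γ.S, (t σ : Set Γ.K')).Finite := Γ.fin.biUnion fun σ _ => (t σ).finite_toSet
  refine ⟨hf.toFinset, eq_top_iff.2 fun x _ => Γ.gen1_top _ (fun σ hσ a => ?_) x⟩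
  have h1 : σ.2 a ∈ Algebra.adjoin k (t σ : Set Γ.K') := by
    rw [ht]
    exact ⟨a, rfl⟩
  refine IntermediateField.adjoin.mono k _ _ ?_ (IntermediateField.algebra_adjoin_le_adjoin k _ h1)
  rw [hf.coe_toFinset]
  exact Set.subset_biUnion_of_mem (u := fun σ => (t σ : Set Γ.K')) hσ

instance essFT_K : Algebra.EssFiniteType k Γ.K := essFT_intermediate _

instance isGalois : IsGalois Γ.K Γ.K' := IsGalois.of_fixed_field Γ.K' Γ.G

instance finiteDimensional : FiniteDimensional Γ.K Γ.K' :=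
  inferInstanceAs (FiniteDimensional (FixedPoints.subfield Γ.G Γ.K') Γ.K')

theorem mem_G_of_fix (γ : Γ.K' ≃ₐ[k] Γ.K') (h : ∀ x ∈ Γ.K, γ x = x) : γ ∈ Γ.G := by
  obtain ⟨g, hg⟩ := FixedPoints.toAlgAut_surjective Γ.G Γ.K'
    { γ.toRingEquiv with commutes' := fun x => h x.1 x.2 }
  have e : g.1 = γ := AlgEquiv.ext fun x => DFunLike.congr_fun hg x
  exact e ▸ g.2

theorem gen1_sep {σ} (hσ : σ ∈ Γ.S) : Algebra.IsSeparable σ.fld Γ.K' :=
  ⟨fun x => Γ.gen1_top ((separableClosure σ.fld Γ.K').restrictScalars k) (fun τ hτ a =>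
    EqRel.isSeparable_of_rel (F := σ.fld) (Γ.rel σ hσ τ hτ) (fun b =>
      isSeparable_algebraMap (K := Γ.K')
        (⟨σ.2 b, IntermediateField.subset_adjoin _ _ ⟨b, rfl⟩⟩ : σ.fld)) a) x⟩

theorem mem_fld_of_fixed {σ} (hσ : σ ∈ Γ.S) {x : Γ.K'}
    (h : ∀ γ ∈ Γ.G, Γ.act γ σ = σ → γ x = x) : x ∈ σ.fld := by
  have := Γ.gen1_sep hσ
  let Ω := AlgebraicClosure Γ.K'
  let ι : Γ.K' →ₐ[k] Ω := IsScalarTower.toAlgHom k _ _
  have hint : ∀ y : Γ.K', IsIntegral σ.fld y := fun y => Algebra.IsSeparable.isIntegral _ y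
  have hr : ∀ y ∈ (minpoly σ.fld x).rootSet Ω, y = ι x := fun y hy => by
    obtain ⟨j, hj⟩ := IntermediateField.exists_algHom_of_splits_of_aeval (F := σ.fld) (K := Ω)
      (fun s => ⟨hint s, IsAlgClosed.splits _⟩) (Polynomial.aeval_eq_zero_of_mem_rootSet hy)
    have e : σ.map ι = σ.map (j.restrictScalars k) := by
      refine Sigma.ext rfl (heq_of_eq (AlgHom.ext fun a => ?_))
      exact (j.commutes ⟨σ.2 a, IntermediateField.subset_adjoin _ _ ⟨a, rfl⟩⟩).symm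
    obtain ⟨γ, h1, h2⟩ := Γ.gen1_key ι (j.restrictScalars k) hσ hσ (e ▸ P.refl _ _)
    have e' : Γ.act γ σ = σ := gen1_map_inj ι.injective (by rw [e, ← h2]; rfl)
    rw [← hj, ← h γ h1 e']
    conv_lhs => rw [h γ h1 e']
    exact (DFunLike.congr_fun h2 x).symm
  have h1 := Polynomial.card_rootSet_eq_natDegree (K := Ω) (Algebra.IsSeparable.isSeparable σ.fld x)
    (IsAlgClosed.splits _)
  have h2 : Fintype.card ((minpoly σ.fld x).rootSet Ω) ≤ 1 :=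
    Fintype.card_le_one_iff.2 fun a b => Subtype.ext ((hr _ a.2).trans (hr _ b.2).symm)
  have h3 := minpoly.natDegree_pos (hint x)
  obtain ⟨y, hy⟩ := minpoly.natDegree_eq_one_iff.1 (show (minpoly σ.fld x).natDegree = 1 by omega)
  exact hy ▸ y.2

theorem K_le_fld {σ} (hσ : σ ∈ Γ.S) : Γ.K ≤ σ.fld := fun _ hx =>
  Γ.mem_fld_of_fixed hσ fun γ hγ _ => Γ.mem_K.1 hx γ hγ

open scoped IntermediateField.algebraAdjoinAdjoin in
theorem isAlgebraic {σ} (hσ : σ ∈ Γ.S) : Algebra.IsAlgebraic σ.2.range Γ.K' := by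
  have := Γ.gen1_sep hσ
  have h1 : Algebra.IsAlgebraic (IntermediateField.adjoin k (Set.range σ.2)) Γ.K' :=
    inferInstanceAs (Algebra.IsAlgebraic σ.fld Γ.K')
  have h2 : Algebra.IsAlgebraic (Algebra.adjoin k (Set.range σ.2)) Γ.K' :=
    IntermediateField.isAlgebraic_adjoin_iff_top.1 h1
  have e : Algebra.adjoin k (Set.range σ.2) = σ.2.range := Algebra.adjoin_eq σ.2.range
  rwa [e] at h2

theorem gen1_exists_ext {i} {φ : P.A i →ₐ[k] Γ.K'} (hφ : ⟨i, φ⟩ ∈ Γ.S) {Ω : Type u} [Field Ω]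
    [Algebra k Ω] [IsAlgClosed Ω] (ψ : P.A i →ₐ[k] Ω) (h : RingHom.ker φ = RingHom.ker ψ) :
    ∃ j : Γ.K' →ₐ[k] Ω, j.comp φ = ψ := by
  have : Algebra.IsAlgebraic φ.range Γ.K' := Γ.isAlgebraic hφ
  have hk : ∀ a, φ a = 0 ↔ ψ a = 0 := fun a => by
    rw [← RingHom.mem_ker, ← RingHom.mem_ker, h]
  let χ : φ.range →ₐ[k] Ω := AlgHom.liftOfSurjective φ.rangeRestrict φ.rangeRestrict_surjective ψ
    fun a ha => (hk a).1 (congrArg Subtype.val ha)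
  have hχ : ∀ a, χ (φ.rangeRestrict a) = ψ a := fun a => AlgHom.liftOfSurjective_apply _ _ _ _ a
  have hi : Function.Injective χ := (injective_iff_map_eq_zero χ).2 fun y hy => by
    obtain ⟨a, rfl⟩ := φ.rangeRestrict_surjective y
    exact Subtype.ext ((hk a).2 ((hχ a).symm.trans hy))
  let _ : Algebra φ.range Ω := χ.toRingHom.toAlgebra
  have : FaithfulSMul φ.range Ω := (faithfulSMul_iff_algebraMap_injective _ _).2 hi
  let j : Γ.K' →ₐ[φ.range] Ω := IsAlgClosed.lift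
  refine ⟨{ j.toRingHom with commutes' := fun c => ?_ }, AlgHom.ext fun a => ?_⟩
  · exact (j.commutes (algebraMap k φ.range c)).trans (χ.commutes c)
  · exact (j.commutes (φ.rangeRestrict a)).trans (hχ a)

theorem conj {i} {φ ψ : P.A i →ₐ[k] Γ.K'} (hφ : ⟨i, φ⟩ ∈ Γ.S) (hψ : ⟨i, ψ⟩ ∈ Γ.S)
    (h : RingHom.ker φ = RingHom.ker ψ) : ∃ γ ∈ Γ.G, γ.toAlgHom.comp φ = ψ := by
  let ι : Γ.K' →ₐ[k] AlgebraicClosure Γ.K' := IsScalarTower.toAlgHom k _ _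
  obtain ⟨j, hj⟩ := Γ.gen1_exists_ext hφ (ι.comp ψ) (h.trans (Ideal.ext fun a => by
    rw [RingHom.mem_ker, RingHom.mem_ker, AlgHom.comp_apply, map_eq_zero ι]))
  have e : Fam.Pt.map (F := P.toFam) ⟨i, ψ⟩ ι = Fam.Pt.map ⟨i, φ⟩ j :=
    Sigma.ext rfl (heq_of_eq hj.symm)
  obtain ⟨γ, h1, h2⟩ := Γ.gen1_key ι j hφ hψ (e ▸ P.refl _ _)
  refine ⟨γ, h1, AlgHom.ext fun a => ι.injective ?_⟩
  exact (DFunLike.congr_fun h2 (φ a)).trans (DFunLike.congr_fun hj a)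

theorem ker_eq_of_le {i} {φ ψ : P.A i →ₐ[k] Γ.K'} (hφ : ⟨i, φ⟩ ∈ Γ.S) (hψ : ⟨i, ψ⟩ ∈ Γ.S)
    (h : RingHom.ker φ ≤ RingHom.ker ψ) : RingHom.ker φ = RingHom.ker ψ := by
  have : Algebra.IsAlgebraic ψ.range Γ.K' := Γ.isAlgebraic hψ
  by_contra hne
  exact lt_irrefl _ (trdeg_lt_of_ker_lt φ ψ (lt_of_le_of_ne h hne))

theorem exists_cen (w : Val k Γ.K') : ∃ σ ∈ Γ.S, σ.Cen w := by
  let ι : Γ.K' →ₐ[k] AlgebraicClosure Γ.K' := IsScalarTower.toAlgHom k _ _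
  obtain ⟨w', rfl⟩ := Val.exists_ext ι w
  obtain ⟨σ, hσ⟩ := Γ.ne
  obtain ⟨τ, h1, h2⟩ := P.proper _ w' (σ.map ι)
  obtain ⟨τ', h3, rfl⟩ := Γ.complete _ ι σ hσ τ h1
  exact ⟨τ', h3, h2⟩

/-- A point with the same kernel as a lift extends to the whole field. -/
theorem exists_ext {i} {φ : P.A i →ₐ[k] Γ.K'} (hφ : ⟨i, φ⟩ ∈ Γ.S) {Ω : Type u} [Field Ω]
    [Algebra k Ω] [IsAlgClosed Ω] (ψ : P.A i →ₐ[k] Ω) (h : RingHom.ker φ = RingHom.ker ψ) :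
    ∃ j : Γ.K' →ₐ[k] Ω, j.comp φ = ψ := Γ.gen1_exists_ext hφ ψ h

/-- Two embeddings that agree on the function field differ by an element of the group. -/
theorem exists_G_of_agree {Ω : Type u} [Field Ω] [Algebra k Ω] (j j' : Γ.K' →ₐ[k] Ω)
    (h : ∀ x ∈ Γ.K, j x = j' x) : ∃ γ ∈ Γ.G, j.comp γ.toAlgHom = j' := by
  let _ : Algebra Γ.K' Ω := j.toRingHom.toAlgebra
  let ϕ : Γ.K' →ₐ[Γ.K] Ω := { j'.toRingHom with commutes' := fun x => (h x.1 x.2).symm }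
  refine ⟨(ϕ.restrictNormal' Γ.K').restrictScalars k, Γ.mem_G_of_fix _ fun x hx =>
    (ϕ.restrictNormal' Γ.K').commutes ⟨x, hx⟩, AlgHom.ext fun x => ?_⟩
  exact ϕ.restrictNormal_commutes Γ.K' x

/-- Functions that are regular on all charts are constant. -/
theorem const_of_reg [IsAlgClosed k] {x : Γ.K'} (h : ∀ σ ∈ Γ.S, σ.Int x) :
    x ∈ (algebraMap k Γ.K').range :=
  mem_range_of_val fun w => by
    obtain ⟨σ, hσ, hw⟩ := Γ.exists_cen w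
    exact (isIntegral_iff_val _ x).1 (h σ hσ) w (by rintro _ ⟨a, rfl⟩; exact hw a)

end Gen

end

end Pool.Agent.Lib.MP_1c03d5_ag
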