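import Pool.Agent.Lib.MP_1c03d5_ag.Gen2

/-!
# TASK GEN3: ideals of generic points, components
-/

universe u

namespace Pool.Agent.Lib.MP_1c03d5_ag

noncomputable section

variable {k : Type u} [Field k] {P : EqRel k}

/-- Every prime is the kernel of a point with values in an algebraically closed field. -/
lemma gen3_pt {B : Type u} [CommRing B] [Algebra k B] (𝔓 : Ideal B) [𝔓.IsPrime] :
    ∃ (Ω : Type u) (_ : Field Ω) (_ : Algebra k Ω) (_ : IsAlgClosed Ω) (ρ : B →ₐ[k] Ω),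
      ∀ b, ρ b = 0 ↔ b ∈ 𝔓 := by
  refine ⟨AlgebraicClosure (FractionRing (B ⧸ 𝔓)), inferInstance, inferInstance, inferInstance,
    (IsScalarTower.toAlgHom k (FractionRing (B ⧸ 𝔓)) _).comp
      ((IsScalarTower.toAlgHom k (B ⧸ 𝔓) _).comp (Ideal.Quotient.mkₐ k 𝔓)), fun b => ?_⟩
  simp only [AlgHom.comp_apply, IsScalarTower.coe_toAlgHom', Ideal.Quotient.mkₐ_eq_mk,
    map_eq_zero, FaithfulSMul.algebraMap_eq_zero_iff, Ideal.Quotient.eq_zero_iff_mem]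

/-- An element outside a minimal prime that multiplies it into a radical ideal. -/
lemma gen3_sep {A : Type u} [CommRing A] [IsNoetherianRing A] {I 𝔮 : Ideal A} (hI : I.IsRadical)
    (h : 𝔮 ∈ I.minimalPrimes) : ∃ c ∉ 𝔮, ∀ y ∈ 𝔮, c * y ∈ I := by
  classical
  have hf := I.finite_minimalPrimes_of_isNoetherianRing A
  have h1 : ¬ (hf.toFinset.erase 𝔮).inf id ≤ 𝔮 := by
    rw [h.isPrime.inf_le']
    rintro ⟨p, hp, hle⟩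
    rw [Finset.mem_erase, Set.Finite.mem_toFinset] at hp
    exact hp.1 (le_antisymm hle (h.2 hp.2.1 hle))
  obtain ⟨c, hc, hc'⟩ := SetLike.not_le_iff_exists.1 h1
  refine ⟨c, hc', fun y hy => hI ?_⟩
  rw [← Ideal.sInf_minimalPrimes, Ideal.mem_sInf]
  intro p hp
  by_cases e : p = 𝔮
  · exact e ▸ Ideal.mul_mem_left _ _ hy
  · exact Ideal.mul_mem_right _ _ (Finset.inf_le (f := id)
      (Finset.mem_erase.2 ⟨e, hf.mem_toFinset.2 hp⟩) hc)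

namespace Gen

variable (Γ : Gen P)

theorem mem_I {i} {a : P.A i} : a ∈ Γ.I i ↔ ∀ φ : P.A i →ₐ[k] Γ.K', ⟨i, φ⟩ ∈ Γ.S → φ a = 0 := by
  simp only [I, Submodule.mem_iInf, RingHom.mem_ker]

theorem in_I {σ} (hσ : σ ∈ Γ.S) : σ.In Γ.I := fun _ ha => Γ.mem_I.1 ha σ.2 hσ

theorem I_radical (i) : (Γ.I i).IsRadical := fun a ⟨n, hn⟩ => Γ.mem_I.2 fun φ hφ =>
  eq_zero_of_pow_eq_zero (n := n) (by rw [← map_pow]; exact Γ.mem_I.1 hn φ hφ)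

theorem exists_ker_le {i} {𝔭 : Ideal (P.A i)} [𝔭.IsPrime] (h : Γ.I i ≤ 𝔭) :
    ∃ φ : P.A i →ₐ[k] Γ.K', ⟨i, φ⟩ ∈ Γ.S ∧ RingHom.ker φ ≤ 𝔭 := by
  have hf : {φ : P.A i →ₐ[k] Γ.K' | ⟨i, φ⟩ ∈ Γ.S}.Finite :=
    Γ.fin.preimage (f := fun φ : P.A i →ₐ[k] Γ.K' => (⟨i, φ⟩ : P.Pt Γ.K'))
      fun _ _ _ _ e => eq_of_heq (Sigma.mk.inj e).2
  have h1 : hf.toFinset.inf (fun φ => RingHom.ker φ) ≤ 𝔭 := by
    refine le_trans (fun a ha => Γ.mem_I.2 fun φ hφ => ?_) h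
    exact Finset.inf_le (f := fun φ : P.A i →ₐ[k] Γ.K' => RingHom.ker φ)
      (hf.mem_toFinset.2 hφ) ha
  obtain ⟨φ, hφ, hle⟩ := (Ideal.IsPrime.inf_le' ‹_›).1 h1
  exact ⟨φ, hf.mem_toFinset.1 hφ, hle⟩

/-- Membership in the extension of the ideal along an etale map is tested at generic primes. -/
lemma gen3_rad {i} {B : Type u} [CommRing B] [Algebra k B] (s : P.A i →ₐ[k] B)
    (hs : s.toRingHom.Etale) {β : B}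
    (h : ∀ (Ω : Type u) [Field Ω] [Algebra k Ω] (ρ : B →ₐ[k] Ω) (e : Γ.K' →ₐ[k] Ω)
      (φ : P.A i →ₐ[k] Γ.K'), ⟨i, φ⟩ ∈ Γ.S → e.comp φ = ρ.comp s → ρ β = 0) :
    β ∈ (Γ.I i).map s := by
  have e1 := map_radical_of_etale hs (Γ.I i)
  rw [(Γ.I_radical i).radical] at e1
  change β ∈ (Γ.I i).map s.toRingHom
  rw [e1, Ideal.radical_eq_sInf, Ideal.mem_sInf]
  rintro 𝔔 ⟨hle, h𝔔⟩
  obtain ⟨φ, hφ, h1⟩ := Γ.exists_ker_le (Ideal.map_le_iff_le_comap.1 hle)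
  have : (RingHom.ker φ).IsPrime := RingHom.ker_isPrime φ
  obtain ⟨𝔓, h𝔓, h2, h3⟩ :=
    exists_le_comap_eq_of_flat (RingHom.Etale.iff_flat_and_formallyUnramified.1 hs).1 h1
  obtain ⟨Ω, _, _, _, ρ, hρ⟩ := gen3_pt (k := k) 𝔓
  obtain ⟨e, he⟩ := Γ.exists_ext hφ (ρ.comp s) (by
    rw [← h3]; ext a; exact (hρ (s a)).symm)
  exact h2 ((hρ β).1 (h Ω ρ e φ hφ he))

lemma gen3_ev {i j} {Ω : Type u} [Field Ω] [Algebra k Ω] (ρ : P.B i j →ₐ[k] Ω)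
    (e : Γ.K' →ₐ[k] Ω) {φ : P.A i →ₐ[k] Γ.K'} {ψ : P.A j →ₐ[k] Γ.K'}
    (h : P.Rel ⟨i, φ⟩ ⟨j, ψ⟩) (h1 : e.comp φ = ρ.comp (P.s i j))
    (h2 : e.comp ψ = ρ.comp (P.t i j)) (β) : ρ β = e (h.ev β) := by
  have : ρ = e.comp h.ev := PreRel.hom_ext
    (by rw [← h1]; ext a; exact congrArg e (h.ev_s a).symm)
    (by rw [← h2]; ext a; exact congrArg e (h.ev_t a).symm)
  rw [this]; rfl

lemma gen3_complete {i j} {Ω : Type u} [Field Ω] [Algebra k Ω] (e : Γ.K' →ₐ[k] Ω)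
    {φ : P.A i →ₐ[k] Γ.K'} (hφ : ⟨i, φ⟩ ∈ Γ.S) {χ : P.A j →ₐ[k] Ω}
    (h : P.Rel ⟨i, e.comp φ⟩ ⟨j, χ⟩) : ∃ ψ : P.A j →ₐ[k] Γ.K', ⟨j, ψ⟩ ∈ Γ.S ∧ e.comp ψ = χ := by
  obtain ⟨⟨j', ψ⟩, h1, h2⟩ := Γ.complete Ω e _ hφ ⟨j, χ⟩ h
  obtain ⟨rfl, h3⟩ := Sigma.mk.inj h2
  exact ⟨ψ, h1, eq_of_heq h3⟩

theorem mem_map_s {i j} (β : P.B i j) : β ∈ (Γ.I i).map (P.s i j) ↔
    ∀ (φ : P.A i →ₐ[k] Γ.K') (ψ : P.A j →ₐ[k] Γ.K'), ⟨i, φ⟩ ∈ Γ.S → ⟨j, ψ⟩ ∈ Γ.S →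
      ∀ h : P.Rel ⟨i, φ⟩ ⟨j, ψ⟩, h.ev β = 0 := by
  constructor
  · intro hβ φ ψ hφ _ h
    have : (Γ.I i).map (P.s i j) ≤ RingHom.ker h.ev := Ideal.map_le_iff_le_comap.2 fun a ha =>
      (h.ev_s a).trans (Γ.mem_I.1 ha φ hφ)
    exact this hβ
  · intro H
    refine Γ.gen3_rad _ (P.et_s i j) fun Ω _ _ ρ e φ hφ he => ?_
    obtain ⟨ψ, hψ, he'⟩ := Γ.gen3_complete e hφ (he ▸ PreRel.rel_of_hom ρ)
    rw [Γ.gen3_ev ρ e (Γ.rel _ hφ _ hψ) he he', H φ ψ hφ hψ, map_zero]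

theorem mem_map_t {i j} (β : P.B i j) : β ∈ (Γ.I j).map (P.t i j) ↔
    ∀ (φ : P.A i →ₐ[k] Γ.K') (ψ : P.A j →ₐ[k] Γ.K'), ⟨i, φ⟩ ∈ Γ.S → ⟨j, ψ⟩ ∈ Γ.S →
      ∀ h : P.Rel ⟨i, φ⟩ ⟨j, ψ⟩, h.ev β = 0 := by
  constructor
  · intro hβ φ ψ _ hψ h
    have : (Γ.I j).map (P.t i j) ≤ RingHom.ker h.ev := Ideal.map_le_iff_le_comap.2 fun a ha =>
      (h.ev_t a).trans (Γ.mem_I.1 ha ψ hψ)
    exact this hβ
  · intro H
    refine Γ.gen3_rad _ (P.et_t i j) fun Ω _ _ ρ e ψ hψ he => ?_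
    obtain ⟨φ, hφ, he'⟩ := Γ.gen3_complete e hψ (he ▸ P.symm _ _ _ (PreRel.rel_of_hom ρ))
    rw [Γ.gen3_ev ρ e (Γ.rel _ hφ _ hψ) he' he, H φ ψ hφ hψ, map_zero]

theorem inv_I : P.Inv Γ.I := fun _ _ => Ideal.ext fun β =>
  (Γ.mem_map_s β).trans (Γ.mem_map_t β).symm

theorem le_I {I : P.Idl} (hI : P.Inv I) {σ} (hσ : σ ∈ Γ.S) (h : σ.In I) : I ≤ Γ.I :=
  fun _ _ ha => Γ.mem_I.2 fun _ hφ => (hI.in_iff (Γ.rel _ hσ _ hφ)).1 h ha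

theorem isSec_iff {L : P.LB} {a : P.El} : P.IsSec L Γ.I a ↔ Γ.RS L fun σ => σ.val a := by
  constructor
  · intro ha σ hσ τ _ h
    exact ha.val_eq h (Γ.in_I hσ)
  · intro H i j
    refine (Γ.mem_map_s _).2 fun φ ψ hφ hψ h => ?_
    rw [map_sub, map_mul, h.ev_s, h.ev_t, sub_eq_zero]
    exact H _ hφ _ hψ h

theorem rs_of_isSec {L : P.LB} {I : P.Idl} {a : P.El} (ha : P.IsSec L I a) (hI : I ≤ Γ.I) :
    Γ.RS L fun σ => σ.val a := Γ.isSec_iff.1 (ha.mono hI)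

theorem Generic.I_eq {Γ : Gen P} (h : Γ.Generic) : Γ.I = ⊥ := by
  funext i
  obtain ⟨φ, hφ⟩ := h.2 i
  refine eq_bot_iff.2 fun a ha => ?_
  exact h.1 _ hφ ((Γ.mem_I.1 ha φ hφ).trans (map_zero φ).symm)

end Gen

/-- Splitting off a component. -/
theorem exists_component {I : P.Idl} (hI : P.Inv I) (hr : ∀ i, (I i).IsRadical) (h : I ≠ ⊤) :
    ∃ (Γ : Gen P) (𝔠 : P.Idl), P.Inv 𝔠 ∧ (∀ i, (𝔠 i).IsRadical) ∧ I = Γ.I ⊓ 𝔠 ∧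
      ∀ σ ∈ Γ.S, ¬ σ.In 𝔠 := by
  obtain ⟨i, hi⟩ : ∃ i, I i ≠ ⊤ := Function.ne_iff.1 h
  obtain ⟨𝔮, h𝔮⟩ := Ideal.nonempty_minimalPrimes hi
  have := h𝔮.isPrime
  obtain ⟨Γ, φ, hφ, hk⟩ := exists_gen i 𝔮
  have h1 : I ≤ Γ.I := Γ.le_I hI hφ (by change I i ≤ RingHom.ker φ; rw [hk]; exact h𝔮.le)
  have hc := EqRel.inv_colon hI Γ.inv_I
  refine ⟨Γ, _, hc, fun j a ⟨n, hn⟩ => ?_, le_antisymm (le_inf h1 fun j a ha => ?_)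
    fun j a ha => ?_, fun σ hσ hin => ?_⟩
  · refine Submodule.mem_colon.2 fun y hy => hr j ⟨n + 1, ?_⟩
    have h2 := Submodule.mem_colon.1 hn y hy
    rw [smul_eq_mul] at h2 ⊢
    rw [show (a * y) ^ (n + 1) = (a ^ n * y) * (a * y ^ n) by ring]
    exact Ideal.mul_mem_right _ _ h2
  · exact Submodule.mem_colon.2 fun y _ => Ideal.mul_mem_right _ _ ha
  · exact hr j ⟨2, by rw [pow_two]; exact Submodule.mem_colon.1 ha.2 a ha.1⟩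
  · have h2 := (hc.in_iff (Γ.rel _ hσ _ hφ)).1 hin
    obtain ⟨c, hc1, hc2⟩ := gen3_sep (hr i) h𝔮
    refine hc1 (hk ▸ h2 (Submodule.mem_colon.2 fun y hy => hc2 y ?_))
    exact hk ▸ Γ.in_I hφ hy

/-- Noetherian induction on invariant radical families. -/
theorem inv_induction {Q : P.Idl → Prop} (h : ∀ I, P.Inv I → (∀ i, (I i).IsRadical) →
    (∀ J, P.Inv J → (∀ i, (J i).IsRadical) → I < J → Q J) → Q I) {I : P.Idl} (hI : P.Inv I)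
    (hr : ∀ i, (I i).IsRadical) : Q I := by
  have hw : WellFoundedGT P.Idl :=
    (Pi.wellFoundedLT (ι := P.ι) (α := fun i => (Ideal (P.A i))ᵒᵈ) :)
  induction I using hw.induction with
  | ind I ih => exact h I hI hr fun J hJ hJr hlt => ih J hlt hJ hJr

end

end Pool.Agent.Lib.MP_1c03d5_ag
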