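import Pool.Agent.Lib.MP_1c03d5_ag.H97Defs

/-! TASK ANA: the asymptotic inequality and Fujita approximation by Frobenius. -/

namespace C03

universe u

open scoped Nat
open Filter Topology

theorem ana_lim0 (c : ℕ) : Tendsto (fun m : ℕ => ((m : ℝ) + c) / m) atTop (𝓝 1) := by
  simpa [add_comm] using tendsto_add_mul_div_add_mul_atTop_nhds (c : ℝ) 0 1 one_ne_zero

theorem ana_lim1 (d c : ℕ) :
    Tendsto (fun m : ℕ => ((m + c).choose d : ℝ) / m ^ d) atTop (𝓝 (1 / d !)) := by
  have h1 := (Asymptotics.isEquivalent_iff_tendsto_one ?_).1 (isEquivalent_choose d)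
  · have h2 := ((h1.comp (tendsto_add_atTop_nat c)).mul ((ana_lim0 c).pow d)).div_const (d ! : ℝ)
    rw [one_pow, one_mul] at h2
    refine h2.congr' ((eventually_gt_atTop 0).mono fun m hm => ?_)
    have : (0 : ℝ) < m := Nat.cast_pos.2 hm
    simp only [Function.comp_apply, Pi.div_apply, Nat.cast_add, div_pow]
    field_simp
  · refine (eventually_gt_atTop 0).mono fun m hm => ?_
    positivity

theorem ana_lead {d : ℕ} (hd : 0 < d) {α β n0 : ℕ} {γ : ℝ}
    (h : ∀ᶠ m : ℕ in atTop, (α * (m + d).choose d : ℝ) ≤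
      γ * (m + n0) ^ d + (m + n0) * β * (m + n0 + (d - 1)).choose (d - 1)) :
    (α : ℝ) ≤ d ! * γ + d * β := by
  obtain ⟨d, rfl⟩ := Nat.exists_eq_succ_of_ne_zero hd.ne'
  have l1 := (ana_lim1 (d + 1) (d + 1)).const_mul (α : ℝ)
  have l2 := (((ana_lim0 n0).pow (d + 1)).const_mul γ).add
    (((ana_lim0 n0).mul_const (β : ℝ)).mul (ana_lim1 d (n0 + d)))
  have := le_of_tendsto_of_tendsto l1 l2 ((h.and (eventually_gt_atTop 0)).mono fun m hm => by
    have m0 : (0 : ℝ) < m := Nat.cast_pos.2 hm.2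
    have := div_le_div_of_nonneg_right hm.1 (pow_pos m0 (d + 1)).le
    simp only [Nat.succ_eq_add_one, Nat.add_sub_cancel, add_assoc m n0 d] at this
    refine (mul_div_assoc _ _ _).ge.trans (this.trans_eq ?_)
    simp only [div_pow]
    field_simp
    ring)
  have f0 : (0 : ℝ) < d ! := by positivity
  rw [Nat.factorial_succ] at this ⊢
  push_cast at this ⊢
  rw [mul_one_div, div_le_iff₀ (by positivity), one_pow] at this
  refine this.trans_eq ?_
  field_simp

theorem ana_pow (d : ℕ) : ∃ K : ℝ, 0 ≤ K ∧ ∀ x : ℝ, 0 ≤ x → x ≤ 1 →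
    (1 + x) ^ d ≤ 1 + d * x + K * x ^ 2 := by
  induction d with
  | zero => exact ⟨0, le_rfl, fun x _ _ => by simp⟩
  | succ d ih =>
    obtain ⟨K, K0, h⟩ := ih
    refine ⟨d + 2 * K, by positivity, fun x x0 x1 => ?_⟩
    have := mul_le_mul_of_nonneg_right (h x x0 x1) (add_nonneg zero_le_one x0)
    have := mul_le_mul_of_nonneg_left x1 (mul_nonneg K0 (sq_nonneg x))
    rw [pow_succ]
    push_cast
    nlinarith

theorem ana (Φ : ℕ → ℕ) {d m0 n1 r : ℕ} (hd : 0 < d) (hm0 : 0 < m0) {t C C0 : ℝ} (ht : 2 * d < t)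
    (hub : ∀ n, (Φ n : ℝ) ≤ C0 * (n + 1) ^ d) (hpos : ∀ n, n ^ d ≤ d ! * Φ (m0 * (n + n1)))
    (hkey : ∀ a n : ℕ, 0 < n → n ≤ a → ∃ α β n0 : ℕ,
      (∀ m, α * (m + d).choose d ≤
        Φ ((m + n0) * (a + r + n)) + (m + n0) * β * (m + n0 + (d - 1)).choose (d - 1)) ∧
      (d ! * Φ a : ℝ) * (1 + n * t / (2 * (a + r))) ≤
        α - d * β + C * n ^ 2 * (a + r) ^ d / (a + r) ^ 2) : False := by
  let S : ℝ → Prop := fun c => ∀ᶠ n : ℕ in atTop, (Φ n : ℝ) ≤ c * n ^ d
  have f0 : (0 : ℝ) < d ! := by positivity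
  have t0 : 0 < t := lt_of_le_of_lt (by positivity) ht
  have hv : 0 < (d ! : ℝ) * m0 ^ d := by positivity
  have low : ∀ c, S c → 1 ≤ d ! * m0 ^ d * c := by
    intro c hc
    have l := ((ana_lim0 n1).pow d).const_mul (d ! * m0 ^ d * c)
    rw [one_pow, mul_one] at l
    have e := ((tendsto_add_atTop_nat n1).const_mul_atTop' hm0).eventually hc
    refine ge_of_tendsto l ((e.and (eventually_gt_atTop 0)).mono fun n hn => ?_)
    have n0 : (0 : ℝ) < n := Nat.cast_pos.2 hn.2
    have a1 : (n : ℝ) ^ d ≤ d ! * Φ (m0 * (n + n1)) := by exact_mod_cast hpos n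
    have a2 := mul_le_mul_of_nonneg_left hn.1 f0.le
    rw [div_pow, ← mul_div_assoc, le_div_iff₀ (by positivity), one_mul]
    refine a1.trans (a2.trans_eq ?_)
    push_cast
    rw [mul_pow]
    ring
  obtain ⟨K, K0, hK⟩ := ana_pow d
  obtain ⟨x, x0, x1, hx⟩ : ∃ x : ℝ, 0 < x ∧ x ≤ 1 ∧ (K + |C| * m0 ^ d) * x < t / 2 - d := by
    have l : Tendsto (fun x : ℝ => (K + |C| * m0 ^ d) * x) (𝓝[>] 0) (𝓝 0) := by
      simpa using (tendsto_nhdsWithin_of_tendsto_nhds (s := Set.Ioi 0) (a := (0 : ℝ))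
        tendsto_id).const_mul (K + |C| * (m0 : ℝ) ^ d)
    obtain ⟨x, h1, h2⟩ := ((l.eventually (gt_mem_nhds (show 0 < t / 2 - d by linarith))).and
      (Ioc_mem_nhdsGT zero_lt_one)).exists
    exact ⟨x, h2.1, h2.2, h1⟩
  obtain ⟨θ, θ1, θ2⟩ := exists_between (show ((1 + x) ^ d + |C| * m0 ^ d * x ^ 2) /
      (1 + x * t / 2) < 1 by
    rw [div_lt_one (by positivity)]
    nlinarith [hK x x0.le x1, mul_lt_mul_of_pos_right hx x0])
  have θ0 : 0 < θ := lt_of_le_of_lt (by positivity) θ1
  have step : ∀ c, S c → S (θ * c) := by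
    intro c hc
    have c1 := low c hc
    have c0 : 0 < c := pos_of_mul_pos_right (zero_lt_one.trans_le c1) hv.le
    have l1 : Tendsto (fun a : ℕ => (⌊x * a⌋₊ : ℝ) / (a + r)) atTop (𝓝 x) := by
      have := ((tendsto_nat_floor_mul_div_atTop x0.le).comp tendsto_natCast_atTop_atTop).mul
        (tendsto_natCast_div_add_atTop (r : ℝ))
      rw [mul_one] at this
      refine this.congr' ((eventually_gt_atTop 0).mono fun a ha => ?_)
      have : (0 : ℝ) < a := Nat.cast_pos.2 ha
      simp only [Function.comp_apply]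
      field_simp
    have x2 : 0 < 1 + x * t / 2 := by positivity
    have l2 := ((((l1.const_add 1).pow d).const_mul c).add ((l1.pow 2).const_mul (C / d !))).mul
      ((ana_lim0 r).pow d) |>.div (((l1.mul_const t).div_const 2).const_add 1) x2.ne'
    have lt : (c * (1 + x) ^ d + C / d ! * x ^ 2) * 1 ^ d / (1 + x * t / 2) < θ * c := by
      refine lt_of_le_of_lt ?_ (mul_lt_mul_of_pos_right θ1 c0)
      rw [one_pow, mul_one, div_mul_eq_mul_div _ _ c]
      refine div_le_div_of_nonneg_right ?_ x2.le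
      have : C / d ! ≤ |C| * m0 ^ d * c := by
        rw [div_le_iff₀ f0]
        nlinarith [le_abs_self C, mul_le_mul_of_nonneg_left c1 (abs_nonneg C)]
      nlinarith [mul_le_mul_of_nonneg_right this (sq_nonneg x)]
    filter_upwards [l2.eventually (gt_mem_nhds lt), l1.eventually (lt_mem_nhds x0),
      eventually_gt_atTop 0] with a h1 h2 h3
    have a0 : (0 : ℝ) < a := Nat.cast_pos.2 h3
    have n0 : 0 < ⌊x * a⌋₊ := Nat.pos_of_ne_zero fun e => by simp [e] at h2
    have na : ⌊x * a⌋₊ ≤ a := Nat.floor_le_of_le (mul_le_of_le_one_left a0.le x1)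
    simp only [Pi.div_apply] at h1
    generalize ⌊x * a⌋₊ = n at h1 n0 na
    obtain ⟨α, β, n2, k1, k2⟩ := hkey a n n0 na
    have k3 := ana_lead hd (α := α) (β := β) (n0 := n2) (γ := c * (a + r + n) ^ d) <| by
      have e := ((tendsto_add_atTop_nat n2).atTop_mul_const' (show 0 < a + r + n by omega)).eventually
        hc
      refine e.mono fun m hm => ?_
      have k : (α * (m + d).choose d : ℝ) ≤
          Φ ((m + n2) * (a + r + n)) + (m + n2) * β * (m + n2 + (d - 1)).choose (d - 1) := by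
        exact_mod_cast k1 m
      refine k.trans (add_le_add_left (hm.trans_eq ?_) _)
      push_cast
      rw [mul_pow]
      ring
    have s0 : (0 : ℝ) < a + r := by positivity
    rw [div_lt_iff₀ (by positivity), div_pow _ (a : ℝ), ← mul_div_assoc,
      div_lt_iff₀ (by positivity)] at h1
    have e1 : (d ! : ℝ) * ((c * (1 + n / (a + r)) ^ d + C / d ! * (n / (a + r)) ^ 2) * (a + r) ^ d) =
        d ! * (c * (a + r + n) ^ d) + C * n ^ 2 * (a + r) ^ d / (a + r) ^ 2 := by
      rw [show (1 : ℝ) + n / (a + r) = (a + r + n) / (a + r) by field_simp, div_pow]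
      field_simp
    have e2 : (1 : ℝ) + n * t / (2 * (a + r)) = 1 + n / (a + r) * t / 2 := by field_simp
    have p0 : (0 : ℝ) < 1 + n / (a + r) * t / 2 := by positivity
    have := mul_lt_mul_of_pos_left h1 f0
    rw [e2] at k2
    refine le_of_mul_le_mul_left (le_of_mul_le_mul_right ?_ p0) f0
    linarith
  have h0 : S (C0 * 2 ^ d) := (eventually_ge_atTop 1).mono fun n hn => by
    have n1 : (1 : ℝ) ≤ n := Nat.one_le_cast.2 hn
    have C1 : 0 ≤ C0 := by simpa using (Nat.cast_nonneg _).trans (hub 0)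
    rw [mul_assoc, ← mul_pow]
    exact (hub n).trans (mul_le_mul_of_nonneg_left (pow_le_pow_left₀ (by positivity) (by linarith) d) C1)
  have all : ∀ j : ℕ, S (θ ^ j * (C0 * 2 ^ d)) := fun j => by
    induction j with
    | zero => rwa [pow_zero, one_mul]
    | succ j ih => rw [pow_succ', mul_assoc]; exact step _ ih
  have l := ((tendsto_pow_atTop_nhds_zero_of_lt_one θ0.le θ2).mul_const (C0 * 2 ^ d)).const_mul
    ((d ! : ℝ) * m0 ^ d)
  have := ge_of_tendsto' l fun j => low _ (all j)
  norm_num at this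

/-- Comparison of leading coefficients. -/
theorem lead_le {d : ℕ} (hd : 0 < d) {α β n0 : ℕ}
    (h : ∀ m, α * (m + d).choose d ≤ (m + n0) * β * (m + n0 + (d - 1)).choose (d - 1)) :
    α ≤ d * β := by
  have := ana_lead hd (α := α) (β := β) (n0 := n0) (γ := 0) (Eventually.of_forall fun m => by
    rw [zero_mul, zero_add]
    exact_mod_cast h m)
  rw [mul_zero, zero_add] at this
  exact_mod_cast this

theorem lead_le' {d p : ℕ} (hp : 1 < p) {α f : ℕ}
    (h : ∀ e, (p ^ e) ^ d * f ≤ α * (p ^ e + d).choose d) : d ! * f ≤ α := by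
  have l := ((ana_lim1 d d).const_mul (α : ℝ)).comp (tendsto_pow_atTop_atTop_of_one_lt hp)
  have := ge_of_tendsto' (b := (f : ℝ)) l fun e => by
    have p0 : (0 : ℝ) < ((p ^ e : ℕ) : ℝ) ^ d := by positivity
    simp only [Function.comp_apply]
    rw [← mul_div_assoc, le_div_iff₀' p0]
    exact_mod_cast h e
  rw [mul_one_div, le_div_iff₀' (by positivity)] at this
  exact_mod_cast this

open MvPolynomial in
theorem ana_poly {k : Type u} [Field k] {q d : ℕ} (hq : 0 < q)
    (Q : (Fin d → Fin q) → MvPolynomial (Fin d) k)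
    (h : ∑ α, expand q (Q α) * ∏ a, X a ^ (α a : ℕ) = 0) (α : Fin d → Fin q) : Q α = 0 := by
  let f : (Fin d → Fin q) → Fin d →₀ ℕ := fun α => Finsupp.equivFunOnFinite.symm fun a => α a
  have e : ∀ α : Fin d → Fin q, ∏ a, X a ^ (α a : ℕ) = monomial (f α) (1 : k) := fun α => by
    rw [monomial_eq, C_1, one_mul, Finsupp.prod_fintype _ _ fun _ => pow_zero _]
    rfl
  ext m
  have := congrArg (coeff (q • m + f α)) h
  rw [coeff_sum, Finset.sum_eq_single α (fun α' _ ne => ?_) (by simp), e, coeff_mul_monomial,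
    mul_one, coeff_expand_smul _ hq.ne'] at this
  · exact this
  rw [e, coeff_mul_monomial']
  split_ifs with c
  · obtain ⟨a, ha⟩ := Function.ne_iff.1 ne
    rw [coeff_expand_of_not_dvd (i := a) _ fun k => ha (Fin.ext ?_), zero_mul]
    have := (Nat.modEq_iff_dvd' (c a)).2 k
    change (α' a : ℕ) ≡ q * m a + α a [MOD q] at this
    rwa [Nat.ModEq, Nat.mul_add_mod, Nat.mod_eq_of_lt (α a).2, Nat.mod_eq_of_lt (α' a).2] at this
  · rfl

open MvPolynomial in
theorem ana_field {k K : Type u} [Field k] [Field K] [Algebra k K] (p e : ℕ) [ExpChar k p] {d : ℕ}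
    {hh : Fin d → K} (hind : AlgebraicIndependent k hh) (g : (Fin d → Fin (p ^ e)) → K)
    (hg : ∀ α, g α ∈ IntermediateField.adjoin k (Set.range hh))
    (h : ∑ α, g α ^ p ^ e * ∏ a, hh a ^ (α a : ℕ) = 0) (α : Fin d → Fin (p ^ e)) : g α = 0 := by
  have : ∀ α, ∃ r s : MvPolynomial (Fin d) k, aeval hh s ≠ 0 ∧ g α * aeval hh s = aeval hh r := by
    intro α
    obtain ⟨r, s, e⟩ := (IntermediateField.mem_adjoin_range_iff k hh _).1 (hg α)
    by_cases c : aeval hh s = 0
    · exact ⟨0, 1, by simp, by simp [e, c]⟩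
    · exact ⟨r, s, c, by rw [e, div_mul_cancel₀ _ c]⟩
  choose r s hs hr using this
  have hQ : ∀ α, aeval hh (r α * ∏ β ∈ Finset.univ.erase α, s β) = g α * ∏ β, aeval hh (s β) :=
    fun α => by
      rw [map_mul, ← hr, map_prod, mul_assoc,
        Finset.mul_prod_erase _ (fun β => aeval hh (s β)) (Finset.mem_univ α)]
  have q0 : 0 < p ^ e := pow_pos (expChar_pos k p) e
  have := ana_poly q0 (fun α => map (iterateFrobenius k p e) (r α * ∏ β ∈ Finset.univ.erase α, s β))
    (hind <| by
      rw [map_sum, map_zero, ← zero_mul ((∏ β, aeval hh (s β)) ^ p ^ e), ← h, Finset.sum_mul]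
      refine Finset.sum_congr rfl fun α _ => ?_
      rw [← map_expand, map_iterateFrobenius_expand, map_mul, map_pow, hQ, map_prod, mul_pow,
        mul_right_comm]
      simp only [map_pow, aeval_X]) α
  have h2 := map_iterateFrobenius_expand p (r α * ∏ β ∈ Finset.univ.erase α, s β) e
  rw [map_expand, this, map_zero] at h2
  have h3 := hQ α
  rw [pow_eq_zero_iff q0.ne' |>.1 h2.symm, map_zero] at h3
  exact (mul_eq_zero.1 h3.symm).resolve_right (Finset.prod_ne_zero_iff.2 fun β _ => hs β)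

theorem ana_sep {k K : Type u} [Field k] [Field K] [Algebra k K] (p e : ℕ) [ExpChar k p] {d : ℕ}
    {hh : Fin d → K} (hind : AlgebraicIndependent k hh)
    (hsep : Algebra.IsSeparable (IntermediateField.adjoin k (Set.range hh)) K)
    (y : (Fin d → Fin (p ^ e)) → K)
    (h : ∑ α, y α ^ p ^ e * ∏ a, hh a ^ (α a : ℕ) = 0) (α : Fin d → Fin (p ^ e)) : y α = 0 := by
  classical
  set F := IntermediateField.adjoin k (Set.range hh)
  have : ExpChar K p := expChar_of_injective_algebraMap (algebraMap k K).injective p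
  have : ExpChar F p := expChar_of_injective_algebraMap (algebraMap k F).injective p
  let B := Module.Basis.ofVectorSpace F K
  let t := Finset.univ.biUnion fun α => (B.repr (y α)).support
  have hy : ∀ α, y α = ∑ i ∈ t, B.repr (y α) i • B i := fun α => by
    conv_lhs => rw [← B.linearCombination_repr (y α), Finsupp.linearCombination_apply]
    exact Finsupp.sum_of_support_subset _
      (Finset.subset_biUnion_of_mem (fun α => (B.repr (y α)).support) (Finset.mem_univ α)) _
      fun _ _ => zero_smul _ _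
  let η : Fin d → F := fun a => ⟨hh a, IntermediateField.subset_adjoin _ _ ⟨a, rfl⟩⟩
  have key := linearIndependent_iff'.1
    (B.linearIndependent.map_pow_expChar_pow_of_isSeparable p e) t
    (fun i => ∑ α, B.repr (y α) i ^ p ^ e * ∏ a, η a ^ (α a : ℕ)) <| by
      simp only [Finset.sum_smul]
      rw [Finset.sum_comm, ← h]
      refine Finset.sum_congr rfl fun α _ => ?_
      conv_rhs => rw [hy α, sum_pow_char_pow, Finset.sum_mul]
      refine Finset.sum_congr rfl fun i _ => ?_
      simp only [Algebra.smul_def, map_mul, map_pow, map_prod, mul_pow]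
      exact mul_right_comm _ _ _
  rw [hy α]
  refine Finset.sum_eq_zero fun i hi => ?_
  have := ana_field p e hind (fun α => (B.repr (y α) i : K)) (fun α => (B.repr (y α) i).2)
    (by simpa [η] using congrArg (algebraMap F K) (key i hi)) α
  rw [Algebra.smul_def]
  exact mul_eq_zero_of_left this _

theorem fujita {k K : Type u} [Field k] [Field K] [Algebra k K] [PerfectField k] (p : ℕ)
    [Fact p.Prime] [CharP k p] {d : ℕ} {hh : Fin d → K} (hind : AlgebraicIndependent k hh)
    (hsep : Algebra.IsSeparable (IntermediateField.adjoin k (Set.range hh)) K) (e : ℕ) {β : Type}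
    {b : β → K} (hb : LinearIndependent k b) :
    LinearIndependent k fun x : β × (Fin d → Fin (p ^ e)) =>
      b x.1 ^ p ^ e * ∏ a, hh a ^ (x.2 a : ℕ) := by
  classical
  have : ExpChar K p := expChar_of_injective_algebraMap (algebraMap k K).injective p
  refine linearIndependent_iff''.2 fun s g hg h x => ?_
  obtain ⟨c, hc⟩ : ∃ c : β × (Fin d → Fin (p ^ e)) → k, ∀ x, c x ^ p ^ e = g x :=
    ⟨fun x => (iterateFrobeniusEquiv k p e).symm (g x), fun x =>
      (iterateFrobeniusEquiv k p e).apply_symm_apply (g x)⟩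
  have key := ana_sep p e hind hsep (fun α => ∑ j ∈ insert x.1 (s.image Prod.fst), c (j, α) • b j)
    (by
      rw [← h, Finset.sum_subset (s₂ := insert x.1 (s.image Prod.fst) ×ˢ Finset.univ)
        (fun z hz => Finset.mem_product.2 ⟨Finset.mem_insert_of_mem (Finset.mem_image_of_mem _ hz),
          Finset.mem_univ _⟩) fun z _ hz => by rw [hg z hz, zero_smul], Finset.sum_product_right]
      refine Finset.sum_congr rfl fun α _ => ?_
      rw [sum_pow_char_pow, Finset.sum_mul]
      refine Finset.sum_congr rfl fun j _ => ?_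
      rw [smul_pow, hc, smul_mul_assoc]) x.2
  rw [← hc, linearIndependent_iff'.1 hb _ _ key x.1 (Finset.mem_insert_self _ _),
    zero_pow (pow_pos (expChar_pos k p) e).ne']

end C03
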