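import Pool.Agent.Lib.MP_1c03d5_ag.H97Mul
import Pool.Agent.Lib.MP_1c03d5_ag.H97Ana

/-! TASK BDPP: nonnegative on all movable curves implies almost effective. -/

namespace C03

universe u

open scoped Pointwise
open Module Function

section aux

theorem bdpp_fr_le {Ω : Type u} [Field Ω] {κ : Subfield Ω} {V W : Submodule κ Ω} [Module.Finite κ W]
    {s : Ω} (hs : s ≠ 0) (h : ∀ x ∈ V, s * x ∈ W) : finrank κ V ≤ finrank κ W := by
  refine LinearMap.finrank_le_finrank_of_injective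
    (f := ((LinearMap.mulLeft κ s).domRestrict V).codRestrict W fun x => h x x.2) ?_
  intro x y e
  exact Subtype.ext (mul_left_cancel₀ hs (congrArg Subtype.val e))

theorem bdpp_sp_congr {K Ω : Type u} [Field K] [Field Ω] [Algebra K Ω] {κ κ' : Subfield Ω}
    (e : κ = κ') (U : Finset K) : finrank κ (sp κ U) = finrank κ' (sp κ' U) := by
  subst e; rfl

theorem bdpp_pow_le (n d : ℕ) : n ^ d ≤ d.factorial * (n + d).choose d := by
  rw [← Nat.ascFactorial_eq_factorial_mul_choose]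
  exact (Nat.pow_le_pow_left n.le_succ d).trans (Nat.pow_succ_le_ascFactorial _ _)

theorem bdpp_choose_le (n A d : ℕ) : (n * A + d).choose d ≤ (A + d) ^ d * (n + 1) ^ d := by
  rw [← mul_pow]
  exact (Nat.choose_le_pow _ _).trans (Nat.pow_le_pow_left (by nlinarith) d)

theorem bdpp_arith {d n a' A0 B lam t al eta α β1 β2 γ G f : ℕ} (hd : 0 < d) (hn : 0 < n)
    (hna : n ≤ a') (hA0 : A0 = lam * B + t) (ht : 0 < t) (hf : f ≤ al)
    (h1 : al ≤ d * (2 * a' * eta)) (h2 : al + n * A0 * (d * eta) ≤ α)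
    (h4 : (a' + n) * A0 * β1 ≤
      (a' + n) * A0 * β2 + d * (n * A0) * ((a' + n) * A0) ^ (d - 1) * γ)
    (h5 : β2 ≤ lam * eta) (h6 : γ ≤ G) :
    (f : ℝ) * (1 + n * t / (2 * a')) ≤ α - d * (n * B * β1 : ℕ) +
      (d ^ 2 * B * (2 * A0) ^ (d - 1) * G : ℕ) * n ^ 2 * (a' : ℝ) ^ d / (a' : ℝ) ^ 2 := by
  obtain ⟨e, rfl⟩ : ∃ e, d = e + 1 := ⟨d - 1, by omega⟩
  rw [Nat.add_sub_cancel] at h4 ⊢
  have hA : 0 < A0 := by omega
  have ha : 0 < a' := by omega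
  have h7 : a' * β1 ≤ a' * (lam * eta) + (e + 1) * n * (2 * A0) ^ e * a' ^ e * G := by
    rcases le_total β1 (lam * eta) with h | h
    · exact (Nat.mul_le_mul_left _ h).trans (Nat.le_add_right _ _)
    obtain ⟨u, rfl⟩ := Nat.exists_eq_add_of_le h
    rw [mul_add]
    refine Nat.add_le_add_left (Nat.le_of_mul_le_mul_left ?_ hA) _
    have e1 : ((a' + n) * A0) ^ e ≤ (2 * A0) ^ e * a' ^ e := by
      rw [← mul_pow]
      exact Nat.pow_le_pow_left (by nlinarith) e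
    have e2 : (e + 1) * (n * A0) * ((a' + n) * A0) ^ e * γ ≤
        (e + 1) * (n * A0) * ((2 * A0) ^ e * a' ^ e) * G := by gcongr
    have e3 : (a' + n) * A0 * β2 ≤ (a' + n) * A0 * (lam * eta) := Nat.mul_le_mul_left _ h5
    have e4 : A0 * (a' * u) ≤ (a' + n) * A0 * u := by nlinarith [Nat.zero_le (n * A0 * u)]
    rw [mul_add] at h4
    calc A0 * (a' * u) ≤ (e + 1) * (n * A0) * ((2 * A0) ^ e * a' ^ e) * G := by omega
      _ = _ := by ring
  have ha' : (0 : ℝ) < a' := by exact_mod_cast ha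
  have hf' : (f : ℝ) ≤ al := by exact_mod_cast hf
  have h1' : (al : ℝ) ≤ (e + 1) * (2 * a' * eta) := by exact_mod_cast h1
  have h2' : (al : ℝ) + n * (lam * B + t) * ((e + 1) * eta) ≤ α := by
    rw [hA0] at h2; exact_mod_cast h2
  have h7' : (β1 : ℝ) ≤ lam * eta + (e + 1) * n * (2 * A0) ^ e * a' ^ e * G / a' := by
    rw [← sub_le_iff_le_add', le_div_iff₀ ha']
    have : (a' : ℝ) * β1 ≤ a' * (lam * eta) + (e + 1) * n * (2 * A0) ^ e * a' ^ e * G := by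
      exact_mod_cast h7
    linarith
  have h8 : (al : ℝ) * (n * t / (2 * a')) ≤ (e + 1) * eta * (n * t) := by
    rw [← mul_div_assoc, div_le_iff₀ (by positivity)]
    have := mul_le_mul_of_nonneg_right h1' (show (0 : ℝ) ≤ n * t by positivity)
    linarith
  have h9 : (f : ℝ) * (1 + n * t / (2 * a')) ≤ al * (1 + n * t / (2 * a')) :=
    mul_le_mul_of_nonneg_right hf' (by positivity)
  have h10 := mul_le_mul_of_nonneg_left h7' (show (0 : ℝ) ≤ (e + 1) * (n * B) by positivity)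
  have h11 : (((e + 1) ^ 2 * B * (2 * A0) ^ e * G : ℕ) : ℝ) * n ^ 2 * (a' : ℝ) ^ (e + 1) /
      (a' : ℝ) ^ 2 = (e + 1) * (n * B) * ((e + 1) * n * (2 * A0) ^ e * a' ^ e * G / a') := by
    push_cast
    field_simp
    ring
  rw [h11]
  push_cast
  nlinarith

variable {Γ : Type*} [LinearOrderedCommGroupWithZero Γ] {s x y h r w : Γ}

theorem bdpp_v1 {m A B N : ℕ} (hs : s * (r ^ (m * B) * h) ≤ h ^ (m * A)) (hx : x ≤ h ^ N) :
    s ^ N * x * r ^ (m * N * B) ≤ h ^ (m * N * A) :=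
  calc s ^ N * x * r ^ (m * N * B) ≤ s ^ N * h ^ N * r ^ (m * N * B) := by gcongr
    _ = (s * (r ^ (m * B) * h)) ^ N := by
      rw [mul_pow, mul_pow, ← pow_mul, mul_right_comm m B N]; ac_rfl
    _ ≤ (h ^ (m * A)) ^ N := by gcongr
    _ = _ := by rw [← pow_mul, mul_right_comm]

theorem bdpp_v2 {m a d A B : ℕ} (hh : 0 < h) (hs : s * (r ^ (m * B) * h) ≤ h ^ (m * A))
    (hy : y * w * r ^ (a * B) ≤ h ^ (a * A) * h ^ d) :
    y * s ^ d * (r ^ ((a + d * m) * B) * w) ≤ h ^ ((a + d * m) * A) := by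
  refine le_of_mul_le_mul_right ?_ (pow_pos hh d)
  calc y * s ^ d * (r ^ ((a + d * m) * B) * w) * h ^ d
      = y * w * r ^ (a * B) * (s * (r ^ (m * B) * h)) ^ d := by
        rw [mul_pow, mul_pow, ← pow_mul, add_mul, pow_add, mul_assoc d m B, mul_comm d (m * B)]
        simp only [mul_comm, mul_left_comm, mul_assoc]
    _ ≤ h ^ (a * A) * h ^ d * (h ^ (m * A)) ^ d := by gcongr
    _ = _ := by
        rw [← pow_mul, add_mul, pow_add, mul_assoc d m A, mul_comm d (m * A),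
          mul_right_comm]

theorem bdpp_v3 {a A B N : ℕ} (hs : s * (r ^ (a * B) * w) ≤ h ^ (a * A))
    (hx : x * (h ^ (2 * a)) ^ N ≤ w ^ N) :
    s ^ N * x * (r ^ (a * N * B) * h ^ (2 * (a * N))) ≤ h ^ (a * N * A) :=
  calc s ^ N * x * (r ^ (a * N * B) * h ^ (2 * (a * N)))
      = s ^ N * r ^ (a * N * B) * (x * (h ^ (2 * a)) ^ N) := by
        rw [← pow_mul, mul_assoc 2 a N]; ac_rfl
    _ ≤ s ^ N * r ^ (a * N * B) * w ^ N := by gcongr
    _ = (s * (r ^ (a * B) * w)) ^ N := by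
        rw [mul_pow, mul_pow, ← pow_mul, mul_right_comm a B N, mul_assoc]
    _ ≤ (h ^ (a * A)) ^ N := by gcongr
    _ = _ := by rw [← pow_mul, mul_right_comm]

theorem bdpp_v4 {a n A B N : ℕ} (hs : s * (r ^ (a * B) * w) ≤ h ^ (a * A))
    (hx : x * (r ^ (n * B)) ^ N ≤ (w * h ^ (n * A)) ^ N) :
    s ^ N * x * r ^ (N * (a + n) * B) ≤ h ^ (N * (a + n) * A) :=
  calc s ^ N * x * r ^ (N * (a + n) * B)
      = (s * r ^ (a * B)) ^ N * (x * (r ^ (n * B)) ^ N) := by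
        rw [mul_assoc N, mul_comm N, pow_mul, add_mul, pow_add, mul_pow, mul_pow]
        simp only [mul_comm, mul_left_comm, mul_assoc]
    _ ≤ (s * r ^ (a * B)) ^ N * (w * h ^ (n * A)) ^ N := by gcongr
    _ = (s * (r ^ (a * B) * w) * h ^ (n * A)) ^ N := by rw [← mul_pow]; ac_rfl
    _ ≤ (h ^ (a * A) * h ^ (n * A)) ^ N := by gcongr
    _ = _ := by rw [← pow_add, ← add_mul, ← pow_mul, mul_assoc N, mul_comm N]

theorem bdpp_v5 {a n A B : ℕ} (hr : 1 ≤ r) (hs : s * (r ^ (a * B) * w) ≤ h ^ (a * A)) :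
    s * (w * h ^ (n * A)) ≤ h ^ ((a + n) * A) :=
  calc s * (w * h ^ (n * A)) = s * (1 * w) * h ^ (n * A) := by rw [one_mul, mul_assoc]
    _ ≤ s * (r ^ (a * B) * w) * h ^ (n * A) := by gcongr; exact one_le_pow_of_one_le' hr _
    _ ≤ h ^ (a * A) * h ^ (n * A) := by gcongr
    _ = _ := by rw [← pow_add, add_mul]

theorem bdpp_v6 {m A : ℕ} (hm : 0 < m) (hh : 1 ≤ h) (hx : x * (r * h ^ (2 * m)) ≤ h ^ (m * (A + 1))) :
    x * (r * h) ≤ h ^ (m * A) := by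
  refine le_of_mul_le_mul_right ?_ (pow_pos (zero_lt_one.trans_le hh) m)
  calc x * (r * h) * h ^ m ≤ x * (r * h ^ m) * h ^ m := by gcongr; exact le_self_pow hh hm.ne'
    _ = x * (r * h ^ (2 * m)) := by rw [two_mul, pow_add]; ac_rfl
    _ ≤ _ := by rwa [← pow_add, ← mul_add_one]

theorem bdpp_v7 {ρ B A : ℕ} (hh : 1 ≤ h) (hx : x * r ≤ h ^ ρ) :
    x ^ B * (r ^ (1 * B) * h) ≤ h ^ (1 * (A + (ρ * B + 1))) :=
  calc x ^ B * (r ^ (1 * B) * h) = (x * r) ^ B * h := by rw [one_mul, mul_pow, mul_assoc]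
    _ ≤ (h ^ ρ) ^ B * h := by gcongr
    _ = h ^ (ρ * B + 1) := by rw [pow_succ, pow_mul]
    _ ≤ _ := pow_le_pow_right' hh (by omega)

end aux

namespace Ctx

variable {k K Ω : Type u} [Field k] [Field K] [Field Ω] [Algebra k K] [Algebra K Ω] {d : ℕ}
  [DecidableEq K] (c : Ctx k K Ω d)

theorem bdpp_fin (N : ℕ) {Q : Finset K} (hQ : (1 : K) ∈ Q) :
    Module.Finite c.k0 (c.cs0 (c.H ^ N) Q) ∧
      finrank c.k0 (c.cs0 (c.H ^ N) Q) ≤ c.II (fun _ => c.H) * (N + d).choose d := by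
  obtain ⟨h1, h2⟩ := c.ub0 (P := c.H) subset_rfl N
  have h3 : c.cs0 (c.H ^ N) Q ≤ c.cs0 (c.H ^ N) 1 := by
    have := cs_anti (c.kst_le ∅ fun _ => ∅) (c.H ^ N) 1 hQ
    rwa [one_mul] at this
  exact ⟨Submodule.finiteDimensional_of_le h3, (Submodule.finrank_mono h3).trans h2⟩

theorem bdpp_pos {R : Finset K} (hR : c.H ⊆ R) {m A B : ℕ} {s : Ω} (hs0 : s ≠ 0)
    (hs : s ∈ c.cs0 (c.H ^ (m * A)) (R ^ (m * B) * c.H)) : ∃ n1, ∀ n, n ^ d ≤
      d.factorial * finrank c.k0 (c.cs0 (c.H ^ (m * (n + n1) * A)) (R ^ (m * (n + n1) * B))) := by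
  obtain ⟨n1, h⟩ := c.lb (J := ∅) (U := fun _ => c.H) (fun _ => subset_rfl) subset_rfl
    fun _ _ => rfl
  refine ⟨n1, fun n => (bdpp_pow_le n d).trans (Nat.mul_le_mul_left _ ?_)⟩
  have h1 := h n
  rw [Finset.compl_empty, Finset.card_univ, Fintype.card_fin,
    bdpp_sp_congr (c.kst_congr (U' := fun _ => ∅) (by simp))] at h1
  refine (Nat.le_mul_of_pos_left _ (c.II_pos fun _ => subset_rfl)).trans (h1.trans ?_)
  have := (c.bdpp_fin (m * (n + n1) * A) (one_mem_pow (hR c.one_mem) (m * (n + n1) * B))).1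
  refine bdpp_fr_le (pow_ne_zero (n + n1) hs0) fun x hx => ⟨mul_mem (pow_mem hs.1 _)
    (sp_le_fsub (c.kst_le ∅ _) (c.alg_mem ∅) _ hx), fun O hO => ?_⟩
  have e1 := hs.2 O hO
  have e2 := le_nrm_of_mem_sp hO hx
  simp only [nrm_mul, nrm_pow, map_mul, map_pow] at e1 e2 ⊢
  exact bdpp_v1 e1 e2

theorem bdpp_fuj [PerfectField k] (p : ℕ) [Fact p.Prime] [CharP k p] (hd : 0 < d)
    {R : Finset K} (hR : c.H ⊆ R) {m A0 B a : ℕ} {s : Ω} (hs0 : s ≠ 0)
    (hs : s ∈ c.cs0 (c.H ^ (m * A0)) (R ^ (m * B) * c.H))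
    (ha : 0 < finrank c.k0 (c.cs0 (c.H ^ (a * A0)) (R ^ (a * B)))) :
    ∃ (A : Finset K) (s' : Ω), c.H ⊆ A ∧ s' ≠ 0 ∧
      s' ∈ c.cs0 (c.H ^ ((a + d * m) * A0)) (R ^ ((a + d * m) * B) * A) ∧
      d.factorial * finrank c.k0 (c.cs0 (c.H ^ (a * A0)) (R ^ (a * B))) ≤ c.II fun _ => A := by
  have := (c.bdpp_fin (a * A0) (one_mem_pow (hR c.one_mem) (a * B))).1
  let b := Module.finBasis c.k0 (c.cs0 (c.H ^ (a * A0)) (R ^ (a * B)))
  choose y hy using fun j => c.mem_Kst_empty.1 (b j).2.1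
  have hli : LinearIndependent k y := by
    rw [c.li_iff]
    simp only [hy]
    exact b.linearIndependent.map' (Submodule.subtype _) (Submodule.ker_subtype _)
  have h0 : y ⟨0, ha⟩ ≠ 0 := hli.ne_zero _
  have hli' : LinearIndependent k fun j => y j * (y ⟨0, ha⟩)⁻¹ :=
    hli.map' (LinearMap.mulRight k (y ⟨0, ha⟩)⁻¹) (LinearMap.ker_eq_bot.2 fun _ _ e =>
      mul_right_cancel₀ (inv_ne_zero h0) e)
  let A : Finset K := c.H ∪ Finset.univ.image fun x : _ × Finset (Fin d) =>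
    y x.1 * (y ⟨0, ha⟩)⁻¹ * ∏ i ∈ x.2, c.hh i
  refine ⟨A, algebraMap K Ω (y ⟨0, ha⟩) * s ^ d, Finset.subset_union_left,
    mul_ne_zero ((map_ne_zero _).2 h0) (pow_ne_zero _ hs0),
    ⟨mul_mem (c.alg_mem _ _) (pow_mem hs.1 _), fun O hO => ?_⟩, ?_⟩
  · have e1 := hs.2 O hO
    have h1 : 1 ≤ nrm O c.H := one_le_nrm c.one_mem
    have e2 : ∀ j, O.valuation (algebraMap K Ω (y j)) * nrm O R ^ (a * B) ≤
        nrm O c.H ^ (a * A0) := fun j => by
      have := (b j).2.2 O hO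
      rwa [← hy, nrm_pow, nrm_pow] at this
    obtain ⟨x, hx, e3⟩ := exists_nrm (O := O) (U := A) ⟨1, Finset.mem_union_left _ c.one_mem⟩
    simp only [nrm_mul, nrm_pow, map_mul, map_pow] at e1 ⊢
    refine bdpp_v2 (nrm_pos c.one_mem) e1 ?_
    rw [e3]
    rcases Finset.mem_union.1 hx with hx | hx
    · rw [mul_right_comm]
      exact mul_le_mul' (e2 _) ((le_nrm hx).trans (le_self_pow h1 hd.ne'))
    · obtain ⟨⟨j, T⟩, -, rfl⟩ := Finset.mem_image.1 hx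
      rw [← map_mul, ← map_mul, ← mul_assoc, mul_comm (y _), inv_mul_cancel_right₀ h0, map_mul,
        map_mul, mul_right_comm]
      refine mul_le_mul' (e2 j) ?_
      rw [map_prod, map_prod]
      refine (Finset.prod_le_pow_card _ _ _ fun i _ => le_nrm (c.hh_mem i)).trans
        (pow_le_pow_right' h1 ?_)
      simpa using T.card_le_univ
  · have := c.fujita_le p hd hli' (A := A) Finset.subset_union_left fun j T =>
      Finset.mem_union_right _ (Finset.mem_image.2 ⟨(j, T), Finset.mem_univ _, rfl⟩)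
    rwa [Fintype.card_fin] at this

theorem bdpp_siu1 (hd : 0 < d) {R A : Finset K} (hA : c.H ⊆ A) {a A0 B : ℕ} (ha : 0 < a) {s : Ω}
    (hs0 : s ≠ 0) (hs : s ∈ c.cs0 (c.H ^ (a * A0)) (R ^ (a * B) * A))
    (hno : ∀ m, 0 < m → c.cs0 (c.H ^ (m * A0)) (R ^ (m * B) * c.H ^ (2 * m)) = ⊥) (i : Fin d) :
    c.II (fun _ => A) ≤ d * (2 * a * c.II (update (fun _ => A) i c.H)) := by
  obtain ⟨n0, h⟩ := c.siu i hA (sub_pow c.one_mem subset_rfl (n := 2 * a) (by omega))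
  rw [← c.II_pow (fun _ => hA) i subset_rfl (by omega)]
  refine lead_le hd (n0 := 1 + n0) fun m => ?_
  have h1 := h (m + 1)
  have h2 : c.cs0 (A ^ (m + 1 + n0)) ((c.H ^ (2 * a)) ^ (m + 1 + n0)) = ⊥ := by
    refine (Submodule.eq_bot_iff _).2 fun x hx => ?_
    refine (mul_eq_zero.1 ((Submodule.eq_bot_iff _).1 (hno (a * (m + 1 + n0)) (by positivity))
      (s ^ (m + 1 + n0) * x) ⟨mul_mem (pow_mem hs.1 _) hx.1, fun O hO => ?_⟩)).resolve_left
      (pow_ne_zero _ hs0)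
    have e1 := hs.2 O hO
    have e2 := hx.2 O hO
    simp only [nrm_mul, nrm_pow, map_mul, map_pow] at e1 e2 ⊢
    exact bdpp_v3 e1 e2
  rw [h2, finrank_bot, zero_add, add_assoc m 1 n0] at h1
  exact (Nat.mul_le_mul_left _ (Nat.choose_le_choose d (by omega))).trans h1

theorem bdpp_siu2 {R A : Finset K} (hR : c.H ⊆ R) (hA : c.H ⊆ A) {a n A0 B : ℕ} (hn : 0 < n * B)
    {s : Ω} (hs0 : s ≠ 0) (hs : s ∈ c.cs0 (c.H ^ (a * A0)) (R ^ (a * B) * A)) (i : Fin d) :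
    ∃ n0, ∀ m, c.II (fun _ => A * c.H ^ (n * A0)) * (m + d).choose d ≤
      finrank c.k0 (c.cs0 (c.H ^ ((m + n0) * (a + n) * A0)) (R ^ ((m + n0) * (a + n) * B))) +
        (m + n0) * (n * B * c.II (update (fun _ => A * c.H ^ (n * A0)) i R)) *
          (m + n0 + (d - 1)).choose (d - 1) := by
  have hP : c.H ⊆ A * c.H ^ (n * A0) := sub_mul hA (one_mem_pow c.one_mem _)
  obtain ⟨n0, h⟩ := c.siu i hP (sub_pow c.one_mem hR hn)
  rw [c.II_pow (fun _ => hP) i hR hn] at h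
  refine ⟨n0, fun m => (h m).trans (Nat.add_le_add_right ?_ _)⟩
  have := (c.bdpp_fin ((m + n0) * (a + n) * A0)
    (one_mem_pow (hR c.one_mem) ((m + n0) * (a + n) * B))).1
  refine bdpp_fr_le (pow_ne_zero (m + n0) hs0) fun x hx =>
    ⟨mul_mem (pow_mem hs.1 _) hx.1, fun O hO => ?_⟩
  have e1 := hs.2 O hO
  have e2 := hx.2 O hO
  simp only [nrm_mul, nrm_pow, map_mul, map_pow] at e1 e2 ⊢
  exact bdpp_v4 e1 e2

theorem bdpp_step [PerfectField k] (p : ℕ) [Fact p.Prime] [CharP k p] (hd : 0 < d) {R : Finset K}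
    (hR : c.H ⊆ R) {lam : ℕ}
    (hcurve : ∀ A, c.H ⊆ A → ∀ a,
      c.II (update (fun _ => A) a R) ≤ lam * c.II (update (fun _ => A) a c.H)) {B t A0 m0 : ℕ}
    (hB : 0 < B) (ht : 2 * d < t) (hA0 : A0 = lam * B + t) (hm0 : 0 < m0)
    (h : c.cs0 (c.H ^ (m0 * A0)) (R ^ (m0 * B) * c.H) ≠ ⊥) :
    ∃ m, 0 < m ∧ c.cs0 (c.H ^ (m * A0)) (R ^ (m * B) * c.H ^ (2 * m)) ≠ ⊥ := by
  by_contra hno
  have hno' : ∀ m, 0 < m → c.cs0 (c.H ^ (m * A0)) (R ^ (m * B) * c.H ^ (2 * m)) = ⊥ :=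
    fun m hm => by_contra fun e => hno ⟨m, hm, e⟩
  obtain ⟨s0, hs, hs0⟩ := (Submodule.ne_bot_iff _).1 h
  obtain ⟨n1, hpos⟩ := c.bdpp_pos hR hs0 hs
  have hA : 0 < A0 := by omega
  refine ana (fun n => finrank c.k0 (c.cs0 (c.H ^ (n * A0)) (R ^ (n * B)))) (r := d * m0)
    (t := t) (C := (d ^ 2 * B * (2 * A0) ^ (d - 1) * ∑ i, c.II (update (fun _ => c.H) i R) : ℕ))
    (C0 := (c.II (fun _ => c.H) * (A0 + d) ^ d : ℕ)) hd hm0 (by exact_mod_cast ht) (fun n => ?_)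
    hpos fun a n hn hna => ?_
  · have := ((c.bdpp_fin (n * A0) (one_mem_pow (hR c.one_mem) (n * B))).2.trans
      (Nat.mul_le_mul_left _ (bdpp_choose_le n A0 d))).trans_eq (mul_assoc _ _ _).symm
    exact_mod_cast this
  rcases Nat.eq_zero_or_pos (finrank c.k0 (c.cs0 (c.H ^ (a * A0)) (R ^ (a * B)))) with h0 | h0
  · refine ⟨0, 0, 0, fun m => by simp, ?_⟩
    simp only [h0, Nat.cast_zero, mul_zero, zero_mul, sub_zero, zero_add]
    exact div_nonneg (mul_nonneg (mul_nonneg (Nat.cast_nonneg _) (sq_nonneg _))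
      (pow_nonneg (add_nonneg (Nat.cast_nonneg _) (Nat.cast_nonneg _)) _)) (sq_nonneg _)
  obtain ⟨A, s, hHA, hs1, hs2, hf⟩ := c.bdpp_fuj p hd hR hs0 hs h0
  obtain ⟨i, -, hi⟩ := Finset.exists_min_image Finset.univ
    (fun i => c.II (update (fun _ => A) i c.H)) ⟨⟨0, hd⟩, Finset.mem_univ _⟩
  obtain ⟨n0, h2⟩ := c.bdpp_siu2 hR hHA (n := n) (by positivity) hs1 hs2 i
  refine ⟨_, _, n0, h2, ?_⟩
  have h3 := c.II_lower hHA (N := n * A0) (by positivity)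
  have h4 := Finset.card_nsmul_le_sum _ _ _ hi
  rw [Finset.card_univ, Fintype.card_fin, smul_eq_mul] at h4
  have h5 := c.II_upper hHA hR (N := n * A0) (M := (a + d * m0 + n) * A0) (by positivity)
    (by positivity) ((Submodule.ne_bot_iff _).2 ⟨s, ⟨hs2.1, fun O hO => by
      have e1 := hs2.2 O hO
      simp only [nrm_mul, nrm_pow] at e1 ⊢
      exact bdpp_v5 (one_le_nrm (hR c.one_mem)) e1⟩, hs1⟩) i
  have := bdpp_arith hd hn (by omega : n ≤ a + d * m0) hA0 (by omega) hf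
    (c.bdpp_siu1 hd hHA (by omega) hs1 hs2 hno' i)
    ((Nat.add_le_add_left (Nat.mul_le_mul_left _ h4) _).trans h3) h5 (hcurve A hHA i)
    (Finset.single_le_sum (f := fun i => c.II (update (fun _ => c.H) i R))
      (fun _ _ => Nat.zero_le _) (Finset.mem_univ i))
  simpa only [Nat.cast_add, Nat.cast_mul (d.factorial)] using this

theorem bdpp [PerfectField k] (p : ℕ) [Fact p.Prime] [CharP k p] (hd : 0 < d) {R : Finset K}
    (hR : c.H ⊆ R) {lam : ℕ}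
    (hcurve : ∀ A, c.H ⊆ A → ∀ a,
      c.II (update (fun _ => A) a R) ≤ lam * c.II (update (fun _ => A) a c.H)) (B : ℕ) :
    ∃ m, 0 < m ∧ c.cs0 (c.H ^ (m * (lam * B + 2 * d))) (R ^ (m * B)) ≠ ⊥ := by
  rcases Nat.eq_zero_or_pos B with rfl | hB
  · refine ⟨1, one_pos, (Submodule.ne_bot_iff _).2 ⟨1, ⟨(c.Kst ∅).one_mem, fun O _ => ?_⟩, one_ne_zero⟩⟩
    rw [mul_zero, pow_zero, nrm_one, map_one, mul_one]
    exact one_le_nrm (one_mem_pow c.one_mem _)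
  have key : ∀ j, (∃ m, 0 < m ∧
      c.cs0 (c.H ^ (m * (lam * B + 2 * d + j))) (R ^ (m * B) * c.H) ≠ ⊥) →
      ∃ m, 0 < m ∧ c.cs0 (c.H ^ (m * (lam * B + 2 * d))) (R ^ (m * B) * c.H) ≠ ⊥ := by
    intro j
    induction j with
    | zero => exact id
    | succ j ih =>
      rintro ⟨m0, hm0, h⟩
      obtain ⟨m, hm, h1⟩ := c.bdpp_step p hd hR hcurve hB (t := 2 * d + (j + 1)) (by omega)
        (add_assoc _ _ _) hm0 h
      refine ih ⟨m, hm, fun e => h1 (eq_bot_iff.2 (le_trans (cs_congr _ fun O _ γ e1 => ?_) e.le))⟩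
      simp only [nrm_mul, nrm_pow] at e1 ⊢
      exact bdpp_v6 hm (one_le_nrm c.one_mem) e1
  obtain ⟨ρ, hρ⟩ := c.exists_le_pow R
  obtain ⟨x, hx, hx0⟩ := (Submodule.ne_bot_iff _).1 hρ
  obtain ⟨m, hm, h⟩ := key (ρ * B + 1) ⟨1, one_pos, (Submodule.ne_bot_iff _).2
    ⟨x ^ B, ⟨pow_mem hx.1 _, fun O hO => by
      have e1 := hx.2 O hO
      simp only [nrm_mul, nrm_pow, map_pow] at e1 ⊢
      exact bdpp_v7 (one_le_nrm c.one_mem) e1⟩, pow_ne_zero _ hx0⟩⟩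
  exact ⟨m, hm, fun e => h (eq_bot_iff.2 ((cs_anti _ _ _ c.one_mem).trans e.le))⟩

end Ctx
end C03
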