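import Pool.Agent.Lib.MP_1c03d5_ag.H97Defs

/-! TASK BENDN: linear algebra of the space of obstructions. -/

namespace C03

universe u

open MvPolynomial

variable {κ Ω : Type u} {ι τ : Type} [Field κ] [Field Ω] [Algebra κ Ω]

theorem minor_zero (M : τ → ℕ → Ω) (T : Fin 0 → τ) : minor M 0 T = 1 := Matrix.det_isEmpty

theorem bendn_cramer {M : τ → ℕ → Ω} {i : ℕ} {x : ℕ → Ω} {w : τ → Ω}
    (hw : ∀ j, w j = ∑ b ∈ Finset.range (i + 1), x b * M j b) (T : Fin (i + 1) → τ) :
    x i * minor M (i + 1) T =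
      ∑ a : Fin (i + 1), (-1) ^ ((a : ℕ) + i) * minor M i (T ∘ a.succAbove) * w (T a) := by
  have h1 := Matrix.det_updateCol_sum (Matrix.of fun a b : Fin (i + 1) => M (T a) b) (Fin.last i)
    fun b => x b
  rw [Matrix.det_succ_column _ (Fin.last i)] at h1
  refine h1.symm.trans (Finset.sum_congr rfl fun a _ => ?_)
  rw [mul_right_comm, Matrix.updateCol_self, hw, Finset.sum_range]
  congr 3
  ext a' b
  rw [Matrix.submatrix_apply, Fin.succAbove_last, Matrix.updateCol_ne (Fin.castSucc_ne_last b)]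
  rfl

theorem minor_ne_zero {M : τ → ℕ → Ω} {c : ℕ} {T0 : Fin c → τ} (h : minor M c T0 ≠ 0) {i : ℕ}
    (hi : i ≤ c) : ∃ T, minor M i T ≠ 0 := by
  induction c with
  | zero =>
    obtain rfl := Nat.le_zero.1 hi
    exact ⟨T0, h⟩
  | succ c ih =>
    rcases hi.eq_or_lt with rfl | hi
    · exact ⟨T0, h⟩
    have h1 := bendn_cramer (M := M) (i := c) (x := fun b => if b = c then 1 else 0)
      (w := fun j => M j c) (fun j => by simp) T0
    rw [if_pos rfl, one_mul] at h1
    obtain ⟨a, -, ha⟩ := Finset.exists_ne_zero_of_sum_ne_zero (h1 ▸ h)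
    exact ih (right_ne_zero_of_mul (left_ne_zero_of_mul ha)) (Nat.le_of_lt_succ hi)

/-- Cramer and Laplace for a valuation. -/
theorem val_minor (O : ValuationSubring Ω) {M : τ → ℕ → Ω} {i : ℕ} {x : ℕ → Ω} {w : τ → Ω}
    (hw : ∀ j, w j = ∑ b ∈ Finset.range (i + 1), x b * M j b) {γ γ' : O.ValueGroup}
    (h1 : ∀ j, O.valuation (w j) ≤ γ) (h2 : ∀ T, O.valuation (minor M i T) ≤ γ')
    (T : Fin (i + 1) → τ) : O.valuation (x i) * O.valuation (minor M (i + 1) T) ≤ γ * γ' := by
  rw [← map_mul, bendn_cramer hw]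
  refine O.valuation.map_sum_le fun a _ => ?_
  rw [map_mul, map_mul, map_pow, Valuation.map_neg, map_one, one_pow, one_mul, mul_comm]
  exact mul_le_mul' (h1 _) (h2 _)

/-- Cramer inside a subfield. -/
theorem coef_mem (E : Subfield Ω) {M : τ → ℕ → Ω} {i : ℕ} {x : ℕ → Ω} {w : τ → Ω}
    (hw : ∀ j, w j = ∑ b ∈ Finset.range (i + 1), x b * M j b) (h1 : ∀ j, w j ∈ E)
    (h2 : ∀ j b, M j b ∈ E) {T : Fin (i + 1) → τ} (hT : minor M (i + 1) T ≠ 0) : x i ∈ E := by
  have h3 : ∀ (n : ℕ) (T : Fin n → τ), minor M n T ∈ E := fun n T => by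
    rw [minor, Matrix.det_apply']
    exact sum_mem fun σ _ => mul_mem (intCast_mem E _) (prod_mem fun a _ => h2 _ _)
  rw [eq_div_of_mul_eq hT (bendn_cramer hw T)]
  exact div_mem (sum_mem fun a _ => mul_mem (mul_mem (pow_mem (neg_mem (one_mem E)) _) (h3 _ _))
    (h1 _)) (h3 _ _)

/-- The filtration by the last nonzero coordinate. -/
theorem finrank_le_sum {M : τ → ℕ → Ω} {c : ℕ} {T0 : Fin c → τ} (h : minor M c T0 ≠ 0)
    (N : Submodule κ (τ → Ω))
    (hN : ∀ w ∈ N, ∃ x : ℕ → Ω, ∀ j, w j = ∑ b ∈ Finset.range c, x b * M j b)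
    (X : ℕ → Submodule κ Ω) (hX : ∀ i < c, Module.Finite κ (X i))
    (hx : ∀ w ∈ N, ∀ i < c, ∀ x : ℕ → Ω,
      (∀ j, w j = ∑ b ∈ Finset.range (i + 1), x b * M j b) → x i ∈ X i) :
    Module.Finite κ N ∧
      Module.finrank κ N ≤ ∑ i ∈ Finset.range c, Module.finrank κ (X i) := by
  induction c generalizing N with
  | zero =>
    have h1 : N = ⊥ := (Submodule.eq_bot_iff N).2 fun w hw => by
      obtain ⟨x, hx⟩ := hN w hw
      exact funext fun j => by simpa using hx j
    subst h1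
    exact ⟨inferInstance, by simp⟩
  | succ c ih =>
    obtain ⟨T, hT⟩ := minor_ne_zero h c.le_succ
    let ψ : (τ → Ω) →ₗ[κ] Ω := LinearMap.restrictScalars κ (∑ a : Fin (c + 1),
      ((minor M (c + 1) T0)⁻¹ * ((-1) ^ ((a : ℕ) + c) * minor M c (T0 ∘ a.succAbove))) •
        (LinearMap.proj (T0 a) : (τ → Ω) →ₗ[Ω] Ω))
    have h1 : ∀ (w : τ → Ω) (x : ℕ → Ω), (∀ j, w j = ∑ b ∈ Finset.range (c + 1), x b * M j b) →
        ψ w = x c := fun w x hw => by
      rw [eq_comm, eq_div_of_mul_eq h (bendn_cramer hw T0), div_eq_inv_mul, Finset.mul_sum]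
      simp [ψ, mul_assoc]
    obtain ⟨h2, h3⟩ := ih hT (N ⊓ LinearMap.ker ψ) (fun w hw => by
      obtain ⟨x, hx⟩ := hN w hw.1
      refine ⟨x, fun j => ?_⟩
      rw [hx j, Finset.sum_range_succ, ← h1 w x hx, LinearMap.mem_ker.1 hw.2, zero_mul, add_zero])
      (fun i hi => hX i (Nat.lt_succ_of_lt hi)) fun w hw i hi => hx w hw.1 i (Nat.lt_succ_of_lt hi)
    have h4 : N.map ψ ≤ X c := by
      rintro _ ⟨w, hw, rfl⟩
      obtain ⟨x, hx'⟩ := hN w hw
      rw [h1 w x hx']
      exact hx w hw c c.lt_succ_self x hx'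
    have h5 := hX c c.lt_succ_self
    have h6 : Module.Finite κ N := Module.Finite.iff_fg.2 (Submodule.fg_of_fg_map_of_fg_inf_ker ψ
      (Module.Finite.iff_fg.1 (Submodule.finiteDimensional_of_le h4)) (Module.Finite.iff_fg.1 h2))
    refine ⟨h6, ?_⟩
    rw [← (ψ.domRestrict N).finrank_range_add_finrank_ker, LinearMap.range_domRestrict,
      LinearMap.ker_domRestrict, ← Submodule.finrank_map_subtype_eq N, Submodule.map_comap_subtype,
      Finset.sum_range_succ, add_comm]
    exact add_le_add h3 (Submodule.finrank_mono h4)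

/-- A vector satisfying the relations is a combination of the columns of the Jacobian matrix. -/
theorem comb_of_rel {z : ι → Ω} {F : τ → MvPolynomial ι κ} (hFz : ∀ j, aeval z (F j) = 0) {c : ℕ}
    {T0 : Fin c → τ} {g : MvPolynomial ι κ} (hg : aeval z g ≠ 0)
    {a : τ → Fin c → MvPolynomial ι κ} (hrel : ∀ j, g * F j = ∑ i, a j i * F (T0 i)) (S : ℕ → ι)
    (h : minor (fun j b => aeval z (pderiv (S b) (F j))) c T0 ≠ 0) {w : τ → Ω}
    (hw : ∀ j, aeval z g * w j = ∑ i, aeval z (a j i) * w (T0 i)) :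
    ∃ x : ℕ → Ω, ∀ j, w j = ∑ b ∈ Finset.range c, x b * aeval z (pderiv (S b) (F j)) := by
  have h1 : ∀ j b, aeval z g * aeval z (pderiv (S b) (F j)) =
      ∑ i, aeval z (a j i) * aeval z (pderiv (S b) (F (T0 i))) := fun j b => by
    simpa [hFz] using congrArg (fun p => aeval z (pderiv (S b) p)) (hrel j)
  obtain ⟨y, hy⟩ := Matrix.mulVec_surjective_iff_isUnit.2 ((Matrix.isUnit_iff_isUnit_det _).2
    (Ne.isUnit h)) fun i => w (T0 i)
  refine ⟨fun b => if hb : b < c then y ⟨b, hb⟩ else 0, fun j => mul_left_cancel₀ hg ?_⟩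
  rw [hw, Finset.sum_range, Finset.mul_sum]
  simp only [Fin.is_lt, dif_pos, mul_left_comm (aeval z g), h1, ← congrFun hy _, Matrix.mulVec,
    dotProduct, Matrix.of_apply, Finset.mul_sum]
  rw [Finset.sum_comm]
  exact Finset.sum_congr rfl fun b _ => Finset.sum_congr rfl fun i _ => by ring

/-- Values of a derivative of a form. -/
theorem val_pderiv_le (O : ValuationSubring Ω) (hO : ∀ a : κ, algebraMap κ Ω a ∈ O) {z : ι → Ω}
    {γ : O.ValueGroup} (h1 : 1 ≤ γ) (hz : ∀ i, O.valuation (z i) ≤ γ) {f : MvPolynomial ι κ} {e : ℕ}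
    (hf : f.IsHomogeneous e) (i : ι) : O.valuation (aeval z (pderiv i f)) ≤ γ ^ e := by
  rw [aeval_def, eval₂_eq]
  refine O.valuation.map_sum_le fun d hd => ?_
  rw [map_mul, map_prod]
  refine (mul_le_of_le_one_left' ((O.valuation_le_one_iff _).2 (hO _))).trans ?_
  refine (Finset.prod_le_prod' (g := fun j => γ ^ d j) fun j _ => ?_).trans ?_
  · rw [map_pow]
    exact pow_le_pow_left' (hz j) _
  · rw [Finset.prod_pow_eq_pow_sum]
    exact pow_le_pow_right' h1 ((le_totalDegree hd).trans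
      ((hf.pderiv (i := i)).totalDegree_le.trans (Nat.sub_le _ _)))

/-- Monomials of high degree are divisible by a `q`-th power of a variable. -/
theorem pow_le_mul_span {A : Type u} [CommRing A] [Algebra κ A] [Fintype ι] [Nonempty ι]
    (z : ι → A) (q : ℕ) :
    Submodule.span κ (Set.range z) ^ (Fintype.card ι * q) * Submodule.span κ (Set.range z) ^ q ≤
      Submodule.span κ (Set.range z) ^ (Fintype.card ι * q) *
        Submodule.span κ (Set.range fun i => z i ^ q) := by
  classical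
  have h1 : ∀ (s : Finset ι) (e : ι → ℕ),
      ∏ i ∈ s, z i ^ e i ∈ Submodule.span κ (Set.range z) ^ ∑ i ∈ s, e i := fun s e => by
    induction s using Finset.induction_on with
    | empty =>
      rw [Finset.prod_empty, Finset.sum_empty, pow_zero]
      exact Submodule.one_le.1 le_rfl
    | insert j s hj ih =>
      rw [Finset.prod_insert hj, Finset.sum_insert hj, pow_add]
      exact Submodule.mul_mem_mul (Submodule.pow_mem_pow _ (Submodule.subset_span (Set.mem_range_self j)) _) ih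
  have h2 : ∀ (e : ι → ℕ) (j : ι) (n : ℕ),
      ∏ i, z i ^ (e + Pi.single j n : ι → ℕ) i = (∏ i, z i ^ e i) * z j ^ n := fun e j n => by
    simp only [Pi.add_apply, pow_add, Finset.prod_mul_distrib]
    simp [Pi.single_apply]
  have h3 : ∀ m : ℕ, Submodule.span κ (Set.range z) ^ m ≤
      Submodule.span κ {y | ∃ e : ι → ℕ, ∑ i, e i = m ∧ ∏ i, z i ^ e i = y} := fun m => by
    induction m with
    | zero =>
      rw [pow_zero, Submodule.one_le]
      exact Submodule.subset_span ⟨0, by simp, by simp⟩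
    | succ m ih =>
      rw [pow_succ]
      refine (mul_le_mul_left ih _).trans ?_
      rw [Submodule.span_mul_span]
      refine Submodule.span_mono ?_
      rintro _ ⟨_, ⟨e, rfl, rfl⟩, _, ⟨j, rfl⟩, rfl⟩
      exact ⟨e + Pi.single j 1, by simp [Finset.sum_add_distrib], by rw [h2, pow_one]⟩
  rw [← pow_add]
  refine (h3 _).trans (Submodule.span_le.2 ?_)
  rintro _ ⟨e, he, rfl⟩
  obtain ⟨j, hj⟩ : ∃ j, q ≤ e j := by
    by_contra h4
    push Not at h4
    have := Finset.sum_lt_sum_of_nonempty Finset.univ_nonempty fun i _ => h4 i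
    rw [he, Finset.sum_const, Finset.card_univ, smul_eq_mul] at this
    omega
  obtain ⟨e', rfl⟩ : ∃ e', e = e' + Pi.single j q :=
    ⟨e - Pi.single j q, funext fun i => by
      by_cases h : i = j
      · simp [h, hj]
      · simp [h]⟩
  have h4 : ∑ i, e' i = Fintype.card ι * q := by simpa [Finset.sum_add_distrib] using he
  rw [h2, ← h4]
  exact Submodule.mul_mem_mul (h1 _ _) (Submodule.subset_span ⟨j, rfl⟩)

end C03
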