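import Pool.Agent.Lib.MP_1c03d5_ag.H97Defs

/-! TASK BREAK: a degenerating family of arcs through a fixed point produces a rational curve. -/

namespace C03

universe u

section breakAux

open Polynomial

variable {κ K : Type u} {ι τ : Type} [Field κ] [Field K] [Algebra κ K] {O : ValuationSubring K}

/-- All coefficients have value at most `γ`. -/
def breakLe (O : ValuationSubring K) (γ : O.ValueGroup) (p : K[X]) : Prop :=
  ∀ m, O.valuation (p.coeff m) ≤ γ

/-- All coefficients have value less than `γ`. -/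
def breakLt (O : ValuationSubring K) (γ : O.ValueGroup) (p : K[X]) : Prop :=
  ∀ m, O.valuation (p.coeff m) < γ

theorem breakLe_mul {γ δ : O.ValueGroup} {p q : K[X]} (hp : breakLe O γ p) (hq : breakLe O δ q) :
    breakLe O (γ * δ) (p * q) := fun m => by
  rw [coeff_mul]
  exact O.valuation.map_sum_le fun x _ => by rw [map_mul]; exact mul_le_mul' (hp _) (hq _)

theorem breakLe_mul_one {p q : K[X]} (hp : breakLe O 1 p) (hq : breakLe O 1 q) :
    breakLe O 1 (p * q) := by simpa using breakLe_mul hp hq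

theorem breakLe_add {γ : O.ValueGroup} {p q : K[X]} (hp : breakLe O γ p) (hq : breakLe O γ q) :
    breakLe O γ (p + q) := fun m => by
  rw [coeff_add]; exact O.valuation.map_add_le (hp m) (hq m)

theorem breakLe_sum {α : Type*} {γ : O.ValueGroup} {t : Finset α} {p : α → K[X]}
    (hp : ∀ i ∈ t, breakLe O γ (p i)) : breakLe O γ (∑ i ∈ t, p i) := fun m => by
  rw [finsetSum_coeff]; exact O.valuation.map_sum_le fun i hi => hp i hi m

theorem breakLe_C {γ : O.ValueGroup} {a : K} (ha : O.valuation a ≤ γ) : breakLe O γ (C a) :=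
  fun m => by
  rw [coeff_C]; split_ifs
  · exact ha
  · simp

theorem breakLe_X : breakLe O 1 (X : K[X]) := fun m => by
  rw [coeff_X]; split_ifs <;> simp

theorem breakLe_pow {p : K[X]} (hp : breakLe O 1 p) (n : ℕ) : breakLe O 1 (p ^ n) := by
  induction n with
  | zero => rw [pow_zero, ← C_1]; exact breakLe_C (by simp)
  | succ n ih => rw [pow_succ]; exact breakLe_mul_one ih hp

theorem breakLe_comp {γ : O.ValueGroup} {p φ : K[X]} (hp : breakLe O γ p) (hφ : breakLe O 1 φ) :
    breakLe O γ (p.comp φ) := by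
  rw [comp_eq_sum_left, Polynomial.sum]
  exact breakLe_sum fun i _ => by simpa using breakLe_mul (breakLe_C (hp i)) (breakLe_pow hφ i)

theorem breakLt_comp {γ : O.ValueGroup} {p φ : K[X]} (hp : breakLt O γ p) (hφ : breakLe O 1 φ) :
    breakLt O γ (p.comp φ) := fun m => by
  rw [comp_eq_sum_left, Polynomial.sum, finsetSum_coeff]
  refine O.valuation.map_sum_lt (ne_zero_of_lt (hp 0)) fun i _ => ?_
  rw [coeff_C_mul, map_mul]
  exact (mul_le_of_le_one_right' (breakLe_pow hφ i m)).trans_lt (hp i)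

theorem breakLt_C_mul {γ : O.ValueGroup} {p : K[X]} (hp : breakLt O γ p) {c : K} (hc : c ≠ 0) :
    breakLt O (O.valuation c * γ) (C c * p) := fun m => by
  rw [coeff_C_mul, map_mul]
  exact mul_lt_mul_of_pos_left (hp m) (zero_lt_iff.2 ((_root_.map_ne_zero _).2 hc))

theorem breakLe_aeval (hO : ∀ a : κ, algebraMap κ K a ∈ O) {R : ι → K[X]}
    (hR : ∀ i, breakLe O 1 (R i)) (F : MvPolynomial ι κ) :
    breakLe O 1 (MvPolynomial.aeval R F) := by
  induction F using MvPolynomial.induction_on with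
  | C a =>
    rw [MvPolynomial.aeval_C, Polynomial.algebraMap_apply]
    exact breakLe_C ((O.valuation_le_one_iff _).2 (hO a))
  | add p q hp hq => rw [map_add]; exact breakLe_add hp hq
  | mul_X p i hp => rw [map_mul, MvPolynomial.aeval_X]; exact breakLe_mul_one hp (hR i)

theorem break_sum_eq {k : Type u} [CommSemiring k] [Fintype ι] {F : MvPolynomial ι k} {e : ℕ}
    (hF : F.IsHomogeneous e) {d : ι →₀ ℕ} (hd : d ∈ F.support) : ∑ i, d i = e := by
  rw [← Finsupp.degree_eq_sum]
  by_contra h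
  exact MvPolynomial.mem_support_iff.1 hd (hF.coeff_eq_zero h)

theorem break_aeval_mul {A : Type u} [CommRing A] [Algebra κ A] [Fintype ι] {F : MvPolynomial ι κ}
    {e : ℕ} (hF : F.IsHomogeneous e) (c : A) (x : ι → A) :
    MvPolynomial.aeval (fun i => c * x i) F = c ^ e * MvPolynomial.aeval x F := by
  rw [MvPolynomial.aeval_def, MvPolynomial.aeval_def, MvPolynomial.eval₂_eq',
    MvPolynomial.eval₂_eq', Finset.mul_sum]
  refine Finset.sum_congr rfl fun d hd => ?_
  simp only [mul_pow, Finset.prod_mul_distrib, Finset.prod_pow_eq_pow_sum, break_sum_eq hF hd]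
  ring

theorem break_aeval_comp (R : ι → K[X]) (φ : K[X]) (F : MvPolynomial ι κ) :
    MvPolynomial.aeval (fun i => (R i).comp φ) F = (MvPolynomial.aeval R F).comp φ :=
  (MvPolynomial.comp_aeval_apply R ((Polynomial.aeval φ : K[X] →ₐ[K] K[X]).restrictScalars κ)
    F).symm

theorem break_aeval_map {A B : Type u} [CommRing A] [CommRing B] [Algebra κ A] [Algebra κ B]
    (f : A →ₐ[κ] B) (R : ι → A[X]) (F : MvPolynomial ι κ) :
    MvPolynomial.aeval (fun i => (R i).map (f : A →+* B)) F =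
      (MvPolynomial.aeval R F).map (f : A →+* B) :=
  (MvPolynomial.comp_aeval_apply R (Polynomial.mapAlgHom f) F).symm

theorem break_coeff_prod {L : Type u} [CommRing L] (σ : ι → L[X]) {m : ℕ}
    (hσ : ∀ i, (σ i).natDegree ≤ m) (d : ι → ℕ) (t : Finset ι) :
    (∏ i ∈ t, σ i ^ d i).natDegree ≤ (∑ i ∈ t, d i) * m ∧
      (∏ i ∈ t, σ i ^ d i).coeff ((∑ i ∈ t, d i) * m) = ∏ i ∈ t, (σ i).coeff m ^ d i := by
  classical
  induction t using Finset.induction_on with
  | empty => simp
  | insert a t ha ih =>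
    simp only [Finset.prod_insert ha, Finset.sum_insert ha, add_mul]
    have h := natDegree_pow_le_of_le (d a) (hσ a)
    exact ⟨natDegree_mul_le_of_le h ih.1, by
      rw [coeff_mul_add_eq_of_natDegree_le h ih.1, ih.2, coeff_pow_of_natDegree_le (hσ a)]⟩

theorem break_coeff_aeval {L : Type u} [CommRing L] [Algebra κ L] [Fintype ι] {g : MvPolynomial ι κ}
    {n : ℕ} (hg : g.IsHomogeneous n) (σ : ι → L[X]) {m : ℕ}
    (hσ : m = 0 ∨ ∀ i, (σ i).natDegree ≤ m) :
    (MvPolynomial.aeval σ g).coeff (n * m) = MvPolynomial.aeval (fun i => (σ i).coeff m) g := by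
  rcases hσ with rfl | hσ
  · simp only [mul_zero, coeff_zero_eq_aeval_zero]
    exact MvPolynomial.comp_aeval_apply σ
      ((Polynomial.aeval (0 : L) : L[X] →ₐ[L] L).restrictScalars κ) g
  rw [MvPolynomial.aeval_def, MvPolynomial.aeval_def, MvPolynomial.eval₂_eq',
    MvPolynomial.eval₂_eq', finsetSum_coeff]
  refine Finset.sum_congr rfl fun d hd => ?_
  rw [Polynomial.algebraMap_apply, coeff_C_mul, ← break_sum_eq hg hd,
    (break_coeff_prod σ hσ d Finset.univ).2]

/-- Approximate solutions of `F = 0` without approximate common zero. -/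
def breakGood [Fintype ι] (O : ValuationSubring K) (F : τ → MvPolynomial ι κ) (e : ℕ)
    (R : ι → K[X]) : Prop :=
  ∃ (D : K) (A : ι → K[X]), (∀ i, breakLe O 1 (A i)) ∧
    breakLt O (O.valuation D) (∑ i, A i * R i - C D) ∧
    ∀ j, breakLt O (O.valuation D ^ e) (MvPolynomial.aeval R (F j))

variable [Fintype ι] {F : τ → MvPolynomial ι κ} {e : ℕ}

theorem breakGood_comp {R : ι → K[X]} (h : breakGood O F e R) {φ : K[X]} (hφ : breakLe O 1 φ) :
    breakGood O F e fun i => (R i).comp φ := by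
  obtain ⟨D, A, hA, h1, h2⟩ := h
  refine ⟨D, fun i => (A i).comp φ, fun i => breakLe_comp (hA i) hφ, ?_, fun j => ?_⟩
  · simpa [sub_comp, Polynomial.sum_comp] using breakLt_comp h1 hφ
  · rw [break_aeval_comp]; exact breakLt_comp (h2 j) hφ

theorem breakGood_mul (hF : ∀ j, (F j).IsHomogeneous e) {R : ι → K[X]} (h : breakGood O F e R)
    {c : K} (hc : c ≠ 0) : breakGood O F e fun i => C c * R i := by
  obtain ⟨D, A, hA, h1, h2⟩ := h
  refine ⟨c * D, A, hA, ?_, fun j => ?_⟩
  · have e1 : ∑ i, A i * (C c * R i) - C (c * D) = C c * (∑ i, A i * R i - C D) := by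
      rw [mul_sub, Finset.mul_sum, C_mul]
      congr 1
      exact Finset.sum_congr rfl fun i _ => by ring
    rw [e1, map_mul]
    exact breakLt_C_mul h1 hc
  · rw [break_aeval_mul (hF j), ← C_pow, map_mul, mul_pow, ← map_pow]
    exact breakLt_C_mul (h2 j) (pow_ne_zero _ hc)

theorem breakGood_red {R : ι → K[X]} (h : breakGood O F e R) (hR : ∀ i, breakLe O 1 (R i)) (j : τ) :
    breakLt O 1 (MvPolynomial.aeval R (F j)) := by
  obtain ⟨D, A, hA, h1, h2⟩ := h
  have hD : O.valuation D ≤ 1 := by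
    by_contra hD
    have h3 := h1 0
    have h4 := breakLe_sum (t := Finset.univ) (fun i _ => breakLe_mul_one (hA i) (hR i)) 0
    rw [coeff_sub, coeff_C_zero,
      O.valuation.map_sub_eq_of_lt_right (h4.trans_lt (not_le.1 hD))] at h3
    exact lt_irrefl _ h3
  exact fun m => (h2 j m).trans_le (pow_le_one' hD e)

theorem breakGood_ne {R : ι → K[X]} (h : breakGood O F e R) : ∃ i, (R i).coeff 0 ≠ 0 := by
  obtain ⟨D, A, -, h1, -⟩ := h
  by_contra hR
  push Not at hR
  have h3 := h1 0
  simp [finsetSum_coeff, mul_coeff_zero, hR] at h3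

/-- The reduction of an integral approximate solution is projectively constant. -/
theorem break_key (hO : ∀ a : κ, algebraMap κ K a ∈ O) {g : MvPolynomial ι κ} {n : ℕ}
    (hg : g.IsHomogeneous n) (hno : NoRatU F g) {i0 : ι} {w : ι → K} (hw : ∀ i, w i ∈ O)
    (hw0 : w i0 = 1) (hgw : O.valuation (MvPolynomial.aeval w g) = 1) {R : ι → K[X]}
    (hR : ∀ i, breakLe O 1 (R i)) (hFR : ∀ j, breakLt O 1 (MvPolynomial.aeval R (F j))) {m : ℕ}
    (hm : m = 0 ∨ ∀ i m', m < m' → O.valuation ((R i).coeff m') < 1)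
    (hlead : ∀ i, O.valuation ((R i).coeff m - w i) < 1) (i : ι) :
    breakLt O 1 (R i - R i0 * C (w i)) := by
  let _ : Algebra κ O := ((algebraMap κ K).codRestrict O hO).toAlgebra
  have _ : IsScalarTower κ O K := IsScalarTower.of_algebraMap_eq fun _ => rfl
  have hz : ∀ x : O, IsLocalRing.residue O x = 0 ↔ O.valuation (x : K) < 1 := fun x => by
    rw [IsLocalRing.residue_eq_zero_iff, O.valuation_lt_one_iff]
  have hl : ∀ i, ∃ p : O[X], p.map (algebraMap O K) = R i := fun i =>
    (mem_lifts _).1 ((lifts_iff_coeff_lifts _).2 fun m =>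
      ⟨⟨_, (O.valuation_le_one_iff _).1 (hR i m)⟩, rfl⟩)
  choose R' hR' using hl
  have hc : ∀ i m, (((R' i).coeff m : O) : K) = (R i).coeff m := fun i m => by
    rw [← hR' i, coeff_map]; rfl
  let w' : ι → O := fun i => ⟨w i, hw i⟩
  let f1 : O →ₐ[κ] K := IsScalarTower.toAlgHom κ O K
  let f2 : O →ₐ[κ] IsLocalRing.ResidueField O := IsScalarTower.toAlgHom κ O _
  let σ : ι → (IsLocalRing.ResidueField O)[X] := fun i => (R' i).map (IsLocalRing.residue O)
  have hσ : ∀ i m, (σ i).coeff m = IsLocalRing.residue O ((R' i).coeff m) := fun i m =>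
    coeff_map _ _
  have hσm : ∀ i, (σ i).coeff m = IsLocalRing.residue O (w' i) := fun i => by
    rw [hσ, ← sub_eq_zero, ← map_sub, hz]
    simpa [hc, w'] using hlead i
  have h1 : ∀ j, MvPolynomial.aeval σ (F j) = 0 := fun j => by
    have e1 := break_aeval_map f1 R' (F j)
    have e2 := break_aeval_map f2 R' (F j)
    refine e2.trans (Polynomial.ext fun m => ?_)
    rw [coeff_map, coeff_zero]
    refine (hz _).2 ?_
    have e3 := hFR j m
    have e4 : (fun i => (R' i).map (f1 : O →+* K)) = R := funext hR'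
    rwa [← e4, e1, coeff_map] at e3
  have h2 : MvPolynomial.aeval σ g ≠ 0 := fun h => by
    have e1 := break_coeff_aeval hg σ (m := m) (hm.imp id fun hm i =>
      natDegree_le_iff_coeff_eq_zero.2 fun N hN => by rw [hσ, hz, hc]; exact hm i N hN)
    rw [h, coeff_zero, funext hσm] at e1
    have e2 := MvPolynomial.comp_aeval_apply w' f2 g
    have e3 := MvPolynomial.comp_aeval_apply w' f1 g
    have e4 := (hz _).1 (e2.trans e1.symm)
    exact (e4.ne (by rw [← hgw]; exact congrArg _ e3))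
  have h3 := hno _ (algebraMap κ (IsLocalRing.ResidueField O)) σ
    (fun j => by rw [MvPolynomial.aeval_map_algebraMap]; exact h1 j)
    (by rw [MvPolynomial.aeval_map_algebraMap]; exact h2)
  intro m'
  have h4 := h3 i i0 m' m
  have e0 : w' i0 = 1 := Subtype.ext hw0
  rw [hσm, hσm, e0, map_one, mul_one, hσ, hσ, ← map_mul, ← sub_eq_zero, ← map_sub, hz] at h4
  rw [coeff_sub, coeff_mul_C, mul_comm]
  simpa [hc, w'] using h4

omit [Fintype ι] in
theorem break_prod_lt (S : Multiset K) (hS : ∀ a ∈ S, 1 < O.valuation a) :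
    (S.map fun a => X - C a).prod.coeff 0 ≠ 0 ∧ ∀ m,
      O.valuation ((S.map fun a => X - C a).prod.coeff (m + 1)) <
        O.valuation ((S.map fun a => X - C a).prod.coeff 0) := by
  induction S using Multiset.induction_on with
  | empty => simp [coeff_one]
  | cons a S ih =>
    obtain ⟨h1, h2⟩ := ih fun b hb => hS b (Multiset.mem_cons_of_mem hb)
    have ha := hS a (Multiset.mem_cons_self a S)
    have ha0 : a ≠ 0 := by rintro rfl; simp at ha
    rw [Multiset.map_cons, Multiset.prod_cons]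
    generalize (S.map fun a => X - C a).prod = p at h1 h2
    have e0 : ((X - C a) * p).coeff 0 = -(a * p.coeff 0) := by simp [mul_coeff_zero]
    have hp : 0 < O.valuation (p.coeff 0) := zero_lt_iff.2 ((_root_.map_ne_zero _).2 h1)
    refine ⟨by rw [e0]; exact neg_ne_zero.2 (mul_ne_zero ha0 h1), fun m => ?_⟩
    rw [e0, coeff_X_sub_C_mul, Valuation.map_neg, map_mul]
    refine O.valuation.map_sub_lt ?_ ?_
    · refine lt_of_le_of_lt ?_ (lt_mul_of_one_lt_left hp ha)
      rcases m with _ | m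
      · exact le_rfl
      · exact (h2 m).le
    · rw [map_mul]
      exact mul_lt_mul_of_pos_left (h2 m) (zero_lt_one.trans ha)

omit [Fintype ι] in
theorem break_root [IsAlgClosed K] {p : K[X]} {m : ℕ} (h0 : p.coeff 0 = 1)
    (hm : O.valuation (p.coeff (m + 1)) = 1) : ∃ ρ, O.valuation ρ ≤ 1 ∧ p.eval ρ = 0 := by
  by_contra h
  push Not at h
  have hp : p ≠ 0 := by rintro rfl; simp at h0
  have h1 := (break_prod_lt (O := O) p.roots fun a ha =>
    not_le.1 fun h' => h a h' ((mem_roots hp).1 ha)).2 m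
  have h2 := mul_lt_mul_of_pos_left h1
    (zero_lt_iff.2 ((_root_.map_ne_zero O.valuation).2 (leadingCoeff_ne_zero.2 hp)))
  rw [← map_mul, ← map_mul, ← coeff_C_mul, ← coeff_C_mul, ← (IsAlgClosed.splits p).eq_prod_roots,
    h0, hm, map_one] at h2
  exact lt_irrefl _ h2

omit [Fintype ι] in
theorem break_slope [IsAlgClosed K] {α : Type*} {t : Finset α} (ht : t.Nonempty) (x : α → K)
    (n : α → ℕ) (hn : ∀ a ∈ t, 0 < n a) : ∃ u : K,
    (∀ a ∈ t, O.valuation (x a) ≤ O.valuation u ^ n a) ∧ ∃ a ∈ t, x a = u ^ n a := by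
  have h : ∀ a, ∃ u : K, a ∈ t → u ^ n a = x a := fun a => by
    by_cases ha : a ∈ t
    · obtain ⟨u, hu⟩ := IsAlgClosed.exists_pow_nat_eq (x a) (hn a ha)
      exact ⟨u, fun _ => hu⟩
    · exact ⟨0, fun h => absurd h ha⟩
  choose u hu using h
  obtain ⟨a, ha, hmax⟩ := t.exists_max_image (fun a => O.valuation (u a)) ht
  refine ⟨u a, fun b hb => ?_, a, ha, (hu a ha).symm⟩
  rw [← hu b hb, map_pow]
  exact pow_le_pow_left' (hmax b hb) _

omit [Fintype ι] in
theorem break_lt_of {i0 i : ι} {w : ι → K} (hw : ∀ i, w i ∈ O) {R : ι → K[X]}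
    (h : breakLt O 1 (R i - R i0 * C (w i))) {m : ℕ} (hm : O.valuation ((R i0).coeff m) < 1) :
    O.valuation ((R i).coeff m) < 1 := by
  have h1 := h m
  rw [coeff_sub, coeff_mul_C] at h1
  have h2 : O.valuation ((R i0).coeff m * w i) < 1 := by
    rw [map_mul]
    exact (mul_le_of_le_one_right' ((O.valuation_le_one_iff _).2 (hw i))).trans_lt hm
  simpa using O.valuation.map_add_lt h1 h2

/-- Descent along the Newton polygon. -/
theorem break_ind [IsAlgClosed K] (hO : ∀ a : κ, algebraMap κ K a ∈ O)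
    (hF : ∀ j, (F j).IsHomogeneous e) {g : MvPolynomial ι κ} {n : ℕ}
    (hg : g.IsHomogeneous n) (hno : NoRatU F g) {i0 : ι} {w : ι → K} (hw : ∀ i, w i ∈ O)
    (hw0 : w i0 = 1) (hgw : O.valuation (MvPolynomial.aeval w g) = 1) (m : ℕ) :
    ∀ R : ι → K[X], breakGood O F e R → (∀ i, breakLe O 1 (R i)) →
      (∀ i, breakLt O 1 (R i - R i0 * C (w i))) → (R i0).coeff 0 = 0 →
      O.valuation ((R i0).coeff m) = 1 → False := by
  induction m using Nat.strong_induction_on with
  | _ m ih =>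
  intro R hG hR hP h0 hm
  have hlow : ∀ k < m, O.valuation ((R i0).coeff k) < 1 := fun k hk =>
    lt_of_le_of_ne (hR i0 k) fun h => ih k hk R hG hR hP h0 h
  have hm0 : 0 < m := Nat.pos_of_ne_zero (by rintro rfl; simp [h0] at hm)
  obtain ⟨u, hu, ⟨i1, m1⟩, h1, e1⟩ := break_slope (O := O)
    (t := (Finset.univ : Finset ι) ×ˢ Finset.range m) ⟨(i0, 0), by simp [hm0]⟩
    (fun a => (R a.1).coeff a.2) (fun a => m - a.2) (fun a ha => by simpa using ha)
  simp only [Finset.mem_product, Finset.mem_univ, Finset.mem_range, true_and, Prod.forall] at hu h1 e1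
  have hu1 : O.valuation u < 1 := by
    have h2 := break_lt_of hw (hP i1) (hlow m1 h1)
    rw [e1, map_pow] at h2
    exact lt_of_pow_lt_pow_left₀ _ zero_le_one (by rwa [one_pow])
  have hu0 : u ≠ 0 := by
    rintro rfl
    obtain ⟨i, hi⟩ := breakGood_ne hG
    have h2 := hu i 0 hm0
    rw [map_zero, Nat.sub_zero, zero_pow hm0.ne', le_zero_iff] at h2
    exact hi ((_root_.map_eq_zero _).1 h2)
  have hup : 0 < O.valuation u := zero_lt_iff.2 ((_root_.map_ne_zero _).2 hu0)
  have hc0 : (R i0).coeff m ≠ 0 := fun h => by simp [h] at hm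
  have hφ : breakLe O 1 (C u * X) := breakLe_mul_one (breakLe_C hu1.le) breakLe_X
  obtain ⟨R', hR'⟩ : ∃ R' : ι → K[X],
      R' = fun i => C ((R i0).coeff m * u ^ m)⁻¹ * (R i).comp (C u * X) := ⟨_, rfl⟩
  have hG' : breakGood O F e R' := hR' ▸ breakGood_mul hF (breakGood_comp hG hφ)
    (inv_ne_zero (mul_ne_zero hc0 (pow_ne_zero _ hu0)))
  have hc : ∀ i k, (R' i).coeff k = ((R i0).coeff m * u ^ m)⁻¹ * ((R i).coeff k * u ^ k) :=
    fun i k => by rw [hR', coeff_C_mul, comp_C_mul_X_coeff]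
  have hv : ∀ i k, O.valuation ((R' i).coeff k) =
      O.valuation ((R i).coeff k) * O.valuation u ^ k / O.valuation u ^ m := fun i k => by
    rw [hc, map_mul, map_inv₀, map_mul, map_mul, hm, one_mul, map_pow, map_pow, div_eq_inv_mul]
  have htop : ∀ i k, m < k → O.valuation ((R' i).coeff k) < 1 := fun i k hk => by
    rw [hv, div_lt_one₀ (pow_pos hup m)]
    exact (mul_le_of_le_one_left' (hR i k)).trans_lt (pow_lt_pow_right_of_lt_one₀ hup hu1 hk)
  have hint : ∀ i, breakLe O 1 (R' i) := fun i k => by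
    rcases lt_trichotomy k m with hk | rfl | hk
    · rw [hv, div_le_one₀ (pow_pos hup m)]
      refine (mul_le_mul_left (hu i k hk) _).trans_eq ?_
      rw [← pow_add, Nat.sub_add_cancel hk.le]
    · rw [hv, div_le_one₀ (pow_pos hup k)]
      exact mul_le_of_le_one_left' (hR i k)
    · exact (htop i k hk).le
  have hP' := break_key hO hg hno hw hw0 hgw hint (breakGood_red hG' hint) (Or.inr htop) fun i => by
    have h2 := hP i m
    have e2 : (R' i).coeff m - w i =
        ((R i0).coeff m)⁻¹ * (R i - R i0 * C (w i)).coeff m := by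
      rw [hc, coeff_sub, coeff_mul_C]; field_simp
    rwa [e2, map_mul, map_inv₀, hm, inv_one, one_mul]
  refine ih m1 h1 R' hG' hint hP' (by rw [hc, h0, zero_mul, mul_zero])
    (le_antisymm (hint i0 m1) (not_lt.1 fun h => (break_lt_of hw (hP' i1) h).ne ?_))
  rw [hv, e1, map_pow, ← pow_add, Nat.sub_add_cancel h1.le, div_self (pow_pos hup m).ne']

/-- No integral approximate solution through `w` has a nonconstant reduction. -/
theorem break_poly [IsAlgClosed K] (hO : ∀ a : κ, algebraMap κ K a ∈ O)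
    (hF : ∀ j, (F j).IsHomogeneous e) {g : MvPolynomial ι κ} {n : ℕ}
    (hg : g.IsHomogeneous n) (hno : NoRatU F g) {i0 : ι} {R : ι → K[X]} (hG : breakGood O F e R)
    (hR : ∀ i, breakLe O 1 (R i)) (hw0 : (R i0).coeff 0 = 1)
    (hgw : O.valuation (MvPolynomial.aeval (fun i => (R i).coeff 0) g) = 1) {i1 : ι} {m : ℕ}
    (hm : O.valuation ((R i1).coeff (m + 1)) = 1) : False := by
  have hw : ∀ i, (R i).coeff 0 ∈ O := fun i => (O.valuation_le_one_iff _).1 (hR i 0)
  have hP := break_key hO hg hno (i0 := i0) hw hw0 hgw hR (breakGood_red hG hR) (Or.inl rfl)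
    fun i => by simp
  obtain ⟨ρ, hρ, h0⟩ := break_root (O := O) (m := m) hw0
    (le_antisymm (hR i0 _) (not_lt.1 fun h => (break_lt_of hw (hP i1) h).ne hm))
  have hφ : breakLe O 1 (X + C ρ) := breakLe_add breakLe_X (breakLe_C hρ)
  have hφ' : breakLe O 1 (X + C (-ρ)) :=
    breakLe_add breakLe_X (breakLe_C (by rwa [Valuation.map_neg]))
  have h1 : ¬ breakLt O 1 ((R i0).comp (X + C ρ)) := fun h => by
    have h2 := breakLt_comp h hφ' 0
    simp [comp_assoc, hw0] at h2
  obtain ⟨k, hk⟩ := not_forall.1 h1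
  refine break_ind hO hF hg hno hw hw0 hgw k _ (breakGood_comp hG hφ)
    (fun i => breakLe_comp (hR i) hφ) (fun i => ?_) ?_
    (le_antisymm (breakLe_comp (hR i0) hφ k) (not_lt.1 hk))
  · simpa only [sub_comp, mul_comp, C_comp] using breakLt_comp (hP i) hφ
  · simpa [coeff_zero_eq_eval_zero, eval_comp] using h0

omit [Fintype ι] in
theorem break_dvd_trunc (l : ℕ) (s : PowerSeries K) :
    PowerSeries.X ^ l ∣ ((PowerSeries.trunc l s : K[X]) : PowerSeries K) - s :=
  PowerSeries.X_pow_dvd_iff.2 fun m hm => by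
    rw [map_sub, coeff_coe, PowerSeries.coeff_trunc, if_pos hm, sub_self]

omit [Fintype ι] in
theorem break_dvd_aeval (l : ℕ) (s : ι → PowerSeries K) (G : MvPolynomial ι κ) :
    PowerSeries.X ^ l ∣ ((MvPolynomial.aeval (fun i => PowerSeries.trunc l (s i)) G : K[X]) :
      PowerSeries K) - MvPolynomial.aeval s G := by
  induction G using MvPolynomial.induction_on with
  | C a =>
    rw [MvPolynomial.aeval_C, MvPolynomial.aeval_C, Polynomial.algebraMap_apply, coe_C,
      PowerSeries.algebraMap_apply, sub_self]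
    exact dvd_zero _
  | add p q hp hq =>
    rw [map_add, map_add, coe_add, add_sub_add_comm]
    exact dvd_add hp hq
  | mul_X p i hp =>
    rw [map_mul, map_mul, MvPolynomial.aeval_X, MvPolynomial.aeval_X, coe_mul]
    convert dvd_add (hp.mul_right ((PowerSeries.trunc l (s i) : K[X]) : PowerSeries K))
      ((break_dvd_trunc l (s i)).mul_left (MvPolynomial.aeval s p)) using 1
    ring

omit [Fintype ι] in
theorem breakLt_scale {γ δ : O.ValueGroup} {p : K[X]} {l : ℕ} {u : K} (hp : breakLe O γ p)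
    (hl : PowerSeries.X ^ l ∣ (p : PowerSeries K)) (hu : O.valuation u ≤ 1)
    (h : γ * O.valuation u ^ l < δ) : breakLt O δ (p.comp (C u * X)) := fun m => by
  rw [comp_C_mul_X_coeff, map_mul, map_pow]
  rcases lt_or_ge m l with hm | hm
  · have h1 := PowerSeries.X_pow_dvd_iff.1 hl m hm
    rw [coeff_coe] at h1
    rw [h1, map_zero, zero_mul]
    exact zero_le.trans_lt h
  · exact (mul_le_mul' (hp m) (pow_le_pow_of_le_one zero_le hu hm)).trans_lt h

theorem break_good (hO : ∀ a : κ, algebraMap κ K a ∈ O) (hF : ∀ j, (F j).IsHomogeneous e)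
    {s a : ι → PowerSeries K} {c u : K} {l : ℕ}
    (hs : ∀ i m, O.valuation (PowerSeries.coeff m (s i)) ≤ O.valuation c)
    (ha : ∀ i m, O.valuation (PowerSeries.coeff m (a i)) ≤ O.valuation c)
    (hsa : ∑ i, a i * s i = 1) (hFs : ∀ j, MvPolynomial.aeval s (F j) = 0)
    (hc : 1 ≤ O.valuation c) (hu : O.valuation u ≤ 1)
    (h : O.valuation u ^ l * O.valuation c ^ (2 * e + 2) < 1) :
    breakGood O F e fun i => (PowerSeries.trunc l (s i)).comp (C u * X) := by
  have hcp : 0 < O.valuation c := zero_lt_one.trans_le hc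
  have hc0 : c ≠ 0 := by rintro rfl; simp at hcp
  have hφ : breakLe O 1 (C u * X) := breakLe_mul_one (breakLe_C hu) breakLe_X
  have ht : ∀ x : PowerSeries K, (∀ m, O.valuation (PowerSeries.coeff m x) ≤ O.valuation c) →
      breakLe O (O.valuation c) (PowerSeries.trunc l x) := fun x hx m => by
    rw [PowerSeries.coeff_trunc]; split_ifs
    · exact hx m
    · simp
  have ht' : ∀ x : PowerSeries K, (∀ m, O.valuation (PowerSeries.coeff m x) ≤ O.valuation c) →
      breakLe O 1 (C c⁻¹ * PowerSeries.trunc l x) := fun x hx => by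
    have := breakLe_mul (breakLe_C (a := c⁻¹) le_rfl) (ht x hx)
    rwa [map_inv₀, inv_mul_cancel₀ hcp.ne'] at this
  have hb : ∀ k ≤ 2 * e + 2, O.valuation c ^ k * O.valuation u ^ l < 1 := fun k hk => by
    rw [mul_comm]
    exact (mul_le_mul_right (pow_le_pow_right₀ hc hk) _).trans_lt h
  refine ⟨c⁻¹, fun i => (C c⁻¹ * PowerSeries.trunc l (a i)).comp (C u * X),
    fun i => breakLe_comp (ht' _ (ha i)) hφ, ?_, fun j => ?_⟩
  · have h1 : breakLe O (O.valuation c ^ 2)
        (∑ i, PowerSeries.trunc l (a i) * PowerSeries.trunc l (s i) + C (-1)) :=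
      breakLe_add (breakLe_sum fun i _ => by
        rw [sq]; exact breakLe_mul (ht _ (ha i)) (ht _ (hs i)))
        (breakLe_C (by rw [Valuation.map_neg, map_one]; exact one_le_pow₀ hc))
    have h2 : PowerSeries.X ^ l ∣
        ((∑ i, PowerSeries.trunc l (a i) * PowerSeries.trunc l (s i) + C (-1) : K[X]) :
          PowerSeries K) := by
      rw [← coeToPowerSeries.ringHom_apply, map_add, map_sum, C_neg, C_1, map_neg, map_one, ← hsa,
        ← sub_eq_add_neg, ← Finset.sum_sub_distrib]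
      refine Finset.dvd_sum fun i _ => ?_
      rw [coeToPowerSeries.ringHom_apply, coe_mul]
      convert dvd_add ((break_dvd_trunc l (a i)).mul_right
        ((PowerSeries.trunc l (s i) : K[X]) : PowerSeries K))
        ((break_dvd_trunc l (s i)).mul_left (a i)) using 1
      ring
    have h3 := breakLt_C_mul (breakLt_scale h1 h2 hu (hb 2 (by omega))) (inv_ne_zero hc0)
    rw [mul_one] at h3
    convert h3 using 1
    simp only [add_comp, Polynomial.sum_comp, mul_comp, C_comp, mul_add, Finset.mul_sum, mul_assoc,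
      C_neg, C_1, neg_comp, one_comp, mul_neg, mul_one, sub_eq_add_neg]
  · rw [break_aeval_comp]
    have h1 : breakLe O (O.valuation c ^ e)
        (MvPolynomial.aeval (fun i => PowerSeries.trunc l (s i)) (F j)) := by
      have e1 : (fun i => PowerSeries.trunc l (s i)) =
          fun i => C c * (C c⁻¹ * PowerSeries.trunc l (s i)) := funext fun i => by
        rw [← mul_assoc, ← C_mul, mul_inv_cancel₀ hc0, C_1, one_mul]
      rw [e1, break_aeval_mul (hF j), ← C_pow]
      simpa using breakLe_mul (breakLe_C (a := c ^ e) le_rfl)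
        (breakLe_aeval hO (fun i => ht' _ (hs i)) (F j))
    refine breakLt_scale h1 (by simpa [hFs j] using break_dvd_aeval l s (F j)) hu ?_
    rw [map_inv₀, inv_pow, ← one_div, lt_div_iff₀ (pow_pos hcp e), mul_right_comm, ← pow_add]
    exact hb _ (by omega)

end breakAux

open MvPolynomial

theorem break_false {κ Ω : Type u} {ι τ : Type} [Field κ] [Field Ω] [IsAlgClosed Ω] [Algebra κ Ω]
    [Fintype ι] (O : ValuationSubring Ω) (hO : ∀ a : κ, algebraMap κ Ω a ∈ O)
    (harch : ∀ u w : Ω, O.valuation u < 1 → ∃ l : ℕ, O.valuation u ^ l * O.valuation w < 1)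
    {F : τ → MvPolynomial ι κ} {e : ℕ} (hF : ∀ j, (F j).IsHomogeneous e) {g : MvPolynomial ι κ}
    {n : ℕ} (hg : g.IsHomogeneous n) (hno : NoRatU F g) (i0 : ι) (s a : ι → PowerSeries Ω) (C : Ω)
    (hs : ∀ i m, O.valuation (PowerSeries.coeff m (s i)) ≤ O.valuation C)
    (ha : ∀ i m, O.valuation (PowerSeries.coeff m (a i)) ≤ O.valuation C)
    (hsa : ∑ i, a i * s i = 1) (hFs : ∀ j, aeval s (F j) = 0)
    (h0 : ∀ i, PowerSeries.constantCoeff (s i) ∈ O) (h00 : PowerSeries.constantCoeff (s i0) = 1)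
    (hg0 : O.valuation (aeval (fun i => PowerSeries.constantCoeff (s i)) g) = 1)
    (hpole : ∃ i m, PowerSeries.coeff m (s i) ∉ O) : False := by
  obtain ⟨i1, m1, hp⟩ := hpole
  have hm1 : 0 < m1 := Nat.pos_of_ne_zero (by rintro rfl; exact hp (by simpa using h0 i1))
  rw [← O.valuation_le_one_iff, not_le] at hp
  have hC : 1 ≤ O.valuation C := by simpa [h00] using hs i0 0
  obtain ⟨t1, ht1⟩ := IsAlgClosed.exists_pow_nat_eq (PowerSeries.coeff m1 (s i1)) hm1
  have h1 : 1 < O.valuation t1 := by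
    rw [← ht1, map_pow] at hp
    exact lt_of_pow_lt_pow_left₀ m1 zero_le (by rwa [one_pow])
  have h2 : O.valuation t1⁻¹ < 1 := by rw [map_inv₀]; exact inv_lt_one_of_one_lt₀ h1
  obtain ⟨l0, hl0⟩ := harch t1⁻¹ (C ^ (2 * e + 2)) h2
  obtain ⟨t, ht, ⟨i2, m2⟩, hm2, e2⟩ := break_slope (O := O)
    (t := (Finset.univ : Finset ι) ×ˢ Finset.Ioo 0 (l0 + m1 + 1)) ⟨(i1, m1), by simp; omega⟩
    (fun x => PowerSeries.coeff x.2 (s x.1)) (fun x => x.2) (fun x hx => by simp at hx; exact hx.1)
  simp only [Finset.mem_product, Finset.mem_univ, Finset.mem_Ioo, true_and, Prod.forall]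
    at ht hm2 e2
  have h3 : O.valuation t1 ≤ O.valuation t := by
    have := ht i1 m1 ⟨hm1, by omega⟩
    rw [← ht1, map_pow] at this
    exact le_of_pow_le_pow_left₀ hm1.ne' zero_le this
  have htp : 0 < O.valuation t := zero_lt_one.trans (h1.trans_le h3)
  have h4 : O.valuation t⁻¹ ≤ O.valuation t1⁻¹ := by
    rw [map_inv₀, map_inv₀]; exact inv_anti₀ (zero_lt_one.trans h1) h3
  have hG := break_good hO hF (l := l0 + m1 + 1) hs ha hsa hFs hC (h4.trans h2.le) (by
    rw [map_pow] at hl0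
    exact (mul_le_mul_left ((pow_le_pow_left' h4 _).trans
      (pow_le_pow_of_le_one zero_le h2.le (by omega))) _).trans_lt hl0)
  have hc : ∀ i m, ((PowerSeries.trunc (l0 + m1 + 1) (s i)).comp
      (Polynomial.C t⁻¹ * Polynomial.X)).coeff m =
      (if m < l0 + m1 + 1 then PowerSeries.coeff m (s i) else 0) * t⁻¹ ^ m := fun i m => by
    rw [Polynomial.comp_C_mul_X_coeff, PowerSeries.coeff_trunc]
  have hc0 : ∀ i, ((PowerSeries.trunc (l0 + m1 + 1) (s i)).comp
      (Polynomial.C t⁻¹ * Polynomial.X)).coeff 0 = PowerSeries.constantCoeff (s i) := fun i => by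
    rw [hc]; simp
  obtain ⟨m3, rfl⟩ := Nat.exists_eq_succ_of_ne_zero hm2.1.ne'
  refine break_poly hO hF hg hno (i0 := i0) hG (fun i m => ?_) (by rw [hc0, h00])
    (by simpa only [hc0] using hg0) (i1 := i2) (m := m3) ?_
  · rcases Nat.eq_zero_or_pos m with rfl | hm
    · rw [hc0]; exact (O.valuation_le_one_iff _).2 (h0 i)
    rw [hc]
    split_ifs with h
    · rw [map_mul, map_pow, map_inv₀, inv_pow, ← div_eq_mul_inv, div_le_one₀ (pow_pos htp m)]
      exact ht i m ⟨hm, h⟩
    · simp
  · rw [hc, if_pos hm2.2, e2, ← mul_pow, mul_inv_cancel₀ (by rintro rfl; simp at htp), one_pow,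
      map_one]

end C03
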