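import Pool.Agent.Lib.MP_1c03d5_ag.H97Defs

/-! TASK KRULL: a positive dimensional family of deformations. -/

namespace C03

universe u

open MvPolynomial TensorProduct

section aux
variable {κ R A : Type u} [Field κ] [CommRing R] [Algebra κ R] [CommRing A] [Algebra κ A]

/-- Contraction of the left factor with a functional. -/
noncomputable def krullC : Module.Dual κ R →ₗ[κ] (R ⊗[κ] A →ₗ[κ] A) :=
  (LinearMap.llcomp κ (R ⊗[κ] A) (κ ⊗[κ] A) A (TensorProduct.lid κ A).toLinearMap).comp
    (LinearMap.rTensorHom A)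

theorem krullC_tmul (μ : Module.Dual κ R) (r : R) (a : A) :
    krullC μ (r ⊗ₜ[κ] a) = μ r • a := by
  simp [krullC]

theorem krullC_mul (μ : Module.Dual κ R) (a : A) (z : R ⊗[κ] A) :
    krullC μ ((1 : R) ⊗ₜ[κ] a * z) = a * krullC μ z := by
  induction z using TensorProduct.induction_on with
  | zero => simp
  | tmul r a' => simp [krullC_tmul, Algebra.TensorProduct.tmul_mul_tmul]
  | add x y hx hy => rw [mul_add, map_add, map_add, hx, hy, mul_add]

theorem krull_algebraMap (r : R) : algebraMap R (R ⊗[κ] A) r = r ⊗ₜ[κ] (1 : A) := rfl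

theorem krullC_kill (μ : Module.Dual κ R) (I : Ideal R) (hI : ∀ r ∈ I, μ r = 0)
    {z : R ⊗[κ] A} (hz : z ∈ I.map (algebraMap R (R ⊗[κ] A))) : krullC μ z = 0 := by
  have key : ∀ t : R ⊗[κ] A, krullC μ (t * z) = 0 := by
    induction hz using Submodule.span_induction with
    | mem x hx =>
      obtain ⟨r, hr, rfl⟩ := hx
      intro t
      induction t using TensorProduct.induction_on with
      | zero => simp
      | tmul r' a =>
        rw [krull_algebraMap, Algebra.TensorProduct.tmul_mul_tmul, krullC_tmul,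
          hI _ (I.mul_mem_left r' hr), zero_smul]
      | add x y hx hy => rw [add_mul, map_add, hx, hy, add_zero]
    | zero => intro t; simp
    | add x y _ _ hx hy => intro t; rw [mul_add, map_add, hx, hy, add_zero]
    | smul c x _ hx => intro t; rw [smul_eq_mul, ← mul_assoc]; exact hx _
  simpa using key 1

theorem krullC_repr {η : Type*} (e : Module.Basis η κ A) (μ : Module.Dual κ R) (z : R ⊗[κ] A)
    (k : η) : μ ((Algebra.TensorProduct.basis R e).repr z k) = e.repr (krullC μ z) k := by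
  induction z using TensorProduct.induction_on with
  | zero => simp
  | tmul r a =>
    rw [Algebra.TensorProduct.basis_repr_tmul, krullC_tmul]
    simp only [Finsupp.smul_apply, Finsupp.mapRange_apply, smul_eq_mul, map_smul]
    rw [mul_comm r, ← Algebra.smul_def, map_smul, smul_eq_mul, mul_comm]
  | add x y hx hy => simp only [map_add, Finsupp.add_apply, hx, hy]

theorem krull_mem_map {η : Type*} (e : Module.Basis η κ A) (J : Ideal R) (z : R ⊗[κ] A)
    (hz : ∀ k, (Algebra.TensorProduct.basis R e).repr z k ∈ J) :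
    z ∈ J.map (algebraMap R (R ⊗[κ] A)) := by
  rw [← (Algebra.TensorProduct.basis R e).linearCombination_repr z, Finsupp.linearCombination_apply,
    Finsupp.sum]
  refine Ideal.sum_mem _ fun k _ => ?_
  rw [Algebra.smul_def]
  exact Ideal.mul_mem_right _ _ (Ideal.mem_map_of_mem _ (hz k))

/-- The span of the tensors with right factor in `V`. -/
def krullB (R : Type u) [CommRing R] [Algebra κ R] (V : Submodule κ A) :
    Submodule κ (R ⊗[κ] A) :=
  Submodule.span κ {z | ∃ r : R, ∃ v ∈ V, z = r ⊗ₜ[κ] v}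

theorem krullB_tmul {V : Submodule κ A} (r : R) {v : A} (hv : v ∈ V) :
    r ⊗ₜ[κ] v ∈ krullB R V := Submodule.subset_span ⟨r, v, hv, rfl⟩

theorem krullB_mul (V W : Submodule κ A) : krullB R V * krullB R W ≤ krullB R (V * W) := by
  unfold krullB
  rw [Submodule.span_mul_span]
  refine Submodule.span_mono ?_
  rintro _ ⟨_, ⟨r, v, hv, rfl⟩, _, ⟨r', w, hw, rfl⟩, rfl⟩
  exact ⟨r * r', v * w, Submodule.mul_mem_mul hv hw, Algebra.TensorProduct.tmul_mul_tmul _ _ _ _⟩

theorem krullB_pow (V : Submodule κ A) (e : ℕ) : krullB R V ^ e ≤ krullB R (V ^ e) := by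
  induction e with
  | zero =>
    rw [pow_zero, pow_zero, Submodule.one_le]
    exact krullB_tmul 1 (Submodule.one_le.1 le_rfl)
  | succ e ih =>
    rw [pow_succ, pow_succ]
    exact (mul_le_mul_left ih _).trans (krullB_mul _ _)

theorem krullC_mem (μ : Module.Dual κ R) {V : Submodule κ A} {z : R ⊗[κ] A}
    (hz : z ∈ krullB R V) : krullC μ z ∈ V := by
  have : krullB R V ≤ V.comap (krullC μ) := by
    refine Submodule.span_le.2 ?_
    rintro _ ⟨r, v, hv, rfl⟩
    change krullC μ (r ⊗ₜ[κ] v) ∈ V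
    rw [krullC_tmul]
    exact V.smul_mem _ hv
  exact this hz

theorem krull_aeval_mem {ι : Type} {S : Type u} [CommRing S] [Algebra κ S] {U : Submodule κ S} {s : ι → S}
    (hs : ∀ i, s i ∈ U) {F : MvPolynomial ι κ} {e : ℕ} (hF : F.IsHomogeneous e) :
    aeval s F ∈ U ^ e := by
  have h1 : F ∈ homogeneousSubmodule ι κ 1 ^ e := by
    rw [homogeneousSubmodule_one_pow]
    exact hF
  have h2 : (homogeneousSubmodule ι κ 1).map (aeval s).toLinearMap ≤ U := by
    rw [homogeneousSubmodule_one_eq_span_X, Submodule.map_span, Submodule.span_le]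
    rintro _ ⟨_, ⟨i, rfl⟩, rfl⟩
    simpa using hs i
  have h3 := Submodule.mem_map_of_mem (f := (aeval s).toLinearMap) h1
  rw [Submodule.map_pow] at h3
  exact pow_le_pow_left' h2 e h3

theorem krull_aeval_sub {ι : Type} {S : Type u} [CommRing S] [Algebra κ S] (I : Ideal S) {s s' : ι → S}
    (h : ∀ i, s i - s' i ∈ I) (q : MvPolynomial ι κ) : aeval s q - aeval s' q ∈ I := by
  have : (Ideal.Quotient.mkₐ κ I).comp (aeval s) = (Ideal.Quotient.mkₐ κ I).comp (aeval s') := by
    ext i
    simpa [Ideal.Quotient.eq] using h i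
  exact Ideal.Quotient.eq.1 (DFunLike.congr_fun this q)

theorem krull_rank {D N E : Type u} [AddCommGroup D] [Module κ D] [AddCommGroup N] [Module κ N]
    [AddCommGroup E] [Module κ E] [Module.Finite κ N] (f : D →ₗ[κ] N) (g : D →ₗ[κ] E)
    (hg : Function.Surjective g) (h : LinearMap.ker f ≤ LinearMap.ker g) :
    Module.Finite κ E ∧ Module.finrank κ E ≤ Module.finrank κ N := by
  let θ : LinearMap.range f →ₗ[κ] E :=
    ((LinearMap.ker f).liftQ g h).comp f.quotKerEquivRange.symm.toLinearMap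
  have hθ : Function.Surjective θ := by
    intro y
    obtain ⟨x, rfl⟩ := hg y
    refine ⟨f.quotKerEquivRange (Submodule.Quotient.mk x), ?_⟩
    simp [θ]
  refine ⟨Module.Finite.of_surjective θ hθ, ?_⟩
  exact (LinearMap.finrank_le_finrank_of_surjective hθ).trans (Submodule.finrank_le _)

/-- Few generators modulo `K`. -/
theorem krull_gen {N : Type u} [AddCommGroup N] [Module κ N] [Module.Finite κ N] (C : Set R)
    (K : Ideal R) (f : Module.Dual κ (R ⧸ K) →ₗ[κ] N)
    (hf : ∀ μ, f μ = 0 → ∀ c ∈ C, μ (Ideal.Quotient.mk K c) = 0) :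
    ∃ s : Finset R, s.card ≤ Module.finrank κ N ∧ (∀ y ∈ s, y ∈ Ideal.span C) ∧
      Ideal.span C ≤ Ideal.span (s : Set R) ⊔ K := by
  classical
  let π : R →ₗ[κ] R ⧸ K := (Ideal.Quotient.mkₐ κ K).toLinearMap
  let W : Submodule κ (R ⧸ K) := (Submodule.span κ C).map π
  have hker : LinearMap.ker f ≤ LinearMap.ker W.dualRestrict := by
    intro μ hμ
    have h1 : Submodule.span κ C ≤ LinearMap.ker (μ.comp π) :=
      Submodule.span_le.2 fun c hc => hf μ hμ c hc
    rw [LinearMap.mem_ker]
    ext ⟨w, y, hy, rfl⟩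
    exact h1 hy
  obtain ⟨hfin, hle⟩ := krull_rank f W.dualRestrict Subspace.dualRestrict_surjective hker
  rw [Subspace.dual_finrank_eq] at hle
  have : Module.Finite κ W := (Module.finite_dual_iff κ).1 hfin
  let b := Module.finBasis κ W
  have hb : ∀ i, ∃ y ∈ Submodule.span κ C, π y = b i := fun i => (b i).2
  choose y hy hyb using hb
  have hsub : ∀ z ∈ Submodule.span κ C, z ∈ Ideal.span C := fun z hz =>
    Submodule.span_le_restrictScalars κ R C hz
  refine ⟨Finset.univ.image y, Finset.card_image_le.trans (by simpa using hle), ?_, ?_⟩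
  · intro z hz
    obtain ⟨i, _, rfl⟩ := Finset.mem_image.1 hz
    exact hsub _ (hy i)
  · refine Ideal.span_le.2 fun c hc => ?_
    let w : W := ⟨π c, Submodule.mem_map_of_mem (Submodule.subset_span hc)⟩
    have hw : π c = π (∑ i, b.repr w i • y i) := by
      have := congrArg W.subtype (b.sum_repr w)
      rw [map_sum] at this ⊢
      simp only [map_smul, hyb] at this ⊢
      exact this.symm
    have hk : c - ∑ i, b.repr w i • y i ∈ K := Ideal.Quotient.eq.1 hw
    have hs : ∑ i, b.repr w i • y i ∈ Ideal.span ((Finset.univ.image y : Finset R) : Set R) := by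
      refine Ideal.sum_mem _ fun i _ => ?_
      rw [Algebra.smul_def]
      exact Ideal.mul_mem_left _ _ (Ideal.subset_span (by simp))
    have : c = ∑ i, b.repr w i • y i + (c - ∑ i, b.repr w i • y i) := by ring
    rw [SetLike.mem_coe, this]
    exact Submodule.add_mem_sup hs hk

end aux

section height
variable {κ : Type u} {σ : Type} [Field κ]

/-- The prime generated by the variables in `S`. -/
noncomputable def krullP (κ : Type u) [Field κ] [DecidableEq σ] (S : Finset σ) :
    Ideal (MvPolynomial σ κ) :=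
  RingHom.ker (aeval (R := κ) fun v => if v ∈ S then (0 : MvPolynomial σ κ) else X v)

instance krullP_prime [DecidableEq σ] (S : Finset σ) : (krullP κ S).IsPrime :=
  RingHom.ker_isPrime _

theorem krullP_lt [DecidableEq σ] {S : Finset σ} {v : σ} (hv : v ∉ S) :
    krullP κ S < krullP κ (insert v S) := by
  have hc : (aeval (R := κ) fun w => if w ∈ insert v S then (0 : MvPolynomial σ κ) else X w).comp
      (aeval (R := κ) fun w => if w ∈ S then (0 : MvPolynomial σ κ) else X w) =
      aeval (R := κ) fun w => if w ∈ insert v S then (0 : MvPolynomial σ κ) else X w := by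
    ext1 w
    by_cases h : w ∈ S
    · simp [h]
    · simp [h]
  refine lt_of_le_of_ne (fun q hq => ?_) fun e => ?_
  · rw [krullP, RingHom.mem_ker] at hq ⊢
    rw [← hc, AlgHom.comp_apply, hq, map_zero]
  · have h1 : (X v : MvPolynomial σ κ) ∈ krullP κ (insert v S) := by
      simp [krullP, RingHom.mem_ker]
    rw [← e] at h1
    simp [krullP, RingHom.mem_ker, hv] at h1

theorem krullP_height [DecidableEq σ] (S : Finset σ) : (S.card : ℕ∞) ≤ (krullP κ S).height := by
  induction S using Finset.induction_on with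
  | empty => simp
  | insert v S hv ih =>
    rw [Finset.card_insert_of_notMem hv, Nat.cast_add, Nat.cast_one]
    exact (add_le_add_left ih 1).trans (Ideal.height_add_one_le_of_lt_of_isPrime (krullP_lt hv))

theorem krull_height [Fintype σ] :
    (Fintype.card σ : ℕ∞) ≤ (RingHom.ker (constantCoeff : MvPolynomial σ κ →+* κ)).height := by
  classical
  have h : krullP κ (Finset.univ : Finset σ) =
      RingHom.ker (constantCoeff : MvPolynomial σ κ →+* κ) := by
    ext q
    simp only [krullP, RingHom.mem_ker, Finset.mem_univ, if_true]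
    rw [aeval_zero', map_eq_zero_iff _ (algebraMap κ (MvPolynomial σ κ)).injective]
  rw [← h]
  exact krullP_height _

/-- A generic point of a prime which is not maximal. -/
theorem krull_point (p : Ideal (MvPolynomial σ κ)) [hp : p.IsPrime] (hm : ¬ p.IsMaximal) :
    ∃ (Ω : Type u) (_ : Field Ω) (_ : Algebra κ Ω) (_ : IsAlgClosed Ω)
      (ψ : MvPolynomial σ κ →ₐ[κ] Ω), (∀ q, ψ q = 0 ↔ q ∈ p) ∧ ∃ v, Transcendental κ (ψ (X v)) := by
  let Q := MvPolynomial σ κ ⧸ p
  let Ω := AlgebraicClosure (FractionRing Q)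
  let φ : Q →ₐ[κ] Ω := (IsScalarTower.toAlgHom κ (FractionRing Q) Ω).comp
    (IsScalarTower.toAlgHom κ Q (FractionRing Q))
  have hφ : Function.Injective φ :=
    (algebraMap (FractionRing Q) Ω).injective.comp (IsFractionRing.injective Q (FractionRing Q))
  refine ⟨Ω, inferInstance, inferInstance, inferInstance, φ.comp (Ideal.Quotient.mkₐ κ p),
    fun q => ?_, ?_⟩
  · rw [AlgHom.comp_apply, map_eq_zero_iff φ hφ]
    exact Ideal.Quotient.eq_zero_iff_mem
  · by_contra hc
    have hint : ∀ v, IsIntegral κ (Ideal.Quotient.mkₐ κ p (X v)) := fun v => by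
      have h1 : IsAlgebraic κ (φ (Ideal.Quotient.mkₐ κ p (X v))) := by
        by_contra h
        exact hc ⟨v, h⟩
      exact (isIntegral_algHom_iff φ hφ).1 h1.isIntegral
    have : Algebra.IsIntegral κ Q := ⟨fun z => by
      obtain ⟨q, rfl⟩ := Ideal.Quotient.mkₐ_surjective κ p z
      induction q using MvPolynomial.induction_on with
      | C a =>
        have : Ideal.Quotient.mkₐ κ p (C a) = algebraMap κ Q a := (Ideal.Quotient.mkₐ κ p).commutes a
        rw [this]
        exact isIntegral_algebraMap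
      | add q q' h h' => rw [map_add]; exact h.add h'
      | mul_X q v h => rw [map_mul]; exact h.mul (hint v)⟩
    exact hm (Ideal.Quotient.maximal_of_isField p
      (isField_of_isIntegral_of_isField' (R := κ) (Field.toIsField κ)))

end height

theorem family {κ A : Type u} {ι τ β : Type} [Field κ] [CommRing A] [Algebra κ A] [Fintype ι] [Fintype β]
    (V1 Vn : Submodule κ A) (hV1 : V1.FG) (hVn : Vn.FG) (s0 : ι → A) (b : β → A)
    (hs0 : ∀ i, s0 i ∈ V1) (hb : ∀ x, b x ∈ V1) (h1 : (1 : A) ∈ Vn * V1)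
    (hsurj : Vn * V1 ≤ Vn * Submodule.span κ (Set.range s0))
    {F : τ → MvPolynomial ι κ} {e : ℕ} (hF : ∀ j, (F j).IsHomogeneous e)
    (hFs : ∀ j, aeval s0 (F j) = 0) {c : ℕ} {T0 : Fin c → τ} {g : MvPolynomial ι κ}
    {a : τ → Fin c → MvPolynomial ι κ} (hrel : ∀ j, g * F j = ∑ i, a j i * F (T0 i))
    (N : Submodule κ (τ → A)) [Module.Finite κ N]
    (hN : ∀ w : τ → A, (∀ j, w j ∈ V1 ^ e) →
      (∀ j, aeval s0 g * w j = ∑ i, aeval s0 (a j i) * w (T0 i)) → w ∈ N)
    (hlt : Module.finrank κ N < Fintype.card ι * Fintype.card β) :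
    ∃ (Ω : Type u) (_ : Field Ω) (_ : Algebra κ Ω) (_ : IsAlgClosed Ω) (u : ι → β → Ω),
      (∃ i x, Transcendental κ (u i x)) ∧
      (∀ j, aeval (fun i => (1 : Ω) ⊗ₜ[κ] s0 i + ∑ x, u i x ⊗ₜ[κ] b x) (F j) = 0) ∧
      ∃ r : ι → Ω ⊗[κ] A, ∑ i, r i * ((1 : Ω) ⊗ₜ[κ] s0 i + ∑ x, u i x ⊗ₜ[κ] b x) = 1 := by
  classical
  let R := MvPolynomial (ι × β) κ
  let m : Ideal R := RingHom.ker (constantCoeff : R →+* κ)
  have hm : m.IsPrime := RingHom.ker_isPrime _
  have hXm : ∀ v, (X v : R) ∈ m := fun v => by simp [m, RingHom.mem_ker]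
  let s : ι → R ⊗[κ] A := fun i => (1 : R) ⊗ₜ[κ] s0 i + ∑ x, (X (i, x) : R) ⊗ₜ[κ] b x
  let bs := Module.Basis.ofVectorSpace κ A
  let C : Set R := {y | ∃ j k, y = (Algebra.TensorProduct.basis R bs).repr (aeval s (F j)) k}
  let J : Ideal R := Ideal.span C
  have hFJ : ∀ j, aeval s (F j) ∈ J.map (algebraMap R (R ⊗[κ] A)) := fun j =>
    krull_mem_map bs J _ fun k => Ideal.subset_span ⟨j, k, rfl⟩
  have hsub : ∀ q : MvPolynomial ι κ,
      aeval s q - (1 : R) ⊗ₜ[κ] aeval s0 q ∈ m.map (algebraMap R (R ⊗[κ] A)) := fun q => by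
    have h := krull_aeval_sub (κ := κ) (m.map (algebraMap R (R ⊗[κ] A))) (s := s)
      (s' := fun i => (1 : R) ⊗ₜ[κ] s0 i) (fun i => by
        simp only [s, add_sub_cancel_left]
        refine Ideal.sum_mem _ fun x _ => ?_
        have : (X (i, x) : R) ⊗ₜ[κ] b x =
            algebraMap R (R ⊗[κ] A) (X (i, x)) * ((1 : R) ⊗ₜ[κ] b x) := by
          rw [krull_algebraMap, Algebra.TensorProduct.tmul_mul_tmul, mul_one, one_mul]
        rw [this]
        exact Ideal.mul_mem_right _ _ (Ideal.mem_map_of_mem _ (hXm _))) q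
    have h2 : aeval (fun i => (1 : R) ⊗ₜ[κ] s0 i) q = (1 : R) ⊗ₜ[κ] aeval s0 q := by
      have := comp_aeval_apply s0 (Algebra.TensorProduct.includeRight (R := κ) (A := R) (B := A)) q
      simpa using this.symm
    rwa [h2] at h
  have hJm : J ≤ m := by
    refine Ideal.span_le.2 ?_
    rintro _ ⟨j, k, rfl⟩
    let μ : Module.Dual κ R := (aeval (R := κ) (fun _ : ι × β => (0 : κ))).toLinearMap
    have hμ : ∀ r : R, μ r = constantCoeff r := fun r => aeval_zero' r
    have h := krullC_kill μ m (fun r hr => by rw [hμ]; exact hr) (hsub (F j))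
    rw [hFs, tmul_zero, sub_zero] at h
    have h2 := krullC_repr bs μ (aeval s (F j)) k
    rw [h, hμ] at h2
    simpa [m, RingHom.mem_ker] using h2
  -- the map from the dual of the conormal space to `N`
  let π : R →ₗ[κ] R ⧸ m * J := (Ideal.Quotient.mkₐ κ (m * J)).toLinearMap
  let Φ : Module.Dual κ (R ⧸ m * J) →ₗ[κ] (τ → A) :=
    LinearMap.pi fun j => (LinearMap.applyₗ (aeval s (F j))).comp (krullC.comp π.dualMap)
  have hΦ : ∀ μ j, Φ μ j = krullC (μ.comp π) (aeval s (F j)) := fun _ _ => rfl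
  have hsB : ∀ i, s i ∈ krullB R V1 := fun i =>
    add_mem (krullB_tmul _ (hs0 i)) (sum_mem fun x _ => krullB_tmul _ (hb x))
  have hΦN : ∀ μ, Φ μ ∈ N := fun μ => by
    have hk : ∀ r ∈ m * J, (μ.comp π) r = 0 := fun r hr => by
      have : π r = 0 := Ideal.Quotient.eq_zero_iff_mem.2 hr
      rw [LinearMap.comp_apply, this, map_zero]
    have hq : ∀ (q : MvPolynomial ι κ) j,
        aeval s0 q * Φ μ j = krullC (μ.comp π) (aeval s (q * F j)) := fun q j => by
      have h := Ideal.mul_mem_mul (hsub q) (hFJ j)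
      rw [← Ideal.map_mul] at h
      have h2 := krullC_kill _ _ hk h
      rw [sub_mul, map_sub, krullC_mul, sub_eq_zero] at h2
      rw [map_mul, h2, hΦ]
    refine hN _ (fun j => ?_) fun j => ?_
    · rw [hΦ]
      exact krullC_mem _ (krullB_pow V1 e (krull_aeval_mem hsB (hF j)))
    · simp only [hq]
      rw [hrel, map_sum, map_sum]
  obtain ⟨S, hS, hSJ, hJS⟩ := krull_gen C (m * J) (Φ.codRestrict N hΦN) (fun μ hμ => by
    rintro _ ⟨j, k, rfl⟩
    have h0 : Φ μ j = 0 := congrFun (congrArg Subtype.val hμ) j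
    have h2 := krullC_repr bs (μ.comp π) (aeval s (F j)) k
    rw [← hΦ, h0, map_zero] at h2
    exact h2)
  have hnot : ∀ {p : Ideal R}, p ≤ m → ∀ r : R, r - 1 ∈ m → r ∉ p := fun hp r hr hrp => by
    have := m.sub_mem (hp hrp) hr
    rw [sub_sub_cancel] at this
    exact hm.ne_top ((Ideal.eq_top_iff_one _).2 this)
  obtain ⟨r, hr1, hr⟩ := Submodule.exists_sub_one_mem_and_smul_le_of_fg_of_le_sup (I := m)
    (N := Ideal.span (S : Set R)) (N' := J) (P := J) (IsNoetherian.noetherian _) le_rfl hJS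
  have hSm : Ideal.span (S : Set R) ≤ m := (Ideal.span_le.2 fun y hy => hSJ y hy).trans hJm
  obtain ⟨p, hp, hpm⟩ := Ideal.exists_minimalPrimes_le hSm
  have hpp : p.IsPrime := hp.1.1
  have hJp : J ≤ p := fun y hy => by
    have h : r * y ∈ p := hp.1.2 (hr (Submodule.smul_mem_pointwise_smul y r J hy))
    exact (hpp.mem_or_mem h).resolve_left (hnot hpm r hr1)
  have hpmax : ¬ p.IsMaximal := fun h => by
    have e1 : p = m := h.eq_of_le hm.ne_top hpm
    have h2 := Ideal.height_le_card_of_mem_minimalPrimes_span_finset hp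
    rw [e1] at h2
    have h3 := (krull_height (κ := κ) (σ := ι × β)).trans h2
    rw [Fintype.card_prod, Nat.cast_le] at h3
    omega
  obtain ⟨Ω, i1, i2, i3, ψ, hψ, v, hv⟩ := krull_point p hpmax
  let Ψ : R ⊗[κ] A →ₐ[κ] Ω ⊗[κ] A := Algebra.TensorProduct.map ψ (AlgHom.id κ A)
  have hΨs : ∀ i, Ψ (s i) = (1 : Ω) ⊗ₜ[κ] s0 i + ∑ x, ψ (X (i, x)) ⊗ₜ[κ] b x := fun i => by
    simp [Ψ, s, map_sum]
  refine ⟨Ω, i1, i2, i3, fun i x => ψ (X (i, x)), ⟨v.1, v.2, hv⟩, fun j => ?_, ?_⟩
  · have h : J.map (algebraMap R (R ⊗[κ] A)) ≤ RingHom.ker Ψ := by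
      rw [Ideal.map_le_iff_le_comap]
      intro y hy
      rw [Ideal.mem_comap, RingHom.mem_ker, krull_algebraMap]
      simp [Ψ, (hψ y).2 (hJp hy)]
    have h2 : Ψ (aeval s (F j)) = 0 := h (hFJ j)
    rw [comp_aeval_apply] at h2
    simpa only [hΨs] using h2
  · let M : Submodule R (R ⊗[κ] A) := (Vn * V1).baseChange R
    have hM : ∀ w ∈ Vn * V1, (1 : R) ⊗ₜ[κ] w ∈ M := fun w hw => Submodule.tmul_mem_baseChange_of_mem 1 hw
    let I : Submodule R (R ⊗[κ] A) := (Ideal.span (Set.range s)).restrictScalars R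
    have hMfg : M.FG := by
      obtain ⟨t, ht⟩ := hVn.mul hV1
      refine ⟨t.image (TensorProduct.mk κ R A 1), ?_⟩
      rw [Finset.coe_image, ← Submodule.baseChange_span, ht]
    have hMI : M ≤ I ⊔ m • M := by
      change (Vn * V1).baseChange R ≤ _
      rw [Submodule.baseChange_eq_span, Submodule.span_le]
      rintro _ ⟨w, hw, rfl⟩
      change (1 : R) ⊗ₜ[κ] w ∈ I ⊔ m • M
      refine Submodule.mul_induction_on (hsurj hw) (fun y hy z hz => ?_) fun y z hy hz => ?_
      · induction hz using Submodule.span_induction with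
        | mem z hz =>
          obtain ⟨i, rfl⟩ := hz
          have : (1 : R) ⊗ₜ[κ] (y * s0 i) = ((1 : R) ⊗ₜ[κ] y) * s i -
              ∑ x, (X (i, x) : R) • ((1 : R) ⊗ₜ[κ] (y * b x)) := by
            simp [s, mul_add, Finset.mul_sum, Algebra.TensorProduct.tmul_mul_tmul,
              TensorProduct.smul_tmul']
          rw [this]
          refine sub_mem (Submodule.mem_sup_left ?_) (Submodule.mem_sup_right ?_)
          · exact Ideal.mul_mem_left _ _ (Ideal.subset_span ⟨i, rfl⟩)
          · exact sum_mem fun x _ =>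
              Submodule.smul_mem_smul (hXm _) (hM _ (Submodule.mul_mem_mul hy (hb x)))
        | zero => simp
        | add z z' _ _ h h' => rw [mul_add, tmul_add]; exact add_mem h h'
        | smul c z _ h =>
          rw [mul_smul_comm, tmul_smul, ← algebraMap_smul R c]
          exact Submodule.smul_mem _ _ h
      · rw [tmul_add]
        exact add_mem hy hz
    obtain ⟨r', hr1', hr'⟩ :=
      Submodule.exists_sub_one_mem_and_smul_le_of_fg_of_le_sup hMfg le_rfl hMI
    have h2 : r' • ((1 : R) ⊗ₜ[κ] (1 : A)) ∈ Ideal.span (Set.range s) :=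
      hr' (Submodule.smul_mem_pointwise_smul _ r' M (hM 1 h1))
    obtain ⟨t, ht⟩ := Ideal.mem_span_range_iff_exists_fun.1 h2
    have hne : ψ r' ≠ 0 := fun h => hnot hpm r' hr1' ((hψ r').1 h)
    refine ⟨fun i => ((ψ r')⁻¹ ⊗ₜ[κ] (1 : A)) * Ψ (t i), ?_⟩
    have h3 := congrArg Ψ ht
    rw [map_sum] at h3
    simp only [map_mul, hΨs] at h3
    simp only [mul_assoc]
    rw [← Finset.mul_sum, h3, TensorProduct.smul_tmul', smul_eq_mul, mul_one]
    simp [Ψ, Algebra.TensorProduct.tmul_mul_tmul, hne, Algebra.TensorProduct.one_def]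

end C03
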