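import Pool.Agent.Lib.MP_1c03d5_ag.H97Val
import Pool.Agent.Lib.MP_1c03d5_ag.H97Break
import Pool.Agent.Lib.MP_1c03d5_ag.H97Krull

/-! Bend and break: a large space of deformations fixing finitely many points is impossible. -/

namespace C03

universe u

open MvPolynomial TensorProduct Module

variable {κ A L : Type u} [Field κ] [CommRing A] [Algebra κ A] [Field L] [Algebra κ L]

/-- The constant coefficient as an algebra map. -/
noncomputable def ccA (κ L : Type u) [Field κ] [Field L] [Algebra κ L] : PowerSeries L →ₐ[κ] L :=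
  { PowerSeries.constantCoeff with
    commutes' := fun r => by simp [PowerSeries.algebraMap_apply] }

theorem ccA_apply (f : PowerSeries L) : ccA κ L f = PowerSeries.constantCoeff f := rfl

theorem core_codim [Algebra.IsAlgebraic κ L] [Algebra.FiniteType κ A] {n : ℕ}
    (χ : Fin n → (A →ₐ[κ] L)) : ∃ C : ℕ, ∀ V : Submodule κ A, V.FG → ∃ W : Submodule κ A, W ≤ V ∧
      (∀ x ∈ W, ∀ l, χ l x = 0) ∧ finrank κ V ≤ finrank κ W + C := by
  have fin : ∀ l, Module.Finite κ (χ l).range := fun l =>
    have := Algebra.FiniteType.of_surjective _ (χ l).rangeRestrict_surjective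
    have : Algebra.IsIntegral κ (χ l).range := ⟨fun x => (isIntegral_algHom_iff (χ l).range.val
      Subtype.val_injective).1 (Algebra.IsIntegral.isIntegral _)⟩
    Algebra.IsIntegral.finite
  let f : A →ₗ[κ] ∀ l, (χ l).range := LinearMap.pi fun l => (χ l).rangeRestrict.toLinearMap
  refine ⟨finrank κ (∀ l, (χ l).range), fun V hV => ⟨(LinearMap.ker (f.domRestrict V)).map V.subtype,
    Submodule.map_subtype_le _ _, ?_, ?_⟩⟩
  · rintro _ ⟨x, hx, rfl⟩ l
    exact congrArg Subtype.val (congrFun (LinearMap.mem_ker.1 hx) l)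
  · have := Module.Finite.iff_fg.2 hV
    have e := LinearMap.finrank_range_add_finrank_ker (f.domRestrict V)
    have e2 := Submodule.finrank_le (LinearMap.range (f.domRestrict V))
    rw [Submodule.finrank_map_subtype_eq]
    omega

theorem core_false {ι τ : Type} [Fintype ι] [Algebra.IsAlgebraic κ L] {n : ℕ}
    (ε : Fin n → (A →ₐ[κ] PowerSeries L))
    (hε : ∀ (β : Type) [Fintype β] (b : β → A), LinearIndependent κ b →
      Submodule.span L (Set.range fun x : Fin n × ℕ =>
        fun j : β => PowerSeries.coeff x.2 (ε x.1 (b j))) = ⊤)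
    (V1 Vn : Submodule κ A) (hV1 : V1.FG) (hVn : Vn.FG) (s0 : ι → A) (i0 : ι) (h00 : s0 i0 = 1)
    (hs0 : ∀ i, s0 i ∈ V1) (h1 : (1 : A) ∈ Vn * V1)
    (hsurj : Vn * V1 ≤ Vn * Submodule.span κ (Set.range s0))
    {F : τ → MvPolynomial ι κ} {e : ℕ} (hF : ∀ j, (F j).IsHomogeneous e)
    (hFs : ∀ j, aeval s0 (F j) = 0) {c : ℕ} {T0 : Fin c → τ} {g : MvPolynomial ι κ} {m : ℕ}
    (hg : g.IsHomogeneous m) (hgu : IsUnit (aeval s0 g))
    {a : τ → Fin c → MvPolynomial ι κ} (hrel : ∀ j, g * F j = ∑ i, a j i * F (T0 i))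
    (hno : NoRatU F g) (N : Submodule κ (τ → A)) [Module.Finite κ N]
    (hN : ∀ w : τ → A, (∀ j, w j ∈ V1 ^ e) →
      (∀ j, aeval s0 g * w j = ∑ i, aeval s0 (a j i) * w (T0 i)) → w ∈ N)
    (W : Submodule κ A) (hW : W ≤ V1) (hW0 : ∀ x ∈ W, ∀ l, ccA κ L (ε l x) = 0)
    (hlt : finrank κ N < Fintype.card ι * finrank κ W) : False := by
  classical
  have := Module.Finite.iff_fg.2 hV1
  have := Submodule.finiteDimensional_of_le hW
  let b : Fin (finrank κ W) → A := fun x => (Module.finBasis κ W x : A)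
  have hb : LinearIndependent κ b :=
    (Module.finBasis κ W).linearIndependent.map' W.subtype W.ker_subtype
  obtain ⟨Ω, _, _, _, u, ⟨i1, x1, htr⟩, hFu, r, hr⟩ := family V1 Vn hV1 hVn s0 b hs0
    (fun x => hW (Module.finBasis κ W x).2) h1 hsurj hF hFs hrel N hN (by rwa [Fintype.card_fin])
  obtain ⟨O, hO, hu, harch⟩ := exists_val htr
  let ψ : L →ₐ[κ] Ω := IsAlgClosed.lift
  have hψ : ∀ y, ψ y ∈ O := fun y =>
    mem_val_of_alg hO ((Algebra.IsAlgebraic.isAlgebraic y).algHom ψ)
  let η : Fin n → (Ω ⊗[κ] A →ₐ[κ] PowerSeries Ω) := fun l => Algebra.TensorProduct.lift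
    (IsScalarTower.toAlgHom κ Ω (PowerSeries Ω)) ((PowerSeries.mapAlgHom ψ).comp (ε l))
    fun _ _ => Commute.all _ _
  have hη : ∀ l m (x : Ω) (y : A), PowerSeries.coeff m (η l (x ⊗ₜ y)) =
      x * ψ (PowerSeries.coeff m (ε l y)) := fun l m x y => by
    simp [η, PowerSeries.mapAlgHom_apply, PowerSeries.algebraMap_apply]
  have bd : ∀ l (t : Ω ⊗[κ] A), ∃ C : Ω, ∀ m,
      O.valuation (PowerSeries.coeff m (η l t)) ≤ O.valuation C := fun l t => by
    induction t using TensorProduct.induction_on with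
    | zero => exact ⟨0, by simp⟩
    | tmul x y =>
      refine ⟨x, fun m => ?_⟩
      rw [hη, map_mul]
      exact mul_le_of_le_one_right' ((O.valuation_le_one_iff _).2 (hψ _))
    | add x y hx hy =>
      obtain ⟨C, hC⟩ := hx
      obtain ⟨D, hD⟩ := hy
      rcases le_total (O.valuation C) (O.valuation D) with h | h
      · exact ⟨D, fun m => by
          rw [map_add, map_add]; exact O.valuation.map_add_le ((hC m).trans h) (hD m)⟩
      · exact ⟨C, fun m => by
          rw [map_add, map_add]; exact O.valuation.map_add_le (hC m) ((hD m).trans h)⟩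
  set s : ι → Ω ⊗[κ] A := fun i => (1 : Ω) ⊗ₜ[κ] s0 i + ∑ x, u i x ⊗ₜ[κ] b x with hs
  have co : ∀ l i m, PowerSeries.coeff m (η l (s i)) = ψ (PowerSeries.coeff m (ε l (s0 i))) +
      ∑ x, u i x * ψ (PowerSeries.coeff m (ε l (b x))) := fun l i m => by
    simp only [hs, map_add, map_sum, hη, one_mul]
  obtain ⟨l, hl⟩ : ∃ l, ∃ i m, PowerSeries.coeff m (η l (s i)) ∉ O := by
    by_contra hc
    push Not at hc
    have key : ∀ y ∈ Submodule.span L (Set.range fun x : Fin n × ℕ =>
        fun j => PowerSeries.coeff x.2 (ε x.1 (b j))), ∑ x, u i1 x * ψ (y x) ∈ O := by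
      intro y hy
      induction hy using Submodule.span_induction with
      | mem y hy =>
        obtain ⟨⟨l, m⟩, rfl⟩ := hy
        have := sub_mem (hc l i1 m) (hψ (PowerSeries.coeff m (ε l (s0 i1))))
        rwa [co, add_sub_cancel_left] at this
      | zero => simp
      | add y y' _ _ a b =>
        simpa only [Pi.add_apply, map_add, mul_add, Finset.sum_add_distrib] using add_mem a b
      | smul a y _ b =>
        simpa only [Pi.smul_apply, smul_eq_mul, map_mul, Finset.mul_sum, mul_left_comm] using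
          mul_mem (hψ a) b
    have := key (Pi.single x1 1) (by rw [hε _ b hb]; trivial)
    rw [Finset.sum_eq_single x1 (fun x _ hx => by simp [hx]) (by simp)] at this
    exact hu (by simpa using this)
  choose C hC using bd l
  have : Nonempty ι := ⟨i0⟩
  obtain ⟨t, ht⟩ := Finite.exists_max fun t : ι ⊕ ι => O.valuation (C (Sum.elim s r t))
  have c0 : ∀ i, PowerSeries.constantCoeff (η l (s i)) = (ψ.comp ((ccA κ L).comp (ε l))) (s0 i) :=
    fun i => by
    rw [← PowerSeries.coeff_zero_eq_constantCoeff_apply, co, Finset.sum_eq_zero, add_zero,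
      PowerSeries.coeff_zero_eq_constantCoeff_apply]
    · rfl
    · intro x _
      rw [PowerSeries.coeff_zero_eq_constantCoeff_apply, ← ccA_apply (κ := κ),
        hW0 _ (Module.finBasis κ W x).2, map_zero, mul_zero]
  refine break_false O hO harch hF hg hno i0 (fun i => η l (s i)) (fun i => η l (r i)) _
    (fun i m => (hC _ m).trans (ht (Sum.inl i))) (fun i m => (hC _ m).trans (ht (Sum.inr i)))
    ?_ (fun j => ?_) (fun i => c0 i ▸ hψ _) (by rw [c0, h00, map_one]) ?_ hl
  · simp only [← map_mul, ← map_sum]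
    rw [hr, map_one]
  · rw [← comp_aeval_apply, hFu, map_zero]
  · simp only [c0]
    rw [← comp_aeval_apply]
    obtain ⟨w, hw⟩ := hgu.exists_right_inv
    have e1 := congrArg (fun y => O.valuation ((ψ.comp ((ccA κ L).comp (ε l))) y)) hw
    simp only [map_mul, map_one] at e1
    exact le_antisymm ((O.valuation_le_one_iff _).2 (hψ _))
      (e1.ge.trans (mul_le_of_le_one_right' ((O.valuation_le_one_iff _).2 (hψ _))))

end C03
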