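import Pool.Agent.Lib.MP_1c03d5_ag.H97Defs

/-! TASK EXP: power series expansions at all geometric points over a good value of `y`. -/

namespace C03

universe u

open scoped IntermediateField

section aux

open Polynomial

variable {κ L : Type u} [Field κ] [Field L] [Algebra κ L]

theorem exp_inj (a : L) : Function.Injective
    (aeval (PowerSeries.C a + PowerSeries.X) : L[X] →ₐ[L] PowerSeries L) := by
  have h : ∀ p : L[X], aeval (PowerSeries.C a + PowerSeries.X) p =
      ((taylor a p : L[X]) : PowerSeries L) := fun p => by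
    induction p using Polynomial.induction_on' with
    | add p q hp hq => simp [hp, hq]
    | monomial n c => simp [taylor_monomial, add_comm]
  intro p q e
  rw [h, h] at e
  exact taylor_injective a (Polynomial.coe_injective L e)

theorem exp_const (a : L) (p : κ[X]) :
    PowerSeries.constantCoeff (aeval (PowerSeries.C a + PowerSeries.X : PowerSeries L) p) =
      aeval a p := by
  induction p using Polynomial.induction_on' with
  | add p q hp hq => simp [hp, hq]
  | monomial n c => simp [PowerSeries.algebraMap_apply]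

theorem exp_good [Infinite L] (T : Finset (RatFunc κ)) :
    ∃ φ : RatFunc κ →ₐ[κ] FractionRing (PowerSeries L),
      (∀ t ∈ T, φ t ∈ Set.range (algebraMap (PowerSeries L) (FractionRing (PowerSeries L)))) ∧
      ∀ (β : Type) [Fintype β] (r : β → RatFunc κ) (c : β → L),
        ∑ j, algebraMap (PowerSeries L) _ (PowerSeries.C (c j)) * φ (r j) = 0 →
          ∀ π : L →ₗ[κ] κ, ∑ j, π (c j) • r j = 0 := by
  obtain ⟨D, hD⟩ := IsLocalization.exist_integer_multiples_of_finset (nonZeroDivisors κ[X]) T
  obtain ⟨a, ha⟩ : ∃ a : L, aeval a (D : κ[X]) ≠ 0 := by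
    by_contra! h
    refine nonZeroDivisors.coe_ne_zero D (map_injective (algebraMap κ L) (RingHom.injective _) ?_)
    exact Polynomial.funext fun a => by rw [eval_map_algebraMap, h, Polynomial.map_zero, eval_zero]
  let ψ : κ[X] →ₐ[κ] PowerSeries L := aeval (PowerSeries.C a + PowerSeries.X)
  have hψ : ∀ p, ψ p = aeval (PowerSeries.C a + PowerSeries.X) (p.map (algebraMap κ L)) :=
    fun p => (aeval_map_algebraMap L _ p).symm
  have hi := IsFractionRing.injective (PowerSeries L) (FractionRing (PowerSeries L))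
  have h1 : Function.Injective
      ((IsScalarTower.toAlgHom κ (PowerSeries L) (FractionRing (PowerSeries L))).comp ψ) := by
    intro p q e
    have e' : ψ p = ψ q := hi e
    rw [hψ, hψ] at e'
    exact map_injective _ (RingHom.injective _) (exp_inj a e')
  let φ : RatFunc κ →ₐ[κ] FractionRing (PowerSeries L) := IsFractionRing.liftAlgHom h1
  have hφ : ∀ p, φ (algebraMap κ[X] _ p) = algebraMap (PowerSeries L) _ (ψ p) := fun p =>
    IsFractionRing.lift_algebraMap (g := ((IsScalarTower.toAlgHom κ (PowerSeries L)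
      (FractionRing (PowerSeries L))).comp ψ).toRingHom) h1 p
  refine ⟨φ, fun t ht => ?_, fun β _ r c h π => ?_⟩
  · obtain ⟨p, hp⟩ := hD t ht
    obtain ⟨u, hu⟩ : IsUnit (ψ D) :=
      PowerSeries.isUnit_iff_constantCoeff.2 (by rw [exp_const]; exact ha.isUnit)
    refine ⟨(u⁻¹ : (PowerSeries L)ˣ) * ψ p, ?_⟩
    rw [map_mul, ← hφ, hp, Algebra.smul_def, map_mul, hφ, ← hu, ← mul_assoc, ← map_mul,
      Units.inv_mul, map_one, one_mul]
  · obtain ⟨E, hE⟩ := IsLocalization.exist_integer_multiples_of_finite (nonZeroDivisors κ[X]) r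
    choose p hp using hE
    have h2 : ∑ j, C (c j) * (p j).map (algebraMap κ L) = 0 := by
      refine exp_inj a (hi ?_)
      have := congrArg (φ (algebraMap κ[X] _ (E : κ[X])) * ·) h
      simp only [Finset.mul_sum, mul_zero] at this
      rw [map_zero, map_zero, map_sum, map_sum, ← this]
      refine Finset.sum_congr rfl fun j _ => ?_
      rw [map_mul, map_mul, ← hψ, ← hφ, hp, Algebra.smul_def, map_mul, aeval_C, mul_left_comm]
      rfl
    have h3 : ∑ j, π (c j) • p j = 0 := by
      ext m
      have := congrArg (fun q => π (coeff q m)) h2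
      simp only [finsetSum_coeff, coeff_C_mul, coeff_map, map_sum, coeff_zero, map_zero] at this
      rw [finsetSum_coeff, coeff_zero, ← this]
      refine Finset.sum_congr rfl fun j _ => ?_
      rw [mul_comm, ← Algebra.smul_def, map_smul, coeff_smul, smul_eq_mul, smul_eq_mul, mul_comm]
    have h4 : (E : κ[X]) • ∑ j, π (c j) • r j = 0 := by
      have := congrArg (IsScalarTower.toAlgHom κ κ[X] (RatFunc κ)) h3
      rw [map_zero, map_sum] at this
      rw [Finset.smul_sum, ← this]
      refine Finset.sum_congr rfl fun j _ => ?_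
      rw [map_smul, IsScalarTower.toAlgHom_apply, hp, smul_comm]
    exact (smul_eq_zero.1 h4).resolve_left (nonZeroDivisors.coe_ne_zero E)

theorem exp_hensel [IsAlgClosed L] {g : (PowerSeries L)[X]} (hm : g.Monic) (hs : g.Separable) :
    ∃ θ : Fin g.natDegree → PowerSeries L, Function.Injective θ ∧ ∀ l, g.IsRoot (θ l) := by
  classical
  have h0 : (g.map (PowerSeries.constantCoeff (R := L))).Separable := hs.map
  have h1 : (g.map (PowerSeries.constantCoeff (R := L))).roots.toFinset.card = g.natDegree := by
    rw [Multiset.toFinset_card_of_nodup (nodup_roots h0), IsAlgClosed.card_roots_eq_natDegree,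
      hm.natDegree_map]
  have h2 : ∀ (q : (PowerSeries L)[X]) (r : L), PowerSeries.constantCoeff
      (q.eval (PowerSeries.C r)) = (q.map (PowerSeries.constantCoeff (R := L))).eval r := by
    intro q r
    rw [← eval_map_apply]
    simp
  have h3 : ∀ r : (g.map (PowerSeries.constantCoeff (R := L))).roots.toFinset,
      ∃ x : PowerSeries L, g.IsRoot x ∧ PowerSeries.constantCoeff x = r := by
    rintro ⟨r, hr⟩
    have hr0 := isRoot_of_mem_roots (Multiset.mem_toFinset.1 hr)
    obtain ⟨x, hx, hx'⟩ := (IsAdicComplete.henselianRing (PowerSeries L)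
      (Ideal.span {PowerSeries.X})).is_henselian g hm (PowerSeries.C r)
      (by rw [Ideal.mem_span_singleton, PowerSeries.X_dvd_iff, h2]; exact hr0)
      (IsUnit.map _ (PowerSeries.isUnit_iff_constantCoeff.2 (by
        rw [h2, ← derivative_map]
        exact (h0.eval₂_derivative_ne_zero (RingHom.id L) hr0).isUnit)))
    rw [Ideal.mem_span_singleton, PowerSeries.X_dvd_iff, map_sub, sub_eq_zero] at hx'
    exact ⟨x, hx, by simpa using hx'⟩
  choose x hx hx' using h3
  refine ⟨fun l => x ((Finset.equivFinOfCardEq h1).symm l), fun l l' e => ?_, fun l => hx _⟩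
  refine (Finset.equivFinOfCardEq h1).symm.injective (Subtype.ext ?_)
  rw [← hx', ← hx']
  exact congrArg _ e

theorem exp_core [IsAlgClosed L] {F E : Type u} {ι : Type} [Field F] [Field E] [Algebra κ F] [Algebra F E]
    [Algebra κ E] [IsScalarTower κ F E] [FiniteDimensional F E] [Algebra.IsSeparable F E]
    [Finite ι] (e : RatFunc κ ≃ₐ[κ] F) (w : ι → E) :
    ∃ (n : ℕ) (ε : Fin n → (E →ₐ[κ] FractionRing (PowerSeries L))),
      (∀ l i, ε l (w i) ∈ Set.range (algebraMap (PowerSeries L) (FractionRing (PowerSeries L)))) ∧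
      ∀ (β : Type) [Fintype β] (b : β → E) (c : β → L), LinearIndependent κ b →
        (∀ l, ∑ j, algebraMap (PowerSeries L) _ (PowerSeries.C (c j)) * ε l (b j) = 0) →
          c = 0 := by
  classical
  cases nonempty_fintype ι
  let pb := Field.powerBasisOfFiniteOfSeparable F E
  obtain ⟨u, v, huv⟩ : (minpoly F pb.gen).Separable := Algebra.IsSeparable.isSeparable F pb.gen
  let P : Finset F[X] := {minpoly F pb.gen, u, v} ∪ Finset.univ.image fun i => minpoly F (w i)
  obtain ⟨φ0, h1, h2⟩ := exp_good (L := L) ((P.biUnion coeffs).image e.symm)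
  let φ : F →ₐ[κ] FractionRing (PowerSeries L) := φ0.comp (e.symm : F →ₐ[κ] RatFunc κ)
  let _ : Algebra F (FractionRing (PowerSeries L)) := φ.toRingHom.toAlgebra
  have : IsScalarTower κ F (FractionRing (PowerSeries L)) :=
    IsScalarTower.of_algebraMap_eq fun x => (φ.commutes x).symm
  have h3 : ∀ p ∈ P, p.map (algebraMap F (FractionRing (PowerSeries L))) ∈
      lifts (algebraMap (PowerSeries L) (FractionRing (PowerSeries L))) := fun p hp =>
    (lifts_iff_coeff_lifts _).2 fun m => by
      rw [coeff_map]
      by_cases h : p.coeff m = 0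
      · exact ⟨0, by rw [h, map_zero, map_zero]⟩
      · exact h1 _ (Finset.mem_image_of_mem _ (Finset.mem_biUnion.2 ⟨p, hp, coeff_mem_coeffs h⟩))
  have hi := IsFractionRing.injective (PowerSeries L) (FractionRing (PowerSeries L))
  obtain ⟨g, hg, hg1, hg2⟩ := lifts_and_natDegree_eq_and_monic (h3 (minpoly F pb.gen) (by simp [P]))
    ((minpoly.monic pb.isIntegral_gen).map _)
  obtain ⟨U, hU⟩ := (mem_lifts _).1 (h3 u (by simp [P]))
  obtain ⟨V, hV⟩ := (mem_lifts _).1 (h3 v (by simp [P]))
  have hs : g.Separable := ⟨U, V, map_injective _ hi (by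
    rw [Polynomial.map_add, Polynomial.map_mul, Polynomial.map_mul, ← derivative_map, hg, hU, hV,
      derivative_map, ← Polynomial.map_mul, ← Polynomial.map_mul, ← Polynomial.map_add, huv,
      Polynomial.map_one, Polynomial.map_one])⟩
  obtain ⟨θ, hθ, hθ'⟩ := exp_hensel hg2 hs
  rw [natDegree_map, pb.natDegree_minpoly] at hg1
  have h4 : ∀ l, aeval (algebraMap (PowerSeries L) (FractionRing (PowerSeries L)) (θ l))
      (minpoly F pb.gen) = 0 := fun l => by
    rw [← eval_map_algebraMap, ← hg, eval_map_algebraMap, aeval_algebraMap_apply,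
      coe_aeval_eq_eval, hθ' l, map_zero]
  refine ⟨_, fun l => (pb.lift _ (h4 l)).restrictScalars κ, fun l i => ?_, fun β _ b c hb h => ?_⟩
  · have hw : IsIntegral F (w i) := Algebra.IsIntegral.isIntegral _
    obtain ⟨q, hq, -, hq2⟩ := lifts_and_natDegree_eq_and_monic (h3 (minpoly F (w i)) (by simp [P]))
      ((minpoly.monic hw).map _)
    refine IsIntegrallyClosed.isIntegral_iff.1 ⟨q, hq2, ?_⟩
    rw [← eval_map, hq, eval_map_algebraMap, AlgHom.restrictScalars_apply, aeval_algHom_apply,
      minpoly.aeval, map_zero]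
  · choose p hp hp' using fun j => pb.exists_eq_aeval (b j)
    have h5 : ∑ j, C (algebraMap (PowerSeries L) (FractionRing (PowerSeries L))
        (PowerSeries.C (c j))) * (p j).map (algebraMap F _) = 0 := by
      refine eq_zero_of_natDegree_lt_card_of_eval_eq_zero _ (hi.comp hθ) (fun l => ?_) ?_
      · rw [eval_finsetSum, ← h l]
        refine Finset.sum_congr rfl fun j _ => ?_
        rw [eval_mul, eval_C, eval_map_algebraMap, hp', AlgHom.restrictScalars_apply,
          pb.lift_aeval]
        rfl
      · rw [Fintype.card_fin, hg1, ← Nat.le_sub_one_iff_lt pb.dim_pos]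
        refine natDegree_sum_le_of_forall_le _ _ fun j _ => (natDegree_C_mul_le _ _).trans ?_
        rw [natDegree_map]
        exact Nat.le_sub_one_of_lt (hp j)
    funext j
    refine (Module.forall_dual_apply_eq_zero_iff κ _).1 fun π =>
      Fintype.linearIndependent_iff.1 hb (fun j => π (c j)) ?_ j
    have h6 : ∑ j, π (c j) • p j = 0 := by
      ext m
      have := congrArg (fun q => coeff q m) h5
      simp only [finsetSum_coeff, coeff_C_mul, coeff_map, coeff_zero] at this
      have := congrArg e (h2 β (fun j => e.symm ((p j).coeff m)) c this π)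
      simpa [finsetSum_coeff] using this
    have := congrArg ((aeval pb.gen).restrictScalars κ) h6
    simpa only [map_sum, map_smul, map_zero, AlgHom.restrictScalars_apply, ← hp'] using this

end aux

theorem exists_exp {κ Ω L : Type u} {ι : Type} [Field κ] [Field Ω] [Algebra κ Ω] [Field L] [Algebra κ L]
    [IsAlgClosed L] [Finite ι] {y : Ω} (hy : Transcendental κ y) (w : ι → Ω)
    (hw : ∀ i, IsSeparable κ⟮y⟯ (w i)) :
    ∃ (n : ℕ) (ε : Fin n → (Algebra.adjoin κ (Set.range w) →ₐ[κ] PowerSeries L)),
      ∀ (β : Type) [Fintype β] (b : β → Algebra.adjoin κ (Set.range w)), LinearIndependent κ b →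
        Submodule.span L (Set.range fun x : Fin n × ℕ =>
          fun j : β => PowerSeries.coeff x.2 (ε x.1 (b j))) = ⊤ := by
  classical
  let E := IntermediateField.adjoin κ⟮y⟯ (Set.range w)
  have : Finite (Set.range w) := Set.finite_range w
  have : FiniteDimensional κ⟮y⟯ E := IntermediateField.finiteDimensional_adjoin (by
    rintro _ ⟨i, rfl⟩
    exact (hw i).isIntegral)
  have : Algebra.IsSeparable κ⟮y⟯ E :=
    (IntermediateField.isSeparable_adjoin_iff_isSeparable _ _).2 (by
      rintro _ ⟨i, rfl⟩
      exact hw i)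
  have hE : ∀ i, w i ∈ E := fun i => IntermediateField.subset_adjoin _ _ ⟨i, rfl⟩
  obtain ⟨n, ε, h1, h2⟩ := exp_core (L := L) (RatFunc.algEquivOfTranscendental y hy)
    fun i => (⟨w i, hE i⟩ : E)
  have h3 : Algebra.adjoin κ (Set.range w) ≤ E.toSubalgebra.restrictScalars κ :=
    Algebra.adjoin_le (by rintro _ ⟨i, rfl⟩; exact hE i)
  let j0 : Algebra.adjoin κ (Set.range w) →ₐ[κ] E :=
    { toFun := fun x => ⟨x, h3 x.2⟩
      map_one' := rfl
      map_mul' := fun _ _ => rfl
      map_zero' := rfl
      map_add' := fun _ _ => rfl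
      commutes' := fun _ => rfl }
  let τ := IsScalarTower.toAlgHom κ (PowerSeries L) (FractionRing (PowerSeries L))
  have hi : Function.Injective τ :=
    IsFractionRing.injective (PowerSeries L) (FractionRing (PowerSeries L))
  have h4 : ∀ l x, (ε l).comp j0 x ∈ τ.range := by
    rintro l ⟨x, hx⟩
    induction hx using Algebra.adjoin_induction with
    | mem x hx =>
      obtain ⟨i, rfl⟩ := hx
      exact h1 l i
    | algebraMap r => exact ((ε l).comp j0).commutes r ▸ algebraMap_mem _ r
    | add x y hx hy ihx ihy => exact map_add ((ε l).comp j0) ⟨x, hx⟩ ⟨y, hy⟩ ▸ add_mem ihx ihy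
    | mul x y hx hy ihx ihy => exact map_mul ((ε l).comp j0) ⟨x, hx⟩ ⟨y, hy⟩ ▸ mul_mem ihx ihy
  let ε' : Fin n → (Algebra.adjoin κ (Set.range w) →ₐ[κ] PowerSeries L) := fun l =>
    ((AlgEquiv.ofInjective τ hi).symm : τ.range →ₐ[κ] PowerSeries L).comp
      (((ε l).comp j0).codRestrict τ.range (h4 l))
  have h5 : ∀ l x, τ (ε' l x) = ε l (j0 x) := fun l x =>
    congrArg Subtype.val ((AlgEquiv.ofInjective τ hi).apply_symm_apply ⟨_, h4 l x⟩)
  refine ⟨n, ε', fun β _ b hb => ?_⟩
  by_contra h
  obtain ⟨f, hf, hf'⟩ := Submodule.exists_le_ker_of_lt_top _ (lt_top_iff_ne_top.2 h)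
  have h6 := h2 β (fun j => j0 (b j)) (fun j => f fun i => if j = i then 1 else 0)
    (hb.map' j0.toLinearMap (LinearMap.ker_eq_bot.2 fun x y e =>
      Subtype.ext (congrArg (fun z : E => (z : Ω)) e))) fun l => by
      have : ∑ j, PowerSeries.C (f fun i => if j = i then 1 else 0) * ε' l (b j) = 0 := by
        ext m
        have := hf' (Submodule.subset_span ⟨(l, m), rfl⟩)
        rw [LinearMap.mem_ker, LinearMap.pi_apply_eq_sum_univ] at this
        simpa [mul_comm] using this
      have := congrArg τ this
      simp only [map_sum, map_mul, map_zero, h5] at this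
      exact this
  refine hf (LinearMap.ext fun x => ?_)
  rw [LinearMap.pi_apply_eq_sum_univ]
  exact Finset.sum_eq_zero fun j _ => by rw [congrFun h6 j, Pi.zero_apply, smul_zero]

end C03
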