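import Pool.Agent.Lib.MP_1c03d5_ag.H97Deg
import Pool.Agent.Lib.MP_1c03d5_ag.H97Exp
import Pool.Agent.Lib.MP_1c03d5_ag.H97Core
import Pool.Agent.Lib.MP_1c03d5_ag.H97BendN

/-! Bend and break on a generic curve. -/

namespace C03

universe u

open scoped Pointwise
open Module Function MvPolynomial

section twist
variable {k K κ Ω : Type u} {ι : Type} [Field k] [Field K] [Field κ] [Field Ω] [Algebra k K] [Algebra κ Ω]

theorem aeval_twist (φ : k →+* κ) (ψ : K →+* Ω)
    (h : ∀ a, algebraMap κ Ω (φ a) = ψ (algebraMap k K a)) (z : ι → K) (f : MvPolynomial ι k) :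
    aeval (fun i => ψ (z i)) (map φ f) = ψ (aeval z f) := by
  induction f using MvPolynomial.induction_on with
  | C a => simp [h]
  | add f g a b => simp only [map_add, a, b]
  | mul_X f i a => simp only [map_mul, a, map_X, aeval_X]

theorem minor_map {τ : Type} (ψ : K →+* Ω) (M : τ → ℕ → K) (i : ℕ) (T : Fin i → τ) :
    minor (fun j b => ψ (M j b)) i T = ψ (minor M i T) := by
  rw [minor, minor, RingHom.map_det]
  rfl

end twist

section count
variable {K Ω : Type u} {τ : Type} [Field K] [Field Ω] [Algebra K Ω] [DecidableEq K] [Fintype τ]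
  {κ E : Subfield Ω}

/-- The normalised system of minors. -/
noncomputable def msys (M : τ → ℕ → K) (δ : ℕ → K) (i : ℕ) : Finset K :=
  Finset.univ.image fun T : Fin i → τ => minor M i T / δ i

theorem one_mem_msys {M : τ → ℕ → K} {δ : ℕ → K} {i : ℕ} (h0 : δ i ≠ 0)
    (h : ∃ T, minor M i T = δ i) : (1 : K) ∈ msys M δ i := by
  obtain ⟨T, hT⟩ := h
  exact Finset.mem_image.2 ⟨T, Finset.mem_univ _, by rw [hT, div_self h0]⟩

theorem bend_mon {G : Type*} [CommMonoid G] (a b c : G) (q e : ℕ) :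
    a ^ q * ((a ^ q) ^ e * (b * c ^ q)) = (a ^ (e + 1)) ^ q * c ^ q * b := by
  rw [pow_succ, mul_pow, ← pow_mul, ← pow_mul, mul_comm q e]
  ac_rfl

theorem bend_key (h : κ ≤ E) (hK : ∀ x : K, algebraMap K Ω x ∈ E) {q : ℕ} (ψ : K →+* Ω)
    (hψ : ∀ x, ψ x = algebraMap K Ω x ^ q) {M : τ → ℕ → K} {δ : ℕ → K} {i : ℕ} (h0 : δ i ≠ 0)
    (h1 : δ (i + 1) ≠ 0) (h2 : ∃ T, minor M (i + 1) T = δ (i + 1)) (H : Finset K) (e : ℕ)
    {w : τ → Ω} {x : ℕ → Ω} (hw : ∀ j, w j = ∑ b ∈ Finset.range (i + 1), x b * ψ (M j b))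
    (hE : ∀ j, w j ∈ E) (hv : ∀ O : ValuationSubring Ω, (∀ a ∈ κ, a ∈ O) →
      ∀ j, O.valuation (w j) ≤ (nrm O H ^ q) ^ e) :
    ψ (δ (i + 1) / δ i) * x i ∈
      cs h ((H ^ (e + 1) * msys M δ i) ^ q) ((H * msys M δ (i + 1)) ^ q) := by
  have hψE : ∀ y, ψ y ∈ E := fun y => hψ y ▸ pow_mem (hK y) q
  obtain ⟨T1, hT1⟩ := h2
  refine ⟨mul_mem (hψE _) (coef_mem E hw hE (fun j b => hψE _) (T := T1) ?_), fun O hO => ?_⟩
  · rw [minor_map, hT1]
    exact (map_ne_zero ψ).2 h1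
  obtain ⟨y, hy, ey⟩ := exists_nrm (O := O) ⟨_, one_mem_msys h1 ⟨T1, hT1⟩⟩
  obtain ⟨T, -, rfl⟩ := Finset.mem_image.1 hy
  have a := val_minor O hw (hv O hO) (γ' := O.valuation (ψ (δ i)) * nrm O (msys M δ i) ^ q)
    (fun T' => by
      rw [minor_map, ← mul_div_cancel₀ (minor M i T') h0, map_mul, map_mul, hψ (_ / _), map_pow]
      exact mul_le_mul_right (pow_le_pow_left' (le_nrm
        (Finset.mem_image_of_mem _ (Finset.mem_univ T'))) q) _) T
  have p0 : 0 < O.valuation (ψ (δ i)) := (Valuation.pos_iff _).2 ((map_ne_zero ψ).2 h0)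
  rw [nrm_pow, nrm_pow, nrm_mul, nrm_mul, nrm_pow, ey, mul_pow, mul_pow, ← map_pow, ← hψ]
  refine le_of_mul_le_mul_right ?_ p0
  have e1 : O.valuation (ψ (δ (i + 1) / δ i) * x i) *
      (nrm O H ^ q * O.valuation (ψ (minor M (i + 1) T / δ (i + 1)))) * O.valuation (ψ (δ i)) =
      nrm O H ^ q * (O.valuation (x i) * O.valuation (ψ (minor M (i + 1) T))) := by
    have : ψ (δ (i + 1) / δ i) * x i * ψ (minor M (i + 1) T / δ (i + 1)) * ψ (δ i) =
        x i * ψ (minor M (i + 1) T) := by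
      have a0 := (map_ne_zero ψ).2 h0
      have a1 := (map_ne_zero ψ).2 h1
      rw [map_div₀, map_div₀]
      field_simp
    rw [← map_mul, ← this]
    simp only [map_mul]
    ac_rfl
  rw [e1, ← minor_map]
  exact (mul_le_mul_right a _).trans (le_of_eq (bend_mon _ _ _ q e))

theorem bend_num {N W D C C0 q q' n0 n μ l : ℕ} (h1 : N + q * D ≤ q * ((l + 1) * μ) + C)
    (h2 : q' * μ ≤ W + C0) (h3 : l * μ < n * μ + D) (h4 : q = q' + n0)
    (h5 : C + (n + 1) * (n0 * μ + C0) + n0 < q) : N < (n + 1) * W := by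
  have a2 := Nat.mul_le_mul_left q (Nat.succ_le_of_lt h3)
  have a3 := Nat.mul_le_mul_left (n + 1) h2
  have a4 : q * ((n + 1) * μ) = (n + 1) * (q' * μ) + (n + 1) * (n0 * μ) := by rw [h4]; ring
  simp only [Nat.succ_eq_add_one, mul_add, add_mul, mul_one, one_mul] at *
  omega

end count

namespace Ctx

variable {k K Ω : Type u} [Field k] [Field K] [Field Ω] [Algebra k K] [Algebra K Ω] {d : ℕ}
  [DecidableEq K] (c : Ctx k K Ω d) {ι τ : Type} [Fintype ι] [Fintype τ]

theorem II_pow_mul {U : Fin d → Finset K} (hU : ∀ b, c.H ⊆ U b) (b : Fin d) {L : Finset K}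
    (hL : (1 : K) ∈ L) (n : ℕ) : c.II (update U b (c.H ^ (n + 1) * L)) =
      n * c.II (update U b c.H) + c.II (update U b (c.H * L)) := by
  induction n with
  | zero => simp
  | succ n ih =>
    rw [pow_succ', mul_assoc, c.II_mul hU b subset_rfl
      (sub_mul (sub_pow c.one_mem subset_rfl n.succ_pos) hL), ih]
    ring

/-- The number of obstructions. -/
theorem bend_count {U : Fin d → Finset K} (hU : ∀ b, c.H ⊆ U b) (b : Fin d) {M : τ → ℕ → K}
    {r : ℕ} {T0 : Fin r → τ} (hT0 : minor M r T0 ≠ 0) (e : ℕ) : ∃ C : ℕ, ∀ (q : ℕ) (ψ : K →+* Ω),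
      (∀ x, ψ x = algebraMap K Ω x ^ q) →
      (∀ O : ValuationSubring Ω, (∀ a ∈ c.kst {b}ᶜ U, a ∈ O) →
        ∀ j i, O.valuation (ψ (M j i)) ≤ (nrm O c.H ^ q) ^ e) →
      ∀ N : Submodule (c.kst {b}ᶜ U) (τ → Ω),
        (∀ w ∈ N, ∃ x : ℕ → Ω, ∀ j, w j = ∑ i ∈ Finset.range r, x i * ψ (M j i)) →
        (∀ w ∈ N, ∀ j, w j ∈ sp (c.kst {b}ᶜ U) ((c.H ^ q) ^ e)) →
        Module.Finite (c.kst {b}ᶜ U) N ∧ finrank (c.kst {b}ᶜ U) N +
          q * c.II (update U b (c.H * Finset.univ.image fun T => minor M r T / minor M r T0)) ≤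
          q * ((r * e + 1) * c.II (update U b c.H)) + C := by
  obtain ⟨δ, hδ, hr⟩ : ∃ δ : ℕ → K, (∀ i ≤ r, δ i ≠ 0 ∧ ∃ T, minor M i T = δ i) ∧
      δ r = minor M r T0 := by
    have : ∀ i, ∃ x : K, (i ≤ r → x ≠ 0 ∧ ∃ T, minor M i T = x) ∧ (i = r → x = minor M r T0) := by
      intro i
      by_cases a : i = r
      · subst a
        exact ⟨_, fun _ => ⟨hT0, T0, rfl⟩, fun _ => rfl⟩
      by_cases a' : i ≤ r
      · obtain ⟨T, hT⟩ := minor_ne_zero hT0 a'
        exact ⟨_, fun _ => ⟨hT, T, rfl⟩, fun a'' => absurd a'' a⟩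
      · exact ⟨0, fun a'' => absurd a'' a', fun a'' => absurd a'' a⟩
    choose δ h1 h2 using this
    exact ⟨δ, h1, h2 r rfl⟩
  have h1 : ∀ i ≤ r, (1 : K) ∈ msys M δ i := fun i hi => one_mem_msys (hδ i hi).1 (hδ i hi).2
  have hd := fun i (hi : i < r) => c.diff_curve hU b (P := c.H ^ (e + 1) * msys M δ i)
    (R := c.H * msys M δ (i + 1)) (sub_mul (sub_pow c.one_mem subset_rfl e.succ_pos) (h1 i hi.le))
    (sub_mul subset_rfl (h1 _ hi))
  choose! C hC using hd
  refine ⟨∑ i ∈ Finset.range r, C i, fun q ψ hψ hM N hN hV => ?_⟩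
  have hψE : ∀ y, ψ y ∈ c.Kst {b}ᶜ := fun y => hψ y ▸ pow_mem (c.alg_mem _ y) q
  have t0 : ∀ i < r, ψ (δ (i + 1) / δ i) ≠ 0 := fun i hi =>
    (map_ne_zero ψ).2 (div_ne_zero (hδ _ hi).1 (hδ i hi.le).1)
  have key := fun i (hi : i < r) (w : τ → Ω) (x : ℕ → Ω) =>
    bend_key (c.kst_le {b}ᶜ U) (c.alg_mem _) ψ hψ (hδ i hi.le).1 (hδ _ hi).1 (hδ _ hi).2 c.H e
      (w := w) (x := x)
  have hC' := fun i (hi : i < r) => hC i hi q ((Submodule.ne_bot_iff _).2 ⟨_,
    key i hi (fun j => ψ (M j i)) (Pi.single i 1) (fun j => by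
      rw [Finset.sum_eq_single i (fun x _ hx => by simp [hx]) (by simp)]; simp)
      (fun j => hψE _) (fun O hO j => hM O hO j i), by simpa using t0 i hi⟩)
  obtain ⟨f1, f2⟩ := finrank_le_sum (M := fun j i => ψ (M j i)) (T0 := T0)
    (by rw [minor_map]; exact (map_ne_zero ψ).2 hT0) N hN
    (fun i => (c.cst {b}ᶜ U ((c.H ^ (e + 1) * msys M δ i) ^ q) ((c.H * msys M δ (i + 1)) ^ q)).map
      (LinearMap.mulLeft _ (ψ (δ (i + 1) / δ i))⁻¹))
    (fun i hi => have := (hC' i hi).1; inferInstance)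
    (fun w hw i hi x hx => ⟨_, key i hi w x hx
      (fun j => sp_le_fsub (c.kst_le _ U) (c.alg_mem _) _ (hV w hw j))
      (fun O hO j => by simpa only [nrm_pow] using le_nrm_of_mem_sp hO (hV w hw j)),
      by rw [LinearMap.mulLeft_apply, inv_mul_cancel_left₀ (t0 i hi)]⟩)
  refine ⟨f1, ?_⟩
  have main : ∀ s ≤ r, ∑ i ∈ Finset.range s, finrank (c.kst {b}ᶜ U)
      ((c.cst {b}ᶜ U ((c.H ^ (e + 1) * msys M δ i) ^ q) ((c.H * msys M δ (i + 1)) ^ q)).map
        (LinearMap.mulLeft _ (ψ (δ (i + 1) / δ i))⁻¹)) +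
      q * c.II (update U b (c.H * msys M δ s)) ≤
      q * ((s * e + 1) * c.II (update U b c.H)) + ∑ i ∈ Finset.range s, C i := by
    intro s hs
    induction s with
    | zero =>
      obtain ⟨T, hT⟩ := (hδ 0 hs).2
      have : msys M δ 0 = 1 := by
        refine Finset.eq_singleton_iff_unique_mem.2 ⟨h1 0 hs, fun x hx => ?_⟩
        obtain ⟨T', -, rfl⟩ := Finset.mem_image.1 hx
        rw [← hT, minor_zero, minor_zero, div_one]
      simp [this]
    | succ s ih =>
      have a1 := ih (Nat.le_of_succ_le hs)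
      obtain ⟨a2, a3⟩ := hC' s hs
      have a4 := Submodule.finrank_map_le
        (LinearMap.mulLeft (c.kst {b}ᶜ U) (ψ (δ (s + 1) / δ s))⁻¹)
        (c.cst {b}ᶜ U ((c.H ^ (e + 1) * msys M δ s) ^ q) ((c.H * msys M δ (s + 1)) ^ q))
      rw [c.II_pow_mul hU b (h1 s (Nat.le_of_succ_le hs))] at a3
      rw [Finset.sum_range_succ, Finset.sum_range_succ]
      nlinarith
  have := main r le_rfl
  rw [msys, hr] at this
  omega

theorem bend (p : ℕ) [Fact p.Prime] [CharP k p] {z : ι → K} (i0 : ι) (hz0 : z i0 = 1)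
    (hH : c.H = Finset.univ.image z) {F : τ → MvPolynomial ι k} {e : ℕ}
    (hF : ∀ j, (F j).IsHomogeneous e) (hFz : ∀ j, aeval z (F j) = 0) {r : ℕ} (S : ℕ → ι)
    {T0 : Fin r → τ} (hT0 : minor (fun j b => aeval z (pderiv (S b) (F j))) r T0 ≠ 0)
    {g : MvPolynomial ι k} {n : ℕ} (hg : g.IsHomogeneous n) (hgz : aeval z g ≠ 0)
    {a : τ → Fin r → MvPolynomial ι k} (hrel : ∀ j, g * F j = ∑ i, a j i * F (T0 i))
    (hno : NoRatU F g) {U : Fin d → Finset K} (hU : ∀ b, c.H ⊆ U b) (b : Fin d) :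
    c.II (update U b (c.H ^ Fintype.card ι * Finset.univ.image fun T =>
      minor (fun j b => aeval z (pderiv (S b) (F j))) r T /
        minor (fun j b => aeval z (pderiv (S b) (F j))) r T0)) ≤
      r * e * c.II (update U b c.H) := by
  by_contra hcon
  have : Nonempty ι := ⟨i0⟩
  obtain ⟨n', hn'⟩ := Nat.exists_eq_add_one.2 (Fintype.card_pos (α := ι))
  rw [hn', c.II_pow_mul hU b (Finset.mem_image.2 ⟨T0, Finset.mem_univ _, div_self hT0⟩)] at hcon
  obtain ⟨C, hC⟩ := c.bend_count hU b hT0 e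
  obtain ⟨n0, hn0⟩ := c.low_curve hU b (P := c.H) subset_rfl
  let κ := c.kst {b}ᶜ U
  let w : Option ι → Ω := fun o => algebraMap K Ω (o.elim (aeval z g)⁻¹ z)
  obtain ⟨m, ε, hε⟩ := exists_exp (L := AlgebraicClosure κ) (c.tr_curve hU b) w fun o => by
    have := c.sep_st (J := {b}ᶜ) (fun a _ => hU a) (c.alg_mem _ (o.elim (aeval z g)⁻¹ z))
    rwa [show {y | ∃ a, a ∉ ({b}ᶜ : Finset (Fin d)) ∧ y = algebraMap K Ω (c.hh a)} =
      {algebraMap K Ω (c.hh b)} by ext y; simp] at this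
  let A := Algebra.adjoin κ (Set.range w)
  have : Algebra.FiniteType κ A := (Subalgebra.fg_iff_finiteType _).1
    (Subalgebra.fg_def.2 ⟨_, Set.finite_range w, rfl⟩)
  obtain ⟨C0, hC0⟩ := core_codim fun l => (ccA κ _).comp (ε l)
  let μ := c.II (update U b c.H)
  have hp := (Fact.out : p.Prime).one_lt
  obtain ⟨q', hq'⟩ := Nat.exists_eq_add_of_le'
    ((Nat.le_add_left n0 _).trans (Nat.lt_pow_self (n := C + (n' + 1) * (n0 * μ + C0) + n0) hp).le)
  have hq := Nat.lt_pow_self (n := C + (n' + 1) * (n0 * μ + C0) + n0) hp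
  set e' := C + (n' + 1) * (n0 * μ + C0) + n0
  set q := p ^ e' with hqe
  have : CharP K p := charP_of_injective_algebraMap (algebraMap k K).injective p
  let ψ : K →+* Ω := (algebraMap K Ω).comp (iterateFrobenius K p e')
  have hψ : ∀ x, ψ x = algebraMap K Ω x ^ q := fun x => by
    simp only [ψ, RingHom.comp_apply, iterateFrobenius_def, map_pow, hqe]
  let φ : k →+* κ := (ψ.comp (algebraMap k K)).codRestrict κ fun x => by
    rw [RingHom.comp_apply, hψ]; exact pow_mem (c.const_mem _ U x) q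
  have tw : ∀ f, aeval (fun i => ψ (z i)) (map φ f) = ψ (aeval z f) :=
    aeval_twist φ ψ (fun _ => rfl) z
  let zA : ι → A := fun i => ⟨w (some i), Algebra.subset_adjoin ⟨_, rfl⟩⟩
  have twA : ∀ f, A.val (aeval (fun i => zA i ^ q) (map φ f)) = ψ (aeval z f) := fun f => by
    rw [comp_aeval_apply, ← tw]
    simp only [map_pow, hψ]
    rfl
  set V := Submodule.span κ (Set.range zA) with hV
  have hVfg : V.FG := Submodule.fg_span (Set.finite_range _)
  have hV1 : (1 : A) ∈ V := Submodule.subset_span ⟨i0, Subtype.ext (by simp [zA, w, hz0])⟩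
  have hVm : ∀ t, (V ^ t).map A.val.toLinearMap = sp κ (c.H ^ t) := fun t => by
    rw [Submodule.map_pow, sp_pow, hV, Submodule.map_span, sp, hH, Finset.coe_image,
      Finset.coe_univ, Set.image_univ, ← Set.range_comp, ← Set.range_comp]
    rfl
  have inj : Injective A.val.toLinearMap := Subtype.val_injective
  obtain ⟨W, hW, hW0, hW1⟩ := hC0 (V ^ q) (hVfg.pow q)
  have hrel' : ∀ j, map φ g * map φ (F j) = ∑ i, map φ (a j i) * map φ (F (T0 i)) := fun j => by
    simpa only [map_mul, map_sum] using congrArg (map φ) (hrel j)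
  let N : Submodule κ (τ → A) :=
    { carrier := {w | (∀ j, w j ∈ (V ^ q) ^ e) ∧ ∀ j, aeval (fun i => zA i ^ q) (map φ g) * w j =
        ∑ i, aeval (fun i => zA i ^ q) (map φ (a j i)) * w (T0 i)}
      add_mem' := fun {x y} hx hy => ⟨fun j => add_mem (hx.1 j) (hy.1 j), fun j => by
        simp only [Pi.add_apply, mul_add, hx.2 j, hy.2 j, Finset.sum_add_distrib]⟩
      zero_mem' := ⟨fun j => zero_mem _, fun j => by simp⟩
      smul_mem' := fun t x hx => ⟨fun j => Submodule.smul_mem _ t (hx.1 j), fun j => by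
        simp only [Pi.smul_apply, mul_smul_comm, hx.2 j, Finset.smul_sum]⟩ }
  have inj' : Injective (A.val.toLinearMap.compLeft τ) := fun x y h =>
    funext fun j => inj (congrFun h j)
  have eM : ∀ j i, aeval (fun i => ψ (z i)) (pderiv (S i) (map φ (F j))) =
      ψ (aeval z (pderiv (S i) (F j))) := fun j i => by rw [pderiv_map, tw]
  obtain ⟨f1, f2⟩ := hC q ψ hψ
    (fun O hO j i => by
      rw [← eM]
      refine val_pderiv_le O (fun x => hO _ x.2) (one_le_pow_of_one_le' (one_le_nrm c.one_mem) q)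
        (fun i => ?_) ((hF j).map φ) _
      rw [hψ, map_pow]
      exact pow_le_pow_left' (le_nrm (hH ▸ Finset.mem_image_of_mem _ (Finset.mem_univ i))) q)
    (N.map (A.val.toLinearMap.compLeft τ))
    (by
      rintro _ ⟨x, hx, rfl⟩
      simp only [← eM]
      refine comb_of_rel (fun j => by rw [tw, hFz, map_zero])
        (by rw [tw]; exact (map_ne_zero ψ).2 hgz) hrel' S
        (by simp only [eM]; rw [minor_map]; exact (map_ne_zero ψ).2 hT0) fun j => ?_
      have := congrArg A.val (hx.2 j)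
      simp only [map_mul, map_sum, twA] at this
      simp only [tw]
      exact this)
    (by
      rintro _ ⟨x, hx, rfl⟩ j
      rw [← pow_mul, ← hVm, pow_mul]
      exact ⟨_, hx.1 j, rfl⟩)
  have eN := Submodule.equivMapOfInjective _ inj' N
  have : Module.Finite κ N := Module.Finite.equiv eN.symm
  refine core_false ε hε (V ^ q) (V ^ (Fintype.card ι * q)) (hVfg.pow _) (hVfg.pow _)
    (fun i => zA i ^ q) i0 (Subtype.ext (by simp [zA, w, hz0]))
    (fun i => Submodule.pow_mem_pow _ (Submodule.subset_span (Set.mem_range_self i)) q)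
    (by simpa using Submodule.mul_mem_mul (Submodule.pow_mem_pow _ hV1 (Fintype.card ι * q))
          (Submodule.pow_mem_pow _ hV1 q))
    (pow_le_mul_span zA q) (fun j => (hF j).map φ)
    (fun j => inj (by
      have := twA (F j)
      rw [hFz, map_zero] at this
      exact this.trans (map_zero _).symm))
    (hg.map φ) (IsUnit.of_mul_eq_one
      ((⟨w none, Algebra.subset_adjoin ⟨_, rfl⟩⟩ : A) ^ q) (inj ?_)) hrel' (hno.map φ) N
    (fun w h1 h2 => ⟨h1, h2⟩) W hW hW0 ?_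
  · have := twA g
    simp only [AlgHom.toLinearMap_apply, map_mul, map_pow, map_one, this, hψ, ← mul_pow]
    rw [show A.val ⟨w none, Algebra.subset_adjoin ⟨_, rfl⟩⟩ = algebraMap K Ω (aeval z g)⁻¹ from rfl,
      ← map_mul, mul_inv_cancel₀ hgz, map_one, one_pow]
  · have a1 := hn0 1 (Module.Finite.iff_fg.2 (by
        rw [Submodule.one_eq_span]; exact Submodule.fg_span_singleton _))
      (by simp [Submodule.one_eq_span])
      (Submodule.one_le.2 (c.Kst {b}ᶜ).one_mem) q'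
    rw [one_mul, ← hq', ← hVm, ← (Submodule.equivMapOfInjective _ inj _).finrank_eq] at a1
    rw [← eN.finrank_eq] at f2
    rw [hn']
    exact bend_num f2 (((Nat.le_add_left _ _).trans a1).trans hW1) (not_le.1 hcon) hq' hq

end Ctx
end C03
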