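import Pool.Agent.Lib.MP_1c03d5_ag.H97Nrm

/-! TASK CUT: one generic cut. -/

namespace C03

universe u

open scoped Pointwise
open Module MvPolynomial

variable {K Ω : Type u} [Field K] [Field Ω] [Algebra K Ω] [DecidableEq K] {κ E κ' E' : Subfield Ω}

/-- A nonzero polynomial is a constant times an integral polynomial with nonzero reduction. -/
theorem cut_norm {σ : Type*} (O : ValuationSubring Ω) {p : MvPolynomial σ Ω} (hp : p ≠ 0) :
    ∃ (a : Ω) (q : MvPolynomial σ O), p = C a * map O.subtype q ∧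
      map (IsLocalRing.residue O) q ≠ 0 ∧ ∀ μ, O.valuation (coeff μ p) ≤ O.valuation a := by
  obtain ⟨ν, hν, hm⟩ := p.support.exists_max_image (fun μ => O.valuation (coeff μ p))
    (support_nonempty.2 hp)
  have ha : coeff ν p ≠ 0 := mem_support_iff.1 hν
  have hle : ∀ μ, O.valuation (coeff μ p) ≤ O.valuation (coeff ν p) := fun μ => by
    by_cases h : μ ∈ p.support
    · exact hm μ h
    · rw [notMem_support_iff.1 h, map_zero]; exact zero_le
  have hv : O.valuation (coeff ν p) ≠ 0 := (map_ne_zero _).2 ha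
  obtain ⟨q, hq⟩ : C (coeff ν p)⁻¹ * p ∈ Set.range (map O.subtype) := by
    refine mem_range_map_iff_coeffs_subset.2 fun c hc => ?_
    obtain ⟨μ, -, rfl⟩ := mem_coeffs_iff.1 hc
    refine ⟨⟨coeff μ (C (coeff ν p)⁻¹ * p), (O.valuation_le_one_iff _).1 ?_⟩, rfl⟩
    rw [coeff_C_mul, map_mul, map_inv₀, mul_comm, mul_inv_le_iff₀ (zero_lt_iff.2 hv), one_mul]
    exact hle μ
  refine ⟨coeff ν p, q, ?_, fun h0 => ?_, hle⟩
  · rw [hq, ← mul_assoc, ← map_mul, mul_inv_cancel₀ ha, map_one, one_mul]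
  · have e1 : coeff ν q = 1 := by
      apply O.subtype_injective
      rw [← coeff_map, hq, coeff_C_mul, inv_mul_cancel₀ ha, map_one]
    have e2 := congrArg (coeff ν) h0
    rw [coeff_map, e1, map_one, coeff_zero] at e2
    exact one_ne_zero e2

/-- The lemma of Gauss. -/
theorem cut_gauss {σ : Type*} (O : ValuationSubring Ω) (p q : MvPolynomial σ Ω) (μ ν : σ →₀ ℕ) :
    ∃ ρ, O.valuation (coeff μ p) * O.valuation (coeff ν q) ≤ O.valuation (coeff ρ (p * q)) := by
  rcases eq_or_ne p 0 with rfl | hp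
  · exact ⟨0, by simp⟩
  rcases eq_or_ne q 0 with rfl | hq
  · exact ⟨0, by simp⟩
  obtain ⟨a, p', rfl, hp1, hp2⟩ := cut_norm O hp
  obtain ⟨b, q', rfl, hq1, hq2⟩ := cut_norm O hq
  obtain ⟨ρ, hρ⟩ := ne_zero_iff.1 (mul_ne_zero hp1 hq1)
  rw [← map_mul, coeff_map, IsLocalRing.residue_ne_zero_iff_isUnit, O.valuation_eq_one_iff] at hρ
  refine ⟨ρ, (mul_le_mul' (hp2 μ) (hq2 ν)).trans_eq ?_⟩
  rw [mul_mul_mul_comm, ← map_mul C, ← map_mul (map O.subtype), coeff_C_mul, coeff_map, map_mul,
    map_mul]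
  exact ((congrArg _ hρ).trans (mul_one _)).symm

/-- The generic member as a polynomial in the variables. -/
noncomputable def cutTh (hK : ∀ x : K, algebraMap K Ω x ∈ E) (U : Finset K) : MvPolynomial K E :=
  ∑ x ∈ U, X x * C ⟨algebraMap K Ω x, hK x⟩

omit [DecidableEq K] in
theorem cut_ev_th (hK : ∀ x : K, algebraMap K Ω x ∈ E) (U : Finset K) (s : K → Ω) :
    aeval s (cutTh hK U) = th s U := by
  simp only [cutTh, th, map_sum, map_mul, aeval_X, aeval_C]
  rfl

theorem cut_coeff_th (hK : ∀ x : K, algebraMap K Ω x ∈ E) {U : Finset K} {x : K} (hx : x ∈ U) :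
    (coeff (Finsupp.single x 1) (cutTh hK U)).1 = algebraMap K Ω x := by
  rw [cutTh, coeff_sum, Finset.sum_eq_single x]
  · rw [mul_comm, coeff_C_mul, coeff_X, if_pos rfl, mul_one]
  · intro y _ hy
    rw [mul_comm, coeff_C_mul, coeff_X, if_neg, mul_zero]
    exact fun e => hy (Finsupp.single_left_injective one_ne_zero e)
  · exact fun e => (e hx).elim

omit [DecidableEq K] [Field K] [Algebra K Ω] in
theorem cut_ev_map (h : κ ≤ E) (s : K → Ω) :
    (aeval s : MvPolynomial K E →ₐ[E] Ω).toRingHom.comp (map (Subfield.inclusion h)) =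
      (aeval s : MvPolynomial K κ →ₐ[κ] Ω).toRingHom := by
  refine ringHom_ext (fun a => ?_) fun x => ?_
  · simp; rfl
  · simp

/-- The generic member satisfies no monic equation over the ring of the variables. -/
theorem cut_tr (h : κ ≤ E) (hK : ∀ x : K, algebraMap K Ω x ∈ E) {s : K → Ω}
    (hs : AlgebraicIndependent E s) {U : Finset K}
    (htr : ∃ x ∈ U, Transcendental κ (algebraMap K Ω x)) {G : Polynomial (MvPolynomial K κ)}
    (hG : G.Monic) :
    G.eval₂ (aeval s : MvPolynomial K κ →ₐ[κ] Ω).toRingHom (th s U) ≠ 0 := by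
  intro h0
  obtain ⟨x0, hx0, htr⟩ := htr
  have e1 : G.eval₂ (map (Subfield.inclusion h)) (cutTh hK U) = 0 := by
    apply hs
    rw [map_zero, ← h0, ← cut_ev_map h s, ← cut_ev_th hK U s]
    exact Polynomial.hom_eval₂ G _ (aeval s : MvPolynomial K E →ₐ[E] Ω).toRingHom _
  let δ : K → Ω := fun x => if x = x0 then 1 else 0
  have e2 := Polynomial.hom_eval₂ G (map (Subfield.inclusion h))
    (aeval δ : MvPolynomial K E →ₐ[E] Ω).toRingHom (cutTh hK U)
  have e3 : (aeval δ : MvPolynomial K E →ₐ[E] Ω).toRingHom (cutTh hK U) = algebraMap K Ω x0 := by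
    refine (cut_ev_th hK U δ).trans ?_
    simp [th, δ, hx0]
  have e4 : (aeval δ : MvPolynomial K κ →ₐ[κ] Ω).toRingHom =
      (algebraMap κ Ω).comp (eval fun x => if x = x0 then 1 else 0) := by
    refine ringHom_ext (fun a => ?_) fun x => ?_
    · simp
    · by_cases e : x = x0 <;> simp [δ, e]
  rw [e1, map_zero, cut_ev_map, e3, e4, ← Polynomial.eval₂_map] at e2
  exact htr (IsIntegral.isAlgebraic ⟨_, hG.map _, e2.symm⟩)

omit [Algebra K Ω] [Field K] [DecidableEq K] in
theorem cut_span (h : κ ≤ κ') (T : Set Ω) {x : Ω} (hx : x ∈ Submodule.span κ T) :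
    x ∈ Submodule.span κ' T := by
  induction hx using Submodule.span_induction with
  | mem x hx => exact Submodule.subset_span hx
  | zero => exact zero_mem _
  | add x y _ _ a b => exact add_mem a b
  | smul a x _ b => exact Submodule.smul_mem _ (Subfield.inclusion h a) b

theorem cut_low (h : κ ≤ E) (hK : ∀ x : K, algebraMap K Ω x ∈ E) {s : K → Ω}
    (hs : AlgebraicIndependent E s) {U : Finset K}
    (htr : ∃ x ∈ U, Transcendental κ (algebraMap K Ω x))
    (hκ' : κ' = Subfield.closure ((κ : Set Ω) ∪ Set.range s ∪ {th s U}))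
    (W W' : Submodule κ Ω) [Module.Finite κ W] (hW : W ≤ fsub h) (h1 : W' ≤ W)
    (h2 : ∀ x ∈ U, ∀ y ∈ W', algebraMap K Ω x * y ∈ W) :
    finrank κ W' + finrank κ' (Submodule.span κ' (W : Set Ω)) ≤ finrank κ W := by
  have hκ : κ ≤ κ' := fun a ha => hκ' ▸ Subfield.subset_closure (Or.inl (Or.inl ha))
  have hsm : ∀ x, s x ∈ κ' := fun x => hκ' ▸ Subfield.subset_closure (Or.inl (Or.inr ⟨x, rfl⟩))
  have hth : th s U ∈ κ' := hκ' ▸ Subfield.subset_closure (Or.inr rfl)
  obtain ⟨C', hi, hu⟩ := IsModularLattice.exists_inf_eq_and_sup_eq bot_le h1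
  have hC : C' ≤ W := hu ▸ le_sup_right
  have := Submodule.finiteDimensional_of_le h1
  have := Submodule.finiteDimensional_of_le hC
  have e1 := Submodule.finrank_sup_add_finrank_inf_eq W' C'
  rw [hi, hu, finrank_bot, add_zero] at e1
  have key : ∀ w ∈ W', w ∈ Submodule.span κ' (C' : Set Ω) := by
    intro w hw
    by_contra hn
    obtain ⟨f, hf, hf0⟩ := Submodule.exists_le_ker_of_notMem hn
    let g : Ω →ₗ[κ] Ω :=
      { toFun := fun y => f y
        map_add' := fun a b => by rw [map_add]; rfl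
        map_smul' := fun a y => by
          have := f.map_smul (Subfield.inclusion hκ a) y
          exact congrArg Subtype.val this }
    have hg : ∀ a ∈ κ', ∀ y, g (a * y) = a * g y := fun a ha y =>
      congrArg Subtype.val (f.map_smul ⟨a, ha⟩ y)
    let : Algebra (MvPolynomial K κ) Ω := (aeval s : MvPolynomial K κ →ₐ[κ] Ω).toRingHom.toAlgebra
    have : IsScalarTower κ (MvPolynomial K κ) Ω :=
      IsScalarTower.of_algebraMap_eq fun a => ((aeval s).commutes a).symm
    let N : Submodule (MvPolynomial K κ) Ω := Submodule.span _ (W'.map g : Set Ω)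
    have hN : ∀ y ∈ W, g y ∈ N := fun y hy => by
      obtain ⟨a, ha, b, hb, rfl⟩ := Submodule.mem_sup.1 (hu.ge hy)
      have : g b = 0 := congrArg Subtype.val (hf0 (Submodule.subset_span hb))
      rw [map_add, this, add_zero]
      exact Submodule.subset_span ⟨a, ha, rfl⟩
    obtain ⟨G, hG, hG0⟩ : IsIntegral (MvPolynomial K κ) (th s U) := by
      refine isIntegral_of_smul_mem_submodule N (fun e => hf ?_) ?_ _ fun n hn => ?_
      · have := hN w (h1 hw)
        rw [e] at this
        exact Subtype.ext this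
      · obtain ⟨T, hT⟩ := (Module.Finite.iff_fg.1 (inferInstance : Module.Finite κ W')).map g
        exact ⟨T, by rw [← Submodule.span_span_of_tower κ, hT]⟩
      · induction hn using Submodule.span_induction with
        | mem y hy =>
          obtain ⟨y, hy, rfl⟩ := hy
          rw [smul_eq_mul, ← hg _ hth, th, Finset.sum_mul, map_sum]
          refine sum_mem fun x hx => ?_
          rw [mul_assoc, hg _ (hsm x)]
          have := N.smul_mem (X x) (hN _ (h2 x hx y hy))
          rwa [Algebra.smul_def, show algebraMap (MvPolynomial K κ) Ω (X x) = s x from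
            aeval_X s x] at this
        | zero => simp
        | add a b _ _ ha hb => rw [smul_add]; exact add_mem ha hb
        | smul a y _ hy => rw [smul_comm]; exact N.smul_mem a hy
    exact cut_tr h hK hs htr hG hG0
  let b := Module.finBasis κ C'
  have e2 : Submodule.span κ' (W : Set Ω) ≤ Submodule.span κ' (Set.range fun i => (b i : Ω)) := by
    have e3 : Submodule.span κ' (C' : Set Ω) ≤
        Submodule.span κ' (Set.range fun i => (b i : Ω)) := by
      refine Submodule.span_le.2 fun y hy => cut_span hκ _ ?_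
      have := Submodule.mem_map_of_mem (f := C'.subtype) (b.mem_span ⟨y, hy⟩)
      rwa [Submodule.map_span, ← Set.range_comp] at this
    refine Submodule.span_le.2 fun y hy => e3 ?_
    obtain ⟨a, ha, c, hc, rfl⟩ := Submodule.mem_sup.1 (hu.ge hy)
    exact add_mem (key a ha) (Submodule.subset_span hc)
  have := Module.Finite.span_of_finite κ' (Set.finite_range fun i => (b i : Ω))
  have e4 := (Submodule.finrank_mono e2).trans (finrank_range_le_card (R := κ') fun i => (b i : Ω))
  rw [Fintype.card_fin] at e4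
  omega

/-- Division by the generic member lowers the system. -/
theorem cut_div (h : κ ≤ E) (hK : ∀ x : K, algebraMap K Ω x ∈ E) {U : Finset K}
    (h1 : (1 : K) ∈ U) (P R : Finset K) {y : MvPolynomial K E}
    (hy : ∀ μ, (coeff μ (cutTh hK U * y)).1 ∈ cs h P R) (μ : K →₀ ℕ) :
    (coeff μ y).1 ∈ cs h P (R * U) := by
  refine ⟨(coeff μ y).2, fun O hO => ?_⟩
  obtain ⟨x, hx, e⟩ := exists_nrm (O := O) ⟨1, h1⟩
  obtain ⟨ρ, hρ⟩ := cut_gauss O (map E.subtype (cutTh hK U)) (map E.subtype y)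
    (Finsupp.single x 1) μ
  rw [← map_mul (map E.subtype), coeff_map, coeff_map, coeff_map] at hρ
  refine le_trans ?_ ((mul_le_mul_left hρ _).trans ((hy ρ).2 O hO))
  rw [nrm_mul, e, ← cut_coeff_th hK hx]
  exact le_of_eq (by rw [mul_comm (nrm O R), ← mul_assoc, mul_comm (O.valuation _)]; rfl)

theorem cut_top (h : κ ≤ E) (hK : ∀ x : K, algebraMap K Ω x ∈ E) {U : Finset K}
    (h1 : (1 : K) ∈ U) (P R : Finset K) (D : ℕ) : ∀ (z : ℕ → MvPolynomial K E),
      (∀ i μ, (coeff μ (z i)).1 ∈ cs h P R) →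
      (∀ μ, (coeff μ (∑ i ∈ Finset.range (D + 1), z i * cutTh hK U ^ i)).1 ∈ cs h P (R * U)) →
      ∀ μ, (coeff μ (z D)).1 ∈ cs h P (R * U) := by
  induction D with
  | zero => intro z _ hw; simpa using hw
  | succ D ih =>
    intro z hz hw
    refine ih (fun i => z (i + 1)) (fun i => hz _) (cut_div h hK h1 P R fun μ => ?_)
    have e : cutTh hK U * ∑ i ∈ Finset.range (D + 1), z (i + 1) * cutTh hK U ^ i =
        ∑ i ∈ Finset.range (D + 1 + 1), z i * cutTh hK U ^ i - z 0 := by
      rw [Finset.sum_range_succ' _ (D + 1), pow_zero, mul_one, add_sub_cancel_right,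
        Finset.mul_sum]
      exact Finset.sum_congr rfl fun i _ => by ring
    rw [e, coeff_sub]
    exact sub_mem (cs_anti h P R h1 (hw μ)) (hz 0 μ)

omit [DecidableEq K] in
theorem cut_frac {s : K → Ω} {U : Finset K}
    (hκ' : κ' = Subfield.closure ((κ : Set Ω) ∪ Set.range s ∪ {th s U})) {β : Type*} [Fintype β]
    (a : β → κ') : ∃ (d : Ω) (p : β → Polynomial (MvPolynomial K κ)), d ≠ 0 ∧ ∀ j,
      (p j).eval₂ (aeval s : MvPolynomial K κ →ₐ[κ] Ω).toRingHom (th s U) = d * a j := by
  classical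
  let ψ : Polynomial (MvPolynomial K κ) →+* Ω :=
    Polynomial.eval₂RingHom (aeval s : MvPolynomial K κ →ₐ[κ] Ω).toRingHom (th s U)
  have e : Subring.closure ((κ : Set Ω) ∪ Set.range s ∪ {th s U}) ≤
      RingHom.range (R := Polynomial (MvPolynomial K κ)) ψ := by
    refine Subring.closure_le.2 ?_
    rintro y ((hy | ⟨x, rfl⟩) | rfl)
    · exact ⟨Polynomial.C (C ⟨y, hy⟩), by simp [ψ]; rfl⟩
    · exact ⟨Polynomial.C (X x), by simp [ψ]⟩
    · exact ⟨Polynomial.X, by simp [ψ]⟩
  have e2 : ∀ j, ∃ p q, ψ q ≠ 0 ∧ ψ p = ψ q * a j := fun j => by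
    obtain ⟨y, hy, z, hz, e3⟩ := Subfield.mem_closure_iff.1 (hκ'.le (a j).2)
    obtain ⟨p, rfl⟩ := e hy
    obtain ⟨q, rfl⟩ := e hz
    by_cases hq : ψ q = 0
    · exact ⟨0, 1, by simp, by rw [← e3, hq]; simp⟩
    · exact ⟨p, q, hq, by rw [← e3, mul_div_cancel₀ _ hq]⟩
  choose p q hq hp using e2
  refine ⟨∏ j, ψ (q j), fun j => (∏ i ∈ Finset.univ.erase j, q i) * p j,
    Finset.prod_ne_zero_iff.2 fun j _ => hq j, fun j => ?_⟩
  change ψ _ = _
  rw [map_mul, map_prod, hp, ← mul_assoc, Finset.prod_erase_mul _ _ (Finset.mem_univ j)]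

theorem cut_li (h : κ ≤ E) (hK : ∀ x : K, algebraMap K Ω x ∈ E) {s : K → Ω}
    (hs : AlgebraicIndependent E s) {U : Finset K}
    (hκ' : κ' = Subfield.closure ((κ : Set Ω) ∪ Set.range s ∪ {th s U})) (h1 : (1 : K) ∈ U)
    (P R : Finset K) {β : Type*} [Fintype β] (c : β → Ω) (hc : ∀ j, c j ∈ cs h P R)
    (hi : ∀ g : β → κ, ∑ j, g j • c j ∈ cs h P (R * U) → ∀ j, g j = 0) :
    LinearIndependent κ' c := by
  classical
  refine Fintype.linearIndependent_iff.2 fun a ha => ?_
  obtain ⟨d, p, hd, hp⟩ := cut_frac hκ' a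
  suffices hp0 : ∀ j, p j = 0 by
    intro j
    have := hp j
    rw [hp0, Polynomial.eval₂_zero] at this
    exact Subtype.ext ((mul_eq_zero.1 this.symm).resolve_left hd)
  by_contra hn
  push Not at hn
  obtain ⟨j1, hj1, hm⟩ := (Finset.univ.filter fun j => p j ≠ 0).exists_max_image
    (fun j => (p j).natDegree) (hn.imp fun j hj => by simpa using hj)
  have hD : ∀ j, (p j).natDegree < (p j1).natDegree + 1 := fun j => by
    by_cases e : p j = 0
    · simp [e]
    · exact Nat.lt_succ_of_le (hm j (by simpa using e))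
  let z : ℕ → MvPolynomial K E := fun i =>
    ∑ j, map (Subfield.inclusion h) ((p j).coeff i) * C ⟨c j, (hc j).1⟩
  have hz : ∀ i μ, (coeff μ (z i)).1 = ∑ j, coeff μ ((p j).coeff i) • c j := fun i μ => by
    rw [coeff_sum, AddSubmonoidClass.coe_finsetSum]
    refine Finset.sum_congr rfl fun j _ => ?_
    rw [mul_comm, coeff_C_mul, coeff_map, mul_comm]
    rfl
  have e0 : ∑ i ∈ Finset.range ((p j1).natDegree + 1), z i * cutTh hK U ^ i = 0 := by
    apply hs
    have e1 : d * ∑ j, a j • c j = 0 := by rw [ha, mul_zero]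
    rw [map_zero, ← e1, Finset.mul_sum]
    simp only [z, map_sum, map_mul, map_pow, cut_ev_th, Finset.sum_mul, aeval_C]
    rw [Finset.sum_comm]
    refine Finset.sum_congr rfl fun j _ => ?_
    rw [Subfield.smul_def, smul_eq_mul, ← mul_assoc, ← hp, Polynomial.eval₂_eq_sum_range' _ (hD j),
      Finset.sum_mul]
    refine Finset.sum_congr rfl fun i _ => ?_
    rw [← cut_ev_map h s, mul_right_comm]
    rfl
  have e2 := cut_top h hK h1 P R _ z
    (fun i μ => hz i μ ▸ sum_mem fun j _ => Submodule.smul_mem _ _ (hc j))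
    (fun μ => by rw [e0]; exact zero_mem _)
  refine Polynomial.leadingCoeff_ne_zero.2 (Finset.mem_filter.1 hj1).2 (MvPolynomial.ext _ _ ?_)
  exact fun μ => hi _ (hz _ μ ▸ e2 μ) j1

theorem cut_up (h : κ ≤ E) (hK : ∀ x : K, algebraMap K Ω x ∈ E) {s : K → Ω}
    (hs : AlgebraicIndependent E s) {U : Finset K}
    (htr : ∃ x ∈ U, Transcendental κ (algebraMap K Ω x))
    (hκ' : κ' = Subfield.closure ((κ : Set Ω) ∪ Set.range s ∪ {th s U}))
    (h' : κ' ≤ E') (hE : E ≤ E') (h1 : (1 : K) ∈ U) (P R : Finset K)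
    [Module.Finite κ (cs h P (R * U))] [Module.Finite κ' (cs h' P R)] :
    Module.Finite κ (cs h P R) ∧
      finrank κ (cs h P R) ≤ finrank κ (cs h P (R * U)) + finrank κ' (cs h' P R) := by
  have hκ : κ ≤ κ' := fun a ha => hκ' ▸ Subfield.subset_closure (Or.inl (Or.inl ha))
  obtain ⟨C', hi, hu⟩ := IsModularLattice.exists_inf_eq_and_sup_eq bot_le (cs_anti h P R h1)
  have hC : C' ≤ cs h P R := hu ▸ le_sup_right
  have hr : Module.rank κ C' ≤ finrank κ' (cs h' P R) := by
    refine rank_le fun t ht => ?_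
    have e := cut_li h hK hs hκ' h1 P R (fun i : t => ((i : C') : Ω)) (fun i => hC i.1.2)
      fun g hg => Fintype.linearIndependent_iff.1 ht g (by
        have e1 : ((∑ j, g j • (j : C') : C') : Ω) ∈ cs h P (R * U) ⊓ C' :=
          ⟨by simpa using hg, Subtype.property _⟩
        rw [hi] at e1
        exact Subtype.ext e1)
    have e2 : LinearIndependent κ' fun i : t => (⟨((i : C') : Ω),
        hE (hC i.1.2).1, fun O hO => (hC i.1.2).2 O fun a ha => hO a (hκ ha)⟩ : cs h' P R) :=
      LinearIndependent.of_comp (cs h' P R).subtype e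
    simpa using e2.fintype_card_le_finrank
  have : Module.Finite κ C' := Module.rank_lt_aleph0_iff.1 (hr.trans_lt Cardinal.natCast_lt_aleph0)
  have e1 := Submodule.finrank_sup_add_finrank_inf_eq (cs h P (R * U)) C'
  have e2 := finrank_le_of_rank_le hr
  rw [hi, hu, finrank_bot, add_zero] at e1
  exact ⟨hu ▸ Submodule.finite_sup _ _, by omega⟩

/-- The negative of a nonconstant system is empty. -/
theorem cs_neg (h : κ ≤ E) {U : Finset K} (h1 : (1 : K) ∈ U)
    (htr : ∃ x ∈ U, Transcendental κ (algebraMap K Ω x)) : cs h 1 U = ⊥ := by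
  obtain ⟨u, hu, htr⟩ := htr
  have key : ∀ y : Ω, (∀ O : ValuationSubring Ω, (∀ a ∈ κ, a ∈ O) → y ∈ O) → IsAlgebraic κ y := by
    intro y hy
    have e : y ∈ (integralClosure (Subring.closure (κ : Set Ω)) Ω).toSubring := by
      rw [← iInf_valuationSubring_superset]
      exact Subring.mem_iInf.2 fun V => hy V.1 V.2
    exact (IsIntegral.map_of_comp_eq
      (Subring.inclusion (Subring.closure_le.2 subset_rfl : _ ≤ κ.toSubring) : _ →+* κ)
      (RingHom.id Ω) rfl e).isAlgebraic
  refine eq_bot_iff.2 fun x hx => by_contra fun hx0 => htr ?_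
  have e : ∀ w ∈ U, IsAlgebraic κ (x * algebraMap K Ω w) := fun w hw => key _ fun O hO => by
    rw [← O.valuation_le_one_iff, map_mul, ← nrm_one (K := K)]
    exact (mul_le_mul_right (le_nrm hw) _).trans (hx.2 O hO)
  have e1 := e 1 h1
  rw [map_one, mul_one] at e1
  have e2 := e1.inv.mul (e u hu)
  rwa [inv_mul_cancel_left₀ hx0] at e2

end C03
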