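import Pool.Agent.Lib.MP_1c03d5_ag.H97Nrm

/-! TASK STAGE: the fields after several generic cuts. -/

namespace C03

universe u

section stage

theorem stage_alg_mono {Ω : Type u} [Field Ω] {A B : Subfield Ω} (h : A ≤ B) {x : Ω}
    (hx : IsAlgebraic A x) : IsAlgebraic B x := by
  let _ : Algebra A B := (Subfield.inclusion h).toAlgebra
  have : IsScalarTower A B Ω := .of_algebraMap_eq fun _ => rfl
  exact hx.extendScalars (Subfield.inclusion h).injective

variable {k K : Type u} [Field k] [Field K] [Algebra k K] {ι : Type} {M : Type u} [AddCommGroup M] [Module K M]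

/-- A derivation killing a separating family vanishes. -/
theorem stage_kill (hh : ι → K)
    (sep : Algebra.IsSeparable (IntermediateField.adjoin k (Set.range hh)) K) (δ : K →+ M)
    (leib : ∀ x y, δ (x * y) = x • δ y + y • δ x) (hk : ∀ a : k, δ (algebraMap k K a) = 0)
    (h0 : ∀ i, δ (hh i) = 0) (x : K) : δ x = 0 := by
  have hE : ∀ y ∈ IntermediateField.adjoin k (Set.range hh), δ y = 0 := by
    intro y hy
    induction hy using IntermediateField.adjoin_induction with
    | mem y hy => obtain ⟨i, rfl⟩ := hy; exact h0 i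
    | algebraMap a => exact hk a
    | add y z _ _ hy hz => rw [map_add, hy, hz, add_zero]
    | inv y _ hy =>
      rcases eq_or_ne y 0 with rfl | h
      · rw [inv_zero, map_zero]
      · have h1 := leib y y⁻¹
        have h2 := hk 1
        rw [map_one] at h2
        rw [mul_inv_cancel₀ h, h2, hy, smul_zero, add_zero] at h1
        exact (smul_eq_zero.1 h1.symm).resolve_left h
    | mul y z _ _ hy hz => rw [leib, hy, hz, smul_zero, smul_zero, add_zero]
  let D : Derivation (IntermediateField.adjoin k (Set.range hh)) K M := Derivation.mk'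
    { toFun := δ
      map_add' := δ.map_add
      map_smul' := fun e y => by
        change δ (e.1 * y) = e.1 • δ y
        rw [leib, hE _ e.2, smul_zero, add_zero] } leib
  have := Algebra.FormallyUnramified.of_isSeparable (IntermediateField.adjoin k (Set.range hh)) K
  change D x = 0
  rw [← D.liftKaehlerDifferential_comp_D, Subsingleton.elim (KaehlerDifferential.D _ K x) 0,
    map_zero]

theorem stage_span (hh : ι → K)
    (sep : Algebra.IsSeparable (IntermediateField.adjoin k (Set.range hh)) K) (δ : K →+ M)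
    (leib : ∀ x y, δ (x * y) = x • δ y + y • δ x) (hk : ∀ a : k, δ (algebraMap k K a) = 0)
    (x : K) : δ x ∈ Submodule.span K (Set.range fun i => δ (hh i)) := by
  rw [← Submodule.Quotient.mk_eq_zero]
  refine stage_kill hh sep ((Submodule.mkQ (Submodule.span K
    (Set.range fun i => δ (hh i)))).toAddMonoidHom.comp δ) (fun x y => ?_) (fun a => ?_)
    (fun i => ?_) x
  · simp only [AddMonoidHom.comp_apply, LinearMap.toAddMonoidHom_coe, leib, map_add, map_smul]
  · simp only [AddMonoidHom.comp_apply, hk, map_zero]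
  · exact (Submodule.Quotient.mk_eq_zero _).2 (Submodule.subset_span ⟨i, rfl⟩)

end stage

namespace Ctx

open scoped Pointwise

variable {k K Ω : Type u} [Field k] [Field K] [Field Ω] [Algebra k K] [Algebra K Ω] {d : ℕ}
  (c : Ctx k K Ω d)

theorem stage_s_mem {J : Finset (Fin d)} (U : Fin d → Finset K) {a : Fin d} (ha : a ∈ J) (x : K) :
    c.s a x ∈ c.kst J U := Subfield.subset_closure (Or.inr ⟨a, ha, Or.inl ⟨x, rfl⟩⟩)

theorem stage_th_mem {J : Finset (Fin d)} (U : Fin d → Finset K) {a : Fin d} (ha : a ∈ J) :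
    th (c.s a) (U a) ∈ c.kst J U := Subfield.subset_closure (Or.inr ⟨a, ha, Or.inr rfl⟩)

theorem Kst_mono {J J' : Finset (Fin d)} (h : J ⊆ J') : c.Kst J ≤ c.Kst J' :=
  Subfield.closure_mono (Set.union_subset_union_right _ fun _ ⟨a, ha, hy⟩ => ⟨a, h ha, hy⟩)

theorem k0_le (J : Finset (Fin d)) (U : Fin d → Finset K) : c.k0 ≤ c.kst J U :=
  Subfield.closure_mono (Set.union_subset_union_right _ fun _ ⟨a, ha, _⟩ =>
    absurd ha (Finset.notMem_empty a))

theorem mem_Kst_empty {x : Ω} : x ∈ c.Kst ∅ ↔ ∃ y, algebraMap K Ω y = x := by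
  refine ⟨fun h => ?_, fun ⟨y, hy⟩ => hy ▸ c.alg_mem ∅ y⟩
  refine (Subfield.closure_le (t := (algebraMap K Ω).fieldRange)).2 ?_ h
  rintro y (⟨z, rfl⟩ | ⟨a, ha, -⟩)
  · exact ⟨z, rfl⟩
  · exact absurd ha (Finset.notMem_empty a)

theorem mem_k0 {x : Ω} : x ∈ c.k0 ↔ ∃ a : k, algebraMap K Ω (algebraMap k K a) = x := by
  refine ⟨fun h => ?_, fun ⟨y, hy⟩ => hy ▸ c.const_mem ∅ _ y⟩
  refine (Subfield.closure_le (t := ((algebraMap K Ω).comp (algebraMap k K)).fieldRange)).2 ?_ h
  rintro y (⟨z, rfl⟩ | ⟨a, ha, -⟩)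
  · exact ⟨z, rfl⟩
  · exact absurd ha (Finset.notMem_empty a)

theorem li_iff {β : Type} (b : β → K) :
    LinearIndependent k b ↔ LinearIndependent c.k0 fun j => algebraMap K Ω (b j) := by
  simp only [linearIndependent_iff']
  have key : ∀ (t : Finset β) (a : β → k) (g : β → c.k0),
      (∀ i, algebraMap K Ω (algebraMap k K (a i)) = g i) →
      (∑ i ∈ t, a i • b i = 0 ↔ ∑ i ∈ t, g i • algebraMap K Ω (b i) = 0) := by
    intro t a g h
    rw [← map_eq_zero_iff (algebraMap K Ω) (algebraMap K Ω).injective, map_sum]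
    simp only [Algebra.smul_def, map_mul, h]
    rfl
  refine ⟨fun h t g hg i hi => ?_, fun h t a ha i hi => ?_⟩
  · choose a ha using fun i => c.mem_k0.1 (g i).2
    apply Subtype.ext
    rw [← ha i, h t a ((key t a g ha).2 hg) i hi, map_zero, map_zero]
    rfl
  · have := congrArg Subtype.val (h t (fun i => ⟨_, c.const_mem ∅ _ (a i)⟩)
      ((key t a _ fun _ => rfl).1 ha) i hi)
    exact (map_eq_zero _).1 ((map_eq_zero _).1 this)

theorem ind_st {J : Finset (Fin d)} {a : Fin d} (ha : a ∉ J) :
    AlgebraicIndependent (c.Kst J) (c.s a) := by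
  have h1 := c.hs.adjoin_of_disjoint (s := {p | p.1 ∈ J}) (t := {p | p.1 = a})
    (Set.disjoint_left.2 fun p hp hp' => ha (by rwa [← show p.1 = a from hp']))
  have h2 : (fun x : Fin d × K => c.s x.1 x.2) '' {p | p.1 ∈ J} =
      {y | ∃ a ∈ J, ∃ x, y = c.s a x} := by
    ext y
    exact ⟨fun ⟨p, hp, e⟩ => ⟨p.1, hp, p.2, e.symm⟩, fun ⟨a, ha, x, e⟩ => ⟨(a, x), ha, e.symm⟩⟩
  rw [← IntermediateField.algebraicIndependent_adjoin_iff, h2] at h1
  exact h1.comp (fun x : K => ⟨(a, x), rfl⟩) fun x y e => congrArg (fun p => p.1.2) e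

theorem kst_insert {J : Finset (Fin d)} (a : Fin d) {U U' : Fin d → Finset K}
    (h : ∀ b ∈ J, U b = U' b) : c.kst (insert a J) U' =
      Subfield.closure ((c.kst J U : Set Ω) ∪ Set.range (c.s a) ∪ {th (c.s a) (U' a)}) := by
  apply le_antisymm
  · refine Subfield.closure_le.2 ?_
    rintro y (⟨r, rfl⟩ | ⟨b, hb, hy⟩)
    · exact Subfield.subset_closure (Or.inl (Or.inl (c.const_mem J U r)))
    · rcases Finset.mem_insert.1 hb with rfl | hb
      · rcases hy with ⟨x, rfl⟩ | rfl
        · exact Subfield.subset_closure (Or.inl (Or.inr ⟨x, rfl⟩))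
        · exact Subfield.subset_closure (Or.inr rfl)
      · refine Subfield.subset_closure (Or.inl (Or.inl ?_))
        rw [← h b hb] at hy
        exact Subfield.subset_closure (Or.inr ⟨b, hb, hy⟩)
  · refine Subfield.closure_le.2 ?_
    rintro y ((hy | ⟨x, rfl⟩) | rfl)
    · rw [c.kst_congr h] at hy
      refine Subfield.closure_mono (Set.union_subset_union_right _ ?_) hy
      exact fun _ ⟨b, hb, e⟩ => ⟨b, Finset.mem_insert_of_mem hb, e⟩
    · exact c.stage_s_mem U' (Finset.mem_insert_self a J) x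
    · exact c.stage_th_mem U' (Finset.mem_insert_self a J)

theorem gen_st (J : Finset (Fin d)) (U : Fin d → Finset K) :
    c.Kst J = Subfield.closure ((c.kst J U : Set Ω) ∪ algebraMap K Ω '' (c.H : Set K)) := by
  apply le_antisymm
  · refine Subfield.closure_le.2 ?_
    rintro y (⟨x, rfl⟩ | ⟨a, ha, x, rfl⟩)
    · have hx : x ∈ (IntermediateField.adjoin k (c.H : Set K)).toSubfield := by
        rw [c.gen]; trivial
      refine (Subfield.closure_le (t := (Subfield.closure ((c.kst J U : Set Ω) ∪
        algebraMap K Ω '' (c.H : Set K))).comap (algebraMap K Ω))).2 ?_ hx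
      rintro z (⟨r, rfl⟩ | hz)
      · exact Subfield.subset_closure (Or.inl (c.const_mem J U r))
      · exact Subfield.subset_closure (Or.inr ⟨z, hz, rfl⟩)
    · exact Subfield.subset_closure (Or.inl (c.stage_s_mem U ha x))
  · refine Subfield.closure_le.2 ?_
    rintro y (hy | ⟨x, -, rfl⟩)
    · exact c.kst_le J U hy
    · exact c.alg_mem J x

theorem tr_st {J : Finset (Fin d)} (hJ : J ≠ Finset.univ) (U : Fin d → Finset K) :
    ∃ x ∈ c.H, Transcendental (c.kst J U) (algebraMap K Ω x) := by
  by_contra hcon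
  have halg : ∀ a, IsAlgebraic (c.kst J U) (algebraMap K Ω (c.hh a)) := fun a =>
    by_contra fun h => hcon ⟨_, c.hh_mem a, h⟩
  let _ : Algebra k Ω := ((algebraMap K Ω).comp (algebraMap k K)).toAlgebra
  have : IsScalarTower k K Ω := .of_algebraMap_eq fun _ => rfl
  have h1 := c.ind.sumElim_comp c.hs
  rw [← algebraicIndependent_equiv (Equiv.sumComm _ _)] at h1
  have h2 : AlgebraicIndependent k (Sum.elim (algebraMap K Ω ∘ c.hh)
      fun x : Fin d × K => c.s x.1 x.2) := by
    have e : (Sum.elim (fun x : Fin d × K => c.s x.1 x.2) (algebraMap K Ω ∘ c.hh)) ∘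
        (Equiv.sumComm (Fin d) (Fin d × K)) = Sum.elim (algebraMap K Ω ∘ c.hh)
        fun x : Fin d × K => c.s x.1 x.2 := by
      ext (_ | _) <;> rfl
    rwa [e] at h1
  have h3 := (AlgebraicIndependent.sumElim_iff.1 h2).2
  rw [← IntermediateField.algebraicIndependent_adjoin_iff] at h3
  set k1 := IntermediateField.adjoin k (Set.range fun x : Fin d × K => c.s x.1 x.2)
  let X : Set Ω := (fun a => th (c.s a) (U a)) '' (J : Set (Fin d))
  have h4 : c.kst J U ≤ (IntermediateField.adjoin k1 X).toSubfield := by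
    refine Subfield.closure_le.2 ?_
    rintro y (⟨r, rfl⟩ | ⟨a, ha, ⟨x, rfl⟩ | rfl⟩)
    · exact (IntermediateField.adjoin k1 X).algebraMap_mem (algebraMap k k1 r)
    · exact (IntermediateField.adjoin k1 X).algebraMap_mem
        ⟨_, IntermediateField.subset_adjoin k _ ⟨(a, x), rfl⟩⟩
    · exact IntermediateField.subset_adjoin k1 X ⟨a, ha, rfl⟩
  have h5 : Set.range (algebraMap K Ω ∘ c.hh) ⊆ (AlgebraicIndependent.matroid k1 Ω).closure X := by
    rintro _ ⟨a, rfl⟩
    rw [AlgebraicIndependent.matroid_closure_eq]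
    exact IntermediateField.isAlgebraic_adjoin_iff.1 (stage_alg_mono h4 (halg a))
  have h6 := (AlgebraicIndependent.matroid_indep_iff.2
    h3.to_subtype_range).encard_le_eRk_of_subset h5
  rw [Matroid.eRk_closure_eq, ← Set.image_univ, h3.injective.encard_image,
    ← Finset.coe_univ, Set.encard_coe_eq_coe_finsetCard] at h6
  have h7 := (h6.trans (Matroid.eRk_le_encard _ _)).trans (Set.encard_image_le _ _)
  rw [Set.encard_coe_eq_coe_finsetCard, Nat.cast_le] at h7
  exact hJ (Finset.eq_univ_of_card J (le_antisymm (Finset.card_le_univ J) h7))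

/-- The linear system satisfied by the derivatives of the separating basis is nondegenerate. -/
theorem stage_lin {J : Finset (Fin d)} {U : Fin d → Finset K} (hU : ∀ a ∈ J, c.H ⊆ U a)
    (δ : K →+ Ω) (leib : ∀ x y, δ (x * y) = x • δ y + y • δ x)
    (hk : ∀ a : k, δ (algebraMap k K a) = 0) (h1 : ∀ a, a ∉ J → δ (c.hh a) = 0)
    (h2 : ∀ a ∈ J, ∑ x ∈ U a, c.s a x * δ x = 0) (x : K) : δ x = 0 := by
  classical
  have hcf : ∀ x : K, ∃ v : Fin d → K, (∑ i, v i • δ (c.hh i) = δ x) ∧
      ∀ a, x = c.hh a → v = Pi.single a 1 := by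
    intro x
    by_cases h : ∃ a, x = c.hh a
    · obtain ⟨a, rfl⟩ := h
      refine ⟨Pi.single a 1, ?_, fun b hb => by rw [c.ind.injective hb]⟩
      rw [Finset.sum_eq_single a (fun b _ hb => by rw [Pi.single_eq_of_ne hb, zero_smul])
        (fun h => absurd (Finset.mem_univ a) h), Pi.single_eq_same, one_smul]
    · obtain ⟨v, hv⟩ := (Submodule.mem_span_range_iff_exists_fun K).1
        (stage_span c.hh c.sep δ leib hk x)
      exact ⟨v, hv, fun a ha => absurd ⟨a, ha⟩ h⟩
  choose cf hcf1 hcf2 using hcf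
  let NP : Matrix (Fin d) (Fin d) (MvPolynomial (Fin d × K) K) := Matrix.of fun a i =>
    if a ∈ J then ∑ x ∈ U a, MvPolynomial.X (a, x) * MvPolynomial.C (cf x i)
    else MvPolynomial.C ((Pi.single a 1 : Fin d → K) i)
  have hdet : NP.det ≠ 0 := by
    intro h
    let e : MvPolynomial (Fin d × K) K →+* K :=
      MvPolynomial.eval fun p => if p.2 = c.hh p.1 then 1 else 0
    have h3 : e.mapMatrix NP = 1 := by
      ext a i
      have h4 : (Pi.single a 1 : Fin d → K) i = (1 : Matrix (Fin d) (Fin d) K) a i := by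
        rw [Pi.single_apply, Matrix.one_apply]
        exact if_congr eq_comm rfl rfl
      change e (NP a i) = _
      simp only [NP, Matrix.of_apply]
      split_ifs with ha
      · simp only [e, map_sum, map_mul, MvPolynomial.eval_X, MvPolynomial.eval_C]
        rw [Finset.sum_eq_single (c.hh a) (fun b _ hb => by rw [if_neg hb, zero_mul])
          (fun h => absurd (hU a ha (c.hh_mem a)) h), if_pos rfl, one_mul, hcf2 _ a rfl, h4]
      · simp only [e, MvPolynomial.eval_C, h4]
    have := e.map_det NP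
    rw [h, h3, map_zero, Matrix.det_one] at this
    exact zero_ne_one this
  let f : MvPolynomial (Fin d × K) K →ₐ[K] Ω := MvPolynomial.aeval fun p => c.s p.1 p.2
  have hdet' : (f.toRingHom.mapMatrix NP).det ≠ 0 := by
    rw [← RingHom.map_det]
    exact fun h => hdet (c.hs (h.trans (map_zero f).symm))
  have hv : (fun i => δ (c.hh i)) = 0 := by
    refine Matrix.eq_zero_of_mulVec_eq_zero hdet' (funext fun a => ?_)
    change ∑ i, f (NP a i) * δ (c.hh i) = 0
    simp only [NP, Matrix.of_apply]
    split_ifs with ha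
    · rw [← h2 a ha]
      simp only [f, map_sum, map_mul, MvPolynomial.aeval_X, MvPolynomial.aeval_C, Finset.sum_mul]
      rw [Finset.sum_comm]
      refine Finset.sum_congr rfl fun x _ => ?_
      rw [← hcf1 x, Finset.mul_sum]
      exact Finset.sum_congr rfl fun i _ => by rw [Algebra.smul_def, mul_assoc]
    · refine Finset.sum_eq_zero fun i _ => ?_
      rcases eq_or_ne i a with rfl | hi
      · rw [h1 i ha, mul_zero]
      · rw [Pi.single_eq_of_ne hi, map_zero, map_zero, zero_mul]
  exact stage_kill c.hh c.sep δ leib hk (congrFun hv) x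

theorem sep_st {J : Finset (Fin d)} {U : Fin d → Finset K} (hU : ∀ a ∈ J, c.H ⊆ U a) {x : Ω}
    (hx : x ∈ c.Kst J) : IsSeparable (IntermediateField.adjoin (c.kst J U)
      {y | ∃ a, a ∉ J ∧ y = algebraMap K Ω (c.hh a)}) x := by
  set L := IntermediateField.adjoin (c.kst J U) {y | ∃ a, a ∉ J ∧ y = algebraMap K Ω (c.hh a)}
  let F := IntermediateField.adjoin L (algebraMap K Ω '' (c.H : Set K))
  have hkL : ∀ y ∈ c.kst J U, y ∈ L := fun y hy => L.algebraMap_mem ⟨y, hy⟩
  have hLF : ∀ y ∈ L, y ∈ F := fun y hy => F.algebraMap_mem ⟨y, hy⟩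
  have hKF : ∀ y ∈ c.Kst J, y ∈ F := by
    rw [c.gen_st J U]
    refine (Subfield.closure_le (t := F.toSubfield)).2 ?_
    rintro y (hy | hy)
    · exact hLF y (hkL y hy)
    · exact IntermediateField.subset_adjoin L _ hy
  let φ : K →+* F := (algebraMap K Ω).codRestrict F fun y => hKF _ (c.alg_mem J y)
  have hD : ∀ (D : Derivation L F F) (y : F), D y = 0 := by
    intro D
    have hL : ∀ y : F, y.1 ∈ L → D y = 0 := fun y hy => D.map_algebraMap ⟨y.1, hy⟩
    let δ : K →+ Ω :=
      { toFun := fun y => D (φ y)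
        map_zero' := by rw [map_zero, map_zero]; rfl
        map_add' := fun y z => by rw [map_add, map_add]; rfl }
    have h0 : ∀ y, δ y = 0 := by
      refine c.stage_lin hU δ (fun y z => ?_) (fun a => ?_) (fun a ha => ?_) fun a ha => ?_
      · change ((D (φ (y * z)) : F) : Ω) = _
        rw [map_mul, D.leibniz, Algebra.smul_def y, Algebra.smul_def z]
        rfl
      · exact congrArg Subtype.val (hL _ (hkL _ (c.const_mem J U a)))
      · exact congrArg Subtype.val (hL _ (IntermediateField.subset_adjoin _ _ ⟨a, ha, rfl⟩))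
      · let σ : K → L := fun y => ⟨_, hkL _ (c.stage_s_mem U ha y)⟩
        have h1 : D (∑ y ∈ U a, σ y • φ y) = 0 := by
          refine hL _ ?_
          change F.subtype _ ∈ L
          rw [map_sum]
          exact hkL _ (c.stage_th_mem U ha)
        rw [map_sum] at h1
        simp only [Derivation.map_smul] at h1
        have h2 := congrArg F.subtype h1
        rw [map_sum, map_zero] at h2
        exact h2
    rintro ⟨y, hy⟩
    induction hy using IntermediateField.adjoin_induction with
    | mem y hy => obtain ⟨z, -, rfl⟩ := hy; exact Subtype.ext (h0 z)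
    | algebraMap a => exact hL _ a.2
    | add y z hy hz h1 h2 =>
      have := D.map_add ⟨y, hy⟩ ⟨z, hz⟩
      rwa [h1, h2, add_zero] at this
    | inv y hy h1 =>
      have := D.leibniz_inv (⟨y, hy⟩ : F)
      rwa [h1, smul_zero] at this
    | mul y z hy hz h1 h2 =>
      have := D.leibniz ⟨y, hy⟩ ⟨z, hz⟩
      rwa [h1, h2, smul_zero, smul_zero, add_zero] at this
  have : Algebra.EssFiniteType L F := IntermediateField.essFiniteType_iff.2
    (IntermediateField.fg_adjoin_of_finite (c.H.finite_toSet.image _))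
  have : Algebra.FormallyUnramified L F := by
    refine ⟨subsingleton_of_forall_eq 0 fun w => ?_⟩
    have hw : w ∈ Submodule.span F (Set.range (KaehlerDifferential.D L F)) := by
      rw [KaehlerDifferential.span_range_derivation]; trivial
    refine (Submodule.span_le (p := ⊥)).2 ?_ hw
    rintro _ ⟨y, rfl⟩
    exact (Module.forall_dual_apply_eq_zero_iff F _).1 fun l =>
      hD (l.compDer (KaehlerDifferential.D L F)) y
  have := Algebra.FormallyUnramified.isSeparable L F
  exact IntermediateField.isSeparable_of_mem_isSeparable L Ω (hKF x hx)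

theorem stage_int {J : Finset (Fin d)} {U : Fin d → Finset K} (hU : ∀ a ∈ J, c.H ⊆ U a)
    (h : ∀ a, a ∉ J → IsIntegral (c.kst J U) (algebraMap K Ω (c.hh a))) {x : Ω}
    (hx : x ∈ c.Kst J) : IsIntegral (c.kst J U) x := by
  have := IntermediateField.isAlgebraic_adjoin (K := c.kst J U)
    (S := {y | ∃ a, a ∉ J ∧ y = algebraMap K Ω (c.hh a)}) (by rintro _ ⟨a, ha, rfl⟩; exact h a ha)
  exact isIntegral_trans x (c.sep_st hU hx).isIntegral

theorem stage_mem_adjoin (J : Finset (Fin d)) (U : Fin d → Finset K) {x : Ω} :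
    x ∈ c.Kst J ↔ x ∈ IntermediateField.adjoin (c.kst J U) (algebraMap K Ω '' (c.H : Set K)) := by
  rw [c.gen_st J U, ← IntermediateField.mem_toSubfield, IntermediateField.adjoin_toSubfield]
  have : Set.range (algebraMap (c.kst J U) Ω) = (c.kst J U : Set Ω) := Subtype.range_coe
  rw [this]

theorem fin_st {U : Fin d → Finset K} (hU : ∀ a, c.H ⊆ U a) :
    Module.Finite (c.kst Finset.univ U) (fsub (c.kst_le Finset.univ U)) := by
  have h1 := IntermediateField.finiteDimensional_adjoin (K := c.kst Finset.univ U)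
    (S := algebraMap K Ω '' (c.H : Set K)) (by
      rintro _ ⟨x, -, rfl⟩
      exact c.stage_int (fun a _ => hU a) (fun a ha => absurd (Finset.mem_univ a) ha)
        (c.alg_mem _ x))
  have h2 : fsub (c.kst_le Finset.univ U) = Subalgebra.toSubmodule (IntermediateField.adjoin
      (c.kst Finset.univ U) (algebraMap K Ω '' (c.H : Set K))).toSubalgebra :=
    Submodule.ext fun x => c.stage_mem_adjoin _ U
  rw [h2]
  exact h1

/-- After all cuts the powers of a system containing `H` fill the field. -/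
theorem sp_top [DecidableEq K] {U : Fin d → Finset K} (hU : ∀ a, c.H ⊆ U a) {P : Finset K}
    (hP : c.H ⊆ P) : ∃ n0, ∀ n, sp (c.kst Finset.univ U) (P ^ (n + n0)) =
      fsub (c.kst_le Finset.univ U) := by
  have := c.fin_st hU
  have h1 : (1 : K) ∈ P := hP c.one_mem
  have hle : ∀ n, sp (c.kst Finset.univ U) (P ^ n) ≤ fsub (c.kst_le Finset.univ U) := fun n =>
    sp_le_fsub _ (c.alg_mem _) _
  have hb : BddAbove (Set.range fun n =>
      Module.finrank (c.kst Finset.univ U) (sp (c.kst Finset.univ U) (P ^ n))) :=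
    ⟨_, by rintro _ ⟨n, rfl⟩; exact Submodule.finrank_mono (hle n)⟩
  obtain ⟨n0, hn0⟩ := Nat.sSup_mem (Set.range_nonempty _) hb
  have hst : ∀ n, sp (c.kst Finset.univ U) (P ^ (n + n0)) = sp (c.kst Finset.univ U) (P ^ n0) :=
    fun n => (Submodule.eq_of_le_of_finrank_le
      (sp_mono (Finset.pow_right_monotone h1 (Nat.le_add_left _ _)))
      ((le_csSup hb ⟨n + n0, rfl⟩).trans hn0.ge)).symm
  refine ⟨n0, fun n => le_antisymm (hle _) fun x hx => ?_⟩
  rw [hst]
  let A : Subalgebra (c.kst Finset.univ U) Ω := (sp (c.kst Finset.univ U) (P ^ n0)).toSubalgebra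
    (by simpa only [map_one] using mem_sp (Ω := Ω) (one_mem_pow h1 n0)) fun y z hy hz => by
      rw [← hst n0, pow_add, sp_mul]
      exact Submodule.mul_mem_mul hy hz
  have h2 : Algebra.adjoin (c.kst Finset.univ U) (algebraMap K Ω '' (c.H : Set K)) ≤ A := by
    refine Algebra.adjoin_le ?_
    rintro _ ⟨y, hy, rfl⟩
    change _ ∈ sp (c.kst Finset.univ U) (P ^ n0)
    rw [← hst 1]
    exact mem_sp (sub_pow c.one_mem hP (by omega) hy)
  rw [← IntermediateField.adjoin_toSubalgebra_of_isAlgebraic (by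
    rintro _ ⟨x, -, rfl⟩
    exact (c.stage_int (fun a _ => hU a) (fun a ha => absurd (Finset.mem_univ a) ha)
      (c.alg_mem _ x)).isAlgebraic)] at h2
  exact h2 ((c.stage_mem_adjoin _ U).1 hx)

/-- On a curve the remaining element of the separating basis is transcendental. -/
theorem tr_curve {U : Fin d → Finset K} (hU : ∀ a, c.H ⊆ U a) (a : Fin d) :
    Transcendental (c.kst {a}ᶜ U) (algebraMap K Ω (c.hh a)) := by
  intro h
  obtain ⟨x, -, hx⟩ := c.tr_st (J := {a}ᶜ)
    (fun e => by simpa using e.ge (Finset.mem_univ a)) U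
  refine hx (c.stage_int (fun b _ => hU b) (fun b hb => ?_) (c.alg_mem _ x)).isAlgebraic
  obtain rfl : b = a := by simpa using hb
  exact h.isIntegral

end Ctx
end C03
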