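import Pool.Agent.Lib.MP_1c03d5_ag.H97Cut
import Pool.Agent.Lib.MP_1c03d5_ag.H97Stage

/-! TASK DEG: intersection numbers and growth of linear systems. -/

namespace C03

universe u

open scoped Pointwise
open Module Function

section aux

variable {K Ω : Type u} [Field K] [Field Ω] [Algebra K Ω] {κ κ' E E' : Subfield Ω}

theorem deg_span_sub (h : κ ≤ κ') {S : Set Ω} {x : Ω} (hx : x ∈ Submodule.span κ S) :
    x ∈ Submodule.span κ' S := by
  induction hx using Submodule.span_induction with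
  | mem x hx => exact Submodule.subset_span hx
  | zero => exact zero_mem _
  | add x y _ _ a b => exact add_mem a b
  | smul a x _ b => exact Submodule.smul_mem _ (⟨a, h a.2⟩ : κ') b

theorem deg_span_span (h : κ ≤ κ') (S : Set Ω) :
    Submodule.span κ' (Submodule.span κ S : Set Ω) = Submodule.span κ' S :=
  le_antisymm (Submodule.span_le.2 fun _ hx => deg_span_sub h hx)
    (Submodule.span_mono Submodule.subset_span)

theorem deg_span_finite (h : κ ≤ κ') (W : Submodule κ Ω) [hW : Module.Finite κ W] :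
    Module.Finite κ' (Submodule.span κ' (W : Set Ω)) := by
  obtain ⟨S, hS⟩ := Module.Finite.iff_fg.1 hW
  rw [← hS, deg_span_span h]
  exact Module.Finite.span_of_finite _ S.finite_toSet

theorem deg_finite_congr (h : κ ≤ E) (h' : κ' ≤ E') (e : κ = κ') (e' : E = E')
    (P R : Finset K) (hf : Module.Finite κ (cs h P R)) : Module.Finite κ' (cs h' P R) := by
  subst e e'; exact hf

theorem deg_finite_le {W W' : Submodule κ Ω} (h : W ≤ W') (hf : Module.Finite κ W') :
    Module.Finite κ W := Submodule.finiteDimensional_of_le h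

theorem deg_finite_mul (W W' : Submodule κ Ω) [h : Module.Finite κ W] [h' : Module.Finite κ W'] :
    Module.Finite κ ↥(W * W') :=
  Module.Finite.iff_fg.2 ((Module.Finite.iff_fg.1 h).mul (Module.Finite.iff_fg.1 h'))

theorem deg_mul_le_fsub (h : κ ≤ E) {W W' : Submodule κ Ω} (h1 : W ≤ fsub h) (h2 : W' ≤ fsub h) :
    W * W' ≤ fsub h := Submodule.mul_le.2 fun _ hx _ hy => E.mul_mem (h1 hx) (h2 hy)

theorem deg_asym {x y C : ℕ} (h : ∀ n, n * x ≤ n * y + C) : x ≤ y := by
  by_contra hc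
  have h1 := h (C + 1)
  have h2 : (C + 1) * (y + 1) ≤ (C + 1) * x := Nat.mul_le_mul_left _ (by omega)
  nlinarith

variable [DecidableEq K]

theorem deg_pow_sub {P : Finset K} (h1 : (1 : K) ∈ P) {m n : ℕ} (h : m ≤ n) : P ^ m ⊆ P ^ n :=
  Finset.pow_subset_pow_right h1 h

theorem deg_mul_mem {P : Finset K} {N : ℕ} {x : K} (hx : x ∈ P) {y : Ω} (hy : y ∈ sp κ (P ^ N)) :
    algebraMap K Ω x * y ∈ sp κ (P ^ (N + 1)) := by
  rw [pow_succ', sp_mul]
  exact Submodule.mul_mem_mul (mem_sp hx) hy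

theorem deg_cs_le (h : κ ≤ E) (P : Finset K) {R : Finset K} (hR : (1 : K) ∈ R) :
    cs h P R ≤ cs h P 1 := by
  have := cs_anti h P 1 hR
  rwa [one_mul] at this

theorem deg_cs_mul_sp (h : κ ≤ E) (hK : ∀ x : K, algebraMap K Ω x ∈ E) (P R : Finset K) :
    cs h P R * sp κ R ≤ cs h P 1 := by
  have := cs_mul_sp_le h hK P 1 R
  rwa [one_mul] at this

theorem deg_pow_mem (h : κ ≤ E) {P R : Finset K} {x : Ω} (hx : x ∈ cs h P R) (N : ℕ) :
    x ^ N ∈ cs h (P ^ N) (R ^ N) :=
  ⟨E.pow_mem hx.1 N, fun O hO => by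
    rw [map_pow, nrm_pow, nrm_pow, ← mul_pow]
    exact pow_le_pow_left' (hx.2 O hO) N⟩

end aux

namespace Ctx

variable {k K Ω : Type u} [Field k] [Field K] [Field Ω] [Algebra k K] [Algebra K Ω] {d : ℕ}
  [DecidableEq K] (c : Ctx k K Ω d)

omit [DecidableEq K] in
theorem deg_tr {J : Finset (Fin d)} {a : Fin d} (ha : a ∉ J) (U : Fin d → Finset K)
    {P : Finset K} (hP : c.H ⊆ P) :
    ∃ x ∈ P, Transcendental (c.kst J U) (algebraMap K Ω x) := by
  obtain ⟨x, hx, h⟩ := c.tr_st (J := J) (by rintro rfl; exact ha (Finset.mem_univ a)) U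
  exact ⟨x, hP hx, h⟩

omit [DecidableEq K] in
theorem deg_kst_le {J J' : Finset (Fin d)} {a : Fin d} (hJ : insert a J = J')
    {U U' : Fin d → Finset K} (h : ∀ b ∈ J, U b = U' b) : c.kst J U ≤ c.kst J' U' := by
  subst hJ
  rw [c.kst_insert a h]
  exact fun x hx => Subfield.subset_closure (Or.inl (Or.inl hx))

theorem deg_up {J J' : Finset (Fin d)} {a : Fin d} (ha : a ∉ J) (hJ : insert a J = J')
    {U U' : Fin d → Finset K} (h : ∀ b ∈ J, U b = U' b) {Q : Finset K} (hQ : U' a = Q)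
    (hH : c.H ⊆ Q) (P R : Finset K)
    (f1 : Module.Finite (c.kst J U) (c.cst J U P (R * Q)))
    (f2 : Module.Finite (c.kst J' U') (c.cst J' U' P R)) :
    Module.Finite (c.kst J U) (c.cst J U P R) ∧
      finrank (c.kst J U) (c.cst J U P R) ≤
        finrank (c.kst J U) (c.cst J U P (R * Q)) + finrank (c.kst J' U') (c.cst J' U' P R) := by
  subst hJ hQ
  exact cut_up (c.kst_le J U) (c.alg_mem J) (c.ind_st ha) (c.deg_tr ha U hH) (c.kst_insert a h)
    (c.kst_le _ U') (c.Kst_mono (Finset.subset_insert a J)) (hH c.one_mem) P R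

theorem deg_low {J J' : Finset (Fin d)} {a : Fin d} (ha : a ∉ J) (hJ : insert a J = J')
    {U U' : Fin d → Finset K} (h : ∀ b ∈ J, U b = U' b) {Q : Finset K} (hQ : U' a = Q)
    (hH : c.H ⊆ Q) (W W' : Submodule (c.kst J U) Ω) (f : Module.Finite (c.kst J U) W)
    (hW : W ≤ fsub (c.kst_le J U)) (h1 : W' ≤ W)
    (h2 : ∀ x ∈ Q, ∀ y ∈ W', algebraMap K Ω x * y ∈ W) :
    finrank (c.kst J U) W' + finrank (c.kst J' U') (Submodule.span (c.kst J' U') (W : Set Ω)) ≤
      finrank (c.kst J U) W := by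
  subst hJ hQ
  exact cut_low (c.kst_le J U) (c.alg_mem J) (c.ind_st ha) (c.deg_tr ha U hH) (c.kst_insert a h)
    W W' hW h1 h2

omit [DecidableEq K] c in
theorem deg_pick {J : Finset (Fin d)} {m : ℕ} (h : Jᶜ.card = m + 1) :
    ∃ a, a ∉ J ∧ (insert a J)ᶜ.card = m := by
  obtain ⟨a, ha⟩ : Jᶜ.Nonempty := Finset.card_pos.1 (by omega)
  refine ⟨a, Finset.mem_compl.1 ha, ?_⟩
  rw [Finset.compl_insert, Finset.card_erase_of_mem ha, h]
  rfl

omit [DecidableEq K] c in
theorem deg_univ {J : Finset (Fin d)} (h : Jᶜ.card = 0) : J = Finset.univ := by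
  rwa [Finset.card_eq_zero, Finset.compl_eq_empty_iff] at h

omit [DecidableEq K] in
theorem deg_top {U : Fin d → Finset K} (hU : ∀ a, c.H ⊆ U a) (P R : Finset K) :
    Module.Finite (c.kst Finset.univ U) (c.cst Finset.univ U P R) ∧
      finrank (c.kst Finset.univ U) (c.cst Finset.univ U P R) ≤ c.II U :=
  have := c.fin_st hU
  ⟨deg_finite_le (cs_le_fsub _ P R) this, Submodule.finrank_mono (cs_le_fsub _ P R)⟩

theorem deg_ub {U : Fin d → Finset K} {P : Finset K} (hU : ∀ a, c.H ⊆ U a) (m : ℕ) :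
    ∀ J : Finset (Fin d), Jᶜ.card = m → (∀ a, a ∉ J → U a = P) → ∀ n,
      Module.Finite (c.kst J U) (c.cst J U (P ^ n) 1) ∧
        finrank (c.kst J U) (c.cst J U (P ^ n) 1) ≤ c.II U * (n + m).choose m := by
  induction m with
  | zero =>
    intro J hJ _ n
    obtain rfl := deg_univ hJ
    simpa using c.deg_top hU (P ^ n) 1
  | succ m ih =>
    intro J hJ hP n
    obtain ⟨a, ha, hm⟩ := deg_pick hJ
    have hH : c.H ⊆ P := hP a ha ▸ hU a
    have ih' := ih (insert a J) hm fun b hb => hP b fun h => hb (Finset.mem_insert_of_mem h)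
    induction n with
    | zero =>
      have e : c.cst J U (P ^ 0) (1 * P) = ⊥ := by
        rw [pow_zero, one_mul]
        exact cs_neg _ (hH c.one_mem) (c.deg_tr ha U hH)
      have := c.deg_up ha rfl (U := U) (U' := U) (fun _ _ => rfl) (hP a ha) hH (P ^ 0) 1
        (by rw [e]; infer_instance) (ih' 0).1
      refine ⟨this.1, this.2.trans ?_⟩
      have h2 := (ih' 0).2
      rw [e, finrank_bot]
      simpa using h2
    | succ n ihn =>
      have e : c.cst J U (P ^ (n + 1)) (1 * P) = c.cst J U (P ^ n) 1 := by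
        rw [pow_succ]
        exact cs_cancel _ _ _ (hH c.one_mem)
      have := c.deg_up ha rfl (U := U) (U' := U) (fun _ _ => rfl) (hP a ha) hH (P ^ (n + 1)) 1
        (by rw [e]; exact ihn.1) (ih' (n + 1)).1
      refine ⟨this.1, this.2.trans ?_⟩
      have h2 := (ih' (n + 1)).2
      have h3 := ihn.2
      rw [e, show n + 1 + (m + 1) = (n + 1 + m) + 1 by ring, Nat.choose_succ_succ', mul_add]
      rw [show n + (m + 1) = n + 1 + m by ring] at h3
      omega

theorem ub {J : Finset (Fin d)} {U : Fin d → Finset K} {P : Finset K} (hU : ∀ a, c.H ⊆ U a)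
    (hP : ∀ a, a ∉ J → U a = P) (n : ℕ) : Module.Finite (c.kst J U) (c.cst J U (P ^ n) 1) ∧
      finrank (c.kst J U) (c.cst J U (P ^ n) 1) ≤ c.II U * (n + Jᶜ.card).choose Jᶜ.card :=
  c.deg_ub hU _ J rfl hP n

theorem deg_lb {U : Fin d → Finset K} {P : Finset K} (hH : c.H ⊆ P) {n0 : ℕ}
    (h0 : ∀ n, sp (c.kst Finset.univ U) (P ^ (n + n0)) = fsub (c.kst_le Finset.univ U)) (m : ℕ) :
    ∀ J : Finset (Fin d), Jᶜ.card = m → (∀ a, a ∉ J → U a = P) → ∀ n,
      c.II U * (n + m).choose m ≤ finrank (c.kst J U) (sp (c.kst J U) (P ^ (n + n0))) := by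
  induction m with
  | zero =>
    intro J hJ _ n
    obtain rfl := deg_univ hJ
    rw [h0 n]
    simp [II]
  | succ m ih =>
    intro J hJ hP n
    obtain ⟨a, ha, hm⟩ := deg_pick hJ
    have ih' := ih (insert a J) hm fun b hb => hP b fun h => hb (Finset.mem_insert_of_mem h)
    have hle : c.kst J U ≤ c.kst (insert a J) U := c.deg_kst_le rfl fun _ _ => rfl
    have e : ∀ V : Finset K, Submodule.span (c.kst (insert a J) U) (sp (c.kst J U) V : Set Ω) =
        sp (c.kst (insert a J) U) V := fun V => deg_span_span hle _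
    induction n with
    | zero =>
      have := c.deg_low ha rfl (U := U) (U' := U) (fun _ _ => rfl) (hP a ha) hH
        (sp _ (P ^ (0 + n0))) ⊥ inferInstance (sp_le_fsub _ (c.alg_mem J) _) bot_le
        (fun x _ y hy => by rw [(Submodule.mem_bot _).1 hy, mul_zero]; exact zero_mem _)
      rw [e] at this
      have h2 := ih' 0
      simp only [zero_add, Nat.choose_self, mul_one] at h2 this ⊢
      omega
    | succ n ihn =>
      have e2 : n + 1 + n0 = n + n0 + 1 := by ring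
      have := c.deg_low ha rfl (U := U) (U' := U) (fun _ _ => rfl) (hP a ha) hH
        (sp _ (P ^ (n + 1 + n0))) (sp _ (P ^ (n + n0))) inferInstance
        (sp_le_fsub _ (c.alg_mem J) _) (sp_mono (deg_pow_sub (hH c.one_mem) (by omega)))
        (fun x hx y hy => by rw [e2]; exact deg_mul_mem hx hy)
      rw [e] at this
      have h2 := ih' (n + 1)
      rw [show n + 1 + (m + 1) = (n + 1 + m) + 1 by ring, Nat.choose_succ_succ', mul_add]
      rw [show n + (m + 1) = n + 1 + m by ring] at ihn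
      omega

theorem lb {J : Finset (Fin d)} {U : Fin d → Finset K} {P : Finset K} (hU : ∀ a, c.H ⊆ U a)
    (hH : c.H ⊆ P) (hP : ∀ a, a ∉ J → U a = P) : ∃ n0, ∀ n,
      c.II U * (n + Jᶜ.card).choose Jᶜ.card ≤
        finrank (c.kst J U) (sp (c.kst J U) (P ^ (n + n0))) := by
  obtain ⟨n0, h0⟩ := c.sp_top hU hH
  exact ⟨n0, c.deg_lb hH h0 _ J rfl hP⟩

omit [DecidableEq K] in
theorem deg_k0 (U : Fin d → Finset K) : c.kst ∅ U = c.k0 :=
  c.kst_congr fun a ha => absurd ha (Finset.notMem_empty a)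

theorem ub0 {P : Finset K} (hP : c.H ⊆ P) (n : ℕ) : Module.Finite c.k0 (c.cs0 (P ^ n) 1) ∧
    finrank c.k0 (c.cs0 (P ^ n) 1) ≤ c.II (fun _ => P) * (n + d).choose d := by
  have h := c.ub (J := ∅) (U := fun _ => P) (P := P) (fun _ => hP) (fun _ _ => rfl) n
  rw [Finset.compl_empty, Finset.card_univ, Fintype.card_fin] at h
  refine ⟨deg_finite_congr _ _ (c.deg_k0 _) rfl _ _ h.1, le_trans (le_of_eq ?_) h.2⟩
  exact finrank_cs_congr _ _ (c.deg_k0 _).symm rfl _ _

set_option linter.unusedSectionVars false in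
theorem II_pos {U : Fin d → Finset K} (hU : ∀ a, c.H ⊆ U a) : 0 < c.II U := by
  have := c.fin_st hU
  have : Nontrivial (fsub (c.kst_le Finset.univ U)) :=
    ⟨⟨⟨1, (c.Kst Finset.univ).one_mem⟩, 0, fun h => one_ne_zero (congrArg Subtype.val h)⟩⟩
  exact Module.finrank_pos

omit [Field K] [DecidableEq K] c in
theorem deg_agree (U : Fin d → Finset K) (a : Fin d) (P : Finset K) :
    ∀ b ∈ ({a}ᶜ : Finset (Fin d)), U b = update U a P b := fun b hb => by
  rw [update_of_ne (by simpa using hb)]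

omit [DecidableEq K] in
theorem deg_upd {U : Fin d → Finset K} (hU : ∀ b, c.H ⊆ U b) (a : Fin d) {P : Finset K}
    (hP : c.H ⊆ P) : ∀ b, c.H ⊆ update U a P b := fun b => by
  by_cases h : b = a
  · subst h; rwa [update_self]
  · rw [update_of_ne h]; exact hU b

omit [DecidableEq K] c in
theorem deg_ins (a : Fin d) : insert a ({a}ᶜ : Finset (Fin d)) = Finset.univ := by
  ext b; by_cases h : b = a <;> simp [h]

omit [DecidableEq K] c in
theorem deg_notMem (a : Fin d) : a ∉ ({a}ᶜ : Finset (Fin d)) := by simp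

theorem low_curve {U : Fin d → Finset K} (hU : ∀ b, c.H ⊆ U b) (a : Fin d) {P : Finset K}
    (hP : c.H ⊆ P) : ∃ n0, ∀ W : Submodule (c.kst {a}ᶜ U) Ω, Module.Finite (c.kst {a}ᶜ U) W →
      W ≠ ⊥ → W ≤ fsub (c.kst_le {a}ᶜ U) → ∀ n, finrank (c.kst {a}ᶜ U) W + n * c.II (update U a P) ≤
        finrank (c.kst {a}ᶜ U) ↥(W * sp (c.kst {a}ᶜ U) (P ^ (n + n0))) := by
  obtain ⟨n0, h0⟩ := c.sp_top (c.deg_upd hU a hP) hP
  refine ⟨n0, fun W hf hW hle n => ?_⟩
  obtain ⟨w, hw, hw0⟩ := Submodule.exists_mem_ne_zero_of_ne_bot hW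
  have h1 : (1 : K) ∈ P := hP c.one_mem
  have hκ : c.kst {a}ᶜ U ≤ c.kst Finset.univ (update U a P) :=
    c.deg_kst_le (deg_ins a) (deg_agree U a P)
  induction n with
  | zero =>
    have := deg_finite_mul W (sp (c.kst {a}ᶜ U) (P ^ (0 + n0)))
    rw [zero_mul, add_zero]
    refine Submodule.finrank_mono fun x hx => ?_
    have := Submodule.mul_mem_mul hx (mem_sp (κ := c.kst {a}ᶜ U) (one_mem_pow h1 (0 + n0)))
    rwa [map_one, mul_one] at this
  | succ n ih =>
    have e2 : n + 1 + n0 = n + n0 + 1 := by ring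
    have f := deg_finite_mul W (sp (c.kst {a}ᶜ U) (P ^ (n + 1 + n0)))
    have h2 := c.deg_low (deg_notMem a) (deg_ins a) (deg_agree U a P) (update_self a P U) hP
      (W * sp _ (P ^ (n + 1 + n0))) (W * sp _ (P ^ (n + n0))) f
      (deg_mul_le_fsub _ hle (sp_le_fsub _ (c.alg_mem _) _))
      (mul_le_mul_right (sp_mono (deg_pow_sub h1 (by omega))) _)
      (fun x hx y hy => by
        refine Submodule.mul_induction_on hy (fun p hp q hq => ?_) (fun p q hp hq => ?_)
        · rw [mul_left_comm, e2]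
          exact Submodule.mul_mem_mul hp (deg_mul_mem hx hq)
        · rw [mul_add]; exact add_mem hp hq)
    have := deg_span_finite hκ (W * sp (c.kst {a}ᶜ U) (P ^ (n + 1 + n0)))
    have h3 : c.II (update U a P) ≤ finrank (c.kst Finset.univ (update U a P))
        (Submodule.span (c.kst Finset.univ (update U a P))
          ((W * sp (c.kst {a}ᶜ U) (P ^ (n + 1 + n0)) : Submodule (c.kst {a}ᶜ U) Ω) : Set Ω)) := by
      have hinj : Injective (LinearMap.mulLeft (c.kst Finset.univ (update U a P)) w) :=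
        mul_right_injective₀ hw0
      rw [II, ← h0 (n + 1), (Submodule.equivMapOfInjective _ hinj _).finrank_eq]
      refine Submodule.finrank_mono ?_
      rw [sp, Submodule.map_span, Submodule.span_le]
      rintro _ ⟨_, ⟨x, hx, rfl⟩, rfl⟩
      exact Submodule.subset_span (Submodule.mul_mem_mul hw (mem_sp hx))
    rw [add_mul, one_mul]
    omega

theorem up_curve {U : Fin d → Finset K} (hU : ∀ b, c.H ⊆ U b) (a : Fin d) {P : Finset K}
    (hP : c.H ⊆ P) (n : ℕ) : Module.Finite (c.kst {a}ᶜ U) (c.cst {a}ᶜ U (P ^ n) 1) ∧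
      finrank (c.kst {a}ᶜ U) (c.cst {a}ᶜ U (P ^ n) 1) ≤ (n + 1) * c.II (update U a P) := by
  have h := c.ub (J := {a}ᶜ) (U := update U a P) (P := P) (c.deg_upd hU a hP)
    (fun b hb => by
      obtain rfl : b = a := by simpa using hb
      exact update_self _ _ _) n
  rw [compl_compl, Finset.card_singleton, Nat.choose_one_right, mul_comm] at h
  have e := c.kst_congr (deg_agree U a P)
  exact ⟨deg_finite_congr _ _ e.symm rfl _ _ h.1, (finrank_cs_congr _ _ e rfl _ _).le.trans h.2⟩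

theorem deg_low1 {U : Fin d → Finset K} (hU : ∀ b, c.H ⊆ U b) (a : Fin d) {P : Finset K}
    (hP : c.H ⊆ P) : ∃ n0, ∀ n, n * c.II (update U a P) ≤
        finrank (c.kst {a}ᶜ U) (sp (c.kst {a}ᶜ U) (P ^ (n + n0))) := by
  obtain ⟨n0, h0⟩ := c.low_curve hU a hP
  refine ⟨n0, fun n => ?_⟩
  have h1 : algebraMap K Ω 1 ∈ sp (c.kst {a}ᶜ U) (1 : Finset K) := mem_sp (by simp)
  have := h0 (sp _ (1 : Finset K)) inferInstance
    (fun h => by rw [h, map_one, Submodule.mem_bot] at h1; exact one_ne_zero h1)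
    (sp_le_fsub _ (c.alg_mem _) _) n
  rw [← sp_mul, one_mul] at this
  omega

theorem deg_up2 {U : Fin d → Finset K} (hU : ∀ b, c.H ⊆ U b) (a : Fin d) {P Q : Finset K}
    (hP : c.H ⊆ P) (hQ : c.H ⊆ Q) (N j : ℕ) :
    Module.Finite (c.kst {a}ᶜ U) (c.cst {a}ᶜ U (Q ^ N * P ^ j) 1) ∧
      finrank (c.kst {a}ᶜ U) (c.cst {a}ᶜ U (Q ^ N * P ^ j) 1) ≤
        (N + 1) * c.II (update U a Q) + j * c.II (update U a P) := by
  induction j with
  | zero => rw [pow_zero, mul_one, zero_mul, add_zero]; exact c.up_curve hU a hQ N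
  | succ j ih =>
    have e : c.cst {a}ᶜ U (Q ^ N * P ^ (j + 1)) (1 * P) = c.cst {a}ᶜ U (Q ^ N * P ^ j) 1 := by
      rw [pow_succ, ← mul_assoc]
      exact cs_cancel _ _ _ (hP c.one_mem)
    have ht := c.deg_top (c.deg_upd hU a hP) (Q ^ N * P ^ (j + 1)) 1
    have := c.deg_up (deg_notMem a) (deg_ins a) (deg_agree U a P) (update_self a P U) hP
      (Q ^ N * P ^ (j + 1)) 1 (by rw [e]; exact ih.1) ht.1
    refine ⟨this.1, this.2.trans ?_⟩
    have h2 := ih.2
    have h3 := ht.2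
    rw [e, add_mul j, one_mul]
    omega

theorem II_mul {U : Fin d → Finset K} (hU : ∀ b, c.H ⊆ U b) (a : Fin d) {P Q : Finset K}
    (hP : c.H ⊆ P) (hQ : c.H ⊆ Q) :
    c.II (update U a (P * Q)) = c.II (update U a P) + c.II (update U a Q) := by
  have hPQ : c.H ⊆ P * Q := sub_mul hP (hQ c.one_mem)
  apply le_antisymm
  · obtain ⟨n0, h0⟩ := c.deg_low1 hU a hPQ
    refine deg_asym (C := n0 * c.II (update U a P) + (n0 + 1) * c.II (update U a Q)) fun n => ?_
    have h1 := c.deg_up2 hU a hP hQ (n + n0) (n + n0)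
    have := h1.1
    have h2 : finrank (c.kst {a}ᶜ U) (sp (c.kst {a}ᶜ U) ((P * Q) ^ (n + n0))) ≤
        finrank (c.kst {a}ᶜ U) (c.cst {a}ᶜ U (Q ^ (n + n0) * P ^ (n + n0)) 1) := by
      rw [mul_pow, mul_comm]
      exact Submodule.finrank_mono (sp_le_cs _ (c.alg_mem _) _)
    have h3 := h0 n
    have h4 := h1.2
    nlinarith
  · obtain ⟨n0, h0⟩ := c.low_curve hU a hP
    obtain ⟨n1, h1⟩ := c.deg_low1 hU a hQ
    refine deg_asym (C := (n0 + n1 + 1) * c.II (update U a (P * Q))) fun n => ?_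
    have hone : algebraMap K Ω 1 ∈ sp (c.kst {a}ᶜ U) (Q ^ (n + n1)) :=
      mem_sp (one_mem_pow (hQ c.one_mem) _)
    have h2 := h0 (sp _ (Q ^ (n + n1))) inferInstance
      (fun h => by rw [h, map_one, Submodule.mem_bot] at hone; exact one_ne_zero hone)
      (sp_le_fsub _ (c.alg_mem _) _) n
    have h3 := c.up_curve hU a hPQ (n + n0 + n1)
    have := h3.1
    have h4 : finrank (c.kst {a}ᶜ U)
        ↥(sp (c.kst {a}ᶜ U) (Q ^ (n + n1)) * sp (c.kst {a}ᶜ U) (P ^ (n + n0))) ≤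
        finrank (c.kst {a}ᶜ U) (c.cst {a}ᶜ U ((P * Q) ^ (n + n0 + n1)) 1) := by
      refine Submodule.finrank_mono (le_trans ?_ (sp_le_cs _ (c.alg_mem _) _))
      rw [← sp_mul, mul_pow, mul_comm]
      exact sp_mono (Finset.mul_subset_mul (deg_pow_sub (hP c.one_mem) (by omega))
        (deg_pow_sub (hQ c.one_mem) (by omega)))
    have h5 := h1 n
    have h6 := h3.2
    nlinarith

theorem II_pow {U : Fin d → Finset K} (hU : ∀ b, c.H ⊆ U b) (a : Fin d) {P : Finset K}
    (hP : c.H ⊆ P) {n : ℕ} (hn : 0 < n) :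
    c.II (update U a (P ^ n)) = n * c.II (update U a P) := by
  induction n, hn using Nat.le_induction with
  | base => simp
  | succ n hn ih =>
    rw [pow_succ, c.II_mul hU a (sub_pow c.one_mem hP hn) hP, ih, add_mul, one_mul]

theorem II_mono {U : Fin d → Finset K} (hU : ∀ b, c.H ⊆ U b) (a : Fin d) {P Q : Finset K}
    (hP : c.H ⊆ P) (hQ : c.H ⊆ Q) (h : c.cs0 Q P ≠ ⊥) :
    c.II (update U a P) ≤ c.II (update U a Q) := by
  obtain ⟨x, hx, hx0⟩ := Submodule.exists_mem_ne_zero_of_ne_bot h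
  have hx' : x ∈ c.cst {a}ᶜ U Q P :=
    ⟨c.Kst_mono (Finset.empty_subset _) hx.1, fun O hO =>
      hx.2 O fun y hy => hO y (c.k0_le _ U hy)⟩
  obtain ⟨n0, h0⟩ := c.low_curve hU a hP
  refine deg_asym (C := (n0 + 1) * c.II (update U a Q)) fun n => ?_
  have h1 : Submodule.span (c.kst {a}ᶜ U) {x ^ (n + n0)} ≤
      c.cst {a}ᶜ U (Q ^ (n + n0)) (P ^ (n + n0)) :=
    (Submodule.span_singleton_le_iff_mem _ _).2 (deg_pow_mem _ hx' _)
  have h2 := h0 (Submodule.span (c.kst {a}ᶜ U) {x ^ (n + n0)}) inferInstance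
    (by rw [Ne, Submodule.span_singleton_eq_bot]; exact pow_ne_zero _ hx0)
    (h1.trans (cs_le_fsub _ _ _)) n
  have h3 := c.up_curve hU a hQ (n + n0)
  have := h3.1
  have h4 : finrank (c.kst {a}ᶜ U) ↥(Submodule.span (c.kst {a}ᶜ U) {x ^ (n + n0)} *
      sp (c.kst {a}ᶜ U) (P ^ (n + n0))) ≤
      finrank (c.kst {a}ᶜ U) (c.cst {a}ᶜ U (Q ^ (n + n0)) 1) :=
    Submodule.finrank_mono ((mul_le_mul_left h1 _).trans (deg_cs_mul_sp _ (c.alg_mem _) _ _))
  have h5 := h3.2
  nlinarith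

theorem diff_curve {U : Fin d → Finset K} (hU : ∀ b, c.H ⊆ U b) (a : Fin d) {P R : Finset K}
    (hP : c.H ⊆ P) (hR : c.H ⊆ R) : ∃ C : ℕ, ∀ q, c.cst {a}ᶜ U (P ^ q) (R ^ q) ≠ ⊥ →
      Module.Finite (c.kst {a}ᶜ U) (c.cst {a}ᶜ U (P ^ q) (R ^ q)) ∧
        finrank (c.kst {a}ᶜ U) (c.cst {a}ᶜ U (P ^ q) (R ^ q)) + q * c.II (update U a R) ≤
          q * c.II (update U a P) + C := by
  obtain ⟨n0, h0⟩ := c.low_curve hU a hR
  refine ⟨c.II (update U a P) + n0 * c.II (update U a R), fun q hq => ?_⟩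
  have h1 := c.up_curve hU a hP q
  have := h1.1
  have h2 : c.cst {a}ᶜ U (P ^ q) (R ^ q) ≤ c.cst {a}ᶜ U (P ^ q) 1 :=
    deg_cs_le _ _ (one_mem_pow (hR c.one_mem) q)
  have f := deg_finite_le h2 h1.1
  refine ⟨f, ?_⟩
  have h5 := h1.2
  rcases le_total q n0 with hle | hle
  · have h3 := Submodule.finrank_mono h2
    have h4 := Nat.mul_le_mul_right (c.II (update U a R)) hle
    nlinarith
  · obtain ⟨n, rfl⟩ : ∃ n, q = n + n0 := ⟨q - n0, by omega⟩
    have h3 := h0 _ f hq (cs_le_fsub _ _ _) n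
    have h4 := Submodule.finrank_mono (deg_cs_mul_sp (c.kst_le {a}ᶜ U) (c.alg_mem _)
      (P ^ (n + n0)) (R ^ (n + n0)))
    nlinarith

theorem siu (a : Fin d) {P R : Finset K} (hP : c.H ⊆ P) (hR : c.H ⊆ R) : ∃ n0, ∀ n,
    c.II (fun _ => P) * (n + d).choose d ≤
      finrank c.k0 (c.cs0 (P ^ (n + n0)) (R ^ (n + n0))) +
        (n + n0) * c.II (update (fun _ => P) a R) * (n + n0 + (d - 1)).choose (d - 1) := by
  obtain ⟨n0, h0⟩ := c.lb (J := ∅) (U := fun _ => P) (P := P) (fun _ => hP) hP (fun _ _ => rfl)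
  refine ⟨n0, fun n => ?_⟩
  have h1 := h0 n
  rw [Finset.compl_empty, Finset.card_univ, Fintype.card_fin] at h1
  have hu0 := c.ub0 hP (n + n0)
  have h2 : finrank (c.kst ∅ fun _ => P) (sp (c.kst ∅ fun _ => P) (P ^ (n + n0))) ≤
      finrank c.k0 (c.cs0 (P ^ (n + n0)) 1) := by
    have := (c.ub (J := ∅) (U := fun _ => P) (P := P) (fun _ => hP) (fun _ _ => rfl) (n + n0)).1
    exact (Submodule.finrank_mono (sp_le_cs (c.kst_le ∅ fun _ => P) (c.alg_mem _) _)).trans
      (finrank_cs_congr _ _ (c.deg_k0 _) rfl _ _).le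
  have hu := c.ub (J := {a}) (U := update (fun _ => P) a R) (P := P)
    (c.deg_upd (fun _ => hP) a hR)
    (fun b hb => update_of_ne (by simpa using hb) _ _) (n + n0)
  rw [Finset.card_compl, Finset.card_singleton, Fintype.card_fin] at hu
  have h3 : ∀ j, finrank c.k0 (c.cs0 (P ^ (n + n0)) 1) ≤
      finrank c.k0 (c.cs0 (P ^ (n + n0)) (R ^ j)) +
        j * (c.II (update (fun _ => P) a R) * (n + n0 + (d - 1)).choose (d - 1)) := by
    intro j
    induction j with
    | zero => rw [pow_zero, zero_mul, add_zero]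
    | succ j ih =>
      have hj := deg_cs_le (c.kst_le {a} (update (fun _ => P) a R)) (P ^ (n + n0))
        (one_mem_pow (hR c.one_mem) j)
      have := c.deg_up (J := ∅) (J' := {a}) (Finset.notMem_empty a) rfl (U := fun _ => ∅)
        (U' := update (fun _ => P) a R) (fun b hb => absurd hb (Finset.notMem_empty b))
        (update_self a R (fun _ : Fin d => P)) hR (P ^ (n + n0)) (R ^ j)
        (deg_finite_le (deg_cs_le _ _ (by
          rw [← pow_succ]; exact one_mem_pow (hR c.one_mem) _)) hu0.1)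
        (deg_finite_le hj hu.1)
      have h5 := this.2
      have hf := hu.1
      have h4 := Submodule.finrank_mono hj
      have h6 := hu.2
      rw [← pow_succ] at h5
      rw [add_mul, one_mul]
      exact ih.trans (by
        have h7 : finrank c.k0 (c.cs0 (P ^ (n + n0)) (R ^ j)) ≤
          finrank c.k0 (c.cs0 (P ^ (n + n0)) (R ^ (j + 1))) +
            c.II (update (fun _ => P) a R) * (n + n0 + (d - 1)).choose (d - 1) :=
          h5.trans (Nat.add_le_add_left (h4.trans h6) _)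
        omega)
  rw [mul_assoc]
  exact h1.trans (h2.trans (h3 _))

end Ctx
end C03
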