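import Pool.Agent.Lib.MP_1c03d5_ag.H97Deg
import Pool.Agent.Lib.MP_1c03d5_ag.H97Ana

/-! TASK MUL: multilinear expansions of intersection numbers. -/

namespace C03

universe u
namespace Ctx

open scoped Pointwise
open Module Function

variable {k K Ω : Type u} [Field k] [Field K] [Field Ω] [Algebra k K] [Algebra K Ω] {d : ℕ}
  [DecidableEq K] (c : Ctx k K Ω d)

omit [DecidableEq K] in
theorem mul_ne_bot_of_subset {P Q : Finset K} (h : P ⊆ Q) : c.cs0 Q P ≠ ⊥ := by
  refine (Submodule.ne_bot_iff _).2 ⟨1, ⟨Subfield.one_mem _, fun O _ => ?_⟩, one_ne_zero⟩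
  rw [map_one, one_mul]
  exact nrm_mono h

omit [DecidableEq K] in
theorem mul_ite_insert {T : Finset (Fin d)} (a : Fin d) (U V : Fin d → Finset K) :
    (fun b => if b ∈ insert a T then V b else U b) =
      update (fun b => if b ∈ T then V b else U b) a (V a) := by
  funext b
  by_cases hb : b = a
  · subst hb
    simp
  · simp [hb]

omit [DecidableEq K] in
theorem mul_ite_self {T : Finset (Fin d)} {a : Fin d} (ha : a ∉ T) (U V : Fin d → Finset K) :
    update (fun b => if b ∈ T then V b else U b) a (U a) =
      fun b => if b ∈ T then V b else U b := by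
  funext b
  by_cases hb : b = a
  · subst hb
    simp [ha]
  · simp [hb]

omit [DecidableEq K] in
theorem mul_ite_sub {T : Finset (Fin d)} {U V : Fin d → Finset K} (hU : ∀ a, c.H ⊆ U a)
    (hV : ∀ a, c.H ⊆ V a) (b : Fin d) : c.H ⊆ if b ∈ T then V b else U b := by
  split_ifs
  · exact hV b
  · exact hU b

omit [DecidableEq K] in
theorem mul_update_sub {U : Fin d → Finset K} (hU : ∀ a, c.H ⊆ U a) (a : Fin d) {R : Finset K}
    (hR : c.H ⊆ R) (b : Fin d) : c.H ⊆ update U a R b := by
  by_cases hb : b = a
  · subst hb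
    simpa using hR
  · simpa [hb] using hU b

/-- Monotonicity in all slots. -/
theorem mul_mono {U V : Fin d → Finset K} (hU : ∀ a, c.H ⊆ U a) (hV : ∀ a, c.H ⊆ V a)
    (h : ∀ a, c.cs0 (V a) (U a) ≠ ⊥) : c.II U ≤ c.II V := by
  have key : ∀ T : Finset (Fin d), c.II U ≤ c.II fun b => if b ∈ T then V b else U b := by
    intro T
    induction T using Finset.induction_on with
    | empty => simp
    | insert a T ha ih =>
      rw [mul_ite_insert]
      refine ih.trans ?_
      have := c.II_mono (c.mul_ite_sub (T := T) hU hV) a (hU a) (hV a) (h a)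
      rwa [mul_ite_self ha] at this
  simpa using key Finset.univ

/-- Homogeneity in several slots. -/
theorem mul_scale {U : Fin d → Finset K} (hU : ∀ a, c.H ⊆ U a) {M : ℕ} (hM : 0 < M)
    (T : Finset (Fin d)) :
    (c.II fun b => if b ∈ T then U b ^ M else U b) = M ^ T.card * c.II U := by
  induction T using Finset.induction_on with
  | empty => simp
  | insert a T ha ih =>
    rw [mul_ite_insert a U fun b => U b ^ M,
      c.II_pow (c.mul_ite_sub (T := T) hU fun b => sub_pow c.one_mem (hU b) hM) a (hU a) hM,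
      mul_ite_self ha U fun b => U b ^ M, ih, Finset.card_insert_of_notMem ha]
    ring

theorem II_lower {A : Finset K} (hA : c.H ⊆ A) {N : ℕ} (hN : 0 < N) :
    c.II (fun _ => A) + N * ∑ a, c.II (update (fun _ => A) a c.H) ≤
      c.II fun _ => A * c.H ^ N := by
  have h1 : (1 : K) ∈ c.H ^ N := one_mem_pow c.one_mem N
  have hP : c.H ⊆ A * c.H ^ N := sub_mul hA h1
  have hHN : c.H ⊆ c.H ^ N := sub_pow c.one_mem subset_rfl hN
  have key : ∀ T : Finset (Fin d), c.II (fun _ => A) +
      N * ∑ a ∈ T, c.II (update (fun _ => A) a c.H) ≤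
        c.II fun b => if b ∈ T then A * c.H ^ N else A := by
    intro T
    induction T using Finset.induction_on with
    | empty => simp
    | insert a T ha ih =>
      have hT := c.mul_ite_sub (T := T) (U := fun _ => A) (V := fun _ => A * c.H ^ N)
        (fun _ => hA) fun _ => hP
      have e1 := c.II_mul hT a hA hHN
      rw [c.II_pow hT a subset_rfl hN, mul_ite_self ha (fun _ => A) fun _ => A * c.H ^ N] at e1
      have e2 : c.II (update (fun _ => A) a c.H) ≤
          c.II (update (fun b => if b ∈ T then A * c.H ^ N else A) a c.H) := by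
        refine c.mul_mono (c.mul_update_sub (fun _ => hA) a subset_rfl)
          (c.mul_update_sub hT a subset_rfl) fun b => c.mul_ne_bot_of_subset ?_
        by_cases hb : b = a
        · subst hb
          simp
        · simp only [update_of_ne hb]
          split_ifs
          · exact Finset.subset_mul_left A h1
          · exact subset_rfl
      rw [mul_ite_insert a (fun _ => A) fun _ => A * c.H ^ N, e1, Finset.sum_insert ha, mul_add]
      have := Nat.mul_le_mul_left N e2
      omega
  simpa using key Finset.univ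

theorem II_upper {A R : Finset K} (hA : c.H ⊆ A) (hR : c.H ⊆ R) {N M : ℕ} (hN : 0 < N)
    (hM : 0 < M) (h : c.cs0 (c.H ^ M) (A * c.H ^ N) ≠ ⊥) (a : Fin d) :
    M * c.II (update (fun _ => A * c.H ^ N) a R) ≤
      M * c.II (update (fun _ => A) a R) +
        d * N * M ^ (d - 1) * c.II (update (fun _ => c.H) a R) := by
  have h1 : (1 : K) ∈ c.H ^ N := one_mem_pow c.one_mem N
  have hP : c.H ⊆ A * c.H ^ N := sub_mul hA h1
  have hHN : c.H ⊆ c.H ^ N := sub_pow c.one_mem subset_rfl hN
  have h' : c.cs0 (c.H ^ M) A ≠ ⊥ := fun e =>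
    h (le_bot_iff.1 ((cs_anti _ _ _ h1).trans e.le))
  have hU := c.mul_update_sub (U := fun _ => A) (fun _ => hA) a hR
  have hV := c.mul_update_sub (U := fun _ => A * c.H ^ N) (fun _ => hP) a hR
  have hW := c.mul_update_sub (U := fun _ => c.H) (fun _ => subset_rfl) a hR
  set U := update (fun _ : Fin d => A) a R with hUdef
  set V := update (fun _ : Fin d => A * c.H ^ N) a R with hVdef
  set W := update (fun _ : Fin d => c.H) a R with hWdef
  have key : ∀ T : Finset (Fin d), M * c.II (fun b => if b ∈ T then V b else U b) ≤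
      M * c.II U + T.card * N * M ^ (d - 1) * c.II W := by
    intro T
    induction T using Finset.induction_on with
    | empty => simp
    | insert b T hb ih =>
      have hT := c.mul_ite_sub (T := T) hU hV
      rw [mul_ite_insert, Finset.card_insert_of_notMem hb, add_mul, add_mul, add_mul, one_mul]
      by_cases hba : b = a
      · have e : V b = U b := by simp [hUdef, hVdef, hba]
        rw [e, mul_ite_self hb]
        omega
      have eV : V b = A * c.H ^ N := by simp [hVdef, hba]
      have eU : U b = A := by simp [hUdef, hba]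
      have e1 := c.II_mul hT b hA hHN
      rw [c.II_pow hT b subset_rfl hN] at e1
      have e0 := mul_ite_self hb U V
      rw [eU] at e0
      rw [e0] at e1
      have e2 : c.II (update (fun e => if e ∈ T then V e else U e) b c.H) ≤
          c.II fun e => if e ∈ ({a, b} : Finset (Fin d))ᶜ then W e ^ M else W e := by
        refine c.mul_mono (c.mul_update_sub hT b subset_rfl)
          (c.mul_ite_sub hW fun e => sub_pow c.one_mem (hW e) hM) fun e => ?_
        by_cases heb : e = b
        · subst heb
          refine c.mul_ne_bot_of_subset ?_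
          simp [hWdef, hba]
        by_cases hea : e = a
        · subst hea
          refine c.mul_ne_bot_of_subset ?_
          simp [hUdef, hVdef, hWdef, heb]
        have eW : W e = c.H := by simp [hWdef, hea]
        have eV' : V e = A * c.H ^ N := by simp [hVdef, hea]
        have eU' : U e = A := by simp [hUdef, hea]
        have hmem : e ∈ ({a, b} : Finset (Fin d))ᶜ := by simp [hea, heb]
        simp only [update_of_ne heb, if_pos hmem, eW, eV', eU']
        split_ifs
        · exact h
        · exact h'
      rw [c.mul_scale hW hM] at e2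
      have hc : ({a, b} : Finset (Fin d))ᶜ.card + 1 = d - 1 := by
        have h2 : ({a, b} : Finset (Fin d)).card = 2 := Finset.card_pair (Ne.symm hba)
        have h3 := Finset.card_le_univ ({a, b} : Finset (Fin d))
        rw [Finset.card_compl, h2]
        rw [h2] at h3
        simp only [Fintype.card_fin] at h3 ⊢
        omega
      have e3 : M * (N * c.II (update (fun e => if e ∈ T then V e else U e) b c.H)) ≤
          N * M ^ (d - 1) * c.II W := by
        rw [← hc, pow_succ]
        calc M * (N * c.II (update (fun e => if e ∈ T then V e else U e) b c.H))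
            ≤ M * (N * (M ^ ({a, b} : Finset (Fin d))ᶜ.card * c.II W)) :=
              Nat.mul_le_mul_left _ (Nat.mul_le_mul_left _ e2)
          _ = _ := by ring
      rw [eV, e1, mul_add]
      omega
  simpa using key Finset.univ

omit [DecidableEq K] in
theorem mul_bound {y : K} (hy : y ∈ Algebra.adjoin k (c.H : Set K)) :
    ∃ n, ∀ O : ValuationSubring Ω, (∀ a ∈ c.k0, a ∈ O) →
      O.valuation (algebraMap K Ω y) ≤ nrm O c.H ^ n := by
  induction hy using Algebra.adjoin_induction with
  | mem x hx => exact ⟨1, fun O _ => by rw [pow_one]; exact le_nrm hx⟩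
  | algebraMap r =>
    exact ⟨0, fun O hO => by
      rw [pow_zero]
      exact (O.valuation_le_one_iff _).2 (hO _ (c.const_mem _ _ r))⟩
  | add x y _ _ hx hy =>
    obtain ⟨n, hn⟩ := hx
    obtain ⟨m, hm⟩ := hy
    refine ⟨n + m, fun O hO => ?_⟩
    have h1 : 1 ≤ nrm O c.H := one_le_nrm c.one_mem
    rw [map_add]
    exact (O.valuation.map_add _ _).trans (max_le
      ((hn O hO).trans (pow_le_pow_right₀ h1 (Nat.le_add_right _ _)))
      ((hm O hO).trans (pow_le_pow_right₀ h1 (Nat.le_add_left _ _))))
  | mul x y _ _ hx hy =>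
    obtain ⟨n, hn⟩ := hx
    obtain ⟨m, hm⟩ := hy
    refine ⟨n + m, fun O hO => ?_⟩
    rw [map_mul, map_mul, pow_add]
    exact mul_le_mul' (hn O hO) (hm O hO)

theorem mul_denom (R : Finset K) : ∃ t : K, t ≠ 0 ∧ t ∈ Algebra.adjoin k (c.H : Set K) ∧
    ∀ r ∈ R, t * r ∈ Algebra.adjoin k (c.H : Set K) := by
  induction R using Finset.induction_on with
  | empty => exact ⟨1, one_ne_zero, Subalgebra.one_mem _, by simp⟩
  | insert x R _ ih =>
    obtain ⟨t, ht0, ht, hR⟩ := ih
    have hx : x ∈ IntermediateField.adjoin k (c.H : Set K) := by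
      rw [c.gen]
      trivial
    obtain ⟨p, hp, q, hq, e⟩ := IntermediateField.mem_adjoin_iff_div.1 hx
    by_cases hq0 : q = 0
    · refine ⟨t, ht0, ht, fun r hr => ?_⟩
      rcases Finset.mem_insert.1 hr with rfl | hr
      · rw [e, hq0, div_zero, mul_zero]
        exact zero_mem _
      · exact hR r hr
    refine ⟨t * q, mul_ne_zero ht0 hq0, mul_mem ht hq, fun r hr => ?_⟩
    rcases Finset.mem_insert.1 hr with rfl | hr
    · rw [e, mul_assoc, mul_div_cancel₀ _ hq0]
      exact mul_mem ht hp
    · rw [mul_right_comm]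
      exact mul_mem (hR r hr) hq

/-- Any finite system is bounded by a power of `H`. -/
theorem exists_le_pow (R : Finset K) : ∃ ρ, c.cs0 (c.H ^ ρ) R ≠ ⊥ := by
  obtain ⟨t, ht0, -, hR⟩ := c.mul_denom R
  choose! n hn using fun r hr => c.mul_bound (hR r hr)
  refine ⟨R.sup n, (Submodule.ne_bot_iff _).2 ⟨algebraMap K Ω t, ⟨c.alg_mem _ t, fun O hO => ?_⟩,
    (map_ne_zero _).2 ht0⟩⟩
  rcases R.eq_empty_or_nonempty with rfl | hne
  · simp [nrm, bot_eq_zero]
  obtain ⟨r, hr, e⟩ := exists_nrm (O := O) hne
  rw [e, ← map_mul, ← map_mul, nrm_pow]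
  exact (hn r hr O hO).trans (pow_le_pow_right₀ (one_le_nrm c.one_mem) (Finset.le_sup hr))

theorem mul_prod_mem {A : Finset K} (g : ℕ → K) (hg : ∀ i, g i ∈ A) (n : ℕ) :
    ∏ i ∈ Finset.range n, g i ∈ A ^ n := by
  induction n with
  | zero => simp
  | succ n ih =>
    rw [Finset.prod_range_succ, pow_succ]
    exact Finset.mul_mem_mul ih (hg n)

omit [DecidableEq K] in
theorem mul_prod_eq (x : K) (y : Fin d → K) {q : ℕ} (α : Fin d → Fin q) :
    x ^ q * ∏ a, y a ^ (α a : ℕ) =
      ∏ i ∈ Finset.range q, (x * ∏ a ∈ Finset.univ.filter fun a => i < (α a : ℕ), y a) := by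
  rw [Finset.prod_mul_distrib, Finset.prod_const, Finset.card_range]
  congr 1
  simp only [Finset.prod_filter]
  rw [Finset.prod_comm]
  refine Finset.prod_congr rfl fun a _ => ?_
  rw [← Finset.prod_filter, Finset.prod_const]
  congr 1
  have : (Finset.range q).filter (fun i => i < (α a : ℕ)) = Finset.range (α a) := by
    ext i
    have := (α a).2
    simp only [Finset.mem_filter, Finset.mem_range]
    omega
  rw [this, Finset.card_range]

/-- Fujita approximation: `A` contains the products of a basis `b` with products of the `hh a`. -/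
theorem fujita_le [PerfectField k] (p : ℕ) [Fact p.Prime] [CharP k p] (hd : 0 < d) {β : Type}
    [Fintype β] {b : β → K} (hb : LinearIndependent k b) {A : Finset K} (hA : c.H ⊆ A)
    (h : ∀ j, ∀ T : Finset (Fin d), b j * ∏ a ∈ T, c.hh a ∈ A) :
    d.factorial * Fintype.card β ≤ c.II fun _ => A := by
  refine lead_le' (Fact.out : p.Prime).one_lt fun e => ?_
  have h1 := (c.li_iff _).1 (fujita p c.ind c.sep e hb)
  obtain ⟨hfin, hle⟩ := c.ub0 hA (p ^ e)
  have hmem : ∀ x : β × (Fin d → Fin (p ^ e)),
      algebraMap K Ω (b x.1 ^ p ^ e * ∏ a, c.hh a ^ (x.2 a : ℕ)) ∈ c.cs0 (A ^ p ^ e) 1 := by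
    intro x
    refine sp_le_cs _ (c.alg_mem _) _ (mem_sp ?_)
    rw [mul_prod_eq]
    exact mul_prod_mem _ (fun i => h _ _) _
  have h2 : LinearIndependent c.k0 fun x : β × (Fin d → Fin (p ^ e)) =>
      (⟨_, hmem x⟩ : c.cs0 (A ^ p ^ e) 1) :=
    LinearIndependent.of_comp (c.cs0 (A ^ p ^ e) 1).subtype h1
  have h3 := h2.fintype_card_le_finrank
  simp only [Fintype.card_prod, Fintype.card_pi, Fintype.card_fin, Finset.prod_const,
    Finset.card_univ] at h3
  rw [mul_comm]
  exact h3.trans hle

end Ctx
end C03
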