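import Pool.Agent.Lib.MP_1c03d5_ag.H97Defs

/-! Basic facts on `nrm`, `sp`, `cs`. -/

namespace C03

universe u

open scoped Pointwise

variable {K Ω : Type u} [Field K] [Field Ω] [Algebra K Ω] {O : ValuationSubring Ω}
  {κ E : Subfield Ω}

theorem le_nrm {U : Finset K} {x : K} (hx : x ∈ U) : O.valuation (algebraMap K Ω x) ≤ nrm O U :=
  Finset.le_sup (f := fun x => O.valuation (algebraMap K Ω x)) hx

theorem nrm_le {U : Finset K} {γ : O.ValueGroup} :
    nrm O U ≤ γ ↔ ∀ x ∈ U, O.valuation (algebraMap K Ω x) ≤ γ := Finset.sup_le_iff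

theorem exists_nrm {U : Finset K} (hU : U.Nonempty) :
    ∃ x ∈ U, nrm O U = O.valuation (algebraMap K Ω x) := Finset.exists_mem_eq_sup U hU _

theorem nrm_mono {U V : Finset K} (h : U ⊆ V) : nrm O U ≤ nrm O V := Finset.sup_mono h

theorem one_le_nrm {U : Finset K} (h : (1 : K) ∈ U) : 1 ≤ nrm O U := by simpa using le_nrm (O := O) h

theorem nrm_pos {U : Finset K} (h : (1 : K) ∈ U) : 0 < nrm O U := zero_lt_one.trans_le (one_le_nrm h)

theorem le_nrm_of_mem_sp (hO : ∀ a ∈ κ, a ∈ O) {U : Finset K} {x : Ω} (hx : x ∈ sp κ U) :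
    O.valuation x ≤ nrm O U := by
  induction hx using Submodule.span_induction with
  | mem x hx => obtain ⟨y, hy, rfl⟩ := hx; exact le_nrm hy
  | zero => simp
  | add x y _ _ a b => exact (O.valuation.map_add x y).trans (max_le a b)
  | smul a x _ b =>
    rw [Subfield.smul_def, smul_eq_mul, map_mul]
    exact (mul_le_of_le_one_left' ((O.valuation_le_one_iff _).2 (hO _ a.2))).trans b

theorem mem_sp {U : Finset K} {x : K} (hx : x ∈ U) : algebraMap K Ω x ∈ sp κ U :=
  Submodule.subset_span ⟨x, hx, rfl⟩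

theorem sp_mono {U V : Finset K} (h : U ⊆ V) : sp κ U ≤ sp κ V :=
  Submodule.span_mono (Set.image_mono h)

instance sp_finite (U : Finset K) : Module.Finite κ (sp κ U) :=
  Module.Finite.span_of_finite _ (U.finite_toSet.image _)

theorem sp_le_fsub (h : κ ≤ E) (hK : ∀ x : K, algebraMap K Ω x ∈ E) (U : Finset K) :
    sp κ U ≤ fsub h := Submodule.span_le.2 (by rintro _ ⟨x, -, rfl⟩; exact hK x)

theorem cs_le_fsub (h : κ ≤ E) (P R : Finset K) : cs h P R ≤ fsub h := fun _ hx => hx.1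

theorem finrank_cs_congr {κ' E' : Subfield Ω} (h : κ ≤ E) (h' : κ' ≤ E') (e : κ = κ') (e' : E = E')
    (P R : Finset K) : Module.finrank κ (cs h P R) = Module.finrank κ' (cs h' P R) := by
  subst e e'; rfl

theorem cs_congr (h : κ ≤ E) {P R P' R' : Finset K}
    (e : ∀ O : ValuationSubring Ω, (∀ a ∈ κ, a ∈ O) → ∀ γ : O.ValueGroup,
      γ * nrm O R ≤ nrm O P → γ * nrm O R' ≤ nrm O P') : cs h P R ≤ cs h P' R' :=
  fun _ hx => ⟨hx.1, fun O hO => e O hO _ (hx.2 O hO)⟩

variable [DecidableEq K]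

omit [DecidableEq K] in
theorem nrm_one : nrm O (1 : Finset K) = 1 := by
  rw [nrm, ← Finset.singleton_one, Finset.sup_singleton, map_one, map_one]

theorem nrm_mul (U V : Finset K) : nrm O (U * V) = nrm O U * nrm O V := by
  apply le_antisymm
  · refine nrm_le.2 fun x hx => ?_
    obtain ⟨a, ha, b, hb, rfl⟩ := Finset.mem_mul.1 hx
    rw [map_mul, map_mul]
    exact mul_le_mul' (le_nrm ha) (le_nrm hb)
  · rcases U.eq_empty_or_nonempty with rfl | hU
    · simp [nrm, bot_eq_zero]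
    rcases V.eq_empty_or_nonempty with rfl | hV
    · simp [nrm, bot_eq_zero]
    obtain ⟨a, ha, e1⟩ := exists_nrm (O := O) hU
    obtain ⟨b, hb, e2⟩ := exists_nrm (O := O) hV
    rw [e1, e2, ← map_mul, ← map_mul]
    exact le_nrm (Finset.mul_mem_mul ha hb)

theorem nrm_pow (U : Finset K) (n : ℕ) : nrm O (U ^ n) = nrm O U ^ n := by
  induction n with
  | zero => rw [pow_zero, pow_zero, nrm_one]
  | succ n ih => rw [pow_succ, pow_succ, nrm_mul, ih]

theorem sp_mul (U V : Finset K) : sp κ (U * V) = sp κ U * sp κ V := by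
  rw [sp, sp, sp, Submodule.span_mul_span, Finset.coe_mul, Set.image_mul]

omit [DecidableEq K] in
theorem sp_one : sp κ (1 : Finset K) = 1 := by
  rw [sp, Finset.coe_one, Set.image_one, map_one, Submodule.one_eq_span]

theorem sp_pow (U : Finset K) (n : ℕ) : sp κ (U ^ n) = sp κ U ^ n := by
  induction n with
  | zero => rw [pow_zero, pow_zero, sp_one]
  | succ n ih => rw [pow_succ, pow_succ, sp_mul, ih]

omit [DecidableEq K] in
theorem sp_le_cs (h : κ ≤ E) (hK : ∀ x : K, algebraMap K Ω x ∈ E) (U : Finset K) :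
    sp κ U ≤ cs h U 1 := fun _ hx =>
  ⟨sp_le_fsub h hK U hx, fun O hO => by rw [nrm_one, mul_one]; exact le_nrm_of_mem_sp hO hx⟩

theorem cs_mul_le (h : κ ≤ E) (P R P' R' : Finset K) :
    cs h P R * cs h P' R' ≤ cs h (P * P') (R * R') := by
  refine Submodule.mul_le.2 fun x hx y hy => ⟨E.mul_mem hx.1 hy.1, fun O hO => ?_⟩
  rw [map_mul, nrm_mul, nrm_mul, mul_mul_mul_comm]
  exact mul_le_mul' (hx.2 O hO) (hy.2 O hO)

theorem cs_cancel (h : κ ≤ E) (P R : Finset K) {U : Finset K} (hU : (1 : K) ∈ U) :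
    cs h (P * U) (R * U) = cs h P R := by
  apply le_antisymm <;> refine cs_congr h fun O _ γ e => ?_
  · rw [nrm_mul, nrm_mul, ← mul_assoc] at e
    exact le_of_mul_le_mul_right e (nrm_pos hU)
  · rw [nrm_mul, nrm_mul, ← mul_assoc]
    exact mul_le_mul_left e _

theorem cs_anti (h : κ ≤ E) (P R : Finset K) {U : Finset K} (hU : (1 : K) ∈ U) :
    cs h P (R * U) ≤ cs h P R := cs_congr h fun O _ γ e => by
  rw [nrm_mul, ← mul_assoc] at e
  exact (le_mul_of_one_le_right' (one_le_nrm hU)).trans e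

theorem cs_mul_sp_le (h : κ ≤ E) (hK : ∀ x : K, algebraMap K Ω x ∈ E) (P R U : Finset K) :
    cs h P (R * U) * sp κ U ≤ cs h P R := by
  refine Submodule.mul_le.2 fun x hx y hy =>
    ⟨E.mul_mem hx.1 (sp_le_fsub h hK U hy), fun O hO => ?_⟩
  refine le_trans ?_ (hx.2 O hO)
  rw [map_mul, nrm_mul, mul_assoc, mul_comm (O.valuation y)]
  exact mul_le_mul_right (mul_le_mul_right (le_nrm_of_mem_sp hO hy) _) _

theorem one_mem_pow {U : Finset K} (h : (1 : K) ∈ U) (n : ℕ) : (1 : K) ∈ U ^ n :=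
  Finset.one_mem_pow h

theorem sub_mul {H U V : Finset K} (hU : H ⊆ U) (hV : (1 : K) ∈ V) : H ⊆ U * V :=
  hU.trans (Finset.subset_mul_left U hV)

theorem sub_pow {H U : Finset K} (h1 : (1 : K) ∈ H) (hU : H ⊆ U) {n : ℕ} (hn : 0 < n) :
    H ⊆ U ^ n := hU.trans (Finset.subset_pow (hU h1) hn.ne')

end C03
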