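import Pool.Agent.Lib.MP_1c03d5_ag.H97Bend
import Pool.Agent.Lib.MP_1c03d5_ag.H97Bdpp

/-! No rational curve on the model implies that `M + (2d/B) H` has a section,
`M = c e H - (L + n H)`. -/

namespace C03

universe u

open MvPolynomial
open scoped Pointwise

variable {k K : Type u} [Field k] [Field K] [Algebra k K] {ι τ : Type}

theorem eff_of_noRat [IsAlgClosed k] (p : ℕ) [Fact p.Prime] [CharP k p] [Fintype ι] [Fintype τ]
    (z : ι → K) (i0 : ι) (hz0 : z i0 = 1)
    (hgen : IntermediateField.adjoin k (Set.range z) = ⊤)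
    {d : ℕ} (h : Fin d → ι) (hind : AlgebraicIndependent k fun a => z (h a))
    (hsep : Algebra.IsSeparable (IntermediateField.adjoin k (Set.range fun a => z (h a))) K)
    (F : τ → MvPolynomial ι k) {e : ℕ} (hF : ∀ j, (F j).IsHomogeneous e)
    (hFz : ∀ j, aeval z (F j) = 0) {c : ℕ} (S : Fin c → ι) (T0 : Fin c → τ)
    (hT0 : jacMinor z F S T0 ≠ 0) (g : MvPolynomial ι k) {n : ℕ} (hg : g.IsHomogeneous n)
    (hgz : aeval z g ≠ 0) (hrel : ∀ j, g * F j ∈ Ideal.span (Set.range fun a => F (T0 a)))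
    (hno : NoRat F g) (B : ℕ) :
    ∃ m : ℕ, 0 < m ∧ ∃ e0 : K, e0 ≠ 0 ∧ ∀ O : ValuationSubring K, (∀ a : k, algebraMap k K a ∈ O) →
      ∀ i, (∀ j, O.valuation (z j) ≤ O.valuation (z i)) → ∀ T : Fin c → τ,
        O.valuation e0 * (O.valuation (jacMinor z F S T) * O.valuation (z i) ^ Fintype.card ι) ^
          (m * B) ≤ O.valuation (z i) ^ (m * (c * e * B + 2 * d)) := by
  classical
  rcases Nat.eq_zero_or_pos d with rfl | hd
  · refine ⟨1, one_pos, 1, one_ne_zero, fun O hO i hi T => ?_⟩
    have hal : ∀ x : K, x ∈ O := fun x => by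
      have e1 : IntermediateField.adjoin k (Set.range fun a => z (h a)) = ⊥ := by
        rw [Set.range_eq_empty, IntermediateField.adjoin_empty]
      have a1 := (Algebra.IsSeparable.isAlgebraic
        (IntermediateField.adjoin k (Set.range fun a => z (h a))) K).isAlgebraic x
      refine mem_val_of_alg (fun a => ?_) a1
      obtain ⟨a, ha⟩ := a
      rw [e1] at ha
      obtain ⟨b, rfl⟩ := IntermediateField.mem_bot.1 ha
      exact hO b
    have e2 : O.valuation (z i) = 1 := le_antisymm ((O.valuation_le_one_iff _).2 (hal _))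
      (by simpa [hz0] using hi i0)
    rw [e2, map_one, one_pow, one_pow, one_mul, mul_one]
    exact pow_le_one' ((O.valuation_le_one_iff _).2 (hal _)) _
  let Ω := FractionRing (MvPolynomial (Fin d × K) K)
  let cx : Ctx k K Ω d :=
    { H := Finset.univ.image z
      hh := fun a => z (h a)
      s := fun a x => algebraMap (MvPolynomial (Fin d × K) K) Ω (X (a, x))
      one_mem := Finset.mem_image.2 ⟨i0, Finset.mem_univ _, hz0⟩
      hh_mem := fun a => Finset.mem_image_of_mem _ (Finset.mem_univ _)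
      gen := by rw [Finset.coe_image, Finset.coe_univ, Set.image_univ, hgen]
      ind := hind
      sep := hsep
      hs := (algebraicIndependent_X (Fin d × K) K).map'
        (f := IsScalarTower.toAlgHom K (MvPolynomial (Fin d × K) K) Ω)
        (IsFractionRing.injective _ _) }
  let S' : ℕ → ι := fun b => if hb : b < c then S ⟨b, hb⟩ else i0
  have eS : ∀ T, minor (fun j b => aeval z (pderiv (S' b) (F j))) c T = jacMinor z F S T :=
    fun T => by simp only [minor, jacMinor, S', Fin.is_lt, dif_pos, Fin.eta]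
  choose a ha using fun j => Ideal.mem_span_range_iff_exists_fun.1 (hrel j)
  let L : Finset K := Finset.univ.image fun T => jacMinor z F S T / jacMinor z F S T0
  have hL : (1 : K) ∈ L := Finset.mem_image.2 ⟨T0, Finset.mem_univ _, div_self hT0⟩
  have hι : 0 < Fintype.card ι := Fintype.card_pos_iff.2 ⟨i0⟩
  obtain ⟨m, hm, H⟩ := cx.bdpp p hd (R := cx.H ^ Fintype.card ι * L)
    (sub_mul (sub_pow cx.one_mem subset_rfl hι) hL) (lam := c * e) (fun A hA b => by
      have := cx.bend p i0 hz0 rfl hF hFz S' (T0 := T0) (by rwa [eS]) hg hgz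
        (fun j => (ha j).symm) hno.univ (U := fun _ => A) (fun _ => hA) b
      simpa only [eS] using this) B
  obtain ⟨x, hx, hx0⟩ := (Submodule.ne_bot_iff _).1 H
  obtain ⟨y, rfl⟩ := cx.mem_Kst_empty.1 hx.1
  have hy : y ≠ 0 := fun e => hx0 (by rw [e, map_zero])
  refine ⟨m, hm, y / jacMinor z F S T0 ^ (m * B), div_ne_zero hy (pow_ne_zero _ hT0),
    fun O hO i hi T => ?_⟩
  obtain ⟨O', hO'⟩ := exists_val_ext (Ω := Ω) O
  have e1 : nrm O' cx.H = O'.valuation (algebraMap K Ω (z i)) :=
    le_antisymm (nrm_le.2 fun x hx => by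
      obtain ⟨j, -, rfl⟩ := Finset.mem_image.1 hx
      exact (hO' _ _).2 (hi j)) (le_nrm (Finset.mem_image_of_mem _ (Finset.mem_univ _)))
  have e2 := hx.2 O' fun a ha => by
    obtain ⟨b, rfl⟩ := cx.mem_k0.1 ha
    rw [← O'.valuation_le_one_iff, ← map_one O'.valuation, ← map_one (algebraMap K Ω), hO', map_one,
      O.valuation_le_one_iff]
    exact hO b
  rw [nrm_pow, nrm_pow, nrm_mul, nrm_pow, e1] at e2
  have e3 := (mul_le_mul_right (pow_le_pow_left' (mul_le_mul_right (le_nrm (O := O') (U := L)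
    (Finset.mem_image_of_mem _ (Finset.mem_univ T))) _) (m * B)) _).trans e2
  simp only [← map_pow, ← map_mul] at e3 ⊢
  rw [hO'] at e3
  convert e3 using 2
  rw [mul_pow, mul_pow, div_pow]
  ring

end C03
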