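import Pool.Agent.Lib.MP_1c03d5_ag.Van
import Pool.Agent.Lib.MP_1c03d5_ag.Lift

/-!
# TASK KEEL: lifting Frobenius powers of generating sections
-/

universe u

namespace Pool.Agent.Lib.MP_1c03d5_ag

noncomputable section

section

variable {k K : Type u} [Field k] [IsAlgClosed k] (p : ℕ) [Fact p.Prime] [CharP k p] [Field K]
  [Algebra k K] [Algebra.EssFiniteType k K] {α : Type} [Finite α] {τ : α → K} (h0 : ∀ a, τ a ≠ 0)
  (halg : ∀ a, Algebra.IsAlgebraic (Algebra.adjoin k (Set.range fun b => τ b / τ a)) K)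
  {ε : α → K} (hε : ∀ a, ε a ≠ 0) (hεε : ∀ a b, LeOn k τ {a, b} (ε a) (ε b)) {s : K}
  (hs : ∀ a, LeOn k τ {a} s (ε a)) {μ : ℕ} (hμ : 0 < μ) {β : Type} [Finite β] {ξ : β → α → K}
  (h1 : ∀ b a, LeOn k τ {a} (ξ b a) (ε a ^ μ))
  (h2 : ∀ b a a', LeOn k τ {a, a'} ((ξ b a - ξ b a') * ε a) (s * ε a ^ μ))
  (h3 : ∀ a (w : Val k K), InU τ a w → w.v s < w.v (ε a) → ∃ b, w.v (ξ b a) = w.v (ε a ^ μ))

include p h0 halg hε hεε hs hμ h1 h2 h3

/-- Vanishing on the model, uniformly in the power of the bundle. -/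
theorem van (hs0 : s ≠ 0) : ∃ n₀, ∀ n, n₀ ≤ n → ∀ (i : ℕ) (c : α → α → K),
    (∀ a b, LeOn k τ {a, b} (c a b) (τ a ^ n * ε a ^ i)) → (∀ a b d, c a b + c b d = c a d) →
    ∃ y : α → K, (∀ a, LeOn k τ {a} (y a) (τ a ^ n * ε a ^ i)) ∧ ∀ a b, c a b = y a - y b := by
  obtain ⟨n₁, H₁⟩ := van_mod p h0 halg hε hεε hs hμ h1 h2 h3
  obtain ⟨n₂, H₂⟩ := van_mod p h0 halg (ε := fun _ => 1) (fun _ => one_ne_zero)
    (fun _ _ _ _ => le_rfl) (s := 0) (fun _ _ _ => by simp) one_pos (β := Unit)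
    (ξ := fun _ _ => 1) (fun _ _ _ _ => by simp) (fun _ _ _ _ _ => by simp)
    (fun _ _ _ _ => ⟨(), by simp⟩)
  refine ⟨max n₁ n₂, fun n hn i => ?_⟩
  induction i with
  | zero =>
    intro c hc hcc
    obtain ⟨y, hy, hy'⟩ := H₂ n (le_of_max_le_right hn) 0 c (by simpa using hc)
      fun a b d w _ => by simp [hcc]
    refine ⟨y, by simpa using hy, fun a b => ?_⟩
    obtain ⟨w, hw⟩ := Val.exists_trivial (k := k) (K := K)
    have h := hy' a b w fun a' _ b' => by rw [hw _ (h0 _), hw _ (h0 _)]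
    simpa [sub_eq_zero] using h
  | succ i ih =>
    intro c hc hcc
    obtain ⟨y, hy, hy'⟩ := H₁ n (le_of_max_le_left hn) (i + 1) c hc
      fun a b d w _ => by simp [hcc]
    obtain ⟨y', hz, hz'⟩ := ih (fun a b => (c a b - (y a - y b)) / s) (fun a b w hw => by
      have h := hy' a b w hw
      have p1 : 0 < w.v s := (Valuation.pos_iff _).2 hs0
      have p2 : 0 < w.v (ε a) := (Valuation.pos_iff _).2 (hε a)
      rw [show s * (τ a ^ n * ε a ^ (i + 1)) = τ a ^ n * ε a ^ i * s * ε a by ring, map_mul,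
        map_mul, map_mul] at h
      rw [map_div₀, div_le_iff₀ p1]
      exact le_of_mul_le_mul_right h p2) fun a b d => by
        rw [← add_div, ← hcc a b d]
        congr 1
        ring
    refine ⟨fun a => y a + s * y' a, fun a w hw => ?_, fun a b => ?_⟩
    · refine Valuation.map_add_le _ (hy a w hw) ?_
      rw [show τ a ^ n * ε a ^ (i + 1) = ε a * (τ a ^ n * ε a ^ i) by ring, map_mul, map_mul]
      exact mul_le_mul' (hs a w hw) (hz a w hw)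
    · have h := hz' a b
      rw [div_eq_iff hs0] at h
      linear_combination h

end

section

variable {k : Type u} [Field k] {P : EqRel k} {Γ : Gen P} (M : Γ.Mod)

theorem keel_cen {a : M.α} {w : Val k Γ.K'} (h : InU M.τ a w) : (M.pt a).Cen w :=
  let ⟨a', h'⟩ := M.cover w
  M.cen fun x hx => (h' x hx).trans (h a')

theorem keel_cover (w : Val k Γ.K') : ∃ a, InU M.τ a w :=
  let ⟨a, h⟩ := M.cover w
  ⟨a, fun b => h _ (M.τ_mem b)⟩

theorem keel_one {a : M.α} {w : Val k Γ.K'} (h : InU M.τ a w) : 1 ≤ w.v (M.τ a) := by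
  obtain ⟨a', h'⟩ := M.cover w
  simpa using (h' 1 M.one).trans (h a')

theorem keel_alg (a : M.α) :
    Algebra.IsAlgebraic (Algebra.adjoin k (Set.range fun b => M.τ b / M.τ a)) Γ.K' := by
  set R := Algebra.adjoin k (Set.range fun b => M.τ b / M.τ a) with hR
  have h1 : (M.pt a).2.range ≤ (integralClosure R Γ.K').restrictScalars k := by
    rintro _ ⟨x, rfl⟩
    refine (isIntegral_iff_val R _).2 fun w hw => keel_cen M (fun b => ?_) x
    have h := Val.v_le_one.2 (hw _ (Algebra.subset_adjoin ⟨b, rfl⟩))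
    rwa [map_div₀, div_le_one₀ ((Valuation.pos_iff _).2 (M.τ_ne a))] at h
  refine ⟨fun x => ?_⟩
  have h2 : IsAlgebraic (integralClosure R Γ.K') x :=
    ((Γ.isAlgebraic (M.pt_mem a)).1 x).tower_top_of_subalgebra_le h1
  exact h2.restrictScalars_of_isIntegral R

end

theorem keel_prod {K Γ₀ ι : Type*} [Field K] [LinearOrderedCommGroupWithZero Γ₀]
    (v : Valuation K Γ₀) {f : ι → K} {T c : K} (hT : v T ≤ 1) (hc : v c ≤ 1)
    (h : ∀ i, v (f i - T) ≤ v c) (s : Finset ι) : v (∏ i ∈ s, f i - T ^ s.card) ≤ v c := by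
  classical
  induction s using Finset.induction_on with
  | empty => simp
  | insert i s hi ih =>
    rw [Finset.prod_insert hi, Finset.card_insert_of_notMem hi,
      show f i * ∏ j ∈ s, f j - T ^ (s.card + 1) =
        f i * (∏ j ∈ s, f j - T ^ s.card) + (f i - T) * T ^ s.card by ring]
    have h1 : v (f i) ≤ 1 := by
      rw [show f i = f i - T + T by ring]
      exact v.map_add_le ((h i).trans hc) hT
    refine v.map_add_le ?_ ?_
    · rw [map_mul, ← one_mul (v c)]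
      exact mul_le_mul' h1 ih
    · rw [map_mul, map_pow, ← mul_one (v c)]
      exact mul_le_mul' (h i) (pow_le_one' hT _)

theorem keel_unit {k K : Type u} [Field k] [Field K] [Algebra k K] {F : Fam k} {σ : F.Pt K}
    {w : Val k K} (hw : σ.Cen w) {I J : F.Idl} {s : F.El} (hI : σ.In I)
    (hJ : ∀ i, J i ≤ (Ideal.span {s i} ⊔ I i).radical) {β : Type} {t : β → F.El}
    (hg : ∀ i, Ideal.span (Set.range fun b => t b i) ⊔ J i = ⊤) (hs : w.v (σ.val s) < 1) :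
    ∃ b, w.v (σ.val (t b)) = 1 := by
  by_contra hc
  let 𝔭 : Ideal (F.A σ.1) :=
    { carrier := {x | w.v (σ.2 x) < 1}
      add_mem' := fun ha hb => by
        rw [Set.mem_ofPred_eq, map_add]
        exact Valuation.map_add_lt _ ha hb
      zero_mem' := by simp
      smul_mem' := fun c x hx => by
        rw [Set.mem_ofPred_eq, smul_eq_mul, map_mul, map_mul]
        exact (mul_le_of_le_one_left' (Val.v_le_one.2 (hw c))).trans_lt hx }
  have h1 : Ideal.span {s σ.1} ⊔ I σ.1 ≤ 𝔭 := sup_le (Ideal.span_singleton_le_iff_mem _ |>.2 hs)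
    fun x hx => by
      show w.v (σ.2 x) < 1
      rw [show σ.2 x = 0 from hI hx]
      simp
  have h2 : J σ.1 ≤ 𝔭 := fun x hx => by
    obtain ⟨n, hn⟩ := hJ _ hx
    have h3 : w.v (σ.2 (x ^ n)) < 1 := h1 hn
    rw [map_pow, map_pow] at h3
    exact lt_of_not_ge fun h => h3.not_ge (one_le_pow_of_one_le' h n)
  have h3 : Ideal.span (Set.range fun b => t b σ.1) ≤ 𝔭 := Ideal.span_le.2 (by
    rintro _ ⟨b, rfl⟩
    exact lt_of_le_of_ne (Val.v_le_one.2 (hw _)) fun h => hc ⟨b, h⟩)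
  have h4 : w.v (σ.2 1) < 1 := (sup_le h3 h2) (hg σ.1 ▸ Submodule.mem_top)
  simp at h4

theorem keel_sec {k : Type u} [Field k] (p : ℕ) [Fact p.Prime] [CharP k p] {P : EqRel k}
    {L : P.LB} {m₂ : ℕ} (m₁ : ℕ) {s : P.El} {I J : P.Idl}
    (hJ : ∀ i, J i ≤ (Ideal.span {s i} ⊔ I i).radical) {β : Type} {t : β → P.El}
    (ht : ∀ b, P.IsSec (L ^ m₂) J (t b)) (r : ℕ) : ∃ q, r < q ∧ ∀ b,
      P.IsSec (L ^ (m₁ * (m₂ * q))) (fun i => Ideal.span {(s ^ r) i} ⊔ I i) (t b ^ (q * m₁)) := by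
  have h1 : ∀ i, J i ≤ (Ideal.span {(s ^ r) i} ⊔ I i).radical := fun i =>
    (hJ i).trans (Ideal.radical_le_radical_iff.2 (sup_le ((Ideal.span_singleton_le_iff_mem _).2
      ⟨r, Ideal.mem_sup_left (Ideal.mem_span_singleton_self _)⟩)
      (le_sup_right.trans Ideal.le_radical)))
  choose e he using fun i => exists_fp_le (p := p) (h1 i)
  obtain ⟨e₀, he₀⟩ := (Set.finite_range e).bddAbove
  refine ⟨p ^ max e₀ r, (le_max_right _ _).trans_lt
    (Nat.lt_pow_self (Fact.out : p.Prime).one_lt), fun b => ?_⟩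
  have h2 := (EqRel.isSec_fp (ht b) fun i =>
    he i (max e₀ r) ((he₀ ⟨i, rfl⟩).trans (le_max_left _ _))).pow m₁
  rwa [← pow_mul, ← pow_mul, ← pow_mul, ← mul_assoc, mul_comm _ m₁] at h2

theorem keel {k : Type u} [Field k] [IsAlgClosed k] (p : ℕ) [Fact p.Prime] [CharP k p]
    {P : EqRel k} {Γ : Gen P} (M : Γ.Mod) (L : P.LB) {m₁ m₂ : ℕ} (hm₁ : 0 < m₁) (hm₂ : 0 < m₂)
    {s : P.El} (hs0 : ∀ σ ∈ Γ.S, σ.val s ≠ 0) (hs : Γ.RS (L ^ m₁) fun σ => σ.val s)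
    (hτ : ∀ a, Γ.Reg fun σ => M.τ a * σ.val s) {J : P.Idl}
    (hJ : ∀ i, J i ≤ (Ideal.span {s i} ⊔ Γ.I i).radical) {β : Type} [Finite β] {t : β → P.El}
    (ht : ∀ b, P.IsSec (L ^ m₂) J (t b))
    (hg : ∀ i, Ideal.span (Set.range fun b => t b i) ⊔ J i = ⊤) :
    ∃ N, 0 < N ∧ ∀ b, ∃ ρ, Γ.Invt ρ ∧ Γ.Reg ρ ∧
      Γ.RS (L ^ (m₂ * N)) fun σ => σ.val (t b) ^ N + σ.val s ^ 2 * ρ σ := by
  obtain ⟨σ₀, h₀⟩ := Γ.ne
  have r0 : ∀ a, P.Rel σ₀ (M.pt a) := fun a => Γ.rel _ h₀ _ (M.pt_mem a)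
  have r1 : ∀ a b, P.Rel (M.pt a) (M.pt b) := fun a b => Γ.rel _ (M.pt_mem a) _ (M.pt_mem b)
  obtain ⟨e, he⟩ : ∃ e : M.α → Γ.K', ∀ a, (r0 a).tr L = e a := ⟨_, fun _ => rfl⟩
  have e0 : ∀ a, e a ≠ 0 := fun a => he a ▸ ((r0 a).isUnit_tr L).ne_zero
  have e1 : ∀ a b, e b = e a * (r1 a b).tr L := fun a b => by
    rw [← he, ← he]
    exact (L.2 Γ.K' _ _ _ (r0 a) (r1 a b) (r0 b)).symm
  have vp : ∀ (σ : P.Pt Γ.K') (u : P.El) (n : ℕ), σ.val (u ^ n) = σ.val u ^ n := fun σ u n =>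
    map_pow σ.2 _ _
  have v1 : ∀ {σ : P.Pt Γ.K'} {w : Val k Γ.K'}, σ.Cen w → ∀ u : P.El, w.v (σ.val u) ≤ 1 :=
    fun h u => Val.v_le_one.2 (h _)
  have s1 : ∀ a, σ₀.val s = e a ^ m₁ * (M.pt a).val s := fun a => by
    rw [← he, ← PreRel.Rel.tr_pow]
    exact hs _ h₀ _ (M.pt_mem a) (r0 a)
  have cmp : ∀ (m : ℕ) (c u : P.El), P.IsSec (L ^ m) (fun i => Ideal.span {c i} ⊔ Γ.I i) u →
      ∀ a b (w : Val k Γ.K'), InU M.τ a w → InU M.τ b w →
        w.v (e a ^ m * (M.pt a).val u - e b ^ m * (M.pt b).val u) ≤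
          w.v (e a ^ m * (M.pt a).val c) := fun m c u hu a b w ha hb => by
    have h := hu.v_le (r1 a b) (Γ.in_I (M.pt_mem a)) (keel_cen M ha) (keel_cen M hb)
    rw [PreRel.Rel.tr_pow] at h
    rw [e1 a b, mul_pow, mul_assoc, ← mul_sub, map_mul, map_mul]
    exact mul_le_mul_right h _
  obtain ⟨q, hq, hsec⟩ := keel_sec p m₁ hJ ht 1
  obtain ⟨n, hn⟩ := van p M.τ_ne (keel_alg M) (ε := fun a => e a ^ m₁)
    (fun a => pow_ne_zero _ (e0 a)) (fun a b w hw => by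
      rw [e1 a b, mul_pow, map_mul, map_pow _ ((r1 a b).tr L), (r1 a b).v_tr L
        (keel_cen M (hw a (by simp))) (keel_cen M (hw b (by simp))), one_pow, mul_one])
    (s := σ₀.val s) (fun a w hw => by
      rw [s1 a, map_mul]
      exact mul_le_of_le_one_right' (v1 (keel_cen M (hw a rfl)) s))
    (μ := m₂ * q) (Nat.mul_pos hm₂ (by omega))
    (ξ := fun b a => e a ^ (m₁ * (m₂ * q)) * (M.pt a).val (t b ^ (q * m₁)))
    (fun b a w hw => by
      rw [← pow_mul, map_mul]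
      exact mul_le_of_le_one_right' (v1 (keel_cen M (hw a rfl)) _))
    (fun b a a' w hw => by
      have h := cmp _ _ _ (hsec b) a a' w (hw a (by simp)) (hw a' (by simp))
      rw [vp _ s, pow_one] at h
      rw [s1 a, ← pow_mul, show e a ^ m₁ * (M.pt a).val s * e a ^ (m₁ * (m₂ * q)) =
        e a ^ (m₁ * (m₂ * q)) * (M.pt a).val s * e a ^ m₁ by ring, map_mul, map_mul _ _ (e a ^ m₁)]
      exact mul_le_mul_left h _)
    (fun a w hw h => by
      rw [s1 a, map_mul] at h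
      obtain ⟨b, hb⟩ := keel_unit (keel_cen M hw) (Γ.in_I (M.pt_mem a)) hJ hg
        (lt_of_not_ge fun h' => h.not_ge (le_mul_of_one_le_right' h'))
      exact ⟨b, by rw [← pow_mul, map_mul, vp, map_pow _ ((M.pt a).val (t b)), hb, one_pow,
        mul_one]⟩) (hs0 _ h₀)
  obtain ⟨q', hq', hsec'⟩ := keel_sec p m₁ hJ ht (n + 2)
  obtain ⟨i, hi⟩ : ∃ i, m₂ * q' = i + (n + 2) :=
    ⟨m₂ * q' - (n + 2), (Nat.sub_add_cancel (hq'.le.trans (Nat.le_mul_of_pos_left _ hm₂))).symm⟩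
  refine ⟨q' * m₁ * Fintype.card Γ.G, Nat.mul_pos (Nat.mul_pos (by omega) hm₁) Fintype.card_pos,
    fun b => ?_⟩
  obtain ⟨T, hT⟩ : ∃ T : M.α → Γ.K', ∀ a,
      e a ^ (m₁ * (m₂ * q')) * (M.pt a).val (t b ^ (q' * m₁)) = T a := ⟨_, fun _ => rfl⟩
  have p0 : σ₀.val s ^ (n + 2) ≠ 0 := pow_ne_zero _ (hs0 _ h₀)
  obtain ⟨y, hy, hy'⟩ := hn n le_rfl i (fun a a' => (T a - T a') / σ₀.val s ^ (n + 2))
    (fun a a' w hw => by
      have h := cmp _ _ _ (hsec' b) a a' w (hw a (by simp)) (hw a' (by simp))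
      rw [hT, hT, vp, show e a ^ (m₁ * (m₂ * q')) * (M.pt a).val s ^ (n + 2) =
        (e a ^ m₁) ^ i * σ₀.val s ^ (n + 2) by rw [s1 a, hi]; ring, map_mul] at h
      rw [map_div₀, div_le_iff₀ ((Valuation.pos_iff _).2 p0), map_mul, map_pow _ (M.τ a)]
      exact h.trans (mul_le_mul_left (le_mul_of_one_le_left'
        (one_le_pow_of_one_le' (keel_one M (hw a (by simp))) n)) _))
    fun a a' a'' => by
      rw [← add_div, sub_add_sub_cancel]
  obtain ⟨w₀, -⟩ := Val.exists_trivial (k := k) (K := Γ.K')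
  obtain ⟨a₀, -⟩ := keel_cover M w₀
  obtain ⟨E, hE, hE0⟩ := Gen.exists_rs (L ^ (m₁ * (m₂ * q'))) h₀
    (T a₀ - σ₀.val s ^ (n + 2) * y a₀)
  have E1 : ∀ a, e a ^ (m₁ * (m₂ * q')) * E (M.pt a) = T a - σ₀.val s ^ (n + 2) * y a := by
    intro a
    have h1 := hE _ h₀ _ (M.pt_mem a) (r0 a)
    have h2 := hy' a₀ a
    rw [div_eq_iff p0] at h2
    rw [PreRel.Rel.tr_pow, he, hE0] at h1
    linear_combination h2 - h1
  have E2 : ∀ a (w : Val k Γ.K'), InU M.τ a w →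
      w.v (E (M.pt a) - (M.pt a).val (t b ^ (q' * m₁))) ≤ w.v ((M.pt a).val s ^ 2) := by
    intro a w hw
    have p1 : 0 < w.v (e a ^ (m₁ * (m₂ * q'))) := (Valuation.pos_iff _).2 (pow_ne_zero _ (e0 a))
    refine le_of_mul_le_mul_left ?_ p1
    have h1 := Val.v_le_one.2 (Gen.reg_iff.1 (hτ a) _ (M.pt_mem a) w (keel_cen M hw))
    rw [← map_mul, mul_sub, E1, hT, sub_sub_cancel_left, Valuation.map_neg, map_mul, ← map_mul _ (_ ^ _)
      (_ ^ 2)]
    refine (mul_le_mul_right (hy a w fun _ h => h ▸ hw) _).trans ?_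
    rw [← map_mul, show σ₀.val s ^ (n + 2) * (M.τ a ^ n * (e a ^ m₁) ^ i) =
      e a ^ (m₁ * (m₂ * q')) * (M.pt a).val s ^ 2 * (M.τ a * (M.pt a).val s) ^ n by
        rw [s1 a, hi]; ring, map_mul _ _ (_ ^ n), map_pow _ _ n]
    exact mul_le_of_le_one_right' (pow_le_one' h1 n)
  have E3 : ∀ σ ∈ Γ.S, ∀ w : Val k Γ.K', σ.Cen w →
      w.v (E σ - σ.val (t b) ^ (q' * m₁)) ≤ w.v (σ.val s ^ 2) := by
    intro σ hσ w hw
    obtain ⟨a, ha⟩ := keel_cover M w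
    have r2 := Γ.rel _ hσ _ (M.pt_mem a)
    have h1 := (hsec' b).v_le r2 (Γ.in_I hσ) hw (keel_cen M ha)
    have h2 : w.v (σ.val s) = w.v ((M.pt a).val s) := by
      rw [show σ.val s = _ from hs _ hσ _ (M.pt_mem a) r2, map_mul, r2.v_tr _ hw (keel_cen M ha),
        one_mul]
    rw [hE _ hσ _ (M.pt_mem a) r2, ← vp, show ∀ g x y z : Γ.K', g * x - y = g * (x - z) - (y - g * z)
      from fun g x y z => by ring]
    refine Valuation.map_sub_le _ ?_ (h1.trans ?_)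
    · rw [map_mul, r2.v_tr _ hw (keel_cen M ha), one_mul, map_pow, h2, ← map_pow]
      exact E2 a w ha
    · rw [vp, pow_add, map_mul, map_pow]
      exact mul_le_of_le_one_left' (pow_le_one' (v1 hw s) n)
  have R1 : Γ.Reg fun σ => (E σ - σ.val (t b) ^ (q' * m₁)) / σ.val s ^ 2 :=
    Gen.reg_iff.2 fun σ hσ w hw => Val.v_le_one.1 (by
      rw [map_div₀, div_le_one₀ ((Valuation.pos_iff _).2 (pow_ne_zero _ (hs0 σ hσ)))]
      exact E3 σ hσ w hw)
  refine ⟨fun σ => (Gen.norm E σ - σ.val (t b) ^ (q' * m₁ * Fintype.card Γ.G)) / σ.val s ^ 2,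
    fun γ hγ σ hσ => ?_, Gen.reg_iff.2 fun σ hσ w hw => Val.v_le_one.1 ?_, ?_⟩
  · rw [map_div₀, map_sub, map_pow, map_pow, ← Gen.invt_norm E γ hγ σ hσ]
    rfl
  · have p2 : σ.val s ^ 2 ≠ 0 := pow_ne_zero _ (hs0 σ hσ)
    rw [map_div₀, div_le_one₀ ((Valuation.pos_iff _).2 p2), pow_mul _ _ (Fintype.card Γ.G)]
    refine keel_prod w.v (by rw [← vp]; exact v1 hw _) (by rw [← vp]; exact v1 hw _)
      (fun γ => ?_) Finset.univ
    have h1 := Val.v_le_one.2 (Gen.reg_iff.1 (R1.cj γ.2) σ hσ w hw)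
    have h2 : ∀ u : P.El, γ.1.symm ((Γ.act γ.1 σ).val u) = σ.val u := fun u =>
      γ.1.symm_apply_apply _
    simp only [Gen.cj, map_div₀ γ.1.symm, map_sub γ.1.symm, map_pow γ.1.symm, h2] at h1
    rwa [map_div₀, div_le_one₀ ((Valuation.pos_iff _).2 p2)] at h1
  · have h1 := hE.norm
    rw [← pow_mul, show m₁ * (m₂ * q') * Fintype.card Γ.G = m₂ * (q' * m₁ * Fintype.card Γ.G) by
      ring] at h1
    refine h1.congr fun σ hσ => ?_
    rw [mul_div_cancel₀ _ (pow_ne_zero _ (hs0 σ hσ)), add_sub_cancel]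

end

end Pool.Agent.Lib.MP_1c03d5_ag
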