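import Pool.Agent.Lib.MP_1c03d5_ag.Eqs

/-!
# The tangent space of a model at a local ring
-/

open MvPolynomial KaehlerDifferential

universe u

namespace Pool.Agent.Lib.MP_1c03d5_ag

noncomputable section

variable {k : Type u} [Field k] {ι : Type}

theorem lemj_homog (i0 : ι) (G : MvPolynomial ι k) :
    ∃ n, ∃ G' : MvPolynomial ι k, G'.IsHomogeneous n ∧ ∀ (S : Type u) [CommRing S]
      (φ : MvPolynomial ι k →+* S), φ (X i0) = 1 → φ G' = φ G := by
  refine ⟨G.totalDegree, ∑ m ∈ Finset.range (G.totalDegree + 1),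
    homogeneousComponent m G * X i0 ^ (G.totalDegree - m), IsHomogeneous.sum _ _ _ fun m hm => ?_,
    fun S _ φ h => ?_⟩
  · have e := (homogeneousComponent_isHomogeneous m G).mul
      ((isHomogeneous_X k i0).pow (G.totalDegree - m))
    rwa [one_mul, Nat.add_sub_cancel' (Nat.le_of_lt_succ (Finset.mem_range.1 hm))] at e
  · conv_rhs => rw [← sum_homogeneousComponent G]
    simp only [map_sum, map_mul, map_pow, h, one_pow, mul_one]

theorem lemj_scale [Fintype ι] {A : Type u} [CommRing A] [Algebra k A] {F : MvPolynomial ι k}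
    {e : ℕ} (hF : F.IsHomogeneous e) (c : A) (x : ι → A) :
    aeval (fun i => c * x i) F = c ^ e * aeval x F := by
  rw [aeval_def, aeval_def, eval₂_eq', eval₂_eq', Finset.mul_sum]
  refine Finset.sum_congr rfl fun d hd => ?_
  have e1 : ∑ i, d i = e := by
    rw [← Finsupp.degree_eq_sum]
    by_contra h
    exact mem_support_iff.1 hd (hF.coeff_eq_zero h)
  simp only [mul_pow, Finset.prod_mul_distrib, Finset.prod_pow_eq_pow_sum, e1]
  ring

theorem lemj_chain [Fintype ι] [DecidableEq ι] {R M : Type u} [CommRing R] [Algebra k R]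
    [AddCommGroup M] [Module R M] [Module k M] (δ : Derivation k R M) (x : ι → R)
    (G : MvPolynomial ι k) : δ (aeval x G) = ∑ i, aeval x (pderiv i G) • δ (x i) := by
  induction G using MvPolynomial.induction_on with
  | C a => simp
  | add p q hp hq => simp only [map_add, hp, hq, add_smul, Finset.sum_add_distrib]
  | mul_X p j hp =>
    simp only [map_mul, aeval_X, Derivation.leibniz, hp, pderiv_X, smul_eq_mul, map_add, add_smul,
      Finset.sum_add_distrib, Finset.smul_sum, mul_smul]
    congr 1
    rw [Finset.sum_eq_single j (fun b _ hb => by simp [Pi.single_apply, hb, hb.symm]) (by simp)]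
    simp

theorem lemj_lift {P R S : Type u} [CommRing P] [CommRing R] [CommRing S] (f : P →+* R)
    (φ : P →+* S) (hk : ∀ a, f a = 0 → φ a = 0)
    (hl : ∀ x, ∃ a b, IsUnit (φ b) ∧ x * f b = f a) : ∃ ψ : R →+* S, ∀ a, ψ (f a) = φ a := by
  choose a b hb hab using hl
  let ψ : R → S := fun x => φ (a x) * ↑(hb x).unit⁻¹
  have key : ∀ x a' b', x * f b' = f a' → ψ x * φ b' = φ a' := fun x a' b' h => by
    have e : φ (a x * b' - a' * b x) = 0 := hk _ (by
      rw [map_sub, map_mul, map_mul, ← hab, ← h]; ring)
    rw [map_sub, map_mul, map_mul, sub_eq_zero] at e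
    simp only [ψ]
    rw [mul_right_comm, e, mul_assoc, IsUnit.mul_val_inv, mul_one]
  have k1 : ∀ a', ψ (f a') = φ a' := fun a' => by
    simpa using key (f a') a' 1 (by simp)
  have k2 : ∀ x, ψ x * φ (b x) = φ (a x) := fun x => key x _ _ (hab x)
  refine ⟨⟨⟨⟨ψ, by simpa using k1 1⟩, fun x y => ?_⟩, by simpa using k1 0, fun x y => ?_⟩, k1⟩
  · refine ((hb x).mul (hb y)).mul_right_cancel ?_
    rw [← map_mul, key _ (a x * a y) _ (by rw [map_mul, map_mul, ← hab, ← hab]; ring), map_mul,
      map_mul, ← k2, ← k2]
    ring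
  · refine ((hb x).mul (hb y)).mul_right_cancel ?_
    rw [← map_mul, key _ (a x * b y + a y * b x) _ (by
      rw [map_add, map_mul, map_mul, map_mul, ← hab, ← hab]; ring), map_add, map_mul, map_mul,
      map_mul, ← k2, ← k2]
    ring

theorem lemj_rows {κ : Type u} [Field κ] [Fintype ι] {r c : ℕ} {β : Type} [Fintype β]
    (M : Matrix (Fin r) ι κ) (η : Matrix β ι κ) (hc : Fintype.card ι = Fintype.card β + c)
    (h : ∀ l : ι → κ, M.mulVec l = 0 → η.mulVec l = 0 → l = 0) :
    ∃ (T : Fin c → Fin r) (N : Matrix ι (Fin c) κ), M.submatrix T id * N = 1 := by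
  classical
  have h1 : Module.finrank κ (LinearMap.ker M.mulVecLin) ≤ Fintype.card β := by
    rw [← Module.finrank_fintype_fun_eq_card κ]
    refine LinearMap.finrank_le_finrank_of_injective
      (f := η.mulVecLin.domRestrict (LinearMap.ker M.mulVecLin)) ?_
    rw [injective_iff_map_eq_zero]
    exact fun l hl => Subtype.ext (h l l.2 hl)
  have h2 := M.mulVecLin.finrank_range_add_finrank_ker
  rw [Module.finrank_fintype_fun_eq_card κ] at h2
  have h3 : c ≤ M.rank := by unfold Matrix.rank; omega
  obtain ⟨α, a, ha, hs, hli⟩ := exists_linearIndependent' κ M.row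
  have := Finite.of_injective a ha
  have := Fintype.ofFinite α
  rw [M.rank_eq_finrank_span_row, ← hs, finrank_span_eq_card hli] at h3
  obtain ⟨j⟩ := Function.Embedding.nonempty_of_card_le (α := Fin c) (β := α) (by simpa using h3)
  refine ⟨a ∘ j, Matrix.mulVec_surjective_iff_exists_right_inverse.1 ?_⟩
  have h4 : (M.submatrix (a ∘ j) id).rank = Fintype.card (Fin c) :=
    LinearIndependent.rank_matrix (hli.comp j j.injective)
  exact LinearMap.range_eq_top.1 (Submodule.eq_top_of_finrank_eq
    (S := LinearMap.range (M.submatrix (a ∘ j) id).mulVecLin)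
    (h4.trans (Module.finrank_fintype_fun_eq_card κ).symm))

theorem lemj_dual [Fintype ι] [DecidableEq ι] {κ : Type u} [CommRing κ] [Algebra k κ] (x l : ι → κ)
    (G : MvPolynomial ι k) :
    aeval (fun i => (TrivSqZeroExt.inl (x i) + TrivSqZeroExt.inr (l i) : TrivSqZeroExt κ κ)) G =
      TrivSqZeroExt.inl (aeval x G) + TrivSqZeroExt.inr (∑ i, aeval x (pderiv i G) * l i) := by
  induction G using MvPolynomial.induction_on with
  | C a => ext <;> simp [TrivSqZeroExt.algebraMap_eq_inl']
  | add p q hp hq =>
    rw [map_add, hp, hq]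
    ext <;> simp [add_mul, Finset.sum_add_distrib]
  | mul_X p j hp =>
    rw [map_mul, hp]
    ext
    · simp
    · simp only [aeval_X, TrivSqZeroExt.snd_mul, TrivSqZeroExt.fst_add, TrivSqZeroExt.fst_inl,
        TrivSqZeroExt.fst_inr, add_zero, TrivSqZeroExt.snd_add, TrivSqZeroExt.snd_inl,
        TrivSqZeroExt.snd_inr, zero_add, Derivation.leibniz, pderiv_X, smul_eq_mul, map_add,
        map_mul, add_mul, Finset.sum_add_distrib, MulOpposite.smul_eq_mul_unop,
        MulOpposite.unop_op, Finset.sum_mul, zero_mul]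
      congr 1
      · rw [Finset.sum_eq_single j (fun b _ hb => by simp [Pi.single_apply, hb, hb.symm]) (by simp)]
        simp
      · exact Finset.sum_congr rfl fun i _ => by ring

/-- The Jacobian matrix has rank at least the codimension. -/
theorem lemj_rank [Fintype ι] {R : Type u} [CommRing R] [IsLocalRing R] [Algebra k R] {r d c : ℕ}
    (hc : Fintype.card ι = d + 1 + c) (x : ι → R) (i0 : ι) (hx : x i0 = 1)
    (F : Fin r → MvPolynomial ι k) (hF : ∀ j, aeval x (F j) = 0)
    (hker : ∀ G, aeval x G = 0 → ∀ (S : Type u) [CommRing S] (φ : MvPolynomial ι k →+* S),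
      φ (X i0) = 1 → (∀ j, φ (F j) = 0) → φ G = 0)
    (hloc : ∀ y : R, ∃ a b : MvPolynomial ι k, IsUnit (aeval x b) ∧ y * aeval x b = aeval x a)
    (y : Fin d → R) (hy : Submodule.span R (Set.range fun i => D k R (y i)) = ⊤) :
    ∃ (T : Fin c → Fin r) (N : Matrix ι (Fin c) R),
      IsUnit ((Matrix.of fun a i => aeval x (pderiv i (F (T a)))) * N).det := by
  classical
  let κ := IsLocalRing.ResidueField R
  let π : R →ₐ[k] κ := IsScalarTower.toAlgHom k R κ
  have eπ : ∀ G, aeval (fun i => π (x i)) G = π (aeval x G) := fun G =>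
    (comp_aeval_apply x π G).symm
  choose a b hb hab using hloc
  obtain ⟨T, N, hN⟩ := lemj_rows (c := c) (β := Option (Fin d))
    (Matrix.of fun j i => π (aeval x (pderiv i (F j))))
    (Matrix.of fun o i => o.elim (if i = i0 then (1 : κ) else 0) fun s =>
      π (aeval x (pderiv i (a (y s)))) - π (y s) * π (aeval x (pderiv i (b (y s)))))
    (by simpa using hc) fun l h1 h2 => by
      have l0 : l i0 = 0 := by simpa [Matrix.mulVec, dotProduct] using congrFun h2 none
      let φ : MvPolynomial ι k →ₐ[k] TrivSqZeroExt κ κ :=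
        aeval fun i => TrivSqZeroExt.inl (π (x i)) + TrivSqZeroExt.inr (l i)
      have eφ : ∀ G, φ G = TrivSqZeroExt.inl (π (aeval x G)) +
          TrivSqZeroExt.inr (∑ i, π (aeval x (pderiv i G)) * l i) := fun G => by
        simp only [φ, lemj_dual, eπ]
      obtain ⟨ψ, hψ⟩ := lemj_lift (aeval x).toRingHom φ.toRingHom (fun G hG =>
        hker G hG _ _ (by simp [φ, hx, l0]) fun j => by
          have e := congrFun h1 j
          simp only [Matrix.mulVec, dotProduct, Matrix.of_apply, Pi.zero_apply] at e
          change φ _ = 0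
          rw [eφ, hF, e]
          simp) fun s => ⟨a s, b s, by
            change IsUnit (φ _)
            rw [TrivSqZeroExt.isUnit_iff_isUnit_fst, eφ]
            simpa using (hb s).map π, hab s⟩
      replace hψ : ∀ G, ψ (aeval x G) = φ G := hψ
      have f1 : ∀ s, (ψ s).fst = π s := fun s => by
        have e := congrArg (fun t => (ψ t).fst) (hab s)
        simp only [map_mul, hψ, eφ, TrivSqZeroExt.fst_mul, TrivSqZeroExt.fst_add,
          TrivSqZeroExt.fst_inl, TrivSqZeroExt.fst_inr, add_zero] at e
        rw [← hab, map_mul] at e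
        exact ((hb s).map π).mul_right_cancel e
      have f2 : ∀ t : k, (ψ (algebraMap k R t)).snd = 0 := fun t => by
        simpa [eφ] using congrArg TrivSqZeroExt.snd (hψ (C t))
      let δ : Derivation k R κ := Derivation.mk'
        { toFun := fun s => (ψ s).snd
          map_add' := fun s t => by simp
          map_smul' := fun t s => by
            rw [Algebra.smul_def, map_mul, TrivSqZeroExt.snd_mul, f1, f2, smul_zero, add_zero,
              AlgHom.commutes, RingHom.id_apply, algebraMap_smul] }
        fun s t => by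
          simp only [LinearMap.coe_mk, AddHom.coe_mk, map_mul, TrivSqZeroExt.snd_mul, f1,
            MulOpposite.smul_eq_mul_unop, MulOpposite.unop_op, smul_eq_mul, Algebra.smul_def]
          rw [mul_comm (ψ s).snd]
          rfl
      have f3 : δ.liftKaehlerDifferential = 0 := LinearMap.ext_on_range hy fun s => by
        rw [Derivation.liftKaehlerDifferential_comp_D]
        have e := congrArg (fun t => (ψ t).snd) (hab (y s))
        have e2 := congrFun h2 (some s)
        simp only [Matrix.mulVec, dotProduct, Matrix.of_apply, Pi.zero_apply, Option.elim_some,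
          sub_mul, Finset.sum_sub_distrib, mul_assoc, ← Finset.mul_sum, sub_eq_zero] at e2
        simp only [map_mul, hψ, eφ, TrivSqZeroExt.snd_mul, TrivSqZeroExt.fst_add,
          TrivSqZeroExt.fst_inl, TrivSqZeroExt.fst_inr, add_zero, TrivSqZeroExt.snd_add,
          TrivSqZeroExt.snd_inl, TrivSqZeroExt.snd_inr, zero_add, f1, e2, smul_eq_mul,
          MulOpposite.smul_eq_mul_unop, MulOpposite.unop_op, add_eq_left] at e
        exact ((hb _).map π).mul_left_eq_zero.1 e
      funext i
      have e := LinearMap.congr_fun f3 (D k R (x i))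
      rw [Derivation.liftKaehlerDifferential_comp_D] at e
      have e2 := congrArg TrivSqZeroExt.snd (hψ (X i))
      simp only [aeval_X, φ, TrivSqZeroExt.snd_add, TrivSqZeroExt.snd_inl, TrivSqZeroExt.snd_inr,
        zero_add] at e2
      exact e2.symm.trans e
  choose N' hN' using fun i j => IsLocalRing.residue_surjective (N i j)
  refine ⟨T, Matrix.of N', ?_⟩
  rw [← IsLocalRing.residue_ne_zero_iff_isUnit, RingHom.map_det, RingHom.mapMatrix_apply,
    Matrix.map_mul]
  have e : (Matrix.of N').map (IsLocalRing.residue R) = N := Matrix.ext hN'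
  rw [e]
  exact Matrix.det_ne_zero_of_right_inverse (B := 1) ((mul_one _).trans hN)

end

end Pool.Agent.Lib.MP_1c03d5_ag
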