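import Pool.Agent.Lib.MP_1c03d5_ag.Proj

/-!
# TASK PROJ2: closed subschemes of projective space, the projective line
-/

open CategoryTheory Limits AlgebraicGeometry Opposite

open MvPolynomial

universe u

namespace Pool.Agent.Lib.MP_1c03d5_ag

noncomputable section

attribute [local instance] MvPolynomial.gradedAlgebra

variable {k : Type u} [Field k]

section general

variable {A B : Type u} [CommRing A] [CommRing B] [Algebra k A] [Algebra k B]
  {𝒜 : ℕ → Submodule k A} {ℬ : ℕ → Submodule k B} [GradedAlgebra 𝒜] [GradedAlgebra ℬ]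

lemma proj2_awayMap_surjective (f : 𝒜 →+*ᵍ ℬ) (hs : ∀ n, ∀ b ∈ ℬ n, ∃ a ∈ 𝒜 n, f a = b)
    {d : ℕ} {s : A} (hd : s ∈ 𝒜 d) :
    Function.Surjective (HomogeneousLocalization.Away.map f s) := by
  intro y
  obtain ⟨n, b, hb, rfl⟩ := HomogeneousLocalization.Away.mk_surjective ℬ (f.2 hd) y
  obtain ⟨a, ha, rfl⟩ := hs _ b hb
  exact ⟨HomogeneousLocalization.Away.mk 𝒜 hd n a ha,
    HomogeneousLocalization.Away.map_mk f s hd n a ha⟩

lemma proj2_isClosedImmersion_map (f : 𝒜 →+*ᵍ ℬ)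
    (hf : HomogeneousIdeal.irrelevant ℬ ≤ (HomogeneousIdeal.irrelevant 𝒜).map f)
    (hs : ∀ n, ∀ b ∈ ℬ n, ∃ a ∈ 𝒜 n, f a = b) : IsClosedImmersion (Proj.map f hf) := by
  refine IsZariskiLocalAtTarget.of_openCover (P := @IsClosedImmersion)
    (Proj.affineOpenCover 𝒜).openCover fun i => ?_
  obtain ⟨⟨d, hd⟩, s, hsd⟩ := i
  have H : IsPullback (Spec.map (CommRingCat.ofHom (HomogeneousLocalization.Away.map f s)))
      (Proj.awayι ℬ (f s) (f.2 hsd) hd) (Proj.awayι 𝒜 s hsd hd) (Proj.map f hf) :=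
    IsOpenImmersion.isPullback _ _ _ _ (Proj.awayι_comp_map f hf hd s hsd) (by
      rw [Proj.opensRange_awayι, Proj.opensRange_awayι, Proj.map_preimage_basicOpen])
  have h1 : IsClosedImmersion
      (Spec.map (CommRingCat.ofHom (HomogeneousLocalization.Away.map f s))) :=
    IsClosedImmersion.spec_of_surjective _ (proj2_awayMap_surjective f hs hsd)
  have h2 : Limits.pullback.snd (Proj.map f hf) (Proj.awayι 𝒜 s hsd hd) =
      H.flip.isoPullback.inv ≫
        Spec.map (CommRingCat.ofHom (HomogeneousLocalization.Away.map f s)) :=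
    (IsPullback.isoPullback_inv_snd H.flip).symm
  change IsClosedImmersion (Limits.pullback.snd (Proj.map f hf) (Proj.awayι 𝒜 s hsd hd))
  rw [h2]
  infer_instance

lemma proj2_map_toSpecZero (f : 𝒜 →+*ᵍ ℬ)
    (hf : HomogeneousIdeal.irrelevant ℬ ≤ (HomogeneousIdeal.irrelevant 𝒜).map f)
    (hc : ∀ c : k, f (algebraMap k A c) = algebraMap k B c) :
    Proj.map f hf ≫ Proj.toSpecZero 𝒜 ≫ Spec.map (CommRingCat.ofHom (algebraMap k (𝒜 0))) =
      Proj.toSpecZero ℬ ≫ Spec.map (CommRingCat.ofHom (algebraMap k (ℬ 0))) := by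
  suffices H : ∀ (d : ℕ) (hd : 0 < d) (s : A) (hsd : s ∈ 𝒜 d),
      Proj.awayι ℬ (f s) (f.2 hsd) hd ≫ Proj.map f hf ≫ Proj.toSpecZero 𝒜 ≫
        Spec.map (CommRingCat.ofHom (algebraMap k (𝒜 0))) =
      Proj.awayι ℬ (f s) (f.2 hsd) hd ≫ Proj.toSpecZero ℬ ≫
        Spec.map (CommRingCat.ofHom (algebraMap k (ℬ 0))) from
    (Proj.mapAffineOpenCover f hf).openCover.hom_ext _ _ fun i => H i.1.1 i.1.2 i.2.1 i.2.2
  intro d hd s hsd
  rw [Proj.awayι_comp_map_assoc f hf hd s hsd, Proj.awayι_toSpecZero_assoc,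
    Proj.awayι_toSpecZero_assoc, ← Spec.map_comp, ← Spec.map_comp, ← Spec.map_comp]
  congr 1
  ext c
  change (HomogeneousLocalization.Away.map f s
      (HomogeneousLocalization.fromZeroRingHom 𝒜 _ (algebraMap k (𝒜 0) c))).val =
    (HomogeneousLocalization.fromZeroRingHom ℬ _ (algebraMap k (ℬ 0) c)).val
  change Localization.mk (f (algebraMap k A c)) ⟨f 1, _⟩ =
    Localization.mk (algebraMap k B c) ⟨1, _⟩
  rw [hc]
  congr 2
  exact map_one f

end general

/-- The grading of a quotient by a homogeneous ideal. -/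
def proj2_gr {α : Type} (𝔞 : Ideal (MvPolynomial α k)) (n : ℕ) :
    Submodule k (MvPolynomial α k ⧸ 𝔞) :=
  (homogeneousSubmodule α k n).map (Ideal.Quotient.mkₐ k 𝔞).toLinearMap

lemma proj2_isInternal {α : Type} (𝔞 : Ideal (MvPolynomial α k))
    (h𝔞 : 𝔞.IsHomogeneous (homogeneousSubmodule α k)) : DirectSum.IsInternal (proj2_gr 𝔞) := by
  refine DirectSum.isInternal_submodule_of_iSupIndep_of_iSup_eq_top ?_ ?_
  · intro i
    rw [Submodule.disjoint_def]
    rintro _ ⟨p, hp, rfl⟩ hx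
    have h1 : (⨆ (j : ℕ) (_ : j ≠ i), proj2_gr 𝔞 j) ≤
        (LinearMap.ker (homogeneousComponent (σ := α) (R := k) i)).map
          (Ideal.Quotient.mkₐ k 𝔞).toLinearMap := by
      refine iSup₂_le fun j hj => Submodule.map_mono fun q hq => ?_
      rw [LinearMap.mem_ker, homogeneousComponent_of_mem hq, if_neg hj.symm]
    obtain ⟨q, hq, hpq⟩ := h1 hx
    have h2 : p - q ∈ 𝔞 := Ideal.Quotient.eq.1 hpq.symm
    have h3 : homogeneousComponent i (p - q) ∈ 𝔞 := by
      have h4 := h𝔞 i h2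
      rwa [← DirectSum.Decomposition.decompose'_eq, decomposition.decompose'_apply] at h4
    rw [map_sub, homogeneousComponent_eq_self hp, LinearMap.mem_ker.mp hq, sub_zero] at h3
    exact Ideal.Quotient.eq_zero_iff_mem.mpr h3
  · refine top_le_iff.mp fun x _ => ?_
    obtain ⟨p, rfl⟩ := Ideal.Quotient.mk_surjective x
    rw [← sum_homogeneousComponent p, map_sum]
    exact Submodule.sum_mem _ fun i _ => Submodule.mem_iSup_of_mem i
      ⟨_, homogeneousComponent_isHomogeneous i p, rfl⟩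

lemma proj2_gradedMonoid {α : Type} (𝔞 : Ideal (MvPolynomial α k)) :
    SetLike.GradedMonoid (proj2_gr 𝔞) where
  one_mem := ⟨1, isHomogeneous_one α k, rfl⟩
  mul_mem := by
    rintro i j _ _ ⟨p, hp, rfl⟩ ⟨q, hq, rfl⟩
    exact ⟨p * q, IsHomogeneous.mul hp hq, rfl⟩

theorem exists_proj {α : Type} [Finite α] (𝔞 : Ideal (MvPolynomial α k))
    (h𝔞 : 𝔞.IsHomogeneous (homogeneousSubmodule α k)) (𝔨 : α → Ideal (MvPolynomial α k))
    (h𝔨 : ∀ t, 𝔨 t = 𝔞 ⊔ Ideal.span {X t - 1}) :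
    ∃ (N : ℕ) (Y : Scheme.{u}) (i : Y ⟶ PP k (Fin (N + 1))), IsClosedImmersion i ∧
      ∃ c, StdCharts 𝔨 (i ≫ PP.str k _) c := by
  classical
  obtain ⟨N, ⟨e⟩⟩ := Finite.exists_equiv_fin α
  have hι : Function.Injective fun a => (e a).castSucc :=
    (Fin.castSucc_injective N).comp e.injective
  letI : GradedAlgebra (proj2_gr 𝔞) :=
    { proj2_gradedMonoid 𝔞, (proj2_isInternal 𝔞 h𝔞).chooseDecomposition with }
  have hk : ∀ n (p : MvPolynomial (Fin (N + 1)) k), p.IsHomogeneous n →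
      (killCompl hι p).IsHomogeneous n := by
    intro n p hp
    have h := hp.aeval (n := 1) (fun i => if h : i ∈ Set.range fun a => (e a).castSucc then
      (X ((Equiv.ofInjective _ hι).symm ⟨i, h⟩) : MvPolynomial α k) else 0) fun i => by
        split_ifs
        · exact isHomogeneous_X _ _
        · exact isHomogeneous_zero _ _ _
    rwa [one_mul] at h
  let g : homogeneousSubmodule (Fin (N + 1)) k →+*ᵍ proj2_gr 𝔞 :=
    { __ := ((Ideal.Quotient.mkₐ k 𝔞).comp (killCompl hι)).toRingHom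
      map_mem := fun hx => ⟨_, hk _ _ hx, rfl⟩ }
  have hs : ∀ n, ∀ b ∈ proj2_gr 𝔞 n, ∃ a ∈ homogeneousSubmodule (Fin (N + 1)) k n, g a = b := by
    rintro n _ ⟨p, hp, rfl⟩
    exact ⟨rename (fun a => (e a).castSucc) p, IsHomogeneous.rename_isHomogeneous hp,
      congrArg (Ideal.Quotient.mkₐ k 𝔞) (killCompl_rename_app hι p)⟩
  have hg : HomogeneousIdeal.irrelevant (proj2_gr 𝔞) ≤
      (HomogeneousIdeal.irrelevant (homogeneousSubmodule (Fin (N + 1)) k)).map g := by
    rw [HomogeneousIdeal.irrelevant_le]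
    intro i hi b hb
    obtain ⟨a, ha, rfl⟩ := hs i b hb
    exact Ideal.mem_map_of_mem g (HomogeneousIdeal.mem_irrelevant_of_mem _ hi ha)
  obtain ⟨c, hc⟩ := exists_stdCharts (proj2_gr 𝔞) (Ideal.Quotient.mkₐ k 𝔞)
    Ideal.Quotient.mk_surjective (fun n G hG => ⟨G, hG, rfl⟩) 𝔨 fun t => by
      rw [h𝔨 t]
      congr 1
      exact Ideal.mk_ker.symm
  refine ⟨N, Proj (proj2_gr 𝔞), Proj.map g hg, proj2_isClosedImmersion_map g hg hs, c, ?_⟩
  have h := proj2_map_toSpecZero g hg fun c =>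
    ((Ideal.Quotient.mkₐ k 𝔞).comp (killCompl hι)).commutes c
  exact h ▸ hc

/-- The coordinate ring of a standard chart of the line. -/
lemma proj2_line (t : Fin 2) (𝔨 : Ideal (MvPolynomial (Fin 2) k))
    (h : 𝔨 = RingHom.ker (AlgHom.id k (MvPolynomial (Fin 2) k)) ⊔ Ideal.span {X t - 1}) :
    ∃ ψ : (MvPolynomial (Fin 2) k ⧸ 𝔨) →ₐ[k] Polynomial k, Function.Bijective ψ ∧
      ∀ a, ψ (Ideal.Quotient.mk _ (X a)) = if a = t then 1 else Polynomial.X := by
  have h0 : ∀ p ∈ 𝔨, aeval (fun a => if a = t then (1 : Polynomial k) else Polynomial.X) p = 0 := by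
    intro p hp
    rw [h] at hp
    have h1 : RingHom.ker (AlgHom.id k (MvPolynomial (Fin 2) k)) ⊔ Ideal.span {X t - 1} ≤
        RingHom.ker (aeval (R := k) fun a => if a = t then (1 : Polynomial k) else Polynomial.X) := by
      refine sup_le (fun q hq => ?_) ?_
      · have h2 : q = 0 := hq
        rw [h2]
        exact zero_mem _
      · rw [Ideal.span_singleton_le_iff_mem, RingHom.mem_ker, map_sub, aeval_X, if_pos rfl, map_one,
          sub_self]
    exact h1 hp
  have h1 : Ideal.Quotient.mk 𝔨 (X t) = 1 := by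
    refine Ideal.Quotient.eq.2 ?_
    rw [h]
    exact Ideal.mem_sup_right (Ideal.subset_span rfl)
  have h2 : ∀ a, Ideal.Quotient.liftₐ 𝔨 _ h0 (Ideal.Quotient.mk _ (X a)) =
      if a = t then 1 else Polynomial.X := fun a => aeval_X _ a
  have h3 : t + 1 ≠ t := (by decide : ∀ t : Fin 2, t + 1 ≠ t) t
  have h4 : ∀ a, a ≠ t → a = t + 1 := (by decide : ∀ t a : Fin 2, a ≠ t → a = t + 1) t
  refine ⟨Ideal.Quotient.liftₐ 𝔨 _ h0, Function.bijective_iff_has_inverse.2
    ⟨Polynomial.aeval (Ideal.Quotient.mk 𝔨 (X (t + 1))), fun x => ?_, fun x => ?_⟩, h2⟩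
  · refine AlgHom.congr_fun (φ₁ := (Polynomial.aeval _).comp (Ideal.Quotient.liftₐ 𝔨 _ h0))
      (φ₂ := AlgHom.id k _) ?_ x
    refine Ideal.Quotient.algHom_ext k (MvPolynomial.algHom_ext fun a => ?_)
    change Polynomial.aeval _ (Ideal.Quotient.liftₐ 𝔨 _ h0 (Ideal.Quotient.mk _ (X a))) =
      Ideal.Quotient.mk _ (X a)
    rw [h2]
    split_ifs with ha
    · rw [map_one, ha, h1]
    · rw [Polynomial.aeval_X, h4 a ha]
  · refine AlgHom.congr_fun (φ₁ := (Ideal.Quotient.liftₐ 𝔨 _ h0).comp (Polynomial.aeval _))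
      (φ₂ := AlgHom.id k _) ?_ x
    refine Polynomial.algHom_ext ?_
    rw [AlgHom.comp_apply, Polynomial.aeval_X, h2, if_neg h3]
    rfl

theorem exists_line_charts : ∃ c : Bool → (Spec (.of (Polynomial k)) ⟶ PP k (Fin 2)),
    (∀ t, IsOpenImmersion (c t)) ∧ (∀ y, ∃ t, y ∈ Set.range (c t)) ∧
    (∀ t, c t ≫ PP.str k _ = Spec.map (CommRingCat.ofHom (algebraMap k _))) ∧
    ∀ (C : CommRingCat.{u}) (χ χ' : CommRingCat.of (Polynomial k) ⟶ C),
      Spec.map χ ≫ c true = Spec.map χ' ≫ c false → χ Polynomial.X * χ' Polynomial.X = 1 := by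
  obtain ⟨c, hc⟩ := exists_stdCharts (homogeneousSubmodule (Fin 2) k) (AlgHom.id k _)
    Function.surjective_id (fun n G hG => hG) _ fun _ => rfl
  choose ψ hψ hψ' using fun t : Fin 2 => proj2_line (k := k) t _ rfl
  have hi : ∀ t, IsIso (Spec.map (CommRingCat.ofHom (ψ t).toRingHom)) := fun t => by
    have : IsIso (CommRingCat.ofHom (ψ t).toRingHom) :=
      (RingEquiv.ofBijective (ψ t).toRingHom (hψ t)).toCommRingCatIso.isIso_hom
    infer_instance
  have hstr : ∀ t, (Spec.map (CommRingCat.ofHom (ψ t).toRingHom) ≫ c t) ≫ PP.str k _ =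
      Spec.map (CommRingCat.ofHom (algebraMap k _)) := fun t => by
    have h : c t ≫ PP.str k _ = _ := hc.str_eq t
    rw [Category.assoc, h, ← Spec.map_comp, ← CommRingCat.ofHom_comp]
    congr 2
    exact RingHom.ext (ψ t).commutes
  refine ⟨fun b => Spec.map (CommRingCat.ofHom (ψ (cond b 0 1)).toRingHom) ≫ c (cond b 0 1),
    fun b => ?_, fun y => ?_, fun b => hstr _, fun C χ χ' h => ?_⟩
  · have := hi (cond b 0 1)
    exact @IsOpenImmersion.comp _ _ _ _ _ inferInstance (hc.isOpen (cond b 0 1))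
  · obtain ⟨t, x, hx⟩ := hc.surj y
    obtain ⟨b, rfl⟩ := (by decide : ∀ t : Fin 2, ∃ b : Bool, t = cond b 0 1) t
    have := hi (cond b 0 1)
    obtain ⟨x', rfl⟩ := (Spec.map (CommRingCat.ofHom (ψ (cond b 0 1)).toRingHom)).surjective x
    exact ⟨b, x', by rw [← hx]; exact Scheme.Hom.comp_apply _ _ _⟩
  · have h1 : CommRingCat.ofHom (algebraMap k (Polynomial k)) ≫ χ =
        CommRingCat.ofHom (algebraMap k (Polynomial k)) ≫ χ' := by
      apply Spec.map_injective
      rw [Spec.map_comp, Spec.map_comp]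
      conv_lhs => rw [← hstr 0]
      conv_rhs => rw [← hstr 1]
      rw [← Category.assoc, ← Category.assoc (Spec.map χ')]
      exact congrArg (· ≫ PP.str k _) h
    letI : Algebra k C := (χ.hom.comp (algebraMap k (Polynomial k))).toAlgebra
    let φ : Polynomial k →ₐ[k] C := { χ.hom with commutes' := fun _ => rfl }
    let φ' : Polynomial k →ₐ[k] C :=
      { χ'.hom with commutes' := fun r => (congrArg (fun f => f.hom r) h1).symm }
    have h2 := (hc.eq_iff C 0 1 (φ.comp (ψ 0)) (φ'.comp (ψ 1))).1 (by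
      change Spec.map (CommRingCat.ofHom (ψ 0).toRingHom ≫ χ) ≫ c 0 =
        Spec.map (CommRingCat.ofHom (ψ 1).toRingHom ≫ χ') ≫ c 1
      rw [Spec.map_comp, Spec.map_comp, Category.assoc, Category.assoc]
      exact h) 0
    rw [AlgHom.comp_apply, AlgHom.comp_apply, AlgHom.comp_apply, hψ', hψ', hψ', if_pos rfl,
      if_neg (by decide), if_neg (by decide), map_one, mul_comm] at h2
    exact h2.symm

end

end Pool.Agent.Lib.MP_1c03d5_ag
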