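import Pool.Agent.Lib.MP_1c03d5_ag.Sh
import Pool.Agent.Lib.MP_1c03d5_ag.Proj2

/-!
# TASK SEMB: from the algebraic embedding data to projectivity
-/

open CategoryTheory Limits AlgebraicGeometry Opposite

open MvPolynomial

universe u

namespace Pool.Agent.Lib.MP_1c03d5_ag

noncomputable section

attribute [local instance] MvPolynomial.gradedAlgebra

variable {k : Type u} [Field k]

section algebra

variable {α : Type} {C : Type u} [CommRing C] [Algebra k C]

theorem semb_aeval_mul {G : MvPolynomial α k} {n : ℕ} (hG : G.IsHomogeneous n) (f : α → C)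
    (c : C) : aeval (fun a => f a * c) G = aeval f G * c ^ n := by
  conv_lhs => rw [G.as_sum]
  conv_rhs => rw [G.as_sum]
  rw [map_sum, map_sum, Finset.sum_mul]
  refine Finset.sum_congr rfl fun d hd => ?_
  rw [aeval_monomial, aeval_monomial, hG.degree_eq_sum_deg_support hd, mul_assoc,
    ← Finset.prod_pow_eq_pow_sum]
  simp only [Finsupp.prod, mul_pow, Finset.prod_mul_distrib]

theorem semb_homogenise (t : α) (G : MvPolynomial α k) : ∃ (n : ℕ) (H : MvPolynomial α k),
    H.IsHomogeneous n ∧ G - H ∈ Ideal.span {X t - (1 : MvPolynomial α k)} := by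
  have ht : Ideal.Quotient.mk (Ideal.span {X t - (1 : MvPolynomial α k)}) (X t) = 1 :=
    Ideal.Quotient.eq.2 (Ideal.subset_span rfl)
  simp only [← Ideal.Quotient.eq]
  induction G using MvPolynomial.induction_on with
  | C a => exact ⟨0, _, isHomogeneous_C _ a, rfl⟩
  | add p q hp hq =>
    obtain ⟨m, P, hP, e⟩ := hp
    obtain ⟨n, Q, hQ, e'⟩ := hq
    refine ⟨m + n, P * X t ^ n + X t ^ m * Q, (hP.mul (isHomogeneous_X_pow t n)).add
      ((isHomogeneous_X_pow t m).mul hQ), ?_⟩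
    simp [ht, e, e']
  | mul_X p a hp =>
    obtain ⟨m, P, hP, e⟩ := hp
    exact ⟨m + 1, P * X a, hP.mul (isHomogeneous_X _ a), by simp [e]⟩

theorem semb_chartMap_X {F : Fam k} (s : α → F.El) (t : α) (i : F.ι) (a : α) :
    chartMap s t i (X a) = algebraMap (F.A i) _ (s a i) * IsLocalization.Away.invSelf (s t i) :=
  aeval_X _ _

theorem semb_chartMap_sub {F : Fam k} (s : α → F.El) (t : α) (i : F.ι) :
    chartMap s t i (X t - 1) = 0 := by
  rw [map_sub, semb_chartMap_X, IsLocalization.Away.mul_invSelf, map_one, sub_self]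

theorem semb_chartMap_hom {F : Fam k} (s : α → F.El) (t : α) (i : F.ι) {G : MvPolynomial α k}
    {n : ℕ} (hG : G.IsHomogeneous n) : chartMap s t i G =
      algebraMap (F.A i) _ (aeval (fun a => s a i) G) * IsLocalization.Away.invSelf (s t i) ^ n := by
  rw [chartMap, semb_aeval_mul hG]
  congr 1
  exact (comp_aeval_apply _ (IsScalarTower.toAlgHom k (F.A i) (Localization.Away (s t i))) G).symm

end algebra

theorem exists_homogeneous_chartKer {F : Fam k} {α : Type} (s : α → F.El) :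
    ∃ 𝔞 : Ideal (MvPolynomial α k), 𝔞.IsHomogeneous (homogeneousSubmodule α k) ∧
      ∀ t, chartKer s t = 𝔞 ⊔ Ideal.span {X t - 1} := by
  refine ⟨Ideal.span {G | (∃ n, G.IsHomogeneous n) ∧ ∀ i, aeval (fun a => s a i) G = 0},
    Ideal.homogeneous_span _ _ fun G hG => hG.1, fun t => le_antisymm (fun G hG => ?_) ?_⟩
  · obtain ⟨n, H, hH, e⟩ := semb_homogenise t G
    have h1 : G = X t * H + ((G - H) - (X t - 1) * H) := by ring
    rw [h1]
    refine Submodule.add_mem_sup (Ideal.subset_span ⟨⟨1 + n, (isHomogeneous_X _ t).mul hH⟩,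
      fun i => ?_⟩) (sub_mem e (Ideal.mul_mem_right _ _ (Ideal.subset_span rfl)))
    rw [map_mul, aeval_X]
    by_cases h0 : s t i = 0
    · rw [h0, zero_mul]
    have h2 : chartMap s t i G = 0 := (Submodule.mem_iInf _).1 hG i
    have h3 : chartMap s t i (G - H) = 0 :=
      (Ideal.span_le (I := RingHom.ker (chartMap s t i))).2
        (Set.singleton_subset_iff.2 (semb_chartMap_sub s t i)) e
    rw [map_sub, h2, zero_sub, neg_eq_zero, semb_chartMap_hom s t i hH] at h3
    have h4 : IsUnit (IsLocalization.Away.invSelf (S := Localization.Away (s t i)) (s t i)) :=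
      .of_mul_eq_one_right _ (IsLocalization.Away.mul_invSelf _)
    rw [(h4.pow n).mul_left_eq_zero, IsLocalization.to_map_eq_zero_iff _
      (powers_le_nonZeroDivisors_of_noZeroDivisors h0)] at h3
    rw [h3, mul_zero]
  · refine le_iInf fun i => sup_le (Ideal.span_le.2 ?_) (Ideal.span_le.2 ?_)
    · rintro G ⟨⟨n, hn⟩, hG⟩
      exact (semb_chartMap_hom s t i hn).trans (by rw [hG, map_zero, zero_mul])
    · exact Set.singleton_subset_iff.2 (semb_chartMap_sub s t i)

section aux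

variable {α : Type} {C : Type u} [CommRing C] [Algebra k C]

/-- Change of the affine chart. -/
theorem semb_rescale {𝔞 : Ideal (MvPolynomial α k)}
    (h𝔞 : 𝔞.IsHomogeneous (homogeneousSubmodule α k)) {𝔨 𝔨' : Ideal (MvPolynomial α k)} {a : α}
    (h : 𝔞 ≤ 𝔨) (h' : 𝔨' = 𝔞 ⊔ Ideal.span {X a - 1}) (χ : (MvPolynomial α k ⧸ 𝔨) →ₐ[k] C) {c : C}
    (hc : χ (Ideal.Quotient.mk _ (X a)) * c = 1) : ∃ χ' : (MvPolynomial α k ⧸ 𝔨') →ₐ[k] C,
      ∀ b, χ' (Ideal.Quotient.mk _ (X b)) = χ (Ideal.Quotient.mk _ (X b)) * c := by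
  have h1 : 𝔨' ≤ RingHom.ker (aeval (fun b => χ (Ideal.Quotient.mk _ (X b)) * c) :
      MvPolynomial α k →ₐ[k] C) := by
    rw [h']
    refine sup_le (fun G hG => ?_) (Ideal.span_le.2 (Set.singleton_subset_iff.2 ?_))
    · rw [← sum_homogeneousComponent G]
      refine sum_mem fun n _ => ?_
      have h2 : (aeval (fun b => χ (Ideal.Quotient.mk _ (X b))) : MvPolynomial α k →ₐ[k] C) =
          χ.comp (Ideal.Quotient.mkₐ k 𝔨) := algHom_ext fun b => by simp
      rw [RingHom.mem_ker, semb_aeval_mul (homogeneousComponent_isHomogeneous n G), h2,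
        AlgHom.comp_apply, Ideal.Quotient.mkₐ_eq_mk, Ideal.Quotient.eq_zero_iff_mem.2
          (h (homogeneousComponent_mem_of_mem h𝔞 hG n)), map_zero, zero_mul]
    · exact RingHom.mem_ker.2 (by rw [map_sub, aeval_X, hc, map_one, sub_self])
  exact ⟨Ideal.Quotient.liftₐ _ _ h1, fun b => by simp⟩

theorem semb_etale_away {A : Type u} [CommRing A] (a : A) :
    (algebraMap A (Localization.Away a)).Etale :=
  RingHom.etale_algebraMap.2 (.of_isLocalizationAway a)

/-- The point of the spectrum under a field-valued point. -/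
theorem semb_imPt {A : Type u} [CommRing A] [Algebra k A] (p : PrimeSpectrum A) :
    imPt (Spec.map (CommRingCat.ofHom
      (IsScalarTower.toAlgHom k A p.asIdeal.ResidueField).toRingHom)) = p := by
  refine PrimeSpectrum.ext (Ideal.ext fun a => ?_)
  change algebraMap A p.asIdeal.ResidueField a ∈ IsLocalRing.maximalIdeal _ ↔ _
  rw [IsLocalRing.maximalIdeal_eq_bot, Ideal.mem_bot, Ideal.algebraMap_residueField_eq_zero]

theorem semb_imPt_comp {K : Type u} [Field K] {T T' : Scheme.{u}} (f : Spec (.of K) ⟶ T)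
    (g : T ⟶ T') : imPt (f ≫ g) = g (imPt f) := rfl

/-- The localised charts of a refinement cover the charts. -/
theorem semb_cover {F G : Fam k} (ρ : Refines F G) (s : α → F.El) {good : Set α}
    (hs : ∀ i, Ideal.span ((fun a => s a i) '' good) = ⊤) (i : G.ι) (p : PrimeSpectrum (G.A i)) :
    ∃ a ∈ good, ∃ (j : F.ι) (ψ : G.A i →ₐ[k] Localization.Away (s a j)), ψ.toRingHom.Etale ∧
      (⟨i, ψ⟩ : G.Pt _) = ρ.res (awayPt (AlgHom.id k _)) ∧
      p ∈ Set.range (Spec.map (CommRingCat.ofHom ψ.toRingHom)) := by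
  obtain ⟨⟨j, σ⟩, hσ⟩ := ρ.cover p.asIdeal.ResidueField ⟨i, IsScalarTower.toAlgHom k _ _⟩
  obtain rfl : ρ.r j = i := congrArg Sigma.fst hσ
  have h1 : σ.comp (ρ.φ j) = IsScalarTower.toAlgHom k _ _ := eq_of_heq (Sigma.mk.inj hσ).2
  obtain ⟨a, ha, h2⟩ : ∃ a ∈ good, σ (s a j) ≠ 0 := by
    by_contra! h
    have h3 : Ideal.span ((fun a => s a j) '' good) ≤ RingHom.ker σ :=
      Ideal.span_le.2 (by rintro _ ⟨a, ha, rfl⟩; exact h a ha)
    exact RingHom.ker_ne_top σ (top_le_iff.1 (hs j ▸ h3))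
  refine ⟨a, ha, j, _, ?_, rfl, imPt (Spec.map (CommRingCat.ofHom
    (IsLocalization.Away.liftAlgHom (S := Localization.Away (s a j)) (s a j)
      h2.isUnit).toRingHom)), ?_⟩
  · exact RingHom.Etale.stableUnderComposition _ _ (ρ.et j) (semb_etale_away (s a j))
  · refine Eq.trans ?_ (semb_imPt (k := k) p)
    rw [← semb_imPt_comp, ← Spec.map_comp, ← h1, ← CommRingCat.ofHom_comp]
    refine congrArg (fun φ => imPt (Spec.map (CommRingCat.ofHom φ))) (RingHom.ext fun x => ?_)
    exact IsLocalization.Away.lift_eq (S := Localization.Away (s a j)) (s a j) h2.isUnit _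

end aux

section main

variable {X : Psh.{u}} {π : X ⟶ yoneda.obj (Spec (.of k))} {P : PreRel k}
  {u : ∀ i, X.obj (op (Spec (.of (P.A i))))}

theorem semb_str (h : IsPres π P u) {C : Type u} [CommRing C] [Algebra k C] (σ : P.Pt C) :
    π.app _ (secOf u σ) = Spec.map (CommRingCat.ofHom (algebraMap k C)) := by
  rw [secOf, NatTrans.naturality_apply, h.str_eq]
  change Spec.map _ ≫ Spec.map _ = _
  rw [← Spec.map_comp, ← CommRingCat.ofHom_comp]
  congr 2
  exact σ.2.comp_algebraMap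

theorem semb_locSurj (h : IsPres π P u) {F : Fam k} (ρ : Refines F P.toFam) {α : Type}
    (s : α → F.El) {good : Set α} (hs : ∀ i, Ideal.span ((fun a => s a i) '' good) = ⊤) :
    LocSurj X (fun x : good × F.ι => .of (Localization.Away (s x.1 x.2)))
      fun x => secOf u (ρ.res (awayPt (AlgHom.id k (Localization.Away (s x.1 x.2))))) := by
  intro T x t
  obtain ⟨T', g, i, v, hg, ⟨t', rfl⟩, e⟩ := h.surj T x t
  obtain ⟨a, ha, j, ψ, hψ, e', q, hq⟩ := semb_cover ρ s hs i (v t')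
  have : Etale (Spec.map (CommRingCat.ofHom ψ.toRingHom)) :=
    (HasRingHomProperty.Spec_iff (P := @Etale)).2 hψ
  obtain ⟨z, hz, -⟩ := Scheme.Pullback.exists_preimage_pullback (f := v)
    (g := Spec.map (CommRingCat.ofHom ψ.toRingHom)) t' q hq.symm
  refine ⟨pullback v (Spec.map (CommRingCat.ofHom ψ.toRingHom)), pullback.fst _ _ ≫ g,
    (⟨a, ha⟩, j), pullback.snd _ _, inferInstance, ⟨z, by rw [Scheme.Hom.comp_apply, hz]⟩, ?_⟩
  dsimp only
  rw [← e', secOf, op_comp, Functor.map_comp_apply, e, ← Functor.map_comp_apply, ← op_comp,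
    pullback.condition, op_comp, Functor.map_comp_apply]

variable {F : Fam k} {R : ∀ (C : Type u) [CommRing C] [Algebra k C], F.Pt C → F.Pt C → Prop}
  (E : EmbOn F R) {Y : Scheme.{u}} {str : Y ⟶ Spec (.of k)}
  {c : ∀ t, Spec (.of (MvPolynomial E.α k ⧸ chartKer E.s t)) ⟶ Y}

theorem semb_locSurj_yoneda (hc : StdCharts (chartKer E.s) str c) :
    LocSurj (yoneda.obj Y) (fun x : E.good × F.ι => .of (Localization.Away (E.s x.1 x.2)))
      fun x => Spec.map (CommRingCat.ofHom (chartLift E.s x.1 x.2).toRingHom) ≫ c x.1 := by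
  obtain ⟨𝔞, h𝔞, h𝔨⟩ := exists_homogeneous_chartKer E.s
  refine locSurj_yoneda _ (fun x => ?_) fun y => ?_
  · have := hc.isOpen x.1
    have : Etale (Spec.map (CommRingCat.ofHom (chartLift E.s x.1 x.2).toRingHom)) :=
      (HasRingHomProperty.Spec_iff (P := @Etale)).2 (E.et _ x.1.2 _)
    infer_instance
  obtain ⟨t, p, rfl⟩ := hc.surj y
  obtain ⟨a, ha, hp⟩ := E.cover t (p.asIdeal.comap (Ideal.Quotient.mk _)) inferInstance
    fun G hG => by rw [Ideal.mem_comap, Ideal.Quotient.eq_zero_iff_mem.2 hG]; exact zero_mem _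
  have h0 : IsScalarTower.toAlgHom k _ p.asIdeal.ResidueField
      (Ideal.Quotient.mk (chartKer E.s t) (MvPolynomial.X a)) ≠ 0 := fun h =>
    hp (Ideal.mem_comap.2 ((Ideal.algebraMap_residueField_eq_zero (I := p.asIdeal)).1 h))
  obtain ⟨χ, hχ⟩ := semb_rescale h𝔞 (le_sup_left.trans (h𝔨 t).ge) (h𝔨 a) _ (mul_inv_cancel₀ h0)
  have e := (hc.eq_iff _ t a (IsScalarTower.toAlgHom k _ p.asIdeal.ResidueField) χ).2 fun b => by
    rw [hχ, mul_assoc, inv_mul_cancel₀ h0, mul_one]
  have e' := congrArg imPt e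
  rw [semb_imPt_comp, semb_imPt_comp, semb_imPt] at e'
  obtain ⟨p', hp'⟩ : ∃ p' : PrimeSpectrum (MvPolynomial E.α k ⧸ chartKer E.s a),
    p' = imPt (Spec.map (CommRingCat.ofHom χ.toRingHom)) := ⟨_, rfl⟩
  obtain ⟨i, 𝔮, h𝔮, e''⟩ := E.surj a ha (p'.asIdeal.comap (Ideal.Quotient.mk _)) inferInstance
    fun G hG => by rw [Ideal.mem_comap, Ideal.Quotient.eq_zero_iff_mem.2 hG]; exact zero_mem _
  refine ⟨(⟨a, ha⟩, i), (⟨𝔮, h𝔮⟩ : PrimeSpectrum _), ?_⟩
  rw [e', ← hp', Scheme.Hom.comp_apply]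
  congr 1
  refine PrimeSpectrum.ext (Ideal.ext fun x => ?_)
  obtain ⟨G, rfl⟩ := Ideal.Quotient.mk_surjective x
  exact Ideal.ext_iff.1 e'' G

theorem semb_rel_iff (hc : StdCharts (chartKer E.s) str c) {C : Type u} [CommRing C] [Algebra k C]
    {t t' : E.α} (ht : t ∈ E.good) {i j : F.ι} (σ : Localization.Away (E.s t i) →ₐ[k] C)
    (τ : Localization.Away (E.s t' j) →ₐ[k] C) : R C (awayPt σ) (awayPt τ) ↔
      Spec.map (CommRingCat.ofHom (σ.comp (chartLift E.s t i)).toRingHom) ≫ c t =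
        Spec.map (CommRingCat.ofHom (τ.comp (chartLift E.s t' j)).toRingHom) ≫ c t' := by
  have h1 : ∀ a, σ.comp (chartLift E.s t i) (Ideal.Quotient.mk _ (MvPolynomial.X a)) =
      σ (algebraMap _ _ (E.s a i)) * σ (IsLocalization.Away.invSelf (E.s t i)) := fun a => by
    rw [← map_mul, ← semb_chartMap_X]; rfl
  have h2 : ∀ a, τ.comp (chartLift E.s t' j) (Ideal.Quotient.mk _ (MvPolynomial.X a)) =
      τ (algebraMap _ _ (E.s a j)) * τ (IsLocalization.Away.invSelf (E.s t' j)) := fun a => by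
    rw [← map_mul, ← semb_chartMap_X]; rfl
  have h3 : σ (algebraMap _ _ (E.s t i)) * σ (IsLocalization.Away.invSelf (E.s t i)) = 1 := by
    rw [← map_mul, IsLocalization.Away.mul_invSelf, map_one]
  have h4 : τ (algebraMap _ _ (E.s t' j)) * τ (IsLocalization.Away.invSelf (E.s t' j)) = 1 := by
    rw [← map_mul, IsLocalization.Away.mul_invSelf, map_one]
  rw [hc.eq_iff]
  simp only [h1, h2]
  refine ⟨fun h a => ?_, fun h => ?_⟩
  · obtain ⟨g, hg⟩ := E.prop C _ _ h
    have h5 : ∀ a, σ (algebraMap _ _ (E.s a i)) = g * τ (algebraMap _ _ (E.s a j)) := hg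
    rw [h5 a, h5 t']
    linear_combination (-(g * τ (algebraMap _ _ (E.s a j)) *
      σ (IsLocalization.Away.invSelf (E.s t i)))) * h4
  · have h5 := h t
    rw [h3, mul_assoc] at h5
    have h6 : IsUnit ((awayPt τ).2 (E.s t j)) := .of_mul_eq_one _ h5.symm
    obtain ⟨τ', hτ'⟩ : ∃ τ' : Localization.Away (E.s t j) →ₐ[k] C,
        ∀ x, τ' (algebraMap _ _ x) = τ (algebraMap _ _ x) :=
      ⟨IsLocalization.Away.liftAlgHom _ h6, fun x => IsLocalization.Away.lift_eq _ h6 x⟩
    have h7 : τ (algebraMap _ _ (E.s t j)) * τ' (IsLocalization.Away.invSelf (E.s t j)) = 1 := by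
      rw [← hτ', ← map_mul, IsLocalization.Away.mul_invSelf, map_one]
    have h8 : awayPt τ' = awayPt τ := congrArg (Sigma.mk j) (AlgHom.ext hτ')
    rw [← h8]
    refine E.rel t ht C i j σ τ' (algHom_ext fun a => ?_)
    rw [AlgHom.comp_apply, AlgHom.comp_apply, semb_chartMap_X, semb_chartMap_X, map_mul, map_mul,
      h a, hτ']
    linear_combination (-(τ (algebraMap _ _ (E.s a j)) *
      τ' (IsLocalization.Away.invSelf (E.s t j)))) * h5 - (τ (algebraMap _ _ (E.s a j)) *
      τ (IsLocalization.Away.invSelf (E.s t' j)) * (σ (algebraMap _ _ (E.s t' i)) *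
        σ (IsLocalization.Away.invSelf (E.s t i)))) * h7

theorem semb_str_yoneda (hc : StdCharts (chartKer E.s) str c) (t : E.α) (i : F.ι) :
    (Spec.map (CommRingCat.ofHom (chartLift E.s t i).toRingHom) ≫ c t) ≫ str =
      Spec.map (CommRingCat.ofHom (algebraMap k (Localization.Away (E.s t i)))) := by
  rw [Category.assoc, hc.str_eq, ← Spec.map_comp, ← CommRingCat.ofHom_comp]
  congr 2
  exact (chartLift E.s t i).comp_algebraMap

end main

/-- Two ring maps that agree on the base field are algebra maps. -/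
theorem semb_alg {A B : Type u} [CommRing A] [Algebra k A] [CommRing B] [Algebra k B]
    {C : CommRingCat.{u}} (a : CommRingCat.of A ⟶ C) (b : CommRingCat.of B ⟶ C)
    (h : Spec.map a ≫ Spec.map (CommRingCat.ofHom (algebraMap k A)) =
      Spec.map b ≫ Spec.map (CommRingCat.ofHom (algebraMap k B))) :
    ∃ (_ : Algebra k C) (σ : A →ₐ[k] C) (τ : B →ₐ[k] C),
      a = CommRingCat.ofHom σ.toRingHom ∧ b = CommRingCat.ofHom τ.toRingHom := by
  rw [← Spec.map_comp, ← Spec.map_comp] at h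
  have h' := congrArg CommRingCat.Hom.hom (Spec.map_injective h)
  let := (a.hom.comp (algebraMap k A)).toAlgebra
  exact ⟨this, ⟨a.hom, fun _ => rfl⟩, ⟨b.hom, fun x => (RingHom.congr_fun h' x).symm⟩, rfl, rfl⟩

theorem IsPres.projective {X : Psh.{u}} {π : X ⟶ yoneda.obj (Spec (.of k))}
    (hX : Presieve.IsSheaf Scheme.etaleTopology X) {P : PreRel k}
    {u : ∀ i, X.obj (op (Spec (.of (P.A i))))} (h : IsPres π P u) (hP : P.Emb) :
    IsProjectiveSpace π := by
  obtain ⟨F, ρ, ⟨E⟩⟩ := hP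
  obtain ⟨𝔞, h𝔞, h𝔨⟩ := exists_homogeneous_chartKer E.s
  obtain ⟨N, Y, ι, hι, c, hc⟩ := exists_proj 𝔞 h𝔞 _ h𝔨
  have hu := semb_locSurj h ρ E.s E.gen
  obtain ⟨e, he⟩ := exists_iso hX (isSheaf_yoneda Y) hu (semb_locSurj_yoneda E hc)
    fun C x y a b => by
      have key : (Spec.map a ≫ Spec.map (CommRingCat.ofHom (algebraMap k _)) =
          Spec.map b ≫ Spec.map (CommRingCat.ofHom (algebraMap k _))) →
          (X.map (Spec.map a).op (secOf u (ρ.res (awayPt (AlgHom.id k _)))) =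
            X.map (Spec.map b).op (secOf u (ρ.res (awayPt (AlgHom.id k _)))) ↔
          Spec.map a ≫ Spec.map (CommRingCat.ofHom (chartLift E.s x.1 x.2).toRingHom) ≫ c x.1 =
            Spec.map b ≫ Spec.map (CommRingCat.ofHom (chartLift E.s y.1 y.2).toRingHom) ≫
              c y.1) := fun h0 => by
        obtain ⟨_, σ, τ, rfl, rfl⟩ := semb_alg a b h0
        rw [← secOf_map, ← secOf_map, ← h.rel, ← Spec.map_comp_assoc, ← Spec.map_comp_assoc]
        exact semb_rel_iff E hc x.1.2 σ τ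
      refine ⟨fun h1 => (key ?_).1 h1, fun h1 => (key ?_).2 h1⟩
      · have h2 := congrArg (π.app _) h1
        rwa [NatTrans.naturality_apply, NatTrans.naturality_apply, semb_str h, semb_str h] at h2
      · rw [← semb_str_yoneda E hc x.1 x.2, ← semb_str_yoneda E hc y.1 y.2]
        exact (Category.assoc _ _ _).symm.trans
          ((congrArg (· ≫ ι ≫ PP.str k _) h1).trans (Category.assoc _ _ _))
  refine ⟨N, Y, ι, e, hι, hu.hom_ext (isSheaf_yoneda _) fun x => ?_⟩
  rw [semb_str h, ← semb_str_yoneda E hc, ← he x]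
  rfl

end

end Pool.Agent.Lib.MP_1c03d5_ag
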