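import Pool.Agent.Lib.MP_1c03d5_ag.SExtA

/-!
# TASK SEXTC: compatibility of the local extensions
-/

universe u

namespace Pool.Agent.Lib.MP_1c03d5_ag

noncomputable section

open TensorProduct

/-- Extension of an embedding along an algebraic extension. -/
theorem sextc_ext {k C K Ω : Type u} [Field k] [CommRing C] [Algebra k C] [Field K] [Algebra k K]
    [Field Ω] [Algebra k Ω] [IsAlgClosed Ω] (φ : C →ₐ[k] K) (hφ : Function.Injective φ)
    (ha : ∀ x : K, IsAlgebraic φ.range x) (j : C →ₐ[k] Ω) (hj : Function.Injective j) :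
    ∃ J : K →ₐ[k] Ω, J.comp φ = j := by
  have : IsDomain C := hφ.isDomain φ.toRingHom
  let : Algebra C K := φ.toRingHom.toAlgebra
  let : Algebra C Ω := j.toRingHom.toAlgebra
  have : FaithfulSMul C K := (faithfulSMul_iff_algebraMap_injective _ _).2 hφ
  have : FaithfulSMul C Ω := (faithfulSMul_iff_algebraMap_injective _ _).2 hj
  have : Algebra.IsAlgebraic C K := ⟨fun x =>
    IsAlgebraic.of_ringHom_of_comp_eq φ.rangeRestrict.toRingHom (RingHom.id K) (ha x)
      φ.rangeRestrict_surjective Function.injective_id rfl⟩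
  let J : K →ₐ[C] Ω := IsAlgClosed.lift
  have hJ : ∀ c, J (φ c) = j c := fun c => J.commutes c
  refine ⟨{ J.toRingHom with commutes' := fun c => ?_ }, AlgHom.ext hJ⟩
  change J (algebraMap k K c) = _
  rw [← φ.commutes, hJ, j.commutes]

/-- Two embeddings of a normal extension that agree on the base differ by an automorphism. -/
theorem sextc_gal {F K Ω : Type u} [Field F] [Field K] [Algebra F K] [Normal F K] [Field Ω]
    (J J' : K →+* Ω) (h : ∀ a, J' (algebraMap F K a) = J (algebraMap F K a)) :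
    ∃ γ : K ≃ₐ[F] K, ∀ x, J (γ x) = J' x := by
  let : Algebra K Ω := J.toAlgebra
  let : Algebra F Ω := (J.comp (algebraMap F K)).toAlgebra
  have : IsScalarTower F K Ω := IsScalarTower.of_algebraMap_eq fun _ => rfl
  let J'' : K →ₐ[F] Ω := { J' with commutes' := h }
  exact ⟨J''.restrictNormal' K, fun x => J''.restrictNormal_commutes K x⟩

/-- Reduction to generic field-valued points. -/
theorem sextc_univ {k : Type u} [Field k] {P : PreRel k} {R A A' : Type u} [CommRing R]
    [IsDomain R] [IsNoetherianRing R] [Algebra k R] [CommRing A] [Algebra k A] [CommRing A']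
    [Algebra k A'] (ρ : R →ₐ[k] A) (ρ' : R →ₐ[k] A') (hρ : ρ.toRingHom.Etale)
    (hρ' : ρ'.toRingHom.Etale) (τ : P.Pt A) (τ' : P.Pt A')
    (h : ∀ (Ω : Type u) [Field Ω] [Algebra k Ω] [IsAlgClosed Ω] (j : A →ₐ[k] Ω) (j' : A' →ₐ[k] Ω),
      j.comp ρ = j'.comp ρ' → Function.Injective (j.comp ρ) → P.Rel (τ.map j) (τ'.map j'))
    {D : Type u} [CommRing D] [Algebra k D] (χ : A →ₐ[k] D) (χ' : A' →ₐ[k] D)
    (he : χ.comp ρ = χ'.comp ρ') : P.Rel (τ.map χ) (τ'.map χ') := by
  let : Algebra R A := ρ.toRingHom.toAlgebra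
  let : Algebra R A' := ρ'.toRingHom.toAlgebra
  have : IsScalarTower k R A := IsScalarTower.of_algebraMap_eq fun c => (ρ.commutes c).symm
  have : IsScalarTower k R A' := IsScalarTower.of_algebraMap_eq fun c => (ρ'.commutes c).symm
  have : Algebra.Etale R A := hρ
  have : Algebra.Etale R A' := hρ'
  have : Algebra.Etale R (A ⊗[R] A') := Algebra.Etale.comp R A _
  let l : A →ₐ[k] A ⊗[R] A' :=
    (Algebra.TensorProduct.includeLeft : A →ₐ[R] A ⊗[R] A').restrictScalars k
  let r : A' →ₐ[k] A ⊗[R] A' :=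
    (Algebra.TensorProduct.includeRight : A' →ₐ[R] A ⊗[R] A').restrictScalars k
  have hl : ∀ a, l (ρ a) = algebraMap R _ a := fun a =>
    (Algebra.TensorProduct.includeLeft : A →ₐ[R] A ⊗[R] A').commutes a
  have hr : ∀ a, r (ρ' a) = algebraMap R _ a := fun a =>
    (Algebra.TensorProduct.includeRight : A' →ₐ[R] A ⊗[R] A').commutes a
  have key : P.Rel (τ.map l) (τ'.map r) := by
    intro x hx
    refine eq_zero_of_etale (RingHom.etale_algebraMap.2 ‹Algebra.Etale R (A ⊗[R] A')›) ?_
    intro 𝔓 _ h0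
    let Ω := AlgebraicClosure 𝔓.ResidueField
    let π : A ⊗[R] A' →ₐ[k] Ω := IsScalarTower.toAlgHom k _ _
    have hπ : ∀ t, π t = 0 → t ∈ 𝔓 := fun t ht => by
      have h1 : algebraMap 𝔓.ResidueField Ω (algebraMap _ 𝔓.ResidueField t) = 0 := ht
      exact Ideal.algebraMap_residueField_eq_zero.1
        ((map_eq_zero_iff _ (algebraMap 𝔓.ResidueField Ω).injective).1 h1)
    have h2 := h Ω (π.comp l) (π.comp r) (AlgHom.ext fun a => by simp [hl, hr])
      ((injective_iff_map_eq_zero _).2 fun a ha => by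
        have h3 : algebraMap R (A ⊗[R] A') a ∈ 𝔓 := hπ _ (by rw [← hl]; exact ha)
        have h4 : a ∈ 𝔓.comap (algebraMap R (A ⊗[R] A')) := h3
        rwa [h0] at h4) x hx
    refine hπ _ (Eq.trans ?_ h2)
    refine DFunLike.congr_fun (?_ : π.comp (Algebra.TensorProduct.productMap (l.comp τ.2)
      (r.comp τ'.2)) = Algebra.TensorProduct.productMap ((π.comp l).comp τ.2)
        ((π.comp r).comp τ'.2)) x
    ext a <;> simp
  let : Algebra R D := (χ.comp ρ).toRingHom.toAlgebra
  have : IsScalarTower k R D :=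
    IsScalarTower.of_algebraMap_eq fun c => ((χ.comp ρ).commutes c).symm
  let χ1 : A →ₐ[R] D := { χ.toRingHom with commutes' := fun _ => rfl }
  let χ2 : A' →ₐ[R] D :=
    { χ'.toRingHom with commutes' := fun a => (DFunLike.congr_fun he a).symm }
  let ψ : A ⊗[R] A' →ₐ[k] D := (Algebra.TensorProduct.productMap χ1 χ2).restrictScalars k
  have e1 : ψ.comp l = χ := AlgHom.ext fun a => by simp [ψ, l, χ1]
  have e2 : ψ.comp r = χ' := AlgHom.ext fun a => by simp [ψ, r, χ2]
  have h5 := key.map ψ
  rw [← e1, ← e2]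
  exact h5

theorem sextc_away {k C D : Type u} [Field k] [CommRing C] [Algebra k C] [CommRing D] [Algebra k D]
    {a : C} (ι : C →ₐ[k] Localization.Away a) (hι : ∀ c, ι c = algebraMap _ _ c) (f : C →ₐ[k] D)
    (h : IsUnit (f a)) : ∃ g : Localization.Away a →ₐ[k] D, g.comp ι = f := by
  have u : ∀ s : Submonoid.powers a, IsUnit (f s) := by
    rintro ⟨_, n, rfl⟩
    rw [map_pow]
    exact h.pow n
  refine ⟨IsLocalization.liftAlgHom u, AlgHom.ext fun c => ?_⟩
  rw [AlgHom.comp_apply, hι]
  exact IsLocalization.lift_eq u c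

/-- The inverse of an etale coordinate is an etale coordinate. -/
theorem sextc_inv {k C : Type u} [Field k] [CommRing C] [Algebra k C] (a : C)
    (h : (Polynomial.aeval a : Polynomial k →ₐ[k] C).toRingHom.Etale) :
    (Polynomial.aeval (IsLocalization.Away.invSelf a) :
      Polynomial k →ₐ[k] Localization.Away a).toRingHom.Etale := by
  let f := (Polynomial.aeval a : Polynomial k →ₐ[k] C).toRingHom
  have hf : f Polynomial.X = a := Polynomial.aeval_X a
  have : IsLocalization.Away (f Polynomial.X) (Localization.Away a) := by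
    rw [hf]
    infer_instance
  let g := IsLocalization.Away.map (LaurentPolynomial k) (Localization.Away a) f Polynomial.X
  have hg : g.Etale := RingHom.Etale.isStableUnderBaseChange.localizationPreserves.away f
    Polynomial.X (LaurentPolynomial k) (Localization.Away a) h
  have hg1 : ∀ p, g (algebraMap (Polynomial k) (LaurentPolynomial k) p) = algebraMap C _ (f p) :=
    fun p => IsLocalization.map_eq _ p
  have h1 : (algebraMap (Polynomial k) (LaurentPolynomial k)).Etale :=
    RingHom.etale_algebraMap.2 (Algebra.Etale.of_isLocalizationAway Polynomial.X)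
  have h2 : (LaurentPolynomial.invert (R := k)).toRingEquiv.toRingHom.Etale :=
    RingHom.Etale.of_bijective LaurentPolynomial.invert.bijective
  have h3 := RingHom.Etale.stableUnderComposition _ _
    (RingHom.Etale.stableUnderComposition _ _ h1 h2) hg
  convert h3 using 1
  refine Polynomial.ringHom_ext (fun c => ?_) ?_
  · have h4 := hg1 (Polynomial.C c)
    simp only [LaurentPolynomial.algebraMap_eq_toLaurent, Polynomial.toLaurent_C] at h4
    simp [h4, f, ← IsScalarTower.algebraMap_apply]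
  · have h4 := hg1 Polynomial.X
    rw [hf, LaurentPolynomial.algebraMap_eq_toLaurent, Polynomial.toLaurent_X] at h4
    have h5 : algebraMap C (Localization.Away a) a * g (LaurentPolynomial.T (-1)) = 1 := by
      rw [← h4, ← map_mul, ← LaurentPolynomial.T_add]
      simp
    have h6 := IsLocalization.Away.mul_invSelf (S := Localization.Away a) a
    have h7 : IsLocalization.Away.invSelf a = g (LaurentPolynomial.T (-1)) := by
      linear_combination (IsLocalization.Away.invSelf a) * (-h5) +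
        g (LaurentPolynomial.T (-1)) * h6
    simp [h7]

variable {k : Type u} [Field k] [IsAlgClosed k] {P : EqRel k} {σ : P.Pt (Om k)}
  (hγ : ∀ γ : Om k ≃ₐ[RatFunc k] Om k, P.Rel (σ.map (γ.restrictScalars k).toAlgHom) σ)
  {y : Om k}
  (hy : ∀ x, x ∈ IntermediateField.adjoin k {y} ↔ x ∈ (algebraMap (RatFunc k) (Om k)).range)

open scoped IntermediateField.algebraAdjoinAdjoin in
include hy in
theorem sextc_lift (N : Nbhd σ y) {Ω : Type u} [Field Ω] [Algebra k Ω] [IsAlgClosed Ω]
    (j : N.C →ₐ[k] Ω) (hj : Function.Injective (j.comp (Polynomial.aeval N.y'))) :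
    ∃ J : Om k →ₐ[k] Ω, J.comp N.φ = j := by
  have : IsDomain N.C := N.inj.isDomain N.φ.toRingHom
  refine sextc_ext N.φ N.inj (fun x => ?_) j ?_
  · have h1 : IsAlgebraic (RatFunc k) x := Algebra.IsAlgebraic.isAlgebraic x
    let f : RatFunc k →+* IntermediateField.adjoin k {y} :=
      (algebraMap (RatFunc k) (Om k)).codRestrict _ fun a => (hy _).2 ⟨a, rfl⟩
    have h2 : IsAlgebraic (IntermediateField.adjoin k {y}) x :=
      IsAlgebraic.ringHom_of_comp_eq f (RingHom.id _) h1 f.injective rfl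
    have h3 : IsAlgebraic (Algebra.adjoin k {y}) x :=
      (IsFractionRing.isAlgebraic_iff _ (IntermediateField.adjoin k {y}) _).2 h2
    refine h3.tower_top_of_subalgebra_le (Algebra.adjoin_le ?_)
    rintro _ rfl
    exact ⟨N.y', N.φ_y⟩
  · have : (RingHom.ker j).IsPrime := RingHom.ker_isPrime _
    have h1 := eq_of_le_of_etale N.et (bot_le (a := RingHom.ker j)) (by
      refine le_antisymm (Ideal.comap_mono bot_le) fun p hp => ?_
      have h2 : p = 0 := (injective_iff_map_eq_zero _).1 hj p hp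
      rw [h2]
      exact zero_mem _)
    exact (RingHom.injective_iff_ker_eq_bot j).2 h1.symm

include hγ hy

theorem Nbhd.rel_of_eq (N N' : Nbhd σ y) {D : Type u} [CommRing D] [Algebra k D]
    (χ : N.C →ₐ[k] D) (χ' : N'.C →ₐ[k] D) (h : χ N.y' = χ' N'.y') :
    P.Rel (N.τ.map χ) (N'.τ.map χ') := by
  refine sextc_univ (Polynomial.aeval N.y') (Polynomial.aeval N'.y') N.et N'.et N.τ N'.τ ?_ χ χ'
    (Polynomial.algHom_ext (by simpa using h))
  intro Ω _ _ _ j j' he hj
  obtain ⟨J, rfl⟩ := sextc_lift hy N j hj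
  obtain ⟨J', rfl⟩ := sextc_lift hy N' j' (he ▸ hj)
  have h1 : J' y = J y := by
    have h2 := DFunLike.congr_fun he Polynomial.X
    simp only [AlgHom.comp_apply, Polynomial.aeval_X, N.φ_y, N'.φ_y] at h2
    exact h2.symm
  have h2 : J'.comp (IntermediateField.adjoin k {y}).val =
      J.comp (IntermediateField.adjoin k {y}).val :=
    IntermediateField.adjoin_algHom_ext k (by rintro _ rfl; exact h1)
  obtain ⟨γ, hγ'⟩ := sextc_gal (F := RatFunc k) J.toRingHom J'.toRingHom fun a =>
    DFunLike.congr_fun h2 ⟨_, (hy _).2 ⟨a, rfl⟩⟩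
  have h3 : J.comp (γ.restrictScalars k).toAlgHom = J' := AlgHom.ext hγ'
  subst h3
  exact P.trans _ _ _ _ (N.rel.map J) (P.symm _ _ _
    (P.trans _ _ _ _ (N'.rel.map (J.comp (γ.restrictScalars k).toAlgHom)) ((hγ γ).map J)))

theorem Nbhd.rel_of_mul (N : Nbhd σ y) (N' : Nbhd σ y⁻¹) {D : Type u} [CommRing D] [Algebra k D]
    (χ : N.C →ₐ[k] D) (χ' : N'.C →ₐ[k] D) (h : χ N.y' * χ' N'.y' = 1) :
    P.Rel (N.τ.map χ) (N'.τ.map χ') := by
  have : IsDomain N'.C := N'.inj.isDomain N'.φ.toRingHom
  have h0 : N'.y' ≠ 0 := fun e => Polynomial.X_ne_zero (R := k)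
    ((injective_iff_map_eq_zero _).1 (injective_of_etale N'.et) _ ((Polynomial.aeval_X _).trans e))
  have h1 : N'.φ N'.y' ≠ 0 := fun e => h0 ((injective_iff_map_eq_zero _).1 N'.inj _ e)
  obtain ⟨ι, hι⟩ : ∃ ι : N'.C →ₐ[k] Localization.Away N'.y', ∀ a, ι a = algebraMap _ _ a :=
    ⟨IsScalarTower.toAlgHom k _ _, fun _ => rfl⟩
  obtain ⟨φ, e1⟩ := sextc_away ι hι N'.φ (IsUnit.mk0 _ h1)
  obtain ⟨ψ, e2⟩ := sextc_away ι hι χ' (IsUnit.of_mul_eq_one_right _ h)
  have hm : ι N'.y' * IsLocalization.Away.invSelf N'.y' = 1 := by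
    rw [hι]
    exact IsLocalization.Away.mul_invSelf _
  have hφ : φ (IsLocalization.Away.invSelf N'.y') = y := by
    have h2 := congrArg φ hm
    rw [map_mul, map_one, ← AlgHom.comp_apply, e1, N'.φ_y] at h2
    rw [eq_inv_of_mul_eq_one_right h2, inv_inv]
  have hψ : χ N.y' = ψ (IsLocalization.Away.invSelf N'.y') := by
    have h2 := congrArg ψ hm
    rw [map_mul, map_one, ← AlgHom.comp_apply, e2] at h2
    linear_combination ψ (IsLocalization.Away.invSelf N'.y') * h - χ N.y' * h2
  have hi : Function.Injective φ :=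
    (IsLocalization.injective_iff_map_algebraMap_eq (Submonoid.powers N'.y') φ.toRingHom).2
      fun a b => ⟨fun e => congrArg φ e, fun e => by
        have h2 : (φ.comp ι) a = (φ.comp ι) b := by
          rw [AlgHom.comp_apply, AlgHom.comp_apply, hι, hι]
          exact e
        rw [e1] at h2
        rw [N'.inj h2]⟩
  have hr : P.Rel ((N'.τ.map ι).map φ) σ := by
    have h2 := N'.rel
    rw [← e1] at h2
    exact h2
  have h3 := Nbhd.rel_of_eq hγ hy N ⟨Localization.Away N'.y', φ, _, N'.τ.map ι, hi, hφ,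
    sextc_inv _ N'.et, hr⟩ χ ψ hψ
  rw [← e2]
  exact h3

end

end Pool.Agent.Lib.MP_1c03d5_ag
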