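import Pool.Agent.Lib.MP_1c03d5_ag.ShP
import Pool.Agent.Lib.MP_1c03d5_ag.Proj2
import Pool.Agent.Lib.MP_1c03d5_ag.SExtC

/-!
# TASK SEXTB: no rational curves implies no rational points over k(y)
-/

open CategoryTheory Limits AlgebraicGeometry Opposite

universe u

namespace Pool.Agent.Lib.MP_1c03d5_ag

noncomputable section

section

variable {k : Type u} [Field k]

/-- The two coordinates of the line. -/
def sextbY (k : Type u) [Field k] : Bool → Om k
  | true => algebraMap (RatFunc k) (Om k) RatFunc.X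
  | false => (algebraMap (RatFunc k) (Om k) RatFunc.X)⁻¹

theorem sextb_adj (t : Bool) (x : Om k) : x ∈ IntermediateField.adjoin k {sextbY k t} ↔
    x ∈ (algebraMap (RatFunc k) (Om k)).range := by
  have h1 : IntermediateField.adjoin k {sextbY k t} =
      IntermediateField.adjoin k {sextbY k true} := by
    cases t
    · refine le_antisymm ?_ ?_
      · rw [IntermediateField.adjoin_simple_le_iff]
        exact inv_mem (IntermediateField.mem_adjoin_simple_self k _)
      · rw [IntermediateField.adjoin_simple_le_iff]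
        have := inv_mem (IntermediateField.mem_adjoin_simple_self k (sextbY k false))
        simpa [sextbY] using this
    · rfl
  have h2 := IntermediateField.adjoin_map k {(RatFunc.X : RatFunc k)}
    (IsScalarTower.toAlgHom k (RatFunc k) (Om k))
  rw [RatFunc.adjoin_X, Set.image_singleton] at h2
  rw [h1]
  change x ∈ IntermediateField.adjoin k
    {IsScalarTower.toAlgHom k (RatFunc k) (Om k) RatFunc.X} ↔ _
  rw [← h2]
  constructor
  · rintro ⟨a, -, rfl⟩
    exact ⟨a, rfl⟩
  · rintro ⟨a, rfl⟩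
    exact ⟨a, trivial, rfl⟩

theorem sextb_trans (t : Bool) : Transcendental k (sextbY k t) := by
  have h : Transcendental k (sextbY k true) :=
    (transcendental_algebraMap_iff (algebraMap (RatFunc k) (Om k)).injective).2
      RatFunc.transcendental_X
  cases t
  · exact fun h' => h (IsAlgebraic.inv_iff.1 h')
  · exact h

theorem sextb_prime [IsAlgClosed k] {q : Ideal (Polynomial k)} (hq : q.IsPrime) (h0 : q ≠ ⊥) :
    ∃ c : k, ∀ q' : Ideal (Polynomial k), q'.IsPrime → Polynomial.X - Polynomial.C c ∈ q' →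
      q' = q := by
  obtain ⟨f, hf, f0⟩ := Submodule.exists_mem_ne_zero_of_ne_bot h0
  have h1 : ∃ c : k, Polynomial.X - Polynomial.C c ∈ q := by
    rw [(IsAlgClosed.splits f).eq_prod_roots] at hf
    rcases hq.mem_or_mem hf with h | h
    · exact absurd (q.eq_top_of_isUnit_mem h (Polynomial.isUnit_C.2
        (Polynomial.leadingCoeff_ne_zero.2 f0).isUnit)) hq.ne_top
    · obtain ⟨g, hg, hg'⟩ := (hq.multiset_prod_mem_iff_exists_mem _).1 h
      obtain ⟨c, -, rfl⟩ := Multiset.mem_map.1 hg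
      exact ⟨c, hg'⟩
  obtain ⟨c, hc⟩ := h1
  have hm : (Ideal.span {Polynomial.X - Polynomial.C c}).IsMaximal :=
    PrincipalIdealRing.isMaximal_of_irreducible (Polynomial.irreducible_X_sub_C c)
  refine ⟨c, fun q' hq' h => ?_⟩
  rw [← hm.eq_of_le hq'.ne_top ((Ideal.span_singleton_le_iff_mem _).2 h),
    ← hm.eq_of_le hq.ne_top ((Ideal.span_singleton_le_iff_mem _).2 hc)]

variable {X : Psh.{u}} {π : X ⟶ yoneda.obj (Spec (.of k))}

theorem sextb_nat {T T' : Scheme.{u}} (g : T' ⟶ T) (x : X.obj (op T)) :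
    π.app _ (X.map g.op x) = g ≫ π.app _ x := NatTrans.naturality_apply π g.op x

theorem sextb_str {P : PreRel k} {u : ∀ i, X.obj (op (Spec (.of (P.A i))))} (h : IsPres π P u)
    {C : Type u} [CommRing C] [Algebra k C] (ρ : P.Pt C) :
    π.app _ (secOf u ρ) = Spec.map (CommRingCat.ofHom (algebraMap k C)) := by
  rw [secOf, sextb_nat, h.str_eq, ← Spec.map_comp, ← CommRingCat.ofHom_comp]
  congr 2
  exact RingHom.ext fun c => ρ.2.commutes c

/-- Two ring maps that agree on `k` are algebra maps for a common structure. -/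
theorem sextb_alg {A B C : Type u} [CommRing A] [Algebra k A] [CommRing B] [Algebra k B]
    [CommRing C] (α : A →+* C) (β : B →+* C)
    (h : Spec.map (CommRingCat.ofHom α) ≫ Spec.map (CommRingCat.ofHom (algebraMap k A)) =
      Spec.map (CommRingCat.ofHom β) ≫ Spec.map (CommRingCat.ofHom (algebraMap k B))) :
    ∃ (_ : Algebra k C) (χ : A →ₐ[k] C) (χ' : B →ₐ[k] C), χ.toRingHom = α ∧ χ'.toRingHom = β := by
  rw [← Spec.map_comp, ← Spec.map_comp, ← CommRingCat.ofHom_comp, ← CommRingCat.ofHom_comp] at h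
  have h1 : α.comp (algebraMap k A) = β.comp (algebraMap k B) :=
    congrArg CommRingCat.Hom.hom (Spec.map_injective h)
  let := (α.comp (algebraMap k A)).toAlgebra
  exact ⟨this, ⟨α, fun _ => rfl⟩, ⟨β, fun c => (RingHom.congr_fun h1 c).symm⟩, rfl, rfl⟩

variable {P : EqRel k} {σ : P.Pt (Om k)} {y : Om k}

/-- The map of a neighbourhood to the affine line. -/
def Nbhd.sextbG (N : Nbhd σ y) : Spec (.of N.C) ⟶ Spec (.of (Polynomial k)) :=
  Spec.map (CommRingCat.ofHom (Polynomial.aeval N.y' : Polynomial k →ₐ[k] N.C).toRingHom)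

theorem Nbhd.sextb_etale (N : Nbhd σ y) : Etale N.sextbG :=
  (HasRingHomProperty.Spec_iff (P := @Etale)).2 N.et

theorem Nbhd.sextb_str (N : Nbhd σ y) :
    N.sextbG ≫ Spec.map (CommRingCat.ofHom (algebraMap k (Polynomial k))) =
      Spec.map (CommRingCat.ofHom (algebraMap k N.C)) := by
  rw [Nbhd.sextbG, ← Spec.map_comp, ← CommRingCat.ofHom_comp]
  congr 2
  exact RingHom.ext fun c => (Polynomial.aeval N.y').commutes c

theorem Nbhd.sextb_comp (N : Nbhd σ y) {C : Type u} [CommRing C] (α : N.C →+* C) :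
    Spec.map (CommRingCat.ofHom α) ≫ N.sextbG = Spec.map (CommRingCat.ofHom
      (α.comp (Polynomial.aeval N.y' : Polynomial k →ₐ[k] N.C).toRingHom)) := by
  rw [Nbhd.sextbG, ← Spec.map_comp, ← CommRingCat.ofHom_comp]

theorem sextb_surj [IsAlgClosed k] (hy : Transcendental k y) (N : k → Nbhd σ y) (𝔮 : ∀ c, Ideal (N c).C)
    (h𝔮 : ∀ c, (𝔮 c).IsPrime ∧ (N c).y' - algebraMap k _ c ∈ 𝔮 c)
    (q : Spec (.of (Polynomial k))) : ∃ c, q ∈ Set.range (N c).sextbG := by
  by_cases h0 : q.asIdeal = ⊥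
  · refine ⟨0, ⟨RingHom.ker (N 0).φ, RingHom.ker_isPrime _⟩, PrimeSpectrum.ext ?_⟩
    rw [h0, eq_bot_iff]
    intro f hf
    have h1 : (N 0).φ (Polynomial.aeval (N 0).y' f) = 0 := hf
    rw [← Polynomial.aeval_algHom_apply, (N 0).φ_y] at h1
    exact transcendental_iff.1 hy f h1
  · obtain ⟨c, hc⟩ := sextb_prime q.isPrime h0
    refine ⟨c, ⟨𝔮 c, (h𝔮 c).1⟩, PrimeSpectrum.ext (hc _ (PrimeSpectrum.isPrime _) ?_)⟩
    change Polynomial.aeval (N c).y' (Polynomial.X - Polynomial.C c) ∈ 𝔮 c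
    simpa using (h𝔮 c).2

theorem sextb_compat [IsAlgClosed k] {u : ∀ i, X.obj (op (Spec (.of (P.A i))))}
    (h : IsPres π P.toPreRel u)
    (hγ : ∀ γ : Om k ≃ₐ[RatFunc k] Om k, P.Rel (σ.map (γ.restrictScalars k).toAlgHom) σ)
    {ch : Bool → (Spec (.of (Polynomial k)) ⟶ PP k (Fin 2))} (hop : ∀ t, IsOpenImmersion (ch t))
    (hst : ∀ t, ch t ≫ PP.str k _ = Spec.map (CommRingCat.ofHom (algebraMap k _)))
    (hch : ∀ (C : CommRingCat.{u}) (χ χ' : CommRingCat.of (Polynomial k) ⟶ C),
      Spec.map χ ≫ ch true = Spec.map χ' ≫ ch false → χ Polynomial.X * χ' Polynomial.X = 1)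
    {t t' : Bool} (N : Nbhd σ (sextbY k t)) (N' : Nbhd σ (sextbY k t')) {C : Type u} [CommRing C]
    (α : N.C →+* C) (β : N'.C →+* C)
    (hab : Spec.map (CommRingCat.ofHom α) ≫ N.sextbG ≫ ch t =
      Spec.map (CommRingCat.ofHom β) ≫ N'.sextbG ≫ ch t') :
    X.map (Spec.map (CommRingCat.ofHom α)).op (secOf u N.τ) =
      X.map (Spec.map (CommRingCat.ofHom β)).op (secOf u N'.τ) := by
  obtain ⟨_, χ, χ', rfl, rfl⟩ := sextb_alg (k := k) α β (by
    rw [← N.sextb_str, ← N'.sextb_str]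
    conv_lhs => rw [← hst t]
    conv_rhs => rw [← hst t']
    simpa only [Category.assoc] using congrArg (· ≫ PP.str k (Fin 2)) hab)
  rw [← secOf_map, ← secOf_map, ← h.rel]
  rw [← Category.assoc, ← Category.assoc, Nbhd.sextb_comp, Nbhd.sextb_comp] at hab
  cases t <;> cases t'
  · have := hop false
    have e' := congrArg CommRingCat.Hom.hom (Spec.map_injective ((cancel_mono _).1 hab))
    exact Nbhd.rel_of_eq hγ (sextb_adj false) _ _ χ χ'
      (by simpa using RingHom.congr_fun e' Polynomial.X)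
  · exact P.symm _ _ _ (Nbhd.rel_of_mul hγ (sextb_adj true) N' N χ' χ
      (by simpa using hch _ _ _ hab.symm))
  · exact Nbhd.rel_of_mul hγ (sextb_adj true) N N' χ χ' (by simpa using hch _ _ _ hab)
  · have := hop true
    have e' := congrArg CommRingCat.Hom.hom (Spec.map_injective ((cancel_mono _).1 hab))
    exact Nbhd.rel_of_eq hγ (sextb_adj true) _ _ χ χ'
      (by simpa using RingHom.congr_fun e' Polynomial.X)

end

theorem IsPres.noRat {k : Type u} [Field k] [IsAlgClosed k] {X : Psh.{u}}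
    {π : X ⟶ yoneda.obj (Spec (.of k))} (hX : Presieve.IsSheaf Scheme.etaleTopology X)
    {P : EqRel k} {u : ∀ i, X.obj (op (Spec (.of (P.A i))))} (h : IsPres π P.toPreRel u)
    (hn : ¬ HasRationalCurve π) : P.NoRat := by
  intro σ hσ hγ
  obtain ⟨ch, hop, hsu, hst, hch⟩ := exists_line_charts (k := k)
  choose N 𝔮 h𝔮 using fun (t : Bool) (c : k) => exists_nbhd hγ hσ (sextb_adj t) c
  let g : ∀ i : Bool × k, Spec (.of (N i.1 i.2).C) ⟶ PP k (Fin 2) :=
    fun i => (N i.1 i.2).sextbG ≫ ch i.1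
  have hg : ∀ i, Etale (g i) := fun i => by
    have := (N i.1 i.2).sextb_etale
    have := hop i.1
    infer_instance
  have hs : ∀ p : PP k (Fin 2), ∃ i, p ∈ Set.range (g i) := fun p => by
    obtain ⟨t, q, rfl⟩ := hsu p
    obtain ⟨c, r, rfl⟩ := sextb_surj (sextb_trans t) (N t) (𝔮 t) (h𝔮 t) q
    exact ⟨(t, c), r, Scheme.Hom.comp_apply _ _ _⟩
  have gs : ∀ i, g i ≫ PP.str k _ = Spec.map (CommRingCat.ofHom (algebraMap k (N i.1 i.2).C)) :=
    fun i => by simp only [g, Category.assoc, hst, Nbhd.sextb_str]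
  obtain ⟨z, hz⟩ := exists_glue hX (fun i : Bool × k => Spec (.of (N i.1 i.2).C)) g hg hs
    (fun i => secOf u (N i.1 i.2).τ) fun C i j a b hab => by
      obtain ⟨α, rfl⟩ := Spec.map_surjective a
      obtain ⟨β, rfl⟩ := Spec.map_surjective b
      exact sextb_compat h hγ hop hst hch (N i.1 i.2) (N j.1 j.2) α.hom β.hom hab
  have hf : yonedaEquiv.symm z ≫ π = yoneda.map (PP.str k (Fin 2)) := by
    apply yonedaEquiv.injective
    rw [yonedaEquiv_comp, Equiv.apply_symm_apply, yonedaEquiv_yoneda_map]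
    refine sec_ext (isSheaf_yoneda _) fun p => ?_
    obtain ⟨i, hi⟩ := hs p
    refine ⟨_, g i, hg i, hi, ?_⟩
    have e := sextb_nat (π := π) (g i) z
    rw [hz, sextb_str h, ← gs] at e
    exact e.symm
  have hc : ∀ a b, Pts.ofScheme (yonedaEquiv.symm z) a = Pts.ofScheme (yonedaEquiv.symm z) b := by
    by_contra hne
    push Not at hne
    exact hn ⟨_, hf, hne⟩
  have := (h𝔮 true 0).1
  let ψ : (N true 0).C →ₐ[k] (𝔮 true 0).ResidueField := IsScalarTower.toAlgHom k _ _
  have key : ∀ {L : Type u} [Field L] [Algebra k L] (φ : (N true 0).C →ₐ[k] L),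
      Pts.ofScheme (yonedaEquiv.symm z)
        (imPt (Spec.map (CommRingCat.ofHom φ.toRingHom) ≫ g (true, 0))) =
      Quot.mk _ ⟨L, secOf u ((N true 0).τ.map φ)⟩ := fun φ => by
    rw [Pts.ofScheme_imPt, secOf_map, ← hz (true, 0), ← Functor.map_comp_apply]
    rfl
  have h1 := hc (imPt (Spec.map (CommRingCat.ofHom (N true 0).φ.toRingHom) ≫ g (true, 0)))
    (imPt (Spec.map (CommRingCat.ofHom ψ.toRingHom) ≫ g (true, 0)))
  rw [key, key] at h1
  obtain ⟨L, _, i, j, hij⟩ := Pts.mk_eq_iff.1 h1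
  dsimp only at i j hij
  obtain ⟨_, χ, χ', rfl, rfl⟩ := sextb_alg (k := k) i j (by
    have := congrArg (π.app _) hij
    rwa [sextb_nat, sextb_nat, sextb_str h, sextb_str h] at this)
  rw [← secOf_map, ← secOf_map, ← h.rel] at hij
  have h2 := P.trans _ _ _ _ (P.symm _ _ _ hij) ((N true 0).rel.map χ)
  have h3 : ∀ b, IsSeparable k (ψ b) := fun b =>
    isSeparable_of_etale (N true 0).et ψ.toRingHom (fun f => by
      have y0 : ψ (N true 0).y' = 0 := by
        have := (h𝔮 true 0).2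
        rw [map_zero, sub_zero] at this
        exact Ideal.algebraMap_residueField_eq_zero.2 this
      refine ⟨f.coeff 0, ?_⟩
      change _ = ψ (Polynomial.aeval (N true 0).y' f)
      rw [← Polynomial.aeval_algHom_apply, y0, Polynomial.aeval_def, Polynomial.eval₂_at_zero]) b
  intro a
  have h4 := EqRel.isSeparable_of_rel (F := k) h2 (fun b => (h3 _).map χ' χ'.injective) a
  have h5 : IsIntegral k (σ.2 a) := (isIntegral_algHom_iff χ χ.injective).1 h4.isIntegral
  exact minpoly.mem_range_of_degree_eq_one k _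
    (IsAlgClosed.degree_eq_one_of_irreducible k (minpoly.irreducible h5))

end

end Pool.Agent.Lib.MP_1c03d5_ag
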