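import Pool.Agent.Lib.MP_1c03d5_ag.Sh
import Pool.Agent.Lib.MP_1c03d5_ag.Etp

/-!
# TASK SP1: an atlas of affine charts with coordinates
-/

open CategoryTheory Limits AlgebraicGeometry Opposite

universe u

namespace Pool.Agent.Lib.MP_1c03d5_ag

noncomputable section

/-- An affine chart with coordinates around a point of a scheme over `k`. -/
structure sp1_Chart {k : Type u} [Field k] {U : Scheme.{u}} (s : U ⟶ Spec (.of k)) (y : U) where
  A : Type u
  [cr : CommRing A]
  [alg : Algebra k A]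
  [dom : IsDomain A]
  [ft : Algebra.FiniteType k A]
  n : ℕ
  x : Fin n → A
  et : (MvPolynomial.aeval x : MvPolynomial (Fin n) k →ₐ[k] A).toRingHom.Etale
  v : Spec (.of A) ⟶ U
  oi : IsOpenImmersion v
  mem : y ∈ Set.range v
  str : v ≫ s = Spec.map (CommRingCat.ofHom (algebraMap k A))

attribute [instance] sp1_Chart.cr sp1_Chart.alg sp1_Chart.dom sp1_Chart.ft sp1_Chart.oi

theorem sp1_chart {k : Type u} [Field k] {U : Scheme.{u}} (s : U ⟶ Spec (.of k)) [Smooth s]
    (y : U) : Nonempty (sp1_Chart s y) := by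
  obtain ⟨R, w, hw, ⟨p, rfl⟩, -⟩ :=
    Scheme.exists_affine_mem_range_and_range_subset (U := ⊤) (x := y) trivial
  obtain ⟨φ, hφ⟩ := Spec.map_surjective (w ≫ s)
  have h1 : Smooth (Spec.map φ) := by rw [hφ]; infer_instance
  have h2 : φ.hom.Smooth := (HasRingHomProperty.Spec_iff (P := @Smooth)).1 h1
  let := φ.hom.toAlgebra
  have : Algebra.Smooth k R := h2
  obtain ⟨e, he, hd, n, x, hx⟩ := exists_away_coord (k := k) (A := R) p.asIdeal
  refine ⟨{ A := Localization.Away e, n := n, x := x, et := hx,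
            v := Spec.map (CommRingCat.ofHom (algebraMap R (Localization.Away e))) ≫ w,
            oi := inferInstance, mem := ?_, str := ?_ }⟩
  · have h3 : p ∈ Set.range (PrimeSpectrum.comap (algebraMap R (Localization.Away e))) := by
      rw [PrimeSpectrum.localization_away_comap_range (Localization.Away e) e]
      exact he
    obtain ⟨q, hq⟩ := h3
    exact ⟨q, congrArg w hq⟩
  · rw [Category.assoc, ← hφ, ← Spec.map_comp]
    rfl

theorem sp1_isEt {X : Psh.{u}} {U V : Scheme.{u}} {f : yoneda.obj U ⟶ X} (hf : IsEt f)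
    (v : V ⟶ U) [Etale v] : IsEt (yonedaEquiv.symm (f.app (op V) v)) := by
  have h : yonedaEquiv (yoneda.map v ≫ f) = f.app (op V) v := by
    rw [yonedaEquiv_comp, yonedaEquiv_yoneda_map]
  rw [← h, Equiv.symm_apply_apply]
  exact MorphismProperty.comp_mem _ _ _ (MorphismProperty.relative_map ‹_›) hf

theorem exists_atlas {k : Type u} [Field k] {X : Psh.{u}} {π : X ⟶ yoneda.obj (Spec (.of k))}
    (h1 : IsSmoothSpace π) (h2 : ∃ (U : Scheme.{u}) (f : yoneda.obj U ⟶ X),
      IsEtSurj f ∧ CompactSpace U) :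
    ∃ (F : Fam k) (n : F.ι → ℕ) (x : ∀ i, Fin (n i) → F.A i)
      (u : ∀ i, X.obj (op (Spec (.of (F.A i))))),
      (∀ i, (MvPolynomial.aeval (x i) : MvPolynomial (Fin (n i)) k →ₐ[k] F.A i).toRingHom.Etale) ∧
      (∀ i, π.app _ (u i) = Spec.map (CommRingCat.ofHom (algebraMap k (F.A i)))) ∧
      (∀ i, IsEt (yonedaEquiv.symm (u i))) ∧ LocSurj X (fun i => .of (F.A i)) u := by
  obtain ⟨U, f, hf, hU⟩ := h2
  have hf' : IsEt f := MorphismProperty.relative_monotone inf_le_left _ hf
  have := h1 U f hf'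
  let c : ∀ y : U, sp1_Chart (yoneda.preimage (f ≫ π)) y := fun y => (sp1_chart _ y).some
  obtain ⟨t, ht⟩ := isCompact_univ.elim_finite_subcover (fun y : U => Set.range (c y).v)
    (fun y => (c y).v.isOpenEmbedding.isOpen_range)
    (fun y _ => Set.mem_iUnion.2 ⟨y, (c y).mem⟩)
  let e : Fin t.card → U := fun i => (t.equivFin.symm i).1
  have hcov : ∀ y : U, ∃ i, y ∈ Set.range (c (e i)).v := fun y => by
    obtain ⟨z, hz, h⟩ := Set.mem_iUnion₂.1 (ht (Set.mem_univ y))
    refine ⟨t.equivFin ⟨z, hz⟩, ?_⟩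
    have : e (t.equivFin ⟨z, hz⟩) = z := by simp [e]
    rw [this]
    exact h
  refine ⟨{ ι := Fin t.card, A := fun i => (c (e i)).A }, fun i => (c (e i)).n,
    fun i => (c (e i)).x, fun i => f.app _ (c (e i)).v, fun i => (c (e i)).et, fun i => ?_,
    fun i => ?_, fun T z p => ?_⟩
  · rw [← (c (e i)).str]
    have h := congrArg (fun g : yoneda.obj U ⟶ _ => g.app _ (c (e i)).v)
      (yoneda.map_preimage (f ≫ π))
    exact h.symm
  · exact sp1_isEt hf' (c (e i)).v
  · let g : yoneda.obj T ⟶ X := yonedaEquiv.symm z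
    obtain ⟨hE, hS⟩ := hf.property_snd g
    let a : hf.rep.pullback g ⟶ U := hf.rep.fst' g
    obtain ⟨q, rfl⟩ := (hf.rep.snd g).surjective p
    obtain ⟨i, hi⟩ := hcov (a q)
    refine ⟨pullback a (c (e i)).v, pullback.fst _ _ ≫ hf.rep.snd g, i, pullback.snd _ _,
      inferInstance, ?_, ?_⟩
    · have : q ∈ Set.range (pullback.fst a (c (e i)).v) := by
        rw [Scheme.Pullback.range_fst]
        exact hi
      obtain ⟨r, rfl⟩ := this
      exact ⟨r, rfl⟩
    · have h3 : yoneda.map (pullback.fst a (c (e i)).v ≫ hf.rep.snd g) ≫ g =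
          yoneda.map (pullback.snd a (c (e i)).v) ≫ yoneda.map (c (e i)).v ≫ f := by
        rw [Functor.map_comp, Category.assoc, ← hf.rep.w, ← hf.rep.map_fst', ← Category.assoc,
          ← Category.assoc, ← Functor.map_comp, ← Functor.map_comp, pullback.condition]
      have h4 := congrArg yonedaEquiv h3
      rw [← yonedaEquiv_naturality, ← yonedaEquiv_naturality, yonedaEquiv_comp,
        yonedaEquiv_yoneda_map, Equiv.apply_symm_apply] at h4
      exact h4

end

end Pool.Agent.Lib.MP_1c03d5_ag
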