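import Pool.Agent.Lib.MP_1c03d5_ag.Sh

/-!
# TASK SP2: the equivalence relation of an atlas of a separated space
-/

open CategoryTheory Limits AlgebraicGeometry Opposite

universe u

namespace Pool.Agent.Lib.MP_1c03d5_ag

noncomputable section

/-- The pullback of the diagonal along a pair of maps is the fibre product. -/
lemma sp2_isPullback {D : Type*} [Category D] [HasPullbacks D] {X S U V T Z : D} (π : X ⟶ S)
    (f1 : U ⟶ X) (f2 : V ⟶ X) {p1 : T ⟶ U} {p2 : T ⟶ V}
    (hT : IsPullback p1 p2 (f1 ≫ π) (f2 ≫ π)) {z : Z ⟶ X} {c : Z ⟶ T}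
    (hZ : IsPullback z c (pullback.diagonal π) (pullback.lift (p1 ≫ f1) (p2 ≫ f2)
      (by simpa only [Category.assoc] using hT.w))) :
    IsPullback (c ≫ p1) (c ≫ p2) f1 f2 := by
  have e1 : c ≫ p1 ≫ f1 = z := by
    have := congrArg (· ≫ pullback.fst π π) hZ.w
    simpa [pullback.lift_fst] using this.symm
  have e2 : c ≫ p2 ≫ f2 = z := by
    have := congrArg (· ≫ pullback.snd π π) hZ.w
    simpa [pullback.lift_snd] using this.symm
  have key : ∀ {W : D} (a : W ⟶ U) (b : W ⟶ V), a ≫ f1 = b ≫ f2 →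
      ∃ m : W ⟶ Z, m ≫ c ≫ p1 = a ∧ m ≫ c ≫ p2 = b := by
    intro W a b h
    have h0 : a ≫ f1 ≫ π = b ≫ f2 ≫ π := by rw [← Category.assoc, h, Category.assoc]
    refine ⟨hZ.lift (a ≫ f1) (hT.lift a b h0) ?_, ?_, ?_⟩
    · apply pullback.hom_ext
      · simp [pullback.lift_fst]
      · simp [h, pullback.lift_snd]
    · simp
    · simp
  refine ⟨⟨by simp only [Category.assoc, e1, e2]⟩, ⟨PullbackCone.IsLimit.mk _
    (fun s => (key s.fst s.snd s.condition).choose)
    (fun s => (key s.fst s.snd s.condition).choose_spec.1)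
    (fun s => (key s.fst s.snd s.condition).choose_spec.2) ?_⟩⟩
  intro s m h1 h2
  obtain ⟨h3, h4⟩ := (key s.fst s.snd s.condition).choose_spec
  apply hZ.hom_ext
  · rw [← e1]
    simp only [← Category.assoc] at *
    rw [h1, h3]
  · apply hT.hom_ext
    · simp only [Category.assoc, h1, h3]
    · simp only [Category.assoc, h2, h4]

/-- The fibre product of two affine charts over a separated space is a closed subscheme of the
product. -/
lemma sp2_exists {k : Type u} [Field k] {X : Psh.{u}} {π : X ⟶ yoneda.obj (Spec (.of k))}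
    (hsep : MorphismProperty.presheaf @IsClosedImmersion (pullback.diagonal π))
    (A B : Type u) [CommRing A] [Algebra k A] [CommRing B] [Algebra k B]
    (a : X.obj (op (Spec (.of A)))) (b : X.obj (op (Spec (.of B))))
    (ha : π.app _ a = Spec.map (CommRingCat.ofHom (algebraMap k A)))
    (hb : π.app _ b = Spec.map (CommRingCat.ofHom (algebraMap k B))) :
    ∃ J : Ideal (TensorProduct k A B), IsPullback
      (yoneda.map (Spec.map (CommRingCat.ofHom ((Ideal.Quotient.mkₐ k J).comp
        (Algebra.TensorProduct.includeLeft : A →ₐ[k] TensorProduct k A B)).toRingHom)))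
      (yoneda.map (Spec.map (CommRingCat.ofHom ((Ideal.Quotient.mkₐ k J).comp
        (Algebra.TensorProduct.includeRight : B →ₐ[k] TensorProduct k A B)).toRingHom)))
      (yonedaEquiv.symm a) (yonedaEquiv.symm b) := by
  have ea : yonedaEquiv.symm a ≫ π =
      yoneda.map (Spec.map (CommRingCat.ofHom (algebraMap k A))) := by
    apply yonedaEquiv.injective
    rw [yonedaEquiv_comp, Equiv.apply_symm_apply, ha, yonedaEquiv_yoneda_map]
  have eb : yonedaEquiv.symm b ≫ π =
      yoneda.map (Spec.map (CommRingCat.ofHom (algebraMap k B))) := by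
    apply yonedaEquiv.injective
    rw [yonedaEquiv_comp, Equiv.apply_symm_apply, hb, yonedaEquiv_yoneda_map]
  have hT := (isPullback_SpecMap_of_isPushout _ _ _ _
    (CommRingCat.isPushout_tensorProduct k A B)).map yoneda
  rw [← ea, ← eb] at hT
  set g := pullback.lift (f := π) (g := π) (_ ≫ yonedaEquiv.symm a) (_ ≫ yonedaEquiv.symm b)
    (by simpa only [Category.assoc] using hT.w) with hg
  have hZ := hsep.rep.isPullback g
  have hc : IsClosedImmersion (hsep.rep.snd g) := hsep.property_snd g
  obtain ⟨J, e, he⟩ := IsClosedImmersion.Spec_iff.1 hc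
  refine ⟨J, ?_⟩
  have hP := sp2_isPullback π _ _ hT hZ
  refine hP.of_iso (yoneda.mapIso e) (Iso.refl _) (Iso.refl _) (Iso.refl _) ?_ ?_ (by simp)
    (by simp)
  · rw [he]
    simp only [Iso.refl_hom, Category.comp_id, Functor.mapIso_hom, ← Functor.map_comp,
      Category.assoc, ← Spec.map_comp]
    rfl
  · rw [he]
    simp only [Iso.refl_hom, Category.comp_id, Functor.mapIso_hom, ← Functor.map_comp,
      Category.assoc, ← Spec.map_comp]
    rfl

theorem exists_preRel {k : Type u} [Field k] {X : Psh.{u}} {π : X ⟶ yoneda.obj (Spec (.of k))}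
    (hsep : MorphismProperty.presheaf @IsClosedImmersion (pullback.diagonal π)) (F : Fam k)
    (u : ∀ i, X.obj (op (Spec (.of (F.A i)))))
    (h1 : ∀ i, π.app _ (u i) = Spec.map (CommRingCat.ofHom (algebraMap k (F.A i))))
    (h2 : ∀ i, IsEt (yonedaEquiv.symm (u i))) :
    ∃ J : ∀ i j, Ideal (TensorProduct k (F.A i) (F.A j)),
      (∀ i j, ((⟨F, J⟩ : PreRel k).s i j).toRingHom.Etale) ∧
      (∀ i j, ((⟨F, J⟩ : PreRel k).t i j).toRingHom.Etale) ∧
      ∀ (C : Type u) [CommRing C] [Algebra k C] (σ τ : F.Pt C),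
        (⟨F, J⟩ : PreRel k).Rel σ τ ↔ secOf u σ = secOf u τ := by
  choose J hJ using fun i j => sp2_exists hsep (F.A i) (F.A j) (u i) (u j) (h1 i) (h1 j)
  refine ⟨J, fun i j => ?_, fun i j => ?_, fun C _ _ σ τ => ?_⟩
  · exact (HasRingHomProperty.Spec_iff (P := @Etale)).1
      ((h2 j).property _ _ _ (hJ i j).flip)
  · exact (HasRingHomProperty.Spec_iff (P := @Etale)).1
      ((h2 i).property _ _ _ (hJ i j))
  · have hs : ∀ ρ : F.Pt C, yonedaEquiv.symm (secOf u ρ) =
        yoneda.map (Spec.map (CommRingCat.ofHom ρ.2.toRingHom)) ≫ yonedaEquiv.symm (u ρ.1) :=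
      fun ρ => (yonedaEquiv_symm_naturality_left _ _ _).symm
    constructor
    · intro h
      apply yonedaEquiv.symm.injective
      have e1 : σ.2.toRingHom = h.ev.toRingHom.comp
          ((⟨F, J⟩ : PreRel k).s σ.1 τ.1).toRingHom := by
        ext x
        exact (h.ev_s x).symm
      have e2 : τ.2.toRingHom = h.ev.toRingHom.comp
          ((⟨F, J⟩ : PreRel k).t σ.1 τ.1).toRingHom := by
        ext x
        exact (h.ev_t x).symm
      rw [hs, hs, e1, e2, CommRingCat.ofHom_comp, CommRingCat.ofHom_comp, Spec.map_comp,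
        Spec.map_comp, Functor.map_comp, Functor.map_comp, Category.assoc, Category.assoc]
      exact congrArg _ (hJ σ.1 τ.1).w
    · intro h
      have h' := congrArg yonedaEquiv.symm h
      rw [hs, hs] at h'
      obtain ⟨m, hm⟩ := yoneda.map_surjective ((hJ σ.1 τ.1).lift _ _ h')
      obtain ⟨ψ, rfl⟩ := Spec.map_surjective m
      have e1 := (hJ σ.1 τ.1).lift_fst _ _ h'
      have e2 := (hJ σ.1 τ.1).lift_snd _ _ h'
      rw [← hm, ← Functor.map_comp, ← Spec.map_comp] at e1 e2
      have f1 := congrArg CommRingCat.Hom.hom (Spec.map_injective (yoneda.map_injective e1))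
      have f2 := congrArg CommRingCat.Hom.hom (Spec.map_injective (yoneda.map_injective e2))
      have g1 : ∀ x, ψ.hom (Ideal.Quotient.mk _ (x ⊗ₜ 1)) = σ.2 x := fun x => congr($f1 x)
      have g2 : ∀ x, ψ.hom (Ideal.Quotient.mk _ (1 ⊗ₜ x)) = τ.2 x := fun x => congr($f2 x)
      have key : ∀ x, Algebra.TensorProduct.productMap σ.2 τ.2 x =
          ψ.hom (Ideal.Quotient.mk (J σ.1 τ.1) x) := by
        intro x
        induction x with
        | zero => simp
        | add x y hx hy => simp only [map_add, hx, hy]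
        | tmul x y =>
          rw [Algebra.TensorProduct.productMap_apply_tmul, ← g1, ← g2, ← map_mul, ← map_mul,
            Algebra.TensorProduct.tmul_mul_tmul, mul_one, one_mul]
      intro x hx
      rw [key, Ideal.Quotient.eq_zero_iff_mem.2 hx, map_zero]

end

end Pool.Agent.Lib.MP_1c03d5_ag
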