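import Pool.Agent.Lib.MP_1c03d5_ag.RelL

/-!
# TASK SP3A: closures of related points over a valuation ring
-/

open Algebra.TensorProduct

universe u

namespace Pool.Agent.Lib.MP_1c03d5_ag

noncomputable section

variable {k : Type u} [Field k] {P : PreRel k} {Ω : Type u} [Field Ω] [Algebra k Ω]

theorem finite_rel (hs : ∀ i j, (P.s i j).toRingHom.Etale) (σ : P.Pt Ω) (j : P.ι) :
    {τ : P.A j →ₐ[k] Ω | P.Rel σ ⟨j, τ⟩}.Finite := by
  have h1 := (finite_lifts_of_etale (hs σ.1 j) σ.2.toRingHom).image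
    (fun ψ => ψ.comp (P.t σ.1 j).toRingHom)
  refine (h1.preimage (f := fun τ : P.A j →ₐ[k] Ω => τ.toRingHom)
    (fun _ _ _ _ h => AlgHom.coe_ringHom_injective h)).subset ?_
  intro τ hτ
  refine ⟨(PreRel.Rel.ev hτ).toRingHom, ?_, ?_⟩
  · ext a
    exact PreRel.Rel.ev_s hτ a
  · ext a
    exact PreRel.Rel.ev_t hτ a

/-- A ring map from a tensor product with the valuation ring whose kernel is that of a point comes
from a field extension. -/
theorem sp3a_ext (w : Val k Ω) {Ω' : Type u} [Field Ω'] (g : w.sub →+* Ω')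
    (hg : Function.Injective g) : ∃ j : Ω →+* Ω', ∀ x : w.sub, j x = g x := by
  let e : w.O →+* w.sub :=
    { toFun := fun x => ⟨x.1, x.2⟩
      map_one' := rfl
      map_mul' := fun _ _ => rfl
      map_zero' := rfl
      map_add' := fun _ _ => rfl }
  have he : Function.Injective (g.comp e) := hg.comp fun x y h => Subtype.ext (congrArg Subtype.val h)
  refine ⟨IsFractionRing.lift (K := Ω) he, fun x => ?_⟩
  exact IsFractionRing.lift_algebraMap (K := Ω) he (⟨x.1, x.2⟩ : w.O)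

theorem sp3a_frac (w : Val k Ω) (z : Ω) : ∃ x y : w.sub, (y : Ω) ≠ 0 ∧ z * y = x := by
  rcases w.O.mem_or_inv_mem z with h | h
  · exact ⟨⟨z, h⟩, 1, by simp, by simp⟩
  · by_cases hz : z = 0
    · exact ⟨0, 1, by simp, by simp [hz]⟩
    · exact ⟨1, ⟨z⁻¹, h⟩, inv_ne_zero hz, by simp [hz]⟩

theorem sp3a_comp {A B O C : Type u} [CommRing A] [Algebra k A] [CommRing B] [Algebra k B]
    [CommRing O] [Algebra k O] [CommRing C] [Algebra k C] (s : A →ₐ[k] B) (ρ : B →ₐ[k] C)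
    (o : O →ₐ[k] C) (x : TensorProduct k A O) :
    productMap (ρ.comp s) o x = productMap ρ o (Algebra.TensorProduct.map s (AlgHom.id k O) x) := by
  induction x with
  | zero => simp
  | add a b ha hb => simp only [map_add, ha, hb]
  | tmul a y => simp

theorem sp3a_ker_comp {A B O C C' : Type u} [CommRing A] [Algebra k A] [CommRing B] [Algebra k B]
    [CommRing O] [Algebra k O] [CommRing C] [Algebra k C] [CommRing C'] [Algebra k C']
    (s : A →ₐ[k] B) (ρ : B →ₐ[k] C) (o : O →ₐ[k] C) (ρ' : B →ₐ[k] C') (o' : O →ₐ[k] C')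
    (h : RingHom.ker (productMap ρ o) ≤ RingHom.ker (productMap ρ' o')) :
    RingHom.ker (productMap (ρ.comp s) o) ≤ RingHom.ker (productMap (ρ'.comp s) o') := by
  intro x hx
  rw [RingHom.mem_ker, sp3a_comp] at hx ⊢
  exact h hx

theorem sp3a_core [IsAlgClosed Ω] {A B : Type u} [CommRing A] [Algebra k A] [CommRing B]
    [Algebra k B] (t : A →ₐ[k] B) (ht : t.toRingHom.Etale) (w : Val k Ω) (τ : A →ₐ[k] Ω)
    {L : Type u} [Field L] [Algebra k L] (β : B →ₐ[k] L) (o : w.sub →ₐ[k] L)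
    (hk : RingHom.ker (productMap τ w.sub.val) ≤ RingHom.ker (productMap (β.comp t) o)) :
    ∃ ρ : B →ₐ[k] Ω, ρ.comp t = τ ∧
      RingHom.ker (productMap ρ w.sub.val) ≤ RingHom.ker (productMap β o) := by
  let φ : TensorProduct k A w.sub →ₐ[k] TensorProduct k B w.sub :=
    Algebra.TensorProduct.map t (AlgHom.id k w.sub)
  have hflat : φ.toRingHom.Flat :=
    RingHom.Flat.tensorProductMap (f := t) (g := AlgHom.id k w.sub)
      (RingHom.Etale.iff_flat_and_formallyUnramified.1 ht).1 (RingHom.Flat.id _)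
  have : (RingHom.ker (productMap β o)).IsPrime := RingHom.ker_isPrime _
  have : (RingHom.ker (productMap τ w.sub.val)).IsPrime := RingHom.ker_isPrime _
  obtain ⟨𝔓, h𝔓, hle, hc⟩ := exists_le_comap_eq_of_flat hflat
    (𝔭 := RingHom.ker (productMap τ w.sub.val)) (𝔔 := RingHom.ker (productMap β o)) (by
      intro x hx
      have := hk hx
      rw [RingHom.mem_ker, sp3a_comp] at this
      exact this)
  let ψ := algebraMap (TensorProduct k B w.sub) 𝔓.ResidueField
  have hψ : ∀ x, ψ x = 0 ↔ x ∈ 𝔓 := fun x => Ideal.algebraMap_residueField_eq_zero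
  have hψφ : ∀ x, ψ (φ x) = 0 ↔ productMap τ w.sub.val x = 0 := fun x => by
    rw [hψ, ← RingHom.mem_ker, ← hc]; rfl
  obtain ⟨ι, hι⟩ := sp3a_ext w (ψ.comp (includeRight (R := k) (A := B)).toRingHom) (by
    rw [injective_iff_map_eq_zero]
    intro x hx
    have h1 : ψ (φ (1 ⊗ₜ x)) = 0 := by simpa [φ] using hx
    rw [hψφ] at h1
    simpa using h1)
  obtain ⟨ψ', h1, h2⟩ := exists_lift_of_etale ht ι τ.toRingHom
    (ψ.comp (includeLeftRingHom (R := k) (B := w.sub))) (by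
      ext a
      obtain ⟨x, y, hy, hxy⟩ := sp3a_frac w (τ a)
      have h3 : ψ (φ (a ⊗ₜ y - 1 ⊗ₜ x)) = 0 := by
        rw [hψφ]
        simp [hxy]
      have h4 : ψ (t a ⊗ₜ 1) * ι y = ι x := by
        rw [hι, hι, ← sub_eq_zero, ← h3]
        simp [φ, ← map_mul]
      have h5 : ι y ≠ 0 := by simpa using hy
      apply mul_right_cancel₀ h5
      change ψ (t a ⊗ₜ 1) * ι y = ι (τ a) * ι y
      rw [h4, ← map_mul, hxy])
  have h1' : ∀ a, ψ' (t a) = τ a := fun a => RingHom.congr_fun h1 a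
  let ρ : B →ₐ[k] Ω :=
    { ψ' with
      commutes' := fun c => by
        have := h1' (algebraMap k _ c)
        simpa using this }
  refine ⟨ρ, AlgHom.ext h1', fun x hx => hle ((hψ _).1 ?_)⟩
  have h3 : ∀ z, ι (productMap ρ w.sub.val z) = ψ z := fun z => by
    induction z with
    | zero => simp
    | add a b ha hb => rw [map_add, map_add, map_add, ha, hb]
    | tmul a y =>
      have h4 : ι (ψ' a) = ψ (a ⊗ₜ 1) := RingHom.congr_fun h2 _
      change ι (ψ' a * y) = ψ (a ⊗ₜ y)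
      rw [map_mul, h4, hι]
      simp [← map_mul]
  rw [RingHom.mem_ker] at hx
  rw [← h3, hx, map_zero]

/-- The closure of the points related to `σ` in the base change to the valuation ring is
saturated. -/
theorem rel_saturated [IsAlgClosed Ω] (ht : ∀ i j, (P.t i j).toRingHom.Etale)
    (hsymm : ∀ σ τ : P.Pt Ω, P.Rel σ τ → P.Rel τ σ)
    (htrans : ∀ ρ σ τ : P.Pt Ω, P.Rel ρ σ → P.Rel σ τ → P.Rel ρ τ) (w : Val k Ω) (σ : P.Pt Ω)
    {j j' : P.ι} {τ' : P.A j' →ₐ[k] Ω} (h : P.Rel σ ⟨j', τ'⟩) {L : Type u} [Field L] [Algebra k L]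
    {α : P.A j →ₐ[k] L} {α' : P.A j' →ₐ[k] L} (o : w.sub →ₐ[k] L) (hr : P.Rel ⟨j, α⟩ ⟨j', α'⟩)
    (hk : RingHom.ker (productMap τ' w.sub.val) ≤ RingHom.ker (productMap α' o)) :
    ∃ τ : P.A j →ₐ[k] Ω, P.Rel σ ⟨j, τ⟩ ∧
      RingHom.ker (productMap τ w.sub.val) ≤ RingHom.ker (productMap α o) := by
  have e1 : hr.ev.comp (P.t j j') = α' := AlgHom.ext fun a => PreRel.Rel.ev_t hr a
  have e2 : hr.ev.comp (P.s j j') = α := AlgHom.ext fun a => PreRel.Rel.ev_s hr a
  obtain ⟨ρ, hρ, hle⟩ := sp3a_core (P.t j j') (ht j j') w τ' hr.ev o (by rw [e1]; exact hk)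
  refine ⟨ρ.comp (P.s j j'), ?_, ?_⟩
  · have h3 := PreRel.rel_of_hom ρ
    rw [hρ] at h3
    exact htrans _ _ _ h (hsymm _ _ h3)
  · have := sp3a_ker_comp (P.s j j') ρ w.sub.val hr.ev o hle
    rwa [e2] at this

/-- A point whose closure meets the special fibre has values in the valuation ring. -/
theorem cen_of_ker_le {A : Type u} [CommRing A] [Algebra k A] (w : Val k Ω) (τ : A →ₐ[k] Ω)
    {L : Type u} [Field L] [Algebra k L] (α : A →ₐ[k] L) (o : w.sub →ₐ[k] L)
    (ho : ∀ x : w.sub, w.v x < 1 → o x = 0)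
    (hk : RingHom.ker (productMap τ w.sub.val) ≤ RingHom.ker (productMap α o)) (a : A) :
    τ a ∈ w.O := by
  by_contra ha
  have h0 : τ a ≠ 0 := fun h => ha (h ▸ w.O.zero_mem)
  have hi : (τ a)⁻¹ ∈ w.O := (w.O.mem_or_inv_mem _).resolve_left ha
  have hv : w.v (τ a)⁻¹ < 1 := by
    rw [map_inv₀, inv_lt_one₀ (by simpa [pos_iff_ne_zero] using h0)]
    exact not_le.1 fun h => ha (Val.v_le_one.1 h)
  have h1 : (a ⊗ₜ (⟨(τ a)⁻¹, hi⟩ : w.sub) - 1 : TensorProduct k A w.sub) ∈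
      RingHom.ker (productMap τ w.sub.val) := by
    simp [RingHom.mem_ker, h0]
  have h2 := hk h1
  rw [RingHom.mem_ker, map_sub, map_one, productMap_apply_tmul, ho _ hv] at h2
  simp at h2

end

end Pool.Agent.Lib.MP_1c03d5_ag
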