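import Pool.Agent.Lib.MP_1c03d5_ag.ShP
import Pool.Agent.Lib.MP_1c03d5_ag.SP3A

/-!
# TASK SP3: the valuative criterion from universal closedness
-/

open CategoryTheory Limits AlgebraicGeometry Opposite

universe u

namespace Pool.Agent.Lib.MP_1c03d5_ag

noncomputable section

section aux

open Algebra.TensorProduct TensorProduct

variable {k : Type u} [Field k] {X : Psh.{u}} {π : X ⟶ yoneda.obj (Spec (.of k))}
  {P : PreRel k} {u : ∀ i, X.obj (op (Spec (.of (P.A i))))}
  {Ω : Type u} [Field Ω] [Algebra k Ω]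

/-- The base change of the space to the valuation ring. -/
abbrev sp3_XT (π : X ⟶ yoneda.obj (Spec (.of k))) (w : Val k Ω) : Psh.{u} :=
  pullback π (yoneda.map (Spec.map (CommRingCat.ofHom (algebraMap k w.sub))))

/-- The section `x` of the base change has the components `α` and `o`. -/
def sp3_Comp (π : X ⟶ yoneda.obj (Spec (.of k))) (u : ∀ i, X.obj (op (Spec (.of (P.A i)))))
    (w : Val k Ω) {L : Type u} [Field L] [Algebra k L]
    (x : (sp3_XT π w).obj (op (Spec (.of L)))) (α : P.Pt L) (o : w.sub →ₐ[k] L) : Prop :=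
  (pullback.fst π _ : sp3_XT π w ⟶ _).app _ x = secOf u α ∧
    (pullback.snd π _ : sp3_XT π w ⟶ _).app _ x = Spec.map (CommRingCat.ofHom o.toRingHom)

/-- The point `(α, o)` lies in the closure of a point related to `σ`. -/
def sp3_Cl (w : Val k Ω) (σ : P.Pt Ω) {L : Type u} [Field L] [Algebra k L] (α : P.Pt L)
    (o : w.sub →ₐ[k] L) : Prop :=
  ∃ τ : P.A α.1 →ₐ[k] Ω, P.Rel σ ⟨α.1, τ⟩ ∧
    RingHom.ker (productMap τ w.sub.val) ≤ RingHom.ker (productMap α.2 o)

/-- The closure of the point `σ` in the base change. -/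
def sp3_Z (π : X ⟶ yoneda.obj (Spec (.of k))) (u : ∀ i, X.obj (op (Spec (.of (P.A i)))))
    (w : Val k Ω) (σ : P.Pt Ω) : Set (Pts (sp3_XT π w)) :=
  {z | ∃ (L : Type u) (_ : Field L) (_ : Algebra k L) (x : (sp3_XT π w).obj (op (Spec (.of L))))
    (α : P.Pt L) (o : w.sub →ₐ[k] L), sp3_Comp π u w x α o ∧ sp3_Cl w σ α o ∧
      z = Quot.mk _ ⟨L, x⟩}

theorem sp3_Comp.map {w : Val k Ω} {L L' : Type u} [Field L] [Algebra k L] [Field L']
    {x : (sp3_XT π w).obj (op (Spec (.of L)))} {α : P.Pt L} {o : w.sub →ₐ[k] L}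
    (h : sp3_Comp π u w x α o) (i : L →+* L') :
    (pullback.fst π _ : sp3_XT π w ⟶ _).app _
        ((sp3_XT π w).map (Spec.map (CommRingCat.ofHom i)).op x) =
      X.map (Spec.map (CommRingCat.ofHom i)).op (secOf u α) ∧
    (pullback.snd π _ : sp3_XT π w ⟶ _).app _
        ((sp3_XT π w).map (Spec.map (CommRingCat.ofHom i)).op x) =
      Spec.map (CommRingCat.ofHom (i.comp o.toRingHom)) := by
  refine ⟨?_, ?_⟩
  · rw [NatTrans.naturality_apply, h.1]
  · rw [NatTrans.naturality_apply, h.2, CommRingCat.ofHom_comp, Spec.map_comp]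
    rfl

theorem sp3_ker_comp {A B L L' : Type u} [CommRing A] [Algebra k A] [CommRing B] [Algebra k B]
    [Field L] [Algebra k L] [Field L'] [Algebra k L'] (α : A →ₐ[k] L) (o : B →ₐ[k] L)
    (i : L →ₐ[k] L') :
    RingHom.ker (productMap (i.comp α) (i.comp o)) = RingHom.ker (productMap α o) := by
  have : productMap (i.comp α) (i.comp o) = i.comp (productMap α o) := by
    ext <;> simp
  ext x
  rw [this, RingHom.mem_ker, RingHom.mem_ker, AlgHom.comp_apply, map_eq_zero]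

theorem sp3_mem_iff [IsAlgClosed Ω] (h : IsPres π P u)
    (ht : ∀ i j, (P.t i j).toRingHom.Etale) (w : Val k Ω) (σ : P.Pt Ω) {L : Type u} [Field L]
    [Algebra k L] {x : (sp3_XT π w).obj (op (Spec (.of L)))} {α : P.Pt L} {o : w.sub →ₐ[k] L}
    (hx : sp3_Comp π u w x α o) :
    (Quot.mk _ ⟨L, x⟩ : Pts (sp3_XT π w)) ∈ sp3_Z π u w σ ↔ sp3_Cl w σ α o := by
  refine ⟨?_, fun hc => ⟨L, _, _, x, α, o, hx, hc, rfl⟩⟩
  rintro ⟨L', _, _, x', α', o', hx', ⟨τ', h1, h2⟩, e⟩
  obtain ⟨M, _, i, j, e⟩ := Pts.mk_eq_iff.1 e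
  obtain ⟨a1, a2⟩ := hx.map i
  obtain ⟨b1, b2⟩ := hx'.map j
  dsimp only at e i j
  rw [e] at a1 a2
  have e1 : i.comp o.toRingHom = j.comp o'.toRingHom := by
    have := Spec.map_injective (a2.symm.trans b2)
    exact congrArg CommRingCat.Hom.hom this
  let _ : Algebra k M := (i.comp (algebraMap k L)).toAlgebra
  let i' : L →ₐ[k] M := { i with commutes' := fun _ => rfl }
  let j' : L' →ₐ[k] M :=
    { j with
      commutes' := fun c => by
        have := RingHom.congr_fun e1 (algebraMap k w.sub c)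
        simp only [RingHom.comp_apply, AlgHom.toRingHom_eq_coe, RingHom.coe_coe,
          AlgHom.commutes] at this
        exact this.symm }
  have e2 : i'.comp o = j'.comp o' := AlgHom.ext fun a => RingHom.congr_fun e1 a
  have hr : P.Rel (α.map i') (α'.map j') := by
    rw [h.rel, secOf_map, secOf_map]
    exact a1.symm.trans b1
  obtain ⟨τ, h3, h4⟩ := rel_saturated ht
    (fun σ τ e => (h.rel _ _ _).2 ((h.rel _ _ _).1 e).symm)
    (fun ρ σ τ e e' => (h.rel _ _ _).2 (((h.rel _ _ _).1 e).trans ((h.rel _ _ _).1 e')))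
    w σ h1 (i'.comp o) hr (by rw [e2, sp3_ker_comp]; exact h2)
  exact ⟨τ, h3, by rwa [sp3_ker_comp] at h4⟩

/-- A field valued point of `Spec (A ⊗ B)`. -/
theorem sp3_pt {A B L : Type u} [CommRing A] [Algebra k A] [CommRing B] [Algebra k B] [Field L]
    (s : Spec (.of L) ⟶ Spec (.of (A ⊗[k] B))) : ∃ (_ : Algebra k L) (α : A →ₐ[k] L)
      (o : B →ₐ[k] L), (imPt s).asIdeal = RingHom.ker (productMap α o) ∧
        s ≫ Spec.map (CommRingCat.ofHom includeLeftRingHom) =
          Spec.map (CommRingCat.ofHom α.toRingHom) ∧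
        s ≫ Spec.map (CommRingCat.ofHom (R := B) (S := A ⊗[k] B)
            (AlgHom.toRingHom includeRight)) = Spec.map (CommRingCat.ofHom o.toRingHom) := by
  obtain ⟨φ, rfl⟩ := Spec.map_surjective s
  let _ : Algebra k L := (φ.hom.comp (algebraMap k (A ⊗[k] B))).toAlgebra
  let φ' : A ⊗[k] B →ₐ[k] L := { φ.hom with commutes' := fun _ => rfl }
  refine ⟨inferInstance, φ'.comp includeLeft, φ'.comp includeRight, ?_, ?_, ?_⟩
  · have : productMap (φ'.comp includeLeft) (φ'.comp includeRight) = φ' := by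
      ext <;> simp [← Algebra.TensorProduct.one_def]
    rw [this]
    change (IsLocalRing.maximalIdeal L).comap φ.hom = _
    rw [IsLocalRing.maximalIdeal_eq_bot]
    rfl
  · rw [← Spec.map_comp]; rfl
  · rw [← Spec.map_comp]; rfl

theorem sp3_isClosed [IsAlgClosed Ω] (h : IsPres π P u)
    (hs : ∀ i j, (P.s i j).toRingHom.Etale) (ht : ∀ i j, (P.t i j).toRingHom.Etale)
    (w : Val k Ω) (σ : P.Pt Ω) : IsClosed (sp3_Z π u w σ) := by
  refine Pts.isClosed_iff.2 fun U f _ => ?_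
  rw [← isOpen_compl_iff, isOpen_iff_forall_mem_open]
  intro y hy
  let ξ : (sp3_XT π w).obj (op U) := f.app _ (𝟙 U)
  have hξ : ∀ {W : Scheme.{u}} (s : W ⟶ U), f.app _ s = (sp3_XT π w).map s.op ξ := by
    intro W s
    rw [← NatTrans.naturality_apply]
    simp
  obtain ⟨U', g, i, v, hg, hyg, e⟩ :=
    h.surj U ((pullback.fst π _ : sp3_XT π w ⟶ _).app _ ξ) y
  let q : U ⟶ Spec (.of w.sub) := (pullback.snd π _ : sp3_XT π w ⟶ _).app _ ξ
  have hcomm : v ≫ Spec.map (CommRingCat.ofHom (algebraMap k (P.A i))) =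
      (g ≫ q) ≫ Spec.map (CommRingCat.ofHom (algebraMap k w.sub)) := by
    have e1 := congrArg (π.app _) e
    rw [NatTrans.naturality_apply, NatTrans.naturality_apply, h.str_eq] at e1
    have e2 := congrArg (fun F => F.app _ ξ) (pullback.condition (f := π)
      (g := yoneda.map (Spec.map (CommRingCat.ofHom (algebraMap k w.sub)))))
    refine e1.symm.trans ?_
    rw [Category.assoc]
    exact congrArg (g ≫ ·) e2
  let m : U' ⟶ Spec (.of (P.A i ⊗[k] w.sub)) :=
    pullback.lift v (g ≫ q) hcomm ≫ (pullbackSpecIso k (P.A i) w.sub).hom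
  have m1 : m ≫ Spec.map (CommRingCat.ofHom includeLeftRingHom) = v := by
    rw [Category.assoc, pullbackSpecIso_hom_fst, pullback.lift_fst]
  have m2 : m ≫ Spec.map (CommRingCat.ofHom (R := w.sub) (S := P.A i ⊗[k] w.sub)
      (AlgHom.toRingHom includeRight)) = g ≫ q := by
    rw [Category.assoc, AlgHom.toRingHom_eq_coe, pullbackSpecIso_hom_snd, pullback.lift_snd]
  let C : Set (PrimeSpectrum (P.A i ⊗[k] w.sub)) := ⋃ τ ∈ {τ : P.A i →ₐ[k] Ω | P.Rel σ ⟨i, τ⟩},
    PrimeSpectrum.zeroLocus (RingHom.ker (productMap τ w.sub.val) : Set _)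
  have hC : IsClosed C :=
    (finite_rel hs σ i).isClosed_biUnion fun τ _ => PrimeSpectrum.isClosed_zeroLocus _
  have key : ∀ y' : U', Pts.ofScheme f (g y') ∈ sp3_Z π u w σ ↔ m y' ∈ C := by
    intro y'
    obtain ⟨L, _, s, rfl⟩ : ∃ (L : Type u) (_ : Field L) (s : Spec (.of L) ⟶ U'), imPt s = y' :=
      ⟨U'.residueField y', _, U'.fromSpecResidueField y', Scheme.fromSpecResidueField_apply _ _⟩
    obtain ⟨_, α, o, k1, k2, k3⟩ := sp3_pt (s ≫ m)
    have g1 : g (imPt s) = imPt (s ≫ g) := rfl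
    have g2 : m (imPt s) = imPt (s ≫ m) := rfl
    rw [g1, Pts.ofScheme_imPt, g2]
    refine (sp3_mem_iff h ht w σ (α := ⟨i, α⟩) (o := o) ?_).trans ?_
    · rw [Category.assoc, m1] at k2
      rw [Category.assoc, m2] at k3
      refine ⟨?_, ?_⟩
      · rw [hξ, NatTrans.naturality_apply, op_comp, Functor.map_comp_apply, e,
          ← Functor.map_comp_apply, ← op_comp, k2]
        rfl
      · rw [hξ, NatTrans.naturality_apply, ← k3, ← Category.assoc]
        rfl
    · refine Iff.trans ?_ Set.mem_iUnion₂.symm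
      refine exists_congr fun τ => Iff.trans (and_congr Iff.rfl ?_) exists_prop.symm
      rw [← k1]
      rfl
  refine ⟨g '' (m ⁻¹' Cᶜ), ?_, g.isOpenMap _ (hC.isOpen_compl.preimage m.continuous), ?_⟩
  · rintro _ ⟨y', h1, rfl⟩ h2
    exact h1 ((key y').1 h2)
  · obtain ⟨y', rfl⟩ := hyg
    exact ⟨y', fun h1 => hy ((key y').2 h1), rfl⟩

/-- The maximal ideal of the valuation ring. -/
def sp3_max (w : Val k Ω) : PrimeSpectrum w.sub where
  asIdeal :=
    { carrier := {x | w.v x < 1}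
      add_mem' := fun ha hb => w.v.map_add_lt ha hb
      zero_mem' := by simp
      smul_mem' := fun c x hx => by
        have hc : w.v c ≤ 1 := (w.O.valuation_le_one_iff _).2 c.2
        change w.v (c * x) < 1
        rw [map_mul]
        exact mul_lt_one_of_nonneg_of_lt_one_right hc zero_le hx }
  isPrime := by
    refine ⟨fun e => ?_, fun {a b} hab => ?_⟩
    · have : w.v (1 : w.sub) < 1 := (Ideal.eq_top_iff_one _).1 e
      simp at this
    · have hab : w.v (a * b) < 1 := hab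
      rw [map_mul] at hab
      by_contra hn
      obtain ⟨h1, h2⟩ := not_or.1 hn
      exact hab.not_ge (one_le_mul_of_one_le_of_one_le (not_lt.1 h1) (not_lt.1 h2))

theorem sp3_imPt {B L : Type u} [CommRing B] [Field L] (o : B →+* L) :
    (imPt (Spec.map (CommRingCat.ofHom o))).asIdeal = RingHom.ker o := by
  change (IsLocalRing.maximalIdeal L).comap o = _
  rw [IsLocalRing.maximalIdeal_eq_bot]
  rfl

end aux

theorem IsPres.proper {k : Type u} [Field k] {X : Psh.{u}} {π : X ⟶ yoneda.obj (Spec (.of k))}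
    {P : PreRel k} {u : ∀ i, X.obj (op (Spec (.of (P.A i))))} (h : IsPres π P u)
    (hs : ∀ i j, (P.s i j).toRingHom.Etale) (ht : ∀ i j, (P.t i j).toRingHom.Etale)
    (hc : ∀ (T : Scheme.{u}) (g : T ⟶ Spec (.of k)),
      IsClosedMap (Pts.toScheme (pullback.snd π (yoneda.map g))))
    (hu : ∀ i, IsEt (yonedaEquiv.symm (u i)))
    (Ω : Type u) [Field Ω] [Algebra k Ω] [IsAlgClosed Ω] (w : Val k Ω) (σ : P.Pt Ω) :
    ∃ τ : P.Pt Ω, P.Rel σ τ ∧ τ.Cen w := by
  have h1 := hc _ _ _ (sp3_isClosed h hs ht w σ)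
  have hcomm : yonedaEquiv.symm (secOf u σ) ≫ π =
      yoneda.map (Spec.map (CommRingCat.ofHom w.sub.val.toRingHom)) ≫
        yoneda.map (Spec.map (CommRingCat.ofHom (algebraMap k w.sub))) := by
    apply yonedaEquiv.injective
    rw [yonedaEquiv_comp, Equiv.apply_symm_apply, ← Functor.map_comp, yonedaEquiv_yoneda_map,
      secOf, NatTrans.naturality_apply, h.str_eq]
    change Spec.map _ ≫ Spec.map _ = _
    rw [← Spec.map_comp, ← Spec.map_comp]
    congr 1
    ext c
    simp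
  let x : (sp3_XT π w).obj (op (Spec (.of Ω))) := yonedaEquiv (pullback.lift _ _ hcomm)
  have hx : sp3_Comp π u w x σ w.sub.val := by
    refine ⟨?_, ?_⟩
    · rw [← yonedaEquiv_comp, pullback.lift_fst, Equiv.apply_symm_apply]
    · rw [← yonedaEquiv_comp, pullback.lift_snd, yonedaEquiv_yoneda_map]
  have h2 : (Quot.mk _ ⟨Ω, x⟩ : Pts (sp3_XT π w)) ∈ sp3_Z π u w σ :=
    ⟨Ω, _, _, x, σ, _, hx, ⟨σ.2, (h.rel _ _ _).2 rfl, le_rfl⟩, rfl⟩
  have h3 : imPt (Spec.map (CommRingCat.ofHom w.sub.val.toRingHom)) ⤳ sp3_max w := by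
    refine (PrimeSpectrum.le_iff_specializes _ _).1 ?_
    rw [← PrimeSpectrum.asIdeal_le_asIdeal, sp3_imPt]
    intro a ha
    have : (a : Ω) = 0 := ha
    change w.v a < 1
    rw [this]
    simp
  obtain ⟨_, ⟨L, _, _, x', α, o, hx', ⟨τ, k1, k2⟩, rfl⟩, e⟩ :=
    h3.mem_closed h1 ⟨_, h2, congrArg imPt hx.2⟩
  have e1 : imPt (Spec.map (CommRingCat.ofHom o.toRingHom)) = sp3_max w :=
    (congrArg imPt hx'.2).symm.trans e
  refine ⟨⟨α.1, τ⟩, k1, cen_of_ker_le w τ α.2 o (fun a ha => ?_) k2⟩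
  have : a ∈ (sp3_max w).asIdeal := ha
  rwa [← e1, sp3_imPt] at this

end

end Pool.Agent.Lib.MP_1c03d5_ag
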