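import Pool.Agent.Lib.MP_1c03d5_ag.Core
import Pool.Agent.Lib.MP_1c03d5_ag.SP1
import Pool.Agent.Lib.MP_1c03d5_ag.SP2
import Pool.Agent.Lib.MP_1c03d5_ag.SP3
import Pool.Agent.Lib.MP_1c03d5_ag.SExtB
import Pool.Agent.Lib.MP_1c03d5_ag.SEmb

/-!
# The main theorem
-/

open CategoryTheory Limits AlgebraicGeometry Opposite

universe u

namespace Pool.Agent.Lib.MP_1c03d5_ag

noncomputable section

theorem main (p : ℕ) [Fact p.Prime] (k : Type u) [Field k] [IsAlgClosed k] [CharP k p]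
    (X : Psh.{u}) (π : X ⟶ yoneda.obj (Spec (.of k))) (h1 : IsAlgSpace π) (h2 : IsSmoothSpace π)
    (h3 : IsProperSpace π) (h4 : ¬ IsProjectiveSpace π) : HasRationalCurve π := by
  by_contra hn
  obtain ⟨F, n, x, u, hx, hu, he, hs⟩ := exists_atlas h2 h3.quasiCompact
  obtain ⟨J, hJs, hJt, hr⟩ := exists_preRel h3.separated F u hu he
  have hp : IsPres π ⟨F, J⟩ u := ⟨hu, hs, hr⟩
  let P : Pres k :=
    { toPreRel := ⟨F, J⟩
      et_s := hJs
      et_t := hJt
      refl := fun C _ _ σ => (hr C σ σ).2 rfl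
      symm := fun C _ _ σ τ h => (hr C τ σ).2 ((hr C σ τ).1 h).symm
      trans := fun C _ _ ρ σ τ h h' => (hr C ρ τ).2 (((hr C ρ σ).1 h).trans ((hr C σ τ).1 h'))
      proper := hp.proper hJs hJt h3.universallyClosed he
      n := n
      x := x
      et := hx }
  exact h4 (hp.projective h1.sheaf (P.emb p (IsPres.noRat h1.sheaf (P := P.toEqRel) hp hn)))

end

end Pool.Agent.Lib.MP_1c03d5_ag
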