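import Pool.Agent.Lib.MP_1c03d5_ag.RelL
import Pool.Agent.Lib.MP_1c03d5_ag.Jc

/-!
# TASK OM: the canonical bundle
-/

open MvPolynomial

universe u

namespace Pool.Agent.Lib.MP_1c03d5_ag

noncomputable section

variable {k : Type u} [Field k] (P : CPres k)

theorem CPres.isCoord (i : P.ι) : IsCoord k (P.x i) := isCoord_of_etale (P.et i)

theorem CPres.isCoord_s (i j : P.ι) : IsCoord k (P.s i j ∘ P.x i) :=
  (P.isCoord i).of_etale _ (P.et_s i j)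

theorem CPres.isCoord_t (i j : P.ι) : IsCoord k (P.t i j ∘ P.x j) :=
  (P.isCoord j).of_etale _ (P.et_t i j)

theorem om_ev_jac {T : Type u} [CommRing T] [Algebra k T] {i j : P.ι} {α : P.A i →ₐ[k] T}
    {β : P.A j →ₐ[k] T} (hα : α.toRingHom.Etale) (r : P.Rel ⟨i, α⟩ ⟨j, β⟩) :
    r.ev (jac k (P.s i j ∘ P.x i) (P.t i j ∘ P.x j)) = jac k (α ∘ P.x i) (β ∘ P.x j) := by
  have h1 : r.ev ∘ P.s i j ∘ P.x i = α ∘ P.x i := funext fun a => r.ev_s (P.x i a)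
  have h2 : r.ev ∘ P.t i j ∘ P.x j = β ∘ P.x j := funext fun a => r.ev_t (P.x j a)
  rw [← h1, ← h2]
  exact (P.isCoord_s i j).jac_map r.ev (h1 ▸ (P.isCoord i).of_etale α hα) _

theorem CPres.om_mem : (fun i j => ((P.isCoord_s i j).isUnit_jac (P.isCoord_t i j)).unit) ∈ P.LB := by
  rintro Ω _ _ ⟨i, α'⟩ ⟨j, β'⟩ ⟨l, γ'⟩ h1 h2 h3
  obtain ⟨T, _, _, α, β, γ, hα, hβ, -, r1, r2, H⟩ := EqRel.exists_triple (P := P.toEqRel) i j l
  obtain ⟨χ, rfl, rfl, rfl⟩ := H Ω α' β' γ' h1 h2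
  have r3 := P.trans T _ _ _ r1 r2
  simp only [IsUnit.unit_spec]
  rw [r1.ev_map χ, r2.ev_map χ, r3.ev_map χ, om_ev_jac P hα, om_ev_jac P hβ, om_ev_jac P hα,
    ← map_mul, ((P.isCoord i).of_etale α hα).jac_mul ((P.isCoord j).of_etale β hβ)]

/-- The canonical bundle. -/
def CPres.om : P.LB := ⟨_, P.om_mem⟩

theorem CPres.om_val (i j : P.ι) :
    (P.om.1 i j : P.B i j) = jac k (P.s i j ∘ P.x i) (P.t i j ∘ P.x j) := rfl

end

end Pool.Agent.Lib.MP_1c03d5_ag
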