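import Pool.Agent.Lib.MP_1c03d5_ag.Rel

/-!
# Coordinates, Jacobians, p-bases and the Frobenius trace (definitions only)
-/

open KaehlerDifferential

universe u

namespace Pool.Agent.Lib.MP_1c03d5_ag

noncomputable section

section

variable (k : Type u) [Field k] {R : Type u} [CommRing R] [Algebra k R] {n : ℕ}

/-- The differentials of the `y i` form a basis. -/
def IsCoord (y : Fin n → R) : Prop :=
  LinearIndependent R (fun i => D k R (y i)) ∧
    Submodule.span R (Set.range fun i => D k R (y i)) = ⊤

/-- The Jacobian determinant `det (∂ z / ∂ y)`. -/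
def jac (y z : Fin n → R) : R :=
  Matrix.det (Classical.epsilon fun M : Matrix (Fin n) (Fin n) R =>
    ∀ a, D k R (z a) = ∑ b, M a b • D k R (y b))

/-- A separating transcendence basis. -/
def SepBasis {K : Type u} [Field K] [Algebra k K] (h : Fin n → K) : Prop :=
  IsTranscendenceBasis k h ∧ Algebra.IsSeparable (IntermediateField.adjoin k (Set.range h)) K

variable {k}

/-- The differentials of the `y i` generate the differentials of the valuation ring. -/
def CoordAt {K : Type u} [Field K] [Algebra k K] (w : Val k K) (y : Fin n → K) : Prop :=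
  IsCoord k y ∧ ∃ y' : Fin n → w.sub, (∀ i, (y' i : K) = y i) ∧
    Submodule.span w.sub (Set.range fun i => D k w.sub (y' i)) = ⊤

end

variable {R : Type u} [CommRing R] {n : ℕ}

/-- Monomials with exponents below `q`. -/
def mon {q : ℕ} (y : Fin n → R) (α : Fin n → Fin q) : R := ∏ i, y i ^ (α i : ℕ)

/-- The monomials `y ^ α`, `α < q`, form a basis over the `q`-th powers. -/
def IsPB (q : ℕ) (y : Fin n → R) : Prop :=
  ∀ a : R, ∃! c : (Fin n → Fin q) → R, a = ∑ α, c α ^ q * mon y α

/-- The coefficient roots. -/
def coef (q : ℕ) (y : Fin n → R) (a : R) : (Fin n → Fin q) → R :=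
  Classical.epsilon fun c => a = ∑ α, c α ^ q * mon y α

/-- The Frobenius trace: the coefficient root of `y ^ (q - 1, …, q - 1)`. -/
def Tr (q : ℕ) (y : Fin n → R) (a : R) : R :=
  ∑ α ∈ Finset.univ.filter fun α : Fin n → Fin q => ∀ i, (α i : ℕ) + 1 = q, coef q y a α

/-- Frobenius powers of ideals. -/
def fp (q : ℕ) (I : Ideal R) : Ideal R := Ideal.span ((· ^ q) '' I)

end

end Pool.Agent.Lib.MP_1c03d5_ag
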