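import Pool.Agent.Lib.MP_1c03d5_ag.PB

/-!
# TASK PB1: the calculus of p-bases
-/

universe u

namespace Pool.Agent.Lib.MP_1c03d5_ag

noncomputable section

variable {R R' : Type u} [CommRing R] [CommRing R'] {n : ℕ} {p : ℕ} [Fact p.Prime] [CharP R p]
  {e : ℕ} {y : Fin n → R}

/-- Splitting the exponents by division with remainder. -/
def pb1_split (n q r : ℕ) : (Fin n → Fin q) × (Fin n → Fin r) ≃ (Fin n → Fin (q * r)) :=
  (Equiv.arrowProdEquivProdArrow (Fin n) (fun _ => Fin q) (fun _ => Fin r)).symm.trans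
    (Equiv.piCongrRight fun _ => finProdFinEquiv)

theorem pb1_split_val {q r : ℕ} (α : Fin n → Fin q) (β : Fin n → Fin r) (i : Fin n) :
    (pb1_split n q r (α, β) i : ℕ) = β i + r * α i := rfl

theorem pb1_mon_split {q r : ℕ} (y : Fin n → R') (α : Fin n → Fin q) (β : Fin n → Fin r) :
    mon y (pb1_split n q r (α, β)) = mon y α ^ r * mon y β := by
  simp only [mon, pb1_split_val, ← Finset.prod_pow, ← Finset.prod_mul_distrib]
  exact Finset.prod_congr rfl fun i _ => by ring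

theorem pb1_sum_split {q : ℕ} (y : Fin n → R) (d : (Fin n → Fin (q * p)) → R) :
    ∑ γ, d γ ^ (q * p) * mon y γ =
      ∑ β, (∑ α, d (pb1_split n q p (α, β)) ^ q * mon y α) ^ p * mon y β := by
  rw [← (pb1_split n q p).sum_comp, Fintype.sum_prod_type_right]
  refine Finset.sum_congr rfl fun β _ => ?_
  rw [sum_pow_char, Finset.sum_mul]
  refine Finset.sum_congr rfl fun α _ => ?_
  rw [pb1_mon_split, mul_pow, pow_mul, mul_assoc]

theorem IsPB.eq_sum {q : ℕ} {y : Fin n → R'} (h : IsPB q y) (a : R') :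
    a = ∑ α, coef q y a α ^ q * mon y α :=
  Classical.epsilon_spec (p := fun c : (Fin n → Fin q) → R' => a = ∑ α, c α ^ q * mon y α)
    (h a).exists

theorem IsPB.coef_eq {q : ℕ} {y : Fin n → R'} (h : IsPB q y) {a : R'} {c : (Fin n → Fin q) → R'}
    (hc : a = ∑ α, c α ^ q * mon y α) : coef q y a = c := (h a).unique (h.eq_sum a) hc

theorem pb1_coef_split {q : ℕ} (h : IsPB p y) (h' : IsPB q y) {a : R}
    {d : (Fin n → Fin (q * p)) → R} (hd : a = ∑ γ, d γ ^ (q * p) * mon y γ)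
    (α : Fin n → Fin q) (β : Fin n → Fin p) :
    d (pb1_split n q p (α, β)) = coef q y (coef p y a β) α := by
  rw [pb1_sum_split] at hd
  rw [h.coef_eq hd, h'.coef_eq rfl]

theorem pb1_mul {q : ℕ} (h : IsPB p y) (h' : IsPB q y) : IsPB (q * p) y := fun a => by
  refine ⟨fun γ => coef q y (coef p y a ((pb1_split n q p).symm γ).2) ((pb1_split n q p).symm γ).1,
    ?_, fun d hd => funext fun γ => ?_⟩
  · beta_reduce
    rw [pb1_sum_split]
    simp only [Equiv.symm_apply_apply, ← h'.eq_sum]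
    exact h.eq_sum a
  · rw [← pb1_coef_split h h' hd, Prod.mk.eta, Equiv.apply_symm_apply]

theorem IsPB.pow (h : IsPB p y) (e : ℕ) : IsPB (p ^ e) y := by
  induction e with
  | zero =>
    rw [pow_zero]
    intro a
    have hm : ∀ α : Fin n → Fin 1, mon y α = 1 := fun α => by simp [mon]
    refine ⟨fun _ => a, by simp [hm], fun c hc => funext fun α => ?_⟩
    rw [hc, Fintype.sum_unique, hm, pow_one, mul_one, Subsingleton.elim α default]
  | succ e ih => exact pow_succ p e ▸ pb1_mul h ih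

theorem pb1_Tr_eq {q : ℕ} (y : Fin n → R') (a : R') {β : Fin n → Fin q}
    (hβ : ∀ i, (β i : ℕ) + 1 = q) : Tr q y a = coef q y a β :=
  Finset.sum_eq_single_of_mem β (by simpa using hβ) fun α hα hne => absurd (funext fun i =>
    Fin.ext (Nat.succ_injective (((Finset.mem_filter.1 hα).2 i).trans (hβ i).symm))) hne

theorem pb1_pos (p : ℕ) [Fact p.Prime] (e : ℕ) : 0 < p ^ e :=
  pow_pos (Fact.out : p.Prime).pos e

/-- The top exponent. -/
def pb1_top (n : ℕ) {q : ℕ} (hq : 0 < q) : Fin n → Fin q := fun _ => ⟨q - 1, by omega⟩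

theorem pb1_top_spec {q : ℕ} (hq : 0 < q) (i : Fin n) : (pb1_top n hq i : ℕ) + 1 = q :=
  Nat.sub_add_cancel hq

theorem pb1_coef_add (h : IsPB (p ^ e) y) (a b : R) :
    coef (p ^ e) y (a + b) = coef (p ^ e) y a + coef (p ^ e) y b := by
  refine h.coef_eq ?_
  simp only [Pi.add_apply, add_pow_char_pow, add_mul, Finset.sum_add_distrib, ← h.eq_sum]

theorem pb1_coef_pow_mul {q : ℕ} {y : Fin n → R'} (h : IsPB q y) (a x : R') :
    coef q y (a ^ q * x) = fun α => a * coef q y x α := by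
  refine h.coef_eq ?_
  simp only [mul_pow, mul_assoc, ← Finset.mul_sum, ← h.eq_sum]

theorem IsPB.Tr_add (h : IsPB (p ^ e) y) (a b : R) :
    Tr (p ^ e) y (a + b) = Tr (p ^ e) y a + Tr (p ^ e) y b := by
  simp only [Tr, pb1_coef_add h, Pi.add_apply, Finset.sum_add_distrib]

/-- The trace as an additive map. -/
def IsPB.trHom (h : IsPB (p ^ e) y) : R →+ R := AddMonoidHom.mk' (Tr (p ^ e) y) h.Tr_add

theorem IsPB.Tr_pow_mul (h : IsPB (p ^ e) y) (a x : R) :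
    Tr (p ^ e) y (a ^ p ^ e * x) = a * Tr (p ^ e) y x := by
  simp only [Tr, pb1_coef_pow_mul h, Finset.mul_sum]

theorem pb1_Tr_sum (h : IsPB (p ^ e) y) {ι : Type*} (s : Finset ι) (f : ι → R) :
    Tr (p ^ e) y (∑ i ∈ s, f i) = ∑ i ∈ s, Tr (p ^ e) y (f i) := map_sum h.trHom f s

theorem pb1_coef_mon {q : ℕ} (hq : 0 < q) {y : Fin n → R'} (h : IsPB q y) (β : Fin n → Fin q) :
    coef q y (mon y β) = Pi.single β 1 := by
  refine h.coef_eq ?_
  rw [Finset.sum_eq_single β (fun α _ hne => by simp [hne, hq.ne']) (by simp)]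
  simp

theorem IsPB.Tr_mon (h : IsPB (p ^ e) y) (α β : Fin n → Fin (p ^ e)) :
    Tr (p ^ e) y (mon y (fun i => (α i).rev) * mon y β) = if α = β then 1 else 0 := by
  have hq := pb1_pos p e
  generalize hQ : p ^ e = q at *
  let m : Fin n → ℕ := fun i => (α i).rev + β i
  let γ : Fin n → Fin q := fun i => ⟨m i % q, Nat.mod_lt _ hq⟩
  have h1 : mon y (fun i => (α i).rev) * mon y β = (∏ i, y i ^ (m i / q)) ^ q * mon y γ := by
    simp only [mon, ← Finset.prod_pow, ← Finset.prod_mul_distrib, ← pow_mul, ← pow_add, γ]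
    exact Finset.prod_congr rfl fun i _ => by rw [Nat.div_add_mod']
  rw [h1, pb1_Tr_eq y _ (pb1_top_spec hq), pb1_coef_pow_mul h, pb1_coef_mon hq h]
  have hm : ∀ i, m i + 1 + α i = q + β i := fun i => by
    have := (α i).2
    simp only [m, Fin.val_rev]
    omega
  split_ifs with hαβ
  · subst hαβ
    have h2 : ∀ i, m i < q := fun i => by have := hm i; omega
    have h3 : γ = pb1_top n hq := funext fun i => Fin.ext (by
      have := hm i
      simp only [γ, pb1_top, Nat.mod_eq_of_lt (h2 i)]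
      omega)
    simp [h3, Nat.div_eq_of_lt (h2 _)]
  · have h3 : pb1_top n hq ≠ γ := fun h3 => hαβ (funext fun i => Fin.ext (by
      have h4 : q - 1 = m i % q := congrArg (fun f => (f i : ℕ)) h3
      have h5 := hm i
      have h6 := (α i).2
      have h7 := (β i).2
      rcases lt_or_ge (m i) q with h8 | h8
      · rw [Nat.mod_eq_of_lt h8] at h4
        omega
      · rw [Nat.mod_eq_sub_mod h8, Nat.mod_eq_of_lt (by omega)] at h4
        omega))
    simp [h3]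

theorem IsPB.coef_eq_Tr (h : IsPB (p ^ e) y) (x : R) (α : Fin n → Fin (p ^ e)) :
    coef (p ^ e) y x α = Tr (p ^ e) y (mon y (fun i => (α i).rev) * x) := by
  conv_rhs => rw [h.eq_sum x]
  simp only [Finset.mul_sum, pb1_Tr_sum h, mul_left_comm (mon y fun i => (α i).rev),
    h.Tr_pow_mul, h.Tr_mon]
  simp

theorem IsPB.Tr_succ (h : IsPB p y) (e : ℕ) (x : R) :
    Tr (p ^ (e + 1)) y x = Tr (p ^ e) y (Tr p y x) := by
  have hq := pb1_pos p e
  have hp : 0 < p := (Fact.out : p.Prime).pos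
  rw [pow_succ, pb1_Tr_eq y x (pb1_top_spec hp), pb1_Tr_eq y _ (pb1_top_spec hq),
    ← pb1_coef_split h (h.pow e) ((pb1_mul h (h.pow e)).eq_sum x)]
  refine pb1_Tr_eq y x fun i => ?_
  rw [pb1_split_val]
  have h1 := pb1_top_spec (n := n) hq i
  have h2 := pb1_top_spec (n := n) hp i
  generalize (pb1_top n hq i : ℕ) = a at h1
  generalize (pb1_top n hp i : ℕ) = b at h2
  rw [← h1, ← h2]
  ring

theorem IsPB.Tr_map [CharP R' p] (φ : R →+* R') (h : IsPB (p ^ e) y) (h' : IsPB (p ^ e) (φ ∘ y))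
    (x : R) : φ (Tr (p ^ e) y x) = Tr (p ^ e) (φ ∘ y) (φ x) := by
  have h1 : coef (p ^ e) (φ ∘ y) (φ x) = fun α => φ (coef (p ^ e) y x α) := by
    refine h'.coef_eq ?_
    conv_lhs => rw [h.eq_sum x]
    simp [mon]
  simp only [Tr, h1, map_sum]

theorem IsPB.eq_zero_of_Tr (h : IsPB (p ^ e) y) {u : R}
    (hu : ∀ α : Fin n → Fin (p ^ e), Tr (p ^ e) y (mon y α * u) = 0) : u = 0 := by
  rw [h.eq_sum u]
  simp only [h.coef_eq_Tr, hu, zero_pow (pb1_pos p e).ne', zero_mul, Finset.sum_const_zero]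

theorem pb1_Tr_mem (h : IsPB (p ^ e) y) {I : Ideal R} {x : R} (hx : x ∈ fp (p ^ e) I) (a : R) :
    Tr (p ^ e) y (x * a) ∈ I := by
  induction hx using Submodule.span_induction generalizing a with
  | mem x hx =>
    obtain ⟨b, hb, rfl⟩ := hx
    rw [h.Tr_pow_mul]
    exact I.mul_mem_right _ hb
  | zero =>
    rw [zero_mul, show Tr (p ^ e) y 0 = 0 from map_zero h.trHom]
    exact I.zero_mem
  | add x x' _ _ ih ih' =>
    rw [add_mul, h.Tr_add]
    exact I.add_mem (ih a) (ih' a)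
  | smul r x _ ih =>
    rw [smul_eq_mul, mul_comm r, mul_assoc]
    exact ih _

theorem IsPB.mem_fp_iff (h : IsPB (p ^ e) y) (I : Ideal R) (x : R) :
    x ∈ fp (p ^ e) I ↔ ∀ α, coef (p ^ e) y x α ∈ I := by
  refine ⟨fun hx α => ?_, fun hx => ?_⟩
  · rw [h.coef_eq_Tr, mul_comm]
    exact pb1_Tr_mem h hx _
  · rw [h.eq_sum x]
    exact Ideal.sum_mem _ fun α _ => Ideal.mul_mem_right _ _ (Ideal.subset_span ⟨_, hx α, rfl⟩)

theorem IsPB.mem_fp_of_Tr (h : IsPB (p ^ e) y) {I : Ideal R} {x : R}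
    (hx : ∀ a, Tr (p ^ e) y (x * a) ∈ I) : x ∈ fp (p ^ e) I :=
  (h.mem_fp_iff I x).2 fun α => by rw [h.coef_eq_Tr, mul_comm]; exact hx _

theorem IsPB.mem_of_pow_mem_fp (h : IsPB (p ^ e) y) {I : Ideal R} {x : R}
    (hx : x ^ p ^ e ∈ fp (p ^ e) I) : x ∈ I := by
  have h1 := pb1_Tr_mem h hx (mon y (fun i => (pb1_top n (pb1_pos p e) i).rev) *
    mon y (pb1_top n (pb1_pos p e)))
  rwa [h.Tr_pow_mul, h.Tr_mon, if_pos rfl, mul_one] at h1

theorem IsPB.fp_colon (h : IsPB (p ^ e) y) (I : Ideal R) (b : R) :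
    (fp (p ^ e) I).colon {b ^ p ^ e} = fp (p ^ e) (I.colon {b}) := by
  ext x
  simp only [Submodule.mem_colon_singleton, smul_eq_mul, h.mem_fp_iff, mul_comm x,
    pb1_coef_pow_mul h, mul_comm b]

theorem IsPB.fp_iInf (h : IsPB (p ^ e) y) {ι : Type*} (I : ι → Ideal R) :
    fp (p ^ e) (⨅ i, I i) = ⨅ i, fp (p ^ e) (I i) := by
  ext x
  simp only [h.mem_fp_iff, Ideal.mem_iInf]
  exact forall_comm

theorem pb1_fp_eq (e : ℕ) (I : Ideal R) : fp (p ^ e) I = I.map (iterateFrobenius R p e) := rfl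

theorem fp_span (e : ℕ) (s : Set R) :
    fp (p ^ e) (Ideal.span s) = Ideal.span ((· ^ p ^ e) '' s) := by
  rw [pb1_fp_eq, Ideal.map_span]
  rfl

theorem fp_fp (e e' : ℕ) (I : Ideal R) : fp (p ^ e) (fp (p ^ e') I) = fp (p ^ (e' + e)) I := by
  rw [pb1_fp_eq, pb1_fp_eq, pb1_fp_eq, Ideal.map_map, add_comm, iterateFrobenius_add]

theorem fp_le_pow (q : ℕ) (I : Ideal R') : fp q I ≤ I ^ q :=
  Ideal.span_le.2 fun _ ⟨_, hx, e⟩ => e ▸ Ideal.pow_mem_pow hx q

theorem pb1_fp_le (I : Ideal R) {N e : ℕ} (h : N ≤ e) : fp (p ^ e) I ≤ I ^ N :=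
  (fp_le_pow _ I).trans (Ideal.pow_le_pow_right
    (h.trans (Nat.lt_pow_self (Fact.out : p.Prime).one_lt).le))

/-- High Frobenius powers of an ideal inside a radical. -/
theorem exists_fp_le [IsNoetherianRing R] {I J : Ideal R} (h : I ≤ J.radical) :
    ∃ e0, ∀ e, e0 ≤ e → fp (p ^ e) I ≤ J := by
  obtain ⟨N, hN⟩ := Ideal.exists_pow_le_of_le_radical_of_fg h (IsNoetherian.noetherian I)
  exact ⟨N, fun e he => (pb1_fp_le I he).trans hN⟩

/-- Small powers of a non-zero element are not killed by the trace modulo a prime. -/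
theorem IsPB.exists_Tr_notMem [IsDomain R] [IsNoetherianRing R] (h : IsPB p y) {𝔮 : Ideal R}
    (h𝔮 : 𝔮 ≠ ⊤) {f : R} (hf : f ≠ 0) : ∃ e0, ∀ e, e0 ≤ e → ∀ N, N ≤ p ^ (e - e0) →
      ∃ a, Tr (p ^ e) y (f ^ N * a) ∉ 𝔮 := by
  have h1 : f ∉ ⨅ i : ℕ, 𝔮 ^ i := by
    rw [Ideal.iInf_pow_eq_bot_of_isDomain 𝔮 h𝔮]
    exact hf
  obtain ⟨e0, h0⟩ := not_forall.1 (mt Ideal.mem_iInf.2 h1)
  refine ⟨e0, fun e he N hN => ?_⟩
  by_contra h2
  have h3 : f ^ N ∈ fp (p ^ e) 𝔮 := (h.pow e).mem_fp_of_Tr fun a => by_contra fun h4 => h2 ⟨a, h4⟩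
  have h4 : f ^ p ^ (e - e0) ∈ fp (p ^ (e - e0)) (fp (p ^ e0) 𝔮) := by
    rw [fp_fp, Nat.add_sub_cancel' he, ← Nat.add_sub_cancel' hN, pow_add]
    exact Ideal.mul_mem_right _ _ h3
  exact h0 (pb1_fp_le 𝔮 le_rfl ((h.pow _).mem_of_pow_mem_fp h4))

/-- Semilinear maps are determined by their values on the monomials. -/
theorem IsPB.hom_ext (h : IsPB (p ^ e) y) (ρ : R →+* R') {l l' : R →+ R'}
    (hl : ∀ a x, l (a ^ p ^ e * x) = ρ a * l x) (hl' : ∀ a x, l' (a ^ p ^ e * x) = ρ a * l' x)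
    (hm : ∀ α : Fin n → Fin (p ^ e), l (mon y α) = l' (mon y α)) : l = l' := by
  ext x
  rw [h.eq_sum x]
  simp only [map_sum, hl, hl', hm]

theorem pb1_den {K ι : Type*} [Field K] [Fintype ι] (ρ : R' →+* K) {x : ι → K}
    (hx : ∀ i, ∃ a b, ρ b ≠ 0 ∧ x i * ρ b = ρ a) :
    ∃ b, ∃ a : ι → R', ρ b ≠ 0 ∧ ∀ i, x i * ρ b = ρ (a i) := by
  classical
  choose a b h1 h2 using hx
  refine ⟨∏ i, b i, fun i => a i * ∏ j ∈ Finset.univ.erase i, b j, ?_, fun i => ?_⟩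
  · rw [map_prod]
    exact Finset.prod_ne_zero_iff.2 fun i _ => h1 i
  · rw [← Finset.mul_prod_erase _ _ (Finset.mem_univ i), map_mul, map_mul, ← mul_assoc, h2]

theorem pb1_den_pow {K ι : Type*} [Field K] [Fintype ι] (ρ : R' →+* K) {x : ι → K} {q : ℕ}
    (hq : 0 < q) (hx : ∀ i, ∃ a b, ρ b ≠ 0 ∧ x i * ρ b = ρ a) :
    ∃ b, ∃ a : ι → R', ρ b ≠ 0 ∧ ∀ i, ρ b ^ q * x i = ρ (a i) := by
  obtain ⟨b, a, h1, h2⟩ := pb1_den ρ hx
  obtain ⟨q, rfl⟩ := Nat.exists_eq_succ_of_ne_zero hq.ne'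
  exact ⟨b, fun i => b ^ q * a i, h1, fun i => by rw [map_mul, map_pow, ← h2, pow_succ]; ring⟩

/-- A semilinear functional that kills the kernel is a multiple of the trace. -/
theorem IsPB.desc {K : Type u} [Field K] [CharP K p] {h : Fin n → K} (hh : IsPB (p ^ e) h)
    (ρ : R' →+* K) (F : Subfield K) (hF : ∀ i, h i ∈ F) (htr : ∀ x ∈ F, Tr (p ^ e) h x ∈ F)
    (hρ : ∀ a, ρ a ∈ F) (hfr : ∀ x ∈ F, ∃ a b, ρ b ≠ 0 ∧ x * ρ b = ρ a) (l : R' →+ K)
    (hl : ∀ a x, l (a ^ p ^ e * x) = ρ a * l x) (hk : ∀ x, ρ x = 0 → l x = 0)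
    (hlF : ∀ x, l x ∈ F) : ∃ u ∈ F, ∀ x, l x = Tr (p ^ e) h (u * ρ x) := by
  have hm : ∀ α : Fin n → Fin (p ^ e), mon h α ∈ F := fun α =>
    prod_mem fun i _ => pow_mem (hF i) _
  obtain ⟨b0, a0, h0, h1⟩ := pb1_den_pow ρ (pb1_pos p e) fun α => hfr _ (hm α)
  refine ⟨∑ α, (l (a0 α) / ρ b0) ^ p ^ e * mon h fun i => (α i).rev, sum_mem fun α _ =>
    mul_mem (pow_mem (div_mem (hlF _) (hρ _)) _) (hm _), fun x => ?_⟩
  simp only [Finset.sum_mul, pb1_Tr_sum hh, mul_assoc, hh.Tr_pow_mul, ← hh.coef_eq_Tr]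
  obtain ⟨b, c, h2, h3⟩ := pb1_den ρ (x := coef (p ^ e) h (ρ x)) fun α => hfr _ (by
    rw [hh.coef_eq_Tr]
    exact htr _ (mul_mem (hm _) (hρ x)))
  have h4 : ρ ((b * b0) ^ p ^ e * x - ∑ α, c α ^ p ^ e * a0 α) = 0 := by
    rw [map_sub, map_mul, map_sum, hh.eq_sum (ρ x), Finset.mul_sum, sub_eq_zero]
    refine Finset.sum_congr rfl fun α _ => ?_
    simp only [map_mul, map_pow, ← h1, ← h3, mul_pow]
    ring
  have h5 := hk _ h4
  simp only [map_sub, map_sum, hl, map_mul, sub_eq_zero, ← h3] at h5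
  refine mul_left_cancel₀ (mul_ne_zero h2 h0) ?_
  rw [h5, Finset.mul_sum]
  refine Finset.sum_congr rfl fun α _ => ?_
  field_simp

/-- Uniqueness in `IsPB.desc`. -/
theorem IsPB.desc_unique {K : Type u} [Field K] [CharP K p] {h : Fin n → K} (hh : IsPB (p ^ e) h)
    (ρ : R' →+* K) (hfr : ∀ i, ∃ a b, ρ b ≠ 0 ∧ h i * ρ b = ρ a) {u u' : K}
    (hu : ∀ x, Tr (p ^ e) h (u * ρ x) = Tr (p ^ e) h (u' * ρ x)) : u = u' := by
  obtain ⟨b, a, h1, h2⟩ := pb1_den ρ hfr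
  obtain ⟨b0, a0, h3, h4⟩ := pb1_den_pow ρ (x := fun α : Fin n → Fin (p ^ e) => mon h α)
    (pb1_pos p e) fun α => ⟨∏ i, a i ^ (α i : ℕ), ∏ i, b ^ (α i : ℕ), by
      rw [map_prod]
      exact Finset.prod_ne_zero_iff.2 fun i _ => by rw [map_pow]; exact pow_ne_zero _ h1, by
      simp only [mon, map_prod, map_pow, ← h2, mul_pow, Finset.prod_mul_distrib]⟩
  refine sub_eq_zero.1 (hh.eq_zero_of_Tr fun α => ?_)
  have h5 := hu (a0 α)
  rw [← h4, mul_left_comm, mul_left_comm u', hh.Tr_pow_mul, hh.Tr_pow_mul] at h5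
  rw [mul_sub, show Tr (p ^ e) h (mon h α * u - mon h α * u') = _ from map_sub hh.trHom _ _,
    sub_eq_zero, mul_comm _ u, mul_comm _ u']
  exact mul_left_cancel₀ h3 h5

end

end Pool.Agent.Lib.MP_1c03d5_ag
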