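import Pool.Agent.Lib.MP_1c03d5_ag.RelL
import Pool.Agent.Lib.MP_1c03d5_ag.Etp

/-!
# TASK REFN: refining the charts by localisation
-/

open TensorProduct MvPolynomial

universe u

namespace Pool.Agent.Lib.MP_1c03d5_ag

noncomputable section

variable {k : Type u} [Field k]

/-- Finitely many principal open subsets `D(a j)` of the charts `r j` that cover all charts. -/
structure LocData (F : Fam k) where
  κ : Type
  [fin : Finite κ]
  r : κ → F.ι
  a : ∀ j, F.A (r j)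
  ne : ∀ j, a j ≠ 0
  cover : ∀ (C : Type u) [CommRing C] [Algebra k C] [IsLocalRing C] (σ : F.Pt C),
    ∃ (j : κ) (φ : F.A (r j) →ₐ[k] C), (⟨r j, φ⟩ : F.Pt C) = σ ∧ IsUnit (φ (a j))

attribute [instance] LocData.fin

/-- The localised charts. -/
abbrev LocData.fam {F : Fam k} (Λ : LocData F) : Fam k where
  ι := Λ.κ
  A j := Localization.Away (Λ.a j)
  dom j := IsLocalization.isDomain_localization (powers_le_nonZeroDivisors_of_noZeroDivisors (Λ.ne j))

/-- The localisation maps. -/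
abbrev LocData.φ {F : Fam k} (Λ : LocData F) (j : Λ.κ) : F.A (Λ.r j) →ₐ[k] Λ.fam.A j :=
  IsScalarTower.toAlgHom k _ (Localization.Away (Λ.a j))

theorem LocData.etale {F : Fam k} (Λ : LocData F) (j : Λ.κ) : (Λ.φ j).toRingHom.Etale :=
  (RingHom.etale_algebraMap (R := F.A (Λ.r j)) (S := Localization.Away (Λ.a j))).2
    (Algebra.Etale.of_isLocalizationAway (Λ.a j))

/-- Maps out of a localised ring. -/
lemma refn_lift {A C : Type u} [CommRing A] [Algebra k A] [CommRing C] [Algebra k C] (a : A)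
    (φ : A →ₐ[k] C) (h : IsUnit (φ a)) : ∃ ψ : Localization.Away a →ₐ[k] C,
      ψ.comp (IsScalarTower.toAlgHom k A (Localization.Away a)) = φ :=
  ⟨IsLocalization.Away.liftAlgHom (S := Localization.Away a) a h,
    AlgHom.ext fun x => IsLocalization.Away.lift_eq (g := φ.toRingHom) a h x⟩

lemma refn_ext {A C : Type u} [CommRing A] [Algebra k A] [CommRing C] [Algebra k C] {a : A}
    {ψ ψ' : Localization.Away a →ₐ[k] C}
    (h : ψ.comp (IsScalarTower.toAlgHom k A (Localization.Away a)) =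
      ψ'.comp (IsScalarTower.toAlgHom k A (Localization.Away a))) : ψ = ψ' :=
  IsLocalization.algHom_ext (Submonoid.powers a) h

theorem LocData.cover' {F : Fam k} (Λ : LocData F) (C : Type u) [CommRing C] [Algebra k C]
    [IsLocalRing C] (σ : F.Pt C) :
    ∃ σ' : Λ.fam.Pt C, (⟨Λ.r σ'.1, σ'.2.comp (Λ.φ σ'.1)⟩ : F.Pt C) = σ := by
  obtain ⟨j, φ, rfl, h⟩ := Λ.cover C σ
  obtain ⟨ψ, hψ⟩ := refn_lift (Λ.a j) φ h
  exact ⟨⟨j, ψ⟩, congrArg (Sigma.mk (Λ.r j)) hψ⟩

/-- The localised charts refine the given ones. -/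
abbrev LocData.refines {F : Fam k} (Λ : LocData F) : Refines Λ.fam F :=
  ⟨Λ.r, Λ.φ, Λ.etale, Λ.cover'⟩

/-- Choice of the data from covers of the single charts. -/
theorem exists_locData (F : Fam k) (Q : ∀ i, F.A i → Prop)
    (h : ∀ i (𝔪 : Ideal (F.A i)), 𝔪.IsMaximal → ∃ c ∉ 𝔪, Q i c) :
    ∃ Λ : LocData F, ∀ j, Q _ (Λ.a j) := by
  have key : ∀ i, ∃ (n : ℕ) (g : Fin n → F.A i), (∀ l, Q i (g l) ∧ g l ≠ 0) ∧
      Ideal.span (Set.range g) = ⊤ := by
    intro i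
    have h1 : Ideal.span {c | Q i c ∧ c ≠ 0} = ⊤ := by
      by_contra hne
      obtain ⟨𝔪, h𝔪, hle⟩ := Ideal.exists_le_maximal _ hne
      obtain ⟨c, hc, hQ⟩ := h i 𝔪 h𝔪
      exact hc (hle (Ideal.subset_span ⟨hQ, fun e => hc (e ▸ 𝔪.zero_mem)⟩))
    obtain ⟨T, hT, hT'⟩ := (Ideal.span_eq_top_iff_finite _).1 h1
    obtain ⟨n, g, -, hg⟩ := T.finite_toSet.fin_param
    exact ⟨n, g, fun l => hT (hg ▸ Set.mem_range_self l), hg ▸ hT'⟩
  choose n g hg hs using key
  refine ⟨⟨Σ i, Fin (n i), fun j => j.1, fun j => g j.1 j.2, fun j => (hg _ _).2, ?_⟩,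
    fun j => (hg _ _).1⟩
  rintro C _ _ _ ⟨i, φ⟩
  by_contra hc
  have : Ideal.span (Set.range (g i)) ≤ (IsLocalRing.maximalIdeal C).comap φ := by
    refine Ideal.span_le.2 ?_
    rintro _ ⟨l, rfl⟩
    exact fun hu => hc ⟨⟨i, l⟩, φ, rfl, hu⟩
  rw [hs i, top_le_iff, Ideal.eq_top_iff_one, Ideal.mem_comap, map_one] at this
  exact this isUnit_one

/-- The relation pulled back to the localised charts. -/
abbrev PreRel.refine (P : PreRel k) (Λ : LocData P.toFam) : PreRel k where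
  toFam := Λ.fam
  J i j := (P.J (Λ.r i) (Λ.r j)).map (Algebra.TensorProduct.map (Λ.φ i) (Λ.φ j))

theorem PreRel.refine_rel (P : PreRel k) (Λ : LocData P.toFam) {C : Type u} [CommRing C]
    [Algebra k C] (σ τ : Λ.fam.Pt C) :
    (P.refine Λ).Rel σ τ ↔ P.Rel (Λ.refines.res σ) (Λ.refines.res τ) := by
  have e : (Algebra.TensorProduct.productMap σ.2 τ.2).comp
      (Algebra.TensorProduct.map (Λ.φ σ.1) (Λ.φ τ.1)) =
      Algebra.TensorProduct.productMap (σ.2.comp (Λ.φ σ.1)) (τ.2.comp (Λ.φ τ.1)) := by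
    ext x <;> simp
  constructor
  · intro h x hx
    exact (AlgHom.congr_fun e x).symm.trans (h _ (Ideal.mem_map_of_mem _ hx))
  · intro h x hx
    have : (P.J (Λ.r σ.1) (Λ.r τ.1)).map (Algebra.TensorProduct.map (Λ.φ σ.1) (Λ.φ τ.1)) ≤
        RingHom.ker (Algebra.TensorProduct.productMap σ.2 τ.2) :=
      Ideal.map_le_iff_le_comap.2 fun y hy => (AlgHom.congr_fun e y).trans (h y hy)
    exact this hx

/-- The refined relation ring is a localisation of the given one. -/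
lemma refn_loc (P : PreRel k) (Λ : LocData P.toFam) (i j : Λ.κ) :
    ∃ (c : P.B (Λ.r i) (Λ.r j)) (u : Localization.Away c →ₐ[k] (P.refine Λ).B i j),
      c = P.s _ _ (Λ.a i) * P.t _ _ (Λ.a j) ∧ Function.Bijective u ∧
      (u.comp (IsScalarTower.toAlgHom k (P.B (Λ.r i) (Λ.r j)) _)).comp (P.s _ _) =
        ((P.refine Λ).s i j).comp (Λ.φ i) ∧
      (u.comp (IsScalarTower.toAlgHom k (P.B (Λ.r i) (Λ.r j)) _)).comp (P.t _ _) =
        ((P.refine Λ).t i j).comp (Λ.φ j) := by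
  let c : P.B (Λ.r i) (Λ.r j) := P.s _ _ (Λ.a i) * P.t _ _ (Λ.a j)
  let ι : P.B (Λ.r i) (Λ.r j) →ₐ[k] Localization.Away c := IsScalarTower.toAlgHom k _ _
  have h := (P.refine_rel Λ _ _).1 (PreRel.rel_st (P := P.refine Λ) i j)
  have hs : h.ev.comp (P.s _ _) = ((P.refine Λ).s i j).comp (Λ.φ i) := AlgHom.ext h.ev_s
  have ht : h.ev.comp (P.t _ _) = ((P.refine Λ).t i j).comp (Λ.φ j) := AlgHom.ext h.ev_t
  have hu : IsUnit (h.ev c) := by
    rw [map_mul, h.ev_s, h.ev_t]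
    exact ((IsLocalization.Away.algebraMap_isUnit (S := Localization.Away (Λ.a i))
      (Λ.a i)).map ((P.refine Λ).s i j)).mul
      ((IsLocalization.Away.algebraMap_isUnit (S := Localization.Away (Λ.a j))
        (Λ.a j)).map ((P.refine Λ).t i j))
  obtain ⟨u, hu'⟩ := refn_lift c h.ev hu
  have hc : IsUnit (ι (P.s _ _ (Λ.a i)) * ι (P.t _ _ (Λ.a j))) := by
    rw [← map_mul]
    exact IsLocalization.Away.algebraMap_isUnit (S := Localization.Away c) c
  obtain ⟨σ, hσ⟩ := refn_lift (Λ.a i) (ι.comp (P.s _ _)) (isUnit_of_mul_isUnit_left hc)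
  obtain ⟨τ, hτ⟩ := refn_lift (Λ.a j) (ι.comp (P.t _ _)) (isUnit_of_mul_isUnit_right hc)
  have h2 : (P.refine Λ).Rel ⟨i, σ⟩ ⟨j, τ⟩ := by
    refine (P.refine_rel Λ ⟨i, σ⟩ ⟨j, τ⟩).2 ?_
    show P.Rel ⟨Λ.r i, σ.comp (IsScalarTower.toAlgHom k _ _)⟩
      ⟨Λ.r j, τ.comp (IsScalarTower.toAlgHom k _ _)⟩
    rw [hσ, hτ]
    exact PreRel.rel_of_hom ι
  have vs : h2.ev.comp ((P.refine Λ).s i j) = σ := AlgHom.ext h2.ev_s
  have vt : h2.ev.comp ((P.refine Λ).t i j) = τ := AlgHom.ext h2.ev_t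
  have hvu : h2.ev.comp u = AlgHom.id k _ := by
    refine refn_ext ?_
    rw [AlgHom.comp_assoc, hu', AlgHom.id_comp]
    refine PreRel.hom_ext ?_ ?_
    · rw [AlgHom.comp_assoc, hs, ← AlgHom.comp_assoc, vs]
      exact hσ
    · rw [AlgHom.comp_assoc, ht, ← AlgHom.comp_assoc, vt]
      exact hτ
  have huv : u.comp h2.ev = AlgHom.id k _ := by
    refine PreRel.hom_ext (P := P.refine Λ) ?_ ?_
    · rw [AlgHom.comp_assoc, vs, AlgHom.id_comp]
      refine refn_ext ?_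
      rw [AlgHom.comp_assoc, hσ, ← AlgHom.comp_assoc, hu']
      exact hs
    · rw [AlgHom.comp_assoc, vt, AlgHom.id_comp]
      refine refn_ext ?_
      rw [AlgHom.comp_assoc, hτ, ← AlgHom.comp_assoc, hu']
      exact ht
  refine ⟨c, u, rfl, Function.bijective_iff_has_inverse.2
    ⟨h2.ev, AlgHom.congr_fun hvu, AlgHom.congr_fun huv⟩, ?_, ?_⟩
  · rw [hu']
    exact hs
  · rw [hu']
    exact ht

lemma refn_cancel {R A B : Type u} [CommRing R] [CommRing A] [CommRing B] {f : R →+* A}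
    {g : A →+* B} (hf : f.Etale) (h : (g.comp f).Etale) : g.Etale := by
  algebraize [f, g, g.comp f]
  exact Algebra.Etale.of_restrictScalars R A B

lemma refn_et {R B L : Type u} [CommRing R] [CommRing B] [CommRing L] [Algebra k R] [Algebra k B]
    [Algebra k L] {c : B} {u : Localization.Away c →ₐ[k] L} (hu : Function.Bijective u)
    {s : R →ₐ[k] B} (hs : s.toRingHom.Etale) :
    ((u.comp (IsScalarTower.toAlgHom k _ _)).comp s).toRingHom.Etale :=
  RingHom.Etale.stableUnderComposition _ _ hs (RingHom.Etale.stableUnderComposition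
    (algebraMap B (Localization.Away c)) u.toRingHom
    (RingHom.etale_algebraMap.2 (Algebra.Etale.of_isLocalizationAway c))
    (RingHom.Etale.of_bijective hu))

variable (P : CPres k) (Λ : LocData P.toFam)

theorem CPres.refine_et_s (i j) : ((P.toPreRel.refine Λ).s i j).toRingHom.Etale := by
  obtain ⟨c, u, -, hu, hs, -⟩ := refn_loc P.toPreRel Λ i j
  have := refn_et hu (P.et_s (Λ.r i) (Λ.r j))
  rw [hs] at this
  exact refn_cancel (Λ.etale i) this

theorem CPres.refine_et_t (i j) : ((P.toPreRel.refine Λ).t i j).toRingHom.Etale := by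
  obtain ⟨c, u, -, hu, -, ht⟩ := refn_loc P.toPreRel Λ i j
  have := refn_et hu (P.et_t (Λ.r i) (Λ.r j))
  rw [ht] at this
  exact refn_cancel (Λ.etale j) this

theorem CPres.refine_proper (Ω : Type u) [Field Ω] [Algebra k Ω] [IsAlgClosed Ω] (w : Val k Ω)
    (σ : Λ.fam.Pt Ω) : ∃ τ : Λ.fam.Pt Ω, (P.toPreRel.refine Λ).Rel σ τ ∧ τ.Cen w := by
  obtain ⟨τ, h, hc⟩ := P.proper Ω w (Λ.refines.res σ)
  have : IsLocalRing w.sub := inferInstanceAs (IsLocalRing w.O)
  obtain ⟨σ', e⟩ := Λ.cover' w.sub ⟨τ.1, τ.2.codRestrict w.sub hc⟩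
  have e' : Λ.refines.res (σ'.map w.sub.val) = τ :=
    congrArg (fun ρ : P.toFam.Pt w.sub => ρ.map w.sub.val) e
  refine ⟨σ'.map w.sub.val, (P.refine_rel Λ _ _).2 ?_, fun a => (σ'.2 a).2⟩
  rw [e']
  exact h

theorem CPres.refine_et (i) : (aeval (Λ.φ i ∘ P.x (Λ.r i)) :
    MvPolynomial (Fin P.n) k →ₐ[k] Λ.fam.A i).toRingHom.Etale := by
  have e : (aeval (Λ.φ i ∘ P.x (Λ.r i)) : MvPolynomial (Fin P.n) k →ₐ[k] Λ.fam.A i) =
      (Λ.φ i).comp (aeval (P.x (Λ.r i))) := by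
    ext l
    simp
  rw [e]
  exact RingHom.Etale.stableUnderComposition _ _ (P.et (Λ.r i)) (Λ.etale i)

theorem CPres.refine_conn (i j) : (P.toPreRel.refine Λ).J i j ≠ ⊤ := by
  obtain ⟨c, u, hc, hu, -, -⟩ := refn_loc P.toPreRel Λ i j
  have h0 : c ∈ nonZeroDivisors (P.B (Λ.r i) (Λ.r j)) := by
    rw [hc]
    exact mul_mem
      (map_ne_zero_divisor_of_flat
        (RingHom.Etale.iff_flat_and_formallyUnramified.1 (P.et_s _ _)).1
        (mem_nonZeroDivisors_of_ne_zero (Λ.ne i)))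
      (map_ne_zero_divisor_of_flat
        (RingHom.Etale.iff_flat_and_formallyUnramified.1 (P.et_t _ _)).1
        (mem_nonZeroDivisors_of_ne_zero (Λ.ne j)))
  have h1 : Nontrivial (Localization.Away c) :=
    (IsLocalization.injective (M := Submonoid.powers c) (Localization.Away c)
      (Submonoid.powers_le.2 h0)).nontrivial
  exact Ideal.Quotient.nontrivial_iff.1 hu.1.nontrivial

theorem CPres.refine_ne : Nonempty Λ.κ := by
  obtain ⟨i⟩ := P.ne
  obtain ⟨j, -⟩ := Λ.cover (FractionRing (P.A i)) ⟨i, IsScalarTower.toAlgHom k _ _⟩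
  exact ⟨j⟩

/-- The refined presentation. -/
abbrev CPres.refine : CPres k where
  toPreRel := P.toPreRel.refine Λ
  et_s := P.refine_et_s Λ
  et_t := P.refine_et_t Λ
  refl C _ _ σ := (P.refine_rel Λ σ σ).2 (P.refl C _)
  symm C _ _ σ τ h := (P.refine_rel Λ τ σ).2 (P.symm C _ _ ((P.refine_rel Λ σ τ).1 h))
  trans C _ _ ρ σ τ h h' := (P.refine_rel Λ ρ τ).2
    (P.trans C _ _ _ ((P.refine_rel Λ ρ σ).1 h) ((P.refine_rel Λ σ τ).1 h'))
  proper := P.refine_proper Λ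
  n := P.n
  x i := Λ.φ i ∘ P.x (Λ.r i)
  et := P.refine_et Λ
  conn := P.refine_conn Λ
  ne := P.refine_ne Λ

end

end Pool.Agent.Lib.MP_1c03d5_ag
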