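import Pool.Agent.Lib.MP_1c03d5_ag.Val

/-!
# TASK VER: Veronese generators of a ring of invariants, separating forms
-/

open MvPolynomial

universe u

namespace Pool.Agent.Lib.MP_1c03d5_ag

noncomputable section

variable {k K : Type u} [Field k] [Field K] [Algebra k K]

lemma ver_split {ι : Type*} [Fintype ι] {d : ι → ℕ} {L : ℕ} (hL : 0 < L) (hd : ∀ i, d i ∣ L)
    (j : ℕ) (a : ι → ℕ) (h : (Fintype.card ι + j) * L ≤ ∑ i, a i * d i) :
    ∃ b c : ι → ℕ, a = b + c ∧ ∑ i, b i * d i = j * L := by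
  classical
  induction j with
  | zero => exact ⟨0, a, by simp, by simp⟩
  | succ j ih =>
    obtain ⟨b, c, rfl, hb⟩ := ih (le_trans (Nat.mul_le_mul_right _ (by omega)) h)
    simp only [Pi.add_apply, add_mul, Finset.sum_add_distrib, hb] at h
    obtain ⟨i, hi⟩ : ∃ i, L ≤ c i * d i := by
      by_contra hn
      have := Finset.sum_le_card_nsmul Finset.univ (fun i => c i * d i) L
        fun i _ => (not_le.1 fun h => hn ⟨i, h⟩).le
      rw [Finset.card_univ, smul_eq_mul] at this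
      omega
    obtain ⟨e, he⟩ := hd i
    have h1 : e ≤ c i := by
      refine Nat.le_of_mul_le_mul_right ?_ (Nat.pos_of_mul_pos_right (he ▸ hL) : 0 < d i)
      rwa [mul_comm, ← he]
    refine ⟨b + Pi.single i e, c - Pi.single i e, funext fun l => ?_, ?_⟩
    · by_cases hl : l = i
      · subst hl
        simp only [Pi.add_apply, Pi.sub_apply, Pi.single_eq_same]
        omega
      · simp [hl]
    · simp only [Pi.add_apply, add_mul, Finset.sum_add_distrib, hb, one_mul]
      rw [Finset.sum_eq_single i (fun l _ hl => by simp [hl]) (by simp), Pi.single_eq_same, he,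
        mul_comm e]

/-- A multiplicative family of subspaces. -/
structure VerGr (B : ℕ → Submodule k K) : Prop where
  one : 1 ∈ B 0
  mul : ∀ {m n : ℕ} {x y : K}, x ∈ B m → y ∈ B n → x * y ∈ B (m + n)

lemma VerGr.pow {B : ℕ → Submodule k K} (h : VerGr B) {m : ℕ} {x : K} (hx : x ∈ B m) (n : ℕ) :
    x ^ n ∈ B (n * m) := by
  induction n with
  | zero => simpa using h.one
  | succ n ih =>
    rw [pow_succ, add_mul, one_mul]
    exact h.mul ih hx

lemma VerGr.prod {B : ℕ → Submodule k K} (h : VerGr B) {ι : Type*} (s : Finset ι) {d : ι → ℕ}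
    {g : ι → K} (hg : ∀ i, g i ∈ B (d i)) : ∏ i ∈ s, g i ∈ B (∑ i ∈ s, d i) := by
  classical
  induction s using Finset.induction_on with
  | empty => simpa using h.one
  | insert i s hi ih =>
    rw [Finset.prod_insert hi, Finset.sum_insert hi]
    exact h.mul (hg i) ih

lemma VerGr.prod_pow {B : ℕ → Submodule k K} (h : VerGr B) {ι : Type*} [Fintype ι] {d : ι → ℕ}
    {g : ι → K} (hg : ∀ i, g i ∈ B (d i)) {L : ℕ} (hL : 0 < L) (hd : ∀ i, d i ∣ L) (n : ℕ)
    (a : ι → ℕ) (ha : ∑ i, a i * d i = n * ((Fintype.card ι + 1) * L)) :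
    ∏ i, g i ^ a i ∈ B ((Fintype.card ι + 1) * L) ^ n := by
  induction n generalizing a with
  | zero =>
    have : ∀ i, a i = 0 := fun i => by
      rw [zero_mul, Finset.sum_eq_zero_iff] at ha
      exact (mul_eq_zero.1 (ha i (Finset.mem_univ i))).resolve_right
        (Nat.pos_of_dvd_of_pos (hd i) hL).ne'
    simp [this, Submodule.one_le.1 le_rfl]
  | succ n ih =>
    obtain ⟨b, c, rfl, hb⟩ : ∃ b c : ι → ℕ, a = b + c ∧
        ∑ i, b i * d i = (Fintype.card ι + 1) * L := by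
      rcases n with _ | n
      · exact ⟨a, 0, by simp, by simpa using ha⟩
      · refine ver_split hL hd _ a ?_
        rw [ha]
        nlinarith [Nat.zero_le (n * ((Fintype.card ι + 1) * L))]
    simp only [Pi.add_apply, pow_add, Finset.prod_mul_distrib, pow_one]
    rw [mul_comm (∏ i, g i ^ b i)]
    refine Submodule.mul_mem_mul (ih c ?_) (hb ▸ h.prod _ fun i => h.pow (hg i) (b i))
    simp only [Pi.add_apply, add_mul (b _), Finset.sum_add_distrib, hb] at ha
    rw [add_mul n, one_mul] at ha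
    omega

/-- The graded algebra of a multiplicative family. -/
def VerGr.alg {B : ℕ → Submodule k K} (h : VerGr B) : Subalgebra k (Polynomial K) where
  carrier := {p | ∀ n, p.coeff n ∈ B n}
  mul_mem' hp hq n := by
    rw [Polynomial.coeff_mul]
    exact sum_mem fun c hc => Finset.HasAntidiagonal.mem_antidiagonal.1 hc ▸ h.mul (hp _) (hq _)
  add_mem' hp hq n := by
    rw [Polynomial.coeff_add]
    exact add_mem (hp n) (hq n)
  algebraMap_mem' r n := by
    rw [Polynomial.algebraMap_apply, Polynomial.coeff_C]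
    split_ifs with h0
    · rw [h0, Algebra.algebraMap_eq_smul_one]
      exact Submodule.smul_mem _ _ h.one
    · exact zero_mem _

lemma VerGr.monomial_mem {B : ℕ → Submodule k K} (h : VerGr B) {n : ℕ} {x : K} (hx : x ∈ B n) :
    Polynomial.monomial n x ∈ h.alg := fun m => by
  rw [Polynomial.coeff_monomial]
  split_ifs with h0
  · exact h0 ▸ hx
  · exact zero_mem _

/-- A finitely generated graded algebra has a Veronese subalgebra generated in degree one. -/
lemma VerGr.exists_pow {B : ℕ → Submodule k K} (h : VerGr B) (h0 : B 0 ≤ 1) (hf : h.alg.FG) :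
    ∃ D, 0 < D ∧ ∀ n, B (n * D) ≤ B D ^ n := by
  classical
  obtain ⟨s, hs⟩ := hf
  let S : Finset (Polynomial K × ℕ) := s.biUnion fun p => (p.support.erase 0).image (p, ·)
  have hS : ∀ i ∈ S, i.1 ∈ h.alg ∧ 0 < i.2 := fun i hi => by
    simp only [S, Finset.mem_biUnion, Finset.mem_image, Finset.mem_erase] at hi
    obtain ⟨p, hp, n, hn, rfl⟩ := hi
    exact ⟨hs ▸ Algebra.subset_adjoin hp, Nat.pos_of_ne_zero hn.1⟩
  have hL : 0 < ∏ i : S, i.1.2 := Finset.prod_pos fun i _ => (hS i.1 i.2).2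
  have hle : h.alg ≤ Algebra.adjoin k
      (Set.range fun i : S => Polynomial.monomial i.1.2 (i.1.1.coeff i.1.2)) := by
    rw [← hs]
    refine Algebra.adjoin_le fun p hp => ?_
    rw [p.as_sum_support]
    refine sum_mem fun n hn => ?_
    rcases eq_or_ne n 0 with rfl | h1
    · obtain ⟨c, hc⟩ := Submodule.mem_one.1 (h0 ((hs ▸ Algebra.subset_adjoin hp : p ∈ h.alg) 0))
      rw [← hc, Polynomial.monomial_zero_left, ← Polynomial.algebraMap_apply]
      exact algebraMap_mem _ c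
    · exact Algebra.subset_adjoin ⟨⟨(p, n), Finset.mem_biUnion.2 ⟨p, hp, Finset.mem_image_of_mem _
        (Finset.mem_erase.2 ⟨h1, hn⟩)⟩⟩, rfl⟩
  refine ⟨(Fintype.card S + 1) * ∏ i : S, i.1.2, by positivity, fun n x hx => ?_⟩
  have h1 := hle (h.monomial_mem hx)
  rw [← Subalgebra.mem_toSubmodule, Algebra.adjoin_eq_span] at h1
  have h2 : ∀ p ∈ Submodule.span k (Submonoid.closure (Set.range fun i : S =>
      Polynomial.monomial i.1.2 (i.1.1.coeff i.1.2)) : Set (Polynomial K)),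
      p.coeff (n * ((Fintype.card S + 1) * ∏ i : S, i.1.2)) ∈
        B ((Fintype.card S + 1) * ∏ i : S, i.1.2) ^ n := fun p hp => by
    induction hp using Submodule.span_induction with
    | mem p hp =>
      obtain ⟨a, rfl⟩ := Submonoid.exists_of_mem_closure_range _ _ hp
      simp only [← Polynomial.C_mul_X_pow_eq_monomial, mul_pow, Finset.prod_mul_distrib,
        ← map_pow, ← map_prod, ← pow_mul, Finset.prod_pow_eq_pow_sum, Polynomial.coeff_C_mul_X_pow]
      split_ifs with h3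
      · exact h.prod_pow (fun i => (hS i.1 i.2).1 _) hL
          (fun i => Finset.dvd_prod_of_mem _ (Finset.mem_univ i)) n a
          (by simpa only [mul_comm (a _)] using h3.symm)
      · exact zero_mem _
    | zero => simp
    | add p q _ _ hp hq => exact Polynomial.coeff_add p q _ ▸ add_mem hp hq
    | smul c p _ hp => exact Polynomial.coeff_smul c p _ ▸ Submodule.smul_mem _ c hp
  simpa using h2 _ h1

lemma ver_gr_pow (H : Submodule k K) : VerGr fun n => H ^ n :=
  ⟨by simp, fun hx hy => pow_add H _ _ ▸ Submodule.mul_mem_mul hx hy⟩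

lemma ver_fg_pow {H : Submodule k K} (hH : H.FG) : (ver_gr_pow H).alg.FG := by
  classical
  obtain ⟨s, hs⟩ := hH
  refine ⟨s.image (Polynomial.monomial 1), le_antisymm (Algebra.adjoin_le ?_) fun p hp => ?_⟩
  · rw [Finset.coe_image]
    rintro _ ⟨x, hx, rfl⟩
    exact (ver_gr_pow H).monomial_mem (by simpa [← hs] using Submodule.subset_span hx)
  have h1 : ∀ x ∈ H, Polynomial.monomial 1 x ∈
      Algebra.adjoin k (s.image (Polynomial.monomial 1) : Set (Polynomial K)) := fun x hx => by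
    rw [← hs] at hx
    induction hx using Submodule.span_induction with
    | mem x hx => exact Algebra.subset_adjoin (Finset.mem_image_of_mem _ hx)
    | zero => simp
    | add x y _ _ hx hy => exact map_add (Polynomial.monomial 1) x y ▸ add_mem hx hy
    | smul c x _ hx => exact Polynomial.smul_monomial c 1 x ▸ Subalgebra.smul_mem _ hx c
  have h2 : ∀ n, ∀ x ∈ H ^ n, Polynomial.monomial n x ∈
      Algebra.adjoin k (s.image (Polynomial.monomial 1) : Set (Polynomial K)) := fun n x hx => by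
    induction hx using Submodule.pow_induction_on_left' with
    | algebraMap c =>
      rw [Polynomial.monomial_zero_left, ← Polynomial.algebraMap_apply]
      exact algebraMap_mem _ c
    | add x y i _ _ hx hy => exact map_add (Polynomial.monomial i) x y ▸ add_mem hx hy
    | mem_mul m hm i x _ hx =>
      rw [Nat.succ_eq_one_add, ← Polynomial.monomial_mul_monomial]
      exact mul_mem (h1 m hm) hx
  rw [p.as_sum_support]
  exact sum_mem fun n _ => h2 n _ (hp n)

lemma ver_map_pow {H : Submodule k K} {γ : K ≃ₐ[k] K} (h : ∀ x ∈ H, γ x ∈ H) (n : ℕ) :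
    ∀ x ∈ H ^ n, γ x ∈ H ^ n := fun x hx => by
  induction hx using Submodule.pow_induction_on_left' with
  | algebraMap c => simp
  | add x y i _ _ hx hy => exact map_add γ x y ▸ add_mem hx hy
  | mem_mul m hm i x _ hx =>
    rw [map_mul, pow_succ']
    exact Submodule.mul_mem_mul (h m hm) hx

/-- The invariant forms of a given degree. -/
def verInv (G : Subgroup (K ≃ₐ[k] K)) (H : Submodule k K) (n : ℕ) : Submodule k K where
  carrier := {x | x ∈ H ^ n ∧ ∀ γ ∈ G, γ x = x}
  add_mem' hx hy := ⟨add_mem hx.1 hy.1, fun γ h => by rw [map_add, hx.2 γ h, hy.2 γ h]⟩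
  zero_mem' := ⟨zero_mem _, fun γ _ => map_zero γ⟩
  smul_mem' c x hx := ⟨Submodule.smul_mem _ c hx.1, fun γ h => by rw [map_smul, hx.2 γ h]⟩

lemma ver_gr_inv (G : Subgroup (K ≃ₐ[k] K)) (H : Submodule k K) : VerGr (verInv G H) :=
  ⟨⟨(ver_gr_pow H).one, fun γ _ => map_one γ⟩, fun hx hy =>
    ⟨(ver_gr_pow H).mul hx.1 hy.1, fun γ h => by rw [map_mul, hx.2 γ h, hy.2 γ h]⟩⟩

lemma ver_fg_inv (G : Subgroup (K ≃ₐ[k] K)) [Finite G] {H : Submodule k K} (hH : H.FG)
    (hG : ∀ γ ∈ G, ∀ x ∈ H, γ x ∈ H) : (ver_gr_inv G H).alg.FG := by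
  let A := (ver_gr_pow H).alg
  let _ : MulSemiringAction G A :=
    { smul γ p := ⟨γ • p.1, fun n => ver_map_pow (hG γ γ.2) n _ (p.2 n)⟩
      one_smul p := Subtype.ext (one_smul G p.1)
      mul_smul γ δ p := Subtype.ext (mul_smul γ δ p.1)
      smul_zero γ := Subtype.ext (smul_zero γ)
      smul_add γ p q := Subtype.ext (smul_add γ p.1 q.1)
      smul_one γ := Subtype.ext (smul_one γ)
      smul_mul γ p q := Subtype.ext (smul_mul' γ p.1 q.1) }
  have : SMulCommClass G k A := ⟨fun γ c p => Subtype.ext (smul_comm γ c p.1)⟩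
  let B := FixedPoints.subalgebra k A G
  have : Algebra.IsInvariant B A G := ⟨fun b hb => ⟨⟨b, hb⟩, rfl⟩⟩
  have := Algebra.IsInvariant.isIntegral B A G
  have hA : Algebra.FiniteType k A := ⟨A.fg_top.2 (ver_fg_pow hH)⟩
  have : Algebra.FiniteType B A := Algebra.FiniteType.of_restrictScalars_finiteType k B A
  have hB := Algebra.IsIntegral.finite (R := B) (A := A)
  have h1 := (B.fg_top.1 (fg_of_fg_of_fg k B A hA.1 hB.1 Subtype.val_injective)).map A.val
  convert h1 using 1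
  ext p
  constructor
  · intro hp
    exact ⟨⟨p, fun n => (hp n).1⟩, fun γ => Subtype.ext
      (Polynomial.ext fun n => (hp n).2 γ γ.2), rfl⟩
  · rintro ⟨p, hp, rfl⟩ n
    exact ⟨p.2 n, fun γ h => congrArg (fun q : A => q.1.coeff n) (hp ⟨γ, h⟩)⟩

lemma ver_prod_mem {M : Submodule k K} {ι : Type*} (s : Finset ι) {r : ι → K} (h : ∀ i, r i ∈ M) :
    ∏ i ∈ s, r i ∈ M ^ s.card := by
  simpa using (ver_gr_pow M).prod s (d := fun _ => 1) (g := r) (by simpa using h)

/-- Some invariant form dominates a power of a given element. -/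
lemma ver_exists_dom (G : Subgroup (K ≃ₐ[k] K)) [Finite G] {H : Submodule k K}
    (hG : ∀ γ ∈ G, ∀ x ∈ H, γ x ∈ H) (w : Val k K) {t : K} (ht : t ∈ H) :
    ∃ i, 0 < i ∧ ∃ a ∈ verInv G H i, w.v t ^ i ≤ w.v a := by
  cases nonempty_fintype G
  by_contra hn
  have h1 : ∀ i, 0 < i → ∀ a ∈ verInv G H i, w.v a < w.v t ^ i := fun i hi a ha =>
    not_le.1 fun h => hn ⟨i, hi, a, ha, h⟩
  have h0 : 0 < w.v t := by simpa using h1 1 one_pos 0 (zero_mem _)
  have hd : (MulSemiringAction.charpoly G t).natDegree = Fintype.card G :=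
    Polynomial.natDegree_finsetProd_X_sub_C_eq_card _ _
  have h2 := MulSemiringAction.eval_charpoly G t
  rw [Polynomial.eval_eq_sum_range, Finset.sum_range_succ,
    (MulSemiringAction.monic_charpoly G t).coeff_natDegree, one_mul, hd,
    add_eq_zero_iff_eq_neg] at h2
  have h3 : w.v (∑ i ∈ Finset.range (Fintype.card G),
      (MulSemiringAction.charpoly G t).coeff i * t ^ i) < w.v t ^ Fintype.card G := by
    refine w.v.map_sum_lt (pow_pos h0 _).ne' fun i hi => ?_
    rw [Finset.mem_range] at hi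
    have h4 : (MulSemiringAction.charpoly G t).coeff i ∈ verInv G H (Fintype.card G - i) := by
      refine ⟨?_, fun γ h => MulSemiringAction.smul_coeff_charpoly t i (⟨γ, h⟩ : G)⟩
      simp only [MulSemiringAction.charpoly, sub_eq_add_neg, ← Polynomial.C_neg]
      rw [Finset.prod_X_add_C_coeff _ _ hi.le]
      refine sum_mem fun T hT => ?_
      rw [← Finset.card_univ, ← (Finset.mem_powersetCard.1 hT).2]
      exact ver_prod_mem T fun γ => neg_mem (hG γ γ.2 t ht)
    rw [map_mul, map_pow, ← Nat.sub_add_cancel hi.le, pow_add]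
    exact mul_lt_mul_of_pos_right (h1 _ (by omega) _ h4) (pow_pos h0 _)
  rw [h2, Valuation.map_neg, map_pow] at h3
  exact h3.false

theorem exists_veronese (G : Subgroup (K ≃ₐ[k] K)) [Finite G] {H : Submodule k K} (hH : H.FG)
    (h1 : 1 ∈ H) (hG : ∀ γ ∈ G, ∀ x ∈ H, γ x ∈ H) :
    ∃ (D r : ℕ) (f : Fin r → K), 0 < D ∧ (∀ j, f j ∈ H ^ D) ∧ (∀ j, ∀ γ ∈ G, γ (f j) = f j) ∧
      (∀ n, ∀ x ∈ H ^ (n * D), (∀ γ ∈ G, γ x = x) →
        ∃ θ : MvPolynomial (Fin r) k, θ.IsHomogeneous n ∧ aeval f θ = x) ∧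
      ∀ w : Val k K, ∀ t ∈ H, ∃ j, w.v t ^ D ≤ w.v (f j) := by
  obtain ⟨D, hD, h⟩ := (ver_gr_inv G H).exists_pow (fun x hx => by simpa using hx.1)
    (ver_fg_inv G hH hG)
  obtain ⟨r, f, hf⟩ := Submodule.fg_iff_exists_fin_generating_family.1
    ((hH.pow D).of_le (S := verInv G H D) fun x hx => hx.1)
  have h2 : ∀ j, f j ∈ verInv G H D := fun j => hf ▸ Submodule.subset_span ⟨j, rfl⟩
  refine ⟨D, r, f, hD, fun j => (h2 j).1, fun j => (h2 j).2, fun n x hx hx' => ?_, fun w t ht => ?_⟩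
  · have h3 := h n (⟨hx, hx'⟩ : x ∈ verInv G H (n * D))
    have h4 : verInv G H D = (homogeneousSubmodule (Fin r) k 1).map (aeval f).toLinearMap := by
      simp [← hf, homogeneousSubmodule_one_eq_span_X, Submodule.map_span, ← Set.range_comp,
        Function.comp_def]
    rwa [h4, ← Submodule.map_pow, homogeneousSubmodule_one_pow] at h3
  · have h3 : (1 : K) ∈ verInv G H D :=
      ⟨by simpa using Submodule.pow_mem_pow H h1 D, fun γ _ => map_one γ⟩
    have : Nonempty (Fin r) := by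
      by_contra h0
      rw [not_nonempty_iff] at h0
      simp [← hf, Set.range_eq_empty] at h3
    obtain ⟨j, hj⟩ := Finite.exists_max fun j => w.v (f j)
    obtain ⟨i, hi, a, ha, h4⟩ := ver_exists_dom G hG w ht
    have h5 := h i (mul_comm D i ▸ (ver_gr_inv G H).pow ha D)
    have h6 := w.le_of_mem_pow (S := verInv G H D) (s := f j) (fun x hx => w.le_of_mem_span
      (by rintro _ ⟨l, rfl⟩; exact hj l) (hf ▸ hx)) i _ h5
    refine ⟨j, le_of_pow_le_pow_left₀ hi.ne' zero_le (le_trans ?_ h6)⟩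
    rw [map_pow, ← pow_mul, mul_comm, pow_mul]
    exact pow_le_pow_left₀ zero_le h4 D

/-- The elements of small value. -/
def verLt (w : Val k K) (c : w.O.ValueGroup) (hc : 0 < c) : Submodule k K where
  carrier := {x | w.v x < c}
  add_mem' hx hy := w.v.map_add_lt hx hy
  zero_mem' := by simpa using hc
  smul_mem' a x hx := (w.v_smul_le a x).trans_lt hx

/-- An invariant form that separates `w₀` from a closed set `𝒞` of valuations. -/
theorem exists_sep_form [Infinite k] (G : Subgroup (K ≃ₐ[k] K)) [Finite G] {H : Submodule k K}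
    (hH : H.FG) (h1 : 1 ∈ H) (hG : ∀ γ ∈ G, ∀ x ∈ H, γ x ∈ H) (𝒞 : Set (Val k K)) (w₀ : Val k K)
    (hsep : ∀ γ ∈ G, ∃ t ∈ H, (∀ x ∈ H, w₀.v (γ x) ≤ w₀.v (γ t)) ∧ ∃ (n : ℕ) (b : K),
      b * t ^ n ∈ H ^ n ∧ w₀.v (γ b) = 1 ∧ ∀ w ∈ 𝒞, (∀ x ∈ H, w.v x ≤ w.v t) → w.v b < 1) :
    ∃ n, 0 < n ∧ ∃ x ∈ H ^ n, (∀ γ ∈ G, γ x = x) ∧ (∀ t ∈ H, w₀.v t ^ n ≤ w₀.v x) ∧
      ∀ w ∈ 𝒞, ∃ t ∈ H, w.v x < w.v t ^ n := by
  classical
  cases nonempty_fintype G
  choose t ht h2 n b h3 h4 h5 using fun γ : G => hsep γ γ.2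
  choose s hs h6 h7 using fun w : Val k K => w.exists_max hH fun h => by simp [h] at h1
  have h8 : ∀ (w : Val k K) m, 0 < w.v (s w) ^ m := fun w m =>
    pow_pos (zero_lt_iff.2 ((map_ne_zero _).2 (h6 w))) m
  obtain ⟨N, hN⟩ : ∃ N, ∀ γ, n γ < N := (Finite.exists_le n).imp' (· + 1) fun _ h γ =>
    Nat.lt_succ_of_le (h γ)
  let W : Submodule k K := H ^ N ⊓ ⨅ w ∈ 𝒞, verLt w _ (h8 w N)
  have hW : ∀ x, x ∈ W ↔ x ∈ H ^ N ∧ ∀ w ∈ 𝒞, w.v x < w.v (s w) ^ N := fun x => by
    simp only [W, Submodule.mem_inf, Submodule.mem_iInf]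
    rfl
  have h9 : ∀ γ, b γ * t γ ^ N ∈ W := fun γ => by
    obtain ⟨m, hm⟩ := Nat.exists_eq_add_of_lt (hN γ)
    refine (hW _).2 ⟨?_, fun w hw => ?_⟩
    · rw [hm, add_assoc, pow_add _ (n γ), pow_add _ (n γ), ← mul_assoc]
      exact Submodule.mul_mem_mul (h3 γ) (Submodule.pow_mem_pow H (ht γ) _)
    by_cases hx : ∀ x ∈ H, w.v x ≤ w.v (t γ)
    · rw [map_mul, map_pow, ← one_mul (w.v (s w) ^ N)]
      exact mul_lt_mul_of_lt_of_le_of_nonneg_of_pos (h5 γ w hw hx)
        (pow_le_pow_left₀ zero_le (h7 w _ (ht γ)) N) zero_le (h8 w N)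
    · push Not at hx
      obtain ⟨x, hx, hlt⟩ := hx
      rw [hm, add_assoc, pow_add _ (n γ), pow_add _ (n γ), ← mul_assoc, map_mul, map_pow]
      exact mul_lt_mul_of_le_of_lt_of_nonneg_of_pos (w.le_of_mem_pow (h7 w) _ _ (h3 γ))
        (pow_lt_pow_left₀ (hlt.trans_le (h7 w x hx)) zero_le m.succ_ne_zero) zero_le (h8 w _)
  obtain ⟨x, hx⟩ := Submodule.exists_forall_notMem_of_forall_ne_top
    (fun γ : G => (verLt w₀ _ (h8 w₀ N)).comap (γ.1.toLinearMap ∘ₗ W.subtype)) fun γ h => by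
      have h10 : w₀.v (γ.1 (b γ * t γ ^ N)) < w₀.v (s w₀) ^ N :=
        (h.ge (Submodule.mem_top (x := ⟨_, h9 γ⟩)) :)
      have h11 := h2 γ _ (hG _ (γ⁻¹).2 _ (hs w₀))
      rw [Subgroup.coe_inv, AlgEquiv.aut_inv, AlgEquiv.apply_symm_apply] at h11
      rw [map_mul, map_mul, map_pow, map_pow, h4, one_mul] at h10
      exact h10.not_ge (pow_le_pow_left₀ zero_le h11 N)
  obtain ⟨hx1, hx2⟩ := (hW x).1 x.2
  have hx3 : ∀ γ : G, γ.1 x ∈ H ^ N := fun γ => ver_map_pow (hG γ γ.2) N _ hx1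
  refine ⟨N * Fintype.card G, Nat.mul_pos ((Nat.zero_le _).trans_lt (hN 1)) Fintype.card_pos,
    ∏ γ : G, γ.1 x, pow_mul H _ _ ▸ ver_prod_mem _ hx3, fun γ h => ?_, fun y hy => ?_,
    fun w hw => ⟨s w, hs w, ?_⟩⟩
  · exact Finset.smul_prod_perm x.1 (⟨γ, h⟩ : G)
  · rw [pow_mul, map_prod, ← Finset.card_univ, ← Finset.prod_const]
    exact Finset.prod_le_prod' fun γ _ =>
      (pow_le_pow_left₀ zero_le (h7 w₀ y hy) N).trans (not_lt.1 (hx γ))
  · rw [pow_mul, map_prod, ← Finset.card_univ, ← Finset.prod_const,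
      ← Finset.mul_prod_erase _ _ (Finset.mem_univ (1 : G)),
      ← Finset.mul_prod_erase _ _ (Finset.mem_univ (1 : G))]
    refine mul_lt_mul_of_lt_of_le_of_nonneg_of_pos (hx2 w hw) (Finset.prod_le_prod' fun γ _ =>
      w.le_of_mem_pow (h7 w) _ _ (hx3 γ)) zero_le ?_
    rw [Finset.prod_const]
    exact pow_pos (h8 w N) _

end

end Pool.Agent.Lib.MP_1c03d5_ag
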