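import Pool.Agent.Lib.MP_1c03d5_ag.Pol
import Pool.Agent.Lib.MP_1c03d5_ag.Refn
import Pool.Agent.Lib.MP_1c03d5_ag.Ver
import Pool.Agent.Lib.MP_1c03d5_ag.Den
import Pool.Agent.Lib.MP_1c03d5_ag.Lift
import Pool.Agent.Lib.MP_1c03d5_ag.PB2
import Pool.Agent.Lib.MP_1c03d5_ag.Om

/-!
# TASK POLX: existence of a separating polarisation
-/

open MvPolynomial

universe u

namespace Pool.Agent.Lib.MP_1c03d5_ag

noncomputable section

section loc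

variable {k : Type u} [Field k] {F : Fam k} (Λ : LocData F) {K : Type u} [Field K] [Algebra k K]

theorem polx_ext (j : Λ.κ) (ψ : F.A (Λ.r j) →ₐ[k] K) (h : ψ (Λ.a j) ≠ 0) :
    ∃ e : Λ.fam.A j →ₐ[k] K, e.comp (Λ.φ j) = ψ := by
  refine ⟨IsLocalization.liftAlgHom (M := Submonoid.powers (Λ.a j)) (f := ψ) ?_, ?_⟩
  · rintro ⟨_, n, rfl⟩
    simpa using (pow_ne_zero n h).isUnit
  · ext x
    simp

theorem polx_surj (j : Λ.κ) (x : Λ.fam.A j) :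
    ∃ (n : ℕ) (y : F.A (Λ.r j)), x * Λ.φ j (Λ.a j) ^ n = Λ.φ j y :=
  IsLocalization.Away.surj (Λ.a j) x

theorem polx_unit (j : Λ.κ) : IsUnit (Λ.φ j (Λ.a j)) :=
  IsLocalization.Away.algebraMap_isUnit (S := Localization.Away (Λ.a j)) (Λ.a j)

theorem polx_φ_inj (j : Λ.κ) : Function.Injective (Λ.φ j) :=
  IsLocalization.injective (Localization.Away (Λ.a j))
    (powers_le_nonZeroDivisors_of_noZeroDivisors (Λ.ne j))

theorem polx_inj {j : Λ.κ} {e : Λ.fam.A j →ₐ[k] K} (h : Function.Injective (e.comp (Λ.φ j))) :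
    Function.Injective e := by
  rw [injective_iff_map_eq_zero]
  intro x hx
  obtain ⟨n, y, hy⟩ := polx_surj Λ j x
  have h1 : (e.comp (Λ.φ j)) y = 0 := by
    rw [AlgHom.comp_apply, ← hy, map_mul, hx, zero_mul]
  have h2 : y = 0 := (injective_iff_map_eq_zero _).1 h y h1
  rw [h2, map_zero] at hy
  exact ((polx_unit Λ j).pow n).mul_left_eq_zero.1 hy

theorem polx_cen {j : Λ.κ} {e : Λ.fam.A j →ₐ[k] K} {w : Val k K} (h : ∀ a, e (Λ.φ j a) ∈ w.O)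
    (h1 : w.v (e (Λ.φ j (Λ.a j))) = 1) (x : Λ.fam.A j) : e x ∈ w.O := by
  obtain ⟨n, y, hy⟩ := polx_surj Λ j x
  have h2 := congrArg (fun z => w.v (e z)) hy
  simp only [map_mul, map_pow, h1, one_pow, mul_one] at h2
  rw [← Val.v_le_one, h2, Val.v_le_one]
  exact h y

theorem polx_v_unit {A : Type u} [CommRing A] [Algebra k A] {e : A →ₐ[k] K} {w : Val k K}
    (h : ∀ a, e a ∈ w.O) {x : A} (hx : IsUnit x) : w.v (e x) = 1 := by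
  obtain ⟨y, hy⟩ := hx.exists_right_inv
  have h1 : w.v (e x) * w.v (e y) = 1 := by rw [← map_mul, ← map_mul, hy, map_one, map_one]
  refine le_antisymm (Val.v_le_one.2 (h x)) ?_
  calc 1 = w.v (e x) * w.v (e y) := h1.symm
    _ ≤ w.v (e x) * 1 := by gcongr; exact Val.v_le_one.2 (h y)
    _ = _ := mul_one _

theorem polx_cover (σ : F.Pt K) (w : Val k K) (h : σ.Cen w) :
    ∃ σ' : Λ.fam.Pt K, Λ.refines.res σ' = σ ∧ σ'.Cen w := by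
  have : IsLocalRing w.sub := inferInstanceAs (IsLocalRing w.O)
  obtain ⟨σ', hσ'⟩ := Λ.cover' w.sub ⟨σ.1, σ.2.codRestrict w.sub h⟩
  refine ⟨σ'.map w.sub.val, ?_, fun a => (σ'.2 a).2⟩
  exact congrArg (fun τ : F.Pt w.sub => τ.map w.sub.val) hσ'

end loc

section sep

variable {k : Type u} [Field k] {P : CPres k} (Γ : Gen P.toEqRel) (Λ : LocData P.toFam)

/-- The valuations whose centre lies in the closed set defined by `𝔭`. -/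
def polx_C (𝔭 : (P.refine Λ).Idl) : Set (Val k Γ.K') :=
  {w | ∃ σ : Λ.fam.Pt Γ.K', Λ.refines.res σ ∈ Γ.S ∧ σ.Cen w ∧ ∀ b ∈ 𝔭 σ.1, w.v (σ.2 b) < 1}

theorem polx_rel {σ τ : Λ.fam.Pt Γ.K'} (hσ : Λ.refines.res σ ∈ Γ.S) (hτ : Λ.refines.res τ ∈ Γ.S) :
    (P.refine Λ).Rel σ τ := (P.refine_rel Λ σ τ).2 (Γ.rel _ hσ _ hτ)

theorem polx_sepb {𝔭 : (P.refine Λ).Idl} (h𝔭 : (P.refine Λ).Inv 𝔭) {w₁ : Val k Γ.K'}
    {σ : P.Pt Γ.K'} (hσ : σ ∈ Γ.S) (hc : σ.Cen w₁) {σ₀ : Λ.fam.Pt Γ.K'}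
    (h₀ : Λ.refines.res σ₀ ∈ Γ.S) (hc₀ : σ₀.Cen w₁) (hb : ∃ b ∈ 𝔭 σ₀.1, w₁.v (σ₀.2 b) = 1) :
    ∃ b : P.A σ.1, w₁.v (σ.2 b) = 1 ∧ ∀ w ∈ polx_C Γ Λ 𝔭, σ.Cen w → w.v (σ.2 b) < 1 := by
  obtain ⟨σ', rfl, hc'⟩ := polx_cover Λ σ w₁ hc
  have h1 : ∃ b ∈ 𝔭 σ'.1, w₁.v (σ'.2 b) = 1 := by
    by_contra hn
    push Not at hn
    obtain ⟨b, hb1, hb2⟩ := hb
    exact (h𝔭.lt_one (polx_rel Γ Λ hσ h₀) hc' hc₀
      (fun b hb => lt_of_le_of_ne (Val.v_le_one.2 (hc' b)) (hn b hb)) b hb1).ne hb2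
  obtain ⟨b₁, hb₁, hv⟩ := h1
  obtain ⟨n, y, hy⟩ := polx_surj Λ σ'.1 b₁
  have hu := polx_v_unit hc' (polx_unit Λ σ'.1)
  have e1 : Λ.φ σ'.1 (y * Λ.a σ'.1) = b₁ * Λ.φ σ'.1 (Λ.a σ'.1) ^ (n + 1) := by
    rw [map_mul, ← hy, pow_succ, mul_assoc]
  refine ⟨y * Λ.a σ'.1, ?_, ?_⟩
  · show w₁.v (σ'.2 (Λ.φ σ'.1 (y * Λ.a σ'.1))) = 1
    rw [e1, map_mul, map_mul, map_pow, map_pow, hv, hu, one_pow, one_mul]
  · rintro w ⟨τ, hτ, hτc, hτ𝔭⟩ hw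
    show w.v (σ'.2 (Λ.φ σ'.1 (y * Λ.a σ'.1))) < 1
    have ha : w.v (σ'.2 (Λ.φ σ'.1 (Λ.a σ'.1))) ≤ 1 := Val.v_le_one.2 (hw _)
    rcases ha.lt_or_eq with ha | ha
    · rw [map_mul, map_mul, map_mul]
      have hy1 : w.v (σ'.2 (Λ.φ σ'.1 y)) ≤ 1 := Val.v_le_one.2 (hw _)
      exact lt_of_le_of_lt (mul_le_of_le_one_left' hy1) ha
    · have hw' : σ'.Cen w := polx_cen Λ hw ha
      refine h𝔭.lt_one (polx_rel Γ Λ hτ hσ) hτc hw' hτ𝔭 _ ?_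
      rw [e1]
      exact Ideal.mul_mem_right _ _ hb₁

/-- The separating invariant form. -/
theorem polx_form [IsAlgClosed k] (M : Γ.Mod) {𝔭 : (P.refine Λ).Idl} (h𝔭 : (P.refine Λ).Inv 𝔭)
    {w₀ : Val k Γ.K'} {σ₀ : Λ.fam.Pt Γ.K'} (h₀ : Λ.refines.res σ₀ ∈ Γ.S) (hc₀ : σ₀.Cen w₀)
    (hb : ∃ b ∈ 𝔭 σ₀.1, w₀.v (σ₀.2 b) = 1) :
    ∃ n, 0 < n ∧ ∃ x ∈ M.H ^ n, (∀ γ ∈ Γ.G, γ x = x) ∧ (∀ t ∈ M.H, w₀.v t ^ n ≤ w₀.v x) ∧
      ∀ w ∈ polx_C Γ Λ 𝔭, ∃ t ∈ M.H, w.v x < w.v t ^ n := by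
  refine exists_sep_form Γ.G M.fg M.one M.stab _ w₀ fun γ hγ => ?_
  obtain ⟨a, ha⟩ := M.cover (w₀.comap γ.toAlgHom)
  refine ⟨M.τ a, M.τ_mem a, fun x hx => (Val.comap_le_iff _ _ _ _).1 (ha x hx), ?_⟩
  obtain ⟨b, hb1, hb2⟩ := polx_sepb Γ Λ h𝔭 (M.pt_mem a) (M.cen ha)
    (σ₀ := σ₀.map γ.symm.toAlgHom) (Γ.act_mem (Γ.G.inv_mem hγ) h₀)
    (fun x => by simpa [Val.mem_comap] using hc₀ x) (by
      obtain ⟨b, hb1, hb2⟩ := hb
      exact ⟨b, hb1, (Val.comap_eq_one_iff _ _ _).2 (by simpa using hb2)⟩)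
  obtain ⟨n, hn⟩ := M.chart a b
  exact ⟨n, _, hn, (Val.comap_eq_one_iff _ _ _).1 hb1, fun w hw h => hb2 w hw (M.cen h)⟩

end sep

section lb

variable {k : Type u} [Field k] {P : EqRel k}

theorem polx_nzd {A T : Type u} [CommRing A] [IsDomain A] [Algebra k A] [CommRing T] [Algebra k T]
    {α : A →ₐ[k] T} (h : α.toRingHom.Etale) {x : A} (hx : x ≠ 0) : α x ∈ nonZeroDivisors T :=
  map_ne_zero_divisor_of_flat (φ := α.toRingHom) (RingHom.Etale.iff_flat_and_formallyUnramified.1 h).1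
    (mem_nonZeroDivisors_of_ne_zero hx)

/-- The line bundle of an invariant family of principal ideals. -/
theorem polx_lb {δ : P.El} (h0 : ∀ i, δ i ≠ 0) (h : P.Inv fun i => Ideal.span {δ i}) :
    ∃ L : P.LB, ∀ i j, P.s i j (δ i) = (L.1 i j : P.B i j) * P.t i j (δ j) := by
  have h1 : ∀ i j, ∃ g : (P.B i j)ˣ, P.s i j (δ i) = (g : P.B i j) * P.t i j (δ j) := by
    intro i j
    have e := h i j
    simp only [Ideal.map_span, Set.image_singleton] at e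
    obtain ⟨g, hg⟩ := Ideal.mem_span_singleton'.1 (e.le (Ideal.mem_span_singleton_self _))
    obtain ⟨g', hg'⟩ := Ideal.mem_span_singleton'.1 (e.ge (Ideal.mem_span_singleton_self _))
    have h2 : g' * g = 1 := by
      refine (mul_cancel_right_mem_nonZeroDivisors (polx_nzd (P.et_t i j) (h0 j))).1 ?_
      rw [mul_assoc, hg, hg', one_mul]
    exact ⟨Units.mkOfMulEqOne g g' (by rw [mul_comm, h2]), hg.symm⟩
  choose g hg using h1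
  have h2 : ∀ {C : Type u} [CommRing C] [Algebra k C] {σ τ : P.Pt C} (h : P.Rel σ τ),
      σ.2 (δ σ.1) = h.ev (g σ.1 τ.1 : P.B _ _) * τ.2 (δ τ.1) := fun h => by
    rw [← h.ev_s, hg, map_mul, h.ev_t]
  refine ⟨⟨g, ?_⟩, hg⟩
  rintro Ω _ _ ⟨i, α'⟩ ⟨j, β'⟩ ⟨l, γ'⟩ h1 h2' h3
  obtain ⟨T, _, _, α, β, γ, -, -, hγ, H1, H2, hT⟩ := EqRel.exists_triple (P := P) i j l
  obtain ⟨χ, rfl, rfl, rfl⟩ := hT Ω α' β' γ' h1 h2'
  have H3 := P.trans T _ _ _ H1 H2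
  have e : H1.ev (g i j : P.B _ _) * H2.ev (g j l : P.B _ _) = H3.ev (g i l : P.B _ _) := by
    refine (mul_cancel_right_mem_nonZeroDivisors (polx_nzd hγ (h0 l))).1 ?_
    rw [mul_assoc, ← h2 H2, ← h2 H3, ← h2 H1]
  have e' := congrArg χ e
  rw [map_mul, ← H1.ev_map, ← H2.ev_map, ← H3.ev_map] at e'
  exact e'

theorem polx_isSec {δ a : P.El} (h0 : ∀ i, δ i ≠ 0) {L : P.LB}
    (hL : ∀ i j, P.s i j (δ i) = (L.1 i j : P.B i j) * P.t i j (δ j))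
    (h : ∀ i j, P.s i j (a i) * P.t i j (δ j) = P.s i j (δ i) * P.t i j (a j)) :
    P.IsSec L ⊥ a := by
  intro i j
  have e : P.s i j (a i) = (L.1 i j : P.B i j) * P.t i j (a j) := by
    refine (mul_cancel_right_mem_nonZeroDivisors (polx_nzd (P.et_t i j) (h0 j))).1 ?_
    rw [h, hL]
    ring
  rw [e, sub_self]
  exact Ideal.zero_mem _

end lb

section data

variable {k : Type u} [Field k] [IsAlgClosed k] (p : ℕ) [Fact p.Prime] [CharP k p] {P : CPres k}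
  {Γ : Gen P.toEqRel}

include p in
/-- After refining the charts, the ideal of denominators is principal. -/
theorem polx_data (hΓ : Γ.Generic) {r : ℕ} (f : Fin r → Γ.K') (hf : ∀ l, f l ∈ Γ.K) :
    ∃ (Λ : LocData P.toFam) (δ : ∀ j, P.A (Λ.r j)) (a : Fin r → ∀ j, P.A (Λ.r j)),
      (∀ j, δ j ≠ 0) ∧ ((P.refine Λ).Inv fun j => Ideal.span {Λ.φ j (δ j)}) ∧
      ∀ l j (φ : P.A (Λ.r j) →ₐ[k] Γ.K'), ⟨_, φ⟩ ∈ Γ.S → φ (δ j) * f l = φ (a l j) := by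
  obtain ⟨𝔡, h𝔡, h0, hm⟩ := Γ.denom f hf
  have h1 : ∀ i, ∃ b ∈ 𝔡 i, b ≠ 0 := by
    intro i
    obtain ⟨φ, hφ⟩ := hΓ.2 i
    by_contra hn
    push Not at hn
    exact h0 _ hφ fun b hb => by rw [hn b hb]; exact Ideal.zero_mem _
  obtain ⟨Λ, hΛ⟩ := exists_locData P.toFam (fun i c => ∃ δ ∈ 𝔡 i, ∀ y ∈ 𝔡 i, δ ∣ c * y) (by
    intro i 𝔪 h𝔪
    obtain ⟨b, hb, hb0⟩ := h1 i
    choose a ha using (hm i b).1 hb
    have := P.normal i
    refine exists_principal (k := k) ((P.isCoord i).isPB p) hb0 a (fun y => ?_) 𝔪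
    rw [hm]
    refine forall_congr' fun l => ⟨?_, ?_⟩
    · rintro ⟨a', ha'⟩
      obtain ⟨φ, hφ⟩ := hΓ.2 i
      refine ⟨a', hΓ.1 _ hφ ?_⟩
      show φ (y * a l) = φ (b * a')
      rw [map_mul, map_mul, ← ha l φ hφ, ← ha' φ hφ]
      ring
    · rintro ⟨a', ha'⟩
      refine ⟨a', fun φ hφ => ?_⟩
      have hb1 : φ b ≠ 0 := fun h => hb0 (hΓ.1 _ hφ (h.trans (map_zero φ).symm))
      refine mul_left_cancel₀ hb1 ?_
      rw [← map_mul, ← ha', map_mul, ← ha l φ hφ]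
      ring)
  choose δ hδ hδ' using hΛ
  choose a ha using fun j => (hm _ _).1 (hδ j)
  have e : ∀ j, Ideal.span {Λ.φ j (δ j)} = (𝔡 (Λ.r j)).map (Λ.φ j) := by
    intro j
    refine le_antisymm ((Ideal.span_singleton_le_iff_mem _).2 (Ideal.mem_map_of_mem _ (hδ j)))
      (Ideal.map_le_iff_le_comap.2 fun y hy => ?_)
    rw [Ideal.mem_comap, Ideal.mem_span_singleton]
    have := map_dvd (Λ.φ j) (hδ' j y hy)
    rwa [map_mul, (polx_unit Λ j).dvd_mul_left] at this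
  refine ⟨Λ, δ, fun l j => a j l, fun j h => ?_, fun i j => ?_, fun l j => ha j l⟩
  · obtain ⟨b, hb, hb0⟩ := h1 (Λ.r j)
    have := hδ' j b hb
    rw [h, zero_dvd_iff] at this
    exact mul_ne_zero (Λ.ne j) hb0 this
  · have h2 := h𝔡.map_eq ((P.refine_rel Λ _ _).1 (PreRel.rel_st (P := P.toPreRel.refine Λ) i j))
    simp only [e]
    rw [Ideal.map_mapₐ, Ideal.map_mapₐ]
    exact h2

end data

theorem polx_aeval {k K : Type u} [Field k] [Field K] [Algebra k K] {r m : ℕ} (f : Fin r → K)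
    (c : K) {θ : MvPolynomial (Fin r) k} (hθ : θ.IsHomogeneous m) :
    aeval (fun j => c * f j) θ = c ^ m * aeval f θ := by
  conv_lhs => rw [θ.as_sum]
  conv_rhs => rw [θ.as_sum]
  rw [map_sum, map_sum, Finset.mul_sum]
  refine Finset.sum_congr rfl fun d hd => ?_
  have h1 : d.degree = m := by
    by_contra h
    exact mem_support_iff.1 hd (hθ.coeff_eq_zero h)
  rw [aeval_monomial, aeval_monomial, ← h1, Finsupp.prod, Finsupp.prod, Finsupp.degree_apply,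
    ← Finset.prod_pow_eq_pow_sum]
  simp only [mul_pow, Finset.prod_mul_distrib]
  ring

theorem exists_pol {k : Type u} [Field k] [IsAlgClosed k] (p : ℕ) [Fact p.Prime] [CharP k p]
    (P : CPres k) : ∃ (P' : CPres k) (ρ : Refines P'.toFam P.toFam),
      (∀ (C : Type u) [CommRing C] [Algebra k C] (σ τ : P'.Pt C),
        P'.Rel σ τ ↔ P.Rel (ρ.res σ) (ρ.res τ)) ∧ ∃ Q : Pol P'.toPreRel, Q.Sep := by
  obtain ⟨Γ, hΓ⟩ := exists_generic P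
  obtain ⟨M⟩ := Γ.exists_mod
  obtain ⟨D, r, f, hD, hfH, hfG, hver, hft⟩ := exists_veronese Γ.G M.fg M.one M.stab
  obtain ⟨Λ, δ, a, hδ, hinv, ha⟩ := polx_data p hΓ f fun l => Γ.mem_K.2 (hfG l)
  have hδ' : ∀ j, Λ.φ j (δ j) ≠ 0 := fun j h =>
    hδ j (polx_φ_inj Λ j (h.trans (map_zero _).symm))
  obtain ⟨L, hL⟩ := polx_lb (P := (P.refine Λ).toEqRel) hδ' hinv
  choose φ hφ using fun j => hΓ.2 (Λ.r j)
  have hφ0 : ∀ j x, x ≠ 0 → φ j x ≠ 0 := fun j x hx h =>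
    hx (hΓ.1 _ (hφ j) (h.trans (map_zero (φ j)).symm))
  choose e he using fun j => polx_ext Λ j (φ j) (hφ0 j _ (Λ.ne j))
  have he' : ∀ j x, e j (Λ.φ j x) = φ j x := fun j x => DFunLike.congr_fun (he j) x
  have hS : ∀ j, Λ.refines.res (⟨j, e j⟩ : Λ.fam.Pt Γ.K') ∈ Γ.S := fun j => by
    show (⟨Λ.r j, (e j).comp (Λ.φ j)⟩ : P.Pt Γ.K') ∈ Γ.S
    rw [he j]
    exact hφ j
  obtain ⟨l₀, hl₀⟩ : ∃ l, f l ≠ 0 := by
    obtain ⟨w, -⟩ := Val.exists_trivial (k := k) (K := Γ.K')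
    obtain ⟨l, hl⟩ := hft w 1 M.one
    refine ⟨l, fun h => ?_⟩
    simp [h] at hl
  let Q : Pol (P.refine Λ).toPreRel :=
    { D := L
      r := r
      f := fun l j => Λ.φ j (a l j)
      sec := fun l => polx_isSec (P := (P.refine Λ).toEqRel) hδ' hL fun i j => by
        have h1 : P.s (Λ.r i) (Λ.r j) (a l i) * P.t _ _ (δ j) - P.s _ _ (δ i) * P.t _ _ (a l j) ∈
            (Γ.I (Λ.r i)).map (P.s _ _) := by
          rw [Γ.mem_map_s]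
          intro φ ψ hφ hψ h
          rw [map_sub, map_mul, map_mul, h.ev_s, h.ev_s, h.ev_t, h.ev_t]
          show φ (a l i) * ψ (δ j) - φ (δ i) * ψ (a l j) = 0
          rw [← ha l i φ hφ, ← ha l j ψ hψ]
          ring
        rw [hΓ.I_eq, Pi.bot_apply, Ideal.map_bot, Ideal.mem_bot, sub_eq_zero] at h1
        have h2 := (P.refine_rel Λ _ _).1 (PreRel.rel_st (P := P.toPreRel.refine Λ) i j)
        have h3 := congrArg h2.ev h1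
        rw [map_mul, map_mul, h2.ev_s, h2.ev_s, h2.ev_t, h2.ev_t] at h3
        exact h3
      ne := fun j => ⟨l₀, fun h => by
        have h1 := congrArg (e j) h
        rw [he', map_zero, ← ha l₀ j _ (hφ j)] at h1
        exact mul_ne_zero (hφ0 j _ (hδ j)) hl₀ h1⟩ }
  have hQ : ∀ l j, e j (Q.f l j) = φ j (δ j) * f l := fun l j =>
    (he' j _).trans (ha l j _ (hφ j)).symm
  have hQ' : ∀ {m} {θ : MvPolynomial (Fin r) k}, θ.IsHomogeneous m → ∀ j,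
      e j (Q.ev θ j) = φ j (δ j) ^ m * aeval f θ := fun {m θ} hθ j => by
    rw [← polx_aeval f _ hθ, Pol.ev, comp_aeval_apply]
    simp only [hQ]
    rfl
  refine ⟨P.refine Λ, Λ.refines, fun C _ _ σ τ => P.refine_rel Λ σ τ, Q, Γ.K', _, _, e,
    fun j => polx_inj Λ ?_, fun 𝔭 h𝔭 i₀ w₀ hc₀ hb => ?_⟩
  · rw [he j]
    exact hΓ.1 _ (hφ j)
  obtain ⟨n, hn, x, hx, hxG, hx0, hxC⟩ := polx_form Γ Λ M h𝔭 (hS i₀) hc₀ hb
  obtain ⟨θ, hθ, hθx⟩ := hver n (x ^ D) (by rw [pow_mul]; exact Submodule.pow_mem_pow _ hx D)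
    fun γ hγ => by rw [map_pow, hxG γ hγ]
  refine ⟨n, hn, θ, hθ, fun l => ?_, fun i w hw h𝔭w => ?_⟩
  · obtain ⟨b, hb⟩ := M.cover w₀
    rw [hQ, hQ' hθ, hθx, map_mul, map_mul, map_pow, map_pow, mul_pow]
    refine mul_le_mul_right ?_ _
    calc w₀.v (f l) ^ n ≤ (w₀.v (M.τ b) ^ D) ^ n := by
          gcongr
          exact w₀.le_of_mem_pow hb D _ (hfH l)
      _ = (w₀.v (M.τ b) ^ n) ^ D := by rw [← pow_mul, mul_comm, pow_mul]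
      _ ≤ _ := by gcongr; exact hx0 _ (M.τ_mem b)
  · obtain ⟨t, ht, hlt⟩ := hxC w ⟨⟨i, e i⟩, hS i, hw, h𝔭w⟩
    obtain ⟨l, hl⟩ := hft w t ht
    refine ⟨l, ?_⟩
    rw [hQ, hQ' hθ, hθx, map_mul, map_mul, map_pow, map_pow, mul_pow]
    refine mul_lt_mul_of_pos_left ?_ (pow_pos ((Valuation.pos_iff _).2 (hφ0 i _ (hδ i))) n)
    calc w.v x ^ D < (w.v t ^ n) ^ D := pow_lt_pow_left₀ hlt zero_le hD.ne'
      _ = (w.v t ^ D) ^ n := by rw [← pow_mul, mul_comm, pow_mul]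
      _ ≤ _ := by gcongr

end

end Pool.Agent.Lib.MP_1c03d5_ag
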