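import Pool.Agent.Lib.MP_1c03d5_ag.Defs

/-!
# TASK PROJ: standard charts of closed subschemes of projective space
-/

open CategoryTheory Limits AlgebraicGeometry Opposite

open MvPolynomial

universe u

namespace Pool.Agent.Lib.MP_1c03d5_ag

noncomputable section

attribute [local instance] MvPolynomial.gradedAlgebra

variable {k : Type u} [Field k]

/-- The standard charts of a scheme `Y` over `k` with homogeneous coordinates. -/
structure StdCharts {α : Type} (𝔨 : α → Ideal (MvPolynomial α k)) {Y : Scheme.{u}}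
    (str : Y ⟶ Spec (.of k)) (c : ∀ t, Spec (.of (MvPolynomial α k ⧸ 𝔨 t)) ⟶ Y) : Prop where
  isOpen : ∀ t, IsOpenImmersion (c t)
  surj : ∀ y : Y, ∃ t, y ∈ Set.range (c t)
  str_eq : ∀ t, c t ≫ str = Spec.map (CommRingCat.ofHom (algebraMap k _))
  eq_iff : ∀ (C : Type u) [CommRing C] [Algebra k C] (t t' : α)
    (χ : (MvPolynomial α k ⧸ 𝔨 t) →ₐ[k] C) (χ' : (MvPolynomial α k ⧸ 𝔨 t') →ₐ[k] C),
    Spec.map (CommRingCat.ofHom χ.toRingHom) ≫ c t =
      Spec.map (CommRingCat.ofHom χ'.toRingHom) ≫ c t' ↔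
      ∀ a, χ (Ideal.Quotient.mk _ (X a)) =
        χ' (Ideal.Quotient.mk _ (X a)) * χ (Ideal.Quotient.mk _ (X t'))

section proj_aux

open HomogeneousLocalization

variable {α : Type} {A : Type u} [CommRing A] [Algebra k A] (𝒜 : ℕ → Submodule k A)
  [GradedAlgebra 𝒜]

/-- Evaluation of degree zero fractions along a ring map that inverts the denominator. -/
def proj_ev {C : Type u} [CommRing C] (g : A →+* C) (s : A) (hs : IsUnit (g s)) :
    Away 𝒜 s →+* C :=
  (Localization.awayLift g s hs).comp (algebraMap (Away 𝒜 s) (Localization.Away s))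

lemma proj_ev_mk {C : Type u} [CommRing C] (g : A →+* C) {s : A} (hs : IsUnit (g s)) {d : ℕ}
    (hd : s ∈ 𝒜 d) (n : ℕ) (b : A) (hb : b ∈ 𝒜 (n • d)) :
    proj_ev 𝒜 g s hs (Away.mk 𝒜 hd n b hb) * g s ^ n = g b := by
  obtain ⟨v, hv⟩ := hs.exists_right_inv
  have h1 := Localization.awayLift_mk g s b v hv n
  change Localization.awayLift g s hs (Localization.mk b ⟨s ^ n, n, rfl⟩) * g s ^ n = g b
  rw [h1, mul_assoc, ← mul_pow, mul_comm v, hv, one_pow, mul_one]

lemma proj_ev_zero {C : Type u} [CommRing C] (g : A →+* C) {s : A} (hs : IsUnit (g s))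
    (b : 𝒜 0) : proj_ev 𝒜 g s hs (fromZeroRingHom 𝒜 _ b) = g b :=
  IsLocalization.lift_eq (M := Submonoid.powers s) (S := Localization.Away s) _ (b : A)

lemma proj_ev_awayMap {C : Type u} [CommRing C] (g : A →+* C) {s s' x : A} {d e : ℕ}
    (hd : s ∈ 𝒜 d) (he : s' ∈ 𝒜 e) (hx : x = s * s') (h : IsUnit (g x)) (hs : IsUnit (g s)) :
    (proj_ev 𝒜 g x h).comp (awayMap 𝒜 he hx) = proj_ev 𝒜 g s hs := by
  refine RingHom.ext fun y => ?_
  obtain ⟨n, b, hb, rfl⟩ := Away.mk_surjective 𝒜 hd y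
  rw [RingHom.comp_apply, awayMap_mk]
  refine (h.pow n).mul_right_cancel ?_
  rw [proj_ev_mk]
  have h1 := proj_ev_mk 𝒜 g hs hd n b hb
  rw [hx, map_mul, map_mul, map_pow, mul_pow, ← mul_assoc, h1]

variable (f : MvPolynomial α k →ₐ[k] A) (hf' : ∀ n G, G.IsHomogeneous n → f G ∈ 𝒜 n)

include hf' in
lemma proj_X_mem (a : α) : f (X a) ∈ 𝒜 1 := hf' 1 _ (isHomogeneous_X k a)

/-- The fraction `x_a / x_t`. -/
def proj_frac (t a : α) : Away 𝒜 (f (X t)) :=
  Away.mk 𝒜 (proj_X_mem 𝒜 f hf' t) 1 (f (X a)) (proj_X_mem 𝒜 f hf' a)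

/-- Dehomogenisation. -/
def proj_phi (t : α) : MvPolynomial α k →+* Away 𝒜 (f (X t)) :=
  eval₂Hom ((fromZeroRingHom 𝒜 _).comp (algebraMap k (𝒜 0))) (proj_frac 𝒜 f hf' t)

lemma proj_phi_X (t a : α) : proj_phi 𝒜 f hf' t (X a) = proj_frac 𝒜 f hf' t a :=
  eval₂Hom_X' _ _ a

lemma proj_phi_C (t : α) (c : k) :
    proj_phi 𝒜 f hf' t (C c) = fromZeroRingHom 𝒜 _ (algebraMap k (𝒜 0) c) :=
  eval₂Hom_C _ _ c

lemma proj_eval_smul {R : Type u} [CommRing R] (i : k →+* R) {n : ℕ} {G : MvPolynomial α k}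
    (hG : G.IsHomogeneous n) (v : R) (P : α → R) :
    eval₂ i (fun a => P a * v) G = eval₂ i P G * v ^ n := by
  rw [eval₂_eq, eval₂_eq, Finset.sum_mul]
  refine Finset.sum_congr rfl fun d hd => ?_
  simp only [mul_pow, Finset.prod_mul_distrib, Finset.prod_pow_eq_pow_sum]
  rw [← hG.degree_eq_sum_deg_support hd]
  ring

lemma proj_phi_hom (t : α) {n : ℕ} {G : MvPolynomial α k} (hG : G.IsHomogeneous n)
    (h : f G ∈ 𝒜 (n • 1)) :
    proj_phi 𝒜 f hf' t G = Away.mk 𝒜 (proj_X_mem 𝒜 f hf' t) n (f G) h := by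
  let L := Localization.Away (f (X t))
  let v : L := Localization.mk 1 ⟨f (X t), 1, pow_one _⟩
  let i : k →+* L := (algebraMap A L).comp (algebraMap k A)
  have h1 : (algebraMap (Away 𝒜 (f (X t))) L).comp (proj_phi 𝒜 f hf' t) =
      eval₂Hom i fun a => algebraMap A L (f (X a)) * v := by
    refine MvPolynomial.ringHom_ext (fun c => ?_) fun a => ?_
    · rw [RingHom.comp_apply, proj_phi_C, eval₂Hom_C]
      rfl
    · rw [RingHom.comp_apply, proj_phi_X, eval₂Hom_X', ← Algebra.smul_def, Localization.smul_mk,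
        smul_eq_mul, mul_one]
      change Localization.mk (f (X a)) ⟨f (X t) ^ 1, _⟩ = _
      simp only [pow_one]
  have h2 : eval₂Hom i (fun a => algebraMap A L (f (X a))) =
      (algebraMap A L).comp f.toRingHom := by
    refine MvPolynomial.ringHom_ext (fun c => ?_) fun a => ?_
    · rw [eval₂Hom_C]
      exact congrArg (algebraMap A L) (f.commutes c).symm
    · rw [eval₂Hom_X']
      rfl
  apply val_injective
  have h3 := DFunLike.congr_fun h1 G
  have h4 := DFunLike.congr_fun h2 G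
  rw [coe_eval₂Hom] at h3 h4
  rw [proj_eval_smul i hG, h4] at h3
  refine h3.trans ?_
  change algebraMap A L (f G) * v ^ n = Localization.mk (f G) ⟨f (X t) ^ n, _⟩
  rw [Localization.mk_pow, ← Algebra.smul_def, Localization.smul_mk, one_pow, smul_eq_mul, mul_one]
  rfl

include hf' in
lemma proj_f_comp (n : ℕ) (G : MvPolynomial α k) :
    f (homogeneousComponent n G) = DirectSum.decompose 𝒜 (f G) n := by
  let F : homogeneousSubmodule α k →+*ᵍ 𝒜 :=
    { __ := f.toRingHom
      map_mem := fun hx => hf' _ _ hx }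
  rw [← decomposition.decompose'_apply]
  exact F.map_directSumDecompose _ _ (x := G) (i := n)

lemma proj_phi_surj (hf : Function.Surjective f) (t : α) :
    Function.Surjective (proj_phi 𝒜 f hf' t) := by
  intro y
  obtain ⟨n, b, hb, rfl⟩ := Away.mk_surjective 𝒜 (proj_X_mem 𝒜 f hf' t) y
  obtain ⟨G, rfl⟩ := hf b
  have h1 : f (homogeneousComponent n G) = f G := by
    rw [proj_f_comp 𝒜 f hf', DirectSum.decompose_of_mem_same 𝒜 (by simpa using hb)]
  refine ⟨homogeneousComponent n G, ?_⟩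
  rw [proj_phi_hom 𝒜 f hf' t (homogeneousComponent_isHomogeneous n G) (h1 ▸ hb)]
  simp only [h1]

lemma proj_phi_ker (t : α) :
    RingHom.ker f ⊔ Ideal.span {X t - 1} ≤ RingHom.ker (proj_phi 𝒜 f hf' t) := by
  refine sup_le (fun G hG => ?_) ?_
  · rw [← sum_homogeneousComponent G]
    refine Ideal.sum_mem _ fun n _ => ?_
    have h1 : f (homogeneousComponent n G) = 0 := by
      rw [proj_f_comp 𝒜 f hf', (RingHom.mem_ker.mp hG : f G = 0), DirectSum.decompose_zero]
      rfl
    rw [RingHom.mem_ker, proj_phi_hom 𝒜 f hf' t (homogeneousComponent_isHomogeneous n G)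
      (h1 ▸ zero_mem _)]
    apply val_injective
    rw [Away.val_mk, val_zero]
    simp only [h1]
    exact Localization.mk_zero _
  · rw [Ideal.span_le, Set.singleton_subset_iff, SetLike.mem_coe, RingHom.mem_ker, map_sub,
      map_one, proj_phi_X, sub_eq_zero]
    apply val_injective
    rw [val_one]
    change Localization.mk (f (X t)) ⟨f (X t) ^ 1, _⟩ = _
    simp only [pow_one]
    exact Localization.mk_self ⟨f (X t), _⟩

lemma proj_frac_mul (t t' a : α) :
    awayMap 𝒜 (proj_X_mem 𝒜 f hf' t') rfl (proj_frac 𝒜 f hf' t a) =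
      awayMap 𝒜 (proj_X_mem 𝒜 f hf' t) (mul_comm _ _) (proj_frac 𝒜 f hf' t' a) *
        awayMap 𝒜 (proj_X_mem 𝒜 f hf' t') rfl (proj_frac 𝒜 f hf' t t') := by
  apply val_injective
  simp only [proj_frac, awayMap_mk, val_mul, Away.val_mk, Localization.mk_mul]
  rw [Localization.mk_eq_mk_iff, Localization.r_iff_exists]
  refine ⟨1, ?_⟩
  simp only [OneMemClass.coe_one, Submonoid.coe_mul]
  ring

include hf' in
lemma proj_irrelevant_le (hf : Function.Surjective f) :
    (HomogeneousIdeal.irrelevant 𝒜).toIdeal ≤ Ideal.span (Set.range fun a => f (X a)) := by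
  intro b hb
  obtain ⟨G, rfl⟩ := hf b
  have h0 : f (homogeneousComponent 0 G) = 0 := by
    rw [proj_f_comp 𝒜 f hf']
    exact (HomogeneousIdeal.mem_irrelevant_iff 𝒜 _).mp hb
  have h1 : G - homogeneousComponent 0 G ∈ Ideal.span (Set.range (X : α → MvPolynomial α k)) := by
    rw [← Set.image_univ, mem_ideal_span_X_image]
    intro m hm
    by_contra hne
    push Not at hne
    have h2 : m = 0 := Finsupp.ext fun i => hne i (Set.mem_univ i)
    rw [h2, homogeneousComponent_zero, mem_support_iff] at hm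
    simp at hm
  have h2 := Ideal.mem_map_of_mem f h1
  rw [Ideal.map_span, ← Set.range_comp, map_sub, h0, sub_zero] at h2
  exact h2

end proj_aux

theorem exists_stdCharts {α : Type} {A : Type u} [CommRing A] [Algebra k A]
    (𝒜 : ℕ → Submodule k A) [GradedAlgebra 𝒜] (f : MvPolynomial α k →ₐ[k] A)
    (hf : Function.Surjective f) (hf' : ∀ n G, G.IsHomogeneous n → f G ∈ 𝒜 n)
    (𝔨 : α → Ideal (MvPolynomial α k)) (h𝔨 : ∀ t, 𝔨 t = RingHom.ker f ⊔ Ideal.span {X t - 1}) :
    ∃ c, StdCharts 𝔨 (Proj.toSpecZero 𝒜 ≫ Spec.map (CommRingCat.ofHom (algebraMap k (𝒜 0)))) c := by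
  have hx := proj_X_mem 𝒜 f hf'
  have hg : ∀ t, ∃ g : A →+* MvPolynomial α k ⧸ 𝔨 t, ∀ G, g (f G) = Ideal.Quotient.mk _ G :=
    fun t => ⟨f.toRingHom.liftOfSurjective hf ⟨Ideal.Quotient.mk _, by
      rw [Ideal.mk_ker, h𝔨]; exact le_sup_left⟩,
      fun G => f.toRingHom.liftOfRightInverse_comp_apply _ _ _ G⟩
  choose g hg using hg
  have hone : ∀ t, Ideal.Quotient.mk (𝔨 t) (X t) = 1 := fun t => by
    rw [← map_one (Ideal.Quotient.mk (𝔨 t)), Ideal.Quotient.eq, h𝔨]
    exact Ideal.mem_sup_right (Ideal.mem_span_singleton_self _)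
  have hu : ∀ t, IsUnit (g t (f (X t))) := fun t => by
    rw [hg, hone]
    exact isUnit_one
  let ψ : ∀ t, HomogeneousLocalization.Away 𝒜 (f (X t)) →+* MvPolynomial α k ⧸ 𝔨 t :=
    fun t => proj_ev 𝒜 (g t) _ (hu t)
  have hψX : ∀ t a, ψ t (proj_frac 𝒜 f hf' t a) = Ideal.Quotient.mk _ (X a) := fun t a => by
    have h1 := proj_ev_mk 𝒜 (g t) (hu t) (hx t) 1 (f (X a)) (hx a)
    rw [hg, hg, hone, one_pow, mul_one] at h1
    exact h1
  have hψC : ∀ t (c : k), ψ t (HomogeneousLocalization.fromZeroRingHom 𝒜 _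
      (algebraMap k (𝒜 0) c)) = algebraMap k _ c := fun t c => by
    refine (proj_ev_zero 𝒜 (g t) (hu t) _).trans ?_
    change g t (algebraMap k A c) = _
    rw [← f.commutes, hg]
    rfl
  have hψφ : ∀ t G, ψ t (proj_phi 𝒜 f hf' t G) = Ideal.Quotient.mk _ G := fun t => by
    have h1 : (ψ t).comp (proj_phi 𝒜 f hf' t) = Ideal.Quotient.mk _ := by
      refine MvPolynomial.ringHom_ext (fun c => ?_) fun a => ?_
      · rw [RingHom.comp_apply, proj_phi_C, hψC]
        rfl
      · rw [RingHom.comp_apply, proj_phi_X, hψX]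
    exact DFunLike.congr_fun h1
  have hbij : ∀ t, Function.Bijective (ψ t) := fun t => by
    refine ⟨(injective_iff_map_eq_zero _).mpr fun y hy => ?_, fun z => ?_⟩
    · obtain ⟨G, rfl⟩ := proj_phi_surj 𝒜 f hf' hf t y
      rw [hψφ, Ideal.Quotient.eq_zero_iff_mem, h𝔨] at hy
      exact proj_phi_ker 𝒜 f hf' t hy
    · obtain ⟨G, rfl⟩ := Ideal.Quotient.mk_surjective z
      exact ⟨_, hψφ t G⟩
  have hiso : ∀ t, IsIso (CommRingCat.ofHom (ψ t)) := fun t =>
    (ConcreteCategory.isIso_iff_bijective _).mpr (hbij t)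
  refine ⟨fun t => Spec.map (CommRingCat.ofHom (ψ t)) ≫ Proj.awayι 𝒜 _ (hx t) one_pos,
    fun t => inferInstance, fun y => ?_, fun t => ?_, fun C _ _ t t' χ χ' => ⟨fun h a => ?_, ?_⟩⟩
  · have h1 := Proj.iSup_basicOpen_eq_top 𝒜 _ (proj_irrelevant_le 𝒜 f hf' hf)
    obtain ⟨t, ht⟩ := TopologicalSpace.Opens.mem_iSup.mp (h1.ge (Set.mem_univ y))
    rw [← Proj.opensRange_awayι 𝒜 _ (hx t) one_pos,
      ← Scheme.Hom.opensRange_comp_of_isIso (Spec.map (CommRingCat.ofHom (ψ t)))] at ht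
    exact ⟨t, ht⟩
  · rw [Category.assoc, Proj.awayι_toSpecZero_assoc, ← Spec.map_comp, ← Spec.map_comp]
    exact congrArg Spec.map (CommRingCat.hom_ext (RingHom.ext fun c => hψC t c))
  · rw [← Category.assoc, ← Category.assoc] at h
    obtain ⟨θ, hθ⟩ := Spec.map_surjective (pullback.lift _ _ h ≫
      (Proj.pullbackAwayιIso 𝒜 (hx t) one_pos (hx t') one_pos rfl).hom)
    have h1 := Proj.pullbackAwayιIso_hom_SpecMap_awayMap_left 𝒜 (hx t) one_pos (hx t') one_pos rfl
    have h2 := Proj.pullbackAwayιIso_hom_SpecMap_awayMap_right 𝒜 (hx t) one_pos (hx t') one_pos rfl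
    have h3 := congrArg (fun z => pullback.lift _ _ h ≫ z) h1
    have h4 := congrArg (fun z => pullback.lift _ _ h ≫ z) h2
    simp only [pullback.lift_fst, pullback.lift_snd] at h3 h4
    rw [← Category.assoc, ← hθ, ← Spec.map_comp, ← Spec.map_comp] at h3 h4
    have h5 := fun z => congrArg (fun w => w.hom z) (Spec.map_injective h3)
    have h6 := fun z => congrArg (fun w => w.hom z) (Spec.map_injective h4)
    have h7 := congrArg θ.hom (proj_frac_mul 𝒜 f hf' t t' a)
    rw [map_mul] at h7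
    rw [← hψX, ← hψX, ← hψX]
    exact (h5 _).symm.trans (h7.trans (congrArg₂ (· * ·) (h6 _) (h5 _)))
  · intro h
    let G : A →+* C := χ.toRingHom.comp (g t)
    have hG : ∀ a, G (f (X a)) = χ (Ideal.Quotient.mk _ (X a)) := fun a => congrArg χ (hg t _)
    have hu1 : IsUnit (G (f (X t))) := (hu t).map χ.toRingHom
    have hu2 : IsUnit (G (f (X t'))) := by
      have h1 := h t
      rw [hone, map_one, ← hG] at h1
      exact IsUnit.of_mul_eq_one_right _ h1.symm
    have hu3 : IsUnit (G (f (X t) * f (X t'))) := by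
      rw [map_mul]
      exact hu1.mul hu2
    have e1 : ∀ (s : α) (hs : IsUnit (G (f (X s)))) (c : k), proj_ev 𝒜 G _ hs
        (HomogeneousLocalization.fromZeroRingHom 𝒜 _ (algebraMap k (𝒜 0) c)) =
        algebraMap k C c := fun s hs c => by
      refine (proj_ev_zero 𝒜 G hs _).trans ?_
      change χ (g t (algebraMap k A c)) = _
      rw [← f.commutes, hg]
      exact χ.commutes c
    have e2 : proj_ev 𝒜 G _ hu1 = χ.toRingHom.comp (ψ t) := by
      refine (RingHom.cancel_right (proj_phi_surj 𝒜 f hf' hf t)).mp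
        (MvPolynomial.ringHom_ext (fun c => ?_) fun a => ?_)
      · rw [RingHom.comp_apply, RingHom.comp_apply, RingHom.comp_apply, proj_phi_C, e1, hψC]
        exact (χ.commutes c).symm
      · rw [RingHom.comp_apply, RingHom.comp_apply, RingHom.comp_apply, proj_phi_X, hψX]
        have h1 := proj_ev_mk 𝒜 G hu1 (hx t) 1 (f (X a)) (hx a)
        rw [hG, hG, hone, map_one, one_pow, mul_one] at h1
        exact h1
    have e3 : proj_ev 𝒜 G _ hu2 = χ'.toRingHom.comp (ψ t') := by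
      refine (RingHom.cancel_right (proj_phi_surj 𝒜 f hf' hf t')).mp
        (MvPolynomial.ringHom_ext (fun c => ?_) fun a => ?_)
      · rw [RingHom.comp_apply, RingHom.comp_apply, RingHom.comp_apply, proj_phi_C, e1, hψC]
        exact (χ'.commutes c).symm
      · rw [RingHom.comp_apply, RingHom.comp_apply, RingHom.comp_apply, proj_phi_X, hψX]
        have h1 := proj_ev_mk 𝒜 G hu2 (hx t') 1 (f (X a)) (hx a)
        rw [pow_one, hG a, h a, ← hG t'] at h1
        exact hu2.mul_right_cancel h1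
    have e4 := proj_ev_awayMap 𝒜 G (hx t) (hx t') rfl hu3 hu1
    have e5 := proj_ev_awayMap 𝒜 G (hx t') (hx t) (mul_comm _ _) hu3 hu2
    rw [← Category.assoc, ← Category.assoc, ← Spec.map_comp, ← Spec.map_comp,
      ← CommRingCat.ofHom_comp, ← CommRingCat.ofHom_comp, ← e2, ← e3, ← e4, ← e5,
      CommRingCat.ofHom_comp, CommRingCat.ofHom_comp, Spec.map_comp, Spec.map_comp,
      Category.assoc, Category.assoc, Proj.SpecMap_awayMap_awayι, Proj.SpecMap_awayMap_awayι]

end

end Pool.Agent.Lib.MP_1c03d5_ag
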