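import Mathlib

/-!
# Etale equivalence relations on finite families of affine charts (definitions only)
-/

open TensorProduct MvPolynomial

universe u

namespace Pool.Agent.Lib.MP_1c03d5_ag

noncomputable section

variable (k : Type u) [Field k]

/-- Valuation rings of `K / k` (the trivial one included). -/
@[ext] structure Val (K : Type u) [Field K] [Algebra k K] where
  O : ValuationSubring K
  hk : ∀ c, algebraMap k K c ∈ O

/-- A finite family of affine charts. -/
structure Fam where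
  ι : Type
  [fin : Finite ι]
  A : ι → Type u
  [cr : ∀ i, CommRing (A i)]
  [alg : ∀ i, Algebra k (A i)]
  [dom : ∀ i, IsDomain (A i)]
  [ft : ∀ i, Algebra.FiniteType k (A i)]

attribute [instance] Fam.fin Fam.cr Fam.alg Fam.dom Fam.ft

/-- Charts with closed subschemes of their products. -/
structure PreRel extends Fam k where
  J : ∀ i j, Ideal (A i ⊗[k] A j)

variable {k}

section val

variable {K : Type u} [Field K] [Algebra k K]

/-- The (multiplicative) valuation. -/
abbrev Val.v (w : Val k K) : Valuation K w.O.ValueGroup := w.O.valuation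

/-- The valuation ring as a subalgebra. -/
def Val.sub (w : Val k K) : Subalgebra k K := { w.O.toSubring with algebraMap_mem' := w.hk }

/-- Restriction of a valuation. -/
def Val.comap {K' : Type u} [Field K'] [Algebra k K'] (w : Val k K') (j : K →ₐ[k] K') : Val k K :=
  ⟨w.O.comap j.toRingHom, fun c => by simpa [ValuationSubring.mem_comap] using w.hk c⟩

end val

namespace Fam

variable (F : Fam k)

instance (i : F.ι) : IsNoetherianRing (F.A i) := Algebra.FiniteType.isNoetherianRing k _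

/-- Points with values in `C`. -/
abbrev Pt (C : Type u) [CommRing C] [Algebra k C] : Type u := Σ i, F.A i →ₐ[k] C

/-- Families of ideals. -/
abbrev Idl : Type u := ∀ i, Ideal (F.A i)

/-- Families of elements. -/
abbrev El : Type u := ∀ i, F.A i

variable {F} {C C' : Type u} [CommRing C] [Algebra k C] [CommRing C'] [Algebra k C']

/-- Functoriality of points. -/
abbrev Pt.map (σ : F.Pt C) (φ : C →ₐ[k] C') : F.Pt C' := ⟨σ.1, φ.comp σ.2⟩

/-- Value of a family at a point. -/
abbrev Pt.val (σ : F.Pt C) (a : F.El) : C := σ.2 (a σ.1)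

/-- The kernel of a point. -/
abbrev Pt.ker (σ : F.Pt C) : Ideal (F.A σ.1) := RingHom.ker σ.2

/-- The point lies in the closed subscheme defined by `I`. -/
abbrev Pt.In (σ : F.Pt C) (I : F.Idl) : Prop := I σ.1 ≤ σ.ker

/-- `x` is integral over the image of the chart. -/
abbrev Pt.Int (σ : F.Pt C) (x : C) : Prop := IsIntegral σ.2.range x

/-- The point takes values in the valuation ring. -/
abbrev Pt.Cen {K : Type u} [Field K] [Algebra k K] (σ : F.Pt K) (w : Val k K) : Prop :=
  ∀ a, σ.2 a ∈ w.O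

end Fam

/-- `F'` is an etale cover of `F` along which points of local rings lift. -/
structure Refines (F' F : Fam k) where
  r : F'.ι → F.ι
  φ : ∀ i, F.A (r i) →ₐ[k] F'.A i
  et : ∀ i, (φ i).toRingHom.Etale
  cover : ∀ (C : Type u) [CommRing C] [Algebra k C] [IsLocalRing C] (σ : F.Pt C),
    ∃ σ' : F'.Pt C, (⟨r σ'.1, σ'.2.comp (φ σ'.1)⟩ : F.Pt C) = σ

/-- The image of a point of the refinement. -/
abbrev Refines.res {F' F : Fam k} (ρ : Refines F' F) {C : Type u} [CommRing C] [Algebra k C]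
    (σ : F'.Pt C) : F.Pt C := ⟨ρ.r σ.1, σ.2.comp (ρ.φ σ.1)⟩

/-- The map `x_u ↦ s_u / s_t` to a chart. -/
def chartMap {F : Fam k} {α : Type} (s : α → F.El) (t : α) (i : F.ι) :
    MvPolynomial α k →ₐ[k] Localization.Away (s t i) :=
  aeval fun a => algebraMap (F.A i) _ (s a i) * IsLocalization.Away.invSelf (s t i)

/-- The ideal of the image of the charts in the affine chart `x_t = 1`. -/
def chartKer {F : Fam k} {α : Type} (s : α → F.El) (t : α) : Ideal (MvPolynomial α k) :=
  ⨅ i, RingHom.ker (chartMap s t i)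

/-- The induced map from the coordinate ring of the image. -/
def chartLift {F : Fam k} {α : Type} (s : α → F.El) (t : α) (i : F.ι) :
    (MvPolynomial α k ⧸ chartKer s t) →ₐ[k] Localization.Away (s t i) :=
  Ideal.Quotient.liftₐ _ (chartMap s t i) fun _ h => (Submodule.mem_iInf _).1 h i

/-- The point of `F` under a point of a localised chart. -/
abbrev awayPt {F : Fam k} {i : F.ι} {a : F.A i} {C : Type u} [CommRing C] [Algebra k C]
    (σ : Localization.Away a →ₐ[k] C) : F.Pt C :=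
  ⟨i, σ.comp (IsScalarTower.toAlgHom k (F.A i) _)⟩

/-- Data of an embedding of the quotient of `F` by `R` into projective space. -/
structure EmbOn (F : Fam k)
    (R : ∀ (C : Type u) [CommRing C] [Algebra k C], F.Pt C → F.Pt C → Prop) where
  α : Type
  [fin : Finite α]
  s : α → F.El
  good : Set α
  prop : ∀ (C : Type u) [CommRing C] [Algebra k C] (σ τ : F.Pt C), R C σ τ →
    ∃ g : Cˣ, ∀ a, σ.val (s a) = g * τ.val (s a)
  gen : ∀ i, Ideal.span ((fun a => s a i) '' good) = ⊤
  et : ∀ t ∈ good, ∀ i, (chartLift s t i).toRingHom.Etale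
  surj : ∀ t ∈ good, ∀ 𝔭 : Ideal (MvPolynomial α k), 𝔭.IsPrime → chartKer s t ≤ 𝔭 →
    ∃ (i : F.ι) (𝔮 : Ideal (Localization.Away (s t i))), 𝔮.IsPrime ∧ 𝔮.comap (chartMap s t i) = 𝔭
  rel : ∀ t ∈ good, ∀ (C : Type u) [CommRing C] [Algebra k C] (i j : F.ι)
    (σ : Localization.Away (s t i) →ₐ[k] C) (τ : Localization.Away (s t j) →ₐ[k] C),
    σ.comp (chartMap s t i) = τ.comp (chartMap s t j) → R C (awayPt σ) (awayPt τ)
  cover : ∀ t, ∀ 𝔭 : Ideal (MvPolynomial α k), 𝔭.IsPrime → chartKer s t ≤ 𝔭 →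
    ∃ a ∈ good, X a ∉ 𝔭

attribute [instance] EmbOn.fin

namespace PreRel

variable (P : PreRel k)

/-- The coordinate ring of the relation over a pair of charts. -/
abbrev B (i j : P.ι) : Type u := (P.A i ⊗[k] P.A j) ⧸ P.J i j

/-- First projection. -/
def s (i j : P.ι) : P.A i →ₐ[k] P.B i j :=
  (Ideal.Quotient.mkₐ k _).comp Algebra.TensorProduct.includeLeft

/-- Second projection. -/
def t (i j : P.ι) : P.A j →ₐ[k] P.B i j :=
  (Ideal.Quotient.mkₐ k _).comp Algebra.TensorProduct.includeRight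

variable {C : Type u} [CommRing C] [Algebra k C]

/-- Related points. -/
def Rel (σ τ : P.Pt C) : Prop :=
  ∀ x ∈ P.J σ.1 τ.1, Algebra.TensorProduct.productMap σ.2 τ.2 x = 0

variable {P}

/-- The point of the relation given by two related points. -/
def Rel.ev {σ τ : P.Pt C} (h : P.Rel σ τ) : P.B σ.1 τ.1 →ₐ[k] C :=
  Ideal.Quotient.liftₐ _ (Algebra.TensorProduct.productMap σ.2 τ.2) h

@[simp] lemma Rel.ev_s {σ τ : P.Pt C} (h : P.Rel σ τ) (a) : h.ev (P.s _ _ a) = σ.2 a := by
  simp [Rel.ev, s]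

@[simp] lemma Rel.ev_t {σ τ : P.Pt C} (h : P.Rel σ τ) (a) : h.ev (P.t _ _ a) = τ.2 a := by
  simp [Rel.ev, t]

variable (P)

/-- Invariant families of ideals. -/
def Inv (I : P.Idl) : Prop := ∀ i j, (I i).map (P.s i j) = (I j).map (P.t i j)

/-- Line bundles that are trivial on the charts. -/
def LB : Subgroup (∀ i j, (P.B i j)ˣ) where
  carrier := {g | ∀ (Ω : Type u) [Field Ω] [Algebra k Ω] (ρ σ τ : P.Pt Ω) (h1 : P.Rel ρ σ)
    (h2 : P.Rel σ τ) (h3 : P.Rel ρ τ),
      h1.ev (g ρ.1 σ.1 : P.B _ _) * h2.ev (g σ.1 τ.1 : P.B _ _) = h3.ev (g ρ.1 τ.1 : P.B _ _)}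
  one_mem' := fun _ _ _ _ _ _ _ _ _ => by simp
  mul_mem' := fun hg hg' Ω _ _ ρ σ τ h1 h2 h3 => by
    simp only [Pi.mul_apply, Units.val_mul, map_mul]
    rw [← hg Ω ρ σ τ h1 h2 h3, ← hg' Ω ρ σ τ h1 h2 h3]; ring
  inv_mem' := fun {g} hg Ω _ _ ρ σ τ h1 h2 h3 => by
    simp only [Pi.inv_apply, map_units_inv]
    rw [← hg Ω ρ σ τ h1 h2 h3, mul_inv]

variable {P}

/-- The transition function of a line bundle at a pair of related points. -/
abbrev Rel.tr {σ τ : P.Pt C} (h : P.Rel σ τ) (L : P.LB) : C := h.ev (L.1 σ.1 τ.1 : P.B _ _)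

variable (P)

/-- Sections of `L` on the closed subspace defined by `I`. -/
def IsSec (L : P.LB) (I : P.Idl) (a : P.El) : Prop :=
  ∀ i j, P.s i j (a i) - (L.1 i j : P.B i j) * P.t i j (a j) ∈ (I i).map (P.s i j)

/-- The algebraic closure of `k(y)`. -/
abbrev _root_.Pool.Agent.Lib.MP_1c03d5_ag.Om (k : Type u) [Field k] : Type u :=
  AlgebraicClosure (RatFunc k)

/-- Every `k(y)`-point of the quotient is constant. -/
def NoRat : Prop := ∀ σ : P.Pt (Om k), (∀ a, IsSeparable (RatFunc k) (σ.2 a)) →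
  (∀ γ : Om k ≃ₐ[RatFunc k] Om k, P.Rel (σ.map (γ.restrictScalars k).toAlgHom) σ) →
  ∀ a, σ.2 a ∈ (algebraMap k (Om k)).range

/-- The quotient embeds into projective space. -/
def Emb : Prop := ∃ (F : Fam k) (ρ : Refines F P.toFam),
  Nonempty (EmbOn F fun _ _ _ σ τ => P.Rel (ρ.res σ) (ρ.res τ))

end PreRel

variable (k)

/-- An etale equivalence relation with proper quotient. -/
structure EqRel extends PreRel k where
  et_s : ∀ i j, (toPreRel.s i j).toRingHom.Etale
  et_t : ∀ i j, (toPreRel.t i j).toRingHom.Etale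
  refl : ∀ (C : Type u) [CommRing C] [Algebra k C] (σ : toFam.Pt C), toPreRel.Rel σ σ
  symm : ∀ (C : Type u) [CommRing C] [Algebra k C] (σ τ : toFam.Pt C),
    toPreRel.Rel σ τ → toPreRel.Rel τ σ
  trans : ∀ (C : Type u) [CommRing C] [Algebra k C] (ρ σ τ : toFam.Pt C),
    toPreRel.Rel ρ σ → toPreRel.Rel σ τ → toPreRel.Rel ρ τ
  proper : ∀ (Ω : Type u) [Field Ω] [Algebra k Ω] [IsAlgClosed Ω] (w : Val k Ω) (σ : toFam.Pt Ω),
    ∃ τ : toFam.Pt Ω, toPreRel.Rel σ τ ∧ τ.Cen w

/-- The smooth case: the charts are etale over affine spaces. -/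
structure Pres extends EqRel k where
  n : ι → ℕ
  x : ∀ i, Fin (n i) → A i
  et : ∀ i, (aeval (x i) : MvPolynomial (Fin (n i)) k →ₐ[k] A i).toRingHom.Etale

/-- The smooth connected case. -/
structure CPres extends EqRel k where
  n : ℕ
  x : ∀ i, Fin n → A i
  et : ∀ i, (aeval (x i) : MvPolynomial (Fin n) k →ₐ[k] A i).toRingHom.Etale
  conn : ∀ i j, J i j ≠ ⊤
  ne : Nonempty ι

instance (P : CPres k) (i j : P.ι) : Nontrivial (P.B i j) :=
  Ideal.Quotient.nontrivial_iff.2 (P.conn i j)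

end

end Pool.Agent.Lib.MP_1c03d5_ag
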