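import Pool.Agent.Lib.MP_1c03d5_ag.Flat2
import Pool.Agent.Lib.MP_1c03d5_ag.PB1
import Pool.Agent.Lib.MP_1c03d5_ag.Val

/-!
# TASK REL: invariant ideals, sections, related points
-/

open MvPolynomial

universe u

namespace Pool.Agent.Lib.MP_1c03d5_ag

noncomputable section

variable {k : Type u} [Field k] {C C' : Type u} [CommRing C] [Algebra k C] [CommRing C']
  [Algebra k C']

theorem rell_pm {A A' : Type u} [CommRing A] [Algebra k A] [CommRing A'] [Algebra k A']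
    (f : A →ₐ[k] C) (g : A' →ₐ[k] C) (φ : C →ₐ[k] C') (x : TensorProduct k A A') :
    Algebra.TensorProduct.productMap (φ.comp f) (φ.comp g) x =
      φ (Algebra.TensorProduct.productMap f g x) := by
  induction x using TensorProduct.induction_on with
  | zero => simp
  | tmul a b => simp
  | add x y hx hy => rw [map_add, map_add, map_add, hx, hy]

theorem rell_flat {R S : Type u} [CommRing R] [CommRing S] {φ : R →+* S} (h : φ.Etale) :
    φ.Flat := (RingHom.Etale.iff_flat_and_formallyUnramified.1 h).1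

theorem rell_aeval {ι : Type*} (g : C) (y : ι → C) {m : ℕ} {θ : MvPolynomial ι k}
    (hθ : θ.IsHomogeneous m) : aeval (fun j => g * y j) θ = g ^ m * aeval y θ := by
  rw [θ.as_sum, map_sum, map_sum, Finset.mul_sum]
  refine Finset.sum_congr rfl fun d hd => ?_
  have hm : ∑ j ∈ d.support, d j = m := by
    have := hθ (mem_support_iff.1 hd)
    simpa [Finsupp.weight_apply, Finsupp.sum] using this
  rw [aeval_monomial, aeval_monomial, Finsupp.prod, Finsupp.prod]
  simp only [mul_pow]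
  rw [Finset.prod_mul_distrib, Finset.prod_pow_eq_pow_sum, hm]
  ring

theorem rell_aeval2 {A A' : Type u} [CommRing A] [Algebra k A] [CommRing A'] [Algebra k A']
    {ι : Type*} (s : A →ₐ[k] C) (t : A' →ₐ[k] C) (q : C →ₐ[k] C') (g : C) (y : ι → A)
    (y' : ι → A') (h : ∀ x, q (s (y x)) = q (g * t (y' x))) {m : ℕ} {θ : MvPolynomial ι k}
    (hθ : θ.IsHomogeneous m) : q (s (aeval y θ)) = q (g ^ m * t (aeval y' θ)) := by
  have h3 : q (s (aeval y θ)) = aeval (fun x => q (s (y x))) θ :=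
    comp_aeval_apply y (q.comp s) θ
  have h4 : q (t (aeval y' θ)) = aeval (fun x => q (t (y' x))) θ :=
    comp_aeval_apply y' (q.comp t) θ
  rw [map_mul, map_pow, h3, h4, ← rell_aeval _ _ hθ]
  simp only [h, map_mul]

theorem rell_pushout {R S S' : Type u} [CommRing R] [Algebra k R] [CommRing S] [Algebra k S]
    [CommRing S'] [Algebra k S'] (f : R →ₐ[k] S) (g : R →ₐ[k] S') (hf : f.toRingHom.Etale)
    (hg : g.toRingHom.Etale) : ∃ (T : Type u) (_ : CommRing T) (_ : Algebra k T)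
      (a : S →ₐ[k] T) (b : S' →ₐ[k] T), a.toRingHom.Etale ∧ b.toRingHom.Etale ∧
      a.comp f = b.comp g ∧ ∀ (C : Type u) [CommRing C] [Algebra k C] (a' : S →ₐ[k] C)
        (b' : S' →ₐ[k] C), a'.comp f = b'.comp g →
        ∃ χ : T →ₐ[k] C, χ.comp a = a' ∧ χ.comp b = b' := by
  let := f.toRingHom.toAlgebra
  let := g.toRingHom.toAlgebra
  have : IsScalarTower k R S := IsScalarTower.of_algebraMap_eq fun c => (f.commutes c).symm
  have : IsScalarTower k R S' := IsScalarTower.of_algebraMap_eq fun c => (g.commutes c).symm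
  have : Algebra.Etale R S := hf.toAlgebra
  have : Algebra.Etale R S' := hg.toAlgebra
  refine ⟨TensorProduct R S S', inferInstance, inferInstance, Algebra.TensorProduct.includeLeft,
    (Algebra.TensorProduct.includeRight (R := R)).restrictScalars k, ?_, ?_, ?_, ?_⟩
  · exact RingHom.etale_algebraMap.2 (inferInstance : Algebra.Etale S (TensorProduct R S S'))
  · have h1 : (algebraMap S' (TensorProduct R S' S)).Etale :=
      RingHom.etale_algebraMap.2 inferInstance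
    have h2 := RingHom.Etale.stableUnderComposition _ _ h1
      (RingHom.Etale.of_bijective
        (f := (Algebra.TensorProduct.comm R S' S).toRingEquiv.toRingHom)
        (Algebra.TensorProduct.comm R S' S).bijective)
    convert h2 using 1
    ext x
    simp
  · ext x
    exact (Algebra.TensorProduct.tmul_one_eq_one_tmul (R := R) (A := S) (B := S') x)
  · intro C _ _ a' b' h
    let := (a'.comp f).toRingHom.toAlgebra
    have : IsScalarTower k R C :=
      IsScalarTower.of_algebraMap_eq fun c => ((a'.comp f).commutes c).symm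
    let a'' : S →ₐ[R] C := { a'.toRingHom with commutes' := fun _ => rfl }
    let b'' : S' →ₐ[R] C :=
      { b'.toRingHom with commutes' := fun r => (DFunLike.congr_fun h r).symm }
    refine ⟨(Algebra.TensorProduct.productMap a'' b'').restrictScalars k, ?_, ?_⟩
    · ext x
      exact Algebra.TensorProduct.productMap_left_apply a'' b'' x
    · ext x
      exact Algebra.TensorProduct.productMap_right_apply a'' b'' x

namespace PreRel

variable {P : PreRel k}

theorem Rel.map {σ τ : P.Pt C} (h : P.Rel σ τ) (φ : C →ₐ[k] C') : P.Rel (σ.map φ) (τ.map φ) :=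
  fun x hx => by rw [rell_pm, h x hx, map_zero]

theorem Rel.of_map {σ τ : P.Pt C} {φ : C →ₐ[k] C'} (hφ : Function.Injective φ)
    (h : P.Rel (σ.map φ) (τ.map φ)) : P.Rel σ τ :=
  fun x hx => hφ (by rw [map_zero, ← rell_pm]; exact h x hx)

theorem Rel.ev_map {σ τ : P.Pt C} (h : P.Rel σ τ) (φ : C →ₐ[k] C') (b) :
    (h.map φ).ev b = φ (h.ev b) := by
  obtain ⟨x, rfl⟩ := Ideal.Quotient.mk_surjective b
  exact rell_pm _ _ φ x

theorem rell_st (i j : P.ι) (x) :
    Algebra.TensorProduct.productMap (P.s i j) (P.t i j) x = Ideal.Quotient.mk (P.J i j) x := by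
  induction x using TensorProduct.induction_on with
  | zero => simp
  | tmul a b =>
    simp only [Algebra.TensorProduct.productMap_apply_tmul, s, t, AlgHom.comp_apply,
      Ideal.Quotient.mkₐ_eq_mk, ← map_mul]
    simp
  | add x y hx hy => rw [map_add, map_add, hx, hy]

theorem rell_ind {i j : P.ι} {Q : P.B i j → Prop} (h0 : Q 0)
    (h1 : ∀ a b, Q (P.s i j a * P.t i j b)) (h2 : ∀ x y, Q x → Q y → Q (x + y)) (b) : Q b := by
  obtain ⟨x, rfl⟩ := Ideal.Quotient.mk_surjective b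
  rw [← rell_st]
  induction x using TensorProduct.induction_on with
  | zero => rw [map_zero]; exact h0
  | tmul a b => exact h1 a b
  | add x y hx hy => rw [map_add]; exact h2 _ _ hx hy

/-- The universal pair of related points. -/
theorem rel_st (i j : P.ι) : P.Rel (⟨i, P.s i j⟩ : P.Pt (P.B i j)) ⟨j, P.t i j⟩ :=
  fun x hx => (rell_st i j x).trans (Ideal.Quotient.eq_zero_iff_mem.2 hx)

theorem rel_of_hom {i j : P.ι} (ρ : P.B i j →ₐ[k] C) :
    P.Rel (⟨i, ρ.comp (P.s i j)⟩ : P.Pt C) ⟨j, ρ.comp (P.t i j)⟩ := (rel_st i j).map ρ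

theorem ev_rel_of_hom {i j : P.ι} (ρ : P.B i j →ₐ[k] C) : (rel_of_hom ρ).ev = ρ := by
  refine AlgHom.ext fun b => ?_
  obtain ⟨x, rfl⟩ := Ideal.Quotient.mk_surjective b
  exact (rell_pm _ _ ρ x).trans (congrArg ρ (rell_st i j x))

theorem hom_ext {i j : P.ι} {ρ ρ' : P.B i j →ₐ[k] C} (hs : ρ.comp (P.s i j) = ρ'.comp (P.s i j))
    (ht : ρ.comp (P.t i j) = ρ'.comp (P.t i j)) : ρ = ρ' := by
  refine AlgHom.ext (rell_ind (by simp) (fun a b => ?_) fun x y hx hy => ?_)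
  · have h1 : ρ (P.s i j a) = ρ' (P.s i j a) := DFunLike.congr_fun hs a
    have h2 : ρ (P.t i j b) = ρ' (P.t i j b) := DFunLike.congr_fun ht b
    rw [map_mul, map_mul, h1, h2]
  · rw [map_add, map_add, hx, hy]

theorem Rel.ev_mem {σ τ : P.Pt C} (h : P.Rel σ τ) (R : Subalgebra k C) (h1 : ∀ a, σ.2 a ∈ R)
    (h2 : ∀ a, τ.2 a ∈ R) (b) : h.ev b ∈ R := by
  refine rell_ind (Q := fun b => h.ev b ∈ R) (by simp) (fun a b => ?_) (fun x y hx hy => ?_) b
  · rw [map_mul, h.ev_s, h.ev_t]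
    exact R.mul_mem (h1 a) (h2 b)
  · rw [map_add]
    exact R.add_mem hx hy

theorem Rel.rell_s {σ τ : P.Pt C} (h : P.Rel σ τ) : h.ev.comp (P.s _ _) = σ.2 :=
  AlgHom.ext h.ev_s

theorem Rel.rell_t {σ τ : P.Pt C} (h : P.Rel σ τ) : h.ev.comp (P.t _ _) = τ.2 :=
  AlgHom.ext h.ev_t

theorem Rel.rell_v {K : Type u} [Field K] [Algebra k K] {σ τ : P.Pt K} (h : P.Rel σ τ)
    {w : Val k K} (h1 : σ.Cen w) (h2 : τ.Cen w) (b) : w.v (h.ev b) ≤ 1 :=
  Val.v_le_one.2 (h.ev_mem w.sub h1 h2 b)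

theorem Rel.isUnit_tr {σ τ : P.Pt C} (h : P.Rel σ τ) (L : P.LB) : IsUnit (h.tr L) :=
  (L.1 σ.1 τ.1).isUnit.map h.ev

theorem Rel.tr_mul {σ τ : P.Pt C} (h : P.Rel σ τ) (L L' : P.LB) :
    h.tr (L * L') = h.tr L * h.tr L' := map_mul h.ev _ _

theorem Rel.tr_pow {σ τ : P.Pt C} (h : P.Rel σ τ) (L : P.LB) (m : ℕ) :
    h.tr (L ^ m) = h.tr L ^ m := by
  simp [Rel.tr]

theorem Rel.tr_one {σ τ : P.Pt C} (h : P.Rel σ τ) : h.tr 1 = 1 := map_one h.ev

theorem Rel.v_tr {K : Type u} [Field K] [Algebra k K] {σ τ : P.Pt K} (h : P.Rel σ τ) (L : P.LB)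
    {w : Val k K} (h1 : σ.Cen w) (h2 : τ.Cen w) : w.v (h.tr L) = 1 := by
  refine le_antisymm (h.rell_v h1 h2 _) ?_
  have h3 := h.rell_v h1 h2 ((L.1 σ.1 τ.1)⁻¹ : (P.B _ _)ˣ)
  have h4 : w.v (h.tr L) * w.v (h.ev ((L.1 σ.1 τ.1)⁻¹ : (P.B _ _)ˣ)) = 1 := by
    rw [← map_mul, ← map_mul, Units.mul_inv, map_one, map_one]
  calc 1 = _ := h4.symm
    _ ≤ w.v (h.tr L) * 1 := mul_le_mul_right h3 _
    _ = _ := mul_one _

theorem Rel.tr_self {K : Type u} [Field K] [Algebra k K] {σ : P.Pt K} (h : P.Rel σ σ) (L : P.LB) :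
    h.tr L = 1 :=
  mul_left_cancel₀ (h.isUnit_tr L).ne_zero ((L.2 K σ σ σ h h h).trans (mul_one _).symm)

theorem Inv.bot : P.Inv ⊥ := fun _ _ => by simp

theorem Inv.top : P.Inv ⊤ := fun _ _ => by simp [Ideal.map_top]

theorem Inv.mul {I J : P.Idl} (hI : P.Inv I) (hJ : P.Inv J) : P.Inv (I * J) := fun i j => by
  rw [Pi.mul_apply, Pi.mul_apply, Ideal.map_mul, Ideal.map_mul, hI i j, hJ i j]

theorem Inv.pow {I : P.Idl} (hI : P.Inv I) (n : ℕ) : P.Inv (I ^ n) := fun i j => by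
  rw [Pi.pow_apply, Pi.pow_apply, Ideal.map_pow, Ideal.map_pow, hI i j]

theorem Inv.sup {I J : P.Idl} (hI : P.Inv I) (hJ : P.Inv J) : P.Inv (I ⊔ J) := fun i j => by
  rw [Pi.sup_apply, Pi.sup_apply, Ideal.map_sup, Ideal.map_sup, hI i j, hJ i j]

/-- Invariant ideals generate the same ideal at related points. -/
theorem Inv.map_eq {I : P.Idl} (hI : P.Inv I) {σ τ : P.Pt C} (h : P.Rel σ τ) :
    (I σ.1).map σ.2 = (I τ.1).map τ.2 := by
  rw [← h.rell_s, ← h.rell_t, ← Ideal.map_mapₐ, ← Ideal.map_mapₐ, hI]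

theorem Inv.in_iff {I : P.Idl} (hI : P.Inv I) {σ τ : P.Pt C} (h : P.Rel σ τ) :
    σ.In I ↔ τ.In I := by
  unfold Fam.Pt.In Fam.Pt.ker
  rw [← Ideal.map_eq_bot_iff_le_ker, ← Ideal.map_eq_bot_iff_le_ker, hI.map_eq h]

theorem Inv.lt_one {K : Type u} [Field K] [Algebra k K] {I : P.Idl} (hI : P.Inv I)
    {σ τ : P.Pt K} (h : P.Rel σ τ) {w : Val k K} (h1 : σ.Cen w) (h2 : τ.Cen w)
    (h3 : ∀ b ∈ I σ.1, w.v (σ.2 b) < 1) : ∀ b ∈ I τ.1, w.v (τ.2 b) < 1 := by
  have key : ∀ x ∈ (I σ.1).map (P.s σ.1 τ.1), w.v (h.ev x) < 1 := by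
    intro x hx
    induction hx using Submodule.span_induction with
    | mem x hx =>
      obtain ⟨a, ha, rfl⟩ := hx
      rw [h.ev_s]
      exact h3 a ha
    | zero => simp
    | add x y _ _ hx hy =>
      rw [map_add]
      exact w.v.map_add_lt hx hy
    | smul r x _ hx =>
      rw [smul_eq_mul, map_mul, map_mul]
      exact lt_of_le_of_lt (mul_le_of_le_one_left' (h.rell_v h1 h2 r)) hx
  intro b hb
  rw [← h.ev_t]
  exact key _ (hI σ.1 τ.1 ▸ Ideal.mem_map_of_mem _ hb)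

theorem IsSec.mono {L : P.LB} {I J : P.Idl} {a : P.El} (h : P.IsSec L I a) (hIJ : I ≤ J) :
    P.IsSec L J a := fun i j => Ideal.map_mono (hIJ i) (h i j)

theorem IsSec.mul {L L' : P.LB} {I : P.Idl} {a b : P.El} (ha : P.IsSec L I a)
    (hb : P.IsSec L' I b) : P.IsSec (L * L') I (a * b) := fun i j => by
  have h := Ideal.add_mem _ (Ideal.mul_mem_left _ (P.s i j (a i)) (hb i j))
    (Ideal.mul_mem_left _ ((L'.1 i j : P.B i j) * P.t i j (b j)) (ha i j))
  convert h using 1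
  simp only [Pi.mul_apply, map_mul, Subgroup.coe_mul, Units.val_mul]
  ring

theorem IsSec.pow {L : P.LB} {I : P.Idl} {a : P.El} (ha : P.IsSec L I a) (m : ℕ) :
    P.IsSec (L ^ m) I (a ^ m) := by
  induction m with
  | zero => intro i j; simp
  | succ m ih => rw [pow_succ, pow_succ]; exact ih.mul ha

theorem IsSec.add {L : P.LB} {I : P.Idl} {a b : P.El} (ha : P.IsSec L I a) (hb : P.IsSec L I b) :
    P.IsSec L I (a + b) := fun i j => by
  convert Ideal.add_mem _ (ha i j) (hb i j) using 1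
  simp only [Pi.add_apply, map_add]
  ring

theorem IsSec.of_mem (L : P.LB) {I : P.Idl} (hI : P.Inv I) {a : P.El} (ha : ∀ i, a i ∈ I i) :
    P.IsSec L I a := fun i j =>
  Ideal.sub_mem _ (Ideal.mem_map_of_mem _ (ha i))
    (Ideal.mul_mem_left _ _ (hI i j ▸ Ideal.mem_map_of_mem _ (ha j)))

theorem IsSec.aeval {L : P.LB} {I : P.Idl} {ι : Type*} {f : ι → P.El} (hf : ∀ j, P.IsSec L I (f j))
    {m : ℕ} {θ : MvPolynomial ι k} (hθ : θ.IsHomogeneous m) :
    P.IsSec (L ^ m) I fun i => aeval (fun j => f j i) θ := fun i j => by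
  have h2 : ((L ^ m).1 i j : P.B i j) = (L.1 i j : P.B i j) ^ m := by simp
  have h3 := rell_aeval2 (C' := P.B i j ⧸ (I i).map (P.s i j)) (P.s i j) (P.t i j)
    (Ideal.Quotient.mkₐ k ((I i).map (P.s i j))) (L.1 i j : P.B i j) (fun x => f x i)
    (fun x => f x j) (fun x => Ideal.Quotient.eq.2 (hf x i j)) hθ
  rw [h2]
  exact Ideal.Quotient.eq.1 h3

theorem IsSec.inv_span {L : P.LB} {I : P.Idl} (hI : P.Inv I) {ι : Type*} {f : ι → P.El}
    (hf : ∀ j, P.IsSec L I (f j)) :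
    P.Inv fun i => Ideal.span (Set.range fun j => f j i) ⊔ I i := fun i j => by
  rw [Ideal.map_sup, Ideal.map_sup, ← hI i j]
  refine le_antisymm (sup_le ?_ le_sup_right) (sup_le ?_ le_sup_right)
  · rw [Ideal.map_le_iff_le_comap, Ideal.span_le]
    rintro _ ⟨x, rfl⟩
    have h1 : P.t i j (f x j) ∈ (Ideal.span (Set.range fun x => f x j)).map (P.t i j) :=
      Ideal.mem_map_of_mem _ (Ideal.subset_span ⟨x, rfl⟩)
    have h2 := Ideal.add_mem _ (Ideal.mem_sup_left (T := (I i).map (P.s i j))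
      (Ideal.mul_mem_left _ (L.1 i j : P.B i j) h1)) (Ideal.mem_sup_right (hf x i j))
    simpa using h2
  · rw [Ideal.map_le_iff_le_comap, Ideal.span_le]
    rintro _ ⟨x, rfl⟩
    have h1 : P.s i j (f x i) ∈ (Ideal.span (Set.range fun x => f x i)).map (P.s i j) :=
      Ideal.mem_map_of_mem _ (Ideal.subset_span ⟨x, rfl⟩)
    have h2 := Ideal.mul_mem_left _ (((L.1 i j)⁻¹ : (P.B i j)ˣ) : P.B i j)
      (Ideal.sub_mem _ (Ideal.mem_sup_left (T := (I i).map (P.s i j)) h1)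
        (Ideal.mem_sup_right (hf x i j)))
    simpa using h2

theorem IsSec.sub_mem {L : P.LB} {I : P.Idl} {a : P.El} (ha : P.IsSec L I a) {σ τ : P.Pt C}
    (h : P.Rel σ τ) : σ.val a - h.tr L * τ.val a ∈ (I σ.1).map σ.2 := by
  have h1 := Ideal.mem_map_of_mem h.ev (ha σ.1 τ.1)
  rw [Ideal.map_mapₐ, h.rell_s, map_sub, map_mul, h.ev_s, h.ev_t] at h1
  exact h1

theorem IsSec.val_eq {L : P.LB} {I : P.Idl} {a : P.El} (ha : P.IsSec L I a) {σ τ : P.Pt C}
    (h : P.Rel σ τ) (hσ : σ.In I) : σ.val a = h.tr L * τ.val a := by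
  have h1 := ha.sub_mem h
  rw [(Ideal.map_eq_bot_iff_le_ker σ.2).2 hσ, Ideal.mem_bot] at h1
  exact sub_eq_zero.1 h1

theorem IsSec.v_le {K : Type u} [Field K] [Algebra k K] {L : P.LB} {I : P.Idl} {a c : P.El}
    (ha : P.IsSec L (fun i => Ideal.span {c i} ⊔ I i) a) {σ τ : P.Pt K} (h : P.Rel σ τ)
    (hσ : σ.In I) {w : Val k K} (h1 : σ.Cen w) (h2 : τ.Cen w) :
    w.v (σ.val a - h.tr L * τ.val a) ≤ w.v (σ.val c) := by
  have h3 := ha σ.1 τ.1
  rw [Ideal.map_sup, Ideal.map_span, Set.image_singleton] at h3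
  obtain ⟨x, hx, y, hy, hxy⟩ := Submodule.mem_sup.1 h3
  obtain ⟨r, rfl⟩ := Ideal.mem_span_singleton'.1 hx
  have h4 := Ideal.mem_map_of_mem h.ev hy
  rw [Ideal.map_mapₐ, h.rell_s, (Ideal.map_eq_bot_iff_le_ker σ.2).2 hσ, Ideal.mem_bot] at h4
  have h5 := congrArg h.ev hxy
  rw [map_add, h4, add_zero, map_sub, map_mul, map_mul, h.ev_s, h.ev_s, h.ev_t] at h5
  change w.v (σ.2 _ - h.ev _ * τ.2 _) ≤ w.v (σ.2 _)
  rw [← h5, map_mul]
  exact mul_le_of_le_one_left' (h.rell_v h1 h2 r)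

end PreRel

namespace EqRel

variable {P : EqRel k}

theorem inv_inf {I J : P.Idl} (hI : P.Inv I) (hJ : P.Inv J) : P.Inv (I ⊓ J) := fun i j =>
  (map_inf_of_flat (rell_flat (P.et_s i j)) (I i) (J i)).trans
    ((congrArg₂ (· ⊓ ·) (hI i j) (hJ i j)).trans
      (map_inf_of_flat (rell_flat (P.et_t i j)) (I j) (J j)).symm)

theorem inv_radical {I : P.Idl} (hI : P.Inv I) : P.Inv fun i => (I i).radical := fun i j =>
  (map_radical_of_etale (P.et_s i j) (I i)).trans
    ((congrArg Ideal.radical (hI i j)).trans (map_radical_of_etale (P.et_t i j) (I j)).symm)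

theorem inv_colon {I J : P.Idl} (hI : P.Inv I) (hJ : P.Inv J) :
    P.Inv fun i => (I i).colon (J i : Set (P.A i)) := fun i j =>
  (map_colon_of_flat (rell_flat (P.et_s i j)) (I i) (J i) (IsNoetherian.noetherian _)).trans
    ((congrArg₂ (fun x y : Ideal (P.B i j) => x.colon (y : Set (P.B i j))) (hI i j) (hJ i j)).trans
      (map_colon_of_flat (rell_flat (P.et_t i j)) (I j) (J j) (IsNoetherian.noetherian _)).symm)

theorem isSec_inf {L : P.LB} {I J : P.Idl} {a : P.El} (hI : P.IsSec L I a) (hJ : P.IsSec L J a) :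
    P.IsSec L (I ⊓ J) a := fun i j =>
  (map_inf_of_flat (rell_flat (P.et_s i j)) (I i) (J i)).ge ⟨hI i j, hJ i j⟩

instance (i j : P.ι) : Algebra.FiniteType k (P.B i j) :=
  have : Algebra.FiniteType k (TensorProduct k (P.A i) (P.A j)) :=
    Algebra.FiniteType.trans (inferInstance : Algebra.FiniteType k (P.A i)) inferInstance
  Algebra.FiniteType.of_surjective (Ideal.Quotient.mkₐ k (P.J i j))
    (Ideal.Quotient.mkₐ_surjective k _)

theorem isReduced_B (i j : P.ι) : IsReduced (P.B i j) := isReduced_of_etale (P.et_s i j)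

/-- Frobenius powers of a section extend to thickenings. -/
theorem isSec_fp {p : ℕ} [Fact p.Prime] [CharP k p] {L : P.LB} {I J : P.Idl} {a : P.El}
    (ha : P.IsSec L I a) {e : ℕ} (h : ∀ i, fp (p ^ e) (I i) ≤ J i) :
    P.IsSec (L ^ p ^ e) J (a ^ p ^ e) := fun i j => by
  rcases subsingleton_or_nontrivial (P.B i j) with hB | hB
  · rw [Subsingleton.elim (_ - _ : P.B i j) 0]
    exact Ideal.zero_mem _
  have : CharP (P.B i j) p := charP_of_injective_algebraMap (algebraMap k _).injective p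
  have key : ∀ x ∈ (I i).map (P.s i j), x ^ p ^ e ∈ (J i).map (P.s i j) := by
    intro x hx
    induction hx using Submodule.span_induction with
    | mem x hx =>
      obtain ⟨b, hb, rfl⟩ := hx
      rw [← map_pow]
      exact Ideal.mem_map_of_mem _ (h i (Ideal.subset_span ⟨b, hb, rfl⟩))
    | zero =>
      rw [zero_pow (pow_ne_zero e (Fact.out : p.Prime).ne_zero)]
      exact Ideal.zero_mem _
    | add x y _ _ hx hy =>
      rw [add_pow_char_pow]
      exact Ideal.add_mem _ hx hy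
    | smul r x _ hx =>
      rw [smul_eq_mul, mul_pow]
      exact Ideal.mul_mem_left _ _ hx
  have h1 := key _ (ha i j)
  rw [sub_pow_char_pow, mul_pow] at h1
  simpa using h1

/-- Related points of a local ring that agree on the residue field agree. -/
theorem diag [IsLocalRing C] {i : P.ι} {φ ψ : P.A i →ₐ[k] C} (h : P.Rel ⟨i, φ⟩ ⟨i, ψ⟩)
    (hm : ∀ a, φ a - ψ a ∈ IsLocalRing.maximalIdeal C) : φ = ψ := by
  have h' : P.Rel ⟨i, φ⟩ ⟨i, φ⟩ := P.refl C _
  have h1 : h'.ev.toRingHom = h.ev.toRingHom := by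
    refine ext_of_etale (P.et_s i i) (RingHom.ext fun a => (h'.ev_s a).trans (h.ev_s a).symm) ?_
    refine PreRel.rell_ind (Q := fun b => h'.ev b - h.ev b ∈ IsLocalRing.maximalIdeal C)
      (by simp) (fun a b => ?_) fun x y hx hy => ?_
    · rw [map_mul, map_mul, h'.ev_s, h.ev_s, h'.ev_t, h.ev_t, ← mul_sub]
      exact Ideal.mul_mem_left _ _ (hm b)
    · rw [map_add, map_add, add_sub_add_comm]
      exact Ideal.add_mem _ hx hy
  refine AlgHom.ext fun a => ?_
  exact (h'.ev_t a).symm.trans ((RingHom.congr_fun h1 (P.t i i a)).trans (h.ev_t a))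

theorem diag_val {K : Type u} [Field K] [Algebra k K] {i : P.ι} {φ ψ : P.A i →ₐ[k] K}
    (h : P.Rel ⟨i, φ⟩ ⟨i, ψ⟩) (w : Val k K) (h1 : ∀ a, φ a ∈ w.O)
    (hm : ∀ a, w.v (φ a - ψ a) < 1) : φ = ψ := by
  have h2 : ∀ a, ψ a ∈ w.O := fun a => by
    have := w.O.toSubring.sub_mem (h1 a) (Val.v_le_one.1 (hm a).le)
    rwa [sub_sub_cancel] at this
  have : IsLocalRing w.sub := inferInstanceAs (IsLocalRing w.O)
  let φ' : P.A i →ₐ[k] w.sub := φ.codRestrict w.sub h1
  let ψ' : P.A i →ₐ[k] w.sub := ψ.codRestrict w.sub h2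
  have h3 : P.Rel (⟨i, φ'⟩ : P.Pt w.sub) ⟨i, ψ'⟩ :=
    PreRel.Rel.of_map (φ := w.sub.val) Subtype.val_injective h
  have h4 : φ' = ψ' := diag h3 fun a => by
    rw [IsLocalRing.mem_maximalIdeal, mem_nonunits_iff]
    intro hu
    obtain ⟨y, hy⟩ := hu.exists_right_inv
    have h5 : (φ a - ψ a) * (y : K) = 1 := congrArg Subtype.val hy
    have h6 := congrArg w.v h5
    rw [map_mul, map_one] at h6
    have h7 : w.v (y : K) ≤ 1 := Val.v_le_one.2 y.2
    exact absurd h6 (lt_of_le_of_lt (mul_le_of_le_one_right' h7) (hm a)).ne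
  exact AlgHom.ext fun a => congrArg Subtype.val (DFunLike.congr_fun h4 a)

/-- A point related to a separable (resp. constant) point is separable (resp. constant). -/
theorem isSeparable_of_rel {F Ω : Type u} [Field F] [Field Ω] [Algebra k Ω] [Algebra F Ω]
    {σ τ : P.Pt Ω} (h : P.Rel σ τ) (hσ : ∀ a, IsSeparable F (σ.2 a)) (a) :
    IsSeparable F (τ.2 a) := by
  have h1 := isSeparable_of_etale (P.et_s σ.1 τ.1) (F := separableClosure F Ω) h.ev.toRingHom
    (fun b => ⟨⟨σ.2 b, mem_separableClosure_iff.2 (hσ b)⟩, (h.ev_s b).symm⟩) (P.t σ.1 τ.1 a)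
  have h2 := IsSeparable.of_algebra_isSeparable_of_isSeparable F h1
  rw [← h.ev_t]
  exact h2

/-- The universal triple of related points. -/
theorem exists_triple (i j l : P.ι) : ∃ (T : Type u) (_ : CommRing T) (_ : Algebra k T)
    (α : P.A i →ₐ[k] T) (β : P.A j →ₐ[k] T) (γ : P.A l →ₐ[k] T), α.toRingHom.Etale ∧
    β.toRingHom.Etale ∧ γ.toRingHom.Etale ∧ P.Rel ⟨i, α⟩ ⟨j, β⟩ ∧ P.Rel ⟨j, β⟩ ⟨l, γ⟩ ∧
    ∀ (C : Type u) [CommRing C] [Algebra k C] (α' : P.A i →ₐ[k] C) (β' : P.A j →ₐ[k] C)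
      (γ' : P.A l →ₐ[k] C), P.Rel ⟨i, α'⟩ ⟨j, β'⟩ → P.Rel ⟨j, β'⟩ ⟨l, γ'⟩ →
      ∃ χ : T →ₐ[k] C, χ.comp α = α' ∧ χ.comp β = β' ∧ χ.comp γ = γ' := by
  obtain ⟨T, _, _, a, b, ha, hb, hab, hT⟩ :=
    rell_pushout (P.t i j) (P.s j l) (P.et_t i j) (P.et_s j l)
  refine ⟨T, inferInstance, inferInstance, a.comp (P.s i j), a.comp (P.t i j), b.comp (P.t j l),
    RingHom.Etale.stableUnderComposition _ _ (P.et_s i j) ha,
    RingHom.Etale.stableUnderComposition _ _ (P.et_t i j) ha,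
    RingHom.Etale.stableUnderComposition _ _ (P.et_t j l) hb, PreRel.rel_of_hom a, ?_, ?_⟩
  · rw [hab]
    exact PreRel.rel_of_hom b
  · intro C _ _ α' β' γ' h1 h2
    obtain ⟨χ, e1, e2⟩ := hT C h1.ev h2.ev (h1.rell_t.trans h2.rell_s.symm)
    refine ⟨χ, ?_, ?_, ?_⟩
    · rw [← AlgHom.comp_assoc, e1]
      exact h1.rell_s
    · rw [← AlgHom.comp_assoc, e1]
      exact h1.rell_t
    · rw [← AlgHom.comp_assoc, e2]
      exact h2.rell_t

end EqRel

instance {F : Fam k} {p : ℕ} [CharP k p] (i : F.ι) : CharP (F.A i) p :=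
  charP_of_injective_algebraMap (algebraMap k _).injective p

instance {P : CPres k} {p : ℕ} [CharP k p] (i j : P.ι) : CharP (P.B i j) p :=
  charP_of_injective_algebraMap (algebraMap k _).injective p

/-- Absence of rational points passes to refinements. -/
theorem noRat_of_refines [IsAlgClosed k] {P P' : PreRel k} (ρ : Refines P'.toFam P.toFam)
    (hρ : ∀ σ τ : P'.Pt (Om k), P'.Rel σ τ → P.Rel (ρ.res σ) (ρ.res τ)) (h : P.NoRat) :
    P'.NoRat := by
  intro σ h1 h2 a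
  have h3 := h (ρ.res σ) (fun b => h1 _) fun γ => hρ _ _ (h2 γ)
  let e := RingEquiv.ofBijective (algebraMap k (Om k)).rangeRestrict
    ⟨fun x y hxy => (algebraMap k (Om k)).injective (congrArg Subtype.val hxy),
      (algebraMap k (Om k)).rangeRestrict_surjective⟩
  let χ : P.A (ρ.r σ.1) →+* k :=
    e.symm.toRingHom.comp ((ρ.res σ).2.toRingHom.codRestrict _ h3)
  obtain ⟨ψ, -, hψ⟩ := exists_lift_of_etale (ρ.et σ.1) (algebraMap k (Om k)) χ σ.2.toRingHom
    (RingHom.ext fun b => (congrArg Subtype.val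
      (e.apply_symm_apply ((ρ.res σ).2.toRingHom.codRestrict _ h3 b))).symm)
  exact ⟨ψ a, RingHom.congr_fun hψ a⟩

end

end Pool.Agent.Lib.MP_1c03d5_ag
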