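import Pool.Agent.Lib.MP_1c03d5_ag.Gen1
import Pool.Agent.Lib.MP_1c03d5_ag.Inert
import Pool.Agent.Lib.MP_1c03d5_ag.Etp

/-!
# TASK SEXTA: local extension of a rational point of the quotient
-/

universe u

namespace Pool.Agent.Lib.MP_1c03d5_ag

noncomputable section

section aux

open Polynomial IntermediateField.algebraAdjoinAdjoin

variable {k K : Type u} [Field k] [Field K] [Algebra k K]

/-- Inverting an element of value one. -/
lemma sexta_away {D : Type u} [CommRing D] [Algebra k D] (φ : D →ₐ[k] K)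
    (hφ : Function.Injective φ) (w : Val k K) (hw : ∀ d, φ d ∈ w.O) (r : D) (hr : w.v (φ r) = 1) :
    ∃ ψ : Localization.Away r →ₐ[k] K, Function.Injective ψ ∧ (∀ d, ψ d ∈ w.O) ∧
      (∀ d, ψ (algebraMap D _ d) = φ d) ∧ (φ r)⁻¹ ∈ ψ.range := by
  have h0 : φ r ≠ 0 := fun e => by simp [e] at hr
  have hu : IsUnit (φ r) := h0.isUnit
  let ψ : Localization.Away r →ₐ[k] K := IsLocalization.Away.liftAlgHom r hu
  have h1 : ∀ d, ψ (algebraMap D _ d) = φ d := fun d => IsLocalization.Away.lift_eq r hu d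
  have h2 : ∀ x : Localization.Away r, ∃ (n : ℕ) (a : D),
      x * algebraMap D _ r ^ n = algebraMap D _ a ∧ ψ x * φ r ^ n = φ a := fun x => by
    obtain ⟨n, a, e⟩ := IsLocalization.Away.surj r x
    refine ⟨n, a, e, ?_⟩
    rw [← h1, ← h1, ← e, map_mul, map_pow]
  refine ⟨ψ, (injective_iff_map_eq_zero _).2 fun x hx => ?_, fun x => ?_, h1,
    IsLocalization.Away.invSelf r, ?_⟩
  · obtain ⟨n, a, e, e'⟩ := h2 x
    rw [hx, zero_mul] at e'
    have ha : a = 0 := hφ (by rw [← e', map_zero])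
    rw [ha, map_zero] at e
    exact (((IsLocalization.Away.algebraMap_isUnit r).pow n).mul_left_eq_zero).1 e
  · obtain ⟨n, a, -, e'⟩ := h2 x
    have := congrArg w.v e'
    rw [map_mul, map_pow, hr, one_pow, mul_one] at this
    rw [← Val.v_le_one, this, Val.v_le_one]
    exact hw a
  · refine (eq_inv_of_mul_eq_one_right ?_)
    change φ r * ψ _ = 1
    rw [← h1, ← map_mul, IsLocalization.Away.mul_invSelf, map_one]

variable {y : K} {c : k} {w : Val k K}

lemma sexta_le (hy : w.v (y - algebraMap k K c) < 1) :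
    ∀ a ∈ Algebra.adjoin k {y}, a ∈ w.O := by
  refine w.adjoin_le ?_
  rintro _ rfl
  have := w.O.add_mem _ _ (Val.v_le_one.1 hy.le) (w.hk c)
  rwa [sub_add_cancel] at this

lemma sexta_res0 (hy : w.v (y - algebraMap k K c) < 1) (p : k[X]) :
    w.v (aeval y p - algebraMap k K (p.eval c)) < 1 := by
  obtain ⟨q, hq⟩ := X_sub_C_dvd_sub_C_eval (a := c) (p := p)
  have e := congrArg (aeval y) hq
  simp only [map_sub, map_mul, aeval_X, aeval_C] at e
  rw [e, map_mul]
  exact mul_lt_one_of_lt_of_le hy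
    (Val.v_le_one.2 (sexta_le hy _ (aeval_mem_adjoin_singleton k y)))

lemma sexta_hloc (hy : w.v (y - algebraMap k K c) < 1) :
    ∀ a ∈ Algebra.adjoin k {y}, ∀ b ∈ Algebra.adjoin k {y}, w.v a ≤ w.v b →
      ∃ a' ∈ Algebra.adjoin k {y}, ∃ b' ∈ Algebra.adjoin k {y}, w.v b' = 1 ∧ a * b' = a' * b := by
  classical
  intro a ha b hb hab
  by_cases h0 : b = 0
  · have : a = 0 := by simpa [h0] using hab
    exact ⟨0, zero_mem _, 1, one_mem _, map_one _, by simp [this]⟩
  obtain ⟨p, rfl⟩ := Algebra.adjoin_mem_exists_aeval _ _ ha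
  obtain ⟨q, rfl⟩ := Algebra.adjoin_mem_exists_aeval _ _ hb
  obtain ⟨p', q', hp, hq, hu⟩ := extract_gcd p q
  obtain ⟨s, t, hst⟩ := (gcd_isUnit_iff p' q').1 hu
  generalize gcd p q = g at hp hq
  subst hp hq
  have hle : ∀ f : k[X], w.v (aeval y f) ≤ 1 := fun f =>
    Val.v_le_one.2 (sexta_le hy _ (aeval_mem_adjoin_singleton k y))
  refine ⟨_, aeval_mem_adjoin_singleton k y (p := p'), _, aeval_mem_adjoin_singleton k y (p := q'),
    ?_, by simp only [map_mul]; ring⟩
  simp only [map_mul] at hab h0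
  have hg : 0 < w.v (aeval y g) := (Valuation.pos_iff _).2 (left_ne_zero_of_mul h0)
  have h1 : w.v (aeval y p') ≤ w.v (aeval y q') := le_of_mul_le_mul_left hab hg
  refine le_antisymm (hle _) (not_lt.1 fun h2 => ?_)
  have e := congrArg (fun f => w.v (aeval y f)) hst
  simp only [map_add, map_mul, map_one] at e
  refine absurd e (ne_of_lt (Valuation.map_add_lt _ ?_ ?_))
  · rw [map_mul]
    exact mul_lt_one_of_nonneg_of_lt_one_right (hle _) zero_le (h1.trans_lt h2)
  · rw [map_mul]
    exact mul_lt_one_of_nonneg_of_lt_one_right (hle _) zero_le h2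

/-- Residues of integral elements are constants. -/
lemma sexta_hres [IsAlgClosed k] (hy : w.v (y - algebraMap k K c) < 1) (x : K)
    (hx : IsIntegral (Algebra.adjoin k {y}) x) : ∃ c' : k, w.v (x - algebraMap k K c') < 1 := by
  have hle := sexta_le hy
  have hxO : x ∈ w.O := (isIntegral_iff_val _ x).1 hx w hle
  let ι : Algebra.adjoin k {y} →+* w.O :=
    (Algebra.adjoin k {y}).val.toRingHom.codRestrict w.O fun a => hle a.1 a.2
  let ι0 : k →+* w.O := (algebraMap k K).codRestrict w.O w.hk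
  let ρ := IsLocalRing.residue w.O
  let _ : Algebra k (IsLocalRing.ResidueField w.O) := (ρ.comp ι0).toAlgebra
  have key : ∀ (a : w.O) (c' : k), ρ a = algebraMap k _ c' ↔ w.v (a - algebraMap k K c') < 1 := by
    intro a c'
    change ρ a = ρ (ι0 c') ↔ _
    rw [← sub_eq_zero, ← map_sub, IsLocalRing.residue_eq_zero_iff,
      ValuationSubring.valuation_lt_one_iff]
    rfl
  obtain ⟨p, hp, hpx⟩ := hx
  have h1 : p.eval₂ ι ⟨x, hxO⟩ = 0 := by
    apply w.O.subtype_injective
    rw [hom_eval₂, map_zero]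
    exact hpx
  have h2 : (p.map (ρ.comp ι)).eval (ρ ⟨x, hxO⟩) = 0 := by
    rw [eval_map, ← hom_eval₂, h1, map_zero]
  have h3 : p.map (ρ.comp ι) ∈ lifts (algebraMap k (IsLocalRing.ResidueField w.O)) := by
    rw [lifts_iff_coeff_lifts]
    intro n
    rw [coeff_map]
    obtain ⟨f, hf⟩ := Algebra.adjoin_mem_exists_aeval _ _ (p.coeff n).2
    refine ⟨f.eval c, ((key (ι (p.coeff n)) _).2 ?_).symm⟩
    change w.v ((p.coeff n : K) - _) < 1
    rw [← hf]
    exact sexta_res0 hy f
  obtain ⟨q, hq, -, hm⟩ := lifts_and_natDegree_eq_and_monic h3 (hp.map _)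
  have h4 : IsIntegral k (ρ ⟨x, hxO⟩) := ⟨q, hm, by rw [← eval_map, hq, h2]⟩
  obtain ⟨c', hc'⟩ := minpoly.mem_range_of_degree_eq_one k _
    (IsAlgClosed.degree_eq_one_of_irreducible k (minpoly.irreducible h4))
  exact ⟨c', (key _ _).1 hc'.symm⟩

lemma sexta_norm (hy : Transcendental k y) {x : K} (hx : IsIntegral (Algebra.adjoin k {y}) x)
    (hx' : x ∈ IntermediateField.adjoin k {y}) : x ∈ Algebra.adjoin k {y} := by
  have : IsIntegrallyClosed (Algebra.adjoin k {y}) :=
    .of_equiv (algEquivOfTranscendental k y hy).toRingEquiv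
  have h1 : IsIntegral (Algebra.adjoin k {y}) (⟨x, hx'⟩ : IntermediateField.adjoin k {y}) :=
    IsIntegral.tower_bot (B := K) (algebraMap (IntermediateField.adjoin k {y}) K).injective hx
  obtain ⟨a, ha⟩ := IsIntegrallyClosed.isIntegral_iff.1 h1
  have : (a : K) = x := congrArg Subtype.val ha
  exact this ▸ a.2

/-- The local extension inside a finite Galois extension of `k(y)`. -/
lemma sexta_core [IsAlgClosed k] (G : Subgroup (K ≃ₐ[k] K)) [Finite G] (ht : Transcendental k y)
    (hG : IntermediateField.fixedField G = IntermediateField.adjoin k {y})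
    (hy : w.v (y - algebraMap k K c) < 1) {A : Type u} [CommRing A] [Algebra k A]
    [Algebra.FiniteType k A] (τ : A →ₐ[k] K) (hτ : ∀ a, τ a ∈ w.O)
    (hin : ∀ γ ∈ G, (∀ a, w.v (γ (τ a) - τ a) < 1) → ∀ a, γ (τ a) = τ a) :
    ∃ (D : Type u) (_ : CommRing D) (_ : Algebra k D) (φ : D →ₐ[k] K) (y' : D) (τ' : A →ₐ[k] D),
      Function.Injective φ ∧ φ y' = y ∧ (aeval y' : k[X] →ₐ[k] D).toRingHom.Etale ∧
      φ.comp τ' = τ ∧ ∀ d, φ d ∈ w.O := by
  classical
  set C := Algebra.adjoin k {y} with hC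
  have hle := sexta_le hy
  have hK : ∀ x, x ∈ IntermediateField.adjoin k {y} ↔ ∀ γ ∈ G, γ x = x := fun x => by
    rw [← hG, IntermediateField.mem_fixedField_iff]
  have hfix : ∀ γ ∈ G, ∀ x ∈ C, γ x = x := fun γ hγ x hx =>
    (hK x).1 (IntermediateField.algebra_adjoin_le_adjoin k _ hx) γ hγ
  have halg : ∀ x : K, IsAlgebraic C x := fun x => by
    have h1 : IsIntegral (IntermediateField.fixedField G) x := FixedPoints.isIntegral G K x
    rw [hG] at h1
    exact IntermediateField.isAlgebraic_adjoin_iff.1 h1.isAlgebraic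
  choose b hb1 hb2 hb3 hb4 using fun a => vloc C w hle (sexta_hloc hy) (halg (τ a)) (hτ a)
  let H : Subgroup (K ≃ₐ[k] K) := G ⊓ fixingSubgroup (K ≃ₐ[k] K) (Set.range τ)
  have hH : ∀ γ, γ ∈ H ↔ γ ∈ G ∧ ∀ a, γ (τ a) = τ a := fun γ => by
    simp [H, mem_fixingSubgroup_iff]
  have hCle : C ≤ fixInt C H := fun x hx =>
    ⟨isIntegral_algebraMap (R := C) (x := ⟨x, hx⟩), fun γ hγ => hfix γ hγ.1 x hx⟩
  obtain ⟨r, hr, het⟩ := inert G H inf_le_left C hfix
    (fun x hx hx' => sexta_norm ht hx ((hK x).2 hx')) w hle (sexta_hres hy)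
    (fun γ hγ h => (hH γ).2 ⟨hγ, hin γ hγ fun a => by
      have e1 := h _ (hb2 a)
      have e2 := h _ (hb3 a)
      have e3 : w.v (γ (b a)) = 1 := by
        have := Valuation.map_eq_of_sub_lt w.v (x := b a) (y := γ (b a)) (by rwa [hb1])
        rwa [hb1] at this
      have e4 : γ (b a) * (γ (τ a) - τ a) =
          (γ (b a * τ a) - b a * τ a) - (γ (b a) - b a) * τ a := by
        rw [map_mul]; ring
      have e5 := congrArg w.v e4
      rw [map_mul, e3, one_mul] at e5
      rw [e5]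
      refine Valuation.map_sub_lt _ e2 ?_
      rw [map_mul]
      exact mul_lt_one_of_lt_of_le e1 (Val.v_le_one.2 (hτ a))⟩) hCle
  have hbH : ∀ a, ∀ γ ∈ H, γ (b a) = b a := fun a γ hγ => by
    have : Algebra.adjoin k (insert (τ a) (C : Set K)) ≤
        AlgHom.equalizer γ.toAlgHom (AlgHom.id k K) := by
      refine Algebra.adjoin_le ?_
      rintro x (rfl | hx)
      · exact ((hH γ).1 hγ).2 a
      · exact hfix γ hγ.1 x hx
    exact this (hb4 a)
  have m1 : ∀ a, b a ∈ fixInt C H := fun a => ⟨hb2 a, hbH a⟩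
  have m2 : ∀ a, b a * τ a ∈ fixInt C H := fun a =>
    ⟨hb3 a, fun γ hγ => by rw [map_mul, hbH a γ hγ, ((hH γ).1 hγ).2 a]⟩
  obtain ⟨s, hs⟩ := Algebra.FiniteType.out (R := k) (A := A)
  let r' : fixInt C H := ∏ a ∈ s, ⟨b a, m1 a⟩
  have hr' : (r' : K) = ∏ a ∈ s, b a := by simp [r']
  have hv' : w.v (r' : K) = 1 := by simp [hr', hb1]
  obtain ⟨ψ1, i1, o1, e1, -⟩ := sexta_away (fixInt C H).val Subtype.val_injective w
    (fun d => (isIntegral_iff_val _ _).1 d.2.1 w hle) r hr
  obtain ⟨ψ2, i2, o2, e2, n2⟩ := sexta_away ψ1 i1 w o1 (algebraMap _ _ r') (by rw [e1]; exact hv')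
  have hm : ∀ x ∈ fixInt C H, x ∈ ψ2.range := fun x hx =>
    ⟨algebraMap _ _ (algebraMap (fixInt C H) (Localization.Away r) ⟨x, hx⟩), by
      change ψ2 _ = _
      rw [e2, e1]
      rfl⟩
  have hrange : ∀ a, τ a ∈ ψ2.range := fun a => by
    have : Algebra.adjoin k (s : Set A) ≤ ψ2.range.comap τ := by
      refine Algebra.adjoin_le fun a ha => ?_
      have h0 : (r' : K) ≠ 0 := fun e => by simp [e] at hv'
      have e : τ a = (r' : K)⁻¹ * ((∏ a' ∈ s.erase a, b a') * (b a * τ a)) := by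
        rw [← mul_assoc (∏ a' ∈ s.erase a, b a'), Finset.prod_erase_mul s b ha, ← hr',
          inv_mul_cancel_left₀ h0]
      change τ a ∈ ψ2.range
      rw [e]
      rw [e1] at n2
      exact mul_mem n2 (hm _ (mul_mem (prod_mem fun a' _ => m1 a') (m2 a)))
    rw [hs] at this
    exact this Algebra.mem_top
  let y0 : C := ⟨y, Algebra.self_mem_adjoin_singleton k y⟩
  let χ : C →ₐ[k] Localization.Away (algebraMap (fixInt C H) (Localization.Away r) r') :=
    (IsScalarTower.toAlgHom k (Localization.Away r) _).comp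
      ((IsScalarTower.toAlgHom k (fixInt C H) _).comp (Subalgebra.inclusion hCle))
  refine ⟨_, inferInstance, inferInstance, ψ2, χ y0,
    (AlgEquiv.ofInjective ψ2 i2).symm.toAlgHom.comp (τ.codRestrict _ hrange), i2, ?_, ?_, ?_, o2⟩
  · change ψ2 (algebraMap _ _ (algebraMap (fixInt C H) (Localization.Away r) _)) = _
    rw [e2, e1]
    rfl
  · rw [aeval_algHom]
    have h1 : (aeval y0 : k[X] →ₐ[k] C).toRingHom.Etale :=
      .of_bijective (algEquivOfTranscendental k y ht).bijective
    have h2 : (algebraMap (Localization.Away r) (Localization.Away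
        (algebraMap (fixInt C H) (Localization.Away r) r'))).Etale :=
      RingHom.etale_algebraMap.2 inferInstance
    exact RingHom.Etale.stableUnderComposition _ _ h1
      (RingHom.Etale.stableUnderComposition _ _ het h2)
  · ext a
    exact congrArg Subtype.val ((AlgEquiv.ofInjective ψ2 i2).apply_symm_apply ⟨τ a, hrange a⟩)

/-- Finitely many separable elements lie in a finite Galois subextension. -/
lemma sexta_gal {F Ω : Type u} [Field F] [Field Ω] [Algebra F Ω] [Normal F Ω] (s : Set Ω)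
    (hs : s.Finite) (h : ∀ x ∈ s, IsSeparable F x) : ∃ L : IntermediateField F Ω,
      FiniteDimensional F L ∧ IsGalois F L ∧ s ⊆ L := by
  have := hs.to_subtype
  have : FiniteDimensional F (IntermediateField.adjoin F s) :=
    IntermediateField.finiteDimensional_adjoin fun x hx => (h x hx).isIntegral
  have h1 : IntermediateField.adjoin F s ≤ separableClosure F Ω :=
    IntermediateField.adjoin_le_iff.2 fun x hx => mem_separableClosure_iff.2 (h x hx)
  have h2 := IntermediateField.normalClosure_mono _ _ h1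
  rw [separableClosure.normalClosure_eq_self] at h2
  have := (le_separableClosure_iff F Ω _).1 h2
  exact ⟨IntermediateField.normalClosure F (IntermediateField.adjoin F s) Ω, inferInstance, ⟨⟩,
    (IntermediateField.subset_adjoin F s).trans (IntermediateField.le_normalClosure _)⟩

end aux

variable {k : Type u} [Field k] [IsAlgClosed k] {P : EqRel k}

/-- An etale neighbourhood of the line with coordinate `y` on which `σ` extends. -/
structure Nbhd (σ : P.Pt (Om k)) (y : Om k) where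
  C : Type u
  [cr : CommRing C]
  [alg : Algebra k C]
  φ : C →ₐ[k] Om k
  y' : C
  τ : P.Pt C
  inj : Function.Injective φ
  φ_y : φ y' = y
  et : (Polynomial.aeval y' : Polynomial k →ₐ[k] C).toRingHom.Etale
  rel : P.Rel (τ.map φ) σ

attribute [instance] Nbhd.cr Nbhd.alg

variable {σ : P.Pt (Om k)}
  (hγ : ∀ γ : Om k ≃ₐ[RatFunc k] Om k, P.Rel (σ.map (γ.restrictScalars k).toAlgHom) σ)

include hγ

theorem exists_nbhd (hσ : ∀ a, IsSeparable (RatFunc k) (σ.2 a)) {y : Om k}
    (hy : ∀ x, x ∈ IntermediateField.adjoin k {y} ↔ x ∈ (algebraMap (RatFunc k) (Om k)).range)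
    (c : k) : ∃ (N : Nbhd σ y) (𝔮 : Ideal N.C), 𝔮.IsPrime ∧ N.y' - algebraMap k _ c ∈ 𝔮 := by
  have ht : Transcendental k y := fun ha => by
    have h1 : algebraMap (RatFunc k) (Om k) RatFunc.X ∈ IntermediateField.adjoin k {y} :=
      (hy _).2 ⟨_, rfl⟩
    have := IntermediateField.isAlgebraic_adjoin_simple ha.isIntegral
    have h2 : IsAlgebraic k (algebraMap (RatFunc k) (Om k) RatFunc.X) :=
      (Algebra.IsAlgebraic.isAlgebraic (R := k)
        (⟨_, h1⟩ : IntermediateField.adjoin k {y})).algHom (IntermediateField.val _)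
    exact RatFunc.transcendental_X
      ((isAlgebraic_algebraMap_iff (algebraMap (RatFunc k) (Om k)).injective).1 h2)
  have hp : (Ideal.span {Polynomial.X - Polynomial.C c}).IsPrime :=
    (Ideal.span_singleton_prime (Polynomial.X_sub_C_ne_zero c)).2 (Polynomial.prime_X_sub_C c)
  obtain ⟨w, -, hw⟩ := exists_val_centre' (Polynomial.aeval y : Polynomial k →ₐ[k] Om k)
    (Ideal.span {Polynomial.X - Polynomial.C c}) fun f hf => by
      rw [transcendental_iff.1 ht f hf]
      exact zero_mem _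
  have hyc : w.v (y - algebraMap k _ c) < 1 := by
    simpa using (hw _).2 (Ideal.mem_span_singleton_self _)
  obtain ⟨τ, hστ, hτ⟩ := P.proper (Om k) w σ
  obtain ⟨s, hs⟩ := Algebra.FiniteType.out (R := k) (A := P.A τ.1)
  obtain ⟨L, _, _, hL⟩ := sexta_gal (F := RatFunc k) (τ.2 '' s) (s.finite_toSet.image _) (by
    rintro _ ⟨a, -, rfl⟩
    exact EqRel.isSeparable_of_rel hστ hσ a)
  let j : L →ₐ[k] Om k := L.val.restrictScalars k
  have hj : Function.Injective j := Subtype.val_injective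
  have hτL : ∀ a, τ.2 a ∈ L := fun a => by
    have : Algebra.adjoin k (s : Set (P.A τ.1)) ≤
        (L.toSubalgebra.restrictScalars k).comap τ.2 :=
      Algebra.adjoin_le fun a ha => hL ⟨a, ha, rfl⟩
    rw [hs] at this
    exact this Algebra.mem_top
  let τL : P.A τ.1 →ₐ[k] L :=
    { τ.2.toRingHom.codRestrict L hτL with commutes' := fun c => Subtype.ext (τ.2.commutes c) }
  obtain ⟨y0, hy0⟩ := (hy y).1 (IntermediateField.mem_adjoin_simple_self k y)
  let yL : L := algebraMap (RatFunc k) L y0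
  have hyL : j yL = y := hy0
  let G : Subgroup (L ≃ₐ[k] L) := (AlgEquiv.restrictScalarsHom (S := RatFunc k) k).range
  have : Finite G := (Set.finite_range _).to_subtype
  have hG : IntermediateField.fixedField G = IntermediateField.adjoin k {yL} := by
    ext x
    have h1 : x ∈ IntermediateField.adjoin k {yL} ↔ j x ∈ IntermediateField.adjoin k {y} := by
      rw [← hyL, ← Set.image_singleton (f := j), ← IntermediateField.adjoin_map,
        IntermediateField.mem_map]
      exact ⟨fun h => ⟨x, h, rfl⟩, fun ⟨z, h, e⟩ => hj e ▸ h⟩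
    have h2 : j x ∈ (algebraMap (RatFunc k) (Om k)).range ↔
        x ∈ Set.range (algebraMap (RatFunc k) L) :=
      ⟨fun ⟨z, e⟩ => ⟨z, hj e⟩, fun ⟨z, e⟩ => ⟨z, congrArg j e⟩⟩
    rw [h1, hy, h2, IsGalois.mem_range_algebraMap_iff_fixed, IntermediateField.mem_fixedField_iff]
    exact ⟨fun h γ => h _ ⟨γ, rfl⟩, fun h _ ⟨γ, e⟩ => e ▸ h γ⟩
  obtain ⟨D, _, _, φ, y', τ', i1, e1, het, e2, o1⟩ := sexta_core (w := w.comap j) (c := c) G
    (fun h => ht (hyL ▸ h.algHom j)) hG
    (by rw [Val.comap_lt_one_iff, map_sub, hyL, j.commutes]; exact hyc) τL hτ (by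
      rintro _ ⟨γ, rfl⟩ h a
      let γ' : Om k ≃ₐ[RatFunc k] Om k := γ.liftNormal (Om k)
      have e : ∀ a, γ' (τ.2 a) = j (γ (τL a)) := fun a => γ.liftNormal_commutes (Om k) (τL a)
      have r1 : P.Rel τ (τ.map (γ'.restrictScalars k).toAlgHom) :=
        P.trans _ _ _ _ (P.symm _ _ _ hστ) (P.trans _ _ _ _ (P.symm _ _ _ (hγ γ')) (hστ.map _))
      have := EqRel.diag_val r1 w hτ fun a => by
        have h1 := (Val.comap_lt_one_iff w j _).1 (h a)
        rw [map_sub, Valuation.map_sub_swap] at h1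
        change w.v (τ.2 a - γ' (τ.2 a)) < 1
        rw [e]
        exact h1
      exact hj ((e a).symm.trans (DFunLike.congr_fun this a).symm))
  have e3 : (j.comp φ).comp τ' = τ.2 := by
    rw [AlgHom.comp_assoc, e2]
    rfl
  refine ⟨{ C := D, φ := j.comp φ, y' := y', τ := ⟨τ.1, τ'⟩, inj := hj.comp i1
            φ_y := (congrArg j e1).trans hyL, et := het, rel := ?_ },
    (IsLocalRing.maximalIdeal w.O).comap ((j.comp φ).toRingHom.codRestrict w.O o1),
    inferInstance, ?_⟩
  · change P.Rel ⟨τ.1, (j.comp φ).comp τ'⟩ σ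
    rw [e3]
    exact P.symm _ _ _ hστ
  · rw [Ideal.mem_comap, ValuationSubring.valuation_lt_one_iff]
    change w.v (j (φ (y' - algebraMap k D c))) < 1
    rw [map_sub, map_sub, e1, hyL, φ.commutes, j.commutes]
    exact hyc

end

end Pool.Agent.Lib.MP_1c03d5_ag
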