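import Pool.Agent.Lib.MP_1c03d5_ag.Rel

/-!
# TASK SERRE: Serre vanishing in degree one for graded modules
-/

open MvPolynomial

universe u

namespace Pool.Agent.Lib.MP_1c03d5_ag

noncomputable section

section serre_aux

variable {S N : Type u} [CommRing S] [AddCommGroup N] [Module S N]

/-- The elements that some power of `f` sends into `P`. -/
def serreSat (P : Submodule S N) (f : S) : Submodule S N where
  carrier := {v | ∃ t : ℕ, f ^ t • v ∈ P}
  zero_mem' := ⟨0, by simp⟩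
  add_mem' := by
    rintro v w ⟨t, ht⟩ ⟨s, hs⟩
    refine ⟨t + s, ?_⟩
    have : f ^ (t + s) • (v + w) = f ^ s • f ^ t • v + f ^ t • f ^ s • w := by module
    rw [this]
    exact P.add_mem (P.smul_mem _ ht) (P.smul_mem _ hs)
  smul_mem' := by
    rintro c v ⟨t, ht⟩
    exact ⟨t, by rw [smul_comm]; exact P.smul_mem _ ht⟩

lemma serre_le_sat (P : Submodule S N) (f : S) : P ≤ serreSat P f := fun v hv => ⟨0, by simpa⟩

lemma serre_unif {ι : Type*} [Finite ι] {P : Submodule S N} {f : ι → S} {v : ι → N}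
    (h : ∀ i, v i ∈ serreSat P (f i)) : ∃ t : ℕ, ∀ i, f i ^ t • v i ∈ P := by
  choose t ht using h
  obtain ⟨M, hM⟩ := Finite.exists_le t
  refine ⟨M, fun i => ?_⟩
  obtain ⟨c, hc⟩ := Nat.exists_eq_add_of_le' (hM i)
  rw [hc, pow_add, mul_smul]
  exact P.smul_mem _ (ht i)

lemma serre_reg {α : Type} {x : α → S} {P : Submodule S N} {l : S}
    (hl : ∀ v, l • v ∈ (⨅ a, serreSat P (x a)) → v ∈ ⨅ a, serreSat P (x a)) (a : α) (g : S)
    {v : N} (h : l • v ∈ serreSat P (x a * g)) : v ∈ serreSat P (x a * g) := by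
  obtain ⟨s, hs⟩ := h
  have h1 : (x a * g) ^ s • v ∈ ⨅ a, serreSat P (x a) := hl _ (by
    rw [smul_comm]
    exact (Submodule.mem_iInf _).2 fun b => serre_le_sat _ _ hs)
  obtain ⟨t, ht⟩ := (Submodule.mem_iInf _).1 h1 a
  refine ⟨t + s, ?_⟩
  have : (x a * g) ^ (t + s) • v = g ^ t • x a ^ t • (x a * g) ^ s • v := by module
  rw [this]
  exact P.smul_mem _ ht

lemma serre_closed {α : Type} {x : α → S} (P : Submodule S N) (v : N)
    (h : ∀ a, x a • v ∈ ⨅ a, serreSat P (x a)) : v ∈ ⨅ a, serreSat P (x a) := by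
  refine (Submodule.mem_iInf _).2 fun a => ?_
  obtain ⟨t, ht⟩ := (Submodule.mem_iInf _).1 (h a) a
  exact ⟨t + 1, by rwa [pow_succ, mul_smul]⟩

lemma serre_pow_mem {α : Type} {x : α → S} {I : Ideal S} (h : ∀ a, ∃ t : ℕ, x a ^ t ∈ I) {l : S}
    (hl : l ∈ Ideal.span (Set.range x)) : ∃ j : ℕ, l ^ j ∈ I := by
  have : Ideal.span (Set.range x) ≤ I.radical := by
    rw [Ideal.span_le]
    rintro _ ⟨a, rfl⟩
    exact h a
  exact this hl

variable (𝓜 : ℕ → AddSubgroup N) [DirectSum.Decomposition 𝓜]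

/-- The homogeneous component. -/
def serrePr (i : ℕ) : N →+ N where
  toFun v := (DirectSum.decompose 𝓜 v i : N)
  map_zero' := by simp
  map_add' v w := by simp [DirectSum.decompose_add]

/-- Multiplication by `f` raises degrees by `d`. -/
def SerreH (d : ℕ) (f : S) : Prop := ∀ n, ∀ v ∈ 𝓜 n, f • v ∈ 𝓜 (n + d)

/-- Homogeneous submodules. -/
def SerreHom (P : Submodule S N) : Prop := ∀ i, ∀ v ∈ P, serrePr 𝓜 i v ∈ P

variable {𝓜}

lemma serrePr_mem (i : ℕ) (v : N) : serrePr 𝓜 i v ∈ 𝓜 i := (DirectSum.decompose 𝓜 v i).2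

lemma serrePr_same {i : ℕ} {v : N} (h : v ∈ 𝓜 i) : serrePr 𝓜 i v = v :=
  DirectSum.decompose_of_mem_same 𝓜 h

lemma serrePr_ne {i j : ℕ} {v : N} (h : v ∈ 𝓜 i) (hij : i ≠ j) : serrePr 𝓜 j v = 0 :=
  DirectSum.decompose_of_mem_ne 𝓜 h hij

omit [DirectSum.Decomposition 𝓜] in
lemma SerreH.mul {d d' : ℕ} {f g : S} (h : SerreH 𝓜 d f) (h' : SerreH 𝓜 d' g) :
    SerreH 𝓜 (d + d') (f * g) := fun n v hv => by
  rw [mul_smul, show n + (d + d') = n + d' + d by omega]
  exact h _ _ (h' _ _ hv)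

omit [DirectSum.Decomposition 𝓜] in
lemma SerreH.pow {d : ℕ} {f : S} (h : SerreH 𝓜 d f) (t : ℕ) : SerreH 𝓜 (t * d) (f ^ t) := by
  induction t with
  | zero => exact fun n v hv => by simpa using hv
  | succ t ih => rw [pow_succ, Nat.succ_mul]; exact ih.mul h

omit [DirectSum.Decomposition 𝓜] in
lemma SerreH.pow1 {f : S} (h : SerreH 𝓜 1 f) (t : ℕ) : SerreH 𝓜 t (f ^ t) := by
  simpa using h.pow t

lemma SerreH.pr {d : ℕ} {f : S} (h : SerreH 𝓜 d f) (n : ℕ) (v : N) :
    serrePr 𝓜 (n + d) (f • v) = f • serrePr 𝓜 n v := by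
  induction v using DirectSum.Decomposition.inductionOn 𝓜 with
  | zero => simp
  | @homogeneous i m =>
    by_cases hi : i = n
    · subst hi
      rw [serrePr_same m.2, serrePr_same (h _ _ m.2)]
    · rw [serrePr_ne m.2 hi, serrePr_ne (h _ _ m.2) (by omega), smul_zero]
  | add v w h1 h2 => rw [smul_add, map_add, map_add, smul_add, h1, h2]

lemma SerreH.pr_zero {f : S} (h : SerreH 𝓜 1 f) (v : N) : serrePr 𝓜 0 (f • v) = 0 := by
  induction v using DirectSum.Decomposition.inductionOn 𝓜 with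
  | zero => simp
  | @homogeneous i m => exact serrePr_ne (h _ _ m.2) (by omega)
  | add v w h1 h2 => rw [smul_add, map_add, h1, h2, add_zero]

lemma SerreHom.sat {P : Submodule S N} (hP : SerreHom 𝓜 P) {d : ℕ} {f : S} (h : SerreH 𝓜 d f) :
    SerreHom 𝓜 (serreSat P f) := by
  rintro i v ⟨t, ht⟩
  exact ⟨t, by rw [← (h.pow t).pr]; exact hP _ _ ht⟩

lemma serreHom_bot : SerreHom 𝓜 (⊥ : Submodule S N) := fun i v hv => by
  rw [(Submodule.mem_bot S).1 hv]
  simp

lemma SerreHom.sup_range {P : Submodule S N} (hP : SerreHom 𝓜 P) {l : S} (hl : SerreH 𝓜 1 l) :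
    SerreHom 𝓜 (P ⊔ LinearMap.range (LinearMap.lsmul S N l)) := by
  intro i v hv
  obtain ⟨p, hp, _, ⟨w, rfl⟩, rfl⟩ := Submodule.mem_sup.1 hv
  rw [map_add]
  refine Submodule.add_mem_sup (hP _ _ hp) ?_
  cases i with
  | zero =>
    rw [LinearMap.lsmul_apply, hl.pr_zero]
    exact Submodule.zero_mem _
  | succ i =>
    rw [LinearMap.lsmul_apply, hl.pr]
    exact ⟨_, rfl⟩

variable {α : Type} [Finite α] {x : α → S} (hx : ∀ a, SerreH 𝓜 1 (x a)) [IsNoetherian S N]
  (hgen : ∀ T : AddSubgroup N, (∀ f : S, SerreH 𝓜 0 f → ∀ v ∈ T, f • v ∈ T) →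
    (∀ a, ∀ v ∈ T, x a • v ∈ T) → ∀ f : S, ∀ v ∈ T, f • v ∈ T)

include hx hgen

omit [Finite α] in
/-- A homogeneous submodule is generated in bounded degree. -/
lemma serre_deg {Q : Submodule S N} (hQ : SerreHom 𝓜 Q) : ∃ D, ∀ t n, D + t ≤ n →
    ∀ v ∈ Q, v ∈ 𝓜 n → v ∈ Ideal.span (Set.range x) ^ t • Q := by
  classical
  let c : ℕ →o Submodule S N := ⟨fun D => Submodule.span S {v | v ∈ Q ∧ ∃ j ≤ D, v ∈ 𝓜 j},
    fun D D' h => Submodule.span_mono fun v ⟨h1, j, h2, h3⟩ => ⟨h1, j, h2.trans h, h3⟩⟩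
  obtain ⟨D, hD⟩ := monotone_stabilizes_iff_noetherian.2 ‹IsNoetherian S N› c
  have hQc : Q ≤ c D := fun v hv => by
    rw [← DirectSum.sum_support_decompose 𝓜 v]
    refine Submodule.sum_mem _ fun i _ => ?_
    rw [hD (max D i) (le_max_left _ _)]
    exact Submodule.subset_span ⟨hQ i v hv, i, le_max_right _ _, serrePr_mem i v⟩
  let A : ℕ → AddSubgroup N := fun n =>
    AddSubgroup.closure {y | ∃ a w, w ∈ Q ∧ w ∈ 𝓜 n ∧ y = x a • w}
  have hA : ∀ f : S, SerreH 𝓜 0 f → ∀ n, ∀ y ∈ A n, f • y ∈ A n := by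
    intro f hf n y hy
    induction hy using AddSubgroup.closure_induction with
    | mem y hy =>
      obtain ⟨a, w, h1, h2, rfl⟩ := hy
      exact AddSubgroup.subset_closure ⟨a, f • w, Q.smul_mem _ h1, hf _ _ h2, smul_comm _ _ _⟩
    | zero => simp
    | add y z _ _ h1 h2 => rw [smul_add]; exact add_mem h1 h2
    | neg y _ h1 => rw [smul_neg]; exact neg_mem h1
  let T : AddSubgroup N :=
    { carrier := {v | v ∈ Q ∧ ∀ n, D ≤ n → serrePr 𝓜 (n + 1) v ∈ A n}
      zero_mem' := ⟨Q.zero_mem, fun n _ => by simp⟩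
      add_mem' := fun h1 h2 => ⟨Q.add_mem h1.1 h2.1, fun n hn => by
        rw [map_add]; exact add_mem (h1.2 n hn) (h2.2 n hn)⟩
      neg_mem' := fun h1 => ⟨Q.neg_mem h1.1, fun n hn => by
        rw [map_neg]; exact neg_mem (h1.2 n hn)⟩ }
  have hT : ∀ f : S, ∀ v ∈ T, f • v ∈ T := by
    refine hgen T (fun f hf v hv => ⟨Q.smul_mem _ hv.1, fun n hn => ?_⟩)
      fun a v hv => ⟨Q.smul_mem _ hv.1, fun n hn => ?_⟩
    · have := hf.pr (n + 1) v
      rw [add_zero] at this
      rw [this]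
      exact hA f hf n _ (hv.2 n hn)
    · rw [(hx a).pr]
      exact AddSubgroup.subset_closure ⟨a, _, hQ n v hv.1, serrePr_mem n v, rfl⟩
  have hQT : ∀ v ∈ Q, v ∈ T := fun v hv => by
    have h1 := hQc hv
    clear hv
    induction h1 using Submodule.span_induction with
    | mem v hv =>
      obtain ⟨h1, j, h2, h3⟩ := hv
      exact ⟨h1, fun n hn => by rw [serrePr_ne h3 (by omega)]; exact zero_mem _⟩
    | zero => exact zero_mem _
    | add v w _ _ h1 h2 => exact add_mem h1 h2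
    | smul f v _ h1 => exact hT f v h1
  refine ⟨D, fun t => ?_⟩
  induction t with
  | zero => exact fun n _ v hv _ => by simpa using hv
  | succ t ih =>
    intro n hn v hv hv'
    obtain ⟨n, rfl⟩ : ∃ m, n = m + 1 := ⟨n - 1, by omega⟩
    have h1 := (hQT v hv).2 n (by omega)
    rw [serrePr_same hv'] at h1
    clear hv hv'
    induction h1 using AddSubgroup.closure_induction with
    | mem y hy =>
      obtain ⟨a, w, h1, h2, rfl⟩ := hy
      rw [pow_succ', mul_smul]
      exact Submodule.smul_mem_smul (Ideal.subset_span ⟨a, rfl⟩) (ih n (by omega) w h1 h2)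
    | zero => exact zero_mem _
    | add y z _ _ h1 h2 => exact add_mem h1 h2
    | neg y _ h1 => exact neg_mem h1

/-- A homogeneous submodule is saturated in large degrees. -/
lemma serre_sat {P : Submodule S N} (hP : SerreHom 𝓜 P) : ∃ n₀, ∀ n, n₀ ≤ n → ∀ v ∈ 𝓜 n,
    (∀ a, v ∈ serreSat P (x a)) → v ∈ P := by
  let Q : Submodule S N := ⨅ a, serreSat P (x a)
  have hQ : SerreHom 𝓜 Q := fun i v hv => (Submodule.mem_iInf _).2 fun a =>
    hP.sat (hx a) i v ((Submodule.mem_iInf _).1 hv a)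
  obtain ⟨D, hD⟩ := serre_deg hx hgen hQ
  obtain ⟨s, hs⟩ : Q.FG := IsNoetherian.noetherian Q
  have h1 : Ideal.span (Set.range x) ≤ (P.colon (Q : Set N)).radical := by
    rw [Ideal.span_le]
    rintro _ ⟨a, rfl⟩
    obtain ⟨t, ht⟩ := serre_unif (ι := s) (P := P) (f := fun _ => x a) (v := fun i => i.1)
      fun i => (Submodule.mem_iInf _).1 (show i.1 ∈ Q from hs ▸ Submodule.subset_span i.2) a
    refine ⟨t, Submodule.mem_colon.2 fun v hv => ?_⟩
    have : Q ≤ P.comap (LinearMap.lsmul S N (x a ^ t)) := by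
      rw [← hs, Submodule.span_le]
      exact fun w hw => ht ⟨w, hw⟩
    exact this hv
  obtain ⟨t, ht⟩ := Ideal.exists_pow_le_of_le_radical_of_fg h1
    (Submodule.fg_span (Set.finite_range x))
  refine ⟨D + t, fun n hn v hv h => ?_⟩
  have h2 : Ideal.span (Set.range x) ^ t • Q ≤ P :=
    Submodule.smul_le.2 fun r hr w hw => Submodule.mem_colon.1 (ht hr) w hw
  exact h2 (hD t n hn v ((Submodule.mem_iInf _).2 h) hv)

variable (hreg : ∀ Q : Submodule S N, (∀ v, (∀ a, x a • v ∈ Q) → v ∈ Q) →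
  ∃ l : S, SerreH 𝓜 1 l ∧ l ∈ Ideal.span (Set.range x) ∧ ∀ v, l • v ∈ Q → v ∈ Q)

include hreg

/-- Compatible families of large degree come from the module. -/
lemma serre_zero {P : Submodule S N} (hP : SerreHom 𝓜 P) : ∃ n₀, ∀ n, n₀ ≤ n →
    ∀ (e : ℕ) (y : α → N), (∀ a, y a ∈ 𝓜 (n + e)) →
      (∀ a b, x b ^ e • y a - x a ^ e • y b ∈ serreSat P (x a * x b)) →
      ∃ v ∈ 𝓜 n, ∀ a, x a ^ e • v - y a ∈ serreSat P (x a) := by
  obtain ⟨l, hl, hl1, hl2⟩ := hreg _ (serre_closed P)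
  obtain ⟨n₀, h₀⟩ := serre_sat hx hgen (hP.sup_range hl)
  have step : ∀ n, n₀ ≤ n → ∀ (e : ℕ) (y : α → N),
      (∃ v ∈ 𝓜 (n + 1), ∀ a, x a ^ e • v - l • y a ∈ serreSat P (x a)) →
      ∃ v ∈ 𝓜 n, ∀ a, x a ^ e • v - y a ∈ serreSat P (x a) := by
    rintro n hn e y ⟨v, hv, h⟩
    have h1 := h₀ (n + 1) (by omega) v hv fun a => by
      obtain ⟨t, ht⟩ := h a
      refine ⟨t + e, ?_⟩
      have : x a ^ (t + e) • v = x a ^ t • (x a ^ e • v - l • y a) + l • x a ^ t • y a := by module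
      rw [this]
      exact Submodule.add_mem_sup ht ⟨_, rfl⟩
    obtain ⟨p, hp, _, ⟨w, rfl⟩, e1⟩ := Submodule.mem_sup.1 h1
    have e2 : serrePr 𝓜 (n + 1) p + l • serrePr 𝓜 n w = v := by
      rw [← hl.pr, ← map_add, ← serrePr_same hv, ← e1, LinearMap.lsmul_apply]
    refine ⟨serrePr 𝓜 n w, serrePr_mem _ _, fun a => ?_⟩
    have h2 := serre_reg hl2 a 1 (v := x a ^ e • serrePr 𝓜 n w - y a) (by
      rw [mul_one]
      have : l • (x a ^ e • serrePr 𝓜 n w - y a) =
          (x a ^ e • v - l • y a) - x a ^ e • serrePr 𝓜 (n + 1) p := by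
        rw [← e2]; module
      rw [this]
      exact sub_mem (h a) (Submodule.smul_mem _ _ (serre_le_sat _ _ (hP _ _ hp))))
    rwa [mul_one] at h2
  have iter : ∀ j n, n₀ ≤ n → ∀ (e : ℕ) (y : α → N),
      (∃ v ∈ 𝓜 (n + j), ∀ a, x a ^ e • v - l ^ j • y a ∈ serreSat P (x a)) →
      ∃ v ∈ 𝓜 n, ∀ a, x a ^ e • v - y a ∈ serreSat P (x a) := by
    intro j
    induction j with
    | zero => exact fun n _ e y h => by simpa using h
    | succ j ih =>
      rintro n hn e y ⟨v, hv, h⟩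
      refine step n hn e y (ih (n + 1) (by omega) e (fun a => l • y a) ⟨v, ?_, fun a => ?_⟩)
      · rwa [show n + 1 + j = n + (j + 1) by omega]
      · have := h a
        rwa [pow_succ, mul_smul] at this
  refine ⟨n₀, fun n hn e y hy h => ?_⟩
  let I : Ideal S :=
    { carrier := {f | ∃ v, ∀ a, x a ^ e • v - f • y a ∈ serreSat P (x a)}
      zero_mem' := ⟨0, fun a => by simp⟩
      add_mem' := by
        rintro f g ⟨v, hv⟩ ⟨w, hw⟩
        refine ⟨v + w, fun a => ?_⟩
        have : x a ^ e • (v + w) - (f + g) • y a =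
            (x a ^ e • v - f • y a) + (x a ^ e • w - g • y a) := by module
        rw [this]
        exact add_mem (hv a) (hw a)
      smul_mem' := by
        rintro c f ⟨v, hv⟩
        refine ⟨c • v, fun a => ?_⟩
        have : x a ^ e • c • v - (c • f) • y a = c • (x a ^ e • v - f • y a) := by
          rw [smul_eq_mul]; module
        rw [this]
        exact Submodule.smul_mem _ _ (hv a) }
  obtain ⟨j, v, hv⟩ := serre_pow_mem (I := I) (fun b => by
    obtain ⟨t, ht⟩ := serre_unif fun a => h a b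
    refine ⟨t + e, x b ^ t • y b, fun a => ⟨t, ?_⟩⟩
    have : x a ^ t • (x a ^ e • x b ^ t • y b - x b ^ (t + e) • y a) =
        -((x a * x b) ^ t • (x b ^ e • y a - x a ^ e • y b)) := by module
    rw [this]
    exact neg_mem (ht a)) hl1
  refine iter j n hn e y ⟨serrePr 𝓜 (n + j) v, serrePr_mem _ _, fun a => ?_⟩
  have h1 := hP.sat (hx a) (n + j + e) _ (hv a)
  have h2 := hl.pow1 j _ _ (hy a)
  rw [show n + e + j = n + j + e by omega] at h2
  rwa [map_sub, ((hx a).pow1 e).pr, serrePr_same h2] at h1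

/-- Cocycles of large degree are coboundaries. -/
lemma serre_main : ∃ n₀, ∀ n, n₀ ≤ n → ∀ (e : ℕ) (m : α → α → N), (∀ a b, m a b ∈ 𝓜 (n + 2 * e)) →
    (∀ a b c, ∃ e' : ℕ, (x a * x b * x c) ^ e' •
      (x c ^ e • m a b + x a ^ e • m b c - x b ^ e • m a c) = 0) →
    ∃ (g : ℕ) (y : α → N), (∀ a, y a ∈ 𝓜 (n + (e + g))) ∧ ∀ a b,
      (x a * x b) ^ g • m a b - (x b ^ (e + g) • y a - x a ^ (e + g) • y b) ∈
        serreSat ⊥ (x a * x b) := by
  obtain ⟨l, hl, hl1, hl2⟩ := hreg _ (serre_closed ⊥)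
  have hP := (serreHom_bot (S := S) (𝓜 := 𝓜)).sup_range hl
  obtain ⟨n₀, h₀⟩ := serre_zero hx hgen hreg hP
  let Cob : ℕ → ℕ → (α → α → N) → Prop := fun n e m =>
    ∃ (g : ℕ) (y : α → N), (∀ a, y a ∈ 𝓜 (n + (e + g))) ∧ ∀ a b,
      (x a * x b) ^ g • m a b - (x b ^ (e + g) • y a - x a ^ (e + g) • y b) ∈
        serreSat ⊥ (x a * x b)
  have step : ∀ n, n₀ ≤ n → ∀ e m, Cob (n + 1) e (fun a b => l • m a b) → Cob n e m := by
    rintro n hn e m ⟨g, y, hy, h⟩
    obtain ⟨v, hv, h1⟩ := h₀ (n + 1) (by omega) (e + g) y hy fun a b => by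
      obtain ⟨t, ht⟩ := h a b
      refine ⟨t, ?_⟩
      have : (x a * x b) ^ t • (x b ^ (e + g) • y a - x a ^ (e + g) • y b) =
          -((x a * x b) ^ t • ((x a * x b) ^ g • l • m a b -
            (x b ^ (e + g) • y a - x a ^ (e + g) • y b))) +
          l • (x a * x b) ^ (t + g) • m a b := by module
      rw [this]
      exact Submodule.add_mem_sup (neg_mem ht) ⟨_, rfl⟩
    obtain ⟨t, ht⟩ := serre_unif h1
    have h2 : ∀ a, ∃ z ∈ 𝓜 (n + (e + (g + t))),
        l • z = x a ^ t • (x a ^ (e + g) • v - y a) := fun a => by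
      have h3 := ht a
      rw [bot_sup_eq] at h3
      obtain ⟨w, hw⟩ := h3
      refine ⟨serrePr 𝓜 _ w, serrePr_mem _ _, ?_⟩
      have h4 := (hx a).pow1 t _ _ (sub_mem ((hx a).pow1 (e + g) _ _ hv) (hy a))
      rw [show n + 1 + (e + g) + t = n + (e + (g + t)) + 1 by omega] at h4
      rw [← hl.pr, ← serrePr_same h4, ← hw, LinearMap.lsmul_apply]
    choose z hz1 hz2 using h2
    refine ⟨g + t, fun a => -z a, fun a => neg_mem (hz1 a), fun a b => serre_reg hl2 a _ ?_⟩
    have : l • ((x a * x b) ^ (g + t) • m a b -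
        (x b ^ (e + (g + t)) • -z a - x a ^ (e + (g + t)) • -z b)) =
        (x a * x b) ^ t • ((x a * x b) ^ g • l • m a b -
          (x b ^ (e + g) • y a - x a ^ (e + g) • y b)) := by
      have e1 : l • ((x a * x b) ^ (g + t) • m a b -
          (x b ^ (e + (g + t)) • -z a - x a ^ (e + (g + t)) • -z b)) =
          (x a * x b) ^ (g + t) • l • m a b + x b ^ (e + (g + t)) • l • z a -
            x a ^ (e + (g + t)) • l • z b := by module
      rw [e1, hz2, hz2]
      module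
    rw [this]
    exact Submodule.smul_mem _ _ (h a b)
  have iter : ∀ j n, n₀ ≤ n → ∀ e m, Cob (n + j) e (fun a b => l ^ j • m a b) → Cob n e m := by
    intro j
    induction j with
    | zero => exact fun n _ e m h => by simpa using h
    | succ j ih =>
      intro n hn e m h
      refine step n hn e m (ih (n + 1) (by omega) e _ ?_)
      rw [show n + 1 + j = n + (j + 1) by omega]
      simpa only [pow_succ, mul_smul] using h
  refine ⟨n₀, fun n hn e m hm h => ?_⟩
  let I : Ideal S :=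
    { carrier := {f | ∃ (g : ℕ) (y : α → N), ∀ a b, (x a * x b) ^ g • f • m a b -
        (x b ^ (e + g) • y a - x a ^ (e + g) • y b) ∈ serreSat ⊥ (x a * x b)}
      zero_mem' := ⟨0, 0, fun a b => by simp⟩
      add_mem' := by
        rintro f f' ⟨g, y, hy⟩ ⟨g', y', hy'⟩
        refine ⟨g + g', fun a => x a ^ g' • y a + x a ^ g • y' a, fun a b => ?_⟩
        have : (x a * x b) ^ (g + g') • (f + f') • m a b -
            (x b ^ (e + (g + g')) • (x a ^ g' • y a + x a ^ g • y' a) -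
              x a ^ (e + (g + g')) • (x b ^ g' • y b + x b ^ g • y' b)) =
            (x a * x b) ^ g' • ((x a * x b) ^ g • f • m a b -
              (x b ^ (e + g) • y a - x a ^ (e + g) • y b)) +
            (x a * x b) ^ g • ((x a * x b) ^ g' • f' • m a b -
              (x b ^ (e + g') • y' a - x a ^ (e + g') • y' b)) := by module
        rw [this]
        exact add_mem (Submodule.smul_mem _ _ (hy a b)) (Submodule.smul_mem _ _ (hy' a b))
      smul_mem' := by
        rintro c f ⟨g, y, hy⟩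
        refine ⟨g, fun a => c • y a, fun a b => ?_⟩
        have : (x a * x b) ^ g • (c • f) • m a b -
            (x b ^ (e + g) • c • y a - x a ^ (e + g) • c • y b) =
            c • ((x a * x b) ^ g • f • m a b -
              (x b ^ (e + g) • y a - x a ^ (e + g) • y b)) := by
          rw [smul_eq_mul]; module
        rw [this]
        exact Submodule.smul_mem _ _ (hy a b) }
  obtain ⟨j, g, y, hy⟩ := serre_pow_mem (I := I) (fun d => by
    obtain ⟨t, ht⟩ := serre_unif (ι := α × α) (P := (⊥ : Submodule S N))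
      (f := fun i => x i.1 * x i.2 * x d)
      (v := fun i => x d ^ e • m i.1 i.2 + x i.1 ^ e • m i.2 d - x i.2 ^ e • m i.1 d)
      fun i => h i.1 i.2 d
    refine ⟨e + t, 0, fun a => x d ^ t • m a d, fun a b => ⟨t, ?_⟩⟩
    have : (x a * x b) ^ t • ((x a * x b) ^ 0 • x d ^ (e + t) • m a b -
        (x b ^ (e + 0) • x d ^ t • m a d - x a ^ (e + 0) • x d ^ t • m b d)) =
        (x a * x b * x d) ^ t • (x d ^ e • m a b + x a ^ e • m b d - x b ^ e • m a d) := by
      module
    rw [this]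
    exact ht (a, b)) hl1
  refine iter j n hn e m ⟨g, fun a => serrePr 𝓜 _ (y a), fun a => serrePr_mem _ _, fun a b => ?_⟩
  have hab := (hx a).mul (hx b)
  have h1 := (serreHom_bot (S := S)).sat hab (n + j + (e + g) + (e + g)) _ (hy a b)
  have h2 := hab.pow g _ _ (hl.pow1 j _ _ (hm a b))
  rw [show n + 2 * e + j + g * (1 + 1) = n + j + (e + g) + (e + g) by omega] at h2
  rwa [map_sub, map_sub, ((hx a).pow1 _).pr, ((hx b).pow1 _).pr, serrePr_same h2] at h1

end serre_aux

theorem serre_one {k R : Type u} [Field k] [Infinite k] [CommRing R] [IsNoetherianRing R]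
    [Algebra k R] {α : Type} [Finite α] {N : Type u} [AddCommGroup N]
    [Module (MvPolynomial α R) N] [Module.Finite (MvPolynomial α R) N] (𝓜 : ℕ → AddSubgroup N)
    [DirectSum.Decomposition 𝓜] (hX : ∀ a n, ∀ x ∈ 𝓜 n, (X a : MvPolynomial α R) • x ∈ 𝓜 (n + 1))
    (hC : ∀ (r : R) n, ∀ x ∈ 𝓜 n, (C r : MvPolynomial α R) • x ∈ 𝓜 n) :
    ∃ n₀, ∀ n, n₀ ≤ n → ∀ (e : ℕ) (m : α → α → N), (∀ a b, m a b ∈ 𝓜 (n + 2 * e)) →
      (∀ a b c, ∃ e' : ℕ, ((X a * X b * X c : MvPolynomial α R) ^ e') •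
        ((X c ^ e : MvPolynomial α R) • m a b + (X a ^ e : MvPolynomial α R) • m b c -
          (X b ^ e : MvPolynomial α R) • m a c) = 0) →
      ∃ (e' e'' : ℕ) (y : α → N), (∀ a, y a ∈ 𝓜 (n + e')) ∧ ∀ a b,
        ((X a * X b : MvPolynomial α R) ^ e'') • (((X a * X b : MvPolynomial α R) ^ e') • m a b -
          ((X a * X b : MvPolynomial α R) ^ e) • ((X b ^ e' : MvPolynomial α R) • y a -
            (X a ^ e' : MvPolynomial α R) • y b)) = 0 := by
  classical
  have := Fintype.ofFinite α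
  have hx : ∀ a, SerreH 𝓜 1 (X a : MvPolynomial α R) := hX
  obtain ⟨n₀, h₀⟩ := serre_main (x := fun a => (X a : MvPolynomial α R)) hx
    (fun T h1 h2 f => by
      induction f using MvPolynomial.induction_on with
      | C r => exact h1 _ (hC r)
      | add f g hf hg => exact fun v hv => by rw [add_smul]; exact add_mem (hf v hv) (hg v hv)
      | mul_X f a hf => exact fun v hv => by rw [mul_smul]; exact hf _ (h2 a v hv))
    (fun Q hQ => by
      let L : (α → k) →ₗ[k] MvPolynomial α R := Fintype.linearCombination k fun a => X a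
      have hL : ∀ c, L c = ∑ a, C (algebraMap k R (c a)) * X a := fun c => by
        simp only [L, Fintype.linearCombination_apply, Algebra.smul_def,
          MvPolynomial.algebraMap_apply]
      have hfin := (associatedPrimes.finite (MvPolynomial α R) (N ⧸ Q)).to_subtype
      obtain ⟨c, hc⟩ := Submodule.exists_forall_notMem_of_forall_ne_top
        (fun 𝔭 : associatedPrimes (MvPolynomial α R) (N ⧸ Q) =>
          (Submodule.restrictScalars k 𝔭.1).comap L) fun 𝔭 h => by
          obtain ⟨hp, w, hw⟩ := isAssociatedPrime_iff.1 𝔭.2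
          obtain ⟨v, rfl⟩ := Q.mkQ_surjective w
          have h1 : v ∈ Q := hQ v fun a => by
            have h2 : L (Pi.single a 1) ∈ 𝔭.1 := Submodule.eq_top_iff'.1 h (Pi.single a 1)
            rw [hw, Submodule.mem_colon_singleton, Submodule.mem_bot, ← map_smul,
              Submodule.mkQ_apply, Submodule.Quotient.mk_eq_zero] at h2
            simpa [L] using h2
          refine hp.ne_top ?_
          rw [hw, Submodule.mkQ_apply, (Submodule.Quotient.mk_eq_zero Q).2 h1]
          simp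
      refine ⟨L c, fun n v hv => ?_, ?_, fun v hv => ?_⟩
      · rw [hL, Finset.sum_smul]
        exact sum_mem fun a _ => by rw [mul_smul]; exact hC _ _ _ (hX a n v hv)
      · rw [hL]
        exact sum_mem fun a _ => Ideal.mul_mem_left _ _ (Ideal.subset_span ⟨a, rfl⟩)
      · by_contra h
        obtain ⟨𝔭, h1, h2⟩ := exists_le_isAssociatedPrime_of_isNoetherianRing (MvPolynomial α R)
          (Q.mkQ v) (by simpa using h)
        refine hc ⟨𝔭, h1⟩ (h2 ?_)
        rw [Submodule.mem_colon_singleton, Submodule.mem_bot, ← map_smul, Submodule.mkQ_apply,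
          Submodule.Quotient.mk_eq_zero]
        exact hv)
  refine ⟨n₀, fun n hn e m hm h => ?_⟩
  obtain ⟨g, y, hy, h1⟩ := h₀ n hn e m hm h
  obtain ⟨t, ht⟩ := serre_unif (ι := α × α) fun i => h1 i.1 i.2
  refine ⟨e + g, t, y, hy, fun a b => ?_⟩
  have h2 := (Submodule.mem_bot _).1 (ht (a, b))
  have : ((X a * X b : MvPolynomial α R) ^ t) • (((X a * X b : MvPolynomial α R) ^ (e + g)) • m a b -
      ((X a * X b : MvPolynomial α R) ^ e) • ((X b ^ (e + g) : MvPolynomial α R) • y a -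
        (X a ^ (e + g) : MvPolynomial α R) • y b)) =
      ((X a * X b : MvPolynomial α R) ^ e) • ((X a * X b : MvPolynomial α R) ^ t) •
        (((X a * X b : MvPolynomial α R) ^ g) • m a b - ((X b ^ (e + g) : MvPolynomial α R) • y a -
        (X a ^ (e + g) : MvPolynomial α R) • y b)) := by module
  rw [this, h2, smul_zero]

end

end Pool.Agent.Lib.MP_1c03d5_ag
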