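import Pool.Agent.Lib.MP_1c03d5_ag.Defs
import Pool.Agent.Lib.MP_1c03d5_ag.Rel

/-!
# TASK SH: generalities on etale sheaves and atlases
-/

open CategoryTheory Limits AlgebraicGeometry Opposite

universe u

namespace Pool.Agent.Lib.MP_1c03d5_ag

noncomputable section

/-- Every section of `X` comes etale locally from one of the sections `u i`. -/
def LocSurj (X : Psh.{u}) {ι : Type} (R : ι → CommRingCat.{u}) (u : ∀ i, X.obj (op (Spec (R i)))) :
    Prop := ∀ (T : Scheme.{u}) (x : X.obj (op T)) (t : T), ∃ (T' : Scheme.{u}) (g : T' ⟶ T)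
      (i : ι) (v : T' ⟶ Spec (R i)), Etale g ∧ t ∈ Set.range g ∧ X.map g.op x = X.map v.op (u i)

variable {k : Type u} [Field k] {X : Psh.{u}}

/-- The section of `X` given by a point of a chart. -/
def secOf {F : Fam k} (u : ∀ i, X.obj (op (Spec (.of (F.A i))))) {C : Type u} [CommRing C]
    [Algebra k C] (σ : F.Pt C) : X.obj (op (Spec (.of C))) :=
  X.map (Spec.map (CommRingCat.ofHom σ.2.toRingHom)).op (u σ.1)

/-- `X` is the quotient of the charts of `P` by the relation of `P`. -/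
structure IsPres (π : X ⟶ yoneda.obj (Spec (.of k))) (P : PreRel k)
    (u : ∀ i, X.obj (op (Spec (.of (P.A i))))) : Prop where
  str_eq : ∀ i, π.app _ (u i) = Spec.map (CommRingCat.ofHom (algebraMap k (P.A i)))
  surj : LocSurj X (fun i => .of (P.A i)) u
  rel : ∀ (C : Type u) [CommRing C] [Algebra k C] (σ τ : P.Pt C),
    P.Rel σ τ ↔ secOf u σ = secOf u τ

theorem sh_map_comp (X : Psh.{u}) {A B C : Scheme.{u}} (f : A ⟶ B) (g : B ⟶ C)
    (x : X.obj (op C)) : X.map (f ≫ g).op x = X.map f.op (X.map g.op x) := by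
  rw [op_comp, Functor.map_comp]
  rfl

theorem sh_map_id (X : Psh.{u}) {A : Scheme.{u}} (x : X.obj (op A)) : X.map (𝟙 A).op x = x := by
  rw [op_id, X.map_id]
  rfl

theorem secOf_map {F : Fam k} (u : ∀ i, X.obj (op (Spec (.of (F.A i))))) {C C' : Type u}
    [CommRing C] [Algebra k C] [CommRing C'] [Algebra k C'] (σ : F.Pt C) (φ : C →ₐ[k] C') :
    secOf u (σ.map φ) = X.map (Spec.map (CommRingCat.ofHom φ.toRingHom)).op (secOf u σ) := by
  unfold secOf
  rw [← sh_map_comp, ← Spec.map_comp]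
  rfl

theorem isSheaf_yoneda (Y : Scheme.{u}) : Presieve.IsSheaf Scheme.etaleTopology (yoneda.obj Y) :=
  Presieve.isSheaf_of_le _ Scheme.etaleTopology_le_proetaleTopology
    (GrothendieckTopology.Subcanonical.isSheaf_of_isRepresentable _)

theorem sh_isSheafFor (hX : Presieve.IsSheaf Scheme.etaleTopology X) {T : Scheme.{u}} {ι : Type u}
    (U : ι → Scheme.{u}) (g : ∀ i, U i ⟶ T) (hg : ∀ i, Etale (g i))
    (hs : ∀ t : T, ∃ i, t ∈ Set.range (g i)) : Presieve.IsSheafFor X (Presieve.ofArrows U g) :=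
  hX.isSheafFor _ (Scheme.Cover.mkOfCovers (P := @Etale) ι U g hs hg).mem_grothendieckTopology

/-- Sections of an etale sheaf that agree etale locally on affines agree. -/
theorem sec_ext (hX : Presieve.IsSheaf Scheme.etaleTopology X) {T : Scheme.{u}}
    {x y : X.obj (op T)} (h : ∀ t : T, ∃ (T' : Scheme.{u}) (g : T' ⟶ T), Etale g ∧
      t ∈ Set.range g ∧ X.map g.op x = X.map g.op y) : x = y := by
  choose T' g hg ht he using h
  refine (sh_isSheafFor hX T' g hg fun t => ⟨t, ht t⟩).isSeparatedFor.ext ?_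
  rintro _ _ ⟨t⟩
  exact he t

theorem sh_aff_ext (hX : Presieve.IsSheaf Scheme.etaleTopology X) {T : Scheme.{u}}
    {x y : X.obj (op T)}
    (h : ∀ (C : CommRingCat.{u}) (c : Spec C ⟶ T), X.map c.op x = X.map c.op y) : x = y := by
  refine sec_ext hX fun t => ?_
  obtain ⟨C, c, _, z, rfl⟩ := T.exists_Spec_apply_eq t
  exact ⟨Spec C, c, inferInstance, ⟨z, rfl⟩, h C c⟩

/-- Gluing along an etale cover; compatibility is tested on affine schemes. -/
theorem exists_glue (hX : Presieve.IsSheaf Scheme.etaleTopology X) {T : Scheme.{u}} {ι : Type u}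
    (U : ι → Scheme.{u}) (g : ∀ i, U i ⟶ T) (hg : ∀ i, Etale (g i))
    (hs : ∀ t : T, ∃ i, t ∈ Set.range (g i)) (x : ∀ i, X.obj (op (U i)))
    (h : ∀ (C : CommRingCat.{u}) (i j : ι) (a : Spec C ⟶ U i) (b : Spec C ⟶ U j),
      a ≫ g i = b ≫ g j → X.map a.op (x i) = X.map b.op (x j)) :
    ∃ y : X.obj (op T), ∀ i, X.map (g i).op y = x i := by
  refine ((Presieve.isSheafFor_arrows_iff X g).1 (sh_isSheafFor hX U g hg hs) x ?_).exists
  intro i j Z a b hab
  refine sh_aff_ext hX fun C c => ?_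
  rw [← sh_map_comp, ← sh_map_comp]
  exact h C i j _ _ (by rw [Category.assoc, Category.assoc, hab])

theorem LocSurj.hom_ext {Y : Psh.{u}} (hY : Presieve.IsSheaf Scheme.etaleTopology Y) {ι : Type}
    {R : ι → CommRingCat.{u}} {u : ∀ i, X.obj (op (Spec (R i)))} (hu : LocSurj X R u)
    {f g : X ⟶ Y} (h : ∀ i, f.app _ (u i) = g.app _ (u i)) : f = g := by
  ext T x
  obtain ⟨T⟩ := T
  refine sec_ext hY fun t => ?_
  obtain ⟨T', c, i, v, hc, ht, he⟩ := hu T x t
  refine ⟨T', c, hc, ht, ?_⟩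
  have h1 := NatTrans.naturality_apply f c.op x
  have h2 := NatTrans.naturality_apply g c.op x
  have h3 := NatTrans.naturality_apply f v.op (u i)
  have h4 := NatTrans.naturality_apply g v.op (u i)
  refine h1.symm.trans (Eq.trans ?_ h2)
  rw [he]
  refine h3.trans (Eq.trans ?_ h4.symm)
  rw [h i]

theorem sh_exists_hom {Y : Psh.{u}} (hY : Presieve.IsSheaf Scheme.etaleTopology Y) {ι : Type}
    {R : ι → CommRingCat.{u}} {u : ∀ i, X.obj (op (Spec (R i)))}
    {v : ∀ i, Y.obj (op (Spec (R i)))} (hu : LocSurj X R u)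
    (h : ∀ (C : CommRingCat.{u}) (i j : ι) (a : R i ⟶ C) (b : R j ⟶ C),
      X.map (Spec.map a).op (u i) = X.map (Spec.map b).op (u j) →
        Y.map (Spec.map a).op (v i) = Y.map (Spec.map b).op (v j)) :
    ∃ f : X ⟶ Y, ∀ i, f.app _ (u i) = v i := by
  have h' : ∀ (Z : Scheme.{u}) (i j : ι) (a : Z ⟶ Spec (R i)) (b : Z ⟶ Spec (R j)),
      X.map a.op (u i) = X.map b.op (u j) → Y.map a.op (v i) = Y.map b.op (v j) := by
    intro Z i j a b hab
    refine sh_aff_ext hY fun C c => ?_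
    rw [← sh_map_comp, ← sh_map_comp]
    have h1 : X.map (c ≫ a).op (u i) = X.map (c ≫ b).op (u j) := by
      rw [sh_map_comp, sh_map_comp, hab]
    obtain ⟨a', ha⟩ := Spec.map_surjective (c ≫ a)
    obtain ⟨b', hb⟩ := Spec.map_surjective (c ≫ b)
    rw [← ha, ← hb] at h1 ⊢
    exact h C i j a' b' h1
  let Rl : ∀ T : Scheme.{u}, X.obj (op T) → Y.obj (op T) → Prop := fun T x y =>
    ∀ (Z : Scheme.{u}) (c : Z ⟶ T) (i : ι) (a : Z ⟶ Spec (R i)),
      X.map c.op x = X.map a.op (u i) → Y.map c.op y = Y.map a.op (v i)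
  have uniq : ∀ (T : Scheme.{u}) (x : X.obj (op T)) (y y' : Y.obj (op T)),
      Rl T x y → Rl T x y' → y = y' := by
    intro T x y y' h1 h2
    refine sec_ext hY fun t => ?_
    obtain ⟨T', c, i, a, hc, ht, he⟩ := hu T x t
    exact ⟨T', c, hc, ht, (h1 T' c i a he).trans (h2 T' c i a he).symm⟩
  have ex : ∀ (T : Scheme.{u}) (x : X.obj (op T)), ∃ y : Y.obj (op T), Rl T x y := by
    intro T x
    choose T' g i w hg ht he using hu T x
    obtain ⟨y, hy⟩ := exists_glue hY T' g hg (fun t => ⟨t, ht t⟩)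
      (fun t => Y.map (w t).op (v (i t))) (by
        intro C s t a b hab
        rw [← sh_map_comp, ← sh_map_comp]
        refine h' _ _ _ _ _ ?_
        rw [sh_map_comp, sh_map_comp, ← he, ← he, ← sh_map_comp, ← sh_map_comp, hab])
    refine ⟨y, fun Z c j a hc => sec_ext hY fun z => ?_⟩
    have := hg (c z)
    refine ⟨pullback c (g (c z)), pullback.fst _ _, inferInstance, ?_, ?_⟩
    · rw [Scheme.Pullback.range_fst]
      exact ht (c z)
    · rw [← sh_map_comp, ← sh_map_comp, pullback.condition, sh_map_comp, hy, ← sh_map_comp]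
      refine h' _ _ _ _ _ ?_
      rw [sh_map_comp, sh_map_comp, ← he, ← hc, ← sh_map_comp, ← sh_map_comp, pullback.condition]
  choose φ hφ using ex
  refine ⟨{ app := fun T => TypeCat.ofHom (φ T.unop), naturality := ?_ }, fun i => ?_⟩
  · rintro ⟨T⟩ ⟨T'⟩ ⟨k⟩
    ext x
    change φ T' (X.map k.op x) = Y.map k.op (φ T x)
    refine uniq T' _ _ _ (hφ T' _) fun Z c i a hc => ?_
    rw [← sh_map_comp] at hc ⊢
    exact hφ T x Z _ i a hc
  · have h1 := hφ _ (u i) _ (𝟙 _) i (𝟙 _) rfl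
    rw [sh_map_id, sh_map_id] at h1
    exact h1

/-- Two sheaves with the same presentation are isomorphic. -/
theorem exists_iso {Y : Psh.{u}} (hX : Presieve.IsSheaf Scheme.etaleTopology X)
    (hY : Presieve.IsSheaf Scheme.etaleTopology Y) {ι : Type} {R : ι → CommRingCat.{u}}
    {u : ∀ i, X.obj (op (Spec (R i)))} {v : ∀ i, Y.obj (op (Spec (R i)))} (hu : LocSurj X R u)
    (hv : LocSurj Y R v) (h : ∀ (C : CommRingCat.{u}) (i j : ι) (a : R i ⟶ C) (b : R j ⟶ C),
      X.map (Spec.map a).op (u i) = X.map (Spec.map b).op (u j) ↔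
        Y.map (Spec.map a).op (v i) = Y.map (Spec.map b).op (v j)) :
    ∃ e : X ≅ Y, ∀ i, e.hom.app _ (u i) = v i := by
  obtain ⟨f, hf⟩ := sh_exists_hom hY hu fun C i j a b => (h C i j a b).1
  obtain ⟨g, hg⟩ := sh_exists_hom hX hv fun C i j a b => (h C i j a b).2
  refine ⟨⟨f, g, hu.hom_ext hX fun i => ?_, hv.hom_ext hY fun i => ?_⟩, hf⟩
  · change g.app _ (f.app _ (u i)) = u i
    rw [hf, hg]
  · change f.app _ (g.app _ (v i)) = v i
    rw [hg, hf]

/-- A jointly surjective family of etale maps to a scheme is locally surjective. -/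
theorem locSurj_yoneda {Y : Scheme.{u}} {ι : Type} {R : ι → CommRingCat.{u}}
    (v : ∀ i, Spec (R i) ⟶ Y) (hv : ∀ i, Etale (v i)) (hs : ∀ y : Y, ∃ i, y ∈ Set.range (v i)) :
    LocSurj (yoneda.obj Y) R v := by
  intro T (x : T ⟶ Y) t
  obtain ⟨i, hi⟩ := hs (x t)
  have := hv i
  refine ⟨pullback x (v i), pullback.fst _ _, i, pullback.snd _ _, inferInstance, ?_,
    (pullback.condition : pullback.fst x (v i) ≫ x = pullback.snd x (v i) ≫ v i)⟩
  rw [Scheme.Pullback.range_fst]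
  exact hi

end

end Pool.Agent.Lib.MP_1c03d5_ag
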