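import Pool.Agent.Lib.MP_1c03d5_ag.Sh

/-!
# TASK SHP: points of a functor
-/

open CategoryTheory Limits AlgebraicGeometry Opposite

universe u

namespace Pool.Agent.Lib.MP_1c03d5_ag

noncomputable section

variable {X : Psh.{u}}

open TensorProduct in
theorem shp_amalg {K L M : Type u} [Field K] [Field L] [Field M] (i : K →+* L) (j : K →+* M) :
    ∃ (N : Type u) (_ : Field N) (i' : L →+* N) (j' : M →+* N), i'.comp i = j'.comp j := by
  let _ := i.toAlgebra
  let _ := j.toAlgebra
  obtain ⟨m, hm⟩ := Ideal.exists_maximal (L ⊗[K] M)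
  refine ⟨(L ⊗[K] M) ⧸ m, Ideal.Quotient.field m,
    (Ideal.Quotient.mk m).comp Algebra.TensorProduct.includeLeftRingHom,
    (Ideal.Quotient.mk m).comp
      (Algebra.TensorProduct.includeRight (R := K) (A := L) (B := M)).toRingHom, ?_⟩
  exact congrArg (Ideal.Quotient.mk m).comp
    Algebra.TensorProduct.includeLeftRingHom_comp_algebraMap

theorem shp_map {K L M : Type u} [Field K] [Field L] [Field M] (i : K →+* L) (j : L →+* M)
    (x : X.obj (op (Spec (.of K)))) : X.map (Spec.map (CommRingCat.ofHom (j.comp i))).op x =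
      X.map (Spec.map (CommRingCat.ofHom j)).op (X.map (Spec.map (CommRingCat.ofHom i)).op x) := by
  rw [CommRingCat.ofHom_comp, Spec.map_comp, op_comp, Functor.map_comp_apply]

theorem shp_equiv : Equivalence (FPt.Rel (X := X)) where
  refl a := ⟨a.K, a.fld, RingHom.id _, RingHom.id _, rfl⟩
  symm := fun ⟨L, h, i, j, e⟩ => ⟨L, h, j, i, e.symm⟩
  trans := fun ⟨_, _, i, j, e⟩ ⟨_, _, i', j', e'⟩ => by
    obtain ⟨N, _, p, q, h⟩ := shp_amalg j i'
    refine ⟨N, inferInstance, p.comp i, q.comp j', ?_⟩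
    rw [shp_map, shp_map, e, ← e', ← shp_map, ← shp_map, h]

theorem Pts.mk_eq_iff {a b : FPt X} : (Quot.mk _ a : Pts X) = Quot.mk _ b ↔ a.Rel b :=
  Quot.eq.trans shp_equiv.eqvGen_iff

theorem Pts.ofScheme_imPt {U : Scheme.{u}} (f : yoneda.obj U ⟶ X) {L : Type u} [Field L]
    (g : Spec (.of L) ⟶ U) : Pts.ofScheme f (imPt g) = Quot.mk _ ⟨L, f.app _ g⟩ := by
  refine Quot.sound ⟨L, inferInstance,
    (Scheme.descResidueField (Scheme.stalkClosedPointTo g)).hom, RingHom.id _, ?_⟩
  refine (NatTrans.naturality_apply f _ _).symm.trans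
    (Eq.trans (congrArg (f.app _) ?_) (NatTrans.naturality_apply f _ _))
  refine (Scheme.descResidueField_stalkClosedPointTo_fromSpecResidueField L U g).trans ?_
  change g = Spec.map (𝟙 (CommRingCat.of L)) ≫ g
  rw [Spec.map_id, Category.id_comp]

theorem Pts.toScheme_ofScheme {U T : Scheme.{u}} (f : yoneda.obj U ⟶ X) (g : X ⟶ yoneda.obj T)
    (y : U) : Pts.toScheme g (Pts.ofScheme f y) = yoneda.preimage (f ≫ g) y := by
  have h : g.app _ (f.app _ (U.fromSpecResidueField y)) =
      U.fromSpecResidueField y ≫ yoneda.preimage (f ≫ g) :=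
    congrArg (fun φ : yoneda.obj U ⟶ yoneda.obj T => φ.app _ (U.fromSpecResidueField y))
      (yoneda.map_preimage (f ≫ g)).symm
  refine (congrArg (imPt (K := U.residueField y) (T := T)) h).trans ?_
  exact congrArg (yoneda.preimage (f ≫ g)) (Scheme.fromSpecResidueField_apply y _)

theorem Pts.isClosed_iff {Z : Set (Pts X)} : IsClosed Z ↔
    ∀ (U : Scheme.{u}) (f : yoneda.obj U ⟶ X), IsEt f → IsClosed (Pts.ofScheme f ⁻¹' Z) := by
  simp only [isClosed_iSup_iff, isClosed_coinduced]

end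

end Pool.Agent.Lib.MP_1c03d5_ag
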