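import Pool.Agent.Lib.MP_1c03d5_ag.Fadj

/-!
# TASK TRV: the estimate at a divisorial valuation
-/

universe u

namespace Pool.Agent.Lib.MP_1c03d5_ag

noncomputable section

variable {k : Type u} [Field k] [IsAlgClosed k] (p : ℕ) [Fact p.Prime] [CharP k p]

/-- The estimate at a divisorial valuation. -/
theorem TrReg.v_le {F : Fam k} {K : Type u} [Field K] [Algebra k K] [Algebra.EssFiniteType k K]
    {d : ℕ} {h y : Fin d → K} (hh : IsCoord k h) (hy : IsCoord k y) {σ : F.Pt K} {w : Val k K}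
    (hw : σ.Cen w) (hyw : ∀ i, y i ∈ w.O) (hyσ : ∀ i, y i ∈ σ.fld)
    (hloc : ∀ x ∈ w.O, ∃ b, w.v b = 1 ∧ σ.Int b ∧ σ.Int (b * x) ∧
      b ∈ Algebra.adjoin k (insert x (σ.2.range : Set K))) {c : K}
    (hc : ∀ x, σ.Int x → x ∈ σ.fld → c * x ∈ σ.2.range) {e : ℕ} {u : K}
    (hu : TrReg (p ^ e) h σ u) : w.v (u * c) ≤ w.v (jac k y h) ^ (p ^ e - 1) := by
  have : CharP K p := charP_of_injective_algebraMap (algebraMap k K).injective p
  have ph := hh.isPB p
  have py := hy.isPB p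
  have pq := py.pow e
  have hq : p ^ e - 1 + 1 = p ^ e :=
    Nat.sub_add_cancel (Nat.one_le_pow _ _ (Fact.out : p.Prime).pos)
  have hr : ∀ x ∈ σ.2.range, x ∈ w.O := by
    rintro _ ⟨a, rfl⟩
    exact hw a
  have key : ∀ x ∈ w.O, x ∈ σ.fld →
      Tr (p ^ e) y (x * (jac k h y ^ (p ^ e - 1) * (u * c))) ∈ w.O := by
    intro x hx hxσ
    obtain ⟨b, b1, b2, b3, b4⟩ := hloc x hx
    have b5 : b ∈ σ.fld := by
      refine Algebra.adjoin_le (S := σ.fld.toSubalgebra) ?_ b4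
      rintro z (rfl | ⟨a, rfl⟩)
      · exact hxσ
      · exact IntermediateField.subset_adjoin k _ ⟨a, rfl⟩
    obtain ⟨a, ha⟩ := hc (b ^ (p ^ e - 1) * (b * x)) ((b2.pow _).mul b3)
      (mul_mem (pow_mem b5 _) (mul_mem b5 hxσ))
    have h1 := hr _ (hu.2 a)
    have ha' : σ.2 a = c * (b ^ (p ^ e - 1) * (b * x)) := ha
    have h2 : jac k h y ^ (p ^ e - 1) * (u * σ.2 a) =
        b ^ p ^ e * (x * (jac k h y ^ (p ^ e - 1) * (u * c))) := by
      have h3 : b ^ p ^ e = b ^ (p ^ e - 1) * b := by rw [← pow_succ, hq]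
      rw [ha', h3]
      ring
    rw [Tr_change hh hy ph py, h2, pq.Tr_pow_mul, ← Val.v_le_one, map_mul, b1, one_mul,
      Val.v_le_one] at h1
    exact h1
  have hv : jac k h y ^ (p ^ e - 1) * (u * c) ∈ w.O := by
    rw [pq.eq_sum (jac k h y ^ (p ^ e - 1) * (u * c))]
    refine sum_mem fun α _ => mul_mem (pow_mem ?_ _) (prod_mem fun i _ => pow_mem (hyw i) _)
    rw [pq.coef_eq_Tr]
    exact key _ (prod_mem fun i _ => pow_mem (hyw i) _) (prod_mem fun i _ => pow_mem (hyσ i) _)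
  have h1 : jac k y h * jac k h y = 1 := by rw [hy.jac_mul hh, hy.jac_self]
  have h2 : u * c = jac k y h ^ (p ^ e - 1) * (jac k h y ^ (p ^ e - 1) * (u * c)) := by
    rw [← mul_assoc, ← mul_pow, h1, one_pow, one_mul]
  rw [h2, map_mul, map_pow]
  exact mul_le_of_le_one_right' (Val.v_le_one.2 hv)

end

end Pool.Agent.Lib.MP_1c03d5_ag
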