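import Pool.Agent.Lib.MP_1c03d5_ag.Serre

/-!
# Abstract graded form of the vanishing statement
-/

universe u

namespace Pool.Agent.Lib.MP_1c03d5_ag

noncomputable section

theorem van_decomp {M N : Type u} [AddCommGroup M] [AddCommGroup N] (q : M →+ N)
    (hq : Function.Surjective q) (π : ℕ → M →+ M)
    (hfin : ∀ x, ∃ s : Finset ℕ, ∑ n ∈ s, π n x = x)
    (hπ : ∀ n m x, π n (π m x) = if n = m then π m x else 0)
    (hker : ∀ n x, q x = 0 → q (π n x) = 0) :
    Nonempty (DirectSum.Decomposition (fun n => (q.comp (π n)).range)) := by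
  classical
  have hl : ∀ n, ∃ ρ : N →+ N, ∀ x, ρ (q x) = q (π n x) := fun n =>
    ⟨q.liftOfSurjective hq ⟨q.comp (π n), fun x hx => hker n x hx⟩, fun x =>
      q.liftOfRightInverse_comp_apply _ _ ⟨q.comp (π n), fun x hx => hker n x hx⟩ x⟩
  choose ρ hρ using hl
  have key : ∀ n (y : DirectSum ℕ fun n => (q.comp (π n)).range),
      ρ n (DirectSum.coeAddMonoidHom _ y) = y n := by
    intro n y
    induction y using DirectSum.induction_on with
    | zero => simp
    | of m x =>
      obtain ⟨x, z, rfl⟩ := x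
      rw [DirectSum.coeAddMonoidHom_of]
      change ρ n (q (π m z)) = _
      rw [hρ, hπ]
      by_cases h : n = m
      · subst h
        simp
      · rw [if_neg h, DirectSum.of_eq_of_ne _ _ _ h]
        simp
    | add a b ha hb => simp [ha, hb]
  have hI : DirectSum.IsInternal (fun n => (q.comp (π n)).range) := by
    refine ⟨?_, ?_⟩
    · rw [injective_iff_map_eq_zero]
      intro y hy
      ext n
      rw [← key n y, hy]
      simp
    · intro x
      obtain ⟨z, rfl⟩ := hq x
      obtain ⟨s, hs⟩ := hfin z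
      refine ⟨∑ n ∈ s, DirectSum.of (fun n => (q.comp (π n)).range) n ⟨q (π n z), z, rfl⟩, ?_⟩
      rw [map_sum]
      simp only [DirectSum.coeAddMonoidHom_of]
      rw [← map_sum, hs]
  exact ⟨hI.chooseDecomposition⟩

lemma van_congr {B : Type u} [AddCommGroup B] {H : ℕ → AddSubgroup B} {n m : ℕ} {x y : B}
    (h : x ∈ H n) (hn : n = m) (hx : x = y) : y ∈ H m := hn ▸ hx ▸ h

section A

variable {R B : Type u} [CommRing R] [CommRing B] {α : Type} (ψ : R →+* B) (t : α → B)

/-- Families of subgroups stable under the coefficients and the linear forms. -/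
def van_Cl (H : ℕ → AddSubgroup B) : Prop :=
  (∀ r n, ∀ x ∈ H n, ψ r * x ∈ H n) ∧ ∀ a n, ∀ x ∈ H n, t a * x ∈ H (n + 1)

/-- The graded action on polynomials. -/
def van_phi : MvPolynomial α R →+* Polynomial B :=
  MvPolynomial.eval₂Hom (Polynomial.C.comp ψ) fun a => Polynomial.C (t a) * Polynomial.X

lemma van_phi_C (r : R) : van_phi ψ t (MvPolynomial.C r) = Polynomial.C (ψ r) := by
  simp [van_phi]

lemma van_phi_X (a : α) :
    van_phi ψ t (MvPolynomial.X a) = Polynomial.C (t a) * Polynomial.X := by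
  simp [van_phi]

lemma van_phi_mem {H : ℕ → AddSubgroup B} (hH : van_Cl ψ t H) (f : MvPolynomial α R) :
    ∀ x : Polynomial B, (∀ n, x.coeff n ∈ H n) → ∀ n, (van_phi ψ t f * x).coeff n ∈ H n := by
  induction f using MvPolynomial.induction_on with
  | C r =>
    intro x hx n
    rw [van_phi_C, Polynomial.coeff_C_mul]
    exact hH.1 _ _ _ (hx n)
  | add f g hf hg =>
    intro x hx n
    rw [map_add, add_mul, Polynomial.coeff_add]
    exact (H n).add_mem (hf x hx n) (hg x hx n)
  | mul_X f a hf =>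
    intro x hx n
    rw [map_mul, mul_assoc]
    refine hf _ (fun m => ?_) n
    rw [van_phi_X, mul_assoc, Polynomial.coeff_C_mul]
    cases m with
    | zero => simp
    | succ m =>
      rw [Polynomial.coeff_X_mul]
      exact hH.2 _ _ _ (hx m)

lemma van_phi_X_pow (a : α) (e n : ℕ) (x : B) :
    van_phi ψ t (MvPolynomial.X a ^ e) * Polynomial.monomial n x =
      Polynomial.monomial (n + e) (t a ^ e * x) := by
  rw [map_pow, van_phi_X, mul_pow, ← map_pow, Polynomial.C_mul_X_pow_eq_monomial,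
    Polynomial.monomial_mul_monomial, add_comm]

theorem van_A {k : Type u} [Field k] [Infinite k] [IsNoetherianRing R] [Algebra k R] [Finite α]
    {D G : ℕ → AddSubgroup B} (hD : van_Cl ψ t D) (hG : van_Cl ψ t G) {ι : Type u} [Finite ι]
    (g : ι → B) (N₀ : ℕ) (hg : ∀ j, g j ∈ G N₀) :
    ∃ E : ℕ → AddSubgroup B, van_Cl ψ t E ∧ (∀ j, g j ∈ E N₀) ∧ (∀ n, E n ≤ G n) ∧
      ∃ n₀, ∀ n, n₀ ≤ n → ∀ (e : ℕ) (m : α → α → B), (∀ a b, m a b ∈ E (n + 2 * e)) →
        (∀ a b c, ∃ e' : ℕ, (t a * t b * t c) ^ e' *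
          (t c ^ e * m a b + t a ^ e * m b c - t b ^ e * m a c) ∈ D (n + 3 * e + 3 * e')) →
        ∃ (e' e'' : ℕ) (y : α → B), (∀ a, y a ∈ E (n + e')) ∧ ∀ a b,
          (t a * t b) ^ e'' * ((t a * t b) ^ e' * m a b -
            (t a * t b) ^ e * (t b ^ e' * y a - t a ^ e' * y b)) ∈
              D (n + 2 * e + 2 * e' + 2 * e'') := by
  classical
  let : Algebra (MvPolynomial α R) (Polynomial B) := (van_phi ψ t).toAlgebra
  have hsm : ∀ (f : MvPolynomial α R) (x : Polynomial B), f • x = van_phi ψ t f * x :=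
    fun _ _ => rfl
  let sub : ∀ H : ℕ → AddSubgroup B, van_Cl ψ t H →
      Submodule (MvPolynomial α R) (Polynomial B) := fun H hH =>
    { carrier := {x | ∀ n, x.coeff n ∈ H n}
      add_mem' := fun {x y} hx hy n => by
        rw [Polynomial.coeff_add]
        exact (H n).add_mem (hx n) (hy n)
      zero_mem' := fun n => by simp
      smul_mem' := fun f x hx => van_phi_mem ψ t hH f x hx }
  have hsub : ∀ H hH x, x ∈ sub H hH ↔ ∀ n, x.coeff n ∈ H n := fun _ _ _ => Iff.rfl
  have hmon : ∀ H hH n x, Polynomial.monomial n x ∈ sub H hH ↔ x ∈ H n := by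
    intro H hH n x
    rw [hsub H hH]
    refine ⟨fun h => by simpa using h n, fun h m => ?_⟩
    rw [Polynomial.coeff_monomial]
    split_ifs with hm
    · exact hm ▸ h
    · exact (H m).zero_mem
  let M : Submodule (MvPolynomial α R) (Polynomial B) :=
    Submodule.span _ (Set.range fun j => Polynomial.monomial N₀ (g j))
  let E : ℕ → AddSubgroup B := fun n =>
    M.toAddSubgroup.comap (Polynomial.monomial n : B →ₗ[B] Polynomial B).toAddMonoidHom
  have hE : ∀ n x, x ∈ E n ↔ Polynomial.monomial n x ∈ M := fun _ _ => Iff.rfl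
  have hEc : van_Cl ψ t E := by
    refine ⟨fun r n x hx => ?_, fun a n x hx => ?_⟩
    · rw [hE] at hx ⊢
      have := M.smul_mem (MvPolynomial.C r) hx
      rwa [hsm, van_phi_C, Polynomial.C_mul_monomial] at this
    · rw [hE] at hx ⊢
      have := M.smul_mem (MvPolynomial.X a ^ 1) hx
      rwa [hsm, van_phi_X_pow, pow_one] at this
  have hgE : ∀ j, g j ∈ E N₀ := fun j => Submodule.subset_span ⟨j, rfl⟩
  have hle : ∀ H hH, (∀ j, g j ∈ H N₀) → M ≤ sub H hH := fun H hH h =>
    Submodule.span_le.2 (by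
      rintro _ ⟨j, rfl⟩
      exact (hmon H hH _ _).2 (h j))
  refine ⟨E, hEc, hgE, fun n x hx => (hmon G hG n x).1 (hle G hG hg hx), ?_⟩
  let D' : Submodule (MvPolynomial α R) M := (sub D hD).comap M.subtype
  have : Module.Finite (MvPolynomial α R) M :=
    Module.Finite.iff_fg.2 (Submodule.fg_span (Set.finite_range _))
  let π : ℕ → M →+ M := fun n =>
    { toFun := fun x => ⟨Polynomial.monomial n (x.1.coeff n), hle E hEc hgE x.2 n⟩
      map_zero' := by ext1; simp
      map_add' := fun x y => by ext1; simp }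
  have hπ : ∀ n x, (π n x : Polynomial B) = Polynomial.monomial n (x.1.coeff n) := fun _ _ => rfl
  have hq0 : ∀ x : M, D'.mkQ x = 0 ↔ x.1 ∈ sub D hD := fun x => by
    rw [Submodule.mkQ_apply, Submodule.Quotient.mk_eq_zero]
    rfl
  obtain ⟨dec⟩ := van_decomp D'.mkQ.toAddMonoidHom D'.mkQ_surjective π
    (fun x => ⟨x.1.support, by
      ext1
      rw [AddSubmonoidClass.coe_finsetSum]
      simp only [hπ]
      exact (Polynomial.as_sum_support _).symm⟩)
    (fun n m x => by
      ext1
      rw [hπ, hπ, Polynomial.coeff_monomial]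
      by_cases h : n = m
      · subst h
        simp [hπ]
      · rw [if_neg h, if_neg (Ne.symm h)]
        simp)
    (fun n x hx => (hq0 _).2 ((hmon D hD _ _).2 ((hq0 x).1 hx n)))
  have hmem : ∀ n (z : M ⧸ D'), z ∈ (D'.mkQ.toAddMonoidHom.comp (π n)).range ↔
      ∃ (x : B) (h : x ∈ E n), D'.mkQ ⟨Polynomial.monomial n x, h⟩ = z := by
    intro n z
    constructor
    · rintro ⟨x, rfl⟩
      exact ⟨x.1.coeff n, hle E hEc hgE x.2 n, rfl⟩
    · rintro ⟨x, h, rfl⟩
      refine ⟨⟨Polynomial.monomial n x, h⟩, ?_⟩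
      change D'.mkQ (π n _) = _
      congr 1
      ext1
      simp [hπ]
  obtain ⟨n₀, hn₀⟩ := serre_one (k := k) (R := R) (α := α) (N := M ⧸ D')
    (fun n => (D'.mkQ.toAddMonoidHom.comp (π n)).range)
    (fun a n z hz => by
      obtain ⟨x, h, rfl⟩ := (hmem n z).1 hz
      refine (hmem _ _).2 ⟨t a * x, hEc.2 _ _ _ h, ?_⟩
      rw [← map_smul]
      congr 1
      ext1
      have := van_phi_X_pow ψ t a 1 n x
      simp only [pow_one] at this
      exact this.symm)
    (fun r n z hz => by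
      obtain ⟨x, h, rfl⟩ := (hmem n z).1 hz
      refine (hmem _ _).2 ⟨ψ r * x, hEc.1 _ _ _ h, ?_⟩
      rw [← map_smul]
      congr 1
      ext1
      change _ = van_phi ψ t _ * Polynomial.monomial n x
      rw [van_phi_C, Polynomial.C_mul_monomial])
  refine ⟨n₀, fun n hn e m hm hc => ?_⟩
  obtain ⟨e', e'', y, hy, hyy⟩ := hn₀ n hn e
    (fun a b => D'.mkQ ⟨Polynomial.monomial (n + 2 * e) (m a b), hm a b⟩)
    (fun a b => (hmem _ _).2 ⟨m a b, hm a b, rfl⟩)
    (fun a b c => by
      obtain ⟨e', he'⟩ := hc a b c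
      refine ⟨e', ?_⟩
      simp only [← map_smul, ← map_add, ← map_sub]
      rw [hq0]
      simp only [Submodule.coe_smul, Submodule.coe_add, Submodule.coe_sub, mul_pow, mul_smul,
        hsm, van_phi_X_pow, ← map_add, ← map_sub]
      rw [hmon D hD]
      exact van_congr he' (by ring) (by ring))
  choose y' hy' hyq using fun a => (hmem _ _).1 (hy a)
  refine ⟨e', e'', y', hy', fun a b => ?_⟩
  have := hyy a b
  rw [← hyq a, ← hyq b] at this
  simp only [← map_smul, ← map_sub] at this
  rw [hq0] at this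
  simp only [Submodule.coe_smul, Submodule.coe_sub, mul_pow, mul_smul,
    hsm, van_phi_X_pow, ← map_sub] at this
  rw [show n + e' + e' + e + e = n + 2 * e + e' + e' by ring, ← map_sub, van_phi_X_pow,
    van_phi_X_pow, hmon D hD] at this
  exact van_congr this (by ring) (by ring)

end A

section B

variable {k A : Type u} [Field k] [CommRing A] [Algebra k A] {α β : Type} (t : α → A)
  (ξ : β → A) (μ : ℕ)

variable (k) in
/-- Bigraded families of subgroups stable under scalars and the two kinds of forms. -/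
def van_Cl2 (H : ℕ → ℕ → AddSubgroup A) : Prop :=
  (∀ (r : k) n i, ∀ x ∈ H n i, algebraMap k A r * x ∈ H n i) ∧
  (∀ a n i, ∀ x ∈ H n i, t a * x ∈ H (n + 1) i) ∧
  ∀ b n i, ∀ x ∈ H n i, ξ b * x ∈ H n (i + μ)

variable (k) in
/-- The coefficient action. -/
def van_psi : MvPolynomial β k →+* Polynomial A :=
  MvPolynomial.eval₂Hom (Polynomial.C.comp (algebraMap k A))
    fun b => Polynomial.monomial μ (ξ b)

/-- Polynomials with coefficients in a bigraded family. -/
def van_tot (H : ℕ → ℕ → AddSubgroup A) (n : ℕ) : AddSubgroup (Polynomial A) where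
  carrier := {x | ∀ i, x.coeff i ∈ H n i}
  add_mem' := fun {x y} hx hy i => by
    rw [Polynomial.coeff_add]
    exact (H n i).add_mem (hx i) (hy i)
  zero_mem' := fun i => by simp
  neg_mem' := fun {x} hx i => by
    rw [Polynomial.coeff_neg]
    exact (H n i).neg_mem (hx i)

lemma van_tot_mon {H : ℕ → ℕ → AddSubgroup A} {n i : ℕ} {x : A} :
    Polynomial.monomial i x ∈ van_tot H n ↔ x ∈ H n i := by
  refine ⟨fun h => by simpa using h i, fun h m => ?_⟩
  rw [Polynomial.coeff_monomial]
  split_ifs with hm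
  · exact hm ▸ h
  · exact (H n m).zero_mem

lemma van_tot_cl {H : ℕ → ℕ → AddSubgroup A} (hH : van_Cl2 k t ξ μ H) :
    van_Cl (van_psi k ξ μ) (fun a => Polynomial.C (t a)) (van_tot H) := by
  refine ⟨fun r n => ?_, fun a n x hx i => ?_⟩
  · induction r using MvPolynomial.induction_on with
    | C r =>
      intro x hx i
      have : van_psi k ξ μ (MvPolynomial.C r) = Polynomial.C (algebraMap k A r) := by
        simp [van_psi]
      rw [this, Polynomial.coeff_C_mul]
      exact hH.1 _ _ _ _ (hx i)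
    | add f g hf hg =>
      intro x hx
      rw [map_add, add_mul]
      exact (van_tot H n).add_mem (hf x hx) (hg x hx)
    | mul_X f b hf =>
      intro x hx
      rw [map_mul, mul_assoc]
      refine hf _ (fun i => ?_)
      have : van_psi k ξ μ (MvPolynomial.X b) = Polynomial.C (ξ b) * Polynomial.X ^ μ := by
        simp [van_psi, Polynomial.C_mul_X_pow_eq_monomial]
      rw [this, mul_assoc, Polynomial.coeff_C_mul, Polynomial.coeff_X_pow_mul']
      split_ifs with h
      · exact van_congr (hH.2.2 b n _ _ (hx (i - μ))) (by omega) rfl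
      · simp
  · rw [Polynomial.coeff_C_mul]
    exact hH.2.1 _ _ _ _ (hx i)

theorem van_B [Infinite k] [Finite α] [Finite β] {D G : ℕ → ℕ → AddSubgroup A}
    (hD : van_Cl2 k t ξ μ D) (hG : van_Cl2 k t ξ μ G) {ι : Type u} [Finite ι] (g : ι → A)
    (ρ : ι → ℕ) (N₀ : ℕ) (hg : ∀ j, g j ∈ G N₀ (ρ j)) :
    ∃ E : ℕ → ℕ → AddSubgroup A, van_Cl2 k t ξ μ E ∧ (∀ j, g j ∈ E N₀ (ρ j)) ∧
      (∀ n i, E n i ≤ G n i) ∧
      ∃ n₀, ∀ n, n₀ ≤ n → ∀ (i e : ℕ) (m : α → α → A), (∀ a b, m a b ∈ E (n + 2 * e) i) →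
        (∀ a b c, ∃ e' : ℕ, (t a * t b * t c) ^ e' *
          (t c ^ e * m a b + t a ^ e * m b c - t b ^ e * m a c) ∈ D (n + 3 * e + 3 * e') i) →
        ∃ (e' e'' : ℕ) (y : α → A), (∀ a, y a ∈ G (n + e') i) ∧ ∀ a b,
          (t a * t b) ^ e'' * ((t a * t b) ^ e' * m a b -
            (t a * t b) ^ e * (t b ^ e' * y a - t a ^ e' * y b)) ∈
              D (n + 2 * e + 2 * e' + 2 * e'') i := by
  obtain ⟨E, hE, hgE, hEG, n₀, hn₀⟩ := van_A (k := k) (van_psi k ξ μ)
    (fun a => Polynomial.C (t a)) (van_tot_cl t ξ μ hD) (van_tot_cl t ξ μ hG)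
    (fun j => Polynomial.monomial (ρ j) (g j)) N₀ (fun j => van_tot_mon.2 (hg j))
  let E' : ℕ → ℕ → AddSubgroup A := fun n i =>
    (E n).comap (Polynomial.monomial i : A →ₗ[A] Polynomial A).toAddMonoidHom
  have hE' : ∀ n i x, x ∈ E' n i ↔ Polynomial.monomial i x ∈ E n := fun _ _ _ => Iff.rfl
  refine ⟨E', ⟨fun r n i x hx => ?_, fun a n i x hx => ?_, fun b n i x hx => ?_⟩, hgE,
    fun n i x hx => van_tot_mon.1 (hEG n hx), n₀, fun n hn i e m hm hc => ?_⟩
  · rw [hE'] at hx ⊢
    have := hE.1 (MvPolynomial.C r) _ _ hx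
    have h2 : van_psi k ξ μ (MvPolynomial.C r) = Polynomial.C (algebraMap k A r) := by
      simp [van_psi]
    rwa [h2, Polynomial.C_mul_monomial] at this
  · rw [hE'] at hx ⊢
    have := hE.2 a _ _ hx
    rwa [Polynomial.C_mul_monomial] at this
  · rw [hE'] at hx ⊢
    have := hE.1 (MvPolynomial.X b) _ _ hx
    have h2 : van_psi k ξ μ (MvPolynomial.X b) = Polynomial.monomial μ (ξ b) := by
      simp [van_psi]
    rwa [h2, Polynomial.monomial_mul_monomial, add_comm] at this
  · obtain ⟨e', e'', y, hy, hyy⟩ := hn₀ n hn e (fun a b => Polynomial.monomial i (m a b)) hm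
      (fun a b c => by
        obtain ⟨e', he'⟩ := hc a b c
        refine ⟨e', ?_⟩
        simp only [← map_mul, ← map_pow, Polynomial.C_mul_monomial, ← map_add, ← map_sub]
        exact van_tot_mon.2 he')
    refine ⟨e', e'', fun a => (y a).coeff i, fun a => hEG _ (hy a) i, fun a b => ?_⟩
    have := hyy a b i
    simp only [← map_mul, ← map_pow, Polynomial.coeff_C_mul, Polynomial.coeff_sub,
      Polynomial.coeff_monomial_same] at this
    exact this

end B

end

end Pool.Agent.Lib.MP_1c03d5_ag
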