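import Pool.Agent.Lib.MP_1c03d5_ag.Cov
import Pool.Agent.Lib.MP_1c03d5_ag.VanX1

/-!
# Calculus of local bounds and the two bigraded families
-/

universe u

namespace Pool.Agent.Lib.MP_1c03d5_ag

noncomputable section

variable {k K : Type u} [Field k] [Field K] [Algebra k K] {α : Type} {τ : α → K}

section calc_

variable {I : Set α} {x y z x' y' : K}

lemma van_refl (x : K) : LeOn k τ I x x := fun _ _ => le_rfl

lemma van_zero (y : K) : LeOn k τ I 0 y := fun w _ => by simp

lemma van_trans (h : LeOn k τ I x y) (h' : LeOn k τ I y z) : LeOn k τ I x z :=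
  fun w hw => (h w hw).trans (h' w hw)

lemma van_add (h : LeOn k τ I x z) (h' : LeOn k τ I y z) : LeOn k τ I (x + y) z :=
  fun w hw => w.v.map_add_le (h w hw) (h' w hw)

lemma van_neg (h : LeOn k τ I x z) : LeOn k τ I (-x) z :=
  fun w hw => by rw [Valuation.map_neg]; exact h w hw

lemma van_sub (h : LeOn k τ I x z) (h' : LeOn k τ I y z) : LeOn k τ I (x - y) z := by
  rw [sub_eq_add_neg]
  exact van_add h (van_neg h')

lemma van_mul (h : LeOn k τ I x y) (h' : LeOn k τ I x' y') : LeOn k τ I (x * x') (y * y') :=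
  fun w hw => by rw [map_mul, map_mul]; exact mul_le_mul' (h w hw) (h' w hw)

lemma van_pow (h : LeOn k τ I x y) (n : ℕ) : LeOn k τ I (x ^ n) (y ^ n) :=
  fun w hw => by rw [map_pow, map_pow]; exact pow_le_pow_left' (h w hw) n

lemma van_eq (h : LeOn k τ I x y) (hx : x = x') (hy : y = y') : LeOn k τ I x' y' :=
  hx ▸ hy ▸ h

lemma van_cancel {c : K} (hc : c ≠ 0) (h : LeOn k τ I (x * c) (y * c)) : LeOn k τ I x y :=
  van_eq (van_mul h (van_refl c⁻¹)) (by field_simp) (by field_simp)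

lemma van_tau {a : α} (ha : a ∈ I) (b : α) : LeOn k τ I (τ b) (τ a) := fun _ hw => hw a ha b

lemma van_alg (r : k) : LeOn k τ I (algebraMap k K r) 1 := fun w _ => by
  rw [map_one]
  exact Val.v_le_one.2 (w.hk r)

end calc_

variable {ε : α → K} {s : K}

lemma van_eps (hεε : ∀ a b, LeOn k τ {a, b} (ε a) (ε b)) {I : Set α} {a b : α} (ha : a ∈ I)
    (hb : b ∈ I) : LeOn k τ I (ε a) (ε b) :=
  (hεε a b).mono (by rintro _ (rfl | rfl) <;> assumption)

lemma van_chg (hεε : ∀ a b, LeOn k τ {a, b} (ε a) (ε b)) {I : Set α} {a b : α} (ha : a ∈ I)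
    (hb : b ∈ I) (n i : ℕ) : LeOn k τ I (τ b ^ n * ε b ^ i) (τ a ^ n * ε a ^ i) :=
  van_mul (van_pow (van_tau ha b) n) (van_pow (van_eps hεε hb ha) i)

lemma van_chgS (hεε : ∀ a b, LeOn k τ {a, b} (ε a) (ε b)) {I : Set α} {a b : α} (ha : a ∈ I)
    (hb : b ∈ I) {n i : ℕ} {x : K} (h : LeOn k τ I (x * ε b) (s * (τ b ^ n * ε b ^ i))) :
    LeOn k τ I (x * ε a) (s * (τ a ^ n * ε a ^ i)) :=
  van_trans (van_mul (van_refl x) (van_eps hεε ha hb))
    (van_trans h (van_mul (van_refl s) (van_chg hεε ha hb n i)))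

lemma van_one {a : α} {I : Set α} (ha : a ∈ I) {x y : K} (h : LeOn k τ {a} x y) :
    LeOn k τ I x y := h.mono (Set.singleton_subset_iff.2 ha)

lemma van_two {a b : α} {I : Set α} (ha : a ∈ I) (hb : b ∈ I) {x y : K}
    (h : LeOn k τ {a, b} x y) : LeOn k τ I x y :=
  h.mono (by rintro _ (rfl | rfl) <;> assumption)

variable (k τ ε s) in
/-- Families divisible by `s`. -/
def van_D (n i : ℕ) : AddSubgroup (α → K) where
  carrier := {y | ∀ a, LeOn k τ {a} (y a * ε a) (s * (τ a ^ n * ε a ^ i))}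
  add_mem' := fun {x y} hx hy a => van_eq (van_add (hx a) (hy a)) (by simp [add_mul]) rfl
  zero_mem' := fun a => van_eq (van_zero _) (by simp) rfl
  neg_mem' := fun {x} hx a => van_eq (van_neg (hx a)) (by simp) rfl

variable (k τ ε s) in
/-- Families compatible modulo `s`. -/
def van_G (n i : ℕ) : AddSubgroup (α → K) where
  carrier := {y | (∀ a, LeOn k τ {a} (y a) (τ a ^ n * ε a ^ i)) ∧
    ∀ a b, LeOn k τ {a, b} ((y a - y b) * ε a) (s * (τ a ^ n * ε a ^ i))}
  add_mem' := fun {x y} hx hy => ⟨fun a => van_add (hx.1 a) (hy.1 a), fun a b =>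
    van_eq (van_add (hx.2 a b) (hy.2 a b)) (by simp only [Pi.add_apply]; ring) rfl⟩
  zero_mem' := ⟨fun a => van_zero _, fun a b => van_eq (van_zero _) (by simp) rfl⟩
  neg_mem' := fun {x} hx => ⟨fun a => van_neg (hx.1 a), fun a b =>
    van_eq (van_neg (hx.2 a b)) (by simp only [Pi.neg_apply]; ring) rfl⟩

variable {μ : ℕ} {β : Type} {ξ : β → α → K}

lemma van_D_cl (h1 : ∀ b a, LeOn k τ {a} (ξ b a) (ε a ^ μ)) :
    van_Cl2 k (fun a (_ : α) => τ a) ξ μ (van_D k τ ε s) := by
  refine ⟨fun r n i x hx a => ?_, fun b n i x hx a => ?_, fun b n i x hx a => ?_⟩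
  · exact van_eq (van_mul (van_alg r) (hx a))
      (by simp only [Pi.mul_apply, Pi.algebraMap_apply]; ring) (by ring)
  · exact van_eq (van_mul (van_tau (Set.mem_singleton a) b) (hx a)) (by simp only [Pi.mul_apply]; ring) (by ring)
  · exact van_eq (van_mul (h1 b a) (hx a)) (by simp only [Pi.mul_apply]; ring) (by ring)

lemma van_G_cl (hεε : ∀ a b, LeOn k τ {a, b} (ε a) (ε b))
    (h1 : ∀ b a, LeOn k τ {a} (ξ b a) (ε a ^ μ))
    (h2 : ∀ b a a', LeOn k τ {a, a'} ((ξ b a - ξ b a') * ε a) (s * ε a ^ μ)) :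
    van_Cl2 k (fun a (_ : α) => τ a) ξ μ (van_G k τ ε s) := by
  refine ⟨fun r n i x hx => ⟨fun a => ?_, fun a a' => ?_⟩,
    fun b n i x hx => ⟨fun a => ?_, fun a a' => ?_⟩,
    fun b n i x hx => ⟨fun a => ?_, fun a a' => ?_⟩⟩
  · exact van_eq (van_mul (van_alg r) (hx.1 a))
      (by simp only [Pi.mul_apply, Pi.algebraMap_apply]) (by ring)
  · exact van_eq (van_mul (van_alg r) (hx.2 a a'))
      (by simp only [Pi.mul_apply, Pi.algebraMap_apply]; ring) (by ring)
  · exact van_eq (van_mul (van_tau (Set.mem_singleton a) b) (hx.1 a)) (by simp only [Pi.mul_apply]) (by ring)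
  · exact van_eq (van_mul (van_tau (Set.mem_insert _ _) b) (hx.2 a a'))
      (by simp only [Pi.mul_apply]; ring) (by ring)
  · exact van_eq (van_mul (h1 b a) (hx.1 a)) (by simp only [Pi.mul_apply]) (by ring)
  · have ha : a ∈ ({a, a'} : Set α) := Set.mem_insert _ _
    have ha' : a' ∈ ({a, a'} : Set α) := Set.mem_insert_of_mem _ rfl
    have e1 := van_mul (van_one ha (h1 b a)) (hx.2 a a')
    have e2 := van_mul (h2 b a a') (van_trans (van_one ha' (hx.1 a')) (van_chg hεε ha ha' n i))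
    exact van_eq (van_add (van_eq e1 rfl (y' := s * (τ a ^ n * ε a ^ (i + μ))) (by ring))
      (van_eq e2 rfl (by ring))) (by simp only [Pi.mul_apply]; ring) rfl

lemma van_Cl2.pow {A : Type u} [CommRing A] [Algebra k A] {t : α → A} {ξ : β → A}
    {E : ℕ → ℕ → AddSubgroup A} (hE : van_Cl2 k t ξ μ E) (a : α) (e : ℕ) {n i : ℕ} {x : A}
    (hx : x ∈ E n i) : t a ^ e * x ∈ E (n + e) i := by
  induction e with
  | zero => simpa using hx
  | succ e ih =>
    rw [pow_succ', mul_assoc]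
    exact hE.2.1 a _ _ _ ih

variable (k τ ε s) in
/-- Local functions which come from the family `E` after multiplication by a power. -/
def van_Q (E : ℕ → ℕ → AddSubgroup (α → K)) (a : α) (i : ℕ) (x : K) (N : ℕ) : Prop :=
  ∃ y ∈ E N i, LeOn k τ {a} ((y a - x * τ a ^ N) * ε a) (s * (τ a ^ N * ε a ^ i))

variable {E : ℕ → ℕ → AddSubgroup (α → K)}

lemma van_Q.mul_pow (hE : van_Cl2 k (fun a (_ : α) => τ a) ξ μ E) {a : α} {i : ℕ} {x : K} {N : ℕ}
    (h : van_Q k τ ε s E a i x N) (b : α) (e : ℕ) :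
    ∃ y ∈ E (N + e) i, LeOn k τ {a} ((y a - x * τ a ^ N * τ b ^ e) * ε a)
      (s * (τ a ^ (N + e) * ε a ^ i)) := by
  obtain ⟨y, hy, h⟩ := h
  refine ⟨_, hE.pow b e hy, ?_⟩
  exact van_eq (van_mul (van_pow (van_tau (Set.mem_singleton a) b) e) h)
    (by simp only [Pi.mul_apply, Pi.pow_apply]; ring) (by ring)

lemma van_Q.mono (hE : van_Cl2 k (fun a (_ : α) => τ a) ξ μ E) {a : α} {i : ℕ} {x : K} {N N' : ℕ}
    (h : van_Q k τ ε s E a i x N) (hN : N ≤ N') : van_Q k τ ε s E a i x N' := by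
  obtain ⟨e, rfl⟩ := Nat.exists_eq_add_of_le hN
  obtain ⟨y, hy, h⟩ := h.mul_pow hE a e
  exact ⟨y, hy, van_eq h (by ring) rfl⟩

variable (k ε s) in
/-- The same as an additive submonoid. -/
def van_P (hE : van_Cl2 k (fun a (_ : α) => τ a) ξ μ E) (a : α) (i : ℕ) : AddSubmonoid K where
  carrier := {x | ∃ N, van_Q k τ ε s E a i x N}
  add_mem' := by
    rintro x x' ⟨N, h⟩ ⟨N', h'⟩
    obtain ⟨y, hy, h⟩ := h.mono hE (le_max_left N N')
    obtain ⟨y', hy', h'⟩ := h'.mono hE (le_max_right N N')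
    exact ⟨max N N', y + y', (E _ _).add_mem hy hy',
      van_eq (van_add h h') (by simp only [Pi.add_apply]; ring) rfl⟩
  zero_mem' := ⟨0, 0, (E _ _).zero_mem, van_eq (van_zero _) (by simp) rfl⟩

lemma van_P_adjoin (h0 : ∀ a, τ a ≠ 0) (hE : van_Cl2 k (fun a (_ : α) => τ a) ξ μ E) {a : α}
    {i : ℕ} {r : K} (hr : r ∈ Algebra.adjoin k (Set.range fun b => τ b / τ a)) :
    ∀ x ∈ van_P k ε s hE a i, r * x ∈ van_P k ε s hE a i := by
  induction hr using Algebra.adjoin_induction with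
  | mem r hr =>
    obtain ⟨b, rfl⟩ := hr
    rintro x ⟨N, h⟩
    obtain ⟨y, hy, h⟩ := h.mul_pow hE b 1
    have := h0 a
    exact ⟨N + 1, y, hy, van_eq h (by field_simp; ring) rfl⟩
  | algebraMap r =>
    rintro x ⟨N, y, hy, h⟩
    exact ⟨N, _, hE.1 r _ _ _ hy, van_eq (van_mul (van_alg r) h)
      (by simp only [Pi.mul_apply, Pi.algebraMap_apply]; ring) (by ring)⟩
  | add r r' _ _ h h' =>
    intro x hx
    rw [add_mul]
    exact add_mem (h x hx) (h' x hx)
  | mul r r' _ _ h h' =>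
    intro x hx
    rw [mul_assoc]
    exact h _ (h' x hx)

/-- Local generation. -/
lemma van_loc [Finite β] (h0 : ∀ a, τ a ≠ 0) (hε : ∀ a, ε a ≠ 0)
    (hs : ∀ a, LeOn k τ {a} s (ε a)) (hμ : 0 < μ)
    (h1 : ∀ b a, LeOn k τ {a} (ξ b a) (ε a ^ μ))
    (h3 : ∀ a (w : Val k K), InU τ a w → w.v s < w.v (ε a) → ∃ b, w.v (ξ b a) = w.v (ε a ^ μ))
    (hE : van_Cl2 k (fun a (_ : α) => τ a) ξ μ E) (a : α) {S : Set K}
    (hS : ∀ x, LeOn k τ {a} x 1 →
      x ∈ Submodule.span (Algebra.adjoin k (Set.range fun b => τ b / τ a)) S)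
    (hg : ∀ ρ < μ, ∀ ω ∈ S, ω * ε a ^ ρ ∈ van_P k ε s hE a ρ) (i : ℕ) :
    ∀ x, LeOn k τ {a} x (ε a ^ i) → x ∈ van_P k ε s hE a i := by
  classical
  have := Fintype.ofFinite β
  have hεa := hε a
  induction i using Nat.strong_induction_on with
  | _ i ih =>
  intro x hx
  rcases lt_or_ge i μ with hi | hi
  · have key : ∀ u ∈ Submodule.span (Algebra.adjoin k (Set.range fun b => τ b / τ a)) S,
        u * ε a ^ i ∈ van_P k ε s hE a i := by
      intro u hu
      induction hu using Submodule.span_induction with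
      | mem u hu => exact hg i hi u hu
      | zero => simp
      | add u u' _ _ h h' =>
        rw [add_mul]
        exact add_mem h h'
      | smul r u _ h =>
        have := van_P_adjoin h0 hE r.2 _ h
        rwa [← mul_assoc] at this
    have := key (x / ε a ^ i) (hS _ (van_cancel (pow_ne_zero i hεa)
      (van_eq hx (by field_simp) (by ring))))
    rwa [div_mul_cancel₀ _ (pow_ne_zero i hεa)] at this
  · obtain ⟨j, rfl⟩ := Nat.exists_eq_add_of_le' hi
    obtain ⟨c, hc, hsum⟩ := exists_unit_comb (k := k) h0 a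
      (fun o : Option β => o.elim (s / ε a) fun b => ξ b a / ε a ^ μ)
      (fun o => by
        cases o with
        | none => exact van_cancel hεa (van_eq (hs a) (by simp [hεa]) (by ring))
        | some b =>
          exact van_cancel (pow_ne_zero μ hεa) (van_eq (h1 b a) (by simp [hεa]) (by ring)))
      (fun w hw => by
        have hv : w.v (ε a) ≠ 0 := by simpa using hεa
        rcases (hs a w (by simpa using hw)).lt_or_eq with h | h
        · obtain ⟨b, hb⟩ := h3 a w hw h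
          refine ⟨some b, ?_⟩
          simp only [Option.elim_some, map_div₀, hb]
          exact div_self (by simpa using pow_ne_zero μ hv)
        · refine ⟨none, ?_⟩
          simp only [Option.elim_none, map_div₀, h]
          exact div_self hv)
    rw [Fintype.sum_option] at hsum
    simp only [Option.elim_none, Option.elim_some] at hsum
    have hx' : x = c none * (s / ε a) * x + ∑ b, ξ b a * (c (some b) * x / ε a ^ μ) := by
      calc x = (c none * (s / ε a) + ∑ b, c (some b) * (ξ b a / ε a ^ μ)) * x := by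
            rw [hsum, one_mul]
        _ = _ := by
            rw [add_mul, Finset.sum_mul]
            congr 1
            exact Finset.sum_congr rfl fun b _ => by ring
    rw [hx']
    refine add_mem ⟨0, 0, (E _ _).zero_mem, ?_⟩ (sum_mem fun b _ => ?_)
    · exact van_eq (van_neg (van_mul (van_refl s) (van_mul (hc none) hx)))
        (by simp only [Pi.zero_apply]; field_simp; ring) (by ring)
    · obtain ⟨N, y, hy, h⟩ := ih j (by omega) (c (some b) * x / ε a ^ μ)
        (van_cancel (pow_ne_zero μ hεa) (van_eq (van_mul (hc (some b)) hx) (by field_simp)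
          (by ring)))
      exact ⟨N, _, hE.2.2 b _ _ _ hy, van_eq (van_mul (h1 b a) h)
        (by simp only [Pi.mul_apply]; ring) (by ring)⟩

/-- A compatible family which is small on a triple intersection is killed by a power. -/
lemma van_kill [Finite α] (h0 : ∀ a, τ a ≠ 0) (hεε : ∀ a b, LeOn k τ {a, b} (ε a) (ε b))
    {n i : ℕ} {z : α → K} (hz : z ∈ van_G k τ ε s n i) {a b c : α}
    (h : LeOn k τ {a, b, c} (z a * ε a) (s * (τ a ^ n * ε a ^ i))) :
    ∃ e', (fun _ => τ a * τ b * τ c) ^ e' * z ∈ van_D k τ ε s (n + 3 * e') i := by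
  have key : ∀ d, ∃ N₀, ∀ N, N₀ ≤ N → LeOn k τ {d} ((τ a * τ b * τ c) ^ N * z d * ε d)
      (s * (τ d ^ (n + 3 * N) * ε d ^ i)) := by
    intro d
    have ha : a ∈ ({a, b, c, d} : Set α) := by simp
    have hd : d ∈ ({a, b, c, d} : Set α) := by simp
    have e1 : LeOn k τ {a, b, c, d} (z d * ε d) (s * (τ d ^ n * ε d ^ i)) :=
      van_eq (van_add (van_chgS hεε hd ha (h.mono (by
        rintro _ (rfl | rfl | rfl) <;> simp))) (van_two hd ha (hz.2 d a))) (by ring) rfl
    obtain ⟨N1, e2⟩ := LeOn.exists_pow h0 (I := {b, c, d}) (a := d) (by simp) a e1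
    obtain ⟨N2, e3⟩ := LeOn.exists_pow h0 (I := {c, d}) (a := d) (by simp) b (e2 N1 le_rfl)
    obtain ⟨N3, e4⟩ := LeOn.exists_pow h0 (I := {d}) (a := d) (by simp) c (e3 N2 le_rfl)
    refine ⟨N1 + N2 + N3, fun N hN => ?_⟩
    obtain ⟨M1, hM1⟩ := Nat.exists_eq_add_of_le (show N1 ≤ N by omega)
    obtain ⟨M2, hM2⟩ := Nat.exists_eq_add_of_le (show N2 ≤ N by omega)
    have e5 := van_mul (e4 N (by omega)) (van_mul (van_pow (van_tau (k := k) (τ := τ) (Set.mem_singleton d) a) M1)
      (van_pow (van_tau (k := k) (τ := τ) (Set.mem_singleton d) b) M2))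
    refine van_eq e5 ?_ ?_
    · have p1 : τ a ^ N = τ a ^ N1 * τ a ^ M1 := by rw [hM1, pow_add]
      have p2 : τ b ^ N = τ b ^ N2 * τ b ^ M2 := by rw [hM2, pow_add]
      rw [mul_pow, mul_pow, p1, p2]
      ring
    · have : n + 3 * N = n + N1 + N2 + N + M1 + M2 := by omega
      rw [this]
      ring
  choose N₀ hN₀ using key
  obtain ⟨N, hN⟩ := (Set.finite_range N₀).bddAbove
  exact ⟨N, fun d => hN₀ d N (hN ⟨d, rfl⟩)⟩

end

end Pool.Agent.Lib.MP_1c03d5_ag
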