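import Pool.Agent.Lib.MP_1c03d5_ag.Cov
import Pool.Agent.Lib.MP_1c03d5_ag.Serre
import Pool.Agent.Lib.MP_1c03d5_ag.VanX2

/-!
# TASK VAN: uniform vanishing of the first Cech cohomology
-/

universe u

namespace Pool.Agent.Lib.MP_1c03d5_ag

noncomputable section

variable {k K : Type u} [Field k] [IsAlgClosed k] (p : ℕ) [Fact p.Prime] [CharP k p] [Field K]
  [Algebra k K] [Algebra.EssFiniteType k K] {α : Type} [Finite α] {τ : α → K} (h0 : ∀ a, τ a ≠ 0)
  (halg : ∀ a, Algebra.IsAlgebraic (Algebra.adjoin k (Set.range fun b => τ b / τ a)) K)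
  {ε : α → K} (hε : ∀ a, ε a ≠ 0) (hεε : ∀ a b, LeOn k τ {a, b} (ε a) (ε b)) {s : K}
  (hs : ∀ a, LeOn k τ {a} s (ε a)) {μ : ℕ} (hμ : 0 < μ) {β : Type} [Finite β] {ξ : β → α → K}
  (h1 : ∀ b a, LeOn k τ {a} (ξ b a) (ε a ^ μ))
  (h2 : ∀ b a a', LeOn k τ {a, a'} ((ξ b a - ξ b a') * ε a) (s * ε a ^ μ))
  (h3 : ∀ a (w : Val k K), InU τ a w → w.v s < w.v (ε a) → ∃ b, w.v (ξ b a) = w.v (ε a ^ μ))

include p h0 halg hε hεε hs hμ h1 h2 h3

/-- Vanishing on the divisor of `s` (on the whole model if `s = 0`). -/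
theorem van_mod : ∃ n₀, ∀ n, n₀ ≤ n → ∀ (i : ℕ) (c : α → α → K),
    (∀ a b, LeOn k τ {a, b} (c a b) (τ a ^ n * ε a ^ i)) →
    (∀ a b d, LeOn k τ {a, b, d} ((c a b + c b d - c a d) * ε a) (s * (τ a ^ n * ε a ^ i))) →
    ∃ y : α → K, (∀ a, LeOn k τ {a} (y a) (τ a ^ n * ε a ^ i)) ∧
      ∀ a b, LeOn k τ {a, b} ((c a b - (y a - y b)) * ε a) (s * (τ a ^ n * ε a ^ i)) := by
  classical
  choose S hS1 hS2 using fun a =>
    have := halg a
    exists_chart_gens (k := k) (τ := τ) p h0 a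
  have hN : ∀ (j : Σ a : α, Fin μ × S a) (b : α), ∃ N₀, ∀ N, N₀ ≤ N →
      LeOn k τ {b} ((j.2.2 : K) * ε j.1 ^ (j.2.1 : ℕ) * τ j.1 ^ N)
        (ε b ^ (j.2.1 : ℕ) * τ b ^ N) := by
    rintro ⟨a, ρ, ω⟩ b
    refine LeOn.exists_pow h0 (I := {b}) (a := b) rfl a ?_
    exact van_eq (van_mul (van_one (Set.mem_insert _ _) (hS1 a ω ω.2))
      (van_pow (hεε a b) ρ)) rfl (by ring)
  choose N₀ hN₀ using hN
  obtain ⟨N, hNb⟩ := (Set.finite_range fun q : (Σ a : α, Fin μ × S a) × α =>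
    N₀ q.1 q.2).bddAbove
  obtain ⟨E, hE, hgE, hEG, n₀, hn₀⟩ := van_B (k := k) (fun a (_ : α) => τ a) ξ μ
    (van_D_cl (s := s) h1) (van_G_cl hεε h1 h2) (ι := Σ a : α, Fin μ × S a)
    (fun j _ => (j.2.2 : K) * ε j.1 ^ (j.2.1 : ℕ) * τ j.1 ^ N) (fun j => j.2.1) N
    (fun j => ⟨fun b => van_eq (hN₀ j b N (hNb ⟨(j, b), rfl⟩)) rfl (by ring),
      fun a b => van_eq (van_zero _) (by simp) rfl⟩)
  have hloc : ∀ a i x, LeOn k τ {a} x (ε a ^ i) → x ∈ van_P k ε s hE a i := fun a =>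
    van_loc h0 hε hs hμ h1 h3 hE a (hS2 a) fun ρ hρ ω hω =>
      ⟨N, _, hgE ⟨a, ⟨ρ, hρ⟩, ⟨ω, hω⟩⟩, van_eq (van_zero _) (by simp) rfl⟩
  refine ⟨n₀, fun n hn i c hc hcc => ?_⟩
  have hm : ∀ a b, ∃ e₀, ∀ e, e₀ ≤ e → ∃ y ∈ E (n + 2 * e) i, LeOn k τ {a}
      ((y a - c a b * (τ a * τ b) ^ e) * ε a) (s * (τ a ^ (n + 2 * e) * ε a ^ i)) := by
    intro a b
    have ha := h0 a
    obtain ⟨N1, e1⟩ := LeOn.exists_pow h0 (I := {a}) (a := a) rfl b
      ((hc a b).mono (by rw [Set.pair_comm]))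
    obtain ⟨N2, e2⟩ := hloc a i (c a b * τ b ^ N1 / τ a ^ (n + N1))
      (van_cancel (pow_ne_zero (n + N1) ha) (van_eq (e1 N1 le_rfl) (by field_simp) (by ring)))
    refine ⟨N1 + N2, fun e he => ?_⟩
    obtain ⟨M, rfl⟩ := Nat.exists_eq_add_of_le (show N1 ≤ e by omega)
    obtain ⟨y, hy, h⟩ := (e2.mono hE (show N2 ≤ n + N1 + (N1 + M) by omega)).mul_pow hE b M
    have hd : n + N1 + (N1 + M) + M = n + 2 * (N1 + M) := by ring
    rw [hd] at hy h
    exact ⟨y, hy, van_eq h (by field_simp; ring) rfl⟩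
  choose e₀ he₀ using hm
  obtain ⟨e, he⟩ := (Set.finite_range fun q : α × α => e₀ q.1 q.2).bddAbove
  choose m hmE hm using fun a b => he₀ a b e (he ⟨(a, b), rfl⟩)
  obtain ⟨e', e'', y, hy, hyy⟩ := hn₀ n hn i e m hmE (fun a b d => by
    have ha : a ∈ ({a, b, d} : Set α) := by simp
    have hb : b ∈ ({a, b, d} : Set α) := by simp
    have hz : (fun _ => τ d) ^ e * m a b + (fun _ => τ a) ^ e * m b d -
        (fun _ => τ b) ^ e * m a d ∈ van_G k τ ε s (n + 3 * e) i := by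
      have hd : n + 2 * e + e = n + 3 * e := by ring
      rw [← hd]
      exact hEG _ _ (sub_mem (add_mem (hE.pow d e (hmE a b)) (hE.pow a e (hmE b d)))
        (hE.pow b e (hmE a d)))
    refine van_kill h0 hεε hz ?_
    have q1 := van_mul (van_pow (van_tau ha d) e) (van_one ha (hm a b))
    have q2 := van_mul (van_pow (van_tau ha a) e) (van_chgS hεε ha hb (van_one hb (hm b d)))
    have q3 := van_mul (van_pow (van_tau ha b) e) (van_one ha (hm a d))
    have q4 := van_mul (van_pow (van_tau ha a) e) (van_two ha hb ((hEG _ _ (hmE b d)).2 a b))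
    have q5 := van_mul (van_pow (van_mul (van_mul (van_tau ha a) (van_tau ha b))
      (van_tau ha d)) e) (hcc a b d)
    refine van_eq (van_add (van_add (van_sub (van_add q1 q2) q3) q4)
      (van_eq q5 rfl (by ring))) ?_ (by ring)
    simp only [Pi.sub_apply, Pi.add_apply, Pi.mul_apply, Pi.pow_apply]
    ring)
  refine ⟨fun a => y a a / τ a ^ e', fun a => ?_, fun a b => ?_⟩
  · have ha := h0 a
    exact van_cancel (pow_ne_zero e' ha) (van_eq ((hy a).1 a) (by field_simp) (by ring))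
  · have ha : a ∈ ({a, b} : Set α) := by simp
    have hb : b ∈ ({a, b} : Set α) := by simp
    have ha0 := h0 a
    have hb0 := h0 b
    have hab := van_mul (van_tau (k := k) (τ := τ) ha a) (van_tau (k := k) (τ := τ) ha b)
    have hba := van_mul (van_tau (k := k) (τ := τ) ha a) (van_tau (k := k) (τ := τ) hb a)
    have q1 := van_one ha (hyy a b a)
    have q2 := van_mul (van_pow hab (e'' + e')) (van_one ha (hm a b))
    have q3 := van_mul (van_mul (van_pow hab (e'' + e)) (van_refl (τ a ^ e'))) ((hy b).2 a b)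
    have q4 : LeOn k τ {a, b} (s * (τ a ^ (n + 2 * e + 2 * e' + 2 * e'') * ε a ^ i))
        (s * (τ a ^ n * ε a ^ i) * (τ a * τ b) ^ (e + e' + e'')) :=
      van_eq (van_mul (van_refl (s * (τ a ^ n * ε a ^ i))) (van_pow hba (e + e' + e'')))
        (by ring) rfl
    refine van_cancel (pow_ne_zero (e + e' + e'') (mul_ne_zero ha0 hb0)) (van_trans ?_ q4)
    refine van_eq (van_sub (van_sub q1 (van_eq q2 rfl (by ring))) (van_eq q3 rfl (by ring))) ?_ rfl
    simp only [Pi.sub_apply, Pi.mul_apply, Pi.pow_apply]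
    field_simp
    ring

end

end Pool.Agent.Lib.MP_1c03d5_ag
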